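import Mathlib

set_option linter.unusedSimpArgs false

namespace Pool.Agent.Run7.h906

abbrev End := ℕ × Bool

/-- the dual end -/
def du (e : End) : End := (e.1, !e.2)

@[simp] lemma du_du (e : End) : du (du e) = e := by simp [du]

@[simp] lemma du_fst (e : End) : (du e).1 = e.1 := rfl

lemma du_inj {e f : End} (h : du e = du f) : e = f := by
  rw [← du_du e, h, du_du]

abbrev Piece := End × List ℕ × End

/-- the same piece read backwards -/
def fl (P : Piece) : Piece := (P.2.2, P.2.1.reverse, P.1)

@[simp] lemma fl_fl (P : Piece) : fl (fl P) = P := by simp [fl]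

instance pieceSetoid : Setoid Piece where
  r P Q := Q = P ∨ Q = fl P
  iseqv := by
    refine ⟨fun P => Or.inl rfl, ?_, ?_⟩
    · rintro P Q (rfl | rfl)
      · exact Or.inl rfl
      · exact Or.inr (by simp)
    · rintro P Q R (rfl | rfl) (rfl | rfl)
      · exact Or.inl rfl
      · exact Or.inr rfl
      · exact Or.inr rfl
      · exact Or.inl (by simp)

abbrev QP := Quotient pieceSetoid

/-- a piece up to reading direction -/
def qp (P : Piece) : QP := Quotient.mk _ P

lemma qp_eq {P Q : Piece} : qp P = qp Q ↔ Q = P ∨ Q = fl P :=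
  Quotient.eq

@[simp] lemma qp_fl (P : Piece) : qp (fl P) = qp P := by
  rw [qp_eq]; right; simp

/-- a list of pieces leads from the end `p` to the end `q` -/
def Path : End → List Piece → End → Prop
  | p, [], q => p = q
  | p, P :: l, q => P.1 = p ∧ Path (du P.2.2) l q

/-- the word read along a list of pieces -/
def word (l : List Piece) : List ℕ := l.flatMap (fun P => P.2.1)

@[simp] lemma word_nil : word [] = [] := rfl

@[simp] lemma word_cons (P : Piece) (l : List Piece) : word (P :: l) = P.2.1 ++ word l := rfl

@[simp] lemma word_append (l l' : List Piece) : word (l ++ l') = word l ++ word l' := by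
  simp [word]

lemma path_append (l l' : List Piece) (p q : End) :
    Path p (l ++ l') q ↔ ∃ m, Path p l m ∧ Path m l' q := by
  induction l generalizing p with
  | nil => simp [Path]
  | cons P l ih =>
    simp only [List.cons_append, Path, ih]
    constructor
    · rintro ⟨h1, m, h2, h3⟩
      exact ⟨m, ⟨h1, h2⟩, h3⟩
    · rintro ⟨m, ⟨h1, h2⟩, h3⟩
      exact ⟨h1, m, h2, h3⟩

/-- the reversed tour -/
def rv (l : List Piece) : List Piece := (l.map fl).reverse

lemma rv_cons (P : Piece) (l : List Piece) : rv (P :: l) = rv l ++ [fl P] := by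
  simp [rv]

lemma path_rv (l : List Piece) (p q : End) (h : Path p l q) : Path (du q) (rv l) (du p) := by
  induction l generalizing p with
  | nil => simp only [Path] at h; subst h; rfl
  | cons P l ih =>
    obtain ⟨h1, h2⟩ := h
    rw [rv_cons, path_append]
    refine ⟨_, ih _ h2, ?_⟩
    rw [du_du]
    exact ⟨rfl, by rw [← h1]; rfl⟩

lemma word_rv (l : List Piece) : word (rv l) = (word l).reverse := by
  induction l with
  | nil => rfl
  | cons P l ih =>
    rw [rv_cons, word_append, ih]
    simp [fl]

lemma map_qp_rv (l : List Piece) : ((rv l).map qp).Perm (l.map qp) := by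
  unfold rv
  rw [List.map_reverse]
  refine (List.reverse_perm _).trans ?_
  rw [List.map_map]
  have : (qp ∘ fl) = qp := by funext P; simp
  rw [this]

/-- A closed tour through all the pieces of `S` whose word satisfies `C`. -/
def CC (C : List ℕ → Prop) (S : List Piece) : Prop :=
  ∃ l p, Path p l p ∧ (l.map qp).Perm (S.map qp) ∧ C (word l)

/-- closed under rotation and reversal -/
structure RR (C : List ℕ → Prop) : Prop where
  rot : ∀ u v, C (u ++ v) → C (v ++ u)
  rev : ∀ u, C u → C u.reverse

lemma CC_mono {C C' : List ℕ → Prop} {S : List Piece} (h : ∀ u, C u → C' u) (hc : CC C S) :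
    CC C' S := by
  obtain ⟨l, p, h1, h2, h3⟩ := hc
  exact ⟨l, p, h1, h2, h _ h3⟩

lemma CC_congr {C : List ℕ → Prop} {S S' : List Piece} (h : (S.map qp).Perm (S'.map qp)) :
    CC C S ↔ CC C S' := by
  constructor
  · rintro ⟨l, p, h1, h2, h3⟩
    exact ⟨l, p, h1, h2.trans h, h3⟩
  · rintro ⟨l, p, h1, h2, h3⟩
    exact ⟨l, p, h1, h2.trans h.symm, h3⟩

lemma CC_perm {C : List ℕ → Prop} {S S' : List Piece} (h : S.Perm S') :
    CC C S ↔ CC C S' := CC_congr (h.map qp)

lemma CC_cons_iff {C : List ℕ → Prop} (hC : RR C) (P : Piece) (R : List Piece) :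
    CC C (P :: R) ↔ ∃ l, Path (du P.2.2) l P.1 ∧ (l.map qp).Perm (R.map qp) ∧
      C (P.2.1 ++ word l) := by
  constructor
  · rintro ⟨l, p, h1, h2, h3⟩
    have hm : qp P ∈ l.map qp := by
      rw [h2.mem_iff]; simp
    rw [List.mem_map] at hm
    obtain ⟨Q, hQ, hq⟩ := hm
    obtain ⟨l1, l2, rfl⟩ := List.append_of_mem hQ
    rw [path_append] at h1
    obtain ⟨m, h4, h5⟩ := h1
    have h6 : ((l2 ++ l1).map qp).Perm (R.map qp) := by
      have e1 : ((l1 ++ Q :: l2).map qp).Perm (qp P :: (l2 ++ l1).map qp) := by
        simp only [List.map_append, List.map_cons]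
        refine List.perm_middle.trans ?_
        rw [hq]
        exact List.Perm.cons _ List.perm_append_comm
      exact (e1.symm.trans h2).cons_inv
    have h7 : C (Q.2.1 ++ word (l2 ++ l1)) := by
      rw [word_append, word_cons] at h3
      have := hC.rot _ _ h3
      simpa using this
    rcases qp_eq.1 hq with hPQ | hPQ
    · -- `P = Q`
      subst hPQ
      refine ⟨l2 ++ l1, ?_, h6, h7⟩
      rw [path_append]
      obtain ⟨h8, h9⟩ := h5
      exact ⟨p, h9, by rw [h8]; exact h4⟩
    · refine ⟨rv (l2 ++ l1), ?_, (map_qp_rv _).trans h6, ?_⟩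
      · obtain ⟨h8, h9⟩ := h5
        have h10 : Path (du Q.2.2) (l2 ++ l1) Q.1 := by
          rw [path_append]
          exact ⟨p, h9, by rw [h8]; exact h4⟩
        have h11 := path_rv _ _ _ h10
        rw [du_du] at h11
        rw [hPQ]
        exact h11
      · have h12 := hC.rev _ h7
        rw [List.reverse_append] at h12
        have h13 := hC.rot _ _ h12
        rw [word_rv, hPQ]
        exact h13
  · rintro ⟨l, h1, h2, h3⟩
    refine ⟨P :: l, P.1, ⟨rfl, h1⟩, ?_, h3⟩
    simpa using h2

/-- the name `n` does not occur -/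
def Fresh (n : ℕ) (R : List Piece) : Prop := ∀ P ∈ R, P.1.1 ≠ n ∧ P.2.2.1 ≠ n

lemma Fresh.cons {n : ℕ} {P : Piece} {R : List Piece} (h1 : P.1.1 ≠ n) (h2 : P.2.2.1 ≠ n)
    (h : Fresh n R) : Fresh n (P :: R) := by
  intro Q hQ
  rcases List.mem_cons.1 hQ with rfl | hQ
  · exact ⟨h1, h2⟩
  · exact h Q hQ

lemma Fresh.append {n : ℕ} {R R' : List Piece} (h : Fresh n R) (h' : Fresh n R') :
    Fresh n (R ++ R') := by
  intro Q hQ
  rcases List.mem_append.1 hQ with hQ | hQ
  · exact h Q hQ
  · exact h' Q hQ

lemma fresh_nil (n : ℕ) : Fresh n [] := by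
  intro Q hQ; simp at hQ

/-- joining two pieces at an inner end -/
lemma join {C : List ℕ → Prop} (hC : RR C) (p : End) (u : List ℕ) (e : End) (v : List ℕ)
    (q : End) (R : List Piece) (hR : Fresh e.1 R) (hq : q.1 ≠ e.1) :
    CC C ((p, u, e) :: (du e, v, q) :: R) ↔ CC C ((p, u ++ v, q) :: R) := by
  rw [CC_cons_iff hC, CC_cons_iff hC]
  constructor
  · rintro ⟨l, h1, h2, h3⟩
    cases l with
    | nil => simp at h2
    | cons Q l =>
      obtain ⟨h4, h5⟩ := h1
      have hm : qp Q ∈ ((du e, v, q) :: R).map qp := by
        rw [← h2.mem_iff]; simp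
      rw [List.mem_map] at hm
      obtain ⟨P', hP', hq'⟩ := hm
      have hQP : Q = (du e, v, q) := by
        rcases List.mem_cons.1 hP' with rfl | hP'
        · rcases qp_eq.1 hq' with h | h
          · exact h
          · exfalso
            rw [h] at h4
            simp only [fl] at h4
            apply hq
            rw [h4]; rfl
        · exfalso
          obtain ⟨f1, f2⟩ := hR P' hP'
          rcases qp_eq.1 hq' with h | h
          · rw [h] at h4
            apply f1
            rw [h4]; rfl
          · rw [h] at h4
            simp only [fl] at h4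
            apply f2
            rw [h4]; rfl
      subst hQP
      refine ⟨l, h5, ?_, ?_⟩
      · simp only [List.map_cons] at h2
        exact h2.cons_inv
      · simpa using h3
  · rintro ⟨l, h1, h2, h3⟩
    refine ⟨(du e, v, q) :: l, ⟨rfl, h1⟩, ?_, ?_⟩
    · simpa using h2
    · simpa using h3

/-- a closed component besides other pieces -/
lemma no_circle {C : List ℕ → Prop} (hC : RR C) (e : End) (u : List ℕ) (R : List Piece)
    (hR : Fresh e.1 R) (hne : R ≠ []) : ¬ CC C ((e, u, du e) :: R) := by
  rw [CC_cons_iff hC]
  rintro ⟨l, h1, h2, h3⟩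
  cases l with
  | nil =>
    simp only [List.map_nil] at h2
    have := h2.nil_eq
    simp at this
    exact hne this
  | cons Q l =>
    obtain ⟨h4, h5⟩ := h1
    have hm : qp Q ∈ R.map qp := by
      rw [← h2.mem_iff]; simp
    rw [List.mem_map] at hm
    obtain ⟨P', hP', hq'⟩ := hm
    obtain ⟨f1, f2⟩ := hR P' hP'
    rcases qp_eq.1 hq' with h | h
    · rw [h] at h4
      apply f1
      rw [h4]; simp
    · rw [h] at h4
      simp only [fl] at h4
      apply f2
      rw [h4]; simp

lemma CC_single {C : List ℕ → Prop} (hC : RR C) (e : End) (u : List ℕ) :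
    CC C [(e, u, du e)] ↔ C u := by
  rw [CC_cons_iff hC]
  constructor
  · rintro ⟨l, h1, h2, h3⟩
    have : l = [] := by
      have := h2.length_eq
      simpa using this
    subst this
    simpa using h3
  · intro h
    exact ⟨[], by simp [Path], by simp, by simpa using h⟩

/-! ### elimination of inner names in a concrete list of pieces -/

/-- does the piece touch the name `n`? -/
def tch (n : ℕ) (P : Piece) : Bool := (P.1.1 == n) || (P.2.2.1 == n)

/-- read the piece so that it ends at `n` -/
def tlp (n : ℕ) (P : Piece) : Piece := if P.2.2.1 = n then P else fl P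

/-- read the piece so that it starts at `n` -/
def hdp (n : ℕ) (P : Piece) : Piece := if P.1.1 = n then P else fl P

@[simp] lemma qp_tlp (n : ℕ) (P : Piece) : qp (tlp n P) = qp P := by
  unfold tlp; split_ifs <;> simp

@[simp] lemma qp_hdp (n : ℕ) (P : Piece) : qp (hdp n P) = qp P := by
  unfold hdp; split_ifs <;> simp

/-- eliminate the name `n`; `none` means a closed component was found -/
def el (n : ℕ) (L : List Piece) : Option (List Piece) :=
  match L.filter (tch n) with
  | [P] => if P.1.1 = n ∧ P.2.2 = du P.1 then none else some L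
  | [P, Q] =>
    if (tlp n P).2.2.1 = n ∧ (hdp n Q).1 = du (tlp n P).2.2 ∧ (hdp n Q).2.2.1 ≠ n then
      some (((tlp n P).1, (tlp n P).2.1 ++ (hdp n Q).2.1, (hdp n Q).2.2) ::
        L.filter (fun P => !tch n P))
    else some L
  | _ => some L

lemma fresh_filter (n : ℕ) (L : List Piece) : Fresh n (L.filter (fun P => !tch n P)) := by
  intro P hP
  rw [List.mem_filter] at hP
  have := hP.2
  simp only [tch, Bool.not_eq_true', Bool.or_eq_false_iff, beq_eq_false_iff_ne] at this
  exact this

lemma filter_split (n : ℕ) (L R : List Piece) :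
    (L.filter (tch n) ++ (L.filter (fun P => !tch n P) ++ R)).Perm (L ++ R) := by
  rw [← List.append_assoc]
  exact (List.filter_append_perm _ _).append_right R

/-- what the result of an elimination says -/
def Says (C : List ℕ → Prop) (R : List Piece) : Option (List Piece) → Prop
  | none => False
  | some L => CC C (L ++ R)

lemma el_says {C : List ℕ → Prop} (hC : RR C) (n : ℕ) (L R : List Piece) (hR : Fresh n R)
    (hne : R ≠ []) : CC C (L ++ R) ↔ Says C R (el n L) := by
  have hp := filter_split n L R
  unfold el
  split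
  · rename_i P hP
    split_ifs with h
    · simp only [Says, iff_false]
      rw [← CC_perm hp, hP]
      obtain ⟨p, u, q⟩ := P
      simp only at h
      obtain ⟨h1, h2⟩ := h
      rw [h2]
      apply no_circle hC
      · rw [h1]
        exact (fresh_filter n L).append hR
      · simp [hne]
    · rfl
  · rename_i P Q hPQ
    split_ifs with h
    · obtain ⟨h1, h2, h3⟩ := h
      simp only [Says]
      rw [← CC_perm hp, hPQ]
      have e1 : qp P = qp (tlp n P) := by simp
      have e2 : qp Q = qp (hdp n Q) := by simp
      set P' := tlp n P with hP'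
      set Q' := hdp n Q with hQ'
      have e3 : CC C ([P, Q] ++ (L.filter (fun P => !tch n P) ++ R)) ↔
          CC C (P' :: Q' :: (L.filter (fun P => !tch n P) ++ R)) := by
        apply CC_congr
        simp only [List.cons_append, List.nil_append, List.map_cons, e1, e2]
        exact List.Perm.refl _
      rw [e3]
      have e4 : P' = (P'.1, P'.2.1, P'.2.2) := rfl
      have e5 : Q' = (du P'.2.2, Q'.2.1, Q'.2.2) := by rw [← h2]
      rw [e4, e5]
      rw [join hC]
      · rfl
      · show Fresh (P'.2.2.1) _
        rw [h1]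
        exact (fresh_filter n L).append hR
      · show Q'.2.2.1 ≠ P'.2.2.1
        rw [h1]; exact h3
    · rfl
  · rfl

/-- eliminate a list of names -/
def els : List ℕ → List Piece → Option (List Piece)
  | [], L => some L
  | n :: ns, L => (el n L).bind (els ns)

lemma els_says {C : List ℕ → Prop} (hC : RR C) (ns : List ℕ) (L R : List Piece)
    (hR : ∀ n ∈ ns, Fresh n R) (hne : R ≠ []) : CC C (L ++ R) ↔ Says C R (els ns L) := by
  induction ns generalizing L with
  | nil => rfl
  | cons n ns ih =>
    rw [el_says hC n L R (hR n (by simp)) hne]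
    simp only [els]
    cases hl : el n L with
    | none => simp [Says]
    | some L' =>
      simp only [Says, Option.bind_some]
      exact ih L' (fun m hm => hR m (by simp [hm]))

/-- canonical direction -/
def cn (P : Piece) : Piece := if P.1.1 ≤ P.2.2.1 then P else fl P

@[simp] lemma qp_cn (P : Piece) : qp (cn P) = qp P := by
  unfold cn; split_ifs <;> simp

/-- insertion sort by the first name -/
def ins (P : Piece) : List Piece → List Piece
  | [] => [P]
  | Q :: L => if P.1.1 ≤ Q.1.1 then P :: Q :: L else Q :: ins P L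

def srt : List Piece → List Piece
  | [] => []
  | P :: L => ins (cn P) (srt L)

lemma ins_perm (P : Piece) (L : List Piece) : (ins P L).Perm (P :: L) := by
  induction L with
  | nil => exact List.Perm.refl _
  | cons Q L ih =>
    unfold ins
    split_ifs
    · exact List.Perm.refl _
    · exact (ih.cons Q).trans (List.Perm.swap _ _ _)

lemma srt_qp (L : List Piece) : ((srt L).map qp).Perm (L.map qp) := by
  induction L with
  | nil => exact List.Perm.refl _
  | cons P L ih =>
    unfold srt
    refine ((ins_perm _ _).map qp).trans ?_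
    simp only [List.map_cons, qp_cn]
    exact ih.cons _

/-- normal form -/
def nf (ns : List ℕ) (L : List Piece) : Option (List Piece) := (els ns L).map srt

lemma nf_says {C : List ℕ → Prop} (hC : RR C) (ns : List ℕ) (L R : List Piece)
    (hR : ∀ n ∈ ns, Fresh n R) (hne : R ≠ []) : CC C (L ++ R) ↔ Says C R (nf ns L) := by
  rw [els_says hC ns L R hR hne]
  unfold nf
  cases els ns L with
  | none => rfl
  | some L' =>
    simp only [Says, Option.map_some]
    apply CC_congr
    rw [List.map_append, List.map_append]
    exact ((srt_qp L').symm).append_right _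

/-- indicator in `ZMod 2` -/
noncomputable def ind (p : Prop) : ZMod 2 := by
  classical exact if p then 1 else 0

lemma ind_congr {p q : Prop} (h : p ↔ q) : ind p = ind q := by
  unfold ind
  by_cases hp : p
  · have hq := h.1 hp
    simp [hp, hq]
  · have hq : ¬ q := fun hq => hp (h.2 hq)
    simp [hp, hq]

lemma ind_true {p : Prop} (h : p) : ind p = 1 := by simp [ind, h]

lemma ind_false {p : Prop} (h : ¬ p) : ind p = 0 := by simp [ind, h]

noncomputable def val (C : List ℕ → Prop) (R : List Piece) (o : Option (List Piece)) : ZMod 2 :=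
  ind (Says C R o)

lemma val_nf {C : List ℕ → Prop} (hC : RR C) (ns : List ℕ) (L R : List Piece)
    (hR : ∀ n ∈ ns, Fresh n R) (hne : R ≠ []) : ind (CC C (L ++ R)) = val C R (nf ns L) :=
  ind_congr (nf_says hC ns L R hR hne)

/-- all values cancel -/
lemma cancel (C : List ℕ → Prop) (R : List Piece) (l : List (Option (List Piece)))
    (h : ∀ x ∈ l, x = none ∨ l.countP (fun y => decide (y = x)) % 2 = 0) :
    (l.map (val C R)).sum = 0 := by
  classical
  rw [Finset.sum_list_map_count]
  apply Finset.sum_eq_zero
  intro x hx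
  rcases h x (List.mem_toFinset.1 hx) with rfl | h2
  · simp [val, Says, ind]
  · obtain ⟨k, hk⟩ := Nat.dvd_of_mod_eq_zero h2
    have hm : ∀ m : ℕ, m = 2 * k → m • val C R x = 0 := by
      intro m hm
      rw [hm, mul_smul, ← Nat.cast_smul_eq_nsmul (ZMod 2)]
      have : ((2 : ℕ) : ZMod 2) = 0 := by decide
      rw [this, zero_smul]
    apply hm
    rw [← hk]
    unfold List.count
    apply List.countP_congr
    intro y _
    simp

end Pool.Agent.Run7.h906
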