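import Mathlib
import Pool.Agent.Run7.h906.Tour

set_option linter.unusedSimpArgs false

namespace Pool.Agent.Run7.h906

/-- name of the left side of the token `x` -/
def Lx (x : ℕ) : ℕ := 16 + 2 * x

/-- name of the right side of the token `x` -/
def Rx (x : ℕ) : ℕ := 17 + 2 * x

/-- a strand through the tokens, the first piece carries the word `u` -/
def Ew : End → List ℕ → List ℕ → End → List Piece
  | p, u, [], q => [(p, u, q)]
  | p, u, x :: xs, q => (p, u, (Lx x, false)) :: Ew (Rx x, false) [] xs q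

lemma Ew_ne (p : End) (u w : List ℕ) (q : End) : Ew p u w q ≠ [] := by
  cases w <;> simp [Ew]

/-- the token is visited -/
def xp (x : ℕ) : Piece := ((Lx x, true), [x], (Rx x, true))

/-- the token is visited but not recorded -/
def bl (x : ℕ) : Piece := ((Lx x, true), [], (Rx x, true))

lemma fresh_Ew {n : ℕ} {p : End} {u w : List ℕ} {q : End} (hp : p.1 ≠ n) (hq : q.1 ≠ n)
    (hw : ∀ x ∈ w, Lx x ≠ n ∧ Rx x ≠ n) : Fresh n (Ew p u w q) := by
  induction w generalizing p u with
  | nil =>
    intro P hP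
    simp only [Ew, List.mem_singleton] at hP
    subst hP
    exact ⟨hp, hq⟩
  | cons x xs ih =>
    simp only [Ew]
    have hx := hw x (by simp)
    exact Fresh.cons hp hx.1 (ih hx.2 (fun y hy => hw y (by simp [hy])))

lemma small_tok {n : ℕ} (hn : n < 16) (w : List ℕ) : ∀ x ∈ w, Lx x ≠ n ∧ Rx x ≠ n := by
  intro x _
  unfold Lx Rx
  omega

lemma CC_move {C : List ℕ → Prop} (P : Piece) (L R : List Piece) :
    CC C (P :: (L ++ R)) ↔ CC C (L ++ (P :: R)) := CC_perm List.perm_middle.symm

lemma headjoin {C : List ℕ → Prop} (hC : RR C) (p : End) (u : List ℕ) (e : End) (v : List ℕ)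
    (w : List ℕ) (q : End) (R : List Piece) (hR : Fresh e.1 R) (hq : q.1 ≠ e.1)
    (hw : ∀ x ∈ w, Lx x ≠ e.1 ∧ Rx x ≠ e.1) :
    CC C ((p, u, e) :: (Ew (du e) v w q ++ R)) ↔ CC C (Ew p (u ++ v) w q ++ R) := by
  cases w with
  | nil => exact join hC p u e v q R hR hq
  | cons x xs =>
    have hx := hw x (by simp)
    apply join hC p u e v
    · exact (fresh_Ew hx.2 hq (fun y hy => hw y (by simp [hy]))).append hR
    · exact hx.1

/-- cutting a strand -/
lemma cut {C : List ℕ → Prop} (hC : RR C) (m : ℕ) (hm : m < 16) (p : End) (w u v : List ℕ)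
    (q : End) (R : List Piece) (hR : Fresh m R) (hp : p.1 ≠ m) (hq : q.1 ≠ m) :
    CC C (Ew p w (u ++ v) q ++ R) ↔
      CC C (Ew p w u (m, false) ++ (Ew (m, true) [] v q ++ R)) := by
  induction u generalizing p w R with
  | nil =>
    have := headjoin hC p w (m, false) [] v q R hR hq (small_tok hm v)
    simp only [List.append_nil] at this
    rw [List.nil_append]
    exact this.symm
  | cons x xs ih =>
    simp only [List.cons_append, Ew]
    rw [CC_move, CC_move]
    have hx := small_tok hm [x] x (by simp)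
    rw [ih (Rx x, false) [] ((p, w, (Lx x, false)) :: R) (Fresh.cons hp hx.1 hR) hx.2]
    apply CC_perm
    refine List.Perm.append_left _ ?_
    exact List.perm_middle

/-- joining at the end of a strand -/
lemma endjoin {C : List ℕ → Prop} (hC : RR C) (e : End) (p : End) (u w : List ℕ)
    (q : End) (R : List Piece) (hR : Fresh e.1 R) (hp : p.1 ≠ e.1) (hq : q.1 ≠ e.1)
    (hw : ∀ x ∈ w, Lx x ≠ e.1 ∧ Rx x ≠ e.1) :
    CC C (Ew p u w e ++ ((du e, [], q) :: R)) ↔ CC C (Ew p u w q ++ R) := by
  induction w generalizing p u R with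
  | nil =>
    have := join hC p u e [] q R hR hq
    simp only [List.append_nil] at this
    exact this
  | cons x xs ih =>
    simp only [List.cons_append, Ew]
    have hx := hw x (by simp)
    rw [CC_move, CC_move]
    rw [← ih (Rx x, false) [] ((p, u, (Lx x, false)) :: R) (Fresh.cons hp hx.1 hR) hx.2
      (fun y hy => hw y (by simp [hy]))]
    apply CC_perm
    refine List.Perm.append_left _ ?_
    exact List.Perm.swap _ _ _

lemma fresh_map_bl {n : ℕ} {w : List ℕ} (hw : ∀ x ∈ w, Lx x ≠ n ∧ Rx x ≠ n) :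
    Fresh n (w.map bl) := by
  intro P hP
  rw [List.mem_map] at hP
  obtain ⟨x, hx, rfl⟩ := hP
  exact hw x hx

lemma fresh_map_xp {n : ℕ} {w : List ℕ} (hw : ∀ x ∈ w, Lx x ≠ n ∧ Rx x ≠ n) :
    Fresh n (w.map xp) := by
  intro P hP
  rw [List.mem_map] at hP
  obtain ⟨x, hx, rfl⟩ := hP
  exact hw x hx

lemma LR_ne (x y : ℕ) : Lx x ≠ Rx y := by unfold Lx Rx; omega

lemma LL_ne {x y : ℕ} (h : x ≠ y) : Lx x ≠ Lx y := by unfold Lx; omega

lemma RR_ne {x y : ℕ} (h : x ≠ y) : Rx x ≠ Rx y := by unfold Rx; omega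

/-- deleting unrecorded tokens -/
lemma del {C : List ℕ → Prop} (hC : RR C) (keep : ℕ → Bool) (t : List ℕ) (hnd : t.Nodup)
    (p : End) (u : List ℕ) (q : End) (R : List Piece)
    (hp : ∀ x ∈ t, p.1 ≠ Lx x ∧ p.1 ≠ Rx x) (hq : ∀ x ∈ t, q.1 ≠ Lx x ∧ q.1 ≠ Rx x)
    (hR : ∀ x ∈ t, keep x = false → Fresh (Lx x) R ∧ Fresh (Rx x) R) :
    CC C (Ew p u t q ++ ((t.filter (fun x => !keep x)).map bl ++ R)) ↔
      CC C (Ew p u (t.filter keep) q ++ R) := by
  induction t generalizing p u R with
  | nil => simp [Ew]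
  | cons x xs ih =>
    rw [List.nodup_cons] at hnd
    obtain ⟨hx, hnd⟩ := hnd
    have hne : ∀ y ∈ xs, y ≠ x := by rintro y hy rfl; exact hx hy
    cases hk : keep x with
    | true =>
      rw [List.filter_cons_of_neg (by simp [hk]), List.filter_cons_of_pos hk]
      simp only [Ew, List.cons_append]
      rw [CC_move, CC_move]
      have hperm : (Ew (Rx x, false) [] xs q ++
          (p, u, (Lx x, false)) :: ((xs.filter (fun x => !keep x)).map bl ++ R)).Perm
          (Ew (Rx x, false) [] xs q ++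
          ((xs.filter (fun x => !keep x)).map bl ++ ((p, u, (Lx x, false)) :: R))) :=
        List.Perm.append_left _ List.perm_middle.symm
      rw [CC_perm hperm]
      apply ih hnd
      · intro y hy
        exact ⟨(LR_ne y x).symm, RR_ne (hne y hy).symm⟩
      · intro y hy
        exact hq y (by simp [hy])
      · intro y hy hky
        obtain ⟨h1, h2⟩ := hR y (by simp [hy]) hky
        obtain ⟨h3, h4⟩ := hp y (by simp [hy])
        exact ⟨Fresh.cons h3 (LL_ne (hne y hy).symm) h1, Fresh.cons h4 (LR_ne x y) h2⟩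
    | false =>
      rw [List.filter_cons_of_pos (by simp [hk]), List.filter_cons_of_neg (by simp [hk])]
      simp only [Ew, List.cons_append, List.map_cons]
      have hperm : ((p, u, (Lx x, false)) :: (Ew (Rx x, false) [] xs q ++
          bl x :: ((xs.filter (fun x => !keep x)).map bl ++ R))).Perm
          ((p, u, (Lx x, false)) :: bl x :: (Ew (Rx x, false) [] xs q ++
          ((xs.filter (fun x => !keep x)).map bl ++ R))) :=
        List.Perm.cons _ List.perm_middle
      rw [CC_perm hperm]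
      obtain ⟨hR1, hR2⟩ := hR x (by simp) hk
      obtain ⟨hq1, hq2⟩ := hq x (by simp)
      have hb1 : Fresh (Lx x) ((xs.filter (fun x => !keep x)).map bl) :=
        fresh_map_bl (fun y hy => ⟨LL_ne (hne y (List.mem_of_mem_filter hy)),
          (LR_ne x y).symm⟩)
      have hb2 : Fresh (Rx x) ((xs.filter (fun x => !keep x)).map bl) :=
        fresh_map_bl (fun y hy => ⟨LR_ne y x, RR_ne (hne y (List.mem_of_mem_filter hy))⟩)
      have hE : Fresh (Lx x) (Ew (Rx x, false) [] xs q) :=
        fresh_Ew (LR_ne x x).symm hq1 (fun y hy => ⟨LL_ne (hne y hy), (LR_ne x y).symm⟩)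
      have j1 := join hC p u (Lx x, false) [] (Rx x, true)
        (Ew (Rx x, false) [] xs q ++ ((xs.filter (fun x => !keep x)).map bl ++ R))
        (hE.append (hb1.append hR1)) (LR_ne x x).symm
      have j2 := headjoin hC p (u ++ []) (Rx x, true) [] xs q
        ((xs.filter (fun x => !keep x)).map bl ++ R) (hb2.append hR2) hq2
        (fun y hy => ⟨LR_ne y x, RR_ne (hne y hy)⟩)
      refine (Iff.trans j1 j2).trans ?_
      rw [List.append_nil, List.append_nil]
      apply ih hnd
      · intro y hy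
        exact hp y (by simp [hy])
      · intro y hy
        exact hq y (by simp [hy])
      · intro y hy hky
        exact hR y (by simp [hy]) hky

/-- collapsing a fully recorded strand -/
lemma col {C : List ℕ → Prop} (hC : RR C) (t : List ℕ) (hnd : t.Nodup)
    (p : End) (u : List ℕ) (q : End) (R : List Piece)
    (hq : ∀ x ∈ t, q.1 ≠ Lx x ∧ q.1 ≠ Rx x)
    (hR : ∀ x ∈ t, Fresh (Lx x) R ∧ Fresh (Rx x) R) :
    CC C (Ew p u t q ++ (t.map xp ++ R)) ↔ CC C ((p, u ++ t, q) :: R) := by
  induction t generalizing p u with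
  | nil => simp [Ew]
  | cons x xs ih =>
    rw [List.nodup_cons] at hnd
    obtain ⟨hx, hnd⟩ := hnd
    have hne : ∀ y ∈ xs, y ≠ x := by rintro y hy rfl; exact hx hy
    simp only [Ew, List.cons_append, List.map_cons]
    have hperm : ((p, u, (Lx x, false)) :: (Ew (Rx x, false) [] xs q ++
        xp x :: (xs.map xp ++ R))).Perm
        ((p, u, (Lx x, false)) :: xp x :: (Ew (Rx x, false) [] xs q ++
        (xs.map xp ++ R))) :=
      List.Perm.cons _ List.perm_middle
    rw [CC_perm hperm]
    obtain ⟨hR1, hR2⟩ := hR x (by simp)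
    obtain ⟨hq1, hq2⟩ := hq x (by simp)
    have hb1 : Fresh (Lx x) (xs.map xp) :=
      fresh_map_xp (fun y hy => ⟨LL_ne (hne y hy), (LR_ne x y).symm⟩)
    have hb2 : Fresh (Rx x) (xs.map xp) :=
      fresh_map_xp (fun y hy => ⟨LR_ne y x, RR_ne (hne y hy)⟩)
    have hE : Fresh (Lx x) (Ew (Rx x, false) [] xs q) :=
      fresh_Ew (LR_ne x x).symm hq1 (fun y hy => ⟨LL_ne (hne y hy), (LR_ne x y).symm⟩)
    have j1 := join hC p u (Lx x, false) [x] (Rx x, true)
      (Ew (Rx x, false) [] xs q ++ (xs.map xp ++ R))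
      (hE.append (hb1.append hR1)) (LR_ne x x).symm
    have j2 := headjoin hC p (u ++ [x]) (Rx x, true) [] xs q
      (xs.map xp ++ R) (hb2.append hR2) hq2
      (fun y hy => ⟨LR_ne y x, RR_ne (hne y hy)⟩)
    refine (Iff.trans j1 j2).trans ?_
    rw [List.append_nil]
    rw [ih hnd p (u ++ [x]) (fun y hy => hq y (by simp [hy])) (fun y hy => hR y (by simp [hy]))]
    simp

/-! ### transformations -/

/-- transform ends by `θ` and words by `f` -/
def trf (θ : End → End) (f : List ℕ → List ℕ) (P : Piece) : Piece := (θ P.1, f P.2.1, θ P.2.2)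

structure Hom (θ : End → End) (f : List ℕ → List ℕ) : Prop where
  hdu : ∀ e, θ (du e) = du (θ e)
  hnil : f [] = []
  happ : ∀ u v, f (u ++ v) = f u ++ f v
  hrev : ∀ u, f u.reverse = (f u).reverse

lemma Hom.fl {θ : End → End} {f : List ℕ → List ℕ} (h : Hom θ f) (P : Piece) :
    trf θ f (fl P) = h906.fl (trf θ f P) := by
  simp [trf, h906.fl, h.hrev]

lemma Hom.path {θ : End → End} {f : List ℕ → List ℕ} (h : Hom θ f) {p q : End}
    {l : List Piece} (hp : Path p l q) : Path (θ p) (l.map (trf θ f)) (θ q) := by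
  induction l generalizing p with
  | nil => simp only [Path] at hp; subst hp; rfl
  | cons P l ih =>
    obtain ⟨h1, h2⟩ := hp
    refine ⟨by rw [← h1]; rfl, ?_⟩
    have := ih h2
    rw [h.hdu] at this
    exact this

lemma Hom.word {θ : End → End} {f : List ℕ → List ℕ} (h : Hom θ f) (l : List Piece) :
    h906.word (l.map (trf θ f)) = f (h906.word l) := by
  induction l with
  | nil => simp [h.hnil]
  | cons P l ih =>
    rw [List.map_cons, word_cons, word_cons, ih, h.happ]
    rfl

lemma Hom.perm {θ : End → End} {f : List ℕ → List ℕ} (h : Hom θ f) {l S : List Piece}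
    (hp : (l.map qp).Perm (S.map qp)) :
    ((l.map (trf θ f)).map qp).Perm ((S.map (trf θ f)).map qp) := by
  have key : ∀ P Q : Piece, P ≈ Q → qp (trf θ f P) = qp (trf θ f Q) := by
    intro P Q hPQ
    rcases hPQ with rfl | rfl
    · rfl
    · rw [h.fl, qp_fl]
  let g : QP → QP := Quotient.lift (fun P => qp (trf θ f P)) key
  have e : ∀ L : List Piece, (L.map (trf θ f)).map qp = (L.map qp).map g := by
    intro L
    rw [List.map_map, List.map_map]
    rfl
  rw [e, e]
  exact hp.map g

lemma Hom.CC {θ : End → End} {f : List ℕ → List ℕ} (h : Hom θ f) {C : List ℕ → Prop}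
    {S : List Piece} (hS : CC (fun u => C (f u)) S) : h906.CC C (S.map (trf θ f)) := by
  obtain ⟨l, p, h1, h2, h3⟩ := hS
  exact ⟨l.map (trf θ f), θ p, h.path h1, h.perm h2, by rw [h.word]; exact h3⟩

lemma Hom.inv {θ θ' : End → End} {f f' : List ℕ → List ℕ} (h : Hom θ f) (h' : Hom θ' f')
    (hθ : ∀ e, θ' (θ e) = e) (hf : ∀ u, f' (f u) = u) (hf' : ∀ u, f (f' u) = u)
    {C : List ℕ → Prop}
    (S : List Piece) : h906.CC C (S.map (trf θ f)) ↔ h906.CC (fun u => C (f u)) S := by
  constructor
  · intro hS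
    have e : S = (S.map (trf θ f)).map (trf θ' f') := by
      rw [List.map_map]
      conv_lhs => rw [← List.map_id S]
      congr 1
      funext P
      obtain ⟨p, u, q⟩ := P
      simp [trf, hθ, hf]
    rw [e]
    apply h'.CC
    simp only [hf']
    exact hS
  · exact h.CC

/-- strands under a transformation of the names -/
lemma Ew_trf {θ : End → End} {f : List ℕ → List ℕ} (h : Hom θ f) (g : ℕ → ℕ)
    (hL : ∀ x b, θ (Lx x, b) = (Lx (g x), b)) (hR : ∀ x b, θ (Rx x, b) = (Rx (g x), b))
    (p : End) (u w : List ℕ) (q : End) :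
    (Ew p u w q).map (trf θ f) = Ew (θ p) (f u) (w.map g) (θ q) := by
  induction w generalizing p u with
  | nil => rfl
  | cons x xs ih =>
    simp only [Ew, List.map_cons, ih, hR, h.hnil]
    simp only [trf, hL]

end Pool.Agent.Run7.h906
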