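import Mathlib

/-!
Gauss words without signs and arrows, the moves of free knots, and the parity height.
A Gauss word is a word in which every letter that occurs does so exactly twice; the
letters are the chords. A chord is odd if the number of letters between its two
occurrences is odd, that is, if it is linked with an odd number of chords.
-/

namespace Pool.Agent.Run7.h906

/-- number of letters strictly between the first two occurrences of `a` in `w` -/
def gap (a : ℕ) (w : List ℕ) : ℕ :=
  (((w.dropWhile (fun x => x != a)).tail).takeWhile (fun x => x != a)).length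

/-- the chord `a` of `w` is odd -/
def isOdd (w : List ℕ) (a : ℕ) : Bool := gap a w % 2 == 1

/-- delete all odd chords -/
def strip (w : List ℕ) : List ℕ := w.filter (fun a => !(isOdd w a))

/-- Gauss words: each letter that occurs does so exactly twice -/
def Gauss (w : List ℕ) : Prop := ∀ a ∈ w, w.count a = 2

/-- Moves other than the first one (and the identifications of words). -/
inductive Move : List ℕ → List ℕ → Prop
  | rot (U V : List ℕ) : Move (U ++ V) (V ++ U)
  | rev (U : List ℕ) : Move U U.reverse
  | ren (σ : Equiv.Perm ℕ) (U : List ℕ) : Move U (U.map σ)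
  | anti (a b : ℕ) (U V : List ℕ) (hab : a ≠ b) :
      Move ([a, b] ++ U ++ [b, a] ++ V) (U ++ V)
  | par (a b : ℕ) (U V : List ℕ) (hab : a ≠ b) :
      Move ([a, b] ++ U ++ [a, b] ++ V) (U ++ V)
  | three (a b c : ℕ) (p q r U V W : List ℕ) (hab : a ≠ b) (hac : a ≠ c) (hbc : b ≠ c)
      (hp : p = [a, b] ∨ p = [b, a]) (hq : q = [a, c] ∨ q = [c, a])
      (hr : r = [b, c] ∨ r = [c, b]) :
      Move (p ++ U ++ q ++ V ++ r ++ W)
        (p.reverse ++ U ++ q.reverse ++ V ++ r.reverse ++ W)

/-- The first move. -/
inductive One : List ℕ → List ℕ → Prop
  | one (a : ℕ) (U : List ℕ) : One (a :: a :: U) U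

/-- One step between Gauss words: rotation, reversal, renaming of the letters, or one of the
three moves. -/
def FreeStep (w w' : List ℕ) : Prop := Gauss w ∧ Gauss w' ∧ (Move w w' ∨ One w w')

/-- Two Gauss words represent the same free knot. -/
def FreeEq : List ℕ → List ℕ → Prop := Relation.EqvGen FreeStep

/-- One step between Gauss words of height at most `h`, without the first move. -/
def HStep (h : ℕ) (w w' : List ℕ) : Prop :=
  Gauss w ∧ Gauss w' ∧ strip^[h] w = [] ∧ strip^[h] w' = [] ∧ Move w w'

/-- Equivalence inside the Gauss words of height at most `h`, without the first move. -/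
def HEq (h : ℕ) : List ℕ → List ℕ → Prop := Relation.EqvGen (HStep h)

end Pool.Agent.Run7.h906
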