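import Mathlib
import Pool.Agent.Run7.h906.Defs

set_option linter.unusedSimpArgs false

namespace Pool.Agent.Run7.h906

/-- sum of the positions of `a` -/
def ps (a : ℕ) : List ℕ → ℕ
  | [] => 0
  | _ :: xs => ps a xs + xs.count a

lemma ps_append (a : ℕ) (u v : List ℕ) :
    ps a (u ++ v) = ps a u + ps a v + u.length * v.count a := by
  induction u with
  | nil => simp [ps]
  | cons x u ih =>
    simp only [List.cons_append, ps, ih, List.count_append, List.length_cons]
    ring

lemma ps_eq_zero {a : ℕ} {u : List ℕ} (h : a ∉ u) : ps a u = 0 := by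
  induction u with
  | nil => rfl
  | cons x u ih =>
    simp only [List.mem_cons, not_or] at h
    simp [ps, ih h.2, List.count_eq_zero.2 h.2]

lemma Gauss.count_le {w : List ℕ} (h : Gauss w) (a : ℕ) : w.count a = 0 ∨ w.count a = 2 := by
  by_cases ha : a ∈ w
  · exact Or.inr (h a ha)
  · exact Or.inl (List.count_eq_zero.2 ha)

lemma Gauss.even_length {w : List ℕ} (h : Gauss w) : w.length % 2 = 0 := by
  have h1 := List.sum_toFinset_count_eq_length w
  rw [← h1]
  have : ∀ a ∈ w.toFinset, w.count a = 2 := fun a ha => h a (List.mem_toFinset.1 ha)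
  rw [Finset.sum_congr rfl this]
  simp

/-- a letter with two occurrences splits the word -/
lemma split_two {w : List ℕ} {a : ℕ} (h : w.count a = 2) :
    ∃ A B C, w = A ++ (a :: (B ++ (a :: C))) ∧ a ∉ A ∧ a ∉ B ∧ a ∉ C := by
  have ha : a ∈ w := by
    by_contra hn
    rw [List.count_eq_zero.2 hn] at h
    omega
  obtain ⟨A, R, rfl, hA⟩ := List.eq_append_cons_of_mem ha
  rw [List.count_append, List.count_eq_zero.2 hA, List.count_cons_self] at h
  have hR : a ∈ R := by
    by_contra hn
    rw [List.count_eq_zero.2 hn] at h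
    omega
  obtain ⟨B, C, rfl, hB⟩ := List.eq_append_cons_of_mem hR
  rw [List.count_append, List.count_eq_zero.2 hB, List.count_cons_self] at h
  refine ⟨A, B, C, rfl, hA, hB, ?_⟩
  rw [← List.count_eq_zero]
  omega

lemma gap_split {a : ℕ} {A B C : List ℕ} (hA : a ∉ A) (hB : a ∉ B) :
    gap a (A ++ (a :: (B ++ (a :: C)))) = B.length := by
  unfold gap
  rw [List.dropWhile_append_of_pos (by
    intro x hx
    simp only [bne_iff_ne, ne_eq]
    rintro rfl
    exact hA hx)]
  rw [List.dropWhile_cons_of_neg (by simp), List.tail_cons]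
  rw [List.takeWhile_append_of_pos (by
    intro x hx
    simp only [bne_iff_ne, ne_eq]
    rintro rfl
    exact hB hx)]
  rw [List.takeWhile_cons_of_neg (by simp)]
  simp

lemma gap_ps {w : List ℕ} {a : ℕ} (h : w.count a = 2) :
    (gap a w + 1) % 2 = ps a w % 2 := by
  obtain ⟨A, B, C, rfl, hA, hB, hC⟩ := split_two h
  rw [gap_split hA hB]
  have e : A ++ (a :: (B ++ (a :: C))) = A ++ ([a] ++ (B ++ ([a] ++ C))) := by simp
  rw [e]
  simp only [ps_append, ps_eq_zero hA, ps_eq_zero hB, ps_eq_zero hC, List.count_append,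
    List.count_eq_zero.2 hB, List.count_eq_zero.2 hC, ps,
    List.count_nil, List.count_cons_self, List.length_cons, List.length_nil]
  ring_nf
  omega

/-- even chords through positions -/
def evn (w : List ℕ) (a : ℕ) : Bool := ps a w % 2 == 1

lemma isOdd_eq {w : List ℕ} {a : ℕ} (h : w.count a = 2) : (!(isOdd w a)) = evn w a := by
  have := gap_ps h
  unfold isOdd evn
  rcases Nat.mod_two_eq_zero_or_one (gap a w) with h1 | h1 <;>
  rcases Nat.mod_two_eq_zero_or_one (ps a w) with h2 | h2 <;>
  simp [h1, h2] <;> omega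

lemma strip_eq {w : List ℕ} (h : Gauss w) : strip w = w.filter (evn w) := by
  unfold strip
  apply List.filter_congr
  intro a ha
  exact isOdd_eq (h a ha)

lemma Gauss.filter {w : List ℕ} (h : Gauss w) (p : ℕ → Bool) : Gauss (w.filter p) := by
  intro a ha
  rw [List.mem_filter] at ha
  rw [List.count_filter ha.2]
  exact h a ha.1

lemma Gauss.strip {w : List ℕ} (h : Gauss w) : Gauss (strip w) := h.filter _

lemma Gauss.iter {w : List ℕ} (h : Gauss w) (k : ℕ) : Gauss (Pool.Agent.Run7.h906.strip^[k] w) := by
  induction k generalizing w with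
  | zero => exact h
  | succ k ih => exact ih h.strip

lemma Gauss.perm {w w' : List ℕ} (h : Gauss w) (hp : w.Perm w') : Gauss w' := by
  intro a ha
  rw [← hp.count_eq]
  exact h a (hp.mem_iff.2 ha)

/-! ### rotation -/

lemma evn_rot {u v : List ℕ} (h : Gauss (u ++ v)) (a : ℕ) : evn (u ++ v) a = evn (v ++ u) a := by
  have h1 : (u ++ v).length % 2 = 0 := h.even_length
  have h2 := h.count_le a
  rw [List.count_append] at h2
  rw [List.length_append] at h1
  have key : ps a (u ++ v) % 2 = ps a (v ++ u) % 2 := by
    rw [ps_append, ps_append]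
    have : (u.length * v.count a) % 2 = (v.length * u.count a) % 2 := by
      rw [Nat.mul_mod, Nat.mul_mod v.length]
      rcases h2 with h2 | h2
      · have e1 : v.count a = 0 := by omega
        have e2 : u.count a = 0 := by omega
        simp [e1, e2]
      · have : v.count a = 0 ∨ v.count a = 1 ∨ v.count a = 2 := by omega
        rcases this with e | e | e
        · have e2 : u.count a = 2 := by omega
          simp [e, e2]
        · have e2 : u.count a = 1 := by omega
          simp only [e, e2]
          omega
        · have e2 : u.count a = 0 := by omega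
          simp [e, e2]
    omega
  simp only [evn, key]

lemma strip_rot {u v : List ℕ} (h : Gauss (u ++ v)) :
    strip (u ++ v) = u.filter (evn (u ++ v)) ++ v.filter (evn (u ++ v)) ∧
    strip (v ++ u) = v.filter (evn (u ++ v)) ++ u.filter (evn (u ++ v)) := by
  have h' : Gauss (v ++ u) := h.perm List.perm_append_comm
  constructor
  · rw [strip_eq h, List.filter_append]
  · rw [strip_eq h', List.filter_append]
    congr 1 <;> apply List.filter_congr <;> intro a _ <;> exact (evn_rot h a).symm

lemma iter_rot (k : ℕ) {u v : List ℕ} (h : Gauss (u ++ v)) :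
    ∃ u' v', strip^[k] (u ++ v) = u' ++ v' ∧ strip^[k] (v ++ u) = v' ++ u' := by
  induction k generalizing u v with
  | zero => exact ⟨u, v, rfl, rfl⟩
  | succ k ih =>
    obtain ⟨h1, h2⟩ := strip_rot h
    rw [Function.iterate_succ_apply, Function.iterate_succ_apply, h1, h2]
    apply ih
    rw [← List.filter_append]
    exact h.filter _

/-! ### reversal -/

lemma ps_reverse (a : ℕ) (w : List ℕ) :
    ps a w.reverse + ps a w + w.count a = w.length * w.count a := by
  induction w with
  | nil => simp [ps]
  | cons x w ih =>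
    rw [List.reverse_cons, ps_append]
    simp only [ps, List.length_reverse, List.length_cons, List.count_cons, List.count_nil]
    simp only [Nat.zero_add]
    set e := (if (x == a) = true then 1 else 0)
    have e1 : (w.length + 1) * (w.count a + e) =
      w.length * w.count a + w.count a + w.length * e + e := by ring
    rw [e1, ← ih]
    ring

lemma evn_rev {w : List ℕ} (h : Gauss w) (a : ℕ) : evn w.reverse a = evn w a := by
  have h1 := ps_reverse a w
  have h2 : (w.length * w.count a) % 2 = 0 := by
    rw [Nat.mul_mod, h.even_length]; simp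
  have h3 : w.count a % 2 = 0 := by rcases h.count_le a with e | e <;> simp [e]
  have : ps a w.reverse % 2 = ps a w % 2 := by omega
  simp only [evn, this]

lemma iter_rev (k : ℕ) {w : List ℕ} (h : Gauss w) :
    strip^[k] w.reverse = (strip^[k] w).reverse := by
  induction k generalizing w with
  | zero => rfl
  | succ k ih =>
    rw [Function.iterate_succ_apply, Function.iterate_succ_apply]
    have h' : Gauss w.reverse := h.perm (List.reverse_perm w).symm
    have : strip w.reverse = (strip w).reverse := by
      rw [strip_eq h', strip_eq h, List.filter_reverse]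
      congr 1
      apply List.filter_congr
      intro a _
      exact evn_rev h a
    rw [this]
    exact ih h.strip

/-! ### renaming -/

lemma count_map_perm (σ : Equiv.Perm ℕ) (w : List ℕ) (a : ℕ) :
    (w.map σ).count (σ a) = w.count a :=
  List.count_map_of_injective w σ σ.injective a

lemma Gauss.map {w : List ℕ} (h : Gauss w) (σ : Equiv.Perm ℕ) : Gauss (w.map σ) := by
  intro a ha
  rw [List.mem_map] at ha
  obtain ⟨b, hb, rfl⟩ := ha
  rw [count_map_perm]
  exact h b hb

lemma ps_map (σ : Equiv.Perm ℕ) (w : List ℕ) (a : ℕ) : ps (σ a) (w.map σ) = ps a w := by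
  induction w with
  | nil => rfl
  | cons x w ih => simp only [List.map_cons, ps, ih, count_map_perm]

lemma iter_ren (k : ℕ) (σ : Equiv.Perm ℕ) {w : List ℕ} (h : Gauss w) :
    strip^[k] (w.map σ) = (strip^[k] w).map σ := by
  induction k generalizing w with
  | zero => rfl
  | succ k ih =>
    rw [Function.iterate_succ_apply, Function.iterate_succ_apply]
    have : strip (w.map σ) = (strip w).map σ := by
      rw [strip_eq (h.map σ), strip_eq h, List.filter_map]
      congr 1
      apply List.filter_congr
      intro a _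
      simp only [Function.comp, evn, ps_map]
    rw [this]
    exact ih h.strip

/-! ### first move -/

lemma Gauss.one {a : ℕ} {U : List ℕ} (h : Gauss (a :: a :: U)) : a ∉ U ∧ Gauss U := by
  have h1 := h a (by simp)
  simp only [List.count_cons_self] at h1
  have ha : a ∉ U := by
    rw [← List.count_eq_zero]; omega
  refine ⟨ha, ?_⟩
  intro x hx
  have hx' : x ≠ a := by rintro rfl; exact ha hx
  have := h x (by simp [hx])
  rwa [List.count_cons_of_ne (Ne.symm hx'), List.count_cons_of_ne (Ne.symm hx')] at this

lemma strip_one {a : ℕ} {U : List ℕ} (h : Gauss (a :: a :: U)) :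
    strip (a :: a :: U) = a :: a :: strip U := by
  obtain ⟨ha, hU⟩ := h.one
  rw [strip_eq h, strip_eq hU]
  have e1 : evn (a :: a :: U) a = true := by
    simp [evn, ps, ps_eq_zero ha, List.count_eq_zero.2 ha]
  rw [List.filter_cons_of_pos e1, List.filter_cons_of_pos e1]
  congr 2
  apply List.filter_congr
  intro x hx
  have hx' : a ≠ x := by rintro rfl; exact ha hx
  have : ps x (a :: a :: U) % 2 = ps x U % 2 := by
    simp only [ps, List.count_cons_of_ne hx']
    omega
  simp only [evn, this]

lemma iter_one (k : ℕ) {a : ℕ} {U : List ℕ} (h : Gauss (a :: a :: U)) :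
    strip^[k] (a :: a :: U) = a :: a :: strip^[k] U := by
  induction k generalizing U with
  | zero => rfl
  | succ k ih =>
    rw [Function.iterate_succ_apply, Function.iterate_succ_apply, strip_one h]
    apply ih
    rw [← strip_one h]
    exact h.strip

/-! ### second move -/

lemma Gauss.two {a b : ℕ} {s U V : List ℕ} (hab : a ≠ b) (hs : s = [a, b] ∨ s = [b, a])
    (h : Gauss ([a, b] ++ U ++ s ++ V)) :
    a ∉ U ∧ b ∉ U ∧ a ∉ V ∧ b ∉ V ∧ Gauss (U ++ V) := by
  have h1 := h a (by simp)
  have h2 := h b (by simp)
  have hsa : s.count a = 1 := by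
    rcases hs with rfl | rfl <;> simp [List.count_cons, hab, hab.symm]
  have hsb : s.count b = 1 := by
    rcases hs with rfl | rfl <;> simp [List.count_cons, hab, hab.symm]
  simp only [List.count_append, hsa, hsb] at h1 h2
  have e1 : [a, b].count a = 1 := by simp [List.count_cons, hab.symm]
  have e2 : [a, b].count b = 1 := by simp [List.count_cons, hab]
  rw [e1] at h1
  rw [e2] at h2
  have aU : a ∉ U := by rw [← List.count_eq_zero]; omega
  have bU : b ∉ U := by rw [← List.count_eq_zero]; omega
  have aV : a ∉ V := by rw [← List.count_eq_zero]; omega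
  have bV : b ∉ V := by rw [← List.count_eq_zero]; omega
  refine ⟨aU, bU, aV, bV, ?_⟩
  intro x hx
  have hxa : x ≠ a := by
    rintro rfl
    rcases List.mem_append.1 hx with hx | hx
    · exact aU hx
    · exact aV hx
  have hxb : x ≠ b := by
    rintro rfl
    rcases List.mem_append.1 hx with hx | hx
    · exact bU hx
    · exact bV hx
  have hxs : s.count x = 0 := by
    rw [List.count_eq_zero]
    rcases hs with rfl | rfl <;> simp [hxa, hxb]
  have hx0 : [a, b].count x = 0 := by
    rw [List.count_eq_zero]; simp [hxa, hxb]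
  have := h x (by
    rcases List.mem_append.1 hx with hx | hx <;> simp [hx])
  simp only [List.count_append, hxs, hx0] at this
  rw [List.count_append]
  omega

lemma strip_two {a b : ℕ} {s U V : List ℕ} (hab : a ≠ b) (hs : s = [a, b] ∨ s = [b, a])
    (h : Gauss ([a, b] ++ U ++ s ++ V)) :
    ∃ U' V', strip (U ++ V) = U' ++ V' ∧
      (strip ([a, b] ++ U ++ s ++ V) = [a, b] ++ U' ++ s ++ V' ∨
       strip ([a, b] ++ U ++ s ++ V) = U' ++ V') := by
  obtain ⟨aU, bU, aV, bV, hg⟩ := h.two hab hs
  refine ⟨U.filter (evn (U ++ V)), V.filter (evn (U ++ V)), ?_, ?_⟩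
  · rw [strip_eq hg, List.filter_append]
  rw [strip_eq h]
  set w := [a, b] ++ U ++ s ++ V with hw
  have hsl : s.length = 2 := by rcases hs with rfl | rfl <;> rfl
  have key : ∀ x, x ≠ a → x ≠ b → evn w x = evn (U ++ V) x := by
    intro x hxa hxb
    have hxs : s.count x = 0 := by
      rw [List.count_eq_zero]
      rcases hs with rfl | rfl <;> simp [hxa, hxb]
    have hps : ps x s = 0 := ps_eq_zero (List.count_eq_zero.1 hxs)
    have hx0 : [a, b].count x = 0 := by
      rw [List.count_eq_zero]; simp [hxa, hxb]
    have hp0 : ps x [a, b] = 0 := ps_eq_zero (List.count_eq_zero.1 hx0)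
    have : ps x w % 2 = ps x (U ++ V) % 2 := by
      rw [hw]
      simp only [ps_append, hps, hp0, hxs, List.length_append, hsl, List.length_cons,
        List.length_nil]
      ring_nf
      omega
    simp only [evn, this]
  have hab' : evn w a = evn w b := by
    have e1 : [a, b].count a = 1 := by simp [List.count_cons, hab.symm]
    have e2 : [a, b].count b = 1 := by simp [List.count_cons, hab]
    have : ps a w % 2 = ps b w % 2 := by
      rw [hw]
      rcases hs with rfl | rfl <;>
      simp [ps_append, ps, ps_eq_zero aU, ps_eq_zero bU, ps_eq_zero aV, ps_eq_zero bV,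
        List.count_eq_zero.2 aU, List.count_eq_zero.2 bU, List.count_eq_zero.2 aV,
        List.count_eq_zero.2 bV, List.count_cons, hab, hab.symm] <;> omega
    simp only [evn, this]
  have hU : U.filter (evn w) = U.filter (evn (U ++ V)) := by
    apply List.filter_congr
    intro x hx
    exact key x (by rintro rfl; exact aU hx) (by rintro rfl; exact bU hx)
  have hV : V.filter (evn w) = V.filter (evn (U ++ V)) := by
    apply List.filter_congr
    intro x hx
    exact key x (by rintro rfl; exact aV hx) (by rintro rfl; exact bV hx)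
  have hfil : w.filter (evn w) = [a, b].filter (evn w) ++ U.filter (evn (U ++ V)) ++
      s.filter (evn w) ++ V.filter (evn (U ++ V)) := by
    have hg2 : ∀ f : ℕ → Bool, w.filter f =
        [a, b].filter f ++ U.filter f ++ s.filter f ++ V.filter f := by
      intro f
      rw [hw]
      simp only [List.filter_append]
    rw [hg2, hU, hV]
  rw [hfil]
  cases hc : evn w a with
  | true =>
    left
    have hb : evn w b = true := by rw [← hab', hc]
    have e1 : [a, b].filter (evn w) = [a, b] := by simp [hc, hb]
    have e2 : s.filter (evn w) = s := by rcases hs with rfl | rfl <;> simp [hc, hb]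
    rw [e1, e2]
  | false =>
    right
    have hb : evn w b = false := by rw [← hab', hc]
    have e1 : [a, b].filter (evn w) = [] := by simp [hc, hb]
    have e2 : s.filter (evn w) = [] := by rcases hs with rfl | rfl <;> simp [hc, hb]
    rw [e1, e2]
    simp

lemma iter_two (k : ℕ) {a b : ℕ} {s U V : List ℕ} (hab : a ≠ b) (hs : s = [a, b] ∨ s = [b, a])
    (h : Gauss ([a, b] ++ U ++ s ++ V)) :
    ∃ U' V', strip^[k] (U ++ V) = U' ++ V' ∧
      (strip^[k] ([a, b] ++ U ++ s ++ V) = [a, b] ++ U' ++ s ++ V' ∨
       strip^[k] ([a, b] ++ U ++ s ++ V) = U' ++ V') := by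
  induction k with
  | zero => exact ⟨U, V, rfl, Or.inl rfl⟩
  | succ k ih =>
    obtain ⟨U', V', h1, h2⟩ := ih
    simp only [Function.iterate_succ_apply']
    rw [h1]
    rcases h2 with h2 | h2
    · rw [h2]
      have hg := h.iter k
      rw [h2] at hg
      exact strip_two hab hs hg
    · rw [h2]
      have hg : Gauss (U' ++ V') := by rw [← h2]; exact h.iter k
      refine ⟨U'.filter (evn (U' ++ V')), V'.filter (evn (U' ++ V')), ?_, Or.inr ?_⟩ <;>
      rw [strip_eq hg, List.filter_append]

/-! ### third move -/

/-- the word before a third move -/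
def tw (p q r U V W : List ℕ) : List ℕ := p ++ U ++ q ++ V ++ r ++ W

structure Tri (a b c : ℕ) (p q r : List ℕ) : Prop where
  hab : a ≠ b
  hac : a ≠ c
  hbc : b ≠ c
  hp : p = [a, b] ∨ p = [b, a]
  hq : q = [a, c] ∨ q = [c, a]
  hr : r = [b, c] ∨ r = [c, b]

lemma Tri.reverse {a b c : ℕ} {p q r : List ℕ} (h : Tri a b c p q r) :
    Tri a b c p.reverse q.reverse r.reverse := by
  refine ⟨h.hab, h.hac, h.hbc, ?_, ?_, ?_⟩
  · rcases h.hp with rfl | rfl <;> simp
  · rcases h.hq with rfl | rfl <;> simp
  · rcases h.hr with rfl | rfl <;> simp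

lemma Tri.fresh {a b c : ℕ} {p q r U V W : List ℕ} (h : Tri a b c p q r)
    (hg : Gauss (tw p q r U V W)) :
    (∀ x, x = a ∨ x = b ∨ x = c → x ∉ U ∧ x ∉ V ∧ x ∉ W) := by
  obtain ⟨hab, hac, hbc, hp, hq, hr⟩ := h
  intro x hx
  have hm : x ∈ tw p q r U V W := by
    unfold tw
    rcases hx with rfl | rfl | rfl
    · rcases hp with rfl | rfl <;> simp
    · rcases hp with rfl | rfl <;> simp
    · rcases hq with rfl | rfl <;> simp
  have h1 := hg x hm
  have h2 : p.count x + q.count x + r.count x = 2 := by
    rcases hx with rfl | rfl | rfl <;>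
    rcases hp with rfl | rfl <;> rcases hq with rfl | rfl <;> rcases hr with rfl | rfl <;>
    simp [List.count_cons, hab, hac, hbc, hab.symm, hac.symm, hbc.symm]
  unfold tw at h1
  simp only [List.count_append] at h1
  refine ⟨?_, ?_, ?_⟩ <;> rw [← List.count_eq_zero] <;> omega

lemma Tri.perm {a b c : ℕ} {p q r : List ℕ} (_ : Tri a b c p q r) (U V W : List ℕ) :
    (tw p q r U V W).Perm (tw p.reverse q.reverse r.reverse U V W) := by
  unfold tw
  have h1 := (List.reverse_perm p).symm
  have h2 := (List.reverse_perm q).symm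
  have h3 := (List.reverse_perm r).symm
  exact ((((h1.append_right _).append h2).append_right _).append h3).append_right _

lemma Tri.ctx {a b c : ℕ} {p q r U V W : List ℕ} (h : Tri a b c p q r)
    (hg : Gauss (tw p q r U V W)) : Gauss (U ++ V ++ W) := by
  intro x hx
  have hf := h.fresh hg
  have hxa : ¬ (x = a ∨ x = b ∨ x = c) := by
    intro hh
    obtain ⟨h1, h2, h3⟩ := hf x hh
    simp [h1, h2, h3] at hx
  push Not at hxa
  obtain ⟨hxa, hxb, hxc⟩ := hxa
  have h2 : p.count x + q.count x + r.count x = 0 := by
    obtain ⟨hab, hac, hbc, hp, hq, hr⟩ := h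
    rcases hp with rfl | rfl <;> rcases hq with rfl | rfl <;> rcases hr with rfl | rfl <;>
    simp [List.count_cons, hxa.symm, hxb.symm, hxc.symm]
  have := hg x (by
    unfold tw
    simp only [List.mem_append] at hx ⊢
    tauto)
  unfold tw at this
  simp only [List.count_append] at this ⊢
  omega

lemma Tri.evn {a b c : ℕ} {p q r U V W : List ℕ} (h : Tri a b c p q r)
    (hg : Gauss (tw p q r U V W)) (x : ℕ) :
    evn (tw p q r U V W) x = evn (tw p.reverse q.reverse r.reverse U V W) x := by
  have hf := h.fresh hg
  have hpl : p.length = 2 := by rcases h.hp with rfl | rfl <;> rfl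
  have hql : q.length = 2 := by rcases h.hq with rfl | rfl <;> rfl
  have hrl : r.length = 2 := by rcases h.hr with rfl | rfl <;> rfl
  by_cases hx : x = a ∨ x = b ∨ x = c
  · obtain ⟨hU, hV, hW⟩ := hf x hx
    have key : ps x (tw p q r U V W) % 2 =
        ps x (tw p.reverse q.reverse r.reverse U V W) % 2 := by
      unfold tw
      simp only [ps_append, ps_eq_zero hU, ps_eq_zero hV, ps_eq_zero hW,
        List.count_eq_zero.2 hU, List.count_eq_zero.2 hV, List.count_eq_zero.2 hW,
        List.length_append, List.length_reverse, hpl, hql, hrl, List.count_reverse]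
      obtain ⟨hab, hac, hbc, hp, hq, hr⟩ := h
      rcases hx with rfl | rfl | rfl <;>
      rcases hp with rfl | rfl <;> rcases hq with rfl | rfl <;> rcases hr with rfl | rfl <;>
      simp [ps, List.count_cons, hab, hac, hbc, hab.symm, hac.symm, hbc.symm] <;> omega
    simp only [h906.evn, key]
  · push Not at hx
    obtain ⟨hxa, hxb, hxc⟩ := hx
    have hp0 : x ∉ p := by rcases h.hp with rfl | rfl <;> simp [hxa, hxb]
    have hq0 : x ∉ q := by rcases h.hq with rfl | rfl <;> simp [hxa, hxc]
    have hr0 : x ∉ r := by rcases h.hr with rfl | rfl <;> simp [hxb, hxc]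
    have hp1 : x ∉ p.reverse := by simpa using hp0
    have hq1 : x ∉ q.reverse := by simpa using hq0
    have hr1 : x ∉ r.reverse := by simpa using hr0
    have key : ps x (tw p q r U V W) =
        ps x (tw p.reverse q.reverse r.reverse U V W) := by
      unfold tw
      simp only [ps_append, ps_eq_zero hp0, ps_eq_zero hq0, ps_eq_zero hr0,
        ps_eq_zero hp1, ps_eq_zero hq1, ps_eq_zero hr1,
        List.length_append, List.length_reverse, List.count_reverse]
    simp only [h906.evn, key]

lemma Tri.par {a b c : ℕ} {p q r U V W : List ℕ} (h : Tri a b c p q r)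
    (hg : Gauss (tw p q r U V W)) :
    (ps a (tw p q r U V W) + ps b (tw p q r U V W) + ps c (tw p q r U V W)) % 2 = 1 := by
  have hf := h.fresh hg
  have hpl : p.length = 2 := by rcases h.hp with rfl | rfl <;> rfl
  have hql : q.length = 2 := by rcases h.hq with rfl | rfl <;> rfl
  have hrl : r.length = 2 := by rcases h.hr with rfl | rfl <;> rfl
  obtain ⟨haU, haV, haW⟩ := hf a (by simp)
  obtain ⟨hbU, hbV, hbW⟩ := hf b (by simp)
  obtain ⟨hcU, hcV, hcW⟩ := hf c (by simp)
  unfold tw
  simp only [ps_append, ps_eq_zero haU, ps_eq_zero haV, ps_eq_zero haW,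
    ps_eq_zero hbU, ps_eq_zero hbV, ps_eq_zero hbW,
    ps_eq_zero hcU, ps_eq_zero hcV, ps_eq_zero hcW,
    List.count_eq_zero.2 haU, List.count_eq_zero.2 haV, List.count_eq_zero.2 haW,
    List.count_eq_zero.2 hbU, List.count_eq_zero.2 hbV, List.count_eq_zero.2 hbW,
    List.count_eq_zero.2 hcU, List.count_eq_zero.2 hcV, List.count_eq_zero.2 hcW,
    List.length_append, hpl, hql, hrl]
  obtain ⟨hab, hac, hbc, hp, hq, hr⟩ := h
  rcases hp with rfl | rfl <;> rcases hq with rfl | rfl <;> rcases hr with rfl | rfl <;>
  simp [ps, List.count_cons, hab, hac, hbc, hab.symm, hac.symm, hbc.symm] <;> omega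

/-- at most one of three letters occurs -/
def AtMost (a b c : ℕ) (w : List ℕ) : Prop :=
  ¬ (a ∈ w ∧ b ∈ w) ∧ ¬ (a ∈ w ∧ c ∈ w) ∧ ¬ (b ∈ w ∧ c ∈ w)

lemma filter_tw (f : ℕ → Bool) (p q r U V W : List ℕ) :
    (tw p q r U V W).filter f =
      tw (p.filter f) (q.filter f) (r.filter f) (U.filter f) (V.filter f) (W.filter f) := by
  simp [tw]

lemma strip_three {a b c : ℕ} {p q r U V W : List ℕ} (h : Tri a b c p q r)
    (hg : Gauss (tw p q r U V W)) :
    (∃ U' V' W', strip (tw p q r U V W) = tw p q r U' V' W' ∧
      strip (tw p.reverse q.reverse r.reverse U V W) =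
        tw p.reverse q.reverse r.reverse U' V' W') ∨
    (strip (tw p q r U V W) = strip (tw p.reverse q.reverse r.reverse U V W) ∧
      AtMost a b c (strip (tw p q r U V W))) := by
  have hg' : Gauss (tw p.reverse q.reverse r.reverse U V W) := hg.perm (h.perm U V W)
  have hev := h.evn hg
  rw [strip_eq hg, strip_eq hg']
  have e1 : (tw p.reverse q.reverse r.reverse U V W).filter
      (h906.evn (tw p.reverse q.reverse r.reverse U V W)) =
      (tw p.reverse q.reverse r.reverse U V W).filter (h906.evn (tw p q r U V W)) := by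
    apply List.filter_congr
    intro x _
    exact (hev x).symm
  rw [e1]
  have hpar := h.par hg
  set f := h906.evn (tw p q r U V W) with hf
  have ha : f a = (ps a (tw p q r U V W) % 2 == 1) := rfl
  have hb : f b = (ps b (tw p q r U V W) % 2 == 1) := rfl
  have hc : f c = (ps c (tw p q r U V W) % 2 == 1) := rfl
  have hcases : (f a = true ∧ f b = true ∧ f c = true) ∨
      (f a = true ∧ f b = false ∧ f c = false) ∨
      (f a = false ∧ f b = true ∧ f c = false) ∨
      (f a = false ∧ f b = false ∧ f c = true) := by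
    rw [ha, hb, hc]
    rcases Nat.mod_two_eq_zero_or_one (ps a (tw p q r U V W)) with x | x <;>
    rcases Nat.mod_two_eq_zero_or_one (ps b (tw p q r U V W)) with y | y <;>
    rcases Nat.mod_two_eq_zero_or_one (ps c (tw p q r U V W)) with z | z <;>
    simp [x, y, z] <;> omega
  rw [filter_tw, filter_tw]
  rcases hcases with ⟨fa, fb, fc⟩ | hrest
  · left
    refine ⟨U.filter f, V.filter f, W.filter f, ?_, ?_⟩
    · rcases h.hp with rfl | rfl <;> rcases h.hq with rfl | rfl <;>
        rcases h.hr with rfl | rfl <;> simp [fa, fb, fc]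
    · rcases h.hp with rfl | rfl <;> rcases h.hq with rfl | rfl <;>
        rcases h.hr with rfl | rfl <;> simp [fa, fb, fc]
  · right
    have hsub : ∀ x, f x = false →
        x ∉ tw (p.filter f) (q.filter f) (r.filter f) (U.filter f) (V.filter f) (W.filter f) := by
      intro x hx hm
      rw [← filter_tw, List.mem_filter] at hm
      rw [hx] at hm
      exact absurd hm.2 (by simp)
    rcases hrest with ⟨fa, fb, fc⟩ | ⟨fa, fb, fc⟩ | ⟨fa, fb, fc⟩
    · refine ⟨?_, fun hh => hsub b fb hh.2, fun hh => hsub c fc hh.2, fun hh => hsub c fc hh.2⟩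
      rcases h.hp with rfl | rfl <;> rcases h.hq with rfl | rfl <;>
        rcases h.hr with rfl | rfl <;> simp [fa, fb, fc]
    · refine ⟨?_, fun hh => hsub a fa hh.1, fun hh => hsub a fa hh.1, fun hh => hsub c fc hh.2⟩
      rcases h.hp with rfl | rfl <;> rcases h.hq with rfl | rfl <;>
        rcases h.hr with rfl | rfl <;> simp [fa, fb, fc]
    · refine ⟨?_, fun hh => hsub a fa hh.1, fun hh => hsub a fa hh.1, fun hh => hsub b fb hh.1⟩
      rcases h.hp with rfl | rfl <;> rcases h.hq with rfl | rfl <;>
        rcases h.hr with rfl | rfl <;> simp [fa, fb, fc]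

lemma iter_three (k : ℕ) {a b c : ℕ} {p q r U V W : List ℕ} (h : Tri a b c p q r)
    (hg : Gauss (tw p q r U V W)) :
    (∃ U' V' W', strip^[k] (tw p q r U V W) = tw p q r U' V' W' ∧
      strip^[k] (tw p.reverse q.reverse r.reverse U V W) =
        tw p.reverse q.reverse r.reverse U' V' W') ∨
    (strip^[k] (tw p q r U V W) = strip^[k] (tw p.reverse q.reverse r.reverse U V W) ∧
      AtMost a b c (strip^[k] (tw p q r U V W))) := by
  induction k with
  | zero => exact Or.inl ⟨U, V, W, rfl, rfl⟩
  | succ k ih =>
    simp only [Function.iterate_succ_apply']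
    rcases ih with ⟨U', V', W', h1, h2⟩ | ⟨h1, h2⟩
    · rw [h1, h2]
      apply strip_three h
      rw [← h1]
      exact hg.iter k
    · right
      refine ⟨by rw [h1], ?_⟩
      have hs : ∀ x, x ∈ strip (strip^[k] (tw p q r U V W)) → x ∈ strip^[k] (tw p q r U V W) := by
        intro x hx
        unfold strip at hx
        exact List.mem_of_mem_filter hx
      exact ⟨fun hh => h2.1 ⟨hs _ hh.1, hs _ hh.2⟩, fun hh => h2.2.1 ⟨hs _ hh.1, hs _ hh.2⟩,
        fun hh => h2.2.2 ⟨hs _ hh.1, hs _ hh.2⟩⟩

end Pool.Agent.Run7.h906
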