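import Mathlib
import Pool.Agent.Run7.h906.Words
import Pool.Agent.Run7.h906.Strand

set_option linter.unusedSimpArgs false

namespace Pool.Agent.Run7.h906

/-- the letter of a token -/
def half (x : ℕ) : ℕ := x / 2

/-- smoothing of the chord `c`; the choice is recorded by `T` -/
def sm (T : Finset ℕ) (c : ℕ) : List Piece :=
  if c ∈ T then
    [((Lx (2 * c), true), [], (Lx (2 * c + 1), true)),
     ((Rx (2 * c), true), [], (Rx (2 * c + 1), true))]
  else
    [((Lx (2 * c), true), [], (Rx (2 * c + 1), true)),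
     ((Lx (2 * c + 1), true), [], (Rx (2 * c), true))]

/-- the closing piece -/
def cl : Piece := ((1, true), [], (0, true))

/-- the pieces at the chords -/
noncomputable def Bd (K T : Finset ℕ) (t : List ℕ) : List Piece :=
  (t.filter (fun x => decide (half x ∉ K))).map xp ++ K.toList.flatMap (sm T)

/-- the state of the diagram `t` in which the chords of `K` are smoothed -/
noncomputable def Sys (K T : Finset ℕ) (t : List ℕ) : List Piece :=
  Ew (0, false) [] t (1, false) ++ (cl :: Bd K T t)

lemma fresh_sm {n : ℕ} (hn : n < 16) (T : Finset ℕ) (c : ℕ) : Fresh n (sm T c) := by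
  unfold sm Lx Rx
  intro P hP
  split_ifs at hP
  · simp only [List.mem_cons, List.not_mem_nil, or_false] at hP
    rcases hP with rfl | rfl <;> constructor <;> simp <;> omega
  · simp only [List.mem_cons, List.not_mem_nil, or_false] at hP
    rcases hP with rfl | rfl <;> constructor <;> simp <;> omega

lemma fresh_flat {n : ℕ} {l : List ℕ} {f : ℕ → List Piece} (h : ∀ c ∈ l, Fresh n (f c)) :
    Fresh n (l.flatMap f) := by
  intro P hP
  rw [List.mem_flatMap] at hP
  obtain ⟨c, hc, hP⟩ := hP
  exact h c hc P hP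

lemma fresh_Bd {n : ℕ} (hn : n < 16) (K T : Finset ℕ) (t : List ℕ) : Fresh n (Bd K T t) := by
  unfold Bd
  exact (fresh_map_xp (small_tok hn _)).append (fresh_flat (fun c _ => fresh_sm hn T c))

lemma Bd_perm {K T : Finset ℕ} {t t' : List ℕ} (h : t.Perm t') :
    (Bd K T t).Perm (Bd K T t') := by
  unfold Bd
  exact ((h.filter _).map _).append_right _

/-! ### rotation -/

/-- swap the names `0` and `2` -/
def th02 (e : End) : End :=
  if e.1 = 0 then (2, !e.2) else if e.1 = 2 then (0, !e.2) else e

lemma th02_th02 (e : End) : th02 (th02 e) = e := by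
  obtain ⟨n, b⟩ := e
  unfold th02
  by_cases h0 : n = 0
  · subst h0; simp
  · by_cases h2 : n = 2
    · subst h2; simp
    · simp [h0, h2]

lemma hom02 : Hom th02 id where
  hdu e := by
    obtain ⟨n, b⟩ := e
    unfold th02 du
    by_cases h0 : n = 0
    · subst h0; simp
    · by_cases h2 : n = 2
      · subst h2; simp
      · simp [h0, h2]
  hnil := rfl
  happ _ _ := rfl
  hrev _ := rfl

lemma map_th02 {R : List Piece} (h0 : Fresh 0 R) (h2 : Fresh 2 R) :
    R.map (trf th02 id) = R := by
  conv_rhs => rw [← List.map_id R]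
  apply List.map_congr_left
  intro P hP
  obtain ⟨a1, a2⟩ := h0 P hP
  obtain ⟨b1, b2⟩ := h2 P hP
  obtain ⟨p, u, q⟩ := P
  simp only at a1 a2 b1 b2
  simp [trf, th02, a1, a2, b1, b2]

lemma rot_aux {C : List ℕ → Prop} (hC : RR C) (u v : List ℕ) (B : List Piece)
    (hB : ∀ n < 16, Fresh n B) :
    CC C (Ew (0, false) [] (u ++ v) (1, false) ++ (cl :: B)) ↔
      CC C (Ew (2, true) [] v (0, true) ++ (Ew (0, false) [] u (2, false) ++ B)) := by
  rw [cut hC 2 (by norm_num) (0, false) [] u v (1, false) (cl :: B)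
    (Fresh.cons (by simp [cl]) (by simp [cl]) (hB 2 (by norm_num))) (by simp) (by simp)]
  have h1 : Fresh 1 (Ew (0, false) [] u (2, false) ++ B) :=
    (fresh_Ew (by simp) (by simp) (small_tok (by norm_num) u)).append (hB 1 (by norm_num))
  rw [← endjoin hC (1, false) (2, true) [] v (0, true)
    (Ew (0, false) [] u (2, false) ++ B) h1 (by simp) (by simp) (small_tok (by norm_num) v)]
  apply CC_perm
  have e1 : (Ew (0, false) [] u (2, false) ++ (Ew (2, true) [] v (1, false) ++ (cl :: B))).Perm
      (Ew (2, true) [] v (1, false) ++ (Ew (0, false) [] u (2, false) ++ (cl :: B))) := by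
    rw [← List.append_assoc, ← List.append_assoc]
    exact List.perm_append_comm.append_right _
  refine e1.trans (List.Perm.append_left _ ?_)
  exact List.perm_middle

lemma Sys_rot {C : List ℕ → Prop} (hC : RR C) (K T : Finset ℕ) (u v : List ℕ) :
    CC C (Sys K T (u ++ v)) ↔ CC C (Sys K T (v ++ u)) := by
  unfold Sys
  have hB : ∀ n < 16, Fresh n (Bd K T (u ++ v)) := fun n hn => fresh_Bd hn K T _
  have e1 : CC C (Ew (0, false) [] (v ++ u) (1, false) ++ (cl :: Bd K T (v ++ u))) ↔
      CC C (Ew (0, false) [] (v ++ u) (1, false) ++ (cl :: Bd K T (u ++ v))) := by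
    apply CC_perm
    exact List.Perm.append_left _ (List.Perm.cons _ (Bd_perm List.perm_append_comm))
  rw [e1, rot_aux hC u v _ hB, rot_aux hC v u _ hB]
  have e2 := hom02.inv hom02 th02_th02 (fun _ => rfl) (fun _ => rfl) (C := C)
    (Ew (2, true) [] v (0, true) ++ (Ew (0, false) [] u (2, false) ++ Bd K T (u ++ v)))
  have e3 : (Ew (2, true) [] v (0, true) ++ (Ew (0, false) [] u (2, false) ++
      Bd K T (u ++ v))).map (trf th02 id) =
      Ew (0, false) [] v (2, false) ++ (Ew (2, true) [] u (0, true) ++ Bd K T (u ++ v)) := by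
    have hl : ∀ x b, th02 (Lx x, b) = (Lx (id x), b) := by
      intro x b; unfold th02 Lx; simp; omega
    have hr : ∀ x b, th02 (Rx x, b) = (Rx (id x), b) := by
      intro x b; unfold th02 Rx; simp; omega
    rw [List.map_append, List.map_append, Ew_trf hom02 id hl hr, Ew_trf hom02 id hl hr,
      map_th02 (hB 0 (by norm_num)) (hB 2 (by norm_num))]
    simp [th02]
  rw [e3] at e2
  refine (Iff.trans ?_ e2).symm
  apply CC_perm
  rw [← List.append_assoc, ← List.append_assoc]
  exact List.perm_append_comm.append_right _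

/-! ### reversal -/

def sw (n : ℕ) : ℕ := if n % 2 = 0 then n + 1 else n - 1

lemma sw_sw (n : ℕ) : sw (sw n) = n := by unfold sw; split_ifs <;> omega

def thsw (e : End) : End := (sw e.1, e.2)

lemma thsw_thsw (e : End) : thsw (thsw e) = e := by simp [thsw, sw_sw]

lemma homsw : Hom thsw id where
  hdu _ := rfl
  hnil := rfl
  happ _ _ := rfl
  hrev _ := rfl

lemma sw_Lx (x : ℕ) : sw (Lx x) = Rx x := by unfold sw Lx Rx; split_ifs <;> omega

lemma sw_Rx (x : ℕ) : sw (Rx x) = Lx x := by unfold sw Lx Rx; split_ifs <;> omega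

lemma Ew_snoc (p : End) (u w : List ℕ) (x : ℕ) (q : End) :
    Ew p u (w ++ [x]) q = Ew p u w (Lx x, false) ++ [((Rx x, false), [], q)] := by
  induction w generalizing p u with
  | nil => rfl
  | cons y ys ih => simp only [List.cons_append, Ew, ih]

lemma Ew_rev (p : End) (w : List ℕ) (q : End) :
    (((Ew p [] w q).map (trf thsw id)).map qp).Perm
      ((Ew (thsw q) [] w.reverse (thsw p)).map qp) := by
  induction w generalizing p with
  | nil =>
    simp only [Ew, List.map_cons, List.map_nil, List.reverse_nil]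
    have : qp (trf thsw id (p, [], q)) = qp (thsw q, [], thsw p) := by
      rw [qp_eq]; right; rfl
    rw [this]
  | cons x xs ih =>
    rw [List.reverse_cons, Ew_snoc]
    simp only [Ew, List.map_cons, List.map_append, List.map_nil]
    refine List.Perm.trans ?_ (List.perm_append_comm (l₁ := [qp ((Rx x, false), [], thsw p)]))
    have : qp (trf thsw id (p, [], (Lx x, false))) = qp ((Rx x, false), [], thsw p) := by
      rw [qp_eq]; right
      simp [trf, fl, thsw, sw_Lx]
    rw [this]
    refine List.Perm.cons _ ?_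
    have h := ih (Rx x, false)
    have e : thsw (Rx x, false) = (Lx x, false) := by simp [thsw, sw_Rx]
    rw [e] at h
    exact h

lemma flat_qp_perm {l : List ℕ} {f g : ℕ → List Piece}
    (h : ∀ c, ((f c).map qp).Perm ((g c).map qp)) :
    ((l.flatMap f).map qp).Perm ((l.flatMap g).map qp) := by
  induction l with
  | nil => exact List.Perm.refl _
  | cons c l ih =>
    simp only [List.flatMap_cons, List.map_append]
    exact (h c).append ih

lemma Sys_rev {C : List ℕ → Prop} (K T : Finset ℕ) (t : List ℕ) :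
    CC C (Sys K T t.reverse) ↔ CC C (Sys K T t) := by
  have e1 := homsw.inv homsw thsw_thsw (fun _ => rfl) (fun _ => rfl) (C := C) (Sys K T t)
  refine Iff.trans ?_ e1
  apply CC_congr
  unfold Sys
  simp only [List.map_append, List.map_cons]
  refine List.Perm.append (Ew_rev (0, false) t (1, false)).symm ?_
  have hcl : qp (trf thsw id cl) = qp cl := by
    rw [qp_eq]; right; simp [trf, fl, cl, thsw, sw]
  rw [hcl]
  refine List.Perm.cons _ ?_
  unfold Bd
  simp only [List.map_append]
  refine List.Perm.append ?_ ?_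
  · rw [List.filter_reverse]
    have e2 : (((t.filter (fun x => decide (half x ∉ K))).map xp).map (trf thsw id)).map qp =
        ((t.filter (fun x => decide (half x ∉ K))).map xp).map qp := by
      rw [List.map_map, List.map_map, List.map_map]
      apply List.map_congr_left
      intro x _
      simp only [Function.comp]
      rw [qp_eq]; right
      simp [trf, fl, xp, thsw, sw_Lx, sw_Rx]
    rw [e2]
    exact (((List.reverse_perm _).map _).map _)
  · have e3 : (K.toList.flatMap (sm T)).map (trf thsw id) =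
        K.toList.flatMap (fun c => (sm T c).map (trf thsw id)) := List.map_flatMap
    rw [e3]
    apply flat_qp_perm
    intro c
    unfold sm
    split_ifs
    · simp only [List.map_cons, List.map_nil]
      have a1 : qp (trf thsw id ((Lx (2 * c), true), [], (Lx (2 * c + 1), true))) =
          qp ((Rx (2 * c), true), [], (Rx (2 * c + 1), true)) := by
        rw [qp_eq]; left; simp [trf, thsw, sw_Lx]
      have a2 : qp (trf thsw id ((Rx (2 * c), true), [], (Rx (2 * c + 1), true))) =
          qp ((Lx (2 * c), true), [], (Lx (2 * c + 1), true)) := by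
        rw [qp_eq]; left; simp [trf, thsw, sw_Rx]
      rw [a1, a2]
      exact List.Perm.swap _ _ _
    · simp only [List.map_cons, List.map_nil]
      have a1 : qp (trf thsw id ((Lx (2 * c), true), [], (Rx (2 * c + 1), true))) =
          qp ((Lx (2 * c + 1), true), [], (Rx (2 * c), true)) := by
        rw [qp_eq]; right; simp [trf, fl, thsw, sw_Lx, sw_Rx]
      have a2 : qp (trf thsw id ((Lx (2 * c + 1), true), [], (Rx (2 * c), true))) =
          qp ((Lx (2 * c), true), [], (Rx (2 * c + 1), true)) := by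
        rw [qp_eq]; right; simp [trf, fl, thsw, sw_Lx, sw_Rx]
      rw [a1, a2]
      exact List.Perm.swap _ _ _

/-! ### renaming of the tokens -/

/-- the induced renaming of names -/
def nm (ρ : ℕ → ℕ) (n : ℕ) : ℕ :=
  if n < 16 then n else if n % 2 = 0 then Lx (ρ ((n - 16) / 2)) else Rx (ρ ((n - 17) / 2))

lemma nm_Lx (ρ : ℕ → ℕ) (x : ℕ) : nm ρ (Lx x) = Lx (ρ x) := by
  have h1 : ¬ (Lx x < 16) := by unfold Lx; omega
  have h2 : Lx x % 2 = 0 := by unfold Lx; omega
  have h3 : (Lx x - 16) / 2 = x := by unfold Lx; omega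
  simp [nm, h1, h2, h3]

lemma nm_Rx (ρ : ℕ → ℕ) (x : ℕ) : nm ρ (Rx x) = Rx (ρ x) := by
  have h1 : ¬ (Rx x < 16) := by unfold Rx; omega
  have h2 : ¬ (Rx x % 2 = 0) := by unfold Rx; omega
  have h3 : (Rx x - 17) / 2 = x := by unfold Rx; omega
  simp [nm, h1, h2, h3]

lemma nm_small (ρ : ℕ → ℕ) {n : ℕ} (h : n < 16) : nm ρ n = n := by simp [nm, h]

lemma nm_inv {ρ ρ' : ℕ → ℕ} (h : ∀ x, ρ' (ρ x) = x) (n : ℕ) : nm ρ' (nm ρ n) = n := by
  by_cases h1 : n < 16
  · rw [nm_small ρ h1, nm_small ρ' h1]
  · by_cases h2 : n % 2 = 0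
    · have e : n = Lx ((n - 16) / 2) := by unfold Lx; omega
      rw [e, nm_Lx, nm_Lx, h]
    · have e : n = Rx ((n - 17) / 2) := by unfold Rx; omega
      rw [e, nm_Rx, nm_Rx, h]

lemma homren (ρ : ℕ → ℕ) : Hom (fun e => (nm ρ e.1, e.2)) (List.map ρ) where
  hdu _ := rfl
  hnil := rfl
  happ _ _ := by simp
  hrev _ := by simp

lemma toList_map_perm (σ : Equiv.Perm ℕ) (K : Finset ℕ) :
    (K.map σ.toEmbedding).toList.Perm (K.toList.map σ) := by
  rw [List.perm_ext_iff_of_nodup (Finset.nodup_toList _)
    ((Finset.nodup_toList _).map σ.injective)]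
  intro a
  rw [Finset.mem_toList, Finset.mem_map, List.mem_map]
  simp

lemma two_cases {ρ : Equiv.Perm ℕ} {σ : Equiv.Perm ℕ} (h : ∀ x, half (ρ x) = σ (half x))
    (c : ℕ) : (ρ (2 * c) = 2 * σ c ∧ ρ (2 * c + 1) = 2 * σ c + 1) ∨
      (ρ (2 * c) = 2 * σ c + 1 ∧ ρ (2 * c + 1) = 2 * σ c) := by
  have h1 := h (2 * c)
  have h2 := h (2 * c + 1)
  have e1 : half (2 * c) = c := by unfold half; omega
  have e2 : half (2 * c + 1) = c := by unfold half; omega
  rw [e1] at h1
  rw [e2] at h2
  have h3 : ρ (2 * c) ≠ ρ (2 * c + 1) := by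
    intro hh
    have := ρ.injective hh
    omega
  unfold half at h1 h2
  omega

lemma Sys_ren {C : List ℕ → Prop} (ρ σ : Equiv.Perm ℕ) (h : ∀ x, half (ρ x) = σ (half x))
    (K T : Finset ℕ) (t : List ℕ) :
    CC C (Sys (K.map σ.toEmbedding) (T.map σ.toEmbedding) (t.map ρ)) ↔
      CC (fun u => C (u.map ρ)) (Sys K T t) := by
  have e1 := (homren ρ).inv (homren ρ.symm)
    (by intro e; simp [nm_inv (ρ := ρ) (ρ' := ρ.symm) (fun x => by simp)])
    (by intro u; simp) (by intro u; simp) (C := C) (Sys K T t)
  refine Iff.trans ?_ e1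
  apply CC_congr
  unfold Sys
  simp only [List.map_append, List.map_cons]
  rw [Ew_trf (homren ρ) ρ (fun x b => by simp [nm_Lx]) (fun x b => by simp [nm_Rx])]
  simp only [nm_small ρ (show 0 < 16 by norm_num), nm_small ρ (show 1 < 16 by norm_num),
    List.map_nil]
  refine List.Perm.append_left _ ?_
  have hcl : trf (fun e => (nm ρ e.1, e.2)) (List.map ρ) cl = cl := by
    simp [trf, cl, nm_small ρ (show 0 < 16 by norm_num), nm_small ρ (show 1 < 16 by norm_num)]
  rw [hcl]
  refine List.Perm.cons _ ?_
  unfold Bd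
  simp only [List.map_append]
  refine List.Perm.append ?_ ?_
  · have e2 : (t.map ρ).filter (fun x => decide (half x ∉ K.map σ.toEmbedding)) =
        (t.filter (fun x => decide (half x ∉ K))).map ρ := by
      rw [List.filter_map]
      congr 1
      apply List.filter_congr
      intro x _
      simp [h x]
    rw [e2, List.map_map, List.map_map, List.map_map, List.map_map]
    have : (qp ∘ xp ∘ ρ) = (qp ∘ (trf (fun e => (nm ρ e.1, e.2)) (List.map ρ)) ∘ xp) := by
      funext x
      simp [trf, xp, nm_Lx, nm_Rx]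
    rw [Function.comp_assoc, this]
    exact List.Perm.refl _
  · refine (((toList_map_perm σ K).flatMap_right _).map qp).trans ?_
    have e3 : (K.toList.flatMap (sm T)).map (trf (fun e => (nm ρ e.1, e.2)) (List.map ρ)) =
        K.toList.flatMap (fun c => (sm T c).map
          (trf (fun e => (nm ρ e.1, e.2)) (List.map ρ))) := List.map_flatMap
    rw [List.flatMap_map, e3]
    apply flat_qp_perm
    intro c
    unfold sm
    have hcT : (σ c ∈ T.map σ.toEmbedding) ↔ c ∈ T := by simp
    simp only [hcT]
    rcases two_cases h c with ⟨h1, h2⟩ | ⟨h1, h2⟩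
    · split_ifs <;>
      simp only [List.map_cons, List.map_nil, trf, nm_Lx, nm_Rx, h1, h2] <;>
      exact List.Perm.refl _
    · split_ifs
      · simp only [List.map_cons, List.map_nil, trf, nm_Lx, nm_Rx, h1, h2]
        have a1 : qp ((Lx (2 * σ c + 1), true), [], (Lx (2 * σ c), true)) =
            qp ((Lx (2 * σ c), true), [], (Lx (2 * σ c + 1), true)) := by
          rw [qp_eq]; right; simp [fl]
        have a2 : qp ((Rx (2 * σ c + 1), true), [], (Rx (2 * σ c), true)) =
            qp ((Rx (2 * σ c), true), [], (Rx (2 * σ c + 1), true)) := by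
          rw [qp_eq]; right; simp [fl]
        rw [a1, a2]
      · simp only [List.map_cons, List.map_nil, trf, nm_Lx, nm_Rx, h1, h2]
        exact List.Perm.swap _ _ _

end Pool.Agent.Run7.h906
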