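import Mathlib
import Pool.Agent.Run7.h906.System

set_option linter.unusedSimpArgs false

namespace Pool.Agent.Run7.h906

/-- labelled words: both tokens of each chord occur once -/
structure Lab (t : List ℕ) : Prop where
  nd : t.Nodup
  par : ∀ x ∈ t, sw x ∈ t

lemma half_sw (x : ℕ) : half (sw x) = half x := by unfold half sw; split_ifs <;> omega

lemma Lab.mem {t : List ℕ} (h : Lab t) {c : ℕ} (hc : c ∈ t.map half) :
    2 * c ∈ t ∧ 2 * c + 1 ∈ t := by
  rw [List.mem_map] at hc
  obtain ⟨x, hx, rfl⟩ := hc
  have h2 := h.par x hx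
  rcases Nat.mod_two_eq_zero_or_one x with hm | hm
  · have e1 : 2 * half x = x := by unfold half; omega
    have e2 : sw x = x + 1 := by simp [sw, hm]
    rw [e2] at h2
    rw [e1]
    exact ⟨hx, h2⟩
  · have e1 : 2 * half x = x - 1 := by unfold half; omega
    have e2 : sw x = x - 1 := by simp [sw, hm]
    rw [e2] at h2
    have e3 : x - 1 + 1 = x := by omega
    rw [e1, e3]
    exact ⟨h2, hx⟩

lemma count_half (t : List ℕ) (c : ℕ) :
    (t.map half).count c = t.count (2 * c) + t.count (2 * c + 1) := by
  induction t with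
  | nil => rfl
  | cons x xs ih =>
    rw [List.map_cons, List.count_cons, List.count_cons, List.count_cons, ih]
    have : (if (half x == c) = true then 1 else 0) =
        (if (x == 2 * c) = true then 1 else 0) + (if (x == 2 * c + 1) = true then 1 else 0) := by
      by_cases h1 : x = 2 * c
      · subst h1
        have : half (2 * c) = c := by unfold half; omega
        simp [this]
      · by_cases h2 : x = 2 * c + 1
        · subst h2
          have : half (2 * c + 1) = c := by unfold half; omega
          simp [this]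
        · have : half x ≠ c := by unfold half; omega
          simp [this, h1, h2]
    rw [this]
    ring

lemma Lab.gauss {t : List ℕ} (h : Lab t) : Gauss (t.map half) := by
  intro c hc
  obtain ⟨h1, h2⟩ := h.mem hc
  rw [count_half, List.count_eq_one_of_mem h.nd h1, List.count_eq_one_of_mem h.nd h2]

lemma Lab.filter {t : List ℕ} (h : Lab t) (f : ℕ → Bool) :
    Lab (t.filter (fun x => f (half x))) := by
  refine ⟨h.nd.filter _, ?_⟩
  intro x hx
  rw [List.mem_filter] at hx ⊢
  exact ⟨h.par x hx.1, by rw [half_sw]; exact hx.2⟩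

lemma Lab.perm {t t' : List ℕ} (h : Lab t) (hp : t.Perm t') : Lab t' :=
  ⟨hp.nodup_iff.1 h.nd, fun x hx => hp.mem_iff.1 (h.par x (hp.mem_iff.2 hx))⟩

/-- alternation of colours -/
def Alt (κ : ℕ → ZMod 2) : ZMod 2 → List ℕ → ZMod 2 → Prop
  | s, [], s' => s = s'
  | s, x :: xs, s' => κ x = s ∧ Alt κ (s + 1) xs s'

lemma alt_append (κ : ℕ → ZMod 2) (u v : List ℕ) (s s' : ZMod 2) :
    Alt κ s (u ++ v) s' ↔ ∃ m, Alt κ s u m ∧ Alt κ m v s' := by
  induction u generalizing s with
  | nil => simp [Alt]
  | cons x xs ih =>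
    simp only [List.cons_append, Alt, ih]
    constructor
    · rintro ⟨h1, m, h2, h3⟩
      exact ⟨m, ⟨h1, h2⟩, h3⟩
    · rintro ⟨m, ⟨h1, h2⟩, h3⟩
      exact ⟨h1, m, h2, h3⟩

lemma two_z (s : ZMod 2) : s + 1 + 1 = s := by
  revert s; decide

lemma alt_rev (κ : ℕ → ZMod 2) (u : List ℕ) (s s' : ZMod 2) (h : Alt κ s u s') :
    Alt κ (s' + 1) u.reverse (s + 1) := by
  induction u generalizing s with
  | nil => simp only [Alt] at h; subst h; rfl
  | cons x xs ih =>
    obtain ⟨h1, h2⟩ := h
    rw [List.reverse_cons, alt_append]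
    refine ⟨s, ?_, ?_⟩
    · have := ih _ h2
      rwa [two_z] at this
    · exact ⟨h1, rfl⟩

/-- phase at an end -/
def psi (κ : ℕ → ZMod 2) (e : End) : ZMod 2 :=
  (if e.1 = 0 then 1 else if e.1 = 1 then 0 else κ ((e.1 - 16) / 2)) + (if e.2 then 0 else 1)

lemma psi_du (κ : ℕ → ZMod 2) (e : End) : psi κ (du e) = psi κ e + 1 := by
  obtain ⟨n, b⟩ := e
  unfold psi du
  cases b
  · simp only [Bool.not_false, ↓reduceIte, Bool.false_eq_true, add_zero]
    rw [two_z]
  · simp

lemma psi_L (κ : ℕ → ZMod 2) (x : ℕ) : psi κ (Lx x, true) = κ x := by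
  have h0 : Lx x ≠ 0 := by unfold Lx; omega
  have h1 : Lx x ≠ 1 := by unfold Lx; omega
  have h2 : (Lx x - 16) / 2 = x := by unfold Lx; omega
  simp [psi, h0, h1, h2]

lemma psi_R (κ : ℕ → ZMod 2) (x : ℕ) : psi κ (Rx x, true) = κ x := by
  have h0 : Rx x ≠ 0 := by unfold Rx; omega
  have h1 : Rx x ≠ 1 := by unfold Rx; omega
  have h2 : (Rx x - 16) / 2 = x := by unfold Rx; omega
  simp [psi, h0, h1, h2]

/-- compatibility of a piece with the colours -/
def Okp (κ : ℕ → ZMod 2) (P : Piece) : Prop := Alt κ (psi κ P.1) P.2.1 (psi κ (du P.2.2))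

lemma Okp.fl {κ : ℕ → ZMod 2} {P : Piece} (h : Okp κ P) : Okp κ (fl P) := by
  have := alt_rev _ _ _ _ h
  unfold Okp h906.fl
  simp only
  rw [psi_du] at this
  rw [two_z] at this
  rw [psi_du]
  exact this

lemma Okp.path {κ : ℕ → ZMod 2} {l : List Piece} {p q : End} (hl : ∀ P ∈ l, Okp κ P)
    (h : Path p l q) : Alt κ (psi κ p) (word l) (psi κ q) := by
  induction l generalizing p with
  | nil => simp only [Path] at h; subst h; rfl
  | cons P l ih =>
    obtain ⟨h1, h2⟩ := h
    rw [word_cons, alt_append]
    refine ⟨psi κ (du P.2.2), ?_, ih (fun Q hQ => hl Q (by simp [hQ])) h2⟩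
    have := hl P (by simp)
    unfold Okp at this
    rw [h1] at this
    exact this

lemma okp_Ew {κ : ℕ → ZMod 2} {p q : End} {w : List ℕ}
    (h : Alt κ (psi κ p) w (psi κ (du q))) : ∀ P ∈ Ew p [] w q, Okp κ P := by
  induction w generalizing p with
  | nil =>
    intro P hP
    simp only [Ew, List.mem_singleton] at hP
    subst hP
    exact h
  | cons x xs ih =>
    obtain ⟨h1, h2⟩ := h
    intro P hP
    simp only [Ew, List.mem_cons] at hP
    rcases hP with rfl | hP
    · show psi κ p = psi κ (Lx x, true)
      rw [psi_L, h1]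
    · apply ih _ P hP
      have e : psi κ (Rx x, false) = psi κ p + 1 := by
        have := psi_du κ (Rx x, true)
        rw [psi_R, h1] at this
        exact this
      rw [e]
      exact h2

lemma okp_xp (κ : ℕ → ZMod 2) (x : ℕ) : Okp κ (xp x) := by
  refine ⟨(psi_L κ x).symm, ?_⟩
  show psi κ (Lx x, true) + 1 = psi κ (du (Rx x, true))
  rw [psi_du, psi_L, psi_R]

lemma okp_cl (κ : ℕ → ZMod 2) : Okp κ cl := by
  show psi κ (1, true) = psi κ (0, false)
  simp [psi]
  decide

lemma okp_sm {κ : ℕ → ZMod 2} {T : Finset ℕ} {c : ℕ} (h : κ (2 * c + 1) = κ (2 * c) + 1) :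
    ∀ P ∈ sm T c, Okp κ P := by
  intro P hP
  unfold sm at hP
  split_ifs at hP
  · simp only [List.mem_cons, List.not_mem_nil, or_false] at hP
    rcases hP with rfl | rfl
    · show psi κ (Lx (2 * c), true) = psi κ (du (Lx (2 * c + 1), true))
      rw [psi_du, psi_L, psi_L, h, two_z]
    · show psi κ (Rx (2 * c), true) = psi κ (du (Rx (2 * c + 1), true))
      rw [psi_du, psi_R, psi_R, h, two_z]
  · simp only [List.mem_cons, List.not_mem_nil, or_false] at hP
    rcases hP with rfl | rfl
    · show psi κ (Lx (2 * c), true) = psi κ (du (Rx (2 * c + 1), true))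
      rw [psi_du, psi_L, psi_R, h, two_z]
    · show psi κ (Lx (2 * c + 1), true) = psi κ (du (Rx (2 * c), true))
      rw [psi_du, psi_L, psi_R, h]

lemma mem_qp {κ : ℕ → ZMod 2} {l S : List Piece} (h : (l.map qp).Perm (S.map qp))
    (hS : ∀ P ∈ S, Okp κ P) : ∀ P ∈ l, Okp κ P := by
  intro P hP
  have : qp P ∈ S.map qp := by
    rw [← h.mem_iff]
    exact List.mem_map_of_mem hP
  rw [List.mem_map] at this
  obtain ⟨Q, hQ, hq⟩ := this
  rcases qp_eq.1 hq with h1 | h1
  · rw [h1]; exact hS Q hQ
  · rw [h1]; exact (hS Q hQ).fl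

/-- total colour of the two tokens of a letter -/
def pk (κ : ℕ → ZMod 2) (c : ℕ) (u : List ℕ) : ZMod 2 :=
  ((u.filter (fun x => decide (half x = c))).map κ).sum

lemma ps_alt (κ : ℕ → ZMod 2) (c : ℕ) (u : List ℕ) (s s' : ZMod 2) (h : Alt κ s u s') :
    (ps c (u.map half) : ZMod 2) = pk κ c u + s * ((u.map half).count c : ℕ) := by
  induction u generalizing s with
  | nil => simp [ps, pk]
  | cons x xs ih =>
    obtain ⟨h1, h2⟩ := h
    have h3 := ih _ h2
    rw [List.map_cons]
    simp only [ps, Nat.cast_add, h3]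
    have h4 : pk κ c (x :: xs) = (if half x = c then s else 0) + pk κ c xs := by
      unfold pk
      by_cases hx : half x = c
      · rw [List.filter_cons_of_pos (by simp [hx])]
        simp [hx, h1]
      · rw [List.filter_cons_of_neg (by simp [hx])]
        simp [hx]
    rw [h4, List.count_cons]
    generalize pk κ c xs = A
    generalize ((xs.map half).count c) = B
    by_cases hx : half x = c
    · simp only [hx, ↓reduceIte, beq_self_eq_true, Nat.cast_add, Nat.cast_one]
      generalize ((B : ℕ) : ZMod 2) = B'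
      clear h4 h3 h2 h1 ih
      revert s A B'
      decide
    · have : (half x == c) = false := by simp [hx]
      simp only [hx, ↓reduceIte, this, Bool.false_eq_true, add_zero, zero_add]
      generalize ((B : ℕ) : ZMod 2) = B'
      clear h4 h3 h2 h1 ih
      revert s A B'
      decide

lemma pk_perm {κ : ℕ → ZMod 2} {c : ℕ} {u v : List ℕ} (h : u.Perm v) : pk κ c u = pk κ c v :=
  ((h.filter _).map κ).sum_eq

lemma alt_idx (t : List ℕ) (A B : List ℕ) (h : t = A ++ B) (hnd : t.Nodup) :
    Alt (fun x => ((t.idxOf x : ℕ) : ZMod 2)) (A.length : ℕ) B (t.length : ℕ) := by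
  induction B generalizing A with
  | nil => simp only [Alt]; rw [h]; simp
  | cons x xs ih =>
    constructor
    · simp only
      have hx : x ∉ A := by
        rw [h, List.nodup_append] at hnd
        intro hx
        exact hnd.2.2 x hx x (by simp) rfl
      rw [h, List.idxOf_append_of_notMem hx]
      simp
    · have := ih (A ++ [x]) (by rw [h]; simp)
      simpa using this

lemma word_perm {l S : List Piece} (h : (l.map qp).Perm (S.map qp)) :
    (word l).Perm (word S) := by
  let g : QP → Multiset ℕ := Quotient.lift (fun P : Piece => (P.2.1 : Multiset ℕ)) (by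
    rintro P Q (rfl | rfl)
    · rfl
    · show (P.2.1 : Multiset ℕ) = (P.2.1.reverse : Multiset ℕ)
      exact (Multiset.coe_reverse _).symm)
  have key : ∀ L : List Piece, ((L.map qp).map g).sum = (word L : Multiset ℕ) := by
    intro L
    induction L with
    | nil => rfl
    | cons P L ih =>
      rw [List.map_cons, List.map_cons, List.sum_cons, ih, word_cons]
      rfl
  have := (h.map g).sum_eq
  rw [key, key] at this
  exact Multiset.coe_eq_coe.1 this

lemma word_Ew (p : End) (w : List ℕ) (q : End) : word (Ew p [] w q) = [] := by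
  induction w generalizing p with
  | nil => rfl
  | cons x xs ih => simp [Ew, ih]

lemma word_sm (T : Finset ℕ) (c : ℕ) : word (sm T c) = [] := by
  unfold sm; split_ifs <;> rfl

lemma word_Sys (K T : Finset ℕ) (t : List ℕ) :
    word (Sys K T t) = t.filter (fun x => decide (half x ∉ K)) := by
  unfold Sys Bd
  rw [word_append, word_cons, word_append, word_Ew]
  have h1 : ∀ l : List ℕ, word (l.map xp) = l := by
    intro l
    induction l with
    | nil => rfl
    | cons x xs ih => simp [ih, xp]
  have h2 : ∀ l : List ℕ, word (l.flatMap (sm T)) = [] := by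
    intro l
    induction l with
    | nil => rfl
    | cons x xs ih => simp [ih, word_sm]
  rw [h1, h2]
  simp [cl]

/-- parity of the chords in the word of a tour -/
lemma evn_tour {K T : Finset ℕ} {t : List ℕ} (ht : Lab t)
    (hK : ∀ c ∈ K, c ∈ t.map half ∧ evn (t.map half) c = true)
    {l : List Piece} {p : End} (h1 : Path p l p) (h2 : (l.map qp).Perm ((Sys K T t).map qp))
    {c : ℕ} (hc : c ∉ K) : evn ((word l).map half) c = evn (t.map half) c := by
  set κ : ℕ → ZMod 2 := fun x => ((t.idxOf x : ℕ) : ZMod 2) with hκ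
  have hlen : ((t.length : ℕ) : ZMod 2) = 0 := by
    have := ht.gauss.even_length
    rw [List.length_map] at this
    exact (ZMod.natCast_eq_zero_iff _ 2).2 (Nat.dvd_of_mod_eq_zero this)
  have halt : Alt κ 0 t 0 := by
    have := alt_idx t [] t rfl ht.nd
    rw [hlen] at this
    simpa using this
  have hps : ∀ c, (ps c (t.map half) : ZMod 2) = pk κ c t := by
    intro c
    rw [ps_alt κ c t 0 0 halt]
    simp
  have hpk : ∀ c, c ∈ t.map half → pk κ c t = κ (2 * c) + κ (2 * c + 1) := by
    intro c hc
    obtain ⟨m1, m2⟩ := ht.mem hc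
    have hp : (t.filter (fun x => decide (half x = c))).Perm [2 * c, 2 * c + 1] := by
      rw [List.perm_ext_iff_of_nodup (ht.nd.filter _) (by simp)]
      intro x
      rw [List.mem_filter]
      simp only [decide_eq_true_eq, List.mem_cons, List.not_mem_nil, or_false]
      constructor
      · rintro ⟨_, h⟩
        unfold half at h
        omega
      · rintro (rfl | rfl)
        · exact ⟨m1, by unfold half; omega⟩
        · exact ⟨m2, by unfold half; omega⟩
    unfold pk
    rw [(hp.map κ).sum_eq]
    simp
  have hKk : ∀ c ∈ K, κ (2 * c + 1) = κ (2 * c) + 1 := by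
    intro c hc
    obtain ⟨m, e⟩ := hK c hc
    unfold evn at e
    have e1 : ps c (t.map half) % 2 = 1 := by simpa using e
    have e2 : (ps c (t.map half) : ZMod 2) = 1 := by
      have := (ZMod.natCast_eq_natCast_iff (ps c (t.map half)) 1 2).2 e1
      simpa using this
    rw [hps, hpk c m] at e2
    generalize κ (2 * c) = a at *
    generalize κ (2 * c + 1) = b at *
    revert e2
    revert a b
    decide
  have hS : ∀ P ∈ Sys K T t, Okp κ P := by
    intro P hP
    unfold Sys Bd at hP
    simp only [List.mem_append, List.mem_cons] at hP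
    rcases hP with hP | rfl | hP | hP
    · apply okp_Ew _ P hP
      have e1 : psi κ (0, false) = 0 := by simp [psi]; decide
      have e2 : psi κ (du (1, false)) = 0 := by simp [psi, du]
      rw [e1, e2]
      exact halt
    · exact okp_cl κ
    · rw [List.mem_map] at hP
      obtain ⟨x, _, rfl⟩ := hP
      exact okp_xp κ x
    · rw [List.mem_flatMap] at hP
      obtain ⟨c, hc, hP⟩ := hP
      exact okp_sm (hKk c (Finset.mem_toList.1 hc)) P hP
  have hl := Okp.path (mem_qp h2 hS) h1
  have hwp : (word l).Perm (t.filter (fun x => decide (half x ∉ K))) := by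
    rw [← word_Sys K T t]
    exact word_perm h2
  have e1 := ps_alt κ c (word l) _ _ hl
  have hgl : Gauss ((word l).map half) := by
    have hl2 : Lab (t.filter (fun x => decide (half x ∉ K))) := ht.filter (fun c => decide (c ∉ K))
    exact hl2.gauss.perm (hwp.map half).symm
  have hcnt : (((((word l).map half).count c : ℕ)) : ZMod 2) = 0 := by
    rcases hgl.count_le c with e | e <;> rw [e] <;> decide
  rw [hcnt, mul_zero, add_zero] at e1
  have e3 : pk κ c (word l) = pk κ c t := by
    rw [pk_perm hwp]
    unfold pk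
    rw [List.filter_filter]
    congr 2
    apply List.filter_congr
    intro x _
    by_cases hx : half x = c
    · simp [hx, hc]
    · simp [hx]
  rw [e3, ← hps] at e1
  have e4 := (ZMod.natCast_eq_natCast_iff _ _ 2).1 e1
  unfold evn
  unfold Nat.ModEq at e4
  rw [e4]

end Pool.Agent.Run7.h906
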