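import Mathlib
import Pool.Agent.Run7.h906.Colour

set_option linter.unusedSimpArgs false

namespace Pool.Agent.Run7.h906

/-- letters of level greater than `h` -/
def KK (h : ℕ) (w : List ℕ) : Finset ℕ := (strip^[h] w).toFinset

lemma strip_sub (w : List ℕ) {a : ℕ} (h : a ∈ strip w) : a ∈ w := by
  unfold strip at h
  exact List.mem_of_mem_filter h

lemma iter_sub (h : ℕ) (w : List ℕ) {a : ℕ} (ha : a ∈ strip^[h] w) : a ∈ w := by
  induction h generalizing w with
  | zero => exact ha
  | succ h ih => exact strip_sub w (ih (strip w) ha)

/-- the words that should not occur -/
def Bad (h : ℕ) (u : List ℕ) : Prop := Gauss (u.map half) ∧ strip^[h] (u.map half) ≠ []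

lemma bad_RR (h : ℕ) : RR (Bad h) where
  rot u v := by
    rintro ⟨h1, h2⟩
    rw [List.map_append] at h1 h2
    obtain ⟨u', v', e1, e2⟩ := iter_rot h h1
    refine ⟨?_, ?_⟩
    · rw [List.map_append]
      exact h1.perm List.perm_append_comm
    · rw [List.map_append, e2]
      rw [e1] at h2
      intro hh
      apply h2
      rw [List.append_eq_nil_iff] at hh ⊢
      exact ⟨hh.2, hh.1⟩
  rev u := by
    rintro ⟨h1, h2⟩
    refine ⟨?_, ?_⟩
    · rw [List.map_reverse]
      exact h1.perm (List.reverse_perm _).symm
    · rw [List.map_reverse, iter_rev h h1]
      simpa using h2

lemma fresh_Bd_tok {K T : Finset ℕ} {t : List ℕ} {x n : ℕ} (hn : n = Lx x ∨ n = Rx x)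
    (hx : x ∉ t) (hK : half x ∉ K) : Fresh n (Bd K T t) := by
  unfold Bd
  apply Fresh.append
  · apply fresh_map_xp
    intro y hy
    have hy' : y ∈ t := List.mem_of_mem_filter hy
    have hne : y ≠ x := by rintro rfl; exact hx hy'
    rcases hn with rfl | rfl <;> unfold Lx Rx <;> omega
  · apply fresh_flat
    intro c hc
    rw [Finset.mem_toList] at hc
    have hne : half x ≠ c := by rintro rfl; exact hK hc
    unfold half at hne
    intro P hP
    unfold sm at hP
    split_ifs at hP <;>
    · simp only [List.mem_cons, List.not_mem_nil, or_false] at hP
      rcases hn with rfl | rfl <;> rcases hP with rfl | rfl <;>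
        constructor <;> simp only [Lx, Rx, ne_eq] <;> omega

lemma fresh_cl {n : ℕ} (hn : 16 ≤ n) {R : List Piece} (h : Fresh n R) : Fresh n (cl :: R) := by
  apply Fresh.cons _ _ h <;> simp [cl] <;> omega

/-- filtering the words of the pieces -/
lemma hom_filter (f : ℕ → Bool) : Hom id (List.filter f) where
  hdu _ := rfl
  hnil := rfl
  happ _ _ := by simp
  hrev _ := by simp

theorem tour_good (h : ℕ) (t : List ℕ) (ht : Lab t) (T : Finset ℕ) :
    ¬ CC (Bad h) (Sys (KK h (t.map half)) T t) := by
  induction h generalizing t with
  | zero =>
    rintro ⟨l, p, h1, h2, h3, h4⟩
    apply h4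
    have hw := word_perm h2
    rw [word_Sys] at hw
    have : t.filter (fun x => decide (half x ∉ KK 0 (t.map half))) = [] := by
      rw [List.filter_eq_nil_iff]
      intro x hx
      simp only [KK, Function.iterate_zero, id_eq, decide_eq_true_eq, not_not,
        List.mem_toFinset]
      exact List.mem_map_of_mem hx
    rw [this] at hw
    rw [List.Perm.eq_nil hw]
    rfl
  | succ h ih =>
    intro hCC
    set w := t.map half with hw
    set K := KK (h + 1) w with hK
    set keep : ℕ → Bool := fun x => evn w (half x) with hkeep
    have hwg : Gauss w := ht.gauss
    have hst : strip w = (t.filter keep).map half := by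
      rw [strip_eq hwg, hw, List.filter_map]
      rfl
    have ht' : Lab (t.filter keep) := ht.filter (evn w)
    have hK' : KK h ((t.filter keep).map half) = K := by
      rw [hK]
      unfold KK
      rw [Function.iterate_succ_apply, hst]
    have hKe : ∀ c ∈ K, c ∈ w ∧ evn w c = true := by
      intro c hc
      have h1 : c ∈ strip^[h] (strip w) := by
        rw [hK] at hc
        unfold KK at hc
        rw [Function.iterate_succ_apply, List.mem_toFinset] at hc
        exact hc
      have h2 := iter_sub h _ h1
      rw [strip_eq hwg, List.mem_filter] at h2
      exact h2
    -- the tour of the filtered system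
    have step1 : CC (Bad h) ((Sys K T t).map (trf id (List.filter keep))) := by
      apply (hom_filter keep).CC
      obtain ⟨l, p, h1, h2, h3, h4⟩ := hCC
      refine ⟨l, p, h1, h2, ?_⟩
      have hwp : (word l).Perm (t.filter (fun x => decide (half x ∉ K))) := by
        rw [← word_Sys K T t]
        exact word_perm h2
      have hmem : ∀ c ∈ (word l).map half, c ∉ K := by
        intro c hc
        rw [List.mem_map] at hc
        obtain ⟨x, hx, rfl⟩ := hc
        rw [hwp.mem_iff, List.mem_filter] at hx
        simpa using hx.2
      have e1 : strip ((word l).map half) = ((word l).filter keep).map half := by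
        rw [strip_eq h3, List.filter_map]
        congr 1
        apply List.filter_congr
        intro x hx
        simp only [Function.comp, hkeep]
        exact evn_tour ht hKe h1 h2 (hmem _ (List.mem_map_of_mem hx))
      refine ⟨?_, ?_⟩
      · rw [← e1]; exact h3.strip
      · rw [← e1, ← Function.iterate_succ_apply]; exact h4
    -- split into kept and deleted tokens
    have hEw : (Ew (0, false) [] t (1, false)).map (trf id (List.filter keep)) =
        Ew (0, false) [] t (1, false) := by
      rw [Ew_trf (hom_filter keep) id (fun _ _ => rfl) (fun _ _ => rfl)]
      simp
    have hcl : trf id (List.filter keep) cl = cl := rfl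
    have hsm : (K.toList.flatMap (sm T)).map (trf id (List.filter keep)) =
        K.toList.flatMap (sm T) := by
      rw [List.map_flatMap]
      apply List.flatMap_congr
      intro c _
      unfold sm
      split_ifs <;> simp [trf]
    have hxp : (((t.filter (fun x => decide (half x ∉ K))).map xp).map
        (trf id (List.filter keep))).Perm
        ((t.filter (fun x => !keep x)).map bl ++
          ((t.filter keep).filter (fun x => decide (half x ∉ K))).map xp) := by
      rw [List.map_map]
      set A := t.filter (fun x => decide (half x ∉ K)) with hA
      have e1 : (A.filter (fun x => !keep x)) = t.filter (fun x => !keep x) := by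
        rw [hA, List.filter_filter]
        apply List.filter_congr
        intro x hx
        cases hk : keep x with
        | true => simp
        | false =>
          have : half x ∉ K := by
            intro hh
            have := (hKe _ hh).2
            simp only [hkeep] at hk
            rw [this] at hk
            exact absurd hk (by simp)
          simp [this]
      have e2 : A.filter keep = (t.filter keep).filter (fun x => decide (half x ∉ K)) := by
        rw [hA, List.filter_filter, List.filter_filter]
        apply List.filter_congr
        intro x _
        exact Bool.and_comm _ _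
      have e3 := (List.filter_append_perm keep A).symm.map
        (trf id (List.filter keep) ∘ xp)
      refine e3.trans ?_
      rw [List.map_append]
      refine List.perm_append_comm.trans ?_
      rw [e1, e2]
      have e4 : (t.filter (fun x => !keep x)).map (trf id (List.filter keep) ∘ xp) =
          (t.filter (fun x => !keep x)).map bl := by
        apply List.map_congr_left
        intro x hx
        rw [List.mem_filter] at hx
        have hk : keep x = false := by simpa using hx.2
        simp [trf, xp, bl, hk]
      have e5 : ((t.filter keep).filter (fun x => decide (half x ∉ K))).map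
          (trf id (List.filter keep) ∘ xp) =
          ((t.filter keep).filter (fun x => decide (half x ∉ K))).map xp := by
        apply List.map_congr_left
        intro x hx
        have hx := List.mem_of_mem_filter hx
        rw [List.mem_filter] at hx
        simp [trf, xp, hx.2]
      rw [e4, e5]
    have step2 : CC (Bad h) (Ew (0, false) [] t (1, false) ++
        ((t.filter (fun x => !keep x)).map bl ++ (cl :: Bd K T (t.filter keep)))) := by
      refine (CC_perm ?_).1 step1
      unfold Sys Bd
      simp only [List.map_append, List.map_cons, hEw, hcl, hsm]
      refine List.Perm.append_left _ ?_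
      refine (List.Perm.cons cl (hxp.append_right _)).trans ?_
      rw [List.append_assoc]
      exact List.perm_middle.symm
    have step3 := (del (bad_RR h) keep t ht.nd (0, false) [] (1, false)
      (cl :: Bd K T (t.filter keep))
      (fun x _ => by constructor <;> simp only [Lx, Rx, ne_eq] <;> omega)
      (fun x _ => by constructor <;> simp only [Lx, Rx, ne_eq] <;> omega)
      (fun x hx hk => by
        have hxK : half x ∉ K := by
          intro hh
          have := (hKe _ hh).2
          simp only [hkeep] at hk
          rw [this] at hk
          exact absurd hk (by simp)
        have hxt : x ∉ t.filter keep := by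
          rw [List.mem_filter]
          rintro ⟨_, h2⟩
          rw [hk] at h2
          exact absurd h2 (by simp)
        exact ⟨fresh_cl (by unfold Lx; omega) (fresh_Bd_tok (Or.inl rfl) hxt hxK),
          fresh_cl (by unfold Rx; omega) (fresh_Bd_tok (Or.inr rfl) hxt hxK)⟩)).1 step2
    have := ih (t.filter keep) ht'
    rw [hK'] at this
    exact this step3

end Pool.Agent.Run7.h906
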