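import Mathlib
import Pool.Agent.Run7.h906.Strand

set_option linter.unusedSimpArgs false

namespace Pool.Agent.Run7.h906

/-- first smoothing -/
def smo (c : ℕ) : List Piece :=
  [((Lx (2 * c), true), [], (Rx (2 * c + 1), true)),
   ((Lx (2 * c + 1), true), [], (Rx (2 * c), true))]

/-- second smoothing -/
def smu (c : ℕ) : List Piece :=
  [((Lx (2 * c), true), [], (Lx (2 * c + 1), true)),
   ((Rx (2 * c), true), [], (Rx (2 * c + 1), true))]

/-- crossing kept -/
def smx (c : ℕ) : List Piece := [xp (2 * c), xp (2 * c + 1)]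

/-- local pieces at a third move -/
def L3 (p q r : List ℕ) (body : List Piece) : List Piece :=
  Ew (0, false) [] p (2, false) ++ (Ew (3, true) [] q (4, false) ++
    (Ew (5, true) [] r (6, false) ++ (((1, true), [], (0, true)) :: body)))

/-- the inner names at a third move -/
def N3 : List ℕ := [0, 16, 17, 18, 19, 20, 21, 22, 23, 24, 25, 26, 27]

/-- the eight bodies when all three chords are smoothed -/
def bodies3 : List (List Piece) :=
  [smo 0 ++ (smo 1 ++ smo 2), smo 0 ++ (smo 1 ++ smu 2),
   smo 0 ++ (smu 1 ++ smo 2), smo 0 ++ (smu 1 ++ smu 2),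
   smu 0 ++ (smo 1 ++ smo 2), smu 0 ++ (smo 1 ++ smu 2),
   smu 0 ++ (smu 1 ++ smo 2), smu 0 ++ (smu 1 ++ smu 2)]

/-- local pieces at a second move -/
def L2 (p q : List ℕ) (body : List Piece) : List Piece :=
  Ew (0, false) [] p (2, false) ++ (Ew (3, true) [] q (4, false) ++
    (((1, true), [], (0, true)) :: body))

def N2 : List ℕ := [0, 16, 17, 18, 19, 20, 21, 22, 23]

end Pool.Agent.Run7.h906
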