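import Mathlib
import Pool.Agent.Run7.h906.Height
import Pool.Agent.Run7.h906.Local

set_option linter.unusedSimpArgs false

namespace Pool.Agent.Run7.h906

lemma sm_of_mem {T : Finset ℕ} {c : ℕ} (h : c ∈ T) : sm T c = smu c := by simp [sm, smu, h]

lemma sm_of_not_mem {T : Finset ℕ} {c : ℕ} (h : c ∉ T) : sm T c = smo c := by
  simp [sm, smo, h]

lemma cut' {C : List ℕ → Prop} (hC : RR C) (m : ℕ) (hm : m < 16) (A : List Piece) (p : End)
    (w u v : List ℕ) (q : End) (R : List Piece) (hA : Fresh m A) (hR : Fresh m R)
    (hp : p.1 ≠ m) (hq : q.1 ≠ m) :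
    CC C (A ++ (Ew p w (u ++ v) q ++ R)) ↔
      CC C (A ++ (Ew p w u (m, false) ++ (Ew (m, true) [] v q ++ R))) := by
  have e1 : (A ++ (Ew p w (u ++ v) q ++ R)).Perm (Ew p w (u ++ v) q ++ (A ++ R)) := by
    rw [← List.append_assoc, ← List.append_assoc]
    exact List.perm_append_comm.append_right _
  rw [CC_perm e1, cut hC m hm p w u v q (A ++ R) (hA.append hR) hp hq]
  apply CC_perm
  rw [← Multiset.coe_eq_coe]
  simp only [← Multiset.coe_add]
  abel

/-- context of a second move -/
def R2 (U V : List ℕ) (B : List Piece) : List Piece :=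
  Ew (2, true) [] U (3, false) ++ (Ew (4, true) [] V (1, false) ++ B)

/-- context of a third move -/
def R3 (U V W : List ℕ) (B : List Piece) : List Piece :=
  Ew (2, true) [] U (3, false) ++ (Ew (4, true) [] V (5, false) ++
    (Ew (6, true) [] W (1, false) ++ B))

/-- context of a first move -/
def R1 (U : List ℕ) (B : List Piece) : List Piece :=
  Ew (2, true) [] U (1, false) ++ B

def L1 (p : List ℕ) (body : List Piece) : List Piece :=
  Ew (0, false) [] p (2, false) ++ (((1, true), [], (0, true)) :: body)

def N1 : List ℕ := [0, 16, 17, 18, 19]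

lemma fresh_small_Ew {n : ℕ} (hn : n < 16) {p q : End} (hp : p.1 ≠ n) (hq : q.1 ≠ n)
    (u w : List ℕ) : Fresh n (Ew p u w q) := fresh_Ew hp hq (small_tok hn w)

lemma dec1 {C : List ℕ → Prop} (hC : RR C) (p U : List ℕ) (D body B : List Piece)
    (hD : ∀ n < 16, Fresh n D) (hp : D.Perm (body ++ B)) :
    CC C (Ew (0, false) [] (p ++ U) (1, false) ++ (cl :: D)) ↔
      CC C (L1 p body ++ R1 U B) := by
  have hcl : ∀ n < 16, 2 ≤ n → Fresh n (cl :: D) := by
    intro n hn h2
    apply Fresh.cons _ _ (hD n hn) <;> simp [cl] <;> omega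
  have s1 := cut' hC 2 (by norm_num) [] (0, false) [] p U (1, false) (cl :: D)
    (fresh_nil _) (hcl 2 (by norm_num) (by norm_num)) (by simp) (by simp)
  simp only [List.nil_append] at s1
  rw [s1]
  apply CC_perm
  unfold L1 R1
  have hp' : (D : Multiset Piece) = body + B := by
    rw [Multiset.coe_add]; exact Multiset.coe_eq_coe.2 hp
  rw [← Multiset.coe_eq_coe]
  simp only [← Multiset.coe_add, ← Multiset.cons_coe, ← Multiset.singleton_add, hp', cl]
  abel

lemma dec2 {C : List ℕ → Prop} (hC : RR C) (p U q V : List ℕ) (D body B : List Piece)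
    (hD : ∀ n < 16, Fresh n D) (hp : D.Perm (body ++ B)) :
    CC C (Ew (0, false) [] (p ++ U ++ q ++ V) (1, false) ++ (cl :: D)) ↔
      CC C (L2 p q body ++ R2 U V B) := by
  have hcl : ∀ n < 16, 2 ≤ n → Fresh n (cl :: D) := by
    intro n hn h2
    apply Fresh.cons _ _ (hD n hn) <;> simp [cl] <;> omega
  have s1 := cut' hC 2 (by norm_num) [] (0, false) [] p (U ++ (q ++ V)) (1, false) (cl :: D)
    (fresh_nil _) (hcl 2 (by norm_num) (by norm_num)) (by simp) (by simp)
  have s2 := cut' hC 3 (by norm_num) (Ew (0, false) [] p (2, false)) (2, true) []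
    U (q ++ V) (1, false) (cl :: D)
    (fresh_small_Ew (by norm_num) (by simp) (by simp) _ _)
    (hcl 3 (by norm_num) (by norm_num)) (by simp) (by simp)
  have s3 := cut' hC 4 (by norm_num) (Ew (0, false) [] p (2, false) ++
    Ew (2, true) [] U (3, false)) (3, true) []
    q V (1, false) (cl :: D)
    ((fresh_small_Ew (by norm_num) (by simp) (by simp) _ _).append
      (fresh_small_Ew (by norm_num) (by simp) (by simp) _ _))
    (hcl 4 (by norm_num) (by norm_num)) (by simp) (by simp)
  simp only [List.nil_append, List.append_assoc] at s1 s2 s3 ⊢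
  rw [s1, s2, s3]
  apply CC_perm
  unfold L2 R2
  have hp' : (D : Multiset Piece) = body + B := by
    rw [Multiset.coe_add]; exact Multiset.coe_eq_coe.2 hp
  rw [← Multiset.coe_eq_coe]
  simp only [← Multiset.coe_add, ← Multiset.cons_coe, ← Multiset.singleton_add, hp', cl]
  abel

lemma dec3 {C : List ℕ → Prop} (hC : RR C) (p U q V r W : List ℕ) (D body B : List Piece)
    (hD : ∀ n < 16, Fresh n D) (hp : D.Perm (body ++ B)) :
    CC C (Ew (0, false) [] (tw p q r U V W) (1, false) ++ (cl :: D)) ↔
      CC C (L3 p q r body ++ R3 U V W B) := by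
  have hcl : ∀ n < 16, 2 ≤ n → Fresh n (cl :: D) := by
    intro n hn h2
    apply Fresh.cons _ _ (hD n hn) <;> simp [cl] <;> omega
  have s1 := cut' hC 2 (by norm_num) [] (0, false) [] p (U ++ (q ++ (V ++ (r ++ W))))
    (1, false) (cl :: D)
    (fresh_nil _) (hcl 2 (by norm_num) (by norm_num)) (by simp) (by simp)
  have s2 := cut' hC 3 (by norm_num) (Ew (0, false) [] p (2, false)) (2, true) []
    U (q ++ (V ++ (r ++ W))) (1, false) (cl :: D)
    (fresh_small_Ew (by norm_num) (by simp) (by simp) _ _)
    (hcl 3 (by norm_num) (by norm_num)) (by simp) (by simp)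
  have s3 := cut' hC 4 (by norm_num) (Ew (0, false) [] p (2, false) ++
    Ew (2, true) [] U (3, false)) (3, true) []
    q (V ++ (r ++ W)) (1, false) (cl :: D)
    ((fresh_small_Ew (by norm_num) (by simp) (by simp) _ _).append
      (fresh_small_Ew (by norm_num) (by simp) (by simp) _ _))
    (hcl 4 (by norm_num) (by norm_num)) (by simp) (by simp)
  have s4 := cut' hC 5 (by norm_num) (Ew (0, false) [] p (2, false) ++
    (Ew (2, true) [] U (3, false) ++ Ew (3, true) [] q (4, false))) (4, true) []
    V (r ++ W) (1, false) (cl :: D)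
    ((fresh_small_Ew (by norm_num) (by simp) (by simp) _ _).append
      ((fresh_small_Ew (by norm_num) (by simp) (by simp) _ _).append
      (fresh_small_Ew (by norm_num) (by simp) (by simp) _ _)))
    (hcl 5 (by norm_num) (by norm_num)) (by simp) (by simp)
  have s5 := cut' hC 6 (by norm_num) (Ew (0, false) [] p (2, false) ++
    (Ew (2, true) [] U (3, false) ++ (Ew (3, true) [] q (4, false) ++
      Ew (4, true) [] V (5, false)))) (5, true) []
    r W (1, false) (cl :: D)
    ((fresh_small_Ew (by norm_num) (by simp) (by simp) _ _).append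
      ((fresh_small_Ew (by norm_num) (by simp) (by simp) _ _).append
      ((fresh_small_Ew (by norm_num) (by simp) (by simp) _ _).append
      (fresh_small_Ew (by norm_num) (by simp) (by simp) _ _))))
    (hcl 6 (by norm_num) (by norm_num)) (by simp) (by simp)
  unfold tw
  simp only [List.nil_append, List.append_assoc] at s1 s2 s3 s4 s5 ⊢
  rw [s1, s2, s3, s4, s5]
  apply CC_perm
  unfold L3 R3
  have hp' : (D : Multiset Piece) = body + B := by
    rw [Multiset.coe_add]; exact Multiset.coe_eq_coe.2 hp
  rw [← Multiset.coe_eq_coe]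
  simp only [← Multiset.coe_add, ← Multiset.cons_coe, ← Multiset.singleton_add, hp', cl]
  abel

/-- local pieces of a chord -/
noncomputable def loc (K T : Finset ℕ) (c : ℕ) : List Piece := if c ∈ K then sm T c else smx c

/-- pieces of the context -/
noncomputable def Bc (K T A : Finset ℕ) (t : List ℕ) : List Piece :=
  (t.filter (fun x => decide (half x ∉ K))).map xp ++ (K \ A).toList.flatMap (sm T)

lemma toList_split (K : Finset ℕ) (c : ℕ) (A : Finset ℕ) (hc : c ∉ A) :
    ((K \ A).toList).Perm ((if c ∈ K then [c] else []) ++ (K \ insert c A).toList) := by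
  split_ifs with h
  · have e : K \ A = insert c (K \ insert c A) := by
      ext x
      simp only [Finset.mem_sdiff, Finset.mem_insert, not_or]
      constructor
      · rintro ⟨h1, h2⟩
        by_cases hx : x = c
        · exact Or.inl hx
        · exact Or.inr ⟨h1, hx, h2⟩
      · rintro (rfl | ⟨h1, _, h3⟩)
        · exact ⟨h, hc⟩
        · exact ⟨h1, h3⟩
    rw [e]
    exact Finset.toList_insert (by simp)
  · have e : K \ A = K \ insert c A := by
      ext x
      simp only [Finset.mem_sdiff, Finset.mem_insert, not_or]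
      constructor
      · rintro ⟨h1, h2⟩
        exact ⟨h1, by rintro rfl; exact h h1, h2⟩
      · rintro ⟨h1, _, h3⟩
        exact ⟨h1, h3⟩
    rw [e]
    exact List.Perm.refl _

lemma Bc_step (K T A : Finset ℕ) (c : ℕ) (hc : c ∉ A) (t t' : List ℕ)
    (ht : t.Perm ([2 * c, 2 * c + 1] ++ t')) :
    (Bc K T A t).Perm (loc K T c ++ Bc K T (insert c A) t') := by
  unfold Bc loc
  have h1 : half (2 * c) = c := by unfold half; omega
  have h2 : half (2 * c + 1) = c := by unfold half; omega
  have hL := (toList_split K c A hc).flatMap_right (sm T)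
  have hX := (ht.filter (fun x => decide (half x ∉ K))).map xp
  rw [← Multiset.coe_eq_coe] at hL hX ⊢
  rw [← Multiset.coe_add, hX, hL]
  by_cases h : c ∈ K
  · simp only [h, ↓reduceIte, List.filter_append, List.filter_cons, h1, h2, not_true_eq_false,
      decide_false, Bool.false_eq_true, List.filter_nil, List.nil_append, List.flatMap_append,
      List.flatMap_cons, List.flatMap_nil, List.append_nil, ← Multiset.coe_add]
    abel
  · simp only [h, ↓reduceIte, List.filter_append, List.filter_cons, h1, h2, not_false_eq_true,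
      decide_true, List.filter_nil, List.flatMap_append, List.map_append, List.map_cons,
      List.map_nil, smx, ← Multiset.coe_add, List.nil_append]
    abel

lemma Bd_eq (K T : Finset ℕ) (t : List ℕ) : Bd K T t = Bc K T ∅ t := by
  unfold Bd Bc
  simp

/-- the context pieces do not depend on the choices at the local chords -/
lemma Bc_congr {K T T' A : Finset ℕ} {t : List ℕ} (h : ∀ c ∈ K \ A, c ∈ T ↔ c ∈ T') :
    Bc K T A t = Bc K T' A t := by
  unfold Bc
  congr 1
  apply List.flatMap_congr
  intro c hc
  rw [Finset.mem_toList] at hc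
  unfold sm
  simp only [h c hc]

lemma fresh_Bc_small {n : ℕ} (hn : n < 16) (K T A : Finset ℕ) (t : List ℕ) :
    Fresh n (Bc K T A t) := by
  unfold Bc
  exact (fresh_map_xp (small_tok hn _)).append (fresh_flat (fun c _ => fresh_sm hn T c))

/-- names of the local tokens are fresh for the context -/
lemma fresh_Bc_tok {K T A : Finset ℕ} {t : List ℕ} {x n : ℕ} (hn : n = Lx x ∨ n = Rx x)
    (hx : x ∉ t) (hK : half x ∈ A) : Fresh n (Bc K T A t) := by
  unfold Bc
  apply Fresh.append
  · apply fresh_map_xp
    intro y hy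
    have hy' : y ∈ t := List.mem_of_mem_filter hy
    have hne : y ≠ x := by rintro rfl; exact hx hy'
    rcases hn with rfl | rfl <;> unfold Lx Rx <;> omega
  · apply fresh_flat
    intro c hc
    rw [Finset.mem_toList, Finset.mem_sdiff] at hc
    have hne : half x ≠ c := by rintro rfl; exact hc.2 hK
    unfold half at hne
    intro P hP
    unfold sm at hP
    split_ifs at hP <;>
    · simp only [List.mem_cons, List.not_mem_nil, or_false] at hP
      rcases hn with rfl | rfl <;> rcases hP with rfl | rfl <;>
        constructor <;> simp only [Lx, Rx, ne_eq] <;> omega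

end Pool.Agent.Run7.h906
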