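import Mathlib
import Pool.Agent.Run7.h906.Decomp

set_option linter.unusedSimpArgs false

namespace Pool.Agent.Run7.h906

/-- good words -/
def GoodW (h : ℕ) (w : List ℕ) : Prop := Gauss w ∧ strip^[h] w = []

/-- classes of words closed under the moves inside the words of height at most `h` -/
structure Cls (h : ℕ) (Cl : List ℕ → Prop) : Prop where
  good : ∀ w, Cl w → GoodW h w
  rot : ∀ u v, Cl (u ++ v) → Cl (v ++ u)
  rev : ∀ u, Cl u → Cl u.reverse
  ren : ∀ (σ : Equiv.Perm ℕ) u, Cl u → Cl (u.map σ)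
  two : ∀ a b s U V, a ≠ b → (s = [a, b] ∨ s = [b, a]) →
    GoodW h ([a, b] ++ U ++ s ++ V) → (Cl ([a, b] ++ U ++ s ++ V) ↔ Cl (U ++ V))
  three : ∀ a b c p q r U V W, Tri a b c p q r →
    Cl (tw p q r U V W) → Cl (tw p.reverse q.reverse r.reverse U V W)

/-- the class on the level of tokens -/
def CT (Cl : List ℕ → Prop) (u : List ℕ) : Prop := Cl (u.map half)

/-- the complement of the good words -/
def NG (h : ℕ) (u : List ℕ) : Prop := ¬ GoodW h (u.map half)

lemma GoodW.rot {h : ℕ} {u v : List ℕ} (hg : GoodW h (u ++ v)) : GoodW h (v ++ u) := by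
  obtain ⟨h1, h2⟩ := hg
  obtain ⟨u', v', e1, e2⟩ := iter_rot h h1
  refine ⟨h1.perm List.perm_append_comm, ?_⟩
  rw [e2]
  rw [e1] at h2
  rw [List.append_eq_nil_iff] at h2 ⊢
  exact ⟨h2.2, h2.1⟩

lemma GoodW.rev {h : ℕ} {u : List ℕ} (hg : GoodW h u) : GoodW h u.reverse := by
  obtain ⟨h1, h2⟩ := hg
  refine ⟨h1.perm (List.reverse_perm _).symm, ?_⟩
  rw [iter_rev h h1, h2]
  rfl

lemma NG_RR (h : ℕ) : RR (NG h) where
  rot u v hn hg := by
    apply hn
    rw [List.map_append] at hg ⊢
    exact hg.rot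
  rev u hn hg := by
    apply hn
    rw [List.map_reverse] at hg
    have := hg.rev
    rwa [List.reverse_reverse] at this

lemma CT_RR {h : ℕ} {Cl : List ℕ → Prop} (hC : Cls h Cl) : RR (CT Cl) where
  rot u v hu := by
    unfold CT at *
    rw [List.map_append] at *
    exact hC.rot _ _ hu
  rev u hu := by
    unfold CT at *
    rw [List.map_reverse]
    exact hC.rev _ hu

/-- all tours of actual states are good -/
theorem no_NG (h : ℕ) (t : List ℕ) (ht : Lab t) (T : Finset ℕ) :
    ¬ CC (NG h) (Sys (KK h (t.map half)) T t) := by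
  rintro ⟨l, p, h1, h2, h3⟩
  apply tour_good h t ht T
  refine ⟨l, p, h1, h2, ?_⟩
  have hwp := word_perm h2
  rw [word_Sys] at hwp
  have hgl : Gauss ((word l).map half) := by
    have hl2 : Lab (t.filter (fun x => decide (half x ∉ KK h (t.map half)))) :=
      ht.filter (fun c => decide (c ∉ KK h (t.map half)))
    exact hl2.gauss.perm (hwp.map half).symm
  refine ⟨hgl, ?_⟩
  intro hn
  exact h3 ⟨hgl, hn⟩

/-- the piece without its word -/
def bare (P : Piece) : Piece := (P.1, [], P.2.2)

lemma bare_fl (P : Piece) : bare (fl P) = fl (bare P) := rfl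

/-- replacing a piece in a tour -/
lemma replace_piece {Q Q' : Piece} (h1 : Q'.1 = Q.1) (h2 : Q'.2.2 = Q.2.2)
    {l1 l2 : List Piece} {p q : End} (h : Path p (l1 ++ Q :: l2) q) :
    Path p (l1 ++ Q' :: l2) q := by
  rw [path_append] at h ⊢
  obtain ⟨m, h3, h4, h5⟩ := h
  exact ⟨m, h3, by rw [h1]; exact h4, by rw [h2]; exact h5⟩

/-- find a given piece in a list which agrees up to direction and order -/
lemma find_piece {Q : Piece} {l S : List Piece} (h : (l.map qp).Perm ((Q :: S).map qp)) :
    ∃ l1 Q' l2, l = l1 ++ Q' :: l2 ∧ (Q' = Q ∨ Q' = fl Q) ∧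
      ((l1 ++ l2).map qp).Perm (S.map qp) := by
  have hm : qp Q ∈ l.map qp := by rw [h.mem_iff]; simp
  rw [List.mem_map] at hm
  obtain ⟨Q', hQ', hq⟩ := hm
  obtain ⟨l1, l2, rfl⟩ := List.append_of_mem hQ'
  refine ⟨l1, Q', l2, rfl, qp_eq.1 hq.symm, ?_⟩
  have e1 : ((l1 ++ Q' :: l2).map qp).Perm (qp Q :: (l1 ++ l2).map qp) := by
    simp only [List.map_append, List.map_cons]
    refine List.perm_middle.trans ?_
    rw [hq]
  exact (e1.symm.trans h).cons_inv

lemma insert_piece {Q' Q : Piece} {l1 l2 S : List Piece} (hq : qp Q' = qp Q)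
    (h : ((l1 ++ l2).map qp).Perm (S.map qp)) :
    ((l1 ++ Q' :: l2).map qp).Perm ((Q :: S).map qp) := by
  simp only [List.map_append, List.map_cons] at h ⊢
  refine List.perm_middle.trans ?_
  rw [hq]
  exact h.cons _

lemma two_general {h : ℕ} {Cl : List ℕ → Prop} (hC : Cls h Cl) {a b : ℕ} (hab : a ≠ b)
    {w1 w2 A B : List ℕ} (h1 : w1.map half = [a, b] ∨ w1.map half = [b, a])
    (h2 : w2.map half = [a, b] ∨ w2.map half = [b, a])
    (hg : GoodW h ((w1 ++ (A ++ (w2 ++ B))).map half)) :
    CT Cl (w1 ++ (A ++ (w2 ++ B))) ↔ CT Cl (A ++ B) := by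
  unfold CT
  simp only [List.map_append] at hg ⊢
  rcases h1 with h1 | h1
  · rw [h1] at hg ⊢
    have := hC.two a b (w2.map half) (A.map half) (B.map half) hab h2
      (by simpa only [List.append_assoc] using hg)
    simpa only [List.append_assoc] using this
  · rw [h1] at hg ⊢
    have := hC.two b a (w2.map half) (A.map half) (B.map half) hab.symm h2.symm
      (by simpa only [List.append_assoc] using hg)
    simpa only [List.append_assoc] using this

/-- removing a bigon from a state -/
lemma big_lemma {h : ℕ} {Cl : List ℕ → Prop} (hC : Cls h Cl) {a b : ℕ} (hab : a ≠ b)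
    {P Q : Piece} {S : List Piece}
    (hP : P.2.1.map half = [a, b] ∨ P.2.1.map half = [b, a])
    (hQ : Q.2.1.map half = [a, b] ∨ Q.2.1.map half = [b, a])
    (hg : ¬ CC (NG h) (P :: Q :: S)) :
    CC (CT Cl) (P :: Q :: S) ↔ CC (CT Cl) (bare P :: bare Q :: S) := by
  rw [CC_cons_iff (CT_RR hC), CC_cons_iff (CT_RR hC)]
  rw [CC_cons_iff (NG_RR h)] at hg
  constructor
  · rintro ⟨l, h1, h2, h3⟩
    obtain ⟨l1, Q', l2, rfl, hQ', h5⟩ := find_piece h2
    have hbq : qp (bare Q') = qp (bare Q) := by
      rcases hQ' with rfl | rfl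
      · rfl
      · rw [bare_fl, qp_fl]
    have hw : Q'.2.1.map half = [a, b] ∨ Q'.2.1.map half = [b, a] := by
      rcases hQ' with rfl | rfl
      · exact hQ
      · simp only [fl, List.map_reverse]
        rcases hQ with e | e <;> rw [e] <;> simp
    refine ⟨l1 ++ bare Q' :: l2, ?_, insert_piece hbq h5, ?_⟩
    · show Path (du P.2.2) (l1 ++ bare Q' :: l2) P.1
      exact replace_piece (Q := Q') (Q' := bare Q') rfl rfl h1
    · have hgood : GoodW h ((P.2.1 ++ word (l1 ++ Q' :: l2)).map half) := hC.good _ h3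
      simp only [word_append, word_cons] at h3 hgood
      have := (two_general hC hab hP hw hgood).1 h3
      simpa [bare] using this
  · rintro ⟨l, h1, h2, h3⟩
    obtain ⟨l1, Q', l2, rfl, hQ', h5⟩ := find_piece h2
    -- the corresponding piece with its word
    obtain ⟨Q1, hq1, hq2, hq3, hq4⟩ : ∃ Q1 : Piece, qp Q1 = qp Q ∧ Q1.1 = Q'.1 ∧
        Q1.2.2 = Q'.2.2 ∧ (Q1.2.1.map half = [a, b] ∨ Q1.2.1.map half = [b, a]) := by
      rcases hQ' with rfl | rfl
      · exact ⟨Q, rfl, rfl, rfl, hQ⟩
      · refine ⟨fl Q, qp_fl Q, rfl, rfl, ?_⟩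
        simp only [fl, List.map_reverse]
        rcases hQ with e | e <;> rw [e] <;> simp
    have hQw : Q'.2.1 = [] := by
      rcases hQ' with rfl | rfl
      · rfl
      · rfl
    have hpath : Path (du P.2.2) (l1 ++ Q1 :: l2) P.1 :=
      replace_piece hq2 hq3 h1
    have hperm := insert_piece hq1 h5
    refine ⟨l1 ++ Q1 :: l2, hpath, hperm, ?_⟩
    have hgood : GoodW h ((P.2.1 ++ word (l1 ++ Q1 :: l2)).map half) := by
      by_contra hn
      exact hg ⟨_, hpath, hperm, hn⟩
    simp only [word_append, word_cons] at h3 hgood ⊢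
    rw [two_general hC hab hP hq4 hgood]
    simpa [bare, hQw] using h3

lemma three_general {h : ℕ} {Cl : List ℕ → Prop} (hC : Cls h Cl) {a b c : ℕ}
    {w1 w2 w3 A B D : List ℕ}
    (ht : Tri a b c (w1.map half) (w2.map half) (w3.map half))
    (hc : CT Cl (w1 ++ (A ++ (w2 ++ (B ++ (w3 ++ D)))))) :
    CT Cl (w1.reverse ++ (A ++ (w2.reverse ++ (B ++ (w3.reverse ++ D))))) := by
  unfold CT at *
  simp only [List.map_append, List.map_reverse] at hc ⊢
  have := hC.three a b c _ _ _ (A.map half) (B.map half) (D.map half) ht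
    (by simpa only [tw, List.append_assoc] using hc)
  simpa only [tw, List.append_assoc] using this

/-- the piece with the reversed word -/
def rw' (P : Piece) : Piece := (P.1, P.2.1.reverse, P.2.2)

lemma rw_fl (P : Piece) : rw' (fl P) = fl (rw' P) := rfl

lemma qp_rw {P Q : Piece} (h : P = Q ∨ P = fl Q) : qp (rw' P) = qp (rw' Q) := by
  rcases h with rfl | rfl
  · rfl
  · rw [rw_fl, qp_fl]

lemma map_half_cases {a b : ℕ} {P Q : Piece} (h : P = Q ∨ P = fl Q)
    (hQ : Q.2.1.map half = [a, b] ∨ Q.2.1.map half = [b, a]) :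
    P.2.1.map half = [a, b] ∨ P.2.1.map half = [b, a] := by
  rcases h with rfl | rfl
  · exact hQ
  · simp only [fl, List.map_reverse]
    rcases hQ with e | e <;> rw [e] <;> simp

/-- a third move inside a state -/
lemma tri_one {h : ℕ} {Cl : List ℕ → Prop} (hC : Cls h Cl) {a b c : ℕ}
    {P Q R : Piece} {S : List Piece}
    (ht : Tri a b c (P.2.1.map half) (Q.2.1.map half) (R.2.1.map half))
    (hcc : CC (CT Cl) (P :: Q :: R :: S)) :
    CC (CT Cl) (rw' P :: rw' Q :: rw' R :: S) := by
  rw [CC_cons_iff (CT_RR hC)] at hcc ⊢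
  obtain ⟨l, h1, h2, h3⟩ := hcc
  obtain ⟨l1, Q', l2, rfl, hQ', h5⟩ := find_piece h2
  obtain ⟨m1, R', m2, hm, hR', h6⟩ := find_piece h5
  have hq := map_half_cases hQ' ht.hq
  have hr := map_half_cases hR' ht.hr
  rcases List.append_eq_append_iff.1 hm with ⟨k, hk1, hk2⟩ | ⟨k, hk1, hk2⟩
  · -- `R'` comes after `Q'`
    subst hk1
    subst hk2
    refine ⟨l1 ++ rw' Q' :: (k ++ rw' R' :: m2), ?_, ?_, ?_⟩
    · have e1 := replace_piece (Q := Q') (Q' := rw' Q') rfl rfl h1
      rw [← List.cons_append, ← List.append_assoc] at e1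
      have e2 := replace_piece (Q := R') (Q' := rw' R') rfl rfl e1
      rw [List.append_assoc, List.cons_append] at e2
      exact e2
    · apply insert_piece (qp_rw hQ')
      rw [← List.append_assoc]
      exact insert_piece (qp_rw hR') h6
    · simp only [word_append, word_cons] at h3 ⊢
      have := three_general (w1 := P.2.1) (w2 := Q'.2.1) (w3 := R'.2.1)
        (A := word l1) (B := word k) (D := word m2) hC
        ⟨ht.hab, ht.hac, ht.hbc, ht.hp, hq, hr⟩ h3
      exact this
  · -- `R'` may come before `Q'`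
    cases k with
    | nil =>
      simp only [List.append_nil, List.nil_append] at hk1 hk2
      subst hk1
      subst hk2
      refine ⟨l1 ++ rw' Q' :: ([] ++ rw' R' :: m2), ?_, ?_, ?_⟩
      · have e1 := replace_piece (Q := Q') (Q' := rw' Q') rfl rfl h1
        rw [← List.singleton_append, ← List.append_assoc] at e1
        have e2 := replace_piece (Q := R') (Q' := rw' R') rfl rfl e1
        rw [List.append_assoc, List.singleton_append] at e2
        exact e2
      · apply insert_piece (qp_rw hQ')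
        exact insert_piece (qp_rw hR') h6
      · simp only [word_append, word_cons] at h3 ⊢
        have := three_general (w1 := P.2.1) (w2 := Q'.2.1) (w3 := R'.2.1)
          (A := word l1) (B := []) (D := word m2) hC
          ⟨ht.hab, ht.hac, ht.hbc, ht.hp, hq, hr⟩ (by simpa using h3)
        simpa [rw'] using this
    | cons K k =>
      rw [List.cons_append] at hk2
      obtain ⟨hk3, hk4⟩ := List.cons_eq_cons.1 hk2
      subst hk1
      subst hk3
      subst hk4
      refine ⟨m1 ++ rw' R' :: (k ++ rw' Q' :: l2), ?_, ?_, ?_⟩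
      · rw [List.append_assoc, List.cons_append] at h1
        have e1 := replace_piece (Q := R') (Q' := rw' R') rfl rfl h1
        rw [← List.cons_append, ← List.append_assoc] at e1
        have e2 := replace_piece (Q := Q') (Q' := rw' Q') rfl rfl e1
        rw [List.append_assoc, List.cons_append] at e2
        exact e2
      · have h7 : ((m1 ++ rw' R' :: (k ++ l2)).map qp).Perm ((rw' R :: S).map qp) :=
          insert_piece (qp_rw hR') h6
        rw [← List.cons_append, ← List.append_assoc] at h7 ⊢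
        exact insert_piece (qp_rw hQ') h7
      · simp only [word_append, word_cons, List.append_assoc] at h3 ⊢
        have ht' : Tri b a c (P.2.1.map half) (R'.2.1.map half) (Q'.2.1.map half) :=
          ⟨ht.hab.symm, ht.hbc, ht.hac, ht.hp.symm, hr, hq⟩
        have := three_general (w1 := P.2.1) (w2 := R'.2.1) (w3 := Q'.2.1)
          (A := word m1) (B := word k) (D := word l2) hC ht' h3
        exact this

end Pool.Agent.Run7.h906
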