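import Mathlib
import Pool.Agent.Run7.h906.Big

set_option linter.unusedSimpArgs false

namespace Pool.Agent.Run7.h906

/-- exchange of two letters on tokens -/
def rho (x y : ℕ) : Equiv.Perm ℕ :=
  if x = 0 ∧ y = 2 then Equiv.swap (2 * x) (2 * y + 1) * Equiv.swap (2 * x + 1) (2 * y)
  else Equiv.swap (2 * x) (2 * y) * Equiv.swap (2 * x + 1) (2 * y + 1)

lemma half_rho (x y z : ℕ) : half (rho x y z) = Equiv.swap x y (half z) := by
  unfold rho half
  by_cases h : x = 0 ∧ y = 2
  · rw [if_pos h]
    simp only [Equiv.Perm.mul_apply, Equiv.swap_apply_def]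
    split_ifs <;> omega
  · rw [if_neg h]
    simp only [Equiv.Perm.mul_apply, Equiv.swap_apply_def]
    split_ifs <;> omega

lemma rho_fix {x y z : ℕ} (h1 : half z ≠ x) (h2 : half z ≠ y) : rho x y z = z := by
  unfold rho
  unfold half at h1 h2
  by_cases h : x = 0 ∧ y = 2
  · rw [if_pos h]
    simp only [Equiv.Perm.mul_apply, Equiv.swap_apply_def]
    split_ifs <;> omega
  · rw [if_neg h]
    simp only [Equiv.Perm.mul_apply, Equiv.swap_apply_def]
    split_ifs <;> omega

lemma CT_map {h : ℕ} {Cl : List ℕ → Prop} (hC : Cls h Cl) (ρ σ : Equiv.Perm ℕ)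
    (hρ : ∀ x, half (ρ x) = σ (half x)) (u : List ℕ) :
    CT Cl (u.map ρ) ↔ CT Cl u := by
  unfold CT
  have e : (u.map ρ).map half = (u.map half).map σ := by
    rw [List.map_map, List.map_map]
    apply List.map_congr_left
    intro x _
    exact hρ x
  rw [e]
  constructor
  · intro h1
    have := hC.ren σ.symm _ h1
    rw [List.map_map] at this
    simpa using this
  · exact hC.ren σ _

/-- all words of the pieces avoid the letters `x` and `y` -/
def Avoid (x y : ℕ) (R : List Piece) : Prop :=
  ∀ P ∈ R, ∀ z ∈ P.2.1, half z ≠ x ∧ half z ≠ y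

lemma swap_says {h : ℕ} {Cl : List ℕ → Prop} (hC : Cls h Cl) {x y : ℕ} {A B R : List Piece}
    (hAB : srt (A.map (trf id (List.map (rho x y)))) = B) (hR : Avoid x y R) :
    CC (CT Cl) (A ++ R) ↔ CC (CT Cl) (B ++ R) := by
  have hom : Hom id (List.map (rho x y)) :=
    ⟨fun _ => rfl, rfl, fun _ _ => by simp, fun _ => by simp⟩
  have hom' : Hom id (List.map (rho x y).symm) :=
    ⟨fun _ => rfl, rfl, fun _ _ => by simp, fun _ => by simp⟩
  have e1 := hom.inv hom' (fun _ => rfl) (by intro u; simp) (by intro u; simp)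
    (C := CT Cl) (A ++ R)
  have e2 : R.map (trf id (List.map (rho x y))) = R := by
    conv_rhs => rw [← List.map_id R]
    apply List.map_congr_left
    intro P hP
    have : P.2.1.map (rho x y) = P.2.1 := by
      conv_rhs => rw [← List.map_id P.2.1]
      apply List.map_congr_left
      intro z hz
      obtain ⟨a1, a2⟩ := hR P hP z hz
      exact rho_fix a1 a2
    obtain ⟨p, u, q⟩ := P
    simp only at this
    simp [trf, this]
  rw [List.map_append, e2] at e1
  have e3 : CC (CT Cl) (A.map (trf id (List.map (rho x y))) ++ R) ↔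
      CC (CT Cl) (B ++ R) := by
    apply CC_congr
    rw [List.map_append, List.map_append, ← hAB]
    exact (srt_qp _).symm.append_right _
  rw [← e3, e1]
  constructor
  · exact CC_mono (fun u hu => (CT_map hC _ _ (half_rho x y) u).2 hu)
  · exact CC_mono (fun u hu => (CT_map hC _ _ (half_rho x y) u).1 hu)

/-- the word of the piece is a pair of the two letters -/
def okw (x y : ℕ) (P : Piece) : Bool :=
  (P.2.1.map half == [x, y]) || (P.2.1.map half == [y, x])

def isBig (x y : ℕ) (A : List Piece) : Bool :=
  match A.filter (fun P => !P.2.1.isEmpty) with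
  | [P, Q] => okw x y P && okw x y Q
  | _ => false

lemma okw_iff {x y : ℕ} {P : Piece} (h : okw x y P = true) :
    P.2.1.map half = [x, y] ∨ P.2.1.map half = [y, x] := by
  simpa [okw] using h

lemma big_says {h : ℕ} {Cl : List ℕ → Prop} (hC : Cls h Cl) {x y : ℕ} (hxy : x ≠ y)
    {A R : List Piece} (hA : isBig x y A = true) (hg : ¬ CC (NG h) (A ++ R)) :
    CC (CT Cl) (A ++ R) ↔ CC (CT Cl) (A.map bare ++ R) := by
  unfold isBig at hA
  split at hA
  · rename_i P Q hPQ
    rw [Bool.and_eq_true] at hA
    have hsplit := List.filter_append_perm (fun P : Piece => !P.2.1.isEmpty) A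
    rw [hPQ] at hsplit
    set E := A.filter (fun P : Piece => !!P.2.1.isEmpty) with hE
    have e1 : (A ++ R).Perm (P :: Q :: (E ++ R)) := (hsplit.symm.append_right R)
    have hEb : E.map bare = E := by
      conv_rhs => rw [← List.map_id E]
      apply List.map_congr_left
      intro K hK
      rw [hE, List.mem_filter] at hK
      obtain ⟨p, u, q⟩ := K
      have hu : u = [] := by simpa using hK.2
      simp [bare, hu]
    have e2 : (A.map bare ++ R).Perm (bare P :: bare Q :: (E ++ R)) := by
      have := (hsplit.symm.map bare).append_right R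
      simp only [List.cons_append, List.nil_append, List.map_cons] at this
      rw [hEb] at this
      exact this
    rw [CC_perm e1] at hg ⊢
    rw [CC_perm e2]
    exact big_lemma hC hxy (okw_iff hA.1) (okw_iff hA.2) hg
  · simp at hA

/-- check that two states correspond -/
def stOK (x y : ℕ) : Option (List Piece) → Option (List Piece) → Bool
  | some A, some B =>
    decide (srt (A.map (trf id (List.map (rho x y)))) = B) ||
      (isBig x y A && isBig x y B && decide (A.map bare = B.map bare))
  | _, _ => false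

lemma st_says {h : ℕ} {Cl : List ℕ → Prop} (hC : Cls h Cl) {x y : ℕ} (hxy : x ≠ y)
    (ns : List ℕ) {L L' R : List Piece} (hok : stOK x y (nf ns L) (nf ns L') = true)
    (hR : ∀ n ∈ ns, Fresh n R) (hne : R ≠ []) (hav : Avoid x y R)
    (hg : ¬ CC (NG h) (L ++ R)) (hg' : ¬ CC (NG h) (L' ++ R)) :
    CC (CT Cl) (L ++ R) ↔ CC (CT Cl) (L' ++ R) := by
  rw [nf_says (CT_RR hC) ns L R hR hne, nf_says (CT_RR hC) ns L' R hR hne]
  rw [nf_says (NG_RR h) ns L R hR hne] at hg
  rw [nf_says (NG_RR h) ns L' R hR hne] at hg'
  cases hA : nf ns L with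
  | none => rw [hA] at hok; simp [stOK] at hok
  | some A =>
    cases hB : nf ns L' with
    | none => rw [hA, hB] at hok; simp [stOK] at hok
    | some B =>
      rw [hA] at hg
      rw [hB] at hg'
      rw [hA, hB] at hok
      simp only [Says] at hg hg' ⊢
      unfold stOK at hok
      rw [Bool.or_eq_true] at hok
      rcases hok with hok | hok
      · exact swap_says hC (of_decide_eq_true hok) hav
      · rw [Bool.and_eq_true, Bool.and_eq_true] at hok
        obtain ⟨⟨h1, h2⟩, h3⟩ := hok
        rw [big_says hC hxy h1 hg, big_says hC hxy h2 hg', of_decide_eq_true h3]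

/-! ### the finite checks -/

def ordP : List (List ℕ) := [[0, 2], [2, 0]]
def ordQ : List (List ℕ) := [[1, 4], [4, 1]]
def ordR : List (List ℕ) := [[3, 5], [5, 3]]

/-- body with the two choices at chord `0` etc. -/
def bd3 (f g k : ℕ → List Piece) : List Piece := f 0 ++ (g 1 ++ k 2)

def ckst (x y : ℕ) (body : List Piece) : Bool :=
  ordP.all fun p => ordQ.all fun q => ordR.all fun r =>
    stOK x y (nf N3 (L3 p q r body)) (nf N3 (L3 p.reverse q.reverse r.reverse body))

lemma ck_a_o : ckst 1 2 (bd3 smo smx smx) = true := by decide +kernel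
lemma ck_a_u : ckst 1 2 (bd3 smu smx smx) = true := by decide +kernel
lemma ck_b_o : ckst 0 2 (bd3 smx smo smx) = true := by decide +kernel
lemma ck_b_u : ckst 0 2 (bd3 smx smu smx) = true := by decide +kernel
lemma ck_c_o : ckst 0 1 (bd3 smx smx smo) = true := by decide +kernel
lemma ck_c_u : ckst 0 1 (bd3 smx smx smu) = true := by decide +kernel

def allEven (l : List (Option (List Piece))) : Bool :=
  l.all (fun x => decide (x = none) || (l.countP (fun y => decide (y = x)) % 2 == 0))

lemma allEven_iff {l : List (Option (List Piece))} (h : allEven l = true) :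
    ∀ x ∈ l, x = none ∨ l.countP (fun y => decide (y = x)) % 2 = 0 := by
  intro x hx
  unfold allEven at h
  rw [List.all_eq_true] at h
  have := h x hx
  simpa using this

def all3 (p q r : List ℕ) : List (Option (List Piece)) :=
  [nf N3 (L3 p q r (bd3 smo smo smo)), nf N3 (L3 p q r (bd3 smo smo smu)),
   nf N3 (L3 p q r (bd3 smo smu smo)), nf N3 (L3 p q r (bd3 smo smu smu)),
   nf N3 (L3 p q r (bd3 smu smo smo)), nf N3 (L3 p q r (bd3 smu smo smu)),
   nf N3 (L3 p q r (bd3 smu smu smo)), nf N3 (L3 p q r (bd3 smu smu smu))]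

def ckall : Bool :=
  ordP.all fun p => ordQ.all fun q => ordR.all fun r =>
    allEven (all3 p q r ++ all3 p.reverse q.reverse r.reverse)

lemma ck_all : ckall = true := by decide +kernel

def cknone : Bool :=
  ordP.all fun p => ordQ.all fun q => ordR.all fun r =>
    decide (nf N3 (L3 p q r (bd3 smx smx smx)) = some [((1, true), p, (2, false)),
      ((3, true), q, (4, false)), ((5, true), r, (6, false))])

lemma ck_none : cknone = true := by decide +kernel

def ordS : List (List ℕ) := [[1, 3], [3, 1]]

def bd2 (f g : ℕ → List Piece) : List Piece := f 0 ++ g 1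

def ck2 : Bool := ordS.all fun s =>
  allEven [nf N2 (L2 [0, 2] s (bd2 smo smo)), nf N2 (L2 [0, 2] s (bd2 smo smu)),
    nf N2 (L2 [0, 2] s (bd2 smu smo)), nf N2 (L2 [0, 2] s (bd2 smu smu)),
    nf N2 (L2 [] [] [])]

lemma ck_2 : ck2 = true := by decide +kernel

def ck2n : Bool := ordS.all fun s =>
  decide (nf N2 (L2 [0, 2] s (bd2 smx smx)) =
    some [((1, true), [0, 2], (2, false)), ((3, true), s, (4, false))])

lemma ck_2n : ck2n = true := by decide +kernel

lemma ck_20 : nf N2 (L2 [] [] []) =
    some [((1, true), [], (2, false)), ((3, true), [], (4, false))] := by decide +kernel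

def ck1 : Bool := allEven [nf N1 (L1 [0, 1] (smo 0)), nf N1 (L1 [0, 1] (smu 0)),
  nf N1 (L1 [] [])]

lemma ck_1 : ck1 = true := by decide +kernel

end Pool.Agent.Run7.h906
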