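import Mathlib
import Pool.Agent.Run7.h906.Check

set_option linter.unusedSimpArgs false

namespace Pool.Agent.Run7.h906

/-- number of states in the class, mod 2 -/
noncomputable def F (h : ℕ) (Cl : List ℕ → Prop) (t : List ℕ) : ZMod 2 :=
  ∑ T ∈ (KK h (t.map half)).powerset, ind (CC (CT Cl) (Sys (KK h (t.map half)) T t))

lemma KK_rot (h : ℕ) {u v : List ℕ} (hg : Gauss (u ++ v)) : KK h (u ++ v) = KK h (v ++ u) := by
  obtain ⟨u', v', e1, e2⟩ := iter_rot h hg
  unfold KK
  rw [e1, e2]
  ext x
  simp [or_comm]

lemma F_rot {h : ℕ} {Cl : List ℕ → Prop} (hC : Cls h Cl) {u v : List ℕ} (ht : Lab (u ++ v)) :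
    F h Cl (u ++ v) = F h Cl (v ++ u) := by
  have hg := ht.gauss
  rw [List.map_append] at hg
  have e : KK h ((u ++ v).map half) = KK h ((v ++ u).map half) := by
    rw [List.map_append, List.map_append]
    exact KK_rot h hg
  unfold F
  rw [e]
  apply Finset.sum_congr rfl
  intro T _
  exact ind_congr (Sys_rot (CT_RR hC) _ T u v)

lemma F_rev {h : ℕ} {Cl : List ℕ → Prop} {t : List ℕ} (ht : Lab t) :
    F h Cl t.reverse = F h Cl t := by
  have e : KK h (t.reverse.map half) = KK h (t.map half) := by
    unfold KK
    rw [List.map_reverse, iter_rev h ht.gauss]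
    simp
  unfold F
  rw [e]
  apply Finset.sum_congr rfl
  intro T _
  exact ind_congr (Sys_rev _ T t)

lemma F_ren {h : ℕ} {Cl : List ℕ → Prop} (hC : Cls h Cl) (ρ σ : Equiv.Perm ℕ)
    (hρ : ∀ x, half (ρ x) = σ (half x)) {t : List ℕ} (ht : Lab t) :
    F h Cl (t.map ρ) = F h Cl t := by
  have e0 : (t.map ρ).map half = (t.map half).map σ := by
    rw [List.map_map, List.map_map]
    apply List.map_congr_left
    intro x _
    exact hρ x
  have e : KK h ((t.map ρ).map half) = (KK h (t.map half)).map σ.toEmbedding := by
    unfold KK
    rw [e0, iter_ren h σ ht.gauss]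
    ext x
    rw [Finset.mem_map, List.mem_toFinset, List.mem_map]
    simp
  unfold F
  rw [e]
  symm
  apply Finset.sum_nbij' (fun T => T.map σ.toEmbedding) (fun T => T.map σ.symm.toEmbedding)
  · intro T hT
    rw [Finset.mem_powerset] at hT ⊢
    exact Finset.map_subset_map.2 hT
  · intro T hT
    rw [Finset.mem_powerset] at hT ⊢
    intro x hx
    rw [Finset.mem_map] at hx
    obtain ⟨y, hy, rfl⟩ := hx
    have := hT hy
    rw [Finset.mem_map] at this
    obtain ⟨z, hz, rfl⟩ := this
    simpa using hz
  · intro T _
    ext x
    simp
  · intro T _
    ext x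
    simp
  · intro T _
    apply ind_congr
    rw [Sys_ren ρ σ hρ]
    constructor
    · exact CC_mono (fun u hu => (CT_map hC ρ σ hρ u).2 hu)
    · exact CC_mono (fun u hu => (CT_map hC ρ σ hρ u).1 hu)

/-- two labellings of the same word -/
lemma F_lab {h : ℕ} {Cl : List ℕ → Prop} (hC : Cls h Cl) {t1 t2 : List ℕ} (h1 : Lab t1)
    (h2 : Lab t2) (he : t1.map half = t2.map half) : F h Cl t1 = F h Cl t2 := by
  classical
  let g : ℕ → ℕ := fun x => if t1.idxOf (2 * half x) ≠ t2.idxOf (2 * half x) then sw x else x
  have hg : Function.Involutive g := by
    intro x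
    simp only [g]
    by_cases hx : t1.idxOf (2 * half x) ≠ t2.idxOf (2 * half x)
    · simp only [hx, ne_eq, not_false_eq_true, ↓reduceIte, half_sw, sw_sw]
    · simp only [hx, ↓reduceIte]
  let ρ : Equiv.Perm ℕ := hg.toPerm g
  have hρ : ∀ x, half (ρ x) = (Equiv.refl ℕ) (half x) := by
    intro x
    show half (g x) = half x
    simp only [g]
    split_ifs
    · exact half_sw x
    · rfl
  have hlen : t1.length = t2.length := by
    have := congrArg List.length he
    simpa using this
  have key : t1.map ρ = t2 := by
    apply List.ext_getElem
    · simpa using hlen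
    · intro i hi1 hi2
      rw [List.length_map] at hi1
      rw [List.getElem_map]
      set x := t1[i] with hx
      set y := t2[i] with hy
      have hxy : half x = half y := by
        have : (t1.map half)[i]'(by simpa using hi1) = (t2.map half)[i]'(by simpa using hi2) := by
          simp only [he]
        simpa using this
      have hxm : x ∈ t1 := List.getElem_mem _
      have hym : y ∈ t2 := List.getElem_mem _
      have ix : t1.idxOf x = i := h1.nd.idxOf_getElem i hi1
      have iy : t2.idxOf y = i := h2.nd.idxOf_getElem i hi2
      show g x = y
      simp only [g]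
      set c := half x with hc
      have hcm1 : c ∈ t1.map half := List.mem_map_of_mem hxm
      have hcm2 : c ∈ t2.map half := by rw [← he]; exact hcm1
      obtain ⟨m1, _⟩ := h1.mem hcm1
      obtain ⟨m2, _⟩ := h2.mem hcm2
      have hx2 : x = 2 * c ∨ x = 2 * c + 1 := by
        rw [hc]; unfold half; omega
      have hy2 : y = 2 * c ∨ y = 2 * c + 1 := by
        rw [hxy]; unfold half; omega
      rcases hx2 with hx2 | hx2 <;> rcases hy2 with hy2 | hy2
      · have : ¬ (t1.idxOf (2 * c) ≠ t2.idxOf (2 * c)) := by
          rw [not_not, ← hx2, ix, hx2, ← hy2, iy]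
        rw [if_neg this, hx2, hy2]
      · have : t1.idxOf (2 * c) ≠ t2.idxOf (2 * c) := by
          intro hh
          rw [← hx2, ix, hx2] at hh
          have h3 : t2[t2.idxOf (2 * c)]'(List.idxOf_lt_length_of_mem m2) = 2 * c :=
            List.getElem_idxOf _
          have h4 : t2[t2.idxOf (2 * c)]'(List.idxOf_lt_length_of_mem m2) = y := by
            rw [hy]; congr 1; exact hh.symm
          omega
        rw [if_pos this, hx2, hy2]
        simp [sw]
      · have : t1.idxOf (2 * c) ≠ t2.idxOf (2 * c) := by
          intro hh
          rw [← hy2, iy, hy2] at hh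
          have h3 : t1[t1.idxOf (2 * c)]'(List.idxOf_lt_length_of_mem m1) = 2 * c :=
            List.getElem_idxOf _
          have h4 : t1[t1.idxOf (2 * c)]'(List.idxOf_lt_length_of_mem m1) = x := by
            rw [hx]; congr 1
          omega
        rw [if_pos this, hx2, hy2]
        unfold sw
        split_ifs <;> omega
      · have : ¬ (t1.idxOf (2 * c) ≠ t2.idxOf (2 * c)) := by
          rw [not_not]
          have hj := List.idxOf_lt_length_of_mem m1
          set j := t1.idxOf (2 * c) with hjd
          have h3 : t1[j] = 2 * c := List.getElem_idxOf _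
          have hj2 : j < t2.length := by omega
          have h4 : half (t2[j]) = c := by
            have h5 : (t1.map half)[j]'(by simpa using hj) =
                (t2.map half)[j]'(by simpa using hj2) := by
              simp only [he]
            rw [List.getElem_map, List.getElem_map, h3] at h5
            rw [← h5]
            unfold half; omega
          have h6 : t2[j] = 2 * c ∨ t2[j] = 2 * c + 1 := by
            rw [← h4]; unfold half; omega
          rcases h6 with h6 | h6
          · have := h2.nd.idxOf_getElem j hj2
            rw [h6] at this
            exact this.symm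
          · exfalso
            have h7 : t2[j] = t2[i] := by rw [h6, ← hy, hy2]
            have h8 : j = i := (List.Nodup.getElem_inj_iff h2.nd).1 h7
            have h9 : t1[j] = x := by rw [hx]; congr 1
            omega
        rw [if_neg this, hx2, hy2]
  have := F_ren hC ρ (Equiv.refl ℕ) hρ h1
  rw [key] at this
  exact this.symm

/-- every Gauss word has a labelling -/
lemma exists_lab (w : List ℕ) (hw : Gauss w) : ∃ t, Lab t ∧ t.map half = w := by
  induction hn : w.length using Nat.strong_induction_on generalizing w with
  | _ n ih =>
    cases w with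
    | nil => exact ⟨[], ⟨List.nodup_nil, by simp⟩, rfl⟩
    | cons a w =>
      obtain ⟨A, B, C, hABC, hA, hB, hC⟩ := split_two (hw a (by simp))
      have hA0 : A = [] := by
        cases A with
        | nil => rfl
        | cons x A =>
          exfalso
          simp only [List.cons_append, List.cons.injEq] at hABC
          apply hA
          rw [hABC.1]
          simp
      subst hA0
      simp only [List.nil_append, List.cons.injEq, true_and] at hABC
      subst hABC
      have hg : Gauss (B ++ C) := by
        intro x hx
        have hxa : x ≠ a := by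
          rintro rfl
          rcases List.mem_append.1 hx with hx | hx
          · exact hB hx
          · exact hC hx
        have := hw x (by
          rcases List.mem_append.1 hx with hx | hx <;> simp [hx])
        simp only [List.count_cons, List.count_append] at this ⊢
        have e : (a == x) = false := by simp [hxa.symm]
        simp only [e, Bool.false_eq_true, ↓reduceIte, add_zero] at this
        exact this
      obtain ⟨t, ht, hmap⟩ := ih (B ++ C).length (by
        rw [← hn]
        simp only [List.length_append, List.length_cons]
        omega) (B ++ C) hg rfl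
      rw [List.map_eq_append_iff] at hmap
      obtain ⟨t1, t2, rfl, rfl, rfl⟩ := hmap
      have hat : ∀ x ∈ t1 ++ t2, half x ≠ a := by
        intro x hx he
        rcases List.mem_append.1 hx with hx | hx
        · exact hB (he ▸ List.mem_map_of_mem hx)
        · exact hC (he ▸ List.mem_map_of_mem hx)
      have h2a : half (2 * a) = a := by unfold half; omega
      have h2a1 : half (2 * a + 1) = a := by unfold half; omega
      have hperm : (2 * a :: (t1 ++ (2 * a + 1) :: t2)).Perm
          (2 * a :: (2 * a + 1) :: (t1 ++ t2)) := List.Perm.cons _ List.perm_middle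
      refine ⟨2 * a :: (t1 ++ (2 * a + 1) :: t2), ?_, ?_⟩
      · apply Lab.perm _ hperm.symm
        refine ⟨?_, ?_⟩
        · rw [List.nodup_cons, List.nodup_cons]
          refine ⟨?_, ?_, ht.nd⟩
          · intro hm
            rcases List.mem_cons.1 hm with hm | hm
            · omega
            · exact hat _ hm h2a
          · intro hm
            exact hat _ hm h2a1
        · intro x hx
          rcases List.mem_cons.1 hx with rfl | hx
          · have : sw (2 * a) = 2 * a + 1 := by unfold sw; split_ifs <;> omega
            rw [this]; simp
          · rcases List.mem_cons.1 hx with rfl | hx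
            · have : sw (2 * a + 1) = 2 * a := by unfold sw; split_ifs <;> omega
              rw [this]; simp
            · have := ht.par x hx
              simp only [List.mem_cons]
              exact Or.inr (Or.inr this)
      · simp [h2a, h2a1]

end Pool.Agent.Run7.h906
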