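import Mathlib
import Pool.Agent.Run7.h906.Sum

set_option linter.unusedSimpArgs false

namespace Pool.Agent.Run7.h906

lemma fresh_tok_Ew {n x : ℕ} (hn : n = Lx x ∨ n = Rx x) {p q : End} (hp : p.1 < 16)
    (hq : q.1 < 16) {w : List ℕ} (hx : x ∉ w) : Fresh n (Ew p [] w q) := by
  apply fresh_Ew
  · rcases hn with rfl | rfl <;> simp only [Lx, Rx, ne_eq] <;> omega
  · rcases hn with rfl | rfl <;> simp only [Lx, Rx, ne_eq] <;> omega
  · intro y hy
    have hne : y ≠ x := by rintro rfl; exact hx hy
    rcases hn with rfl | rfl <;> unfold Lx Rx <;> omega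

lemma names3 : ∀ n ∈ N3, n = 0 ∨ ∃ x < 6, n = Lx x ∨ n = Rx x := by decide

lemma names2 : ∀ n ∈ N2, n = 0 ∨ ∃ x < 4, n = Lx x ∨ n = Rx x := by decide

lemma names1 : ∀ n ∈ N1, n = 0 ∨ ∃ x < 2, n = Lx x ∨ n = Rx x := by decide

/-- the three local letters -/
def A3 : Finset ℕ := insert 2 (insert 1 (insert 0 ∅))

def A2 : Finset ℕ := insert 1 (insert 0 ∅)

def A1 : Finset ℕ := insert 0 ∅

lemma fresh_R3 {K T : Finset ℕ} {U V W : List ℕ} (hctx : ∀ z ∈ U ++ V ++ W, 6 ≤ z) :
    ∀ n ∈ N3, Fresh n (R3 U V W (Bc K T A3 (U ++ V ++ W))) := by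
  intro n hn
  unfold R3
  rcases names3 n hn with rfl | ⟨x, hx, hnx⟩
  · exact (fresh_small_Ew (by norm_num) (by simp) (by simp) _ _).append
      ((fresh_small_Ew (by norm_num) (by simp) (by simp) _ _).append
      ((fresh_small_Ew (by norm_num) (by simp) (by simp) _ _).append
      (fresh_Bc_small (by norm_num) K T A3 _)))
  · have hxc : x ∉ U ++ V ++ W := fun hh => by have := hctx x hh; omega
    have hxU : x ∉ U := fun hh => hxc (by simp [hh])
    have hxV : x ∉ V := fun hh => hxc (by simp [hh])
    have hxW : x ∉ W := fun hh => hxc (by simp [hh])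
    have hxA : half x ∈ A3 := by
      have : half x = 0 ∨ half x = 1 ∨ half x = 2 := by unfold half; omega
      rcases this with e | e | e <;> rw [e] <;> decide
    exact (fresh_tok_Ew hnx (by norm_num) (by norm_num) hxU).append
      ((fresh_tok_Ew hnx (by norm_num) (by norm_num) hxV).append
      ((fresh_tok_Ew hnx (by norm_num) (by norm_num) hxW).append
      (fresh_Bc_tok hnx hxc hxA)))

lemma fresh_R2 {K T : Finset ℕ} {U V : List ℕ} (hctx : ∀ z ∈ U ++ V, 4 ≤ z) :
    ∀ n ∈ N2, Fresh n (R2 U V (Bc K T A2 (U ++ V))) := by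
  intro n hn
  unfold R2
  rcases names2 n hn with rfl | ⟨x, hx, hnx⟩
  · exact (fresh_small_Ew (by norm_num) (by simp) (by simp) _ _).append
      ((fresh_small_Ew (by norm_num) (by simp) (by simp) _ _).append
      (fresh_Bc_small (by norm_num) K T A2 _))
  · have hxc : x ∉ U ++ V := fun hh => by have := hctx x hh; omega
    have hxU : x ∉ U := fun hh => hxc (by simp [hh])
    have hxV : x ∉ V := fun hh => hxc (by simp [hh])
    have hxA : half x ∈ A2 := by
      have : half x = 0 ∨ half x = 1 := by unfold half; omega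
      rcases this with e | e <;> rw [e] <;> decide
    exact (fresh_tok_Ew hnx (by norm_num) (by norm_num) hxU).append
      ((fresh_tok_Ew hnx (by norm_num) (by norm_num) hxV).append
      (fresh_Bc_tok hnx hxc hxA))

lemma fresh_R1 {K T : Finset ℕ} {U : List ℕ} (hctx : ∀ z ∈ U, 2 ≤ z) :
    ∀ n ∈ N1, Fresh n (R1 U (Bc K T A1 U)) := by
  intro n hn
  unfold R1
  rcases names1 n hn with rfl | ⟨x, hx, hnx⟩
  · exact (fresh_small_Ew (by norm_num) (by simp) (by simp) _ _).append
      (fresh_Bc_small (by norm_num) K T A1 _)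
  · have hxU : x ∉ U := fun hh => by have := hctx x hh; omega
    have hxA : half x ∈ A1 := by
      have : half x = 0 := by unfold half; omega
      rw [this]; decide
    exact (fresh_tok_Ew hnx (by norm_num) (by norm_num) hxU).append
      (fresh_Bc_tok hnx hxU hxA)

lemma R3_ne (U V W : List ℕ) (B : List Piece) : R3 U V W B ≠ [] := by
  unfold R3; simp [Ew_ne]

lemma R2_ne (U V : List ℕ) (B : List Piece) : R2 U V B ≠ [] := by
  unfold R2; simp [Ew_ne]

lemma R1_ne (U : List ℕ) (B : List Piece) : R1 U B ≠ [] := by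
  unfold R1; simp [Ew_ne]

lemma avoid_Ew (x y : ℕ) (p : End) (w : List ℕ) (q : End) : Avoid x y (Ew p [] w q) := by
  induction w generalizing p with
  | nil =>
    intro P hP
    simp only [Ew, List.mem_singleton] at hP
    subst hP
    intro z hz
    simp at hz
  | cons a xs ih =>
    intro P hP
    simp only [Ew, List.mem_cons] at hP
    rcases hP with rfl | hP
    · intro z hz
      simp at hz
    · exact ih _ P hP

lemma avoid_append {x y : ℕ} {R S : List Piece} (h1 : Avoid x y R) (h2 : Avoid x y S) :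
    Avoid x y (R ++ S) := by
  intro P hP
  rcases List.mem_append.1 hP with hP | hP
  · exact h1 P hP
  · exact h2 P hP

lemma avoid_Bc {x y : ℕ} {K T A : Finset ℕ} {t : List ℕ}
    (ht : ∀ z ∈ t, half z ≠ x ∧ half z ≠ y) : Avoid x y (Bc K T A t) := by
  unfold Bc
  apply avoid_append
  · intro P hP
    rw [List.mem_map] at hP
    obtain ⟨a, ha, rfl⟩ := hP
    intro z hz
    simp only [xp, List.mem_singleton] at hz
    subst hz
    exact ht _ (List.mem_of_mem_filter ha)
  · intro P hP
    rw [List.mem_flatMap] at hP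
    obtain ⟨c, _, hP⟩ := hP
    unfold sm at hP
    split_ifs at hP <;>
    · simp only [List.mem_cons, List.not_mem_nil, or_false] at hP
      rcases hP with rfl | rfl <;> intro z hz <;> simp at hz

/-! ### states as local and context pieces -/

lemma tw_perm {p q r U V W : List ℕ} (hp : p ∈ ordP) (hq : q ∈ ordQ) (hr : r ∈ ordR) :
    (tw p q r U V W).Perm ([0, 1] ++ ([2, 3] ++ ([4, 5] ++ (U ++ V ++ W)))) := by
  have h1 : (p : Multiset ℕ) = {0} + {2} := by
    simp only [ordP, List.mem_cons, List.not_mem_nil, or_false] at hp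
    rcases hp with rfl | rfl <;> decide
  have h2 : (q : Multiset ℕ) = {1} + {4} := by
    simp only [ordQ, List.mem_cons, List.not_mem_nil, or_false] at hq
    rcases hq with rfl | rfl <;> decide
  have h3 : (r : Multiset ℕ) = {3} + {5} := by
    simp only [ordR, List.mem_cons, List.not_mem_nil, or_false] at hr
    rcases hr with rfl | rfl <;> decide
  have h4 : (([0, 1] : List ℕ) : Multiset ℕ) = {0} + {1} := by decide
  have h5 : (([2, 3] : List ℕ) : Multiset ℕ) = {2} + {3} := by decide
  have h6 : (([4, 5] : List ℕ) : Multiset ℕ) = {4} + {5} := by decide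
  unfold tw
  rw [← Multiset.coe_eq_coe]
  simp only [← Multiset.coe_add, h1, h2, h3, h4, h5, h6]
  abel

lemma state3 {C : List ℕ → Prop} (hC : RR C) {p q r U V W : List ℕ} (hp : p ∈ ordP)
    (hq : q ∈ ordQ) (hr : r ∈ ordR) (K T : Finset ℕ) :
    CC C (Sys K T (tw p q r U V W)) ↔
      CC C (L3 p q r (loc K T 0 ++ (loc K T 1 ++ loc K T 2)) ++
        R3 U V W (Bc K T A3 (U ++ V ++ W))) := by
  unfold Sys
  apply dec3 hC
  · intro n hn
    exact fresh_Bd hn K T _
  · rw [Bd_eq]
    have s1 := Bc_step K T ∅ 0 (by simp) _ _ (tw_perm (U := U) (V := V) (W := W) hp hq hr)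
    have s2 := Bc_step K T (insert 0 ∅) 1 (by decide) ([2, 3] ++ ([4, 5] ++ (U ++ V ++ W)))
      ([4, 5] ++ (U ++ V ++ W)) (List.Perm.refl _)
    have s3 := Bc_step K T (insert 1 (insert 0 ∅)) 2 (by decide) ([4, 5] ++ (U ++ V ++ W))
      (U ++ V ++ W) (List.Perm.refl _)
    refine s1.trans ?_
    rw [List.append_assoc (loc K T 0), List.append_assoc (loc K T 1)]
    exact List.Perm.append_left _ (s2.trans (List.Perm.append_left _ s3))

lemma state2 {C : List ℕ → Prop} (hC : RR C) {s U V : List ℕ} (hs : s ∈ ordS)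
    (K T : Finset ℕ) :
    CC C (Sys K T ([0, 2] ++ U ++ s ++ V)) ↔
      CC C (L2 [0, 2] s (loc K T 0 ++ loc K T 1) ++ R2 U V (Bc K T A2 (U ++ V))) := by
  unfold Sys
  apply dec2 hC
  · intro n hn
    exact fresh_Bd hn K T _
  · rw [Bd_eq]
    have hperm : ([0, 2] ++ U ++ s ++ V).Perm ([0, 1] ++ ([2, 3] ++ (U ++ V))) := by
      have h1 : (s : Multiset ℕ) = {1} + {3} := by
        simp only [ordS, List.mem_cons, List.not_mem_nil, or_false] at hs
        rcases hs with rfl | rfl <;> decide
      have h2 : (([0, 2] : List ℕ) : Multiset ℕ) = {0} + {2} := by decide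
      have h4 : (([0, 1] : List ℕ) : Multiset ℕ) = {0} + {1} := by decide
      have h5 : (([2, 3] : List ℕ) : Multiset ℕ) = {2} + {3} := by decide
      rw [← Multiset.coe_eq_coe]
      simp only [← Multiset.coe_add, h1, h2, h4, h5]
      abel
    have s1 := Bc_step K T ∅ 0 (by simp) _ _ hperm
    have s2 := Bc_step K T (insert 0 ∅) 1 (by decide) ([2, 3] ++ (U ++ V))
      (U ++ V) (List.Perm.refl _)
    refine s1.trans ?_
    rw [List.append_assoc]
    exact List.Perm.append_left _ s2

lemma state20 {C : List ℕ → Prop} (hC : RR C) {U V : List ℕ} (K T : Finset ℕ) :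
    CC C (Sys K T (U ++ V)) ↔ CC C (L2 [] [] [] ++ R2 U V (Bc K T ∅ (U ++ V))) := by
  unfold Sys
  have := dec2 hC [] U [] V (Bd K T (U ++ V)) [] (Bc K T ∅ (U ++ V))
    (fun n hn => fresh_Bd hn K T _) (by rw [Bd_eq]; exact List.Perm.refl _)
  simpa using this

lemma state1 {C : List ℕ → Prop} (hC : RR C) {U : List ℕ} (K T : Finset ℕ) :
    CC C (Sys K T ([0, 1] ++ U)) ↔ CC C (L1 [0, 1] (loc K T 0) ++ R1 U (Bc K T A1 U)) := by
  unfold Sys
  apply dec1 hC
  · intro n hn
    exact fresh_Bd hn K T _
  · rw [Bd_eq]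
    exact Bc_step K T ∅ 0 (by simp) _ _ (List.Perm.refl _)

lemma state10 {C : List ℕ → Prop} (hC : RR C) {U : List ℕ} (K T : Finset ℕ) :
    CC C (Sys K T U) ↔ CC C (L1 [] [] ++ R1 U (Bc K T ∅ U)) := by
  unfold Sys
  have := dec1 hC [] U (Bd K T U) [] (Bc K T ∅ U)
    (fun n hn => fresh_Bd hn K T _) (by rw [Bd_eq]; exact List.Perm.refl _)
  simpa using this

lemma loc_x {K T : Finset ℕ} {c : ℕ} (h : c ∉ K) : loc K T c = smx c := by simp [loc, h]

lemma loc_o {K T : Finset ℕ} {c : ℕ} (h : c ∈ K) (h2 : c ∉ T) : loc K T c = smo c := by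
  simp [loc, h, sm_of_not_mem h2]

lemma loc_u {K T : Finset ℕ} {c : ℕ} (h : c ∈ K) (h2 : c ∈ T) : loc K T c = smu c := by
  simp [loc, h, sm_of_mem h2]

lemma z2 {x y : ZMod 2} (h : x + y = 0) : x = y := by
  revert x y; decide

/-! ### first move -/

theorem F_one {h : ℕ} {Cl : List ℕ → Prop} (hC : Cls h Cl) {U : List ℕ}
    (ht : Lab ([0, 1] ++ U)) : F h Cl ([0, 1] ++ U) = F h Cl U := by
  have hg := ht.gauss
  have hmap : ([0, 1] ++ U).map half = 0 :: 0 :: U.map half := by
    simp [half]
  rw [hmap] at hg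
  obtain ⟨h0, hU⟩ := hg.one
  set K' := KK h (U.map half) with hK'
  have hK : KK h (([0, 1] ++ U).map half) = insert 0 K' := by
    rw [hmap, hK']
    unfold KK
    rw [iter_one h hg]
    simp
  have h0K : 0 ∉ K' := by
    intro hh
    rw [hK'] at hh
    unfold KK at hh
    rw [List.mem_toFinset] at hh
    exact h0 (iter_sub h _ hh)
  have hctx : ∀ z ∈ U, 2 ≤ z := by
    intro z hz
    by_contra hlt
    apply h0
    have : half z = 0 := by unfold half; omega
    rw [← this]
    exact List.mem_map_of_mem hz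
  have hdiff : insert 0 K' \ A1 = K' \ ∅ := by
    ext x
    simp only [A1, Finset.mem_sdiff, Finset.mem_insert, Finset.notMem_empty, not_false_eq_true,
      and_true, or_false]
    constructor
    · rintro ⟨h1 | h1, h2⟩
      · exact absurd h1 h2
      · exact h1
    · intro h1
      exact ⟨Or.inr h1, by rintro rfl; exact h0K h1⟩
  have hB : ∀ T, Bc (insert 0 K') T A1 U = Bc K' T ∅ U := by
    intro T
    unfold Bc
    rw [hdiff]
    congr 2
    apply List.filter_congr
    intro x hx
    have : half x ≠ 0 := by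
      have := hctx x hx
      unfold half; omega
    simp [this]
  unfold F
  rw [hK, Finset.sum_powerset_insert h0K, ← Finset.sum_add_distrib, ← hK']
  apply Finset.sum_congr rfl
  intro T hT
  rw [Finset.mem_powerset] at hT
  have h0T : 0 ∉ T := fun hh => h0K (hT hh)
  have hCR := CT_RR hC
  set R := R1 U (Bc (insert 0 K') T A1 U) with hR
  have hRne : R ≠ [] := R1_ne _ _
  have hRf : ∀ n ∈ N1, Fresh n R := fresh_R1 hctx
  have e1 : ind (CC (CT Cl) (Sys (insert 0 K') T ([0, 1] ++ U))) =
      val (CT Cl) R (nf N1 (L1 [0, 1] (smo 0))) := by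
    rw [ind_congr (state1 hCR _ _), loc_o (by simp) h0T]
    exact val_nf hCR N1 _ R hRf hRne
  have e2 : ind (CC (CT Cl) (Sys (insert 0 K') (insert 0 T) ([0, 1] ++ U))) =
      val (CT Cl) R (nf N1 (L1 [0, 1] (smu 0))) := by
    rw [ind_congr (state1 hCR _ _), loc_u (by simp) (by simp)]
    have : Bc (insert 0 K') (insert 0 T) A1 U = Bc (insert 0 K') T A1 U := by
      apply Bc_congr
      intro c hc
      have : c ≠ 0 := by
        rintro rfl
        simp [A1] at hc
      simp [this]
    rw [this]
    exact val_nf hCR N1 _ R hRf hRne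
  have e3 : ind (CC (CT Cl) (Sys K' T U)) = val (CT Cl) R (nf N1 (L1 [] [])) := by
    rw [ind_congr (state10 hCR _ _), ← hB]
    exact val_nf hCR N1 _ R hRf hRne
  rw [e1, e2, e3]
  apply z2
  have := cancel (CT Cl) R _ (allEven_iff ck_1)
  simp only [List.map_cons, List.map_nil, List.sum_cons, List.sum_nil, add_zero] at this
  rw [add_assoc]
  exact this

/-! ### second move -/

lemma evenS {s : List ℕ} (hs : s ∈ ordS) : allEven
    [nf N2 (L2 [0, 2] s (bd2 smo smo)), nf N2 (L2 [0, 2] s (bd2 smo smu)),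
      nf N2 (L2 [0, 2] s (bd2 smu smo)), nf N2 (L2 [0, 2] s (bd2 smu smu)),
      nf N2 (L2 [] [] [])] = true := by
  have := ck_2
  unfold ck2 at this
  rw [List.all_eq_true] at this
  exact this s hs

lemma noneS {s : List ℕ} (hs : s ∈ ordS) : nf N2 (L2 [0, 2] s (bd2 smx smx)) =
    some [((1, true), [0, 2], (2, false)), ((3, true), s, (4, false))] := by
  have := ck_2n
  unfold ck2n at this
  rw [List.all_eq_true] at this
  exact of_decide_eq_true (this s hs)

lemma half_S {s : List ℕ} (hs : s ∈ ordS) : s.map half = [0, 1] ∨ s.map half = [1, 0] := by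
  simp only [ordS, List.mem_cons, List.not_mem_nil, or_false] at hs
  rcases hs with rfl | rfl <;> simp [half]

theorem F_two {h : ℕ} {Cl : List ℕ → Prop} (hC : Cls h Cl) {s U V : List ℕ} (hs : s ∈ ordS)
    (ht : Lab ([0, 2] ++ U ++ s ++ V)) : F h Cl ([0, 2] ++ U ++ s ++ V) = F h Cl (U ++ V) := by
  have hCR := CT_RR hC
  have hg := ht.gauss
  have hmap : ([0, 2] ++ U ++ s ++ V).map half =
      [0, 1] ++ U.map half ++ s.map half ++ V.map half := by
    simp [half]
  rw [hmap] at hg
  have h01 : (0 : ℕ) ≠ 1 := by norm_num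
  obtain ⟨a1, a2, a3, a4, hUV⟩ := hg.two h01 (half_S hs)
  have hctx : ∀ z ∈ U ++ V, 4 ≤ z := by
    intro z hz
    by_contra hlt
    have : half z = 0 ∨ half z = 1 := by unfold half; omega
    rcases List.mem_append.1 hz with hz | hz <;> rcases this with e | e
    · exact a1 (e ▸ List.mem_map_of_mem hz)
    · exact a2 (e ▸ List.mem_map_of_mem hz)
    · exact a3 (e ▸ List.mem_map_of_mem hz)
    · exact a4 (e ▸ List.mem_map_of_mem hz)
  set K' := KK h ((U ++ V).map half) with hK'
  have hn : ∀ c, c < 2 → c ∉ K' := by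
    intro c hc hh
    rw [hK'] at hh
    unfold KK at hh
    rw [List.mem_toFinset] at hh
    have := iter_sub h _ hh
    rw [List.mem_map] at this
    obtain ⟨z, hz, hzc⟩ := this
    have := hctx z hz
    unfold half at hzc
    omega
  have h0K : 0 ∉ K' := hn 0 (by norm_num)
  have h1K : 1 ∉ K' := hn 1 (by norm_num)
  have hUf : ∀ n ∈ N2, ∀ T, Fresh n (R2 U V (Bc K' T ∅ (U ++ V))) := by
    intro n hnn T
    have e : Bc K' T ∅ (U ++ V) = Bc K' T A2 (U ++ V) := by
      unfold Bc
      congr 2
      congr 1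
      ext x
      simp only [A2, Finset.mem_sdiff, Finset.mem_insert, Finset.notMem_empty,
        not_false_eq_true, and_true, or_false, not_or]
      constructor
      · intro h1
        exact ⟨h1, by rintro rfl; exact h1K h1, by rintro rfl; exact h0K h1⟩
      · exact fun h1 => h1.1
    rw [e]
    exact fresh_R2 hctx n hnn
  obtain ⟨U', V', e1, e2⟩ := iter_two h h01 (half_S hs) hg
  rw [← List.map_append] at e1
  rcases e2 with e2 | e2
  · -- both chords are smoothed
    have hK : KK h (([0, 2] ++ U ++ s ++ V).map half) = insert 0 (insert 1 K') := by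
      rw [hmap, hK']
      unfold KK
      rw [e1, e2]
      ext x
      have : x ∈ s.map half ↔ x = 0 ∨ x = 1 := by
        rcases half_S hs with e | e <;> rw [e] <;> simp [or_comm]
      simp only [List.mem_toFinset, List.mem_append, this, Finset.mem_insert,
        List.mem_cons, List.not_mem_nil, or_false]
      tauto
    have hB : ∀ T, Bc (insert 0 (insert 1 K')) T A2 (U ++ V) = Bc K' T ∅ (U ++ V) := by
      intro T
      unfold Bc
      have hdiff : insert 0 (insert 1 K') \ A2 = K' \ ∅ := by
        ext x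
        simp only [A2, Finset.mem_sdiff, Finset.mem_insert, Finset.notMem_empty,
          not_false_eq_true, and_true, or_false, not_or]
        constructor
        · rintro ⟨h1 | h1 | h1, h2, h3⟩
          · exact absurd h1 h3
          · exact absurd h1 h2
          · exact h1
        · intro h1
          exact ⟨Or.inr (Or.inr h1), by rintro rfl; exact h1K h1, by rintro rfl; exact h0K h1⟩
      rw [hdiff]
      congr 2
      apply List.filter_congr
      intro x hx
      have := hctx x hx
      have g0 : half x ≠ 0 := by unfold half; omega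
      have g1 : half x ≠ 1 := by unfold half; omega
      simp [g0, g1]
    have h0K1 : 0 ∉ insert 1 K' := by simp [h0K]
    unfold F
    rw [hK, Finset.sum_powerset_insert h0K1, Finset.sum_powerset_insert h1K,
      Finset.sum_powerset_insert h1K, ← Finset.sum_add_distrib, ← Finset.sum_add_distrib,
      ← Finset.sum_add_distrib, ← hK']
    apply Finset.sum_congr rfl
    intro T hT
    rw [Finset.mem_powerset] at hT
    have h0T : 0 ∉ T := fun hh => h0K (hT hh)
    have h1T : 1 ∉ T := fun hh => h1K (hT hh)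
    set R := R2 U V (Bc (insert 0 (insert 1 K')) T A2 (U ++ V)) with hR
    have hRne : R ≠ [] := R2_ne _ _ _
    have hRf : ∀ n ∈ N2, Fresh n R := fresh_R2 hctx
    have st : ∀ T', (∀ c, c ≠ 0 → c ≠ 1 → (c ∈ T' ↔ c ∈ T)) →
        ind (CC (CT Cl) (Sys (insert 0 (insert 1 K')) T' ([0, 2] ++ U ++ s ++ V))) =
        val (CT Cl) R (nf N2 (L2 [0, 2] s (loc (insert 0 (insert 1 K')) T' 0 ++
          loc (insert 0 (insert 1 K')) T' 1))) := by
      intro T' hT'
      rw [ind_congr (state2 hCR hs _ _)]
      have : Bc (insert 0 (insert 1 K')) T' A2 (U ++ V) =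
          Bc (insert 0 (insert 1 K')) T A2 (U ++ V) := by
        apply Bc_congr
        intro c hc
        simp only [A2, Finset.mem_sdiff, Finset.mem_insert, Finset.notMem_empty, or_false,
          not_or] at hc
        exact hT' c hc.2.2 hc.2.1
      rw [this]
      exact val_nf hCR N2 _ R hRf hRne
    have m0 : 0 ∈ insert 0 (insert 1 K') := by simp
    have m1 : 1 ∈ insert 0 (insert 1 K') := by simp
    rw [st T (fun _ _ _ => Iff.rfl), st (insert 1 T) (fun c _ g => by simp [g]),
      st (insert 0 T) (fun c g _ => by simp [g]),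
      st (insert 0 (insert 1 T)) (fun c g g' => by simp [g, g'])]
    rw [loc_o m0 h0T, loc_o m1 h1T, loc_o m0 (by simp [h0T]), loc_u m1 (by simp),
      loc_u m0 (by simp), loc_o m1 (by simp [h1T]), loc_u m0 (by simp), loc_u m1 (by simp)]
    have e3 : ind (CC (CT Cl) (Sys K' T (U ++ V))) = val (CT Cl) R (nf N2 (L2 [] [] [])) := by
      rw [ind_congr (state20 hCR _ _), ← hB]
      exact val_nf hCR N2 _ R hRf hRne
    rw [e3]
    apply z2
    have := cancel (CT Cl) R _ (allEven_iff (evenS hs))
    simp only [List.map_cons, List.map_nil, List.sum_cons, List.sum_nil, add_zero] at this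
    rw [← this]
    simp only [bd2]
    abel
  · -- both chords are kept
    have hK : KK h (([0, 2] ++ U ++ s ++ V).map half) = K' := by
      rw [hmap, hK']
      unfold KK
      rw [e1, e2]
    unfold F
    rw [hK, ← hK']
    apply Finset.sum_congr rfl
    intro T _
    apply ind_congr
    have hng := no_NG h _ ht T
    rw [hK, state2 (NG_RR h) hs, loc_x h0K, loc_x h1K] at hng
    rw [state2 hCR hs, loc_x h0K, loc_x h1K, state20 hCR]
    have hB : Bc K' T A2 (U ++ V) = Bc K' T ∅ (U ++ V) := by
      unfold Bc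
      congr 2
      congr 1
      ext x
      simp only [A2, Finset.mem_sdiff, Finset.mem_insert, Finset.notMem_empty,
        not_false_eq_true, and_true, or_false, not_or]
      constructor
      · exact fun h1 => h1.1
      · intro h1
        exact ⟨h1, by rintro rfl; exact h1K h1, by rintro rfl; exact h0K h1⟩
    rw [hB] at hng ⊢
    set R := R2 U V (Bc K' T ∅ (U ++ V)) with hR
    have hRne : R ≠ [] := R2_ne _ _ _
    have hRf : ∀ n ∈ N2, Fresh n R := fun n hnn => hUf n hnn T
    have hbd : smx 0 ++ smx 1 = bd2 smx smx := rfl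
    rw [hbd] at hng ⊢
    rw [nf_says (NG_RR h) N2 _ R hRf hRne, noneS hs] at hng
    rw [nf_says hCR N2 _ R hRf hRne, noneS hs, nf_says hCR N2 (L2 [] [] []) R hRf hRne, ck_20]
    simp only [Says] at hng ⊢
    have hbig := big_lemma hC (a := 0) (b := 1) h01 (P := ((1, true), [0, 2], (2, false)))
      (Q := ((3, true), s, (4, false))) (S := R) (Or.inl (by simp [half])) (half_S hs) hng
    exact hbig

end Pool.Agent.Run7.h906
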