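import Mathlib
import Pool.Agent.Run7.h906.MoveF

set_option linter.unusedSimpArgs false

namespace Pool.Agent.Run7.h906

lemma ordP_rev {p : List ℕ} (hp : p ∈ ordP) : p.reverse ∈ ordP := by
  simp only [ordP, List.mem_cons, List.not_mem_nil, or_false] at hp
  rcases hp with rfl | rfl <;> decide

lemma ordQ_rev {p : List ℕ} (hp : p ∈ ordQ) : p.reverse ∈ ordQ := by
  simp only [ordQ, List.mem_cons, List.not_mem_nil, or_false] at hp
  rcases hp with rfl | rfl <;> decide

lemma ordR_rev {p : List ℕ} (hp : p ∈ ordR) : p.reverse ∈ ordR := by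
  simp only [ordR, List.mem_cons, List.not_mem_nil, or_false] at hp
  rcases hp with rfl | rfl <;> decide

lemma tri_of {p q r : List ℕ} (hp : p ∈ ordP) (hq : q ∈ ordQ) (hr : r ∈ ordR) :
    Tri 0 1 2 (p.map half) (q.map half) (r.map half) := by
  refine ⟨by norm_num, by norm_num, by norm_num, ?_, ?_, ?_⟩
  · simp only [ordP, List.mem_cons, List.not_mem_nil, or_false] at hp
    rcases hp with rfl | rfl <;> simp [half]
  · simp only [ordQ, List.mem_cons, List.not_mem_nil, or_false] at hq
    rcases hq with rfl | rfl <;> simp [half]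
  · simp only [ordR, List.mem_cons, List.not_mem_nil, or_false] at hr
    rcases hr with rfl | rfl <;> simp [half]

lemma map_tw (f : ℕ → ℕ) (p q r U V W : List ℕ) :
    (tw p q r U V W).map f = tw (p.map f) (q.map f) (r.map f) (U.map f) (V.map f) (W.map f) := by
  simp [tw]

lemma use_ck {x y : ℕ} {body : List Piece} (hck : ckst x y body = true) {p q r : List ℕ}
    (hp : p ∈ ordP) (hq : q ∈ ordQ) (hr : r ∈ ordR) :
    stOK x y (nf N3 (L3 p q r body)) (nf N3 (L3 p.reverse q.reverse r.reverse body)) = true := by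
  unfold ckst at hck
  rw [List.all_eq_true] at hck
  have h1 := hck p hp
  rw [List.all_eq_true] at h1
  have h2 := h1 q hq
  rw [List.all_eq_true] at h2
  exact h2 r hr

lemma use_all {p q r : List ℕ} (hp : p ∈ ordP) (hq : q ∈ ordQ) (hr : r ∈ ordR) :
    allEven (all3 p q r ++ all3 p.reverse q.reverse r.reverse) = true := by
  have hck := ck_all
  unfold ckall at hck
  rw [List.all_eq_true] at hck
  have h1 := hck p hp
  rw [List.all_eq_true] at h1
  have h2 := h1 q hq
  rw [List.all_eq_true] at h2
  exact h2 r hr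

lemma use_none {p q r : List ℕ} (hp : p ∈ ordP) (hq : q ∈ ordQ) (hr : r ∈ ordR) :
    nf N3 (L3 p q r (bd3 smx smx smx)) = some [((1, true), p, (2, false)),
      ((3, true), q, (4, false)), ((5, true), r, (6, false))] := by
  have hck := ck_none
  unfold cknone at hck
  rw [List.all_eq_true] at hck
  have h1 := hck p hp
  rw [List.all_eq_true] at h1
  have h2 := h1 q hq
  rw [List.all_eq_true] at h2
  exact of_decide_eq_true (h2 r hr)

/-- the sum over the eight local states -/
noncomputable def tot8 (f : Finset ℕ → ZMod 2) (T : Finset ℕ) : ZMod 2 :=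
  f T + f (insert 2 T) + f (insert 1 T) + f (insert 1 (insert 2 T)) + f (insert 0 T) +
    f (insert 0 (insert 2 T)) + f (insert 0 (insert 1 T)) + f (insert 0 (insert 1 (insert 2 T)))

lemma sum8 {K : Finset ℕ} (h0 : 0 ∉ K) (h1 : 1 ∉ K) (h2 : 2 ∉ K) (f : Finset ℕ → ZMod 2) :
    ∑ T ∈ (insert 0 (insert 1 (insert 2 K))).powerset, f T =
      ∑ T ∈ K.powerset, tot8 f T := by
  have e0 : 0 ∉ insert 1 (insert 2 K) := by simp [h0]
  have e1 : 1 ∉ insert 2 K := by simp [h1]
  rw [Finset.sum_powerset_insert e0, Finset.sum_powerset_insert e1,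
    Finset.sum_powerset_insert h2, Finset.sum_powerset_insert h2,
    Finset.sum_powerset_insert e1,
    Finset.sum_powerset_insert h2, Finset.sum_powerset_insert h2]
  unfold tot8
  simp only [Finset.sum_add_distrib]
  abel

theorem F_three {h : ℕ} {Cl : List ℕ → Prop} (hC : Cls h Cl) {p q r U V W : List ℕ}
    (hp : p ∈ ordP) (hq : q ∈ ordQ) (hr : r ∈ ordR) (ht : Lab (tw p q r U V W)) :
    F h Cl (tw p q r U V W) = F h Cl (tw p.reverse q.reverse r.reverse U V W) := by
  have hCR := CT_RR hC
  have hNR := NG_RR h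
  have hp' := ordP_rev hp
  have hq' := ordQ_rev hq
  have hr' := ordR_rev hr
  have hperm : (tw p q r U V W).Perm (tw p.reverse q.reverse r.reverse U V W) :=
    (tw_perm hp hq hr).trans (tw_perm hp' hq' hr').symm
  have ht' : Lab (tw p.reverse q.reverse r.reverse U V W) := ht.perm hperm
  have htri := tri_of hp hq hr
  have hg := ht.gauss
  have hmap := map_tw half p q r U V W
  have hmap' : (tw p.reverse q.reverse r.reverse U V W).map half =
      tw (p.map half).reverse (q.map half).reverse (r.map half).reverse (U.map half)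
        (V.map half) (W.map half) := by
    rw [map_tw, List.map_reverse, List.map_reverse, List.map_reverse]
  rw [hmap] at hg
  have hfr := htri.fresh hg
  have hctx : ∀ z ∈ U ++ V ++ W, 6 ≤ z := by
    intro z hz
    by_contra hlt
    have h3 : half z = 0 ∨ half z = 1 ∨ half z = 2 := by unfold half; omega
    obtain ⟨g1, g2, g3⟩ := hfr (half z) h3
    simp only [List.mem_append] at hz
    rcases hz with (hz | hz) | hz
    · exact g1 (List.mem_map_of_mem hz)
    · exact g2 (List.mem_map_of_mem hz)
    · exact g3 (List.mem_map_of_mem hz)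
  have hhalf : ∀ z ∈ U ++ V ++ W, 3 ≤ half z := by
    intro z hz
    have := hctx z hz
    unfold half; omega
  -- the set of smoothed chords is the same
  have hK : KK h ((tw p q r U V W).map half) =
      KK h ((tw p.reverse q.reverse r.reverse U V W).map half) := by
    rw [hmap, hmap']
    unfold KK
    rcases iter_three h htri hg with ⟨U', V', W', e1, e2⟩ | ⟨e1, _⟩
    · rw [e1, e2]
      ext x
      simp [tw]
    · rw [e1]
  set K := KK h ((tw p q r U V W).map half) with hKd
  have hpat : (0 ∈ K ∧ 1 ∈ K ∧ 2 ∈ K) ∨ (¬ (0 ∈ K ∧ 1 ∈ K) ∧ ¬ (0 ∈ K ∧ 2 ∈ K) ∧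
      ¬ (1 ∈ K ∧ 2 ∈ K)) := by
    rw [hKd, hmap]
    unfold KK
    simp only [List.mem_toFinset]
    rcases iter_three h htri hg with ⟨U', V', W', e1, e2⟩ | ⟨_, e2⟩
    · left
      rw [e1]
      have f1 : 0 ∈ p.map half ∧ 1 ∈ p.map half := by
        rcases htri.hp with e | e <;> rw [e] <;> simp
      have f2 : 2 ∈ q.map half := by
        rcases htri.hq with e | e <;> rw [e] <;> simp
      unfold tw
      simp only [List.mem_append, f1.1, f1.2, f2, true_or, or_true, and_self]
    · right
      exact e2
  have hRne : ∀ B, R3 U V W B ≠ [] := R3_ne U V W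
  -- value of a state
  have stc : ∀ (C : List ℕ → Prop), RR C → ∀ (p q r : List ℕ), p ∈ ordP → q ∈ ordQ →
      r ∈ ordR → ∀ T T', (∀ c ∈ K \ A3, c ∈ T' ↔ c ∈ T) →
      (CC C (Sys K T' (tw p q r U V W)) ↔
      CC C (L3 p q r (loc K T' 0 ++ (loc K T' 1 ++ loc K T' 2)) ++
        R3 U V W (Bc K T A3 (U ++ V ++ W)))) := by
    intro C hCC p q r hp hq hr T T' hT
    rw [state3 hCC hp hq hr, Bc_congr hT]
  unfold F
  rw [← hK, ← hKd]
  rcases hpat with ⟨m0, m1, m2⟩ | ⟨n01, n02, n12⟩
  · -- all three chords are smoothed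
    set Kc := K \ A3 with hKc
    have hKeq : K = insert 0 (insert 1 (insert 2 Kc)) := by
      ext x
      simp only [hKc, A3, Finset.mem_insert, Finset.mem_sdiff, Finset.notMem_empty, or_false,
        not_or]
      constructor
      · intro hx
        by_cases x0 : x = 0
        · exact Or.inl x0
        · by_cases x1 : x = 1
          · exact Or.inr (Or.inl x1)
          · by_cases x2 : x = 2
            · exact Or.inr (Or.inr (Or.inl x2))
            · exact Or.inr (Or.inr (Or.inr ⟨hx, x2, x1, x0⟩))
      · rintro (rfl | rfl | rfl | ⟨hx, _⟩)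
        · exact m0
        · exact m1
        · exact m2
        · exact hx
    have k0 : 0 ∉ Kc := by simp [hKc, A3]
    have k1 : 1 ∉ Kc := by simp [hKc, A3]
    have k2 : 2 ∉ Kc := by simp [hKc, A3]
    have hsum : ∀ f : Finset ℕ → ZMod 2, ∑ T ∈ K.powerset, f T =
        ∑ T ∈ Kc.powerset, tot8 f T := by
      intro f
      conv_lhs => rw [hKeq]
      exact sum8 k0 k1 k2 f
    rw [hsum, hsum]
    apply Finset.sum_congr rfl
    intro T hT
    rw [Finset.mem_powerset] at hT
    have t0 : 0 ∉ T := fun hh => k0 (hT hh)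
    have t1 : 1 ∉ T := fun hh => k1 (hT hh)
    have t2 : 2 ∉ T := fun hh => k2 (hT hh)
    set R := R3 U V W (Bc K T A3 (U ++ V ++ W)) with hR
    have hRf : ∀ n ∈ N3, Fresh n R := fresh_R3 hctx
    have st : ∀ (p q r : List ℕ), p ∈ ordP → q ∈ ordQ → r ∈ ordR →
        ∀ T', (∀ c, c ≠ 0 → c ≠ 1 → c ≠ 2 → (c ∈ T' ↔ c ∈ T)) →
        ind (CC (CT Cl) (Sys K T' (tw p q r U V W))) =
        val (CT Cl) R (nf N3 (L3 p q r (loc K T' 0 ++ (loc K T' 1 ++ loc K T' 2)))) := by
      intro p q r hp hq hr T' hT'
      rw [ind_congr (stc _ hCR p q r hp hq hr T T' (by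
        intro c hc
        rw [hKc] at hc
        simp only [A3, Finset.mem_sdiff, Finset.mem_insert, Finset.notMem_empty, or_false,
          not_or] at hc
        exact hT' c hc.2.2.2 hc.2.2.1 hc.2.1))]
      exact val_nf hCR N3 _ R hRf (hRne _)
    have key : ∀ (p q r : List ℕ), p ∈ ordP → q ∈ ordQ → r ∈ ordR →
        tot8 (fun T' => ind (CC (CT Cl) (Sys K T' (tw p q r U V W)))) T =
        ((all3 p q r).map (val (CT Cl) R)).sum := by
      intro p q r hp hq hr
      unfold tot8
      beta_reduce
      rw [st p q r hp hq hr T (fun _ _ _ _ => Iff.rfl),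
        st p q r hp hq hr (insert 2 T) (fun c _ _ g => by simp [g]),
        st p q r hp hq hr (insert 1 T) (fun c _ g _ => by simp [g]),
        st p q r hp hq hr (insert 1 (insert 2 T)) (fun c _ g g' => by simp [g, g']),
        st p q r hp hq hr (insert 0 T) (fun c g _ _ => by simp [g]),
        st p q r hp hq hr (insert 0 (insert 2 T)) (fun c g _ g' => by simp [g, g']),
        st p q r hp hq hr (insert 0 (insert 1 T)) (fun c g g' _ => by simp [g, g']),
        st p q r hp hq hr (insert 0 (insert 1 (insert 2 T)))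
          (fun c g g' g'' => by simp [g, g', g''])]
      rw [loc_o m0 t0, loc_o m1 t1, loc_o m2 t2]
      rw [loc_o m0 (show 0 ∉ insert 2 T by simp [t0]),
        loc_o m1 (show 1 ∉ insert 2 T by simp [t1]),
        loc_u m2 (show 2 ∈ insert 2 T by simp)]
      rw [loc_o m0 (show 0 ∉ insert 1 T by simp [t0]),
        loc_u m1 (show 1 ∈ insert 1 T by simp),
        loc_o m2 (show 2 ∉ insert 1 T by simp [t2])]
      rw [loc_o m0 (show 0 ∉ insert 1 (insert 2 T) by simp [t0]),
        loc_u m1 (show 1 ∈ insert 1 (insert 2 T) by simp),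
        loc_u m2 (show 2 ∈ insert 1 (insert 2 T) by simp)]
      rw [loc_u m0 (show 0 ∈ insert 0 T by simp),
        loc_o m1 (show 1 ∉ insert 0 T by simp [t1]),
        loc_o m2 (show 2 ∉ insert 0 T by simp [t2])]
      rw [loc_u m0 (show 0 ∈ insert 0 (insert 2 T) by simp),
        loc_o m1 (show 1 ∉ insert 0 (insert 2 T) by simp [t1]),
        loc_u m2 (show 2 ∈ insert 0 (insert 2 T) by simp)]
      rw [loc_u m0 (show 0 ∈ insert 0 (insert 1 T) by simp),
        loc_u m1 (show 1 ∈ insert 0 (insert 1 T) by simp),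
        loc_o m2 (show 2 ∉ insert 0 (insert 1 T) by simp [t2])]
      rw [loc_u m0 (show 0 ∈ insert 0 (insert 1 (insert 2 T)) by simp),
        loc_u m1 (show 1 ∈ insert 0 (insert 1 (insert 2 T)) by simp),
        loc_u m2 (show 2 ∈ insert 0 (insert 1 (insert 2 T)) by simp)]
      unfold all3 bd3
      simp only [List.map_cons, List.map_nil, List.sum_cons, List.sum_nil, add_zero]
      abel
    rw [key p q r hp hq hr, key _ _ _ hp' hq' hr']
    apply z2
    rw [← List.sum_append, ← List.map_append]
    exact cancel (CT Cl) R _ (allEven_iff (use_all hp hq hr))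
  · -- at most one of the chords is smoothed
    apply Finset.sum_congr rfl
    intro T _
    apply ind_congr
    have hng := no_NG h _ ht T
    have hng' := no_NG h _ ht' T
    rw [← hKd, stc _ hNR p q r hp hq hr T T (fun _ _ => Iff.rfl)] at hng
    rw [← hK, stc _ hNR _ _ _ hp' hq' hr' T T (fun _ _ => Iff.rfl)] at hng'
    rw [stc _ hCR p q r hp hq hr T T (fun _ _ => Iff.rfl),
      stc _ hCR _ _ _ hp' hq' hr' T T (fun _ _ => Iff.rfl)]
    set R := R3 U V W (Bc K T A3 (U ++ V ++ W)) with hR
    have hRf : ∀ n ∈ N3, Fresh n R := fresh_R3 hctx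
    have hav : ∀ x y, x < 3 → y < 3 → Avoid x y R := by
      intro x y hx hy
      rw [hR]
      unfold R3
      refine avoid_append (avoid_Ew _ _ _ _ _) (avoid_append (avoid_Ew _ _ _ _ _)
        (avoid_append (avoid_Ew _ _ _ _ _) (avoid_Bc ?_)))
      intro z hz
      have := hhalf z hz
      omega
    have fin : ∀ (x y : ℕ) (body : List Piece), x ≠ y → x < 3 → y < 3 →
        ckst x y body = true →
        ¬ CC (NG h) (L3 p q r body ++ R) →
        ¬ CC (NG h) (L3 p.reverse q.reverse r.reverse body ++ R) →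
        (CC (CT Cl) (L3 p q r body ++ R) ↔
          CC (CT Cl) (L3 p.reverse q.reverse r.reverse body ++ R)) := by
      intro x y body hxy hx hy hck h1 h2
      exact st_says hC hxy N3 (use_ck hck hp hq hr) hRf (hRne _) (hav x y hx hy) h1 h2
    by_cases m0 : 0 ∈ K
    · have m1 : 1 ∉ K := fun hh => n01 ⟨m0, hh⟩
      have m2 : 2 ∉ K := fun hh => n02 ⟨m0, hh⟩
      rw [loc_x m1, loc_x m2] at hng hng' ⊢
      by_cases t0 : 0 ∈ T
      · rw [loc_u m0 t0] at hng hng' ⊢
        exact fin 1 2 _ (by norm_num) (by norm_num) (by norm_num) ck_a_u hng hng'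
      · rw [loc_o m0 t0] at hng hng' ⊢
        exact fin 1 2 _ (by norm_num) (by norm_num) (by norm_num) ck_a_o hng hng'
    · by_cases m1 : 1 ∈ K
      · have m2 : 2 ∉ K := fun hh => n12 ⟨m1, hh⟩
        rw [loc_x m0, loc_x m2] at hng hng' ⊢
        by_cases t1 : 1 ∈ T
        · rw [loc_u m1 t1] at hng hng' ⊢
          exact fin 0 2 _ (by norm_num) (by norm_num) (by norm_num) ck_b_u hng hng'
        · rw [loc_o m1 t1] at hng hng' ⊢
          exact fin 0 2 _ (by norm_num) (by norm_num) (by norm_num) ck_b_o hng hng'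
      · by_cases m2 : 2 ∈ K
        · rw [loc_x m0, loc_x m1] at hng hng' ⊢
          by_cases t2 : 2 ∈ T
          · rw [loc_u m2 t2] at hng hng' ⊢
            exact fin 0 1 _ (by norm_num) (by norm_num) (by norm_num) ck_c_u hng hng'
          · rw [loc_o m2 t2] at hng hng' ⊢
            exact fin 0 1 _ (by norm_num) (by norm_num) (by norm_num) ck_c_o hng hng'
        · rw [loc_x m0, loc_x m1, loc_x m2] at hng hng' ⊢
          have hbd : smx 0 ++ (smx 1 ++ smx 2) = bd3 smx smx smx := rfl
          rw [hbd]
          rw [nf_says hCR N3 _ R hRf (hRne _), use_none hp hq hr,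
            nf_says hCR N3 _ R hRf (hRne _), use_none hp' hq' hr']
          simp only [Says, List.cons_append, List.nil_append]
          constructor
          · intro hh
            exact tri_one hC (P := ((1, true), p, (2, false))) (Q := ((3, true), q, (4, false)))
              (R := ((5, true), r, (6, false))) htri hh
          · intro hh
            have htri' : Tri 0 1 2 (p.reverse.map half) (q.reverse.map half)
                (r.reverse.map half) := tri_of hp' hq' hr'
            have := tri_one hC (P := ((1, true), p.reverse, (2, false)))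
              (Q := ((3, true), q.reverse, (4, false)))
              (R := ((5, true), r.reverse, (6, false))) htri' hh
            simpa [rw'] using this

end Pool.Agent.Run7.h906
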