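import Mathlib
import Pool.Agent.Run7.h906.MoveT

set_option linter.unusedSimpArgs false

namespace Pool.Agent.Run7.h906

/-! ### the classes -/

lemma HEq_good {h : ℕ} {a b : List ℕ} (hab : HEq h a b) : GoodW h a ↔ GoodW h b := by
  induction hab with
  | rel x y hxy =>
    obtain ⟨h1, h2, h3, h4, _⟩ := hxy
    exact ⟨fun _ => ⟨h2, h4⟩, fun _ => ⟨h1, h3⟩⟩
  | refl x => exact Iff.rfl
  | symm x y _ ih => exact ih.symm
  | trans x y z _ _ ih1 ih2 => exact ih1.trans ih2

lemma HEq_free {h : ℕ} {a b : List ℕ} (hab : HEq h a b) : FreeEq a b := by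
  induction hab with
  | rel x y hxy => exact .rel _ _ ⟨hxy.1, hxy.2.1, Or.inl hxy.2.2.2.2⟩
  | refl x => exact .refl _
  | symm x y _ ih => exact .symm _ _ ih
  | trans x y z _ _ ih1 ih2 => exact .trans _ _ _ ih1 ih2

lemma GoodW.ren {h : ℕ} {u : List ℕ} (hg : GoodW h u) (σ : Equiv.Perm ℕ) :
    GoodW h (u.map σ) := by
  refine ⟨hg.1.map σ, ?_⟩
  rw [iter_ren h σ hg.1, hg.2]
  rfl

lemma GoodW.two {h a b : ℕ} {s U V : List ℕ} (hab : a ≠ b) (hs : s = [a, b] ∨ s = [b, a])
    (hg : GoodW h ([a, b] ++ U ++ s ++ V)) : GoodW h (U ++ V) := by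
  refine ⟨(hg.1.two hab hs).2.2.2.2, ?_⟩
  obtain ⟨U', V', e1, e2 | e2⟩ := iter_two h hab hs hg.1
  · have := hg.2
    rw [e2] at this
    simp at this
  · rw [e1, ← e2]
    exact hg.2

lemma GoodW.three {h a b c : ℕ} {p q r U V W : List ℕ} (ht : Tri a b c p q r)
    (hg : GoodW h (tw p q r U V W)) : GoodW h (tw p.reverse q.reverse r.reverse U V W) := by
  refine ⟨hg.1.perm (ht.perm U V W), ?_⟩
  rcases iter_three h ht hg.1 with ⟨U', V', W', e1, _⟩ | ⟨e1, _⟩
  · have := hg.2
    rw [e1] at this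
    exfalso
    rcases ht.hp with e | e <;> rw [e] at this <;> simp [tw] at this
  · rw [← e1]
    exact hg.2

lemma class_Cls {h : ℕ} {w0 : List ℕ} (h0 : GoodW h w0) : Cls h (HEq h w0) where
  good w hw := (HEq_good hw).1 h0
  rot u v hu := by
    have hg := (HEq_good hu).1 h0
    exact hu.trans _ _ _ (.rel _ _ ⟨hg.1, hg.rot.1, hg.2, hg.rot.2, Move.rot u v⟩)
  rev u hu := by
    have hg := (HEq_good hu).1 h0
    exact hu.trans _ _ _ (.rel _ _ ⟨hg.1, hg.rev.1, hg.2, hg.rev.2, Move.rev u⟩)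
  ren σ u hu := by
    have hg := (HEq_good hu).1 h0
    exact hu.trans _ _ _ (.rel _ _ ⟨hg.1, (hg.ren σ).1, hg.2, (hg.ren σ).2, Move.ren σ u⟩)
  two a b s U V hab hs hg := by
    have hg' := hg.two hab hs
    have step : HStep h ([a, b] ++ U ++ s ++ V) (U ++ V) := by
      refine ⟨hg.1, hg'.1, hg.2, hg'.2, ?_⟩
      rcases hs with rfl | rfl
      · exact Move.par a b U V hab
      · exact Move.anti a b U V hab
    constructor
    · intro hu
      exact hu.trans _ _ _ (.rel _ _ step)
    · intro hu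
      exact hu.trans _ _ _ (.symm _ _ (.rel _ _ step))
  three a b c p q r U V W ht hu := by
    have hg := (HEq_good hu).1 h0
    have hg' := hg.three ht
    exact hu.trans _ _ _ (.rel _ _ ⟨hg.1, hg'.1, hg.2, hg'.2,
      Move.three a b c p q r U V W ht.hab ht.hac ht.hbc ht.hp ht.hq ht.hr⟩)

/-! ### permutations of the letters -/

lemma perm3 {a b c : ℕ} (hab : a ≠ b) (hac : a ≠ c) (hbc : b ≠ c) :
    ∃ σ : Equiv.Perm ℕ, σ a = 0 ∧ σ b = 1 ∧ σ c = 2 := by
  set s1 := Equiv.swap a 0 with hs1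
  have a1 : s1 a = 0 := Equiv.swap_apply_left a 0
  set b1 := s1 b with hb1
  have b10 : b1 ≠ 0 := by
    intro hh
    apply hab
    apply s1.injective
    rw [a1, ← hh]
  set s2 := Equiv.swap b1 1 with hs2
  have s20 : s2 0 = 0 := Equiv.swap_apply_of_ne_of_ne b10.symm (by norm_num)
  have s2b : s2 b1 = 1 := Equiv.swap_apply_left b1 1
  set c1 := s2 (s1 c) with hc1
  have c10 : c1 ≠ 0 := by
    intro hh
    apply hac
    apply s1.injective
    apply s2.injective
    rw [a1, s20, ← hh]
  have c11 : c1 ≠ 1 := by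
    intro hh
    apply hbc
    apply s1.injective
    apply s2.injective
    rw [← hb1, s2b, ← hh]
  set s3 := Equiv.swap c1 2 with hs3
  refine ⟨s3 * (s2 * s1), ?_, ?_, ?_⟩
  · simp only [Equiv.Perm.mul_apply]
    rw [a1, s20]
    exact Equiv.swap_apply_of_ne_of_ne c10.symm (by norm_num)
  · simp only [Equiv.Perm.mul_apply]
    rw [← hb1, s2b]
    exact Equiv.swap_apply_of_ne_of_ne c11.symm (by norm_num)
  · simp only [Equiv.Perm.mul_apply]
    rw [← hc1]
    exact Equiv.swap_apply_left c1 2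

lemma perm2 {a b : ℕ} (hab : a ≠ b) : ∃ σ : Equiv.Perm ℕ, σ a = 0 ∧ σ b = 1 := by
  obtain ⟨c, hc1, hc2⟩ : ∃ c, a ≠ c ∧ b ≠ c :=
    ⟨a + b + 1, by omega, by omega⟩
  obtain ⟨σ, h1, h2, _⟩ := perm3 hab hc1 hc2
  exact ⟨σ, h1, h2⟩

/-- the token permutation of a letter permutation -/
def tp (σ : Equiv.Perm ℕ) : Equiv.Perm ℕ where
  toFun x := 2 * σ (x / 2) + x % 2
  invFun x := 2 * σ.symm (x / 2) + x % 2
  left_inv x := by
    have h1 : (2 * σ (x / 2) + x % 2) / 2 = σ (x / 2) := by omega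
    have h2 : (2 * σ (x / 2) + x % 2) % 2 = x % 2 := by omega
    simp only [h1, h2, Equiv.symm_apply_apply]
    omega
  right_inv x := by
    have h1 : (2 * σ.symm (x / 2) + x % 2) / 2 = σ.symm (x / 2) := by omega
    have h2 : (2 * σ.symm (x / 2) + x % 2) % 2 = x % 2 := by omega
    simp only [h1, h2, Equiv.apply_symm_apply]
    omega

lemma half_tp (σ : Equiv.Perm ℕ) (x : ℕ) : half (tp σ x) = σ (half x) := by
  show (2 * σ (x / 2) + x % 2) / 2 = σ (x / 2)
  omega

lemma sw_tp (σ : Equiv.Perm ℕ) (x : ℕ) : tp σ (sw x) = sw (tp σ x) := by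
  show 2 * σ (sw x / 2) + sw x % 2 = sw (2 * σ (x / 2) + x % 2)
  have h1 : sw x / 2 = x / 2 := by unfold sw; split_ifs <;> omega
  rw [h1]
  unfold sw
  split_ifs <;> omega

lemma Lab.map_tp {t : List ℕ} (ht : Lab t) (σ : Equiv.Perm ℕ) : Lab (t.map (tp σ)) := by
  refine ⟨ht.nd.map (tp σ).injective, ?_⟩
  intro x hx
  rw [List.mem_map] at hx ⊢
  obtain ⟨y, hy, rfl⟩ := hx
  exact ⟨sw y, ht.par y hy, sw_tp σ y⟩

lemma map_half_tp (t : List ℕ) (σ : Equiv.Perm ℕ) :
    (t.map (tp σ)).map half = (t.map half).map σ := by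
  rw [List.map_map, List.map_map]
  apply List.map_congr_left
  intro x _
  exact half_tp σ x

/-- adding labelled local tokens to a labelled context -/
lemma Lab.add {t m : List ℕ} (ht : Lab t) (hm : Lab m) (hd : ∀ x ∈ m, x ∉ t) : Lab (m ++ t) := by
  refine ⟨?_, ?_⟩
  · rw [List.nodup_append]
    refine ⟨hm.nd, ht.nd, ?_⟩
    rintro x hx y hy rfl
    exact hd x hx hy
  · intro x hx
    rcases List.mem_append.1 hx with hx | hx
    · exact List.mem_append.2 (Or.inl (hm.par x hx))
    · exact List.mem_append.2 (Or.inr (ht.par x hx))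

/-! ### invariance -/

lemma F_one_plain {h : ℕ} {Cl : List ℕ → Prop} (hC : Cls h Cl) {w w' : List ℕ}
    (hg : Gauss w) (hm : One w w') {t t' : List ℕ} (ht : Lab t) (ht' : Lab t')
    (e : t.map half = w) (e' : t'.map half = w') : F h Cl t = F h Cl t' := by
  obtain ⟨a, U⟩ := hm
  obtain ⟨ha, _⟩ := hg.one
  set σ := Equiv.swap a 0 with hσ
  have sa : σ a = 0 := Equiv.swap_apply_left a 0
  set t1 := t'.map (tp σ) with ht1
  have hl1 : Lab t1 := ht'.map_tp σ
  have hn : ∀ x ∈ t1, half x ≠ 0 := by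
    intro x hx hh
    rw [ht1, List.mem_map] at hx
    obtain ⟨y, hy, rfl⟩ := hx
    rw [half_tp, ← sa] at hh
    have := σ.injective hh
    apply ha
    rw [← e', ← this]
    exact List.mem_map_of_mem hy
  have hl2 : Lab ([0, 1] ++ t1) := by
    apply hl1.add ⟨by decide, by decide⟩
    intro x hx hx1
    apply hn x hx1
    simp only [List.mem_cons, List.not_mem_nil, or_false] at hx
    unfold half; omega
  have e2 : (t.map (tp σ)).map half = ([0, 1] ++ t1).map half := by
    rw [map_half_tp, e, List.map_append, ht1, map_half_tp, e']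
    simp [sa, half]
  rw [← F_ren hC (tp σ) σ (half_tp σ) ht, F_lab hC (ht.map_tp σ) hl2 e2, F_one hC hl2, ht1,
    F_ren hC (tp σ) σ (half_tp σ) ht']

lemma F_two_plain {h : ℕ} {Cl : List ℕ → Prop} (hC : Cls h Cl) {a b : ℕ} {s U V : List ℕ}
    (hab : a ≠ b) (hs : s = [a, b] ∨ s = [b, a])
    (hg : Gauss ([a, b] ++ U ++ s ++ V)) {t t' : List ℕ} (ht : Lab t) (ht' : Lab t')
    (e : t.map half = [a, b] ++ U ++ s ++ V) (e' : t'.map half = U ++ V) :
    F h Cl t = F h Cl t' := by
  obtain ⟨aU, bU, aV, bV, _⟩ := hg.two hab hs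
  obtain ⟨σ, sa, sb⟩ := perm2 hab
  rw [List.map_eq_append_iff] at e'
  obtain ⟨tU, tV, rfl, eU, eV⟩ := e'
  set U1 := tU.map (tp σ) with hU1
  set V1 := tV.map (tp σ) with hV1
  have hl1 : Lab (U1 ++ V1) := by
    rw [hU1, hV1, ← List.map_append]
    exact ht'.map_tp σ
  obtain ⟨s1, hs1, es1⟩ : ∃ s1 ∈ ordS, s1.map half = s.map σ := by
    rcases hs with rfl | rfl
    · exact ⟨[1, 3], by decide, by simp [half, sa, sb]⟩
    · exact ⟨[3, 1], by decide, by simp [half, sa, sb]⟩
  have hn : ∀ x ∈ U1 ++ V1, 4 ≤ x := by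
    intro x hx
    rw [hU1, hV1, ← List.map_append, List.mem_map] at hx
    obtain ⟨y, hy, rfl⟩ := hx
    have hy' : half y ∈ U ++ V := by
      rw [← eU, ← eV, ← List.map_append]
      exact List.mem_map_of_mem hy
    have h1 : half y ≠ a := by
      intro hh
      rw [hh, List.mem_append] at hy'
      rcases hy' with hh | hh
      · exact aU hh
      · exact aV hh
    have h2 : half y ≠ b := by
      intro hh
      rw [hh, List.mem_append] at hy'
      rcases hy' with hh | hh
      · exact bU hh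
      · exact bV hh
    have h3 : half (tp σ y) ≠ 0 := by
      rw [half_tp, ← sa]
      intro hh
      exact h1 (σ.injective hh)
    have h4 : half (tp σ y) ≠ 1 := by
      rw [half_tp, ← sb]
      intro hh
      exact h2 (σ.injective hh)
    unfold half at h3 h4
    omega
  have hl2 : Lab ([0, 2] ++ U1 ++ s1 ++ V1) := by
    have hl3 : Lab ([0, 1, 2, 3] ++ (U1 ++ V1)) := by
      apply hl1.add ⟨by decide, by decide⟩
      intro x hx hx1
      have := hn x hx1
      simp only [List.mem_cons, List.not_mem_nil, or_false] at hx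
      omega
    apply hl3.perm
    have h1 : (s1 : Multiset ℕ) = {1} + {3} := by
      simp only [ordS, List.mem_cons, List.not_mem_nil, or_false] at hs1
      rcases hs1 with rfl | rfl <;> decide
    have h2 : (([0, 2] : List ℕ) : Multiset ℕ) = {0} + {2} := by decide
    have h4 : (([0, 1, 2, 3] : List ℕ) : Multiset ℕ) = {0} + {1} + {2} + {3} := by decide
    rw [← Multiset.coe_eq_coe]
    simp only [← Multiset.coe_add, h1, h2, h4]
    abel
  have e2 : (t.map (tp σ)).map half = ([0, 2] ++ U1 ++ s1 ++ V1).map half := by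
    rw [map_half_tp, e]
    simp only [List.map_append, es1, hU1, hV1, map_half_tp, eU, eV]
    simp [sa, sb, half]
  rw [← F_ren hC (tp σ) σ (half_tp σ) ht, F_lab hC (ht.map_tp σ) hl2 e2, F_two hC hs1 hl2,
    hU1, hV1, ← List.map_append, F_ren hC (tp σ) σ (half_tp σ) ht']

lemma F_three_plain {h : ℕ} {Cl : List ℕ → Prop} (hC : Cls h Cl) {a b c : ℕ}
    {p q r U V W : List ℕ} (htr : Tri a b c p q r)
    (hg : Gauss (tw p q r U V W)) {t t' : List ℕ} (ht : Lab t) (ht' : Lab t')
    (e : t.map half = tw p q r U V W)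
    (e' : t'.map half = tw p.reverse q.reverse r.reverse U V W) :
    F h Cl t = F h Cl t' := by
  obtain ⟨σ, sa, sb, sc⟩ := perm3 htr.hab htr.hac htr.hbc
  have hfr := htr.fresh hg
  -- a labelling of the context
  obtain ⟨tc, hlc, ec⟩ := exists_lab _ (htr.ctx hg)
  rw [List.map_eq_append_iff] at ec
  obtain ⟨tUV, tW, rfl, eUV, eW⟩ := ec
  rw [List.map_eq_append_iff] at eUV
  obtain ⟨tU, tV, rfl, eU, eV⟩ := eUV
  set U1 := tU.map (tp σ) with hU1
  set V1 := tV.map (tp σ) with hV1
  set W1 := tW.map (tp σ) with hW1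
  have hl1 : Lab (U1 ++ V1 ++ W1) := by
    rw [hU1, hV1, hW1, ← List.map_append, ← List.map_append]
    exact hlc.map_tp σ
  obtain ⟨p1, hp1, ep1⟩ : ∃ p1 ∈ ordP, p1.map half = p.map σ := by
    rcases htr.hp with rfl | rfl
    · exact ⟨[0, 2], by decide, by simp [half, sa, sb]⟩
    · exact ⟨[2, 0], by decide, by simp [half, sa, sb]⟩
  obtain ⟨q1, hq1, eq1⟩ : ∃ q1 ∈ ordQ, q1.map half = q.map σ := by
    rcases htr.hq with rfl | rfl
    · exact ⟨[1, 4], by decide, by simp [half, sa, sc]⟩
    · exact ⟨[4, 1], by decide, by simp [half, sa, sc]⟩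
  obtain ⟨r1, hr1, er1⟩ : ∃ r1 ∈ ordR, r1.map half = r.map σ := by
    rcases htr.hr with rfl | rfl
    · exact ⟨[3, 5], by decide, by simp [half, sb, sc]⟩
    · exact ⟨[5, 3], by decide, by simp [half, sb, sc]⟩
  have hn : ∀ x ∈ U1 ++ V1 ++ W1, 6 ≤ x := by
    intro x hx
    rw [hU1, hV1, hW1, ← List.map_append, ← List.map_append, List.mem_map] at hx
    obtain ⟨y, hy, rfl⟩ := hx
    have hy' : half y ∈ U ++ V ++ W := by
      rw [← eU, ← eV, ← eW, ← List.map_append, ← List.map_append]
      exact List.mem_map_of_mem hy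
    have hne : ¬ (half y = a ∨ half y = b ∨ half y = c) := by
      intro hh
      obtain ⟨g1, g2, g3⟩ := hfr _ hh
      simp only [List.mem_append] at hy'
      tauto
    push Not at hne
    obtain ⟨n1, n2, n3⟩ := hne
    have h3 : half (tp σ y) ≠ 0 := by
      rw [half_tp, ← sa]
      exact fun hh => n1 (σ.injective hh)
    have h4 : half (tp σ y) ≠ 1 := by
      rw [half_tp, ← sb]
      exact fun hh => n2 (σ.injective hh)
    have h5 : half (tp σ y) ≠ 2 := by
      rw [half_tp, ← sc]
      exact fun hh => n3 (σ.injective hh)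
    unfold half at h3 h4 h5
    omega
  have hl0 : Lab ([0, 1] ++ ([2, 3] ++ ([4, 5] ++ (U1 ++ V1 ++ W1)))) := by
    have : Lab ([0, 1, 2, 3, 4, 5] ++ (U1 ++ V1 ++ W1)) := by
      apply hl1.add ⟨by decide, by decide⟩
      intro x hx hx1
      have := hn x hx1
      simp only [List.mem_cons, List.not_mem_nil, or_false] at hx
      omega
    simpa using this
  have hl2 : Lab (tw p1 q1 r1 U1 V1 W1) := hl0.perm (tw_perm hp1 hq1 hr1).symm
  have hl3 : Lab (tw p1.reverse q1.reverse r1.reverse U1 V1 W1) :=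
    hl0.perm (tw_perm (ordP_rev hp1) (ordQ_rev hq1) (ordR_rev hr1)).symm
  have e2 : (t.map (tp σ)).map half = (tw p1 q1 r1 U1 V1 W1).map half := by
    rw [map_half_tp, e, map_tw, map_tw, ep1, eq1, er1, hU1, hV1, hW1, map_half_tp,
      map_half_tp, map_half_tp, eU, eV, eW]
  have e3 : (t'.map (tp σ)).map half =
      (tw p1.reverse q1.reverse r1.reverse U1 V1 W1).map half := by
    rw [map_half_tp, e', map_tw, map_tw, List.map_reverse, List.map_reverse, List.map_reverse,
      List.map_reverse, List.map_reverse, List.map_reverse, ep1, eq1, er1, hU1, hV1, hW1,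
      map_half_tp, map_half_tp, map_half_tp, eU, eV, eW]
  rw [← F_ren hC (tp σ) σ (half_tp σ) ht, F_lab hC (ht.map_tp σ) hl2 e2,
    F_three hC hp1 hq1 hr1 hl2, ← F_lab hC (ht'.map_tp σ) hl3 e3,
    F_ren hC (tp σ) σ (half_tp σ) ht']

lemma F_step {h : ℕ} {Cl : List ℕ → Prop} (hC : Cls h Cl) {w w' : List ℕ}
    (hs : FreeStep w w') {t t' : List ℕ} (ht : Lab t) (ht' : Lab t')
    (e : t.map half = w) (e' : t'.map half = w') : F h Cl t = F h Cl t' := by
  obtain ⟨hg, hg', hm | hm⟩ := hs
  · cases hm with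
    | rot U V =>
      rw [List.map_eq_append_iff] at e
      obtain ⟨tU, tV, rfl, eU, eV⟩ := e
      have hl : Lab (tV ++ tU) := ht.perm List.perm_append_comm
      rw [F_rot hC ht]
      apply F_lab hC hl ht'
      rw [List.map_append, eU, eV, e']
    | rev =>
      rw [← F_rev ht]
      apply F_lab hC (ht.perm (List.reverse_perm _).symm) ht'
      rw [List.map_reverse, e, e']
    | ren σ =>
      rw [← F_ren hC (tp σ) σ (half_tp σ) ht]
      apply F_lab hC (ht.map_tp σ) ht'
      rw [map_half_tp, e, e']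
    | anti a b U V hab => exact F_two_plain hC hab (Or.inr rfl) hg ht ht' e e'
    | par a b U V hab => exact F_two_plain hC hab (Or.inl rfl) hg ht ht' e e'
    | three a b c p q r U V W hab hac hbc hp hq hr =>
      exact F_three_plain hC ⟨hab, hac, hbc, hp, hq, hr⟩ hg ht ht' e e'
  · exact F_one_plain hC hg hm ht ht' e e'

lemma FreeEq_gauss {a b : List ℕ} (hab : FreeEq a b) : Gauss a ↔ Gauss b := by
  induction hab with
  | rel x y hxy => exact ⟨fun _ => hxy.2.1, fun _ => hxy.1⟩
  | refl x => exact Iff.rfl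
  | symm x y _ ih => exact ih.symm
  | trans x y z _ _ ih1 ih2 => exact ih1.trans ih2

theorem F_inv {h : ℕ} {Cl : List ℕ → Prop} (hC : Cls h Cl) {w w' : List ℕ}
    (hw : FreeEq w w') : ∀ {t t' : List ℕ}, Lab t → Lab t' → t.map half = w →
      t'.map half = w' → F h Cl t = F h Cl t' := by
  induction hw with
  | rel x y hxy => intro t t' ht ht' e e'; exact F_step hC hxy ht ht' e e'
  | refl x => intro t t' ht ht' e e'; exact F_lab hC ht ht' (e.trans e'.symm)
  | symm x y _ ih => intro t t' ht ht' e e'; exact (ih ht' ht e' e).symm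
  | trans x y z hxy _ ih1 ih2 =>
    intro t t' ht ht' e e'
    have hg : Gauss y := (FreeEq_gauss hxy).1 (e ▸ ht.gauss)
    obtain ⟨s, hs, es⟩ := exists_lab y hg
    exact (ih1 ht hs e es).trans (ih2 hs ht' es e')

lemma Sys_empty {C : List ℕ → Prop} (hC : RR C) (T : Finset ℕ) {t : List ℕ} (ht : t.Nodup) :
    CC C (Sys ∅ T t) ↔ C t := by
  have e1 : (Sys ∅ T t).Perm (Ew (0, false) [] t (1, false) ++ (t.map xp ++ [cl])) := by
    unfold Sys Bd
    apply List.Perm.append_left
    simp only [Finset.notMem_empty, not_false_eq_true, decide_true, List.filter_true,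
      Finset.toList_empty, List.flatMap_nil, List.append_nil]
    exact (List.perm_append_comm (l₁ := t.map xp) (l₂ := [cl])).symm
  rw [CC_perm e1]
  rw [col hC t ht (0, false) [] (1, false) [cl]
    (fun x _ => by constructor <;> simp only [Lx, Rx, ne_eq] <;> omega)
    (fun x _ => ⟨fresh_cl (by unfold Lx; omega) (fresh_nil _),
      fresh_cl (by unfold Rx; omega) (fresh_nil _)⟩)]
  have j := join hC (0, false) ([] ++ t) (1, false) [] (0, true) [] (fresh_nil _) (by simp)
  have e2 : cl = (du (1, false), [], (0, true)) := rfl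
  rw [e2, j, List.append_nil, List.nil_append]
  exact CC_single hC (0, false) t

lemma F_good {h : ℕ} {Cl : List ℕ → Prop} (hC : Cls h Cl) {t : List ℕ} (ht : Lab t)
    (hh : strip^[h] (t.map half) = []) : F h Cl t = ind (Cl (t.map half)) := by
  have hK : KK h (t.map half) = ∅ := by unfold KK; rw [hh]; rfl
  unfold F
  rw [hK]
  simp only [Finset.powerset_empty, Finset.sum_singleton]
  exact ind_congr (Sys_empty (CT_RR hC) ∅ ht.nd)

/-- every word equivalent to a word of height at most `h` has a smoothing of all the chords of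
level above `h` which is equivalent to it inside the words of height at most `h` -/
theorem height_general (h : ℕ) (w w' : List ℕ) (hw : Gauss w) (hh : strip^[h] w = [])
    (heq : FreeEq w w') :
    ∃ v, HEq h w v ∧ v.Perm (w'.filter (fun a => decide (a ∉ strip^[h] w'))) ∧
      (strip^[h] w' = [] → HEq h w w') := by
  have hC := class_Cls (h := h) (w0 := w) ⟨hw, hh⟩
  have hw' : Gauss w' := (FreeEq_gauss heq).1 hw
  obtain ⟨t, ht, et⟩ := exists_lab w hw
  obtain ⟨t', ht', et'⟩ := exists_lab w' hw'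
  have h1 : F h (HEq h w) t = 1 := by
    rw [F_good hC ht (by rw [et]; exact hh), et]
    exact ind_true (.refl _)
  have h2 := F_inv hC heq ht ht' et et'
  rw [h1] at h2
  have h3 : strip^[h] w' = [] → HEq h w w' := by
    intro hn
    rw [F_good hC ht' (by rw [et']; exact hn), et'] at h2
    by_contra hcon
    rw [ind_false hcon] at h2
    exact absurd h2 (by decide)
  -- some state is in the class
  have h4 : ∃ T ∈ (KK h (t'.map half)).powerset,
      CC (CT (HEq h w)) (Sys (KK h (t'.map half)) T t') := by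
    by_contra hcon
    push Not at hcon
    unfold F at h2
    rw [Finset.sum_eq_zero (fun T hT => ind_false (hcon T hT))] at h2
    exact absurd h2 (by decide)
  obtain ⟨T, _, l, p, h5, h6, h7⟩ := h4
  refine ⟨(word l).map half, h7, ?_, h3⟩
  have h8 := (word_perm h6).map half
  rw [word_Sys] at h8
  refine h8.trans ?_
  rw [et', ← et', List.filter_map, et']
  apply List.Perm.of_eq
  congr 1
  apply List.filter_congr
  intro x _
  simp [KK]

end Pool.Agent.Run7.h906
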