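import Mathlib
import Pool.Agent.Run7.h906.Final

set_option linter.unusedSimpArgs false

namespace Pool.Agent.Run7.h906

/-! ### deleting odd chords respects the moves -/

lemma free_strip (k : ℕ) {a b : List ℕ} (h : FreeEq a b) :
    FreeEq (strip^[k] a) (strip^[k] b) := by
  induction h with
  | rel x y hxy =>
    obtain ⟨hg, hg', hm⟩ := hxy
    have hi := hg.iter k
    have hi' := hg'.iter k
    rcases hm with hm | hm
    · cases hm with
      | rot U V =>
        obtain ⟨u', v', e1, e2⟩ := iter_rot k hg
        rw [e1] at hi
        rw [e2] at hi'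
        rw [e1, e2]
        exact .rel _ _ ⟨hi, hi', Or.inl (Move.rot u' v')⟩
      | rev =>
        rw [iter_rev k hg] at hi' ⊢
        exact .rel _ _ ⟨hi, hi', Or.inl (Move.rev _)⟩
      | ren σ =>
        rw [iter_ren k σ hg] at hi' ⊢
        exact .rel _ _ ⟨hi, hi', Or.inl (Move.ren σ _)⟩
      | anti a b U V hab =>
        obtain ⟨U', V', e1, e2⟩ := iter_two k hab (Or.inr rfl) hg
        rcases e2 with e2 | e2
        · rw [e1] at hi'
          rw [e2] at hi
          rw [e1, e2]
          exact .rel _ _ ⟨hi, hi', Or.inl (Move.anti a b U' V' hab)⟩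
        · rw [e1, e2]
          exact .refl _
      | par a b U V hab =>
        obtain ⟨U', V', e1, e2⟩ := iter_two k hab (Or.inl rfl) hg
        rcases e2 with e2 | e2
        · rw [e1] at hi'
          rw [e2] at hi
          rw [e1, e2]
          exact .rel _ _ ⟨hi, hi', Or.inl (Move.par a b U' V' hab)⟩
        · rw [e1, e2]
          exact .refl _
      | three a b c p q r U V W hab hac hbc hp hq hr =>
        have htr : Tri a b c p q r := ⟨hab, hac, hbc, hp, hq, hr⟩
        rcases iter_three (U := U) (V := V) (W := W) k htr hg with ⟨U', V', W', e1, e2⟩ | ⟨e1, _⟩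
        · have e1' : strip^[k] (p ++ U ++ q ++ V ++ r ++ W) = tw p q r U' V' W' := e1
          have e2' : strip^[k] (p.reverse ++ U ++ q.reverse ++ V ++ r.reverse ++ W) =
            tw p.reverse q.reverse r.reverse U' V' W' := e2
          rw [e1'] at hi
          rw [e2'] at hi'
          rw [e1', e2']
          exact .rel _ _ ⟨hi, hi', Or.inl (Move.three a b c p q r U' V' W' hab hac hbc hp hq hr)⟩
        · have e1' : strip^[k] (p ++ U ++ q ++ V ++ r ++ W) =
            strip^[k] (p.reverse ++ U ++ q.reverse ++ V ++ r.reverse ++ W) := e1
          rw [e1']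
          exact .refl _
    · cases hm with
      | one a U =>
        rw [iter_one k hg] at hi ⊢
        exact .rel _ _ ⟨hi, hi', Or.inr (One.one a _)⟩
  | refl x => exact .refl _
  | symm x y _ ih => exact .symm _ _ ih
  | trans x y z _ _ ih1 ih2 => exact .trans _ _ _ ih1 ih2

lemma strip_len (w : List ℕ) : (strip w).length ≤ w.length := by
  unfold strip
  exact List.length_filter_le _ _

lemma strip_fix {w : List ℕ} (h : (strip w).length = w.length) : strip w = w := by
  unfold strip at h ⊢
  rw [List.length_filter_eq_length_iff] at h
  rw [List.filter_eq_self]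
  exact h

lemma strip_iter_len (n : ℕ) (w : List ℕ) : (strip^[n] w).length ≤ w.length := by
  induction n generalizing w with
  | zero => exact le_refl _
  | succ n ih => exact (ih (strip w)).trans (strip_len w)

lemma strip_stable (n : ℕ) : ∀ w : List ℕ, w.length ≤ n →
    strip (strip^[n] w) = strip^[n] w := by
  induction n with
  | zero =>
    intro w hw
    have : w = [] := List.length_eq_zero_iff.1 (by omega)
    subst this
    rfl
  | succ n ih =>
    intro w hw
    by_cases h : strip w = w
    · have : strip^[n + 1] w = w := Function.iterate_fixed h _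
      rw [this]
      exact h
    · rw [Function.iterate_succ_apply]
      apply ih
      have h1 := strip_len w
      have h2 : (strip w).length ≠ w.length := fun hh => h (strip_fix hh)
      omega

/-! ### normal form of even words -/

def inter : List ℕ → List ℕ → List ℕ
  | x :: xs, y :: ys => x :: y :: inter xs ys
  | _, _ => []

def evs : List ℕ → List ℕ
  | x :: _ :: w => x :: evs w
  | _ => []

def ods : List ℕ → List ℕ
  | _ :: y :: w => y :: ods w
  | _ => []

lemma inter_evs : ∀ (n : ℕ) (w : List ℕ), w.length = 2 * n →
    inter (evs w) (ods w) = w ∧ (evs w).length = n ∧ (ods w).length = n := by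
  intro n
  induction n with
  | zero =>
    intro w hw
    have : w = [] := List.length_eq_zero_iff.1 (by omega)
    subst this
    exact ⟨rfl, rfl, rfl⟩
  | succ n ih =>
    intro w hw
    match w, hw with
    | [], hw => simp at hw
    | [x], hw => simp at hw; omega
    | x :: y :: w, hw =>
      obtain ⟨h1, h2, h3⟩ := ih w (by simp only [List.length_cons] at hw; omega)
      exact ⟨by simp [evs, ods, inter, h1], by simp [evs, h2], by simp [ods, h3]⟩

lemma inter_count : ∀ (X Y : List ℕ), X.length = Y.length → ∀ a,
    (inter X Y).count a = X.count a + Y.count a ∧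
    ps a (inter X Y) % 2 = Y.count a % 2 := by
  intro X
  induction X with
  | nil =>
    intro Y hY a
    have : Y = [] := List.length_eq_zero_iff.1 (by simpa using hY.symm)
    subst this
    simp [inter, ps]
  | cons x X ih =>
    intro Y hY a
    match Y, hY with
    | [], hY => simp at hY
    | y :: Y, hY =>
      obtain ⟨h1, h2⟩ := ih Y (by simpa using hY) a
      constructor
      · simp only [inter, List.count_cons, h1]
        omega
      · simp only [inter, ps, List.count_cons]
        omega

lemma inter_map (f : ℕ → ℕ) : ∀ (X Y : List ℕ), (inter X Y).map f = inter (X.map f) (Y.map f) := by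
  intro X
  induction X with
  | nil => intro Y; simp [inter]
  | cons x X ih =>
    intro Y
    cases Y with
    | nil => simp [inter]
    | cons y Y => simp [inter, ih]

lemma rename_range (X : List ℕ) (hX : X.Nodup) :
    ∃ σ : Equiv.Perm ℕ, X.map σ = List.range X.length := by
  induction X using List.reverseRecOn with
  | nil => exact ⟨Equiv.refl _, rfl⟩
  | append_singleton X x ih =>
    rw [List.nodup_append] at hX
    obtain ⟨hX1, _, hX2⟩ := hX
    obtain ⟨σ, hσ⟩ := ih hX1
    have hx : x ∉ X := fun hh => hX2 x hh x (by simp) rfl
    have hy : ∀ z ∈ X, σ z < X.length := by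
      intro z hz
      have : σ z ∈ X.map σ := List.mem_map_of_mem hz
      rw [hσ, List.mem_range] at this
      exact this
    have hy2 : ¬ σ x < X.length := by
      intro hh
      have : σ x ∈ X.map σ := by rw [hσ, List.mem_range]; exact hh
      rw [List.mem_map] at this
      obtain ⟨z, hz, hz2⟩ := this
      rw [σ.injective hz2] at hz
      exact hx hz
    refine ⟨σ.trans (Equiv.swap (σ x) X.length), ?_⟩
    rw [List.map_append, List.length_append, List.length_singleton, List.range_succ]
    congr 1
    · rw [← hσ]
      apply List.map_congr_left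
      intro z hz
      rw [Equiv.trans_apply]
      apply Equiv.swap_apply_of_ne_of_ne
      · intro hh
        rw [σ.injective hh] at hz
        exact hx hz
      · have := hy z hz
        omega
    · simp

/-- even words are interleavings -/
lemma even_form {w : List ℕ} (hw : Gauss w) (he : strip w = w) {n : ℕ} (hn : w.length = 2 * n) :
    ∃ (σ : Equiv.Perm ℕ) (l : List ℕ), w.map σ = inter (List.range n) l ∧
      l.Perm (List.range n) := by
  obtain ⟨h1, h2, h3⟩ := inter_evs n w hn
  set X := evs w with hX
  set Y := ods w with hY
  have hcnt : ∀ a, X.count a = Y.count a ∧ X.count a ≤ 1 := by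
    intro a
    obtain ⟨c1, c2⟩ := inter_count X Y (h2.trans h3.symm) a
    rw [h1] at c1 c2
    by_cases ha : a ∈ w
    · have c3 := hw a ha
      have c4 : a ∈ strip w := by rw [he]; exact ha
      rw [strip_eq hw, List.mem_filter] at c4
      have c5 := c4.2
      unfold evn at c5
      simp only [beq_iff_eq] at c5
      omega
    · have c3 := List.count_eq_zero.2 ha
      omega
  have hnd : X.Nodup := List.nodup_iff_count_le_one.2 (fun a => (hcnt a).2)
  have hper : Y.Perm X := List.perm_iff_count.2 (fun a => (hcnt a).1.symm)
  obtain ⟨σ, hσ⟩ := rename_range X hnd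
  refine ⟨σ, Y.map σ, ?_, ?_⟩
  · rw [← h1, inter_map, hσ, h2]
  · have := hper.map σ
    rw [hσ, h2] at this
    exact this

/-! ### enumeration -/

def insAll (n : ℕ) : List ℕ → List (List ℕ)
  | [] => [[n]]
  | x :: l => (n :: x :: l) :: (insAll n l).map (fun t => x :: t)

def perms : ℕ → List (List ℕ)
  | 0 => [[]]
  | n + 1 => (perms n).flatMap (insAll n)

lemma mem_insAll (n : ℕ) (A B : List ℕ) : A ++ (n :: B) ∈ insAll n (A ++ B) := by
  induction A with
  | nil => cases B <;> simp [insAll]
  | cons x A ih =>
    simp only [List.cons_append, insAll, List.mem_cons, List.mem_map]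
    exact Or.inr ⟨_, ih, rfl⟩

lemma mem_perms (n : ℕ) : ∀ l : List ℕ, l.Perm (List.range n) → l ∈ perms n := by
  induction n with
  | zero =>
    intro l hl
    have : l = [] := List.Perm.eq_nil hl
    simp [perms, this]
  | succ n ih =>
    intro l hl
    have hn : n ∈ l := hl.mem_iff.2 (by simp)
    obtain ⟨A, B, rfl⟩ := List.append_of_mem hn
    have h1 : (A ++ B).Perm (List.range n) := by
      have h2 : (n :: (A ++ B)).Perm (n :: List.range n) := by
        refine List.perm_middle.symm.trans (hl.trans ?_)
        rw [List.range_succ]
        exact List.perm_append_comm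
      exact (List.perm_cons n).1 h2
    simp only [perms, List.mem_flatMap]
    exact ⟨A ++ B, ih _ h1, mem_insAll n A B⟩

end Pool.Agent.Run7.h906
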