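import Mathlib
import Pool.Agent.Run7.h906.HeptA

set_option linter.unusedSimpArgs false

namespace Pool.Agent.Run7.h906

/-! ### a search for reductions -/

/-- `a b` or `b a` occurs in the word -/
def hasPair (a b : ℕ) : List ℕ → Bool
  | x :: y :: R => (Nat.beq x a && Nat.beq y b) || (Nat.beq x b && Nat.beq y a) ||
      hasPair a b (y :: R)
  | _ => false

/-- the word starts with a kink or a bigon -/
def chk0 : List ℕ → Bool
  | a :: b :: R => Nat.beq a b || hasPair a b R
  | _ => false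

/-- all ways to select two neighbouring letters -/
def splits : List ℕ → List (List ℕ × ℕ × ℕ × List ℕ)
  | x :: y :: R => ([], x, y, R) :: (splits (y :: R)).map (fun t => (x :: t.1, t.2))
  | _ => []

/-- `{r1, r2} = {t, z}` with `z` different from `a` and `b` -/
def tri2 (a b t z r1 r2 : ℕ) : Bool :=
  !(Nat.beq z a) && !(Nat.beq z b) &&
    ((Nat.beq r1 t && Nat.beq r2 z) || (Nat.beq r1 z && Nat.beq r2 t))

def isTri (a b q1 q2 r1 r2 : ℕ) : Bool :=
  (Nat.beq q1 a && tri2 a b b q2 r1 r2) || (Nat.beq q2 a && tri2 a b b q1 r1 r2) ||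
  (Nat.beq q1 b && tri2 a b a q2 r1 r2) || (Nat.beq q2 b && tri2 a b a q1 r1 r2)

/-- results of third moves using the first two letters `a`, `b` -/
def m3 (a b : ℕ) (R : List ℕ) : List (List ℕ) :=
  (splits R).flatMap fun t =>
    if (Nat.beq t.2.1 a || Nat.beq t.2.1 b || Nat.beq t.2.2.1 a || Nat.beq t.2.2.1 b) = true then
      (splits t.2.2.2).flatMap fun s =>
        if isTri a b t.2.1 t.2.2.1 s.2.1 s.2.2.1 = true then
          [[b, a] ++ t.1 ++ [t.2.2.1, t.2.1] ++ s.1 ++ [s.2.2.1, s.2.1] ++ s.2.2.2]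
        else []
    else []

def rots (w : List ℕ) : List (List ℕ) :=
  (List.range w.length).map (fun i => w.drop i ++ w.take i)

def third (w : List ℕ) : List (List ℕ) :=
  (rots w).flatMap fun r =>
    match r with
    | a :: b :: R => if Nat.beq a b = true then [] else m3 a b R
    | _ => []

/-- the word can be shortened after at most `d` third moves -/
def good : ℕ → List ℕ → Bool
  | 0, w => (rots w).any chk0
  | d + 1, w => good 0 w || (third w).any (good d)

lemma nbeq (a b : ℕ) : (Nat.beq a b = true) = (a = b) :=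
  propext ⟨Nat.eq_of_beq_eq_true, fun h => by rw [h]; exact Nat.beq_refl b⟩

lemma hasPair_sound {a b : ℕ} : ∀ {R : List ℕ}, hasPair a b R = true →
    ∃ U s V, R = U ++ s ++ V ∧ (s = [a, b] ∨ s = [b, a]) := by
  intro R
  induction R with
  | nil => intro h; simp [hasPair] at h
  | cons x R ih =>
    intro h
    cases R with
    | nil => simp [hasPair] at h
    | cons y R =>
      simp only [hasPair, Bool.or_eq_true, Bool.and_eq_true, nbeq] at h
      rcases h with (⟨rfl, rfl⟩ | ⟨rfl, rfl⟩) | h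
      · exact ⟨[], [x, y], R, by simp, Or.inl rfl⟩
      · exact ⟨[], [x, y], R, by simp, Or.inr rfl⟩
      · obtain ⟨U, s, V, e, hs⟩ := ih h
        exact ⟨x :: U, s, V, by rw [e]; simp, hs⟩

lemma splits_sound : ∀ {R : List ℕ} {t : List ℕ × ℕ × ℕ × List ℕ}, t ∈ splits R →
    R = t.1 ++ [t.2.1, t.2.2.1] ++ t.2.2.2 := by
  intro R
  induction R with
  | nil => intro t h; simp [splits] at h
  | cons x R ih =>
    intro t h
    cases R with
    | nil => simp [splits] at h
    | cons y R =>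
      simp only [splits, List.mem_cons, List.mem_map] at h
      rcases h with rfl | ⟨s, hs, rfl⟩
      · simp
      · have := ih hs
        simp only [List.cons_append]
        rw [this]

lemma rots_sound {w r : List ℕ} (hw : Gauss w) (hr : r ∈ rots w) :
    FreeEq w r ∧ Gauss r ∧ r.length = w.length := by
  simp only [rots, List.mem_map, List.mem_range] at hr
  obtain ⟨i, _, rfl⟩ := hr
  have e1 : w = w.take i ++ w.drop i := (List.take_append_drop i w).symm
  have hw2 : Gauss (w.take i ++ w.drop i) := by rw [← e1]; exact hw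
  have hg : Gauss (w.drop i ++ w.take i) := hw2.perm List.perm_append_comm
  refine ⟨?_, hg, ?_⟩
  · have h1 := Move.rot (w.take i) (w.drop i)
    rw [← e1] at h1
    exact .rel _ _ ⟨hw, hg, Or.inl h1⟩
  · rw [List.length_append, Nat.add_comm, ← List.length_append, ← e1]

lemma chk0_sound {r : List ℕ} (hr : Gauss r) (h : chk0 r = true) :
    ∃ w', FreeEq r w' ∧ Gauss w' ∧ w'.length < r.length := by
  match r, hr, h with
  | [], _, h => simp [chk0] at h
  | [x], _, h => simp [chk0] at h
  | a :: b :: R, hr, h =>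
    simp only [chk0, Bool.or_eq_true, nbeq] at h
    by_cases hab : a = b
    · subst hab
      obtain ⟨_, hg⟩ := hr.one
      exact ⟨R, .rel _ _ ⟨hr, hg, Or.inr (One.one a R)⟩, hg, by simp⟩
    · rcases h with h | h
      · exact absurd h hab
      · obtain ⟨U, s, V, e, hs⟩ := hasPair_sound h
        have e2 : a :: b :: R = [a, b] ++ U ++ s ++ V := by rw [e]; simp
        rw [e2] at hr ⊢
        obtain ⟨_, _, _, _, hg⟩ := hr.two hab hs
        refine ⟨U ++ V, ?_, hg, ?_⟩
        · rcases hs with rfl | rfl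
          · exact .rel _ _ ⟨hr, hg, Or.inl (Move.par a b U V hab)⟩
          · exact .rel _ _ ⟨hr, hg, Or.inl (Move.anti a b U V hab)⟩
        · simp only [List.length_append, List.length_cons, List.length_nil]
          omega

lemma tri2_sound {a b t z r1 r2 : ℕ} (h : tri2 a b t z r1 r2 = true) :
    z ≠ a ∧ z ≠ b ∧ (([r1, r2] : List ℕ) = [t, z] ∨ ([r1, r2] : List ℕ) = [z, t]) := by
  simp only [tri2, Bool.and_eq_true, Bool.or_eq_true, Bool.not_eq_true', nbeq] at h
  obtain ⟨⟨h1, h2⟩, h3⟩ := h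
  have n1 : z ≠ a := by
    rintro rfl
    simp at h1
  have n2 : z ≠ b := by
    rintro rfl
    simp at h2
  refine ⟨n1, n2, ?_⟩
  rcases h3 with ⟨rfl, rfl⟩ | ⟨rfl, rfl⟩
  · exact Or.inl rfl
  · exact Or.inr rfl

lemma isTri_sound {a b q1 q2 r1 r2 : ℕ} (hab : a ≠ b) (h : isTri a b q1 q2 r1 r2 = true) :
    ∃ x y z, Tri x y z [a, b] [q1, q2] [r1, r2] := by
  simp only [isTri, Bool.or_eq_true, Bool.and_eq_true, nbeq] at h
  rcases h with ((⟨rfl, h⟩ | ⟨rfl, h⟩) | ⟨rfl, h⟩) | ⟨rfl, h⟩
  · obtain ⟨h1, h2, h3⟩ := tri2_sound h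
    exact ⟨q1, b, q2, hab, h1.symm, h2.symm, Or.inl rfl, Or.inl rfl, h3⟩
  · obtain ⟨h1, h2, h3⟩ := tri2_sound h
    exact ⟨q2, b, q1, hab, h1.symm, h2.symm, Or.inl rfl, Or.inr rfl, h3⟩
  · obtain ⟨h1, h2, h3⟩ := tri2_sound h
    exact ⟨q1, a, q2, hab.symm, h2.symm, h1.symm, Or.inr rfl, Or.inl rfl, h3⟩
  · obtain ⟨h1, h2, h3⟩ := tri2_sound h
    exact ⟨q2, a, q1, hab.symm, h2.symm, h1.symm, Or.inr rfl, Or.inr rfl, h3⟩

lemma m3_sound {a b : ℕ} {R v : List ℕ} (hab : a ≠ b) (hr : Gauss (a :: b :: R))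
    (hv : v ∈ m3 a b R) : FreeEq (a :: b :: R) v ∧ Gauss v ∧ v.length = (a :: b :: R).length := by
  simp only [m3, List.mem_flatMap] at hv
  obtain ⟨t, ht, hv⟩ := hv
  split_ifs at hv with h1
  · simp only [List.mem_flatMap] at hv
    obtain ⟨s, hs, hv⟩ := hv
    split_ifs at hv with h2
    · rw [List.mem_singleton] at hv
      obtain ⟨x, y, z, htr⟩ := isTri_sound hab h2
      have e1 := splits_sound ht
      have e2 := splits_sound hs
      have e3 : a :: b :: R = tw [a, b] [t.2.1, t.2.2.1] [s.2.1, s.2.2.1] t.1 s.1 s.2.2.2 := by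
        rw [e1, e2]
        simp [tw]
      have e4 : v = tw [a, b].reverse [t.2.1, t.2.2.1].reverse [s.2.1, s.2.2.1].reverse
          t.1 s.1 s.2.2.2 := by
        rw [hv]
        simp [tw]
      rw [e3] at hr ⊢
      rw [e4]
      have hg := hr.perm (htr.perm t.1 s.1 s.2.2.2)
      refine ⟨.rel _ _ ⟨hr, hg, Or.inl ?_⟩, hg, (htr.perm _ _ _).length_eq.symm⟩
      exact Move.three x y z _ _ _ _ _ _ htr.hab htr.hac htr.hbc htr.hp htr.hq htr.hr
    · simp at hv
  · simp at hv

lemma third_sound {w v : List ℕ} (hw : Gauss w) (hv : v ∈ third w) :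
    FreeEq w v ∧ Gauss v ∧ v.length = w.length := by
  simp only [third, List.mem_flatMap] at hv
  obtain ⟨r, hr, hv⟩ := hv
  obtain ⟨h1, h2, h3⟩ := rots_sound hw hr
  match r, hr, hv, h1, h2, h3 with
  | [], _, hv, _, _, _ => simp at hv
  | [x], _, hv, _, _, _ => simp at hv
  | a :: b :: R, _, hv, h1, h2, h3 =>
    simp only at hv
    split_ifs at hv with h4
    · simp at hv
    · have hab : a ≠ b := by
        rintro rfl
        simp at h4
      obtain ⟨g1, g2, g3⟩ := m3_sound hab h2 hv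
      exact ⟨.trans _ _ _ h1 g1, g2, g3.trans h3⟩

lemma good_sound (d : ℕ) : ∀ {w : List ℕ}, Gauss w → good d w = true →
    ∃ w', FreeEq w w' ∧ Gauss w' ∧ w'.length < w.length := by
  have h0 : ∀ {w : List ℕ}, Gauss w → good 0 w = true →
      ∃ w', FreeEq w w' ∧ Gauss w' ∧ w'.length < w.length := by
    intro w hw h
    simp only [good, List.any_eq_true] at h
    obtain ⟨r, hr, h⟩ := h
    obtain ⟨h1, h2, h3⟩ := rots_sound hw hr
    obtain ⟨w', g1, g2, g3⟩ := chk0_sound h2 h
    exact ⟨w', .trans _ _ _ h1 g1, g2, by omega⟩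
  induction d with
  | zero => exact h0
  | succ d ih =>
    intro w hw h
    simp only [good, Bool.or_eq_true, List.any_eq_true] at h
    rcases h with h | ⟨v, hv, h⟩
    · apply h0 hw
      simp only [good, List.any_eq_true]
      exact h
    · obtain ⟨h1, h2, h3⟩ := third_sound hw hv
      obtain ⟨w', g1, g2, g3⟩ := ih h2 h
      exact ⟨w', .trans _ _ _ h1 g1, g2, by omega⟩

end Pool.Agent.Run7.h906
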