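import Mathlib
import Pool.Agent.Run7.h906.Defs

namespace Pool.Agent.Run7.h906

/-- the heptagon word -/
def H7 : List ℕ := [1, 7, 2, 1, 3, 2, 4, 3, 5, 4, 6, 5, 7, 6]

end Pool.Agent.Run7.h906
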