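import Mathlib
import Pool.Agent.Run7.h906.HeptB
import Pool.Agent.Run7.h906.HeptDefs

set_option linter.unusedSimpArgs false

namespace Pool.Agent.Run7.h906

lemma hck1 : (perms 1).all (fun l => good 0 (inter (List.range 1) l)) = true := by
  decide +kernel

lemma hck2 : (perms 2).all (fun l => good 0 (inter (List.range 2) l)) = true := by
  decide +kernel

lemma hck3 : (perms 3).all (fun l => good 0 (inter (List.range 3) l)) = true := by
  decide +kernel

lemma hck4 : (perms 4).all (fun l => good 0 (inter (List.range 4) l)) = true := by
  decide +kernel

lemma hck5 : (perms 5).all (fun l => good 1 (inter (List.range 5) l)) = true := by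
  decide +kernel

lemma hck6 : (perms 6).all (fun l => good 2 (inter (List.range 6) l)) = true := by
  decide +kernel

lemma hck7 : (perms 7).all (fun l => good 3 (inter (List.range 7) l) ||
    decide (l = [6, 0, 1, 2, 3, 4, 5]) || decide (l = [2, 3, 4, 5, 6, 0, 1])) = true := by
  decide +kernel

end Pool.Agent.Run7.h906
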