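import Mathlib
import Pool.Agent.Run7.h906.HeptC

set_option linter.unusedSimpArgs false

namespace Pool.Agent.Run7.h906

/-- the word is the heptagon up to cyclic shift and renaming -/
def IsH7 (w : List ℕ) : Prop := ∃ (n : ℕ) (σ : Equiv.Perm ℕ), w = (H7.rotate n).map σ

lemma IsH7.length {w : List ℕ} (h : IsH7 w) : w.length = 14 := by
  obtain ⟨n, σ, rfl⟩ := h
  rw [List.length_map, List.length_rotate]
  rfl

lemma IsH7.of_map {w : List ℕ} (τ : Equiv.Perm ℕ) (h : IsH7 (w.map τ)) : IsH7 w := by
  obtain ⟨n, σ, h⟩ := h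
  refine ⟨n, σ.trans τ.symm, ?_⟩
  have : (w.map τ).map τ.symm = w := by
    rw [List.map_map]
    conv_rhs => rw [← List.map_id w]
    apply List.map_congr_left
    intro a _
    simp
  rw [← this, h, List.map_map]
  rfl

lemma isH7_1 : IsH7 (inter (List.range 7) [6, 0, 1, 2, 3, 4, 5]) := by
  refine ⟨0, (rename_range [1, 2, 3, 4, 5, 6, 7] (by decide)).choose, ?_⟩
  have h := (rename_range [1, 2, 3, 4, 5, 6, 7] (by decide)).choose_spec
  set σ := (rename_range [1, 2, 3, 4, 5, 6, 7] (by decide)).choose
  simp only [List.map_cons, List.map_nil, List.length_cons, List.length_nil] at h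
  have h2 : List.range (0 + 1 + 1 + 1 + 1 + 1 + 1 + 1) = [0, 1, 2, 3, 4, 5, 6] := by decide
  rw [h2] at h
  simp only [List.cons.injEq, and_true] at h
  obtain ⟨h1, h2, h3, h4, h5, h6, h7⟩ := h
  simp only [H7, List.rotate_zero, List.map_cons, List.map_nil, h1, h2, h3, h4, h5, h6, h7]
  decide

lemma isH7_2 : IsH7 (inter (List.range 7) [2, 3, 4, 5, 6, 0, 1]) := by
  refine ⟨1, (rename_range [7, 1, 2, 3, 4, 5, 6] (by decide)).choose, ?_⟩
  have h := (rename_range [7, 1, 2, 3, 4, 5, 6] (by decide)).choose_spec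
  set σ := (rename_range [7, 1, 2, 3, 4, 5, 6] (by decide)).choose
  simp only [List.map_cons, List.map_nil, List.length_cons, List.length_nil] at h
  have h2 : List.range (0 + 1 + 1 + 1 + 1 + 1 + 1 + 1) = [0, 1, 2, 3, 4, 5, 6] := by decide
  rw [h2] at h
  simp only [List.cons.injEq, and_true] at h
  obtain ⟨h1, h2, h3, h4, h5, h6, h7⟩ := h
  have h8 : H7.rotate 1 = [7, 2, 1, 3, 2, 4, 3, 5, 4, 6, 5, 7, 6, 1] := by decide
  rw [h8]
  simp only [List.map_cons, List.map_nil, h1, h2, h3, h4, h5, h6, h7]
  decide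

lemma check_all {n : ℕ} (h0 : 0 < n) (h7 : n ≤ 7) {l : List ℕ} (hl : l ∈ perms n) :
    (∃ d, good d (inter (List.range n) l) = true) ∨ IsH7 (inter (List.range n) l) := by
  have hc : n = 1 ∨ n = 2 ∨ n = 3 ∨ n = 4 ∨ n = 5 ∨ n = 6 ∨ n = 7 := by omega
  rcases hc with rfl | rfl | rfl | rfl | rfl | rfl | rfl
  · exact Or.inl ⟨_, List.all_eq_true.1 hck1 l hl⟩
  · exact Or.inl ⟨_, List.all_eq_true.1 hck2 l hl⟩
  · exact Or.inl ⟨_, List.all_eq_true.1 hck3 l hl⟩
  · exact Or.inl ⟨_, List.all_eq_true.1 hck4 l hl⟩
  · exact Or.inl ⟨_, List.all_eq_true.1 hck5 l hl⟩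
  · exact Or.inl ⟨_, List.all_eq_true.1 hck6 l hl⟩
  · have h := List.all_eq_true.1 hck7 l hl
    simp only [Bool.or_eq_true, decide_eq_true_eq] at h
    rcases h with (h | rfl) | rfl
    · exact Or.inl ⟨_, h⟩
    · exact Or.inr isH7_1
    · exact Or.inr isH7_2

lemma iter_fix {w : List ℕ} (h : strip w = w) (k : ℕ) : strip^[k] w = w :=
  Function.iterate_fixed h k

/-- even words with at most seven chords -/
lemma even_le7 : ∀ (L : ℕ) (w : List ℕ), w.length = L → L ≤ 14 → Gauss w → strip w = w →
    FreeEq w [] ∨ IsH7 w := by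
  intro L
  induction L using Nat.strong_induction_on with
  | _ L ih =>
    intro w hL h14 hw he
    have hpar := hw.even_length
    obtain ⟨n, hn⟩ : ∃ n, w.length = 2 * n := ⟨w.length / 2, by omega⟩
    by_cases h0 : n = 0
    · left
      have : w = [] := List.length_eq_zero_iff.1 (by omega)
      subst this
      exact .refl _
    obtain ⟨σ, l, e, hl⟩ := even_form hw he hn
    have hwσ : FreeEq w (w.map σ) := .rel _ _ ⟨hw, hw.map σ, Or.inl (Move.ren σ w)⟩
    rcases check_all (by omega) (by omega) (mem_perms n l hl) with ⟨d, hd⟩ | h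
    · left
      rw [← e] at hd
      obtain ⟨w', f1, g1, l1⟩ := good_sound d (hw.map σ) hd
      have f2 := free_strip w'.length f1
      have f3 : strip^[w'.length] (w.map σ) = w.map σ := by
        rw [iter_ren _ σ hw, iter_fix he]
      rw [f3] at f2
      have l2 := strip_iter_len w'.length w'
      rw [List.length_map] at l1
      have h3 := ih (strip^[w'.length] w').length (by omega) _ rfl (by omega) (g1.iter _)
        (strip_stable _ w' (le_refl _))
      rcases h3 with h3 | h3
      · exact hwσ.trans _ _ _ (f2.trans _ _ _ h3)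
      · have := h3.length
        omega
    · right
      rw [← e] at h
      exact h.of_map σ

theorem even_general (u : List ℕ) (hu : Gauss u) (he : strip u = u) :
    FreeEq u [] ∨ ∀ w, FreeEq w u → 14 ≤ w.length ∧ (w.length = 14 → IsH7 w) := by
  by_cases hF : FreeEq u []
  · exact Or.inl hF
  right
  intro w hw
  have hgw : Gauss w := (FreeEq_gauss hw).2 hu
  have key : w.length ≤ 14 → w.length = 14 ∧ IsH7 w := by
    intro hlen
    have f2 := free_strip w.length hw
    rw [iter_fix he] at f2
    have l2 := strip_iter_len w.length w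
    rcases even_le7 _ (strip^[w.length] w) rfl (by omega) (hgw.iter _)
      (strip_stable _ w (le_refl _)) with h | h
    · exact absurd ((Relation.EqvGen.symm _ _ f2).trans _ _ _ h) hF
    · have l3 := h.length
      have l4 : w.length = 14 := by omega
      refine ⟨l4, ?_⟩
      have h5 : strip w = w := by
        apply strip_fix
        have l5 := strip_len w
        have l6 : (strip^[w.length] w).length ≤ (strip w).length := by
          rw [l4, Function.iterate_succ_apply]
          exact strip_iter_len 13 (strip w)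
        omega
      rw [iter_fix h5] at h
      exact h
  constructor
  · by_contra hlt
    have := (key (by omega)).1
    omega
  · intro hlen
    exact (key (by omega)).2

lemma H7_gauss : Gauss H7 := by
  unfold Gauss
  decide

lemma H7_even : strip H7 = H7 := by decide +kernel

end Pool.Agent.Run7.h906
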