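import Mathlib
import Pool.Agent.Run7.h906.Defs

/-!
The top chords of a word of height at most `g + 1` are the chords that survive `g` rounds of
deleting odd chords, that is, the chords of the highest possible level `g + 1`.
-/

namespace Pool.Agent.Run7.h906

/-- One step inside the Gauss words of height at most `g + 1`, without the first move, which
does not change the number of top chords. -/
def TStep (g : ℕ) (w w' : List ℕ) : Prop :=
  HStep (g + 1) w w' ∧ (strip^[g] w).length = (strip^[g] w').length

/-- Equivalence inside the Gauss words of height at most `g + 1` by such steps. -/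
def TEq (g : ℕ) : List ℕ → List ℕ → Prop := Relation.EqvGen (TStep g)

/-- The word starts with a bigon of top chords, so that a second move deletes two top
chords. -/
def TopBigon (g : ℕ) (w : List ℕ) : Prop :=
  ∃ (a b : ℕ) (s U V : List ℕ), a ≠ b ∧ (s = [a, b] ∨ s = [b, a]) ∧
    w = [a, b] ++ U ++ s ++ V ∧ a ∈ strip^[g] w

end Pool.Agent.Run7.h906
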