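import Mathlib
import Pool.Agent.Run7.h906.TopDefs

/-!
A computable obstruction to the appearance of a bigon of top chords.
-/

namespace Pool.Agent.Run7.h906

/-- number of pairs consisting of a place of `u` whose letter occurs exactly once in `L` and a
later place of `u` whose letter does not occur exactly once in `L` -/
def crossAux (L : List ℕ) : List ℕ → ℕ
  | [] => 0
  | x :: u => (if L.count x = 1 then (u.filter (fun y => decide (L.count y ≠ 1))).length else 0)
      + crossAux L u

/-- number of pairs of places `i < j` of `L` such that the letter at `i` occurs once in `L` and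
the letter at `j` occurs more than once -/
def cross (L : List ℕ) : ℕ := crossAux L L

/-- No two top chords `c`, `e` of `w` can form a bigon: whenever a rotation of `w` is
`cAeBcCeD` or `cAeBeCcD` with no top chord in `A` and `C`, the closed path made of `A` and `C`
has odd crossing number. -/
def Blocked (g : ℕ) (w : List ℕ) : Prop :=
  ∀ (u v A B C D : List ℕ) (c e : ℕ), w = u ++ v → c ≠ e →
    c ∈ strip^[g] w → e ∈ strip^[g] w → (∀ x ∈ A ++ C, x ∉ strip^[g] w) →
    (v ++ u = [c] ++ A ++ [e] ++ B ++ [c] ++ C ++ [e] ++ D → Odd (cross (A.reverse ++ C))) ∧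
    (v ++ u = [c] ++ A ++ [e] ++ B ++ [e] ++ C ++ [c] ++ D → Odd (cross (A ++ C)))

end Pool.Agent.Run7.h906
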