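import Mathlib
import Pool.Agent.Run7.h906.Defs

/-!
The linking form of the lower letters of a Gauss word. The places of a word are marked with
respect to a letter `c`: the mark of the first place is `k`, and the mark changes at each place
of `c`.
-/

namespace Pool.Agent.Run7.h906

/-- parity of the number of marked places of `x`; the mark starts as `k` and changes after each
place of `c` -/
def MM (c : ℕ) (x : ℕ) : Bool → List ℕ → Bool
  | _, [] => false
  | k, y :: w => xor (Nat.beq y x && k) (MM c x (xor k (Nat.beq y c)) w)

/-- parity of the number of places of `x` that are marked both for `c` (starting with `k`) and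
for `e` (starting with `l`) -/
def DD (c e : ℕ) (x : ℕ) : Bool → Bool → List ℕ → Bool
  | _, _, [] => false
  | k, l, y :: w => xor (Nat.beq y x && (k && l))
      (DD c e x (xor k (Nat.beq y c)) (xor l (Nat.beq y e)) w)

/-- contribution of the letter `x`: for a letter with two places, the parity of the number of
ordered pairs of different places of `x`, the first marked for `c`, the second for `e` -/
def ff (c e : ℕ) (x : ℕ) (k l : Bool) (w : List ℕ) : Bool :=
  xor (MM c x k w && MM e x l w) (DD c e x k l w)

def bz (b : Bool) : ZMod 2 := if b = true then 1 else 0

/-- the linking form modulo 2: the sum of the contributions of all letters of `w` that do not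
survive `g` rounds of deleting odd letters -/
def BF (g c e : ℕ) (k l : Bool) (w : List ℕ) : ZMod 2 :=
  ∑ x ∈ w.toFinset \ (strip^[g] w).toFinset, bz (ff c e x k l w)

/-- `z` is obtained from `w` by a cyclic shift and a renaming, possibly after reversal -/
def Iso (w z : List ℕ) : Prop :=
  ∃ (n : ℕ) (σ : Equiv.Perm ℕ), z = (w.rotate n).map σ ∨ z = (w.reverse.rotate n).map σ

end Pool.Agent.Run7.h906
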