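import Mathlib
import Pool.Agent.Run7.h906.LinkDefs

/-!
Smoothing a chord of a Gauss word against orientation: the part between the two places of the
letter is reversed and the letter is deleted.
-/

namespace Pool.Agent.Run7.h906

/-- `A c B c C` becomes `A B' C` with `B'` the reverse of `B`; nothing happens if `c` does not
occur -/
def sml (c : ℕ) (w : List ℕ) : List ℕ :=
  w.takeWhile (fun x => x != c) ++
    (((w.dropWhile (fun x => x != c)).tail).takeWhile (fun x => x != c)).reverse ++
    (((w.dropWhile (fun x => x != c)).tail).dropWhile (fun x => x != c)).tail

/-- `A c B c C` becomes `A c B' c C` with `B'` the reverse of `B`; nothing happens if `c` does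
not occur -/
def flp (c : ℕ) (w : List ℕ) : List ℕ :=
  if c ∈ w then
    w.takeWhile (fun x => x != c) ++
      c :: ((((w.dropWhile (fun x => x != c)).tail).takeWhile (fun x => x != c)).reverse ++
        ((w.dropWhile (fun x => x != c)).tail).dropWhile (fun x => x != c))
  else w

/-- the letters `c` and `d` are linked -/
def lnk (c d : ℕ) (w : List ℕ) : Bool :=
  decide (w.filter (fun x => x == c || x == d) = [c, d, c, d] ∨
    w.filter (fun x => x == c || x == d) = [d, c, d, c])

/-- if `c` and `d` are linked, `A c B d C c D d E` becomes `A D C B E`; otherwise nothing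
happens -/
def prs (c d : ℕ) (w : List ℕ) : List ℕ :=
  if lnk c d w = true then sml c (sml d (flp c w)) else w

/-- one operation: the pair `(c, c)` smooths `c`, the pair `(c, d)` smooths the linked letters
`c` and `d` at once -/
def act (o : ℕ × ℕ) (w : List ℕ) : List ℕ :=
  if o.1 = o.2 then sml o.1 w else prs o.1 o.2 w

/-- the operations of a list one after another -/
def acts : List (ℕ × ℕ) → List ℕ → List ℕ
  | [], w => w
  | o :: os, w => acts os (act o w)

/-- smooth the letters of a list one after another -/
def smls : List ℕ → List ℕ → List ℕ
  | [], w => w
  | c :: cs, w => smls cs (sml c w)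

end Pool.Agent.Run7.h906
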