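import Mathlib
import Pool.Agent.Run7.h906.TopDefs
import Pool.Agent.Run7.h906.BlockDefs
import Pool.Agent.Run7.h906.SmooDefs

/-!
Certificates for lower bounds on the number of letters.
-/

namespace Pool.Agent.Run7.h906

/-- a rotation of the core of `w` starts with a bigon of `c` and `e` -/
def CB (g : ℕ) (w : List ℕ) (c e : ℕ) : Prop :=
  ∃ u v U V s : List ℕ, strip^[g] w = u ++ v ∧ (s = [c, e] ∨ s = [e, c]) ∧
    v ++ u = [c, e] ++ U ++ s ++ V

/-- Any two letters `c`, `e` that form a bigon of the core of `w` are told apart by smoothings: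
for some operations `os` on other core letters, smoothing `c` first and smoothing `e` first give
different free knots. If `c` and `e` are linked, the other of the two letters is smoothed
next. -/
def Sep (g : ℕ) (w : List ℕ) : Prop :=
  ∀ c e, c ≠ e → CB g w c e → ∃ os : List (ℕ × ℕ),
    (∀ o ∈ os, (o.1 ∈ strip^[g] w ∧ o.1 ≠ c ∧ o.1 ≠ e) ∧
      (o.2 ∈ strip^[g] w ∧ o.2 ≠ c ∧ o.2 ≠ e)) ∧
    ((lnk c e w = true ∧
        ¬ FreeEq (acts ((c, c) :: (e, e) :: os) w) (acts ((e, e) :: (c, c) :: os) w)) ∨
      (lnk c e w = false ∧ ¬ FreeEq (acts ((c, c) :: os) w) (acts ((e, e) :: os) w)))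

/-- A certificate that every word of the free knot of `w` has at least `m` letters: either
`m = 0`, or `w` has height at most `g + 1` and passes the test `Blocked g` or the test `Sep g`,
some of its top letters are smoothed by the operations `os`, and the result has a certificate
for `n`, where `m = n + |w| - |acts os w|`. -/
inductive Crt : List ℕ → ℕ → Prop
  | zero (w : List ℕ) : Crt w 0
  | step (g : ℕ) (w : List ℕ) (os : List (ℕ × ℕ)) (n m : ℕ) (hw : Gauss w)
      (hh : strip^[g + 1] w = []) (hB : Blocked g w ∨ Sep g w)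
      (hos : ∀ o ∈ os, o.1 ∈ strip^[g] w ∧ o.2 ∈ strip^[g] w)
      (hn : Crt (acts os w) n) (hm : m + (acts os w).length = n + w.length) : Crt w m

end Pool.Agent.Run7.h906
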