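import Mathlib
import Pool.Agent.Run7.h906.Final

set_option linter.unusedSimpArgs false

namespace Pool.Agent.Run7.h906

/-- the words whose core is not a rearrangement of `A` -/
def BadL (g : ℕ) (A : List ℕ) (u : List ℕ) : Prop :=
  Gauss (u.map half) ∧ ¬ (strip^[g] (u.map half)).Perm A

lemma badL_RR (g : ℕ) (A : List ℕ) : RR (BadL g A) where
  rot u v := by
    rintro ⟨h1, h2⟩
    rw [List.map_append] at h1 h2
    obtain ⟨u', v', e1, e2⟩ := iter_rot g h1
    refine ⟨?_, ?_⟩
    · rw [List.map_append]
      exact h1.perm List.perm_append_comm
    · rw [List.map_append, e2]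
      rw [e1] at h2
      intro hh
      exact h2 (List.perm_append_comm.trans hh)
  rev u := by
    rintro ⟨h1, h2⟩
    refine ⟨?_, ?_⟩
    · rw [List.map_reverse]
      exact h1.perm (List.reverse_perm _).symm
    · rw [List.map_reverse, iter_rev g h1]
      intro hh
      exact h2 ((List.reverse_perm _).symm.trans hh)

lemma KK_sub (g : ℕ) (w : List ℕ) {c : ℕ} (hc : c ∈ KK g w) : c ∈ w := by
  unfold KK at hc
  rw [List.mem_toFinset] at hc
  exact iter_sub g w hc

/-- in a state where chords surviving `g` strips are smoothed, the other chords keep their
level up to `g` -/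
theorem tour_lev (g : ℕ) (t : List ℕ) (ht : Lab t) (K T : Finset ℕ)
    (hKs : K ⊆ KK g (t.map half)) :
    ¬ CC (BadL g ((strip^[g] (t.map half)).filter (fun a => decide (a ∉ K)))) (Sys K T t) := by
  induction g generalizing t with
  | zero =>
    rintro ⟨l, p, h1, h2, h3, h4⟩
    apply h4
    have hw := word_perm h2
    rw [word_Sys] at hw
    have := hw.map half
    simp only [Function.iterate_zero, id_eq]
    rw [List.filter_map]
    exact this
  | succ g ih =>
    intro hCC
    set w := t.map half with hw
    set keep : ℕ → Bool := fun x => evn w (half x) with hkeep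
    set A := (strip^[g + 1] w).filter (fun a => decide (a ∉ K)) with hA
    have hwg : Gauss w := ht.gauss
    have hst : strip w = (t.filter keep).map half := by
      rw [strip_eq hwg, hw, List.filter_map]
      rfl
    have ht' : Lab (t.filter keep) := ht.filter (evn w)
    have hA' : (strip^[g] ((t.filter keep).map half)).filter (fun a => decide (a ∉ K)) = A := by
      rw [hA, Function.iterate_succ_apply, hst]
    have hK' : K ⊆ KK g ((t.filter keep).map half) := by
      intro c hc
      have := hKs hc
      unfold KK at this ⊢
      rw [Function.iterate_succ_apply, hst] at this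
      exact this
    have hKe : ∀ c ∈ K, c ∈ w ∧ evn w c = true := by
      intro c hc
      have h2 := KK_sub g _ (hK' hc)
      rw [← hst, strip_eq hwg, List.mem_filter] at h2
      exact h2
    -- the tour of the filtered system
    have step1 : CC (BadL g A) ((Sys K T t).map (trf id (List.filter keep))) := by
      apply (hom_filter keep).CC
      obtain ⟨l, p, h1, h2, h3, h4⟩ := hCC
      refine ⟨l, p, h1, h2, ?_⟩
      have hwp : (word l).Perm (t.filter (fun x => decide (half x ∉ K))) := by
        rw [← word_Sys K T t]
        exact word_perm h2
      have hmem : ∀ c ∈ (word l).map half, c ∉ K := by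
        intro c hc
        rw [List.mem_map] at hc
        obtain ⟨x, hx, rfl⟩ := hc
        rw [hwp.mem_iff, List.mem_filter] at hx
        simpa using hx.2
      have e1 : strip ((word l).map half) = ((word l).filter keep).map half := by
        rw [strip_eq h3, List.filter_map]
        congr 1
        apply List.filter_congr
        intro x hx
        simp only [Function.comp, hkeep]
        exact evn_tour ht hKe h1 h2 (hmem _ (List.mem_map_of_mem hx))
      refine ⟨?_, ?_⟩
      · rw [← e1]; exact h3.strip
      · rw [← e1, ← Function.iterate_succ_apply]; exact h4
    -- split into kept and deleted tokens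
    have hEw : (Ew (0, false) [] t (1, false)).map (trf id (List.filter keep)) =
        Ew (0, false) [] t (1, false) := by
      rw [Ew_trf (hom_filter keep) id (fun _ _ => rfl) (fun _ _ => rfl)]
      simp
    have hcl : trf id (List.filter keep) cl = cl := rfl
    have hsm : (K.toList.flatMap (sm T)).map (trf id (List.filter keep)) =
        K.toList.flatMap (sm T) := by
      rw [List.map_flatMap]
      apply List.flatMap_congr
      intro c _
      unfold sm
      split_ifs <;> simp [trf]
    have hxp : (((t.filter (fun x => decide (half x ∉ K))).map xp).map
        (trf id (List.filter keep))).Perm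
        ((t.filter (fun x => !keep x)).map bl ++
          ((t.filter keep).filter (fun x => decide (half x ∉ K))).map xp) := by
      rw [List.map_map]
      set A := t.filter (fun x => decide (half x ∉ K)) with hA
      have e1 : (A.filter (fun x => !keep x)) = t.filter (fun x => !keep x) := by
        rw [hA, List.filter_filter]
        apply List.filter_congr
        intro x hx
        cases hk : keep x with
        | true => simp
        | false =>
          have : half x ∉ K := by
            intro hh
            have := (hKe _ hh).2
            simp only [hkeep] at hk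
            rw [this] at hk
            exact absurd hk (by simp)
          simp [this]
      have e2 : A.filter keep = (t.filter keep).filter (fun x => decide (half x ∉ K)) := by
        rw [hA, List.filter_filter, List.filter_filter]
        apply List.filter_congr
        intro x _
        exact Bool.and_comm _ _
      have e3 := (List.filter_append_perm keep A).symm.map
        (trf id (List.filter keep) ∘ xp)
      refine e3.trans ?_
      rw [List.map_append]
      refine List.perm_append_comm.trans ?_
      rw [e1, e2]
      have e4 : (t.filter (fun x => !keep x)).map (trf id (List.filter keep) ∘ xp) =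
          (t.filter (fun x => !keep x)).map bl := by
        apply List.map_congr_left
        intro x hx
        rw [List.mem_filter] at hx
        have hk : keep x = false := by simpa using hx.2
        simp [trf, xp, bl, hk]
      have e5 : ((t.filter keep).filter (fun x => decide (half x ∉ K))).map
          (trf id (List.filter keep) ∘ xp) =
          ((t.filter keep).filter (fun x => decide (half x ∉ K))).map xp := by
        apply List.map_congr_left
        intro x hx
        have hx := List.mem_of_mem_filter hx
        rw [List.mem_filter] at hx
        simp [trf, xp, hx.2]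
      rw [e4, e5]
    have step2 : CC (BadL g A) (Ew (0, false) [] t (1, false) ++
        ((t.filter (fun x => !keep x)).map bl ++ (cl :: Bd K T (t.filter keep)))) := by
      refine (CC_perm ?_).1 step1
      unfold Sys Bd
      simp only [List.map_append, List.map_cons, hEw, hcl, hsm]
      refine List.Perm.append_left _ ?_
      refine (List.Perm.cons cl (hxp.append_right _)).trans ?_
      rw [List.append_assoc]
      exact List.perm_middle.symm
    have step3 := (del (badL_RR g A) keep t ht.nd (0, false) [] (1, false)
      (cl :: Bd K T (t.filter keep))
      (fun x _ => by constructor <;> simp only [Lx, Rx, ne_eq] <;> omega)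
      (fun x _ => by constructor <;> simp only [Lx, Rx, ne_eq] <;> omega)
      (fun x hx hk => by
        have hxK : half x ∉ K := by
          intro hh
          have := (hKe _ hh).2
          simp only [hkeep] at hk
          rw [this] at hk
          exact absurd hk (by simp)
        have hxt : x ∉ t.filter keep := by
          rw [List.mem_filter]
          rintro ⟨_, h2⟩
          rw [hk] at h2
          exact absurd h2 (by simp)
        exact ⟨fresh_cl (by unfold Lx; omega) (fresh_Bd_tok (Or.inl rfl) hxt hxK),
          fresh_cl (by unfold Rx; omega) (fresh_Bd_tok (Or.inr rfl) hxt hxK)⟩)).1 step2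
    have := ih (t.filter keep) ht' hK'
    rw [hA'] at this
    exact this step3

/-- the words that do not have the expected core letters -/
def NT (g : ℕ) (X : Finset ℕ) (u : List ℕ) : Prop :=
  ¬ (Gauss (u.map half) ∧ ∀ x ∈ u.map half, (x ∈ strip^[g] (u.map half) ↔ x ∈ X))

lemma NT_RR (g : ℕ) (X : Finset ℕ) : RR (NT g X) where
  rot u v hn hg := by
    apply hn
    obtain ⟨h1, h2⟩ := hg
    rw [List.map_append] at h1 h2 ⊢
    obtain ⟨u', v', e1, e2⟩ := iter_rot g h1
    refine ⟨h1.perm List.perm_append_comm, ?_⟩
    intro x hx
    rw [e2, List.mem_append, or_comm, ← List.mem_append, ← e1]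
    apply h2
    rw [List.mem_append, or_comm, ← List.mem_append]
    exact hx
  rev u hn hg := by
    apply hn
    obtain ⟨h1, h2⟩ := hg
    rw [List.map_reverse] at h1 h2
    have h3 : Gauss (u.map half) := h1.perm (List.reverse_perm _)
    refine ⟨h3, ?_⟩
    intro x hx
    rw [iter_rev g h3] at h2
    have := h2 x (List.mem_reverse.2 hx)
    rwa [List.mem_reverse] at this

/-- in a tour of a state the core is the core of the diagram without the smoothed chords -/
lemma tour_core {g : ℕ} {t : List ℕ} (ht : Lab t) {K T : Finset ℕ}
    (hKs : K ⊆ KK g (t.map half)) {l : List Piece} {p : End} (h1 : Path p l p)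
    (h2 : (l.map qp).Perm ((Sys K T t).map qp)) :
    Gauss ((word l).map half) ∧ (strip^[g] ((word l).map half)).Perm
      ((strip^[g] (t.map half)).filter (fun a => decide (a ∉ K))) ∧
      (word l).Perm (t.filter (fun x => decide (half x ∉ K))) := by
  have hwp := word_perm h2
  rw [word_Sys] at hwp
  have hgl : Gauss ((word l).map half) := by
    have hl2 : Lab (t.filter (fun x => decide (half x ∉ K))) :=
      ht.filter (fun c => decide (c ∉ K))
    exact hl2.gauss.perm (hwp.map half).symm
  refine ⟨hgl, ?_, hwp⟩
  by_contra hn
  exact tour_lev g t ht K T hKs ⟨l, p, h1, h2, hgl, hn⟩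

theorem no_NT {g : ℕ} {t : List ℕ} (ht : Lab t) {K T : Finset ℕ}
    (hKs : K ⊆ KK g (t.map half)) : ¬ CC (NT g (KK g (t.map half))) (Sys K T t) := by
  rintro ⟨l, p, h1, h2, h3⟩
  obtain ⟨hg, hp, hw⟩ := tour_core ht hKs h1 h2
  apply h3
  refine ⟨hg, ?_⟩
  intro x hx
  rw [hp.mem_iff, List.mem_filter]
  unfold KK
  rw [List.mem_toFinset]
  constructor
  · exact fun hh => hh.1
  · intro hh
    refine ⟨hh, ?_⟩
    rw [List.mem_map] at hx
    obtain ⟨z, hz, rfl⟩ := hx
    rw [hw.mem_iff, List.mem_filter] at hz
    exact hz.2

end Pool.Agent.Run7.h906
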