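import Mathlib
import Pool.Agent.Run7.h906.TopA

set_option linter.unusedSimpArgs false

namespace Pool.Agent.Run7.h906

/-- classes of words closed under the moves which do not change the core, without bigons
in the core -/
structure TCls (g : ℕ) (Cl : List ℕ → Prop) : Prop where
  gauss : ∀ w, Cl w → Gauss w
  rot : ∀ u v, Cl (u ++ v) → Cl (v ++ u)
  rev : ∀ u, Cl u → Cl u.reverse
  ren : ∀ (σ : Equiv.Perm ℕ) u, Cl u → Cl (u.map σ)
  two : ∀ a b s U V, a ≠ b → (s = [a, b] ∨ s = [b, a]) →
    Gauss ([a, b] ++ U ++ s ++ V) → a ∉ strip^[g] ([a, b] ++ U ++ s ++ V) →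
    (Cl ([a, b] ++ U ++ s ++ V) ↔ Cl (U ++ V))
  notop : ∀ a b s U V, a ≠ b → (s = [a, b] ∨ s = [b, a]) →
    a ∈ strip^[g] ([a, b] ++ U ++ s ++ V) → ¬ Cl ([a, b] ++ U ++ s ++ V)
  nokink : ∀ a U, ¬ Cl (a :: a :: U)
  three : ∀ a b c p q r U V W, Tri a b c p q r →
    Cl (tw p q r U V W) → Cl (tw p.reverse q.reverse r.reverse U V W)

lemma TCT_RR {g : ℕ} {Cl : List ℕ → Prop} (hC : TCls g Cl) : RR (CT Cl) where
  rot u v hu := by
    unfold CT at *
    rw [List.map_append] at *
    exact hC.rot _ _ hu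
  rev u hu := by
    unfold CT at *
    rw [List.map_reverse]
    exact hC.rev _ hu

/-- the good words -/
def GT (g : ℕ) (X : Finset ℕ) (w : List ℕ) : Prop :=
  Gauss w ∧ ∀ x ∈ w, (x ∈ strip^[g] w ↔ x ∈ X)

lemma two_T {g : ℕ} {Cl : List ℕ → Prop} (hC : TCls g Cl) {a b : ℕ} (hab : a ≠ b)
    {X : Finset ℕ} (haX : a ∉ X) (hbX : b ∉ X)
    {w1 w2 A B : List ℕ} (h1 : w1.map half = [a, b] ∨ w1.map half = [b, a])
    (h2 : w2.map half = [a, b] ∨ w2.map half = [b, a])
    (hg : GT g X ((w1 ++ (A ++ (w2 ++ B))).map half)) :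
    CT Cl (w1 ++ (A ++ (w2 ++ B))) ↔ CT Cl (A ++ B) := by
  unfold CT
  simp only [List.map_append] at hg ⊢
  obtain ⟨g1, g2⟩ := hg
  rcases h1 with h1 | h1
  · rw [h1] at g1 g2 ⊢
    have g3 : a ∉ strip^[g] ([a, b] ++ (A.map half ++ (w2.map half ++ B.map half))) := by
      rw [g2 a (by simp)]; exact haX
    have := hC.two a b (w2.map half) (A.map half) (B.map half) hab h2
      (by simpa only [List.append_assoc] using g1)
      (by simpa only [List.append_assoc] using g3)
    simpa only [List.append_assoc] using this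
  · rw [h1] at g1 g2 ⊢
    have g3 : b ∉ strip^[g] ([b, a] ++ (A.map half ++ (w2.map half ++ B.map half))) := by
      rw [g2 b (by simp)]; exact hbX
    have := hC.two b a (w2.map half) (A.map half) (B.map half) hab.symm h2.symm
      (by simpa only [List.append_assoc] using g1)
      (by simpa only [List.append_assoc] using g3)
    simpa only [List.append_assoc] using this

lemma notop_T {g : ℕ} {Cl : List ℕ → Prop} (hC : TCls g Cl) {a b : ℕ} (hab : a ≠ b)
    {X : Finset ℕ} (haX : a ∈ X) (hbX : b ∈ X)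
    {w1 w2 A B : List ℕ} (h1 : w1.map half = [a, b] ∨ w1.map half = [b, a])
    (h2 : w2.map half = [a, b] ∨ w2.map half = [b, a])
    (hg : GT g X ((w1 ++ (A ++ (w2 ++ B))).map half)) :
    ¬ CT Cl (w1 ++ (A ++ (w2 ++ B))) := by
  unfold CT
  simp only [List.map_append] at hg ⊢
  obtain ⟨g1, g2⟩ := hg
  rcases h1 with h1 | h1
  · rw [h1] at g1 g2 ⊢
    have g3 : a ∈ strip^[g] ([a, b] ++ (A.map half ++ (w2.map half ++ B.map half))) := by
      rw [g2 a (by simp)]; exact haX
    have := hC.notop a b (w2.map half) (A.map half) (B.map half) hab h2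
      (by simpa only [List.append_assoc] using g3)
    simpa only [List.append_assoc] using this
  · rw [h1] at g1 g2 ⊢
    have g3 : b ∈ strip^[g] ([b, a] ++ (A.map half ++ (w2.map half ++ B.map half))) := by
      rw [g2 b (by simp)]; exact hbX
    have := hC.notop b a (w2.map half) (A.map half) (B.map half) hab.symm h2.symm
      (by simpa only [List.append_assoc] using g3)
    simpa only [List.append_assoc] using this

lemma GT_of {g : ℕ} {X : Finset ℕ} {P Q : Piece} {S : List Piece}
    (hg : ¬ CC (NT g X) (P :: Q :: S)) {l : List Piece}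
    (hpath : Path (du P.2.2) l P.1) (hperm : (l.map qp).Perm ((Q :: S).map qp)) :
    GT g X ((P.2.1 ++ word l).map half) := by
  rw [CC_cons_iff (NT_RR g X)] at hg
  by_contra hn
  exact hg ⟨_, hpath, hperm, hn⟩

/-- removing a bigon of lower chords from a state -/
lemma bigT {g : ℕ} {Cl : List ℕ → Prop} (hC : TCls g Cl) {a b : ℕ} (hab : a ≠ b)
    {X : Finset ℕ} (haX : a ∉ X) (hbX : b ∉ X) {P Q : Piece} {S : List Piece}
    (hP : P.2.1.map half = [a, b] ∨ P.2.1.map half = [b, a])
    (hQ : Q.2.1.map half = [a, b] ∨ Q.2.1.map half = [b, a])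
    (hg : ¬ CC (NT g X) (P :: Q :: S)) :
    CC (CT Cl) (P :: Q :: S) ↔ CC (CT Cl) (bare P :: bare Q :: S) := by
  rw [CC_cons_iff (TCT_RR hC), CC_cons_iff (TCT_RR hC)]
  constructor
  · rintro ⟨l, h1, h2, h3⟩
    have hgood0 := GT_of hg h1 h2
    obtain ⟨l1, Q', l2, rfl, hQ', h5⟩ := find_piece h2
    have hbq : qp (bare Q') = qp (bare Q) := by
      rcases hQ' with rfl | rfl
      · rfl
      · rw [bare_fl, qp_fl]
    have hw : Q'.2.1.map half = [a, b] ∨ Q'.2.1.map half = [b, a] :=
      map_half_cases hQ' hQ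
    refine ⟨l1 ++ bare Q' :: l2, ?_, insert_piece hbq h5, ?_⟩
    · show Path (du P.2.2) (l1 ++ bare Q' :: l2) P.1
      exact replace_piece (Q := Q') (Q' := bare Q') rfl rfl h1
    · simp only [word_append, word_cons] at h3 hgood0
      have := (two_T hC hab haX hbX hP hw hgood0).1 h3
      simpa [bare] using this
  · rintro ⟨l, h1, h2, h3⟩
    obtain ⟨l1, Q', l2, rfl, hQ', h5⟩ := find_piece h2
    -- the corresponding piece with its word
    obtain ⟨Q1, hq1, hq2, hq3, hq4⟩ : ∃ Q1 : Piece, qp Q1 = qp Q ∧ Q1.1 = Q'.1 ∧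
        Q1.2.2 = Q'.2.2 ∧ (Q1.2.1.map half = [a, b] ∨ Q1.2.1.map half = [b, a]) := by
      rcases hQ' with rfl | rfl
      · exact ⟨Q, rfl, rfl, rfl, hQ⟩
      · refine ⟨fl Q, qp_fl Q, rfl, rfl, ?_⟩
        simp only [fl, List.map_reverse]
        rcases hQ with e | e <;> rw [e] <;> simp
    have hQw : Q'.2.1 = [] := by
      rcases hQ' with rfl | rfl
      · rfl
      · rfl
    have hpath : Path (du P.2.2) (l1 ++ Q1 :: l2) P.1 :=
      replace_piece hq2 hq3 h1
    have hperm := insert_piece hq1 h5
    refine ⟨l1 ++ Q1 :: l2, hpath, hperm, ?_⟩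
    have hgood := GT_of hg hpath hperm
    simp only [word_append, word_cons] at h3 hgood ⊢
    rw [two_T hC hab haX hbX hP hq4 hgood]
    simpa [bare, hQw] using h3

/-- a bigon of core chords -/
lemma bigN {g : ℕ} {Cl : List ℕ → Prop} (hC : TCls g Cl) {a b : ℕ} (hab : a ≠ b)
    {X : Finset ℕ} (haX : a ∈ X) (hbX : b ∈ X) {P Q : Piece} {S : List Piece}
    (hP : P.2.1.map half = [a, b] ∨ P.2.1.map half = [b, a])
    (hQ : Q.2.1.map half = [a, b] ∨ Q.2.1.map half = [b, a])
    (hg : ¬ CC (NT g X) (P :: Q :: S)) : ¬ CC (CT Cl) (P :: Q :: S) := by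
  rw [CC_cons_iff (TCT_RR hC)]
  rintro ⟨l, h1, h2, h3⟩
  have hgood0 := GT_of hg h1 h2
  obtain ⟨l1, Q', l2, rfl, hQ', h5⟩ := find_piece h2
  have hw : Q'.2.1.map half = [a, b] ∨ Q'.2.1.map half = [b, a] :=
    map_half_cases hQ' hQ
  simp only [word_append, word_cons] at h3 hgood0
  exact notop_T hC hab haX hbX hP hw hgood0 h3

lemma three_T {g : ℕ} {Cl : List ℕ → Prop} (hC : TCls g Cl) {a b c : ℕ}
    {w1 w2 w3 A B D : List ℕ}
    (ht : Tri a b c (w1.map half) (w2.map half) (w3.map half))
    (hc : CT Cl (w1 ++ (A ++ (w2 ++ (B ++ (w3 ++ D)))))) :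
    CT Cl (w1.reverse ++ (A ++ (w2.reverse ++ (B ++ (w3.reverse ++ D))))) := by
  unfold CT at *
  simp only [List.map_append, List.map_reverse] at hc ⊢
  have := hC.three a b c _ _ _ (A.map half) (B.map half) (D.map half) ht
    (by simpa only [tw, List.append_assoc] using hc)
  simpa only [tw, List.append_assoc] using this

/-- a third move inside a state -/
lemma triT {g : ℕ} {Cl : List ℕ → Prop} (hC : TCls g Cl) {a b c : ℕ}
    {P Q R : Piece} {S : List Piece}
    (ht : Tri a b c (P.2.1.map half) (Q.2.1.map half) (R.2.1.map half))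
    (hcc : CC (CT Cl) (P :: Q :: R :: S)) :
    CC (CT Cl) (rw' P :: rw' Q :: rw' R :: S) := by
  rw [CC_cons_iff (TCT_RR hC)] at hcc ⊢
  obtain ⟨l, h1, h2, h3⟩ := hcc
  obtain ⟨l1, Q', l2, rfl, hQ', h5⟩ := find_piece h2
  obtain ⟨m1, R', m2, hm, hR', h6⟩ := find_piece h5
  have hq := map_half_cases hQ' ht.hq
  have hr := map_half_cases hR' ht.hr
  rcases List.append_eq_append_iff.1 hm with ⟨k, hk1, hk2⟩ | ⟨k, hk1, hk2⟩
  · -- `R'` comes after `Q'`
    subst hk1
    subst hk2
    refine ⟨l1 ++ rw' Q' :: (k ++ rw' R' :: m2), ?_, ?_, ?_⟩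
    · have e1 := replace_piece (Q := Q') (Q' := rw' Q') rfl rfl h1
      rw [← List.cons_append, ← List.append_assoc] at e1
      have e2 := replace_piece (Q := R') (Q' := rw' R') rfl rfl e1
      rw [List.append_assoc, List.cons_append] at e2
      exact e2
    · apply insert_piece (qp_rw hQ')
      rw [← List.append_assoc]
      exact insert_piece (qp_rw hR') h6
    · simp only [word_append, word_cons] at h3 ⊢
      have := three_T (w1 := P.2.1) (w2 := Q'.2.1) (w3 := R'.2.1)
        (A := word l1) (B := word k) (D := word m2) hC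
        ⟨ht.hab, ht.hac, ht.hbc, ht.hp, hq, hr⟩ h3
      exact this
  · -- `R'` may come before `Q'`
    cases k with
    | nil =>
      simp only [List.append_nil, List.nil_append] at hk1 hk2
      subst hk1
      subst hk2
      refine ⟨l1 ++ rw' Q' :: ([] ++ rw' R' :: m2), ?_, ?_, ?_⟩
      · have e1 := replace_piece (Q := Q') (Q' := rw' Q') rfl rfl h1
        rw [← List.singleton_append, ← List.append_assoc] at e1
        have e2 := replace_piece (Q := R') (Q' := rw' R') rfl rfl e1
        rw [List.append_assoc, List.singleton_append] at e2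
        exact e2
      · apply insert_piece (qp_rw hQ')
        exact insert_piece (qp_rw hR') h6
      · simp only [word_append, word_cons] at h3 ⊢
        have := three_T (w1 := P.2.1) (w2 := Q'.2.1) (w3 := R'.2.1)
          (A := word l1) (B := []) (D := word m2) hC
          ⟨ht.hab, ht.hac, ht.hbc, ht.hp, hq, hr⟩ (by simpa using h3)
        simpa [rw'] using this
    | cons K k =>
      rw [List.cons_append] at hk2
      obtain ⟨hk3, hk4⟩ := List.cons_eq_cons.1 hk2
      subst hk1
      subst hk3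
      subst hk4
      refine ⟨m1 ++ rw' R' :: (k ++ rw' Q' :: l2), ?_, ?_, ?_⟩
      · rw [List.append_assoc, List.cons_append] at h1
        have e1 := replace_piece (Q := R') (Q' := rw' R') rfl rfl h1
        rw [← List.cons_append, ← List.append_assoc] at e1
        have e2 := replace_piece (Q := Q') (Q' := rw' Q') rfl rfl e1
        rw [List.append_assoc, List.cons_append] at e2
        exact e2
      · have h7 : ((m1 ++ rw' R' :: (k ++ l2)).map qp).Perm ((rw' R :: S).map qp) :=
          insert_piece (qp_rw hR') h6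
        rw [← List.cons_append, ← List.append_assoc] at h7 ⊢
        exact insert_piece (qp_rw hQ') h7
      · simp only [word_append, word_cons, List.append_assoc] at h3 ⊢
        have ht' : Tri b a c (P.2.1.map half) (R'.2.1.map half) (Q'.2.1.map half) :=
          ⟨ht.hab.symm, ht.hbc, ht.hac, ht.hp.symm, hr, hq⟩
        have := three_T (w1 := P.2.1) (w2 := R'.2.1) (w3 := Q'.2.1)
          (A := word m1) (B := word k) (D := word l2) hC ht' h3
        exact this

lemma TCT_map {g : ℕ} {Cl : List ℕ → Prop} (hC : TCls g Cl) (ρ σ : Equiv.Perm ℕ)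
    (hρ : ∀ x, half (ρ x) = σ (half x)) (u : List ℕ) :
    CT Cl (u.map ρ) ↔ CT Cl u := by
  unfold CT
  have e : (u.map ρ).map half = (u.map half).map σ := by
    rw [List.map_map, List.map_map]
    apply List.map_congr_left
    intro x _
    exact hρ x
  rw [e]
  constructor
  · intro h1
    have := hC.ren σ.symm _ h1
    rw [List.map_map] at this
    simpa using this
  · exact hC.ren σ _

lemma swapT {g : ℕ} {Cl : List ℕ → Prop} (hC : TCls g Cl) {x y : ℕ} {A B R : List Piece}
    (hAB : srt (A.map (trf id (List.map (rho x y)))) = B) (hR : Avoid x y R) :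
    CC (CT Cl) (A ++ R) ↔ CC (CT Cl) (B ++ R) := by
  have hom : Hom id (List.map (rho x y)) :=
    ⟨fun _ => rfl, rfl, fun _ _ => by simp, fun _ => by simp⟩
  have hom' : Hom id (List.map (rho x y).symm) :=
    ⟨fun _ => rfl, rfl, fun _ _ => by simp, fun _ => by simp⟩
  have e1 := hom.inv hom' (fun _ => rfl) (by intro u; simp) (by intro u; simp)
    (C := CT Cl) (A ++ R)
  have e2 : R.map (trf id (List.map (rho x y))) = R := by
    conv_rhs => rw [← List.map_id R]
    apply List.map_congr_left
    intro P hP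
    have : P.2.1.map (rho x y) = P.2.1 := by
      conv_rhs => rw [← List.map_id P.2.1]
      apply List.map_congr_left
      intro z hz
      obtain ⟨a1, a2⟩ := hR P hP z hz
      exact rho_fix a1 a2
    obtain ⟨p, u, q⟩ := P
    simp only at this
    simp [trf, this]
  rw [List.map_append, e2] at e1
  have e3 : CC (CT Cl) (A.map (trf id (List.map (rho x y))) ++ R) ↔
      CC (CT Cl) (B ++ R) := by
    apply CC_congr
    rw [List.map_append, List.map_append, ← hAB]
    exact (srt_qp _).symm.append_right _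
  rw [← e3, e1]
  constructor
  · exact CC_mono (fun u hu => (TCT_map hC _ _ (half_rho x y) u).2 hu)
  · exact CC_mono (fun u hu => (TCT_map hC _ _ (half_rho x y) u).1 hu)

lemma bigsT {g : ℕ} {Cl : List ℕ → Prop} (hC : TCls g Cl) {x y : ℕ} (hxy : x ≠ y)
    {X : Finset ℕ} (hxX : x ∉ X) (hyX : y ∉ X)
    {A R : List Piece} (hA : isBig x y A = true) (hg : ¬ CC (NT g X) (A ++ R)) :
    CC (CT Cl) (A ++ R) ↔ CC (CT Cl) (A.map bare ++ R) := by
  unfold isBig at hA
  split at hA
  · rename_i P Q hPQ
    rw [Bool.and_eq_true] at hA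
    have hsplit := List.filter_append_perm (fun P : Piece => !P.2.1.isEmpty) A
    rw [hPQ] at hsplit
    set E := A.filter (fun P : Piece => !!P.2.1.isEmpty) with hE
    have e1 : (A ++ R).Perm (P :: Q :: (E ++ R)) := (hsplit.symm.append_right R)
    have hEb : E.map bare = E := by
      conv_rhs => rw [← List.map_id E]
      apply List.map_congr_left
      intro K hK
      rw [hE, List.mem_filter] at hK
      obtain ⟨p, u, q⟩ := K
      have hu : u = [] := by simpa using hK.2
      simp [bare, hu]
    have e2 : (A.map bare ++ R).Perm (bare P :: bare Q :: (E ++ R)) := by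
      have := (hsplit.symm.map bare).append_right R
      simp only [List.cons_append, List.nil_append, List.map_cons] at this
      rw [hEb] at this
      exact this
    rw [CC_perm e1] at hg ⊢
    rw [CC_perm e2]
    exact bigT hC hxy hxX hyX (okw_iff hA.1) (okw_iff hA.2) hg
  · simp at hA

lemma stT {g : ℕ} {Cl : List ℕ → Prop} (hC : TCls g Cl) {x y : ℕ} (hxy : x ≠ y)
    {X : Finset ℕ} (hxX : x ∉ X) (hyX : y ∉ X)
    (ns : List ℕ) {L L' R : List Piece} (hok : stOK x y (nf ns L) (nf ns L') = true)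
    (hR : ∀ n ∈ ns, Fresh n R) (hne : R ≠ []) (hav : Avoid x y R)
    (hg : ¬ CC (NT g X) (L ++ R)) (hg' : ¬ CC (NT g X) (L' ++ R)) :
    CC (CT Cl) (L ++ R) ↔ CC (CT Cl) (L' ++ R) := by
  rw [nf_says (TCT_RR hC) ns L R hR hne, nf_says (TCT_RR hC) ns L' R hR hne]
  rw [nf_says (NT_RR g X) ns L R hR hne] at hg
  rw [nf_says (NT_RR g X) ns L' R hR hne] at hg'
  cases hA : nf ns L with
  | none => rw [hA] at hok; simp [stOK] at hok
  | some A =>
    cases hB : nf ns L' with
    | none => rw [hA, hB] at hok; simp [stOK] at hok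
    | some B =>
      rw [hA] at hg
      rw [hB] at hg'
      rw [hA, hB] at hok
      simp only [Says] at hg hg' ⊢
      unfold stOK at hok
      rw [Bool.or_eq_true] at hok
      rcases hok with hok | hok
      · exact swapT hC (of_decide_eq_true hok) hav
      · rw [Bool.and_eq_true, Bool.and_eq_true] at hok
        obtain ⟨⟨h1, h2⟩, h3⟩ := hok
        rw [bigsT hC hxy hxX hyX h1 hg, bigsT hC hxy hxX hyX h2 hg', of_decide_eq_true h3]

/-! ### the new finite checks: one of the two chords of a bigon is smoothed -/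

/-- exchange of the letters `0` and `1` on tokens -/
def rho01 : Equiv.Perm ℕ := Equiv.swap 0 3 * Equiv.swap 1 2

lemma half_rho01 (z : ℕ) : half (rho01 z) = Equiv.swap 0 1 (half z) := by
  unfold rho01 half
  simp only [Equiv.Perm.mul_apply, Equiv.swap_apply_def]
  split_ifs <;> omega

lemma rho01_fix {z : ℕ} (h1 : half z ≠ 0) (h2 : half z ≠ 1) : rho01 z = z := by
  unfold rho01
  unfold half at h1 h2
  simp only [Equiv.Perm.mul_apply, Equiv.swap_apply_def]
  split_ifs <;> omega

lemma swap01 {g : ℕ} {Cl : List ℕ → Prop} (hC : TCls g Cl) {A B R : List Piece}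
    (hAB : srt (A.map (trf id (List.map rho01))) = B) (hR : Avoid 0 1 R) :
    CC (CT Cl) (A ++ R) ↔ CC (CT Cl) (B ++ R) := by
  have hom : Hom id (List.map rho01) :=
    ⟨fun _ => rfl, rfl, fun _ _ => by simp, fun _ => by simp⟩
  have hom' : Hom id (List.map rho01.symm) :=
    ⟨fun _ => rfl, rfl, fun _ _ => by simp, fun _ => by simp⟩
  have e1 := hom.inv hom' (fun _ => rfl) (by intro u; simp) (by intro u; simp)
    (C := CT Cl) (A ++ R)
  have e2 : R.map (trf id (List.map rho01)) = R := by
    conv_rhs => rw [← List.map_id R]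
    apply List.map_congr_left
    intro P hP
    have : P.2.1.map rho01 = P.2.1 := by
      conv_rhs => rw [← List.map_id P.2.1]
      apply List.map_congr_left
      intro z hz
      obtain ⟨a1, a2⟩ := hR P hP z hz
      exact rho01_fix a1 a2
    obtain ⟨p, u, q⟩ := P
    simp only at this
    simp [trf, this]
  rw [List.map_append, e2] at e1
  have e3 : CC (CT Cl) (A.map (trf id (List.map rho01)) ++ R) ↔
      CC (CT Cl) (B ++ R) := by
    apply CC_congr
    rw [List.map_append, List.map_append, ← hAB]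
    exact (srt_qp _).symm.append_right _
  rw [← e3, e1]
  constructor
  · exact CC_mono (fun u hu => (TCT_map hC _ _ half_rho01 u).2 hu)
  · exact CC_mono (fun u hu => (TCT_map hC _ _ half_rho01 u).1 hu)

/-- some piece is a kink -/
def hasKink (A : List Piece) : Bool :=
  A.any (fun P => match P.2.1 with
    | [x, y] => half x == half y
    | _ => false)

lemma kinkN {g : ℕ} {Cl : List ℕ → Prop} (hC : TCls g Cl) {A R : List Piece}
    (hA : hasKink A = true) : ¬ CC (CT Cl) (A ++ R) := by
  unfold hasKink at hA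
  rw [List.any_eq_true] at hA
  obtain ⟨P, hP, hk⟩ := hA
  obtain ⟨A1, A2, rfl⟩ := List.append_of_mem hP
  have hperm : (A1 ++ P :: A2 ++ R).Perm (P :: (A1 ++ A2 ++ R)) := by
    rw [List.append_assoc, List.append_assoc, List.cons_append]
    exact List.perm_middle
  rw [CC_perm hperm, CC_cons_iff (TCT_RR hC)]
  rintro ⟨l, _, _, h3⟩
  split at hk
  · rename_i x y hxy
    have hxy' : half x = half y := by simpa using hk
    rw [hxy] at h3
    unfold CT at h3
    simp only [List.cons_append, List.nil_append, List.map_cons, hxy'] at h3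
    exact hC.nokink _ _ h3
  · exact absurd hk (by simp)

def okh (a b : Option (List Piece)) : Bool :=
  match a, b with
  | some A, some B =>
    decide (srt (A.map (trf id (List.map rho01))) = B) || (hasKink A && hasKink B)
  | _, _ => false

def ckh (f : ℕ → List Piece) : Bool := ordS.all fun s =>
  okh (nf N2 (L2 [0, 2] s (bd2 f smx))) (nf N2 (L2 [0, 2] s (bd2 smx f)))

lemma ckh_o : ckh smo = true := by decide +kernel

lemma ckh_u : ckh smu = true := by decide +kernel

lemma halfT {g : ℕ} {Cl : List ℕ → Prop} (hC : TCls g Cl) {f : ℕ → List Piece}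
    (hf : ckh f = true) {s : List ℕ} (hs : s ∈ ordS) {R : List Piece}
    (hR : ∀ n ∈ N2, Fresh n R) (hne : R ≠ []) (hav : Avoid 0 1 R) :
    CC (CT Cl) (L2 [0, 2] s (bd2 f smx) ++ R) ↔ CC (CT Cl) (L2 [0, 2] s (bd2 smx f) ++ R) := by
  unfold ckh at hf
  rw [List.all_eq_true] at hf
  have hok := hf s hs
  rw [nf_says (TCT_RR hC) N2 _ R hR hne, nf_says (TCT_RR hC) N2 (L2 [0, 2] s (bd2 smx f)) R hR hne]
  cases hA : nf N2 (L2 [0, 2] s (bd2 f smx)) with
  | none => rw [hA] at hok; simp [okh] at hok
  | some A =>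
    cases hB : nf N2 (L2 [0, 2] s (bd2 smx f)) with
    | none => rw [hA, hB] at hok; simp [okh] at hok
    | some B =>
      rw [hA, hB] at hok
      simp only [Says]
      unfold okh at hok
      rw [Bool.or_eq_true] at hok
      rcases hok with hok | hok
      · exact swap01 hC (of_decide_eq_true hok) hav
      · rw [Bool.and_eq_true] at hok
        exact ⟨fun h => absurd h (kinkN hC hok.1), fun h => absurd h (kinkN hC hok.2)⟩

end Pool.Agent.Run7.h906
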