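import Mathlib
import Pool.Agent.Run7.h906.TopB

set_option linter.unusedSimpArgs false

namespace Pool.Agent.Run7.h906

/-- number of states in the class with exactly the chords of `K` smoothed, mod 2 -/
noncomputable def HS (Cl : List ℕ → Prop) (K : Finset ℕ) (t : List ℕ) : ZMod 2 :=
  ∑ T ∈ K.powerset, ind (CC (CT Cl) (Sys K T t))

/-- number of states in the class with some of the core chords smoothed, mod 2 -/
noncomputable def G (g : ℕ) (Cl : List ℕ → Prop) (t : List ℕ) : ZMod 2 :=
  ∑ K ∈ (KK g (t.map half)).powerset, HS Cl K t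

lemma G_rot {g : ℕ} {Cl : List ℕ → Prop} (hC : TCls g Cl) {u v : List ℕ} (ht : Lab (u ++ v)) :
    G g Cl (u ++ v) = G g Cl (v ++ u) := by
  have hg := ht.gauss
  rw [List.map_append] at hg
  have e : KK g ((u ++ v).map half) = KK g ((v ++ u).map half) := by
    rw [List.map_append, List.map_append]
    exact KK_rot g hg
  unfold G
  rw [e]
  apply Finset.sum_congr rfl
  intro K _
  unfold HS
  apply Finset.sum_congr rfl
  intro T _
  exact ind_congr (Sys_rot (TCT_RR hC) _ T u v)

lemma G_rev {g : ℕ} {Cl : List ℕ → Prop} {t : List ℕ} (ht : Lab t) :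
    G g Cl t.reverse = G g Cl t := by
  have e : KK g (t.reverse.map half) = KK g (t.map half) := by
    unfold KK
    rw [List.map_reverse, iter_rev g ht.gauss]
    simp
  unfold G
  rw [e]
  apply Finset.sum_congr rfl
  intro K _
  unfold HS
  apply Finset.sum_congr rfl
  intro T _
  exact ind_congr (Sys_rev _ T t)

lemma sum_powerset_perm (σ : Equiv.Perm ℕ) (K : Finset ℕ) (f f' : Finset ℕ → ZMod 2)
    (h : ∀ T ⊆ K, f T = f' (T.map σ.toEmbedding)) :
    ∑ T ∈ K.powerset, f T = ∑ T ∈ (K.map σ.toEmbedding).powerset, f' T := by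
  apply Finset.sum_nbij' (fun T => T.map σ.toEmbedding) (fun T => T.map σ.symm.toEmbedding)
  · intro T hT
    rw [Finset.mem_powerset] at hT ⊢
    exact Finset.map_subset_map.2 hT
  · intro T hT
    rw [Finset.mem_powerset] at hT ⊢
    intro x hx
    rw [Finset.mem_map] at hx
    obtain ⟨y, hy, rfl⟩ := hx
    have := hT hy
    rw [Finset.mem_map] at this
    obtain ⟨z, hz, rfl⟩ := this
    simpa using hz
  · intro T _
    ext x
    simp
  · intro T _
    ext x
    simp
  · intro T hT
    rw [Finset.mem_powerset] at hT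
    exact h T hT

lemma HS_ren {g : ℕ} {Cl : List ℕ → Prop} (hC : TCls g Cl) (ρ σ : Equiv.Perm ℕ)
    (hρ : ∀ x, half (ρ x) = σ (half x)) (K : Finset ℕ) (t : List ℕ) :
    HS Cl K t = HS Cl (K.map σ.toEmbedding) (t.map ρ) := by
  unfold HS
  apply sum_powerset_perm
  intro T _
  apply ind_congr
  rw [Sys_ren ρ σ hρ]
  constructor
  · exact CC_mono (fun u hu => (TCT_map hC ρ σ hρ u).2 hu)
  · exact CC_mono (fun u hu => (TCT_map hC ρ σ hρ u).1 hu)

lemma G_ren {g : ℕ} {Cl : List ℕ → Prop} (hC : TCls g Cl) (ρ σ : Equiv.Perm ℕ)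
    (hρ : ∀ x, half (ρ x) = σ (half x)) {t : List ℕ} (ht : Lab t) :
    G g Cl (t.map ρ) = G g Cl t := by
  have e0 : (t.map ρ).map half = (t.map half).map σ := by
    rw [List.map_map, List.map_map]
    apply List.map_congr_left
    intro x _
    exact hρ x
  have e : KK g ((t.map ρ).map half) = (KK g (t.map half)).map σ.toEmbedding := by
    unfold KK
    rw [e0, iter_ren g σ ht.gauss]
    ext x
    rw [Finset.mem_map, List.mem_toFinset, List.mem_map]
    simp
  unfold G
  rw [e]
  symm
  apply sum_powerset_perm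
  intro K _
  exact HS_ren hC ρ σ hρ K t

/-- two labellings of the same word differ by exchanging the tokens of some chords -/
lemma lab_perm {t1 t2 : List ℕ} (h1 : Lab t1)
    (h2 : Lab t2) (he : t1.map half = t2.map half) :
    ∃ ρ : Equiv.Perm ℕ, (∀ x, half (ρ x) = (Equiv.refl ℕ) (half x)) ∧ t1.map ρ = t2 := by
  classical
  let g : ℕ → ℕ := fun x => if t1.idxOf (2 * half x) ≠ t2.idxOf (2 * half x) then sw x else x
  have hg : Function.Involutive g := by
    intro x
    simp only [g]
    by_cases hx : t1.idxOf (2 * half x) ≠ t2.idxOf (2 * half x)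
    · simp only [hx, ne_eq, not_false_eq_true, ↓reduceIte, half_sw, sw_sw]
    · simp only [hx, ↓reduceIte]
  let ρ : Equiv.Perm ℕ := hg.toPerm g
  have hρ : ∀ x, half (ρ x) = (Equiv.refl ℕ) (half x) := by
    intro x
    show half (g x) = half x
    simp only [g]
    split_ifs
    · exact half_sw x
    · rfl
  have hlen : t1.length = t2.length := by
    have := congrArg List.length he
    simpa using this
  refine ⟨ρ, hρ, ?_⟩
  apply List.ext_getElem
  · simpa using hlen
  · intro i hi1 hi2
    rw [List.length_map] at hi1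
    rw [List.getElem_map]
    set x := t1[i] with hx
    set y := t2[i] with hy
    have hxy : half x = half y := by
      have : (t1.map half)[i]'(by simpa using hi1) = (t2.map half)[i]'(by simpa using hi2) := by
        simp only [he]
      simpa using this
    have hxm : x ∈ t1 := List.getElem_mem _
    have hym : y ∈ t2 := List.getElem_mem _
    have ix : t1.idxOf x = i := h1.nd.idxOf_getElem i hi1
    have iy : t2.idxOf y = i := h2.nd.idxOf_getElem i hi2
    show g x = y
    simp only [g]
    set c := half x with hc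
    have hcm1 : c ∈ t1.map half := List.mem_map_of_mem hxm
    have hcm2 : c ∈ t2.map half := by rw [← he]; exact hcm1
    obtain ⟨m1, _⟩ := h1.mem hcm1
    obtain ⟨m2, _⟩ := h2.mem hcm2
    have hx2 : x = 2 * c ∨ x = 2 * c + 1 := by
      rw [hc]; unfold half; omega
    have hy2 : y = 2 * c ∨ y = 2 * c + 1 := by
      rw [hxy]; unfold half; omega
    rcases hx2 with hx2 | hx2 <;> rcases hy2 with hy2 | hy2
    · have : ¬ (t1.idxOf (2 * c) ≠ t2.idxOf (2 * c)) := by
        rw [not_not, ← hx2, ix, hx2, ← hy2, iy]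
      rw [if_neg this, hx2, hy2]
    · have : t1.idxOf (2 * c) ≠ t2.idxOf (2 * c) := by
        intro hh
        rw [← hx2, ix, hx2] at hh
        have h3 : t2[t2.idxOf (2 * c)]'(List.idxOf_lt_length_of_mem m2) = 2 * c :=
          List.getElem_idxOf _
        have h4 : t2[t2.idxOf (2 * c)]'(List.idxOf_lt_length_of_mem m2) = y := by
          rw [hy]; congr 1; exact hh.symm
        omega
      rw [if_pos this, hx2, hy2]
      simp [sw]
    · have : t1.idxOf (2 * c) ≠ t2.idxOf (2 * c) := by
        intro hh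
        rw [← hy2, iy, hy2] at hh
        have h3 : t1[t1.idxOf (2 * c)]'(List.idxOf_lt_length_of_mem m1) = 2 * c :=
          List.getElem_idxOf _
        have h4 : t1[t1.idxOf (2 * c)]'(List.idxOf_lt_length_of_mem m1) = x := by
          rw [hx]; congr 1
        omega
      rw [if_pos this, hx2, hy2]
      unfold sw
      split_ifs <;> omega
    · have : ¬ (t1.idxOf (2 * c) ≠ t2.idxOf (2 * c)) := by
        rw [not_not]
        have hj := List.idxOf_lt_length_of_mem m1
        set j := t1.idxOf (2 * c) with hjd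
        have h3 : t1[j] = 2 * c := List.getElem_idxOf _
        have hj2 : j < t2.length := by omega
        have h4 : half (t2[j]) = c := by
          have h5 : (t1.map half)[j]'(by simpa using hj) =
              (t2.map half)[j]'(by simpa using hj2) := by
            simp only [he]
          rw [List.getElem_map, List.getElem_map, h3] at h5
          rw [← h5]
          unfold half; omega
        have h6 : t2[j] = 2 * c ∨ t2[j] = 2 * c + 1 := by
          rw [← h4]; unfold half; omega
        rcases h6 with h6 | h6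
        · have := h2.nd.idxOf_getElem j hj2
          rw [h6] at this
          exact this.symm
        · exfalso
          have h7 : t2[j] = t2[i] := by rw [h6, ← hy, hy2]
          have h8 : j = i := (List.Nodup.getElem_inj_iff h2.nd).1 h7
          have h9 : t1[j] = x := by rw [hx]; congr 1
          omega
      rw [if_neg this, hx2, hy2]

lemma G_lab {g : ℕ} {Cl : List ℕ → Prop} (hC : TCls g Cl) {t1 t2 : List ℕ} (h1 : Lab t1)
    (h2 : Lab t2) (he : t1.map half = t2.map half) : G g Cl t1 = G g Cl t2 := by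
  obtain ⟨ρ, hρ, key⟩ := lab_perm h1 h2 he
  have := G_ren hC ρ (Equiv.refl ℕ) hρ h1
  rw [key] at this
  exact this.symm

/-! ### the second move -/

lemma HS_insert {Cl : List ℕ → Prop} {c : ℕ} {K : Finset ℕ} (hc : c ∉ K) (t : List ℕ) :
    HS Cl (insert c K) t = ∑ T ∈ K.powerset,
      (ind (CC (CT Cl) (Sys (insert c K) T t)) +
        ind (CC (CT Cl) (Sys (insert c K) (insert c T) t))) := by
  unfold HS
  rw [Finset.sum_powerset_insert hc, Finset.sum_add_distrib]

lemma Bc_two {K K0 T : Finset ℕ} {t : List ℕ} (hctx : ∀ z ∈ t, 4 ≤ z)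
    (h : ∀ c, c ≠ 0 → c ≠ 1 → (c ∈ K ↔ c ∈ K0)) (h0 : 0 ∉ K0) (h1 : 1 ∉ K0) :
    Bc K T A2 t = Bc K0 T ∅ t := by
  unfold Bc
  have hdiff : K \ A2 = K0 \ ∅ := by
    ext x
    simp only [A2, Finset.mem_sdiff, Finset.mem_insert, Finset.notMem_empty,
      not_false_eq_true, and_true, or_false, not_or]
    constructor
    · rintro ⟨h2, h3, h4⟩
      exact (h x h4 h3).1 h2
    · intro h2
      have g0 : x ≠ 0 := by rintro rfl; exact h0 h2
      have g1 : x ≠ 1 := by rintro rfl; exact h1 h2
      exact ⟨(h x g0 g1).2 h2, g1, g0⟩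
  rw [hdiff]
  congr 2
  apply List.filter_congr
  intro x hx
  have := hctx x hx
  have g0 : half x ≠ 0 := by unfold half; omega
  have g1 : half x ≠ 1 := by unfold half; omega
  simp [h _ g0 g1]

lemma z3 {x y z : ZMod 2} (h : x + y = 0) (h2 : z = 0) : z + (x + y) = 0 := by
  rw [h, h2]; decide

theorem G_two {g : ℕ} {Cl : List ℕ → Prop} (hC : TCls g Cl) {s U V : List ℕ} (hs : s ∈ ordS)
    (ht : Lab ([0, 2] ++ U ++ s ++ V)) : G g Cl ([0, 2] ++ U ++ s ++ V) = G g Cl (U ++ V) := by
  have hCR := TCT_RR hC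
  have hg := ht.gauss
  have hmap : ([0, 2] ++ U ++ s ++ V).map half =
      [0, 1] ++ U.map half ++ s.map half ++ V.map half := by
    simp [half]
  rw [hmap] at hg
  have h01 : (0 : ℕ) ≠ 1 := by norm_num
  obtain ⟨a1, a2, a3, a4, hUV⟩ := hg.two h01 (half_S hs)
  have hctx : ∀ z ∈ U ++ V, 4 ≤ z := by
    intro z hz
    by_contra hlt
    have : half z = 0 ∨ half z = 1 := by unfold half; omega
    rcases List.mem_append.1 hz with hz | hz <;> rcases this with e | e
    · exact a1 (e ▸ List.mem_map_of_mem hz)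
    · exact a2 (e ▸ List.mem_map_of_mem hz)
    · exact a3 (e ▸ List.mem_map_of_mem hz)
    · exact a4 (e ▸ List.mem_map_of_mem hz)
  set K' := KK g ((U ++ V).map half) with hK'
  have hn : ∀ c, c < 2 → c ∉ K' := by
    intro c hc hh
    have := KK_sub g _ hh
    rw [List.mem_map] at this
    obtain ⟨z, hz, hzc⟩ := this
    have := hctx z hz
    unfold half at hzc
    omega
  have h0K : 0 ∉ K' := hn 0 (by norm_num)
  have h1K : 1 ∉ K' := hn 1 (by norm_num)
  obtain ⟨U', V', e1, e2⟩ := iter_two g h01 (half_S hs) hg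
  rw [← List.map_append] at e1
  -- the context
  have hav : ∀ T, Avoid 0 1 (R2 U V (Bc K' T ∅ (U ++ V))) := by
    intro T
    unfold R2
    refine avoid_append (avoid_Ew _ _ _ _ _) (avoid_append (avoid_Ew _ _ _ _ _) (avoid_Bc ?_))
    intro z hz
    have := hctx z hz
    unfold half; omega
  rcases e2 with e2 | e2
  · -- both chords are core chords
    have hK : KK g (([0, 2] ++ U ++ s ++ V).map half) = insert 0 (insert 1 K') := by
      rw [hmap, hK']
      unfold KK
      rw [e1, e2]
      ext x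
      have : x ∈ s.map half ↔ x = 0 ∨ x = 1 := by
        rcases half_S hs with e | e <;> rw [e] <;> simp [or_comm]
      simp only [List.mem_toFinset, List.mem_append, this, Finset.mem_insert,
        List.mem_cons, List.not_mem_nil, or_false]
      tauto
    have h0K1 : 0 ∉ insert 1 K' := by simp [h0K]
    unfold G
    rw [hK, Finset.sum_powerset_insert h0K1, Finset.sum_powerset_insert h1K,
      Finset.sum_powerset_insert h1K, ← hK', ← Finset.sum_add_distrib, ← Finset.sum_add_distrib,
      ← Finset.sum_add_distrib]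
    apply Finset.sum_congr rfl
    intro K0 hK0
    rw [Finset.mem_powerset] at hK0
    have k0 : 0 ∉ K0 := fun hh => h0K (hK0 hh)
    have k1 : 1 ∉ K0 := fun hh => h1K (hK0 hh)
    have k01 : 0 ∉ insert 1 K0 := by simp [k0]
    set t := [0, 2] ++ U ++ s ++ V with ht0
    have hRne : ∀ T, R2 U V (Bc K0 T ∅ (U ++ V)) ≠ [] := fun T => R2_ne _ _ _
    have hBc : ∀ (K T : Finset ℕ), (∀ c, c ≠ 0 → c ≠ 1 → (c ∈ K ↔ c ∈ K0)) →
        Bc K T A2 (U ++ V) = Bc K0 T ∅ (U ++ V) := fun K T h => Bc_two hctx h k0 k1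
    have hRf : ∀ T, ∀ n ∈ N2, Fresh n (R2 U V (Bc K0 T ∅ (U ++ V))) := by
      intro T n hnn
      rw [← hBc K0 T (fun _ _ _ => Iff.rfl)]
      exact fresh_R2 hctx n hnn
    have hav0 : ∀ T, Avoid 0 1 (R2 U V (Bc K0 T ∅ (U ++ V))) := by
      intro T
      unfold R2
      refine avoid_append (avoid_Ew _ _ _ _ _) (avoid_append (avoid_Ew _ _ _ _ _) (avoid_Bc ?_))
      intro z hz
      have := hctx z hz
      unfold half; omega
    -- a state
    have st : ∀ (C : List ℕ → Prop), RR C → ∀ (K T T' : Finset ℕ),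
        (∀ c, c ≠ 0 → c ≠ 1 → (c ∈ K ↔ c ∈ K0)) →
        (∀ c, c ≠ 0 → c ≠ 1 → (c ∈ T' ↔ c ∈ T)) →
        (CC C (Sys K T' t) ↔
        CC C (L2 [0, 2] s (loc K T' 0 ++ loc K T' 1) ++ R2 U V (Bc K0 T ∅ (U ++ V)))) := by
      intro C hCC K T T' hKK hTT
      rw [state2 hCC hs]
      have : Bc K T' A2 (U ++ V) = Bc K T A2 (U ++ V) := by
        apply Bc_congr
        intro c hc
        simp only [A2, Finset.mem_sdiff, Finset.mem_insert, Finset.notMem_empty, or_false,
          not_or] at hc
        exact hTT c hc.2.2 hc.2.1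
      rw [this, hBc K T hKK]
    -- both kept
    have hA : HS Cl K0 t = 0 := by
      unfold HS
      apply Finset.sum_eq_zero
      intro T _
      apply ind_false
      have hng := no_NT (g := g) ht (K := K0) (T := T) (by
        rw [hK]
        intro c hc
        simp [hK0 hc])
      rw [hK, st _ (NT_RR g _) K0 T T (fun _ _ _ => Iff.rfl) (fun _ _ _ => Iff.rfl),
        loc_x k0, loc_x k1] at hng
      rw [st _ hCR K0 T T (fun _ _ _ => Iff.rfl) (fun _ _ _ => Iff.rfl), loc_x k0, loc_x k1]
      have hbd : smx 0 ++ smx 1 = bd2 smx smx := rfl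
      rw [hbd] at hng ⊢
      rw [nf_says (NT_RR g _) N2 _ _ (hRf T) (hRne T), noneS hs] at hng
      rw [nf_says hCR N2 _ _ (hRf T) (hRne T), noneS hs]
      simp only [Says] at hng ⊢
      exact bigN hC (a := 0) (b := 1) h01 (by simp) (by simp)
        (P := ((1, true), [0, 2], (2, false)))
        (Q := ((3, true), s, (4, false))) (Or.inl (by simp [half])) (half_S hs) hng
    -- one kept
    have hB : HS Cl (insert 1 K0) t + HS Cl (insert 0 K0) t = 0 := by
      rw [HS_insert k1, HS_insert k0, ← Finset.sum_add_distrib]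
      apply Finset.sum_eq_zero
      intro T hT
      rw [Finset.mem_powerset] at hT
      have t0 : 0 ∉ T := fun hh => k0 (hT hh)
      have t1 : 1 ∉ T := fun hh => k1 (hT hh)
      have i1 : ∀ c, c ≠ 0 → c ≠ 1 → (c ∈ insert 1 K0 ↔ c ∈ K0) := by
        intro c _ g; simp [g]
      have i0 : ∀ c, c ≠ 0 → c ≠ 1 → (c ∈ insert 0 K0 ↔ c ∈ K0) := by
        intro c g _; simp [g]
      have j1 : ∀ c, c ≠ 0 → c ≠ 1 → (c ∈ insert 1 T ↔ c ∈ T) := by
        intro c _ g; simp [g]
      have j0 : ∀ c, c ≠ 0 → c ≠ 1 → (c ∈ insert 0 T ↔ c ∈ T) := by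
        intro c g _; simp [g]
      rw [ind_congr (st _ hCR (insert 1 K0) T T i1 (fun _ _ _ => Iff.rfl)),
        ind_congr (st _ hCR (insert 1 K0) T (insert 1 T) i1 j1),
        ind_congr (st _ hCR (insert 0 K0) T T i0 (fun _ _ _ => Iff.rfl)),
        ind_congr (st _ hCR (insert 0 K0) T (insert 0 T) i0 j0)]
      rw [loc_x k01, loc_o (show 1 ∈ insert 1 K0 by simp) t1,
        loc_x k01, loc_u (show 1 ∈ insert 1 K0 by simp) (show 1 ∈ insert 1 T by simp),
        loc_o (show 0 ∈ insert 0 K0 by simp) t0, loc_x (show 1 ∉ insert 0 K0 by simp [k1]),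
        loc_u (show 0 ∈ insert 0 K0 by simp) (show 0 ∈ insert 0 T by simp),
        loc_x (show 1 ∉ insert 0 K0 by simp [k1])]
      have q1 := ind_congr (halfT hC ckh_o hs (hRf T) (hRne T) (hav0 T))
      have q2 := ind_congr (halfT hC ckh_u hs (hRf T) (hRne T) (hav0 T))
      simp only [bd2] at q1 q2
      rw [← q1, ← q2]
      generalize ind _ = x
      generalize ind _ = y
      revert x y
      decide
    -- both smoothed
    have hD : HS Cl (insert 0 (insert 1 K0)) t = HS Cl K0 (U ++ V) := by
      rw [HS_insert k01, Finset.sum_powerset_insert k1, ← Finset.sum_add_distrib]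
      unfold HS
      apply Finset.sum_congr rfl
      intro T hT
      rw [Finset.mem_powerset] at hT
      have t0 : 0 ∉ T := fun hh => k0 (hT hh)
      have t1 : 1 ∉ T := fun hh => k1 (hT hh)
      have i01 : ∀ c, c ≠ 0 → c ≠ 1 → (c ∈ insert 0 (insert 1 K0) ↔ c ∈ K0) := by
        intro c g g'; simp [g, g']
      have m0 : 0 ∈ insert 0 (insert 1 K0) := by simp
      have m1 : 1 ∈ insert 0 (insert 1 K0) := by simp
      have st' : ∀ T', (∀ c, c ≠ 0 → c ≠ 1 → (c ∈ T' ↔ c ∈ T)) →
          ind (CC (CT Cl) (Sys (insert 0 (insert 1 K0)) T' t)) =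
          val (CT Cl) (R2 U V (Bc K0 T ∅ (U ++ V)))
            (nf N2 (L2 [0, 2] s (loc (insert 0 (insert 1 K0)) T' 0 ++
            loc (insert 0 (insert 1 K0)) T' 1))) := by
        intro T' hT'
        rw [ind_congr (st _ hCR _ T T' i01 hT')]
        exact val_nf hCR N2 _ _ (hRf T) (hRne T)
      rw [st' T (fun _ _ _ => Iff.rfl), st' (insert 1 T) (fun c _ g => by simp [g]),
        st' (insert 0 T) (fun c g _ => by simp [g]),
        st' (insert 0 (insert 1 T)) (fun c g g' => by simp [g, g'])]
      rw [loc_o m0 t0, loc_o m1 t1, loc_o m0 (show 0 ∉ insert 1 T by simp [t0]),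
        loc_u m1 (show 1 ∈ insert 1 T by simp),
        loc_u m0 (show 0 ∈ insert 0 T by simp), loc_o m1 (show 1 ∉ insert 0 T by simp [t1]),
        loc_u m0 (show 0 ∈ insert 0 (insert 1 T) by simp),
        loc_u m1 (show 1 ∈ insert 0 (insert 1 T) by simp)]
      have e3 : ind (CC (CT Cl) (Sys K0 T (U ++ V))) =
          val (CT Cl) (R2 U V (Bc K0 T ∅ (U ++ V))) (nf N2 (L2 [] [] [])) := by
        rw [ind_congr (state20 hCR _ _)]
        exact val_nf hCR N2 _ _ (hRf T) (hRne T)
      rw [e3]
      apply z2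
      have := cancel (CT Cl) (R2 U V (Bc K0 T ∅ (U ++ V))) _ (allEven_iff (evenS hs))
      simp only [List.map_cons, List.map_nil, List.sum_cons, List.sum_nil, add_zero] at this
      rw [← this]
      simp only [bd2]
      abel
    rw [hD, hA, zero_add, ← add_assoc, hB, zero_add]
  · -- both chords are lower chords
    have hK : KK g (([0, 2] ++ U ++ s ++ V).map half) = K' := by
      rw [hmap, hK']
      unfold KK
      rw [e1, e2]
    unfold G
    rw [hK, ← hK']
    apply Finset.sum_congr rfl
    intro K0 hK0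
    rw [Finset.mem_powerset] at hK0
    have k0 : 0 ∉ K0 := fun hh => h0K (hK0 hh)
    have k1 : 1 ∉ K0 := fun hh => h1K (hK0 hh)
    unfold HS
    apply Finset.sum_congr rfl
    intro T _
    apply ind_congr
    have hng := no_NT (g := g) ht (K := K0) (T := T) (by rw [hK]; exact hK0)
    rw [hK, state2 (NT_RR g _) hs, loc_x k0, loc_x k1] at hng
    rw [state2 hCR hs, loc_x k0, loc_x k1, state20 hCR]
    have hB : Bc K0 T A2 (U ++ V) = Bc K0 T ∅ (U ++ V) :=
      Bc_two hctx (fun _ _ _ => Iff.rfl) k0 k1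
    have hRf : ∀ n ∈ N2, Fresh n (R2 U V (Bc K0 T ∅ (U ++ V))) := by
      intro n hnn
      rw [← hB]
      exact fresh_R2 hctx n hnn
    rw [hB] at hng ⊢
    set R := R2 U V (Bc K0 T ∅ (U ++ V)) with hR
    have hRne : R ≠ [] := R2_ne _ _ _
    have hbd : smx 0 ++ smx 1 = bd2 smx smx := rfl
    rw [hbd] at hng ⊢
    rw [nf_says (NT_RR g _) N2 _ R hRf hRne, noneS hs] at hng
    rw [nf_says hCR N2 _ R hRf hRne, noneS hs, nf_says hCR N2 (L2 [] [] []) R hRf hRne, ck_20]
    simp only [Says] at hng ⊢
    exact bigT hC (a := 0) (b := 1) h01 h0K h1K (P := ((1, true), [0, 2], (2, false)))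
      (Q := ((3, true), s, (4, false))) (S := R) (Or.inl (by simp [half])) (half_S hs) hng

end Pool.Agent.Run7.h906
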