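import Mathlib
import Pool.Agent.Run7.h906.TopC

set_option linter.unusedSimpArgs false

namespace Pool.Agent.Run7.h906

theorem G_three {g : ℕ} {Cl : List ℕ → Prop} (hC : TCls g Cl) {p q r U V W : List ℕ}
    (hp : p ∈ ordP) (hq : q ∈ ordQ) (hr : r ∈ ordR) (ht : Lab (tw p q r U V W))
    (hh : strip^[g + 1] ((tw p q r U V W).map half) = []) :
    G g Cl (tw p q r U V W) = G g Cl (tw p.reverse q.reverse r.reverse U V W) := by
  have hCR := TCT_RR hC
  have hp' := ordP_rev hp
  have hq' := ordQ_rev hq
  have hr' := ordR_rev hr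
  have hperm : (tw p q r U V W).Perm (tw p.reverse q.reverse r.reverse U V W) :=
    (tw_perm hp hq hr).trans (tw_perm hp' hq' hr').symm
  have ht' : Lab (tw p.reverse q.reverse r.reverse U V W) := ht.perm hperm
  have htri := tri_of hp hq hr
  have hg := ht.gauss
  have hmap := map_tw half p q r U V W
  have hmap' : (tw p.reverse q.reverse r.reverse U V W).map half =
      tw (p.map half).reverse (q.map half).reverse (r.map half).reverse (U.map half)
        (V.map half) (W.map half) := by
    rw [map_tw, List.map_reverse, List.map_reverse, List.map_reverse]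
  rw [hmap] at hg hh
  have hfr := htri.fresh hg
  have hctx : ∀ z ∈ U ++ V ++ W, 6 ≤ z := by
    intro z hz
    by_contra hlt
    have h3 : half z = 0 ∨ half z = 1 ∨ half z = 2 := by unfold half; omega
    obtain ⟨g1, g2, g3⟩ := hfr (half z) h3
    simp only [List.mem_append] at hz
    rcases hz with (hz | hz) | hz
    · exact g1 (List.mem_map_of_mem hz)
    · exact g2 (List.mem_map_of_mem hz)
    · exact g3 (List.mem_map_of_mem hz)
  have hhalf : ∀ z ∈ U ++ V ++ W, 3 ≤ half z := by
    intro z hz
    have := hctx z hz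
    unfold half; omega
  -- the core is the same and contains at most one of the three chords
  obtain ⟨hs1, hs2⟩ : strip^[g] (tw (p.map half) (q.map half) (r.map half) (U.map half)
      (V.map half) (W.map half)) = strip^[g] (tw (p.map half).reverse (q.map half).reverse
      (r.map half).reverse (U.map half) (V.map half) (W.map half)) ∧
      AtMost 0 1 2 (strip^[g] (tw (p.map half) (q.map half) (r.map half) (U.map half)
      (V.map half) (W.map half))) := by
    rcases iter_three g htri hg with ⟨U', V', W', e1, e2⟩ | h2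
    · exfalso
      rw [Function.iterate_succ_apply', e1] at hh
      have hg1 : Gauss (tw (p.map half) (q.map half) (r.map half) U' V' W') := by
        rw [← e1]; exact hg.iter g
      have hpar := htri.par hg1
      have hz : ∀ x ∈ tw (p.map half) (q.map half) (r.map half) U' V' W',
          ps x (tw (p.map half) (q.map half) (r.map half) U' V' W') % 2 = 0 := by
        intro x hx
        rw [strip_eq hg1, List.filter_eq_nil_iff] at hh
        have := hh x hx
        unfold h906.evn at this
        simp only [beq_iff_eq] at this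
        omega
      have f1 : 0 ∈ p.map half ∧ 1 ∈ p.map half := by
        rcases htri.hp with e | e <;> rw [e] <;> simp
      have f2 : 2 ∈ q.map half := by
        rcases htri.hq with e | e <;> rw [e] <;> simp
      have z0 := hz 0 (by unfold tw; simp [f1.1])
      have z1 := hz 1 (by unfold tw; simp only [List.mem_append, f1.2, true_or])
      have z2 := hz 2 (by unfold tw; simp only [List.mem_append, f2, true_or, or_true])
      omega
    · exact h2
  have hK : KK g ((tw p q r U V W).map half) =
      KK g ((tw p.reverse q.reverse r.reverse U V W).map half) := by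
    rw [hmap, hmap']
    unfold KK
    rw [hs1]
  set X := KK g ((tw p q r U V W).map half) with hX
  have hpat : ¬ (0 ∈ X ∧ 1 ∈ X) ∧ ¬ (0 ∈ X ∧ 2 ∈ X) ∧ ¬ (1 ∈ X ∧ 2 ∈ X) := by
    rw [hX, hmap]
    unfold KK
    simp only [List.mem_toFinset]
    exact hs2
  have hRne : ∀ B, R3 U V W B ≠ [] := R3_ne U V W
  -- value of a state
  have stc : ∀ (C : List ℕ → Prop), RR C → ∀ (p q r : List ℕ), p ∈ ordP → q ∈ ordQ →
      r ∈ ordR → ∀ K T,
      (CC C (Sys K T (tw p q r U V W)) ↔
      CC C (L3 p q r (loc K T 0 ++ (loc K T 1 ++ loc K T 2)) ++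
        R3 U V W (Bc K T A3 (U ++ V ++ W)))) := by
    intro C hCC p q r hp hq hr K T
    rw [state3 hCC hp hq hr]
  unfold G
  rw [← hK]
  apply Finset.sum_congr rfl
  intro K hKs
  rw [Finset.mem_powerset] at hKs
  unfold HS
  apply Finset.sum_congr rfl
  intro T _
  apply ind_congr
  have hng := no_NT (g := g) ht (K := K) (T := T) hKs
  have hng' := no_NT (g := g) ht' (K := K) (T := T) (by rw [← hK]; exact hKs)
  rw [← hX, stc _ (NT_RR g X) p q r hp hq hr K T] at hng
  rw [← hK, stc _ (NT_RR g X) _ _ _ hp' hq' hr' K T] at hng'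
  rw [stc _ hCR p q r hp hq hr K T, stc _ hCR _ _ _ hp' hq' hr' K T]
  set R := R3 U V W (Bc K T A3 (U ++ V ++ W)) with hR
  have hRf : ∀ n ∈ N3, Fresh n R := fresh_R3 hctx
  have hav : ∀ x y, x < 3 → y < 3 → Avoid x y R := by
    intro x y hx hy
    rw [hR]
    unfold R3
    refine avoid_append (avoid_Ew _ _ _ _ _) (avoid_append (avoid_Ew _ _ _ _ _)
      (avoid_append (avoid_Ew _ _ _ _ _) (avoid_Bc ?_)))
    intro z hz
    have := hhalf z hz
    omega
  have fin : ∀ (x y : ℕ) (body : List Piece), x ≠ y → x < 3 → y < 3 → x ∉ X → y ∉ X →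
      ckst x y body = true →
      ¬ CC (NT g X) (L3 p q r body ++ R) →
      ¬ CC (NT g X) (L3 p.reverse q.reverse r.reverse body ++ R) →
      (CC (CT Cl) (L3 p q r body ++ R) ↔
        CC (CT Cl) (L3 p.reverse q.reverse r.reverse body ++ R)) := by
    intro x y body hxy hx hy hxX hyX hck h1 h2
    exact stT hC hxy hxX hyX N3 (use_ck hck hp hq hr) hRf (hRne _) (hav x y hx hy) h1 h2
  obtain ⟨n01, n02, n12⟩ := hpat
  by_cases m0 : 0 ∈ K
  · have x0 := hKs m0
    have x1 : 1 ∉ X := fun hh => n01 ⟨x0, hh⟩
    have x2 : 2 ∉ X := fun hh => n02 ⟨x0, hh⟩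
    have m1 : 1 ∉ K := fun hh => x1 (hKs hh)
    have m2 : 2 ∉ K := fun hh => x2 (hKs hh)
    rw [loc_x m1, loc_x m2] at hng hng' ⊢
    by_cases t0 : 0 ∈ T
    · rw [loc_u m0 t0] at hng hng' ⊢
      exact fin 1 2 _ (by norm_num) (by norm_num) (by norm_num) x1 x2 ck_a_u hng hng'
    · rw [loc_o m0 t0] at hng hng' ⊢
      exact fin 1 2 _ (by norm_num) (by norm_num) (by norm_num) x1 x2 ck_a_o hng hng'
  · by_cases m1 : 1 ∈ K
    · have x1 := hKs m1
      have x0 : 0 ∉ X := fun hh => n01 ⟨hh, x1⟩
      have x2 : 2 ∉ X := fun hh => n12 ⟨x1, hh⟩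
      have m2 : 2 ∉ K := fun hh => x2 (hKs hh)
      rw [loc_x m0, loc_x m2] at hng hng' ⊢
      by_cases t1 : 1 ∈ T
      · rw [loc_u m1 t1] at hng hng' ⊢
        exact fin 0 2 _ (by norm_num) (by norm_num) (by norm_num) x0 x2 ck_b_u hng hng'
      · rw [loc_o m1 t1] at hng hng' ⊢
        exact fin 0 2 _ (by norm_num) (by norm_num) (by norm_num) x0 x2 ck_b_o hng hng'
    · by_cases m2 : 2 ∈ K
      · have x2 := hKs m2
        have x0 : 0 ∉ X := fun hh => n02 ⟨hh, x2⟩
        have x1 : 1 ∉ X := fun hh => n12 ⟨hh, x2⟩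
        rw [loc_x m0, loc_x m1] at hng hng' ⊢
        by_cases t2 : 2 ∈ T
        · rw [loc_u m2 t2] at hng hng' ⊢
          exact fin 0 1 _ (by norm_num) (by norm_num) (by norm_num) x0 x1 ck_c_u hng hng'
        · rw [loc_o m2 t2] at hng hng' ⊢
          exact fin 0 1 _ (by norm_num) (by norm_num) (by norm_num) x0 x1 ck_c_o hng hng'
      · rw [loc_x m0, loc_x m1, loc_x m2]
        have hbd : smx 0 ++ (smx 1 ++ smx 2) = bd3 smx smx smx := rfl
        rw [hbd]
        rw [nf_says hCR N3 _ R hRf (hRne _), use_none hp hq hr,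
          nf_says hCR N3 _ R hRf (hRne _), use_none hp' hq' hr']
        simp only [Says, List.cons_append, List.nil_append]
        constructor
        · intro hh
          exact triT hC (P := ((1, true), p, (2, false))) (Q := ((3, true), q, (4, false)))
            (R := ((5, true), r, (6, false))) htri hh
        · intro hh
          have htri' : Tri 0 1 2 (p.reverse.map half) (q.reverse.map half)
              (r.reverse.map half) := tri_of hp' hq' hr'
          have := triT hC (P := ((1, true), p.reverse, (2, false)))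
            (Q := ((3, true), q.reverse, (4, false)))
            (R := ((5, true), r.reverse, (6, false))) htri' hh
          simpa [rw'] using this

end Pool.Agent.Run7.h906
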