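import Mathlib
import Pool.Agent.Run7.h906.TopD
import Pool.Agent.Run7.h906.TopDefs

set_option linter.unusedSimpArgs false

namespace Pool.Agent.Run7.h906

lemma G_two_plain {g : ℕ} {Cl : List ℕ → Prop} (hC : TCls g Cl) {a b : ℕ} {s U V : List ℕ}
    (hab : a ≠ b) (hs : s = [a, b] ∨ s = [b, a])
    (hg : Gauss ([a, b] ++ U ++ s ++ V)) {t t' : List ℕ} (ht : Lab t) (ht' : Lab t')
    (e : t.map half = [a, b] ++ U ++ s ++ V) (e' : t'.map half = U ++ V) :
    G g Cl t = G g Cl t' := by
  obtain ⟨aU, bU, aV, bV, _⟩ := hg.two hab hs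
  obtain ⟨σ, sa, sb⟩ := perm2 hab
  rw [List.map_eq_append_iff] at e'
  obtain ⟨tU, tV, rfl, eU, eV⟩ := e'
  set U1 := tU.map (tp σ) with hU1
  set V1 := tV.map (tp σ) with hV1
  have hl1 : Lab (U1 ++ V1) := by
    rw [hU1, hV1, ← List.map_append]
    exact ht'.map_tp σ
  obtain ⟨s1, hs1, es1⟩ : ∃ s1 ∈ ordS, s1.map half = s.map σ := by
    rcases hs with rfl | rfl
    · exact ⟨[1, 3], by decide, by simp [half, sa, sb]⟩
    · exact ⟨[3, 1], by decide, by simp [half, sa, sb]⟩
  have hn : ∀ x ∈ U1 ++ V1, 4 ≤ x := by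
    intro x hx
    rw [hU1, hV1, ← List.map_append, List.mem_map] at hx
    obtain ⟨y, hy, rfl⟩ := hx
    have hy' : half y ∈ U ++ V := by
      rw [← eU, ← eV, ← List.map_append]
      exact List.mem_map_of_mem hy
    have h1 : half y ≠ a := by
      intro hh
      rw [hh, List.mem_append] at hy'
      rcases hy' with hh | hh
      · exact aU hh
      · exact aV hh
    have h2 : half y ≠ b := by
      intro hh
      rw [hh, List.mem_append] at hy'
      rcases hy' with hh | hh
      · exact bU hh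
      · exact bV hh
    have h3 : half (tp σ y) ≠ 0 := by
      rw [half_tp, ← sa]
      intro hh
      exact h1 (σ.injective hh)
    have h4 : half (tp σ y) ≠ 1 := by
      rw [half_tp, ← sb]
      intro hh
      exact h2 (σ.injective hh)
    unfold half at h3 h4
    omega
  have hl2 : Lab ([0, 2] ++ U1 ++ s1 ++ V1) := by
    have hl3 : Lab ([0, 1, 2, 3] ++ (U1 ++ V1)) := by
      apply hl1.add ⟨by decide, by decide⟩
      intro x hx hx1
      have := hn x hx1
      simp only [List.mem_cons, List.not_mem_nil, or_false] at hx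
      omega
    apply hl3.perm
    have h1 : (s1 : Multiset ℕ) = {1} + {3} := by
      simp only [ordS, List.mem_cons, List.not_mem_nil, or_false] at hs1
      rcases hs1 with rfl | rfl <;> decide
    have h2 : (([0, 2] : List ℕ) : Multiset ℕ) = {0} + {2} := by decide
    have h4 : (([0, 1, 2, 3] : List ℕ) : Multiset ℕ) = {0} + {1} + {2} + {3} := by decide
    rw [← Multiset.coe_eq_coe]
    simp only [← Multiset.coe_add, h1, h2, h4]
    abel
  have e2 : (t.map (tp σ)).map half = ([0, 2] ++ U1 ++ s1 ++ V1).map half := by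
    rw [map_half_tp, e]
    simp only [List.map_append, es1, hU1, hV1, map_half_tp, eU, eV]
    simp [sa, sb, half]
  rw [← G_ren hC (tp σ) σ (half_tp σ) ht, G_lab hC (ht.map_tp σ) hl2 e2, G_two hC hs1 hl2,
    hU1, hV1, ← List.map_append, G_ren hC (tp σ) σ (half_tp σ) ht']

lemma G_three_plain {g : ℕ} {Cl : List ℕ → Prop} (hC : TCls g Cl) {a b c : ℕ}
    {p q r U V W : List ℕ} (htr : Tri a b c p q r)
    (hg : Gauss (tw p q r U V W)) (hh : strip^[g + 1] (tw p q r U V W) = [])
    {t t' : List ℕ} (ht : Lab t) (ht' : Lab t')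
    (e : t.map half = tw p q r U V W)
    (e' : t'.map half = tw p.reverse q.reverse r.reverse U V W) :
    G g Cl t = G g Cl t' := by
  obtain ⟨σ, sa, sb, sc⟩ := perm3 htr.hab htr.hac htr.hbc
  have hfr := htr.fresh hg
  -- a labelling of the context
  obtain ⟨tc, hlc, ec⟩ := exists_lab _ (htr.ctx hg)
  rw [List.map_eq_append_iff] at ec
  obtain ⟨tUV, tW, rfl, eUV, eW⟩ := ec
  rw [List.map_eq_append_iff] at eUV
  obtain ⟨tU, tV, rfl, eU, eV⟩ := eUV
  set U1 := tU.map (tp σ) with hU1
  set V1 := tV.map (tp σ) with hV1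
  set W1 := tW.map (tp σ) with hW1
  have hl1 : Lab (U1 ++ V1 ++ W1) := by
    rw [hU1, hV1, hW1, ← List.map_append, ← List.map_append]
    exact hlc.map_tp σ
  obtain ⟨p1, hp1, ep1⟩ : ∃ p1 ∈ ordP, p1.map half = p.map σ := by
    rcases htr.hp with rfl | rfl
    · exact ⟨[0, 2], by decide, by simp [half, sa, sb]⟩
    · exact ⟨[2, 0], by decide, by simp [half, sa, sb]⟩
  obtain ⟨q1, hq1, eq1⟩ : ∃ q1 ∈ ordQ, q1.map half = q.map σ := by
    rcases htr.hq with rfl | rfl
    · exact ⟨[1, 4], by decide, by simp [half, sa, sc]⟩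
    · exact ⟨[4, 1], by decide, by simp [half, sa, sc]⟩
  obtain ⟨r1, hr1, er1⟩ : ∃ r1 ∈ ordR, r1.map half = r.map σ := by
    rcases htr.hr with rfl | rfl
    · exact ⟨[3, 5], by decide, by simp [half, sb, sc]⟩
    · exact ⟨[5, 3], by decide, by simp [half, sb, sc]⟩
  have hn : ∀ x ∈ U1 ++ V1 ++ W1, 6 ≤ x := by
    intro x hx
    rw [hU1, hV1, hW1, ← List.map_append, ← List.map_append, List.mem_map] at hx
    obtain ⟨y, hy, rfl⟩ := hx
    have hy' : half y ∈ U ++ V ++ W := by
      rw [← eU, ← eV, ← eW, ← List.map_append, ← List.map_append]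
      exact List.mem_map_of_mem hy
    have hne : ¬ (half y = a ∨ half y = b ∨ half y = c) := by
      intro hh
      obtain ⟨g1, g2, g3⟩ := hfr _ hh
      simp only [List.mem_append] at hy'
      tauto
    push Not at hne
    obtain ⟨n1, n2, n3⟩ := hne
    have h3 : half (tp σ y) ≠ 0 := by
      rw [half_tp, ← sa]
      exact fun hh => n1 (σ.injective hh)
    have h4 : half (tp σ y) ≠ 1 := by
      rw [half_tp, ← sb]
      exact fun hh => n2 (σ.injective hh)
    have h5 : half (tp σ y) ≠ 2 := by
      rw [half_tp, ← sc]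
      exact fun hh => n3 (σ.injective hh)
    unfold half at h3 h4 h5
    omega
  have hl0 : Lab ([0, 1] ++ ([2, 3] ++ ([4, 5] ++ (U1 ++ V1 ++ W1)))) := by
    have : Lab ([0, 1, 2, 3, 4, 5] ++ (U1 ++ V1 ++ W1)) := by
      apply hl1.add ⟨by decide, by decide⟩
      intro x hx hx1
      have := hn x hx1
      simp only [List.mem_cons, List.not_mem_nil, or_false] at hx
      omega
    simpa using this
  have hl2 : Lab (tw p1 q1 r1 U1 V1 W1) := hl0.perm (tw_perm hp1 hq1 hr1).symm
  have hl3 : Lab (tw p1.reverse q1.reverse r1.reverse U1 V1 W1) :=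
    hl0.perm (tw_perm (ordP_rev hp1) (ordQ_rev hq1) (ordR_rev hr1)).symm
  have e2 : (t.map (tp σ)).map half = (tw p1 q1 r1 U1 V1 W1).map half := by
    rw [map_half_tp, e, map_tw, map_tw, ep1, eq1, er1, hU1, hV1, hW1, map_half_tp,
      map_half_tp, map_half_tp, eU, eV, eW]
  have e3 : (t'.map (tp σ)).map half =
      (tw p1.reverse q1.reverse r1.reverse U1 V1 W1).map half := by
    rw [map_half_tp, e', map_tw, map_tw, List.map_reverse, List.map_reverse, List.map_reverse,
      List.map_reverse, List.map_reverse, List.map_reverse, ep1, eq1, er1, hU1, hV1, hW1,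
      map_half_tp, map_half_tp, map_half_tp, eU, eV, eW]
  have hh' : strip^[g + 1] ((tw p1 q1 r1 U1 V1 W1).map half) = [] := by
    rw [← e2, map_half_tp, iter_ren _ σ ht.gauss, e, hh]
    rfl
  rw [← G_ren hC (tp σ) σ (half_tp σ) ht, G_lab hC (ht.map_tp σ) hl2 e2,
    G_three hC hp1 hq1 hr1 hl2 hh', ← G_lab hC (ht'.map_tp σ) hl3 e3,
    G_ren hC (tp σ) σ (half_tp σ) ht']

lemma G_step {g : ℕ} {Cl : List ℕ → Prop} (hC : TCls g Cl) {w w' : List ℕ}
    (hs : HStep (g + 1) w w') {t t' : List ℕ} (ht : Lab t) (ht' : Lab t')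
    (e : t.map half = w) (e' : t'.map half = w') : G g Cl t = G g Cl t' := by
  obtain ⟨hg, hg', h1, h2, hm⟩ := hs
  cases hm with
  | rot U V =>
    rw [List.map_eq_append_iff] at e
    obtain ⟨tU, tV, rfl, eU, eV⟩ := e
    have hl : Lab (tV ++ tU) := ht.perm List.perm_append_comm
    rw [G_rot hC ht]
    apply G_lab hC hl ht'
    rw [List.map_append, eU, eV, e']
  | rev =>
    rw [← G_rev ht]
    apply G_lab hC (ht.perm (List.reverse_perm _).symm) ht'
    rw [List.map_reverse, e, e']
  | ren σ =>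
    rw [← G_ren hC (tp σ) σ (half_tp σ) ht]
    apply G_lab hC (ht.map_tp σ) ht'
    rw [map_half_tp, e, e']
  | anti a b U V hab => exact G_two_plain hC hab (Or.inr rfl) hg ht ht' e e'
  | par a b U V hab => exact G_two_plain hC hab (Or.inl rfl) hg ht ht' e e'
  | three a b c p q r U V W hab hac hbc hp hq hr =>
    exact G_three_plain hC ⟨hab, hac, hbc, hp, hq, hr⟩ hg h1 ht ht' e e'

theorem G_inv {g : ℕ} {Cl : List ℕ → Prop} (hC : TCls g Cl) {w w' : List ℕ}
    (hw : HEq (g + 1) w w') : ∀ {t t' : List ℕ}, Lab t → Lab t' → t.map half = w →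
      t'.map half = w' → G g Cl t = G g Cl t' := by
  induction hw with
  | rel x y hxy => intro t t' ht ht' e e'; exact G_step hC hxy ht ht' e e'
  | refl x => intro t t' ht ht' e e'; exact G_lab hC ht ht' (e.trans e'.symm)
  | symm x y _ ih => intro t t' ht ht' e e'; exact (ih ht' ht e' e).symm
  | trans x y z hxy _ ih1 ih2 =>
    intro t t' ht ht' e e'
    have hg : Gauss y := (FreeEq_gauss (HEq_free hxy)).1 (e ▸ ht.gauss)
    obtain ⟨s, hs, es⟩ := exists_lab y hg
    exact (ih1 ht hs e es).trans (ih2 hs ht' es e')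

/-! ### the class -/

lemma TEq_HEq {g : ℕ} {a b : List ℕ} (hab : TEq g a b) : HEq (g + 1) a b := by
  induction hab with
  | rel x y hxy => exact .rel _ _ hxy.1
  | refl x => exact .refl _
  | symm x y _ ih => exact .symm _ _ ih
  | trans x y z _ _ ih1 ih2 => exact .trans _ _ _ ih1 ih2

lemma TEq_len {g : ℕ} {a b : List ℕ} (hab : TEq g a b) :
    (strip^[g] a).length = (strip^[g] b).length := by
  induction hab with
  | rel x y hxy => exact hxy.2
  | refl x => rfl
  | symm x y _ ih => exact ih.symm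
  | trans x y z _ _ ih1 ih2 => exact ih1.trans ih2

lemma class_TCls {g : ℕ} {w0 : List ℕ} (h0 : GoodW (g + 1) w0)
    (hirr : ∀ v, TEq g w0 v → ¬ TopBigon g v) : TCls g (TEq g w0) where
  gauss w hw := ((HEq_good (TEq_HEq hw)).1 h0).1
  rot u v hu := by
    have hg := (HEq_good (TEq_HEq hu)).1 h0
    refine hu.trans _ _ _ (.rel _ _ ⟨⟨hg.1, hg.rot.1, hg.2, hg.rot.2, Move.rot u v⟩, ?_⟩)
    obtain ⟨u', v', e1, e2⟩ := iter_rot g hg.1
    rw [e1, e2]
    simp [add_comm]
  rev u hu := by
    have hg := (HEq_good (TEq_HEq hu)).1 h0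
    refine hu.trans _ _ _ (.rel _ _ ⟨⟨hg.1, hg.rev.1, hg.2, hg.rev.2, Move.rev u⟩, ?_⟩)
    rw [iter_rev g hg.1]
    simp
  ren σ u hu := by
    have hg := (HEq_good (TEq_HEq hu)).1 h0
    refine hu.trans _ _ _
      (.rel _ _ ⟨⟨hg.1, (hg.ren σ).1, hg.2, (hg.ren σ).2, Move.ren σ u⟩, ?_⟩)
    rw [iter_ren g σ hg.1]
    simp
  two a b s U V hab hs hg ha := by
    obtain ⟨U', V', e1, e2⟩ := iter_two g hab hs hg
    have e3 : strip^[g] ([a, b] ++ U ++ s ++ V) = strip^[g] (U ++ V) := by
      rcases e2 with e2 | e2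
      · exfalso
        apply ha
        rw [e2]
        simp
      · rw [e1, e2]
    have e4 : strip^[g + 1] ([a, b] ++ U ++ s ++ V) = strip^[g + 1] (U ++ V) := by
      rw [Function.iterate_succ_apply', Function.iterate_succ_apply', e3]
    have hg2 : Gauss (U ++ V) := (hg.two hab hs).2.2.2.2
    have step : strip^[g + 1] (U ++ V) = [] → TStep g ([a, b] ++ U ++ s ++ V) (U ++ V) := by
      intro hh
      refine ⟨⟨hg, hg2, e4.trans hh, hh, ?_⟩, by rw [e3]⟩
      rcases hs with rfl | rfl
      · exact Move.par a b U V hab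
      · exact Move.anti a b U V hab
    constructor
    · intro hu
      have hgd := (HEq_good (TEq_HEq hu)).1 h0
      exact hu.trans _ _ _ (.rel _ _ (step (e4 ▸ hgd.2)))
    · intro hu
      have hgd := (HEq_good (TEq_HEq hu)).1 h0
      exact hu.trans _ _ _ (.symm _ _ (.rel _ _ (step hgd.2)))
  notop a b s U V hab hs ha hu := hirr _ hu ⟨a, b, s, U, V, hab, hs, rfl, ha⟩
  nokink a U hu := by
    have hgd := (HEq_good (TEq_HEq hu)).1 h0
    have := hgd.2
    rw [iter_one (g + 1) hgd.1] at this
    simp at this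
  three a b c p q r U V W ht hu := by
    have hg := (HEq_good (TEq_HEq hu)).1 h0
    have hg' := hg.three ht
    refine hu.trans _ _ _ (.rel _ _ ⟨⟨hg.1, hg'.1, hg.2, hg'.2,
      Move.three a b c p q r U V W ht.hab ht.hac ht.hbc ht.hp ht.hq ht.hr⟩, ?_⟩)
    rcases iter_three g ht hg.1 with ⟨U', V', W', e1, e2⟩ | ⟨e1, _⟩
    · rw [e1, e2]
      simp [tw]
    · rw [e1]

lemma filter_len {K : Finset ℕ} {A : List ℕ} (hK : K ⊆ A.toFinset)
    (h : (A.filter (fun a => decide (a ∉ K))).length = A.length) : K = ∅ := by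
  rw [List.length_filter_eq_length_iff] at h
  rw [Finset.eq_empty_iff_forall_notMem]
  intro c hc
  have := h c (List.mem_toFinset.1 (hK hc))
  simp only [decide_eq_true_eq] at this
  exact this hc

lemma G_only {g : ℕ} {w0 : List ℕ} (hC : TCls g (TEq g w0)) {t : List ℕ} (ht : Lab t)
    (hlen : (strip^[g] (t.map half)).length = (strip^[g] w0).length) :
    G g (TEq g w0) t = ind (TEq g w0 (t.map half)) := by
  unfold G
  rw [Finset.sum_eq_single ∅]
  · unfold HS
    rw [Finset.powerset_empty, Finset.sum_singleton]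
    exact ind_congr (Sys_empty (TCT_RR hC) ∅ ht.nd)
  · intro K hK hne
    rw [Finset.mem_powerset] at hK
    unfold HS
    apply Finset.sum_eq_zero
    intro T _
    apply ind_false
    rintro ⟨l, p, h1, h2, h3⟩
    obtain ⟨_, hp, _⟩ := tour_core ht hK h1 h2
    apply hne
    have e1 := TEq_len h3
    have e2 := hp.length_eq
    apply filter_len (A := strip^[g] (t.map half)) hK
    rw [← e2, ← e1, hlen]
  · intro h
    exact absurd (Finset.empty_mem_powerset _) h

/-- the theorem inside the class -/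
theorem top_class {g : ℕ} {w w' : List ℕ} (hw : GoodW (g + 1) w)
    (hirr : ∀ v, TEq g w v → ¬ TopBigon g v) (heq : HEq (g + 1) w w') :
    (strip^[g] w).length ≤ (strip^[g] w').length ∧
    ((strip^[g] w).length = (strip^[g] w').length → TEq g w w') := by
  have hC := class_TCls hw hirr
  have hw' : GoodW (g + 1) w' := (HEq_good heq).1 hw
  obtain ⟨t, ht, et⟩ := exists_lab w hw.1
  obtain ⟨t', ht', et'⟩ := exists_lab w' hw'.1
  have h1 : G g (TEq g w) t = 1 := by
    rw [G_only hC ht (by rw [et]), et]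
    exact ind_true (.refl _)
  have h2 := G_inv hC heq ht ht' et et'
  rw [h1] at h2
  constructor
  · by_contra hlt
    push Not at hlt
    have : G g (TEq g w) t' = 0 := by
      unfold G
      apply Finset.sum_eq_zero
      intro K hK
      rw [Finset.mem_powerset] at hK
      unfold HS
      apply Finset.sum_eq_zero
      intro T _
      apply ind_false
      rintro ⟨l, p, h3, h4, h5⟩
      obtain ⟨_, hp, _⟩ := tour_core ht' hK h3 h4
      have e1 := TEq_len h5
      have e2 := hp.length_eq
      have e3 := List.length_filter_le (fun a => decide (a ∉ K)) (strip^[g] (t'.map half))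
      rw [et'] at e2 e3
      omega
    rw [this] at h2
    exact absurd h2 (by decide)
  · intro hlen
    rw [G_only hC ht' (by rw [et', hlen]), et'] at h2
    by_contra hcon
    rw [ind_false hcon] at h2
    exact absurd h2 (by decide)

/-- the general theorem -/
theorem top_general {g : ℕ} {w w' : List ℕ} (hw : Gauss w) (hh : strip^[g + 1] w = [])
    (hirr : ∀ v, TEq g w v → ¬ TopBigon g v) (heq : FreeEq w w') :
    (strip^[g] w).length + (strip^[g + 1] w').length ≤ (strip^[g] w').length ∧
    ((strip^[g] w).length + (strip^[g + 1] w').length = (strip^[g] w').length →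
      ∃ v, TEq g w v ∧ v.Perm (w'.filter (fun a => decide (a ∉ strip^[g + 1] w')))) ∧
    (strip^[g + 1] w' = [] → (strip^[g] w).length = (strip^[g] w').length → TEq g w w') := by
  have hgw : GoodW (g + 1) w := ⟨hw, hh⟩
  have hC := class_Cls (h := g + 1) (w0 := w) hgw
  have hw' : Gauss w' := (FreeEq_gauss heq).1 hw
  obtain ⟨t, ht, et⟩ := exists_lab w hw
  obtain ⟨t', ht', et'⟩ := exists_lab w' hw'
  have h1 : F (g + 1) (HEq (g + 1) w) t = 1 := by
    rw [F_good hC ht (by rw [et]; exact hh), et]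
    exact ind_true (.refl _)
  have h2 := F_inv hC heq ht ht' et et'
  rw [h1] at h2
  have h4 : ∃ T ∈ (KK (g + 1) (t'.map half)).powerset,
      CC (CT (HEq (g + 1) w)) (Sys (KK (g + 1) (t'.map half)) T t') := by
    by_contra hcon
    push Not at hcon
    unfold F at h2
    rw [Finset.sum_eq_zero (fun T hT => ind_false (hcon T hT))] at h2
    exact absurd h2 (by decide)
  obtain ⟨T, _, l, p, h5, h6, h7⟩ := h4
  have hKs : KK (g + 1) (t'.map half) ⊆ KK g (t'.map half) := by
    intro c hc
    unfold KK at hc ⊢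
    rw [List.mem_toFinset] at hc ⊢
    rw [Function.iterate_succ_apply'] at hc
    exact strip_sub _ hc
  obtain ⟨_, hp, _⟩ := tour_core ht' hKs h5 h6
  have h8 : ((word l).map half).Perm
      (w'.filter (fun a => decide (a ∉ strip^[g + 1] w'))) := by
    have h8 := (word_perm h6).map half
    rw [word_Sys] at h8
    refine h8.trans ?_
    rw [et', ← et', List.filter_map, et']
    apply List.Perm.of_eq
    congr 1
    apply List.filter_congr
    intro x _
    show decide (half x ∉ KK (g + 1) w') = decide (half x ∉ strip^[g + 1] w')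
    apply decide_eq_decide.2
    unfold KK
    rw [List.mem_toFinset]
  obtain ⟨v, hv⟩ : ∃ v, v = (word l).map half := ⟨_, rfl⟩
  unfold CT at h7
  rw [← hv] at h7 h8 hp
  rw [et'] at hp
  obtain ⟨h9, h10⟩ := top_class hgw hirr h7
  -- number of core letters of the state
  have h11 : (strip^[g] v).length + (strip^[g + 1] w').length = (strip^[g] w').length := by
    have e1 := hp.length_eq
    have hgs : Gauss (strip^[g] w') := hw'.iter g
    have e2 : strip^[g + 1] w' = (strip^[g] w').filter
        (fun a => !decide (a ∉ KK (g + 1) w')) := by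
      conv_lhs => rw [Function.iterate_succ_apply', strip_eq hgs]
      apply List.filter_congr
      intro x hx
      unfold KK
      rw [Function.iterate_succ_apply', strip_eq hgs]
      simp only [List.mem_toFinset, List.mem_filter, hx, true_and]
      cases h906.evn (strip^[g] w') x <;> simp
    have e3 := List.length_eq_length_filter_add (l := strip^[g] w')
      (fun a => decide (a ∉ KK (g + 1) w'))
    rw [← e2] at e3
    omega
  refine ⟨by omega, ?_, ?_⟩
  · intro hlen
    exact ⟨v, h10 (by omega), h8⟩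
  · intro hn hlen
    obtain ⟨_, _, _, h3⟩ := height_general (g + 1) w w' hw hh heq
    exact (top_class hgw hirr (h3 hn)).2 hlen

end Pool.Agent.Run7.h906
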