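import Mathlib
import Pool.Agent.Run7.h906.TopE

set_option linter.unusedSimpArgs false

namespace Pool.Agent.Run7.h906

/-- one of the two chosen letters -/
def sp (c e x : ℕ) : Bool := x == c || x == e

/-- the letters at marked places; the mark changes at each chosen letter -/
def mk (c e : ℕ) : Bool → List ℕ → List ℕ
  | _, [] => []
  | k, x :: w => if sp c e x = true then mk c e (!k) w
      else if k = true then x :: mk c e k w else mk c e k w

/-- the final mark -/
def kf (c e : ℕ) : Bool → List ℕ → Bool
  | k, [] => k
  | k, x :: w => if sp c e x = true then kf c e (!k) w else kf c e k w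

/-- parity of the marked half letters read -/
def sf (c e : ℕ) (r : Bool) (h : ℕ → Bool) : Bool → Bool → List ℕ → Bool
  | _, s, [] => s
  | k, s, x :: w => if sp c e x = true then sf c e r h (!k) (r && s) w
      else if k = true then sf c e r h k (xor s (h x)) w else sf c e r h k s w

/-- parity of the pairs -/
def jf (c e : ℕ) (r : Bool) (h : ℕ → Bool) : Bool → Bool → List ℕ → Bool
  | _, _, [] => false
  | k, s, x :: w => if sp c e x = true then jf c e r h (!k) (r && s) w
      else if k = true then xor (!h x && s) (jf c e r h k (xor s (h x)) w)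
      else jf c e r h k s w

lemma mk_append (c e : ℕ) (k : Bool) (u v : List ℕ) :
    mk c e k (u ++ v) = mk c e k u ++ mk c e (kf c e k u) v := by
  induction u generalizing k with
  | nil => rfl
  | cons x u ih =>
    simp only [List.cons_append, mk, kf]
    split_ifs <;> simp [ih]

lemma kf_append (c e : ℕ) (k : Bool) (u v : List ℕ) :
    kf c e k (u ++ v) = kf c e (kf c e k u) v := by
  induction u generalizing k with
  | nil => rfl
  | cons x u ih =>
    simp only [List.cons_append, kf]
    split_ifs <;> simp [ih]

lemma sf_append (c e : ℕ) (r : Bool) (h : ℕ → Bool) (k s : Bool) (u v : List ℕ) :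
    sf c e r h k s (u ++ v) = sf c e r h (kf c e k u) (sf c e r h k s u) v := by
  induction u generalizing k s with
  | nil => rfl
  | cons x u ih =>
    simp only [List.cons_append, sf, kf]
    split_ifs <;> simp [ih]

lemma jf_append (c e : ℕ) (r : Bool) (h : ℕ → Bool) (k s : Bool) (u v : List ℕ) :
    jf c e r h k s (u ++ v) =
      xor (jf c e r h k s u) (jf c e r h (kf c e k u) (sf c e r h k s u) v) := by
  induction u generalizing k s with
  | nil => simp [jf, kf, sf]
  | cons x u ih =>
    simp only [List.cons_append, sf, kf, jf]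
    split_ifs <;> simp [ih]

/-- parity of the number of half letters -/
def mm (h : ℕ → Bool) : List ℕ → Bool
  | [] => false
  | x :: w => xor (h x) (mm h w)

/-- parity of the number of full letters -/
def gg (h : ℕ → Bool) : List ℕ → Bool
  | [] => false
  | x :: w => xor (!h x) (gg h w)

/-- parity of the number of pairs -/
def nn (h : ℕ → Bool) : List ℕ → Bool
  | [] => false
  | x :: w => xor (h x && gg h w) (nn h w)

lemma mm_append (h : ℕ → Bool) (u v : List ℕ) : mm h (u ++ v) = xor (mm h u) (mm h v) := by
  induction u with
  | nil => simp [mm]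
  | cons x u ih => simp [mm, ih]

lemma gg_append (h : ℕ → Bool) (u v : List ℕ) : gg h (u ++ v) = xor (gg h u) (gg h v) := by
  induction u with
  | nil => simp [gg]
  | cons x u ih => simp [gg, ih]

lemma nn_append (h : ℕ → Bool) (u v : List ℕ) :
    nn h (u ++ v) = xor (xor (nn h u) (nn h v)) (mm h u && gg h v) := by
  induction u with
  | nil => simp [nn, mm]
  | cons x u ih =>
    simp only [List.cons_append, nn, ih, gg_append, mm]
    cases h x <;> cases gg h u <;> cases gg h v <;> cases nn h u <;> cases nn h v <;>
      cases mm h u <;> rfl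

lemma mm_reverse (h : ℕ → Bool) (u : List ℕ) : mm h u.reverse = mm h u := by
  induction u with
  | nil => rfl
  | cons x u ih =>
    simp only [List.reverse_cons, mm_append, mm, ih]
    cases h x <;> cases mm h u <;> rfl

lemma gg_reverse (h : ℕ → Bool) (u : List ℕ) : gg h u.reverse = gg h u := by
  induction u with
  | nil => rfl
  | cons x u ih =>
    simp only [List.reverse_cons, gg_append, gg, ih]
    cases h x <;> cases gg h u <;> rfl

lemma nn_reverse (h : ℕ → Bool) (u : List ℕ) :
    nn h u.reverse = xor (nn h u) (mm h u && gg h u) := by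
  induction u with
  | nil => rfl
  | cons x u ih =>
    simp only [List.reverse_cons, nn_append, nn, gg, mm, ih, mm_reverse, gg_reverse]
    cases h x <;> cases gg h u <;> cases mm h u <;> cases nn h u <;> rfl

lemma mm_congr {h h' : ℕ → Bool} {u : List ℕ} (hh : ∀ x ∈ u, h x = h' x) :
    mm h u = mm h' u := by
  induction u with
  | nil => rfl
  | cons x u ih =>
    simp only [mm]
    rw [hh x (by simp), ih (fun y hy => hh y (by simp [hy]))]

lemma gg_congr {h h' : ℕ → Bool} {u : List ℕ} (hh : ∀ x ∈ u, h x = h' x) :
    gg h u = gg h' u := by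
  induction u with
  | nil => rfl
  | cons x u ih =>
    simp only [gg]
    rw [hh x (by simp), ih (fun y hy => hh y (by simp [hy]))]

lemma nn_congr {h h' : ℕ → Bool} {u : List ℕ} (hh : ∀ x ∈ u, h x = h' x) :
    nn h u = nn h' u := by
  induction u with
  | nil => rfl
  | cons x u ih =>
    have h1 : ∀ y ∈ u, h y = h' y := fun y hy => hh y (by simp [hy])
    simp only [nn]
    rw [hh x (by simp), ih h1, gg_congr h1]

lemma mk_seg {c e : ℕ} {u : List ℕ} (hu : ∀ x ∈ u, sp c e x = false) (k : Bool) :
    mk c e k u = if k = true then u else [] := by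
  induction u with
  | nil => simp [mk]
  | cons x u ih =>
    simp only [mk, hu x (by simp)]
    rw [ih (fun y hy => hu y (by simp [hy]))]
    cases k <;> simp

lemma kf_seg {c e : ℕ} {u : List ℕ} (hu : ∀ x ∈ u, sp c e x = false) (k : Bool) :
    kf c e k u = k := by
  induction u with
  | nil => simp [kf]
  | cons x u ih =>
    simp only [kf, hu x (by simp)]
    rw [ih (fun y hy => hu y (by simp [hy]))]
    simp

lemma sf_seg {c e : ℕ} {r : Bool} {h : ℕ → Bool} {u : List ℕ}
    (hu : ∀ x ∈ u, sp c e x = false) (k s : Bool) :
    sf c e r h k s u = if k = true then xor s (mm h u) else s := by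
  induction u generalizing s with
  | nil => simp [sf, mm]
  | cons x u ih =>
    simp only [sf, hu x (by simp), mm]
    rw [ih (fun y hy => hu y (by simp [hy])), ih (fun y hy => hu y (by simp [hy]))]
    cases k <;> simp

lemma jf_seg {c e : ℕ} {r : Bool} {h : ℕ → Bool} {u : List ℕ}
    (hu : ∀ x ∈ u, sp c e x = false) (k s : Bool) :
    jf c e r h k s u = if k = true then xor (nn h u) (s && gg h u) else false := by
  induction u generalizing s with
  | nil => simp [jf, nn, gg]
  | cons x u ih =>
    simp only [jf, hu x (by simp), nn, gg]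
    rw [ih (fun y hy => hu y (by simp [hy])), ih (fun y hy => hu y (by simp [hy]))]
    cases k
    · simp
    · simp only [Bool.false_eq_true, if_false, if_true]
      cases h x <;> cases s <;> cases gg h u <;> cases nn h u <;> rfl

lemma sf_congr {c e : ℕ} {r : Bool} {h h' : ℕ → Bool} {u : List ℕ} (k s : Bool)
    (hh : ∀ x ∈ u, sp c e x = false → h x = h' x) :
    sf c e r h k s u = sf c e r h' k s u := by
  induction u generalizing k s with
  | nil => rfl
  | cons x u ih =>
    have h1 : ∀ y ∈ u, sp c e y = false → h y = h' y := fun y hy => hh y (by simp [hy])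
    simp only [sf]
    split_ifs with h2 h3
    · exact ih _ _ h1
    · rw [hh x (by simp) (by simpa using h2)]
      exact ih _ _ h1
    · exact ih _ _ h1

lemma jf_congr {c e : ℕ} {r : Bool} {h h' : ℕ → Bool} {u : List ℕ} (k s : Bool)
    (hh : ∀ x ∈ u, sp c e x = false → h x = h' x) :
    jf c e r h k s u = jf c e r h' k s u := by
  induction u generalizing k s with
  | nil => rfl
  | cons x u ih =>
    have h1 : ∀ y ∈ u, sp c e y = false → h y = h' y := fun y hy => hh y (by simp [hy])
    simp only [jf]
    split_ifs with h2 h3
    · exact ih _ _ h1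
    · rw [hh x (by simp) (by simpa using h2), ih _ _ h1]
    · exact ih _ _ h1

lemma mk_sub {c e : ℕ} {k : Bool} {u : List ℕ} {x : ℕ} (hx : x ∈ mk c e k u) :
    x ∈ u ∧ sp c e x = false := by
  induction u generalizing k with
  | nil => simp [mk] at hx
  | cons y u ih =>
    simp only [mk] at hx
    split_ifs at hx with h1 h2
    · obtain ⟨h3, h4⟩ := ih hx
      exact ⟨by simp [h3], h4⟩
    · rw [List.mem_cons] at hx
      rcases hx with rfl | hx
      · exact ⟨by simp, by simpa using h1⟩
      · obtain ⟨h3, h4⟩ := ih hx
        exact ⟨by simp [h3], h4⟩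
    · obtain ⟨h3, h4⟩ := ih hx
      exact ⟨by simp [h3], h4⟩

/-- the half letters -/
def hm (L : List ℕ) (x : ℕ) : Bool := (L.count x).bodd

lemma gg_filter (h : ℕ → Bool) (u : List ℕ) :
    gg h u = (u.filter (fun x => !h x)).length.bodd := by
  induction u with
  | nil => simp [gg]
  | cons x u ih =>
    simp only [gg, ih, List.filter_cons]
    cases hx : h x <;> simp [Nat.bodd_succ]

lemma gg_even (L : List ℕ) : gg (hm L) L = false := by
  rw [gg_filter]
  set L' := L.filter (fun x => !hm L x) with hL
  have h1 := List.sum_toFinset_count_eq_length L'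
  have h2 : 2 ∣ L'.length := by
    rw [← h1]
    apply Finset.dvd_sum
    intro x hx
    rw [List.mem_toFinset] at hx
    have h3 : (!hm L x) = true := by
      rw [hL, List.mem_filter] at hx
      exact hx.2
    have h4 : L'.count x = L.count x := by
      rw [hL]
      exact List.count_filter h3
    rw [h4]
    unfold hm at h3
    have h5 := Nat.mod_two_of_bodd (L.count x)
    rw [Bool.not_eq_true'] at h3
    rw [h3] at h5
    exact Nat.dvd_of_mod_eq_zero (by simpa using h5)
  obtain ⟨m, hm⟩ := h2
  rw [hm]
  simp [Nat.bodd_mul]

lemma mm_gg (h : ℕ → Bool) (u : List ℕ) : xor (mm h u) (gg h u) = u.length.bodd := by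
  induction u with
  | nil => rfl
  | cons x u ih =>
    rw [List.length_cons, Nat.bodd_succ, ← ih]
    simp only [mm, gg]
    cases h x <;> cases mm h u <;> cases gg h u <;> rfl

lemma mm_even (L : List ℕ) (hL : L.length.bodd = false) : mm (hm L) L = false := by
  have h1 := mm_gg (hm L) L
  rw [gg_even, hL] at h1
  simpa using h1

end Pool.Agent.Run7.h906
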