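import Mathlib
import Pool.Agent.Run7.h906.BlockA

set_option linter.unusedSimpArgs false

namespace Pool.Agent.Run7.h906

lemma kf_count {c e : ℕ} (hce : c ≠ e) (k : Bool) (w : List ℕ) :
    kf c e k w = xor k (w.count c + w.count e).bodd := by
  induction w generalizing k with
  | nil => simp [kf]
  | cons x w ih =>
    by_cases h1 : x = c
    · subst h1
      simp only [kf, sp, beq_self_eq_true, Bool.true_or, if_true, ih, List.count_cons_self,
        List.count_cons_of_ne hce, Nat.bodd_add, Nat.bodd_succ]
      cases k <;> cases (w.count x).bodd <;> cases (w.count e).bodd <;> rfl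
    · by_cases h2 : x = e
      · subst h2
        simp only [kf, sp, beq_self_eq_true, Bool.or_true, if_true, ih, List.count_cons_self,
          List.count_cons_of_ne (Ne.symm hce), Nat.bodd_add, Nat.bodd_succ]
        cases k <;> cases (w.count x).bodd <;> cases (w.count c).bodd <;> rfl
      · have h3 : sp c e x = false := by simp [sp, h1, h2]
        simp only [kf, h3, ih, List.count_cons_of_ne h1, List.count_cons_of_ne h2]
        simp

lemma mk_len {c e : ℕ} (hce : c ≠ e) (k : Bool) (w : List ℕ) :
    (mk c e k w).length.bodd =
      xor (xor (xor (xor (ps c w + ps e w).bodd ((w.count c + w.count e).bodd && w.length.bodd))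
        (w.count c + w.count e).bodd) ((w.count c + w.count e).choose 2).bodd)
        (k && xor w.length.bodd (w.count c + w.count e).bodd) := by
  induction w generalizing k with
  | nil => simp [mk, ps]
  | cons x w ih =>
    by_cases h1 : x = c
    · subst h1
      have e1 : (x :: w).count x + (x :: w).count e = (w.count x + w.count e) + 1 := by
        rw [List.count_cons_self, List.count_cons_of_ne hce]; omega
      have e2 : ps x (x :: w) + ps e (x :: w) = (ps x w + ps e w) + (w.count x + w.count e) := by
        simp only [ps]; omega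
      have e3 : mk x e k (x :: w) = mk x e (!k) w := by simp [mk, sp]
      rw [e1, e2, e3, ih, List.length_cons, Nat.choose_succ_succ, Nat.choose_one_right]
      generalize w.count x + w.count e = q
      generalize ps x w + ps e w = P
      simp only [Nat.bodd_add, Nat.bodd_succ]
      generalize (q.choose (Nat.succ 1)).bodd = C
      cases k <;> cases q.bodd <;> cases P.bodd <;> cases C <;> cases w.length.bodd <;> rfl
    · by_cases h2 : x = e
      · subst h2
        have e1 : (x :: w).count c + (x :: w).count x = (w.count c + w.count x) + 1 := by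
          rw [List.count_cons_self, List.count_cons_of_ne (Ne.symm hce)]; omega
        have e2 : ps c (x :: w) + ps x (x :: w) =
            (ps c w + ps x w) + (w.count c + w.count x) := by
          simp only [ps]; omega
        have e3 : mk c x k (x :: w) = mk c x (!k) w := by simp [mk, sp]
        rw [e1, e2, e3, ih, List.length_cons, Nat.choose_succ_succ, Nat.choose_one_right]
        generalize w.count c + w.count x = q
        generalize ps c w + ps x w = P
        simp only [Nat.bodd_add, Nat.bodd_succ]
        generalize (q.choose (Nat.succ 1)).bodd = C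
        cases k <;> cases q.bodd <;> cases P.bodd <;> cases C <;> cases w.length.bodd <;> rfl
      · have h3 : sp c e x = false := by simp [sp, h1, h2]
        have e1 : (x :: w).count c + (x :: w).count e = w.count c + w.count e := by
          rw [List.count_cons_of_ne h1, List.count_cons_of_ne h2]
        have e2 : ps c (x :: w) + ps e (x :: w) =
            (ps c w + ps e w) + (w.count c + w.count e) := by
          simp only [ps]; omega
        have e3 : (mk c e k (x :: w)).length.bodd = xor k (mk c e k w).length.bodd := by
          simp only [mk, h3]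
          cases k <;> simp [Nat.bodd_succ]
        rw [e1, e2, e3, ih, List.length_cons]
        generalize w.count c + w.count e = q
        generalize ps c w + ps e w = P
        simp only [Nat.bodd_add, Nat.bodd_succ]
        generalize (q.choose 2).bodd = C
        cases k <;> cases q.bodd <;> cases P.bodd <;> cases C <;> cases w.length.bodd <;> rfl

lemma bodd_of_mod {n : ℕ} (h : n % 2 = 1) : n.bodd = true := by
  have := Nat.mod_two_of_bodd n
  rw [h] at this
  cases hb : n.bodd
  · rw [hb] at this; simp at this
  · rfl

lemma bodd_of_even {n : ℕ} (h : n % 2 = 0) : n.bodd = false := by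
  have := Nat.mod_two_of_bodd n
  rw [h] at this
  cases hb : n.bodd
  · rfl
  · rw [hb] at this; simp at this

/-- the chosen letters are top letters and the marked ones are not -/
structure Pair (g c e : ℕ) (w : List ℕ) (k : Bool) : Prop where
  ne : c ≠ e
  hc : c ∈ strip^[g] w
  he : e ∈ strip^[g] w
  low : ∀ x ∈ mk c e k w, x ∉ strip^[g] w

lemma mk_even {g c e : ℕ} {w : List ℕ} {k : Bool} (hw : Gauss w) (hp : Pair g c e w k) :
    (mk c e k w).length.bodd = false := by
  cases g with
  | zero =>
    have : mk c e k w = [] := by
      rw [List.eq_nil_iff_forall_not_mem]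
      intro x hx
      exact hp.low x hx (mk_sub hx).1
    rw [this]
    rfl
  | succ g =>
    have h1 : ∀ x, x ∈ strip^[g + 1] w → w.count x = 2 ∧ ps x w % 2 = 1 := by
      intro x hx
      rw [Function.iterate_succ_apply] at hx
      have h2 := iter_sub g _ hx
      rw [strip_eq hw, List.mem_filter] at h2
      refine ⟨hw x h2.1, ?_⟩
      have := h2.2
      unfold evn at this
      simpa using this
    obtain ⟨c1, c2⟩ := h1 c hp.hc
    obtain ⟨e1, e2⟩ := h1 e hp.he
    rw [mk_len hp.ne, c1, e1, bodd_of_even hw.even_length,
      bodd_of_even (n := ps c w + ps e w) (by omega)]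
    have : (Nat.choose (2 + 2) 2) = 6 := by decide
    rw [this]
    cases k <;> rfl

lemma filter_self {w L : List ℕ} {f : ℕ → Bool} (h : L = w.filter f) :
    L = w.filter (fun x => decide (x ∈ L)) := by
  rw [h]
  apply List.filter_congr
  intro x hx
  cases hf : f x <;> simp [hx, hf]

lemma iter_filter (g : ℕ) (w : List ℕ) : ∃ f : ℕ → Bool, strip^[g] w = w.filter f := by
  induction g generalizing w with
  | zero => exact ⟨fun _ => true, by simp⟩
  | succ g ih =>
    obtain ⟨f, hf⟩ := ih (strip w)
    rw [Function.iterate_succ_apply, hf]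
    unfold strip
    rw [List.filter_filter]
    exact ⟨_, rfl⟩

/-- two occurrences of a top letter are separated by top letters -/
lemma noadj {g t : ℕ} {w X A Y : List ℕ} (hw : Gauss w) (ht : t ∈ strip^[g] w)
    (ew : w = X ++ (t :: (A ++ (t :: Y)))) (hA : ∀ x ∈ A, x ∉ strip^[g] w) :
    t ∈ strip^[g + 1] w := by
  obtain ⟨f, hf⟩ := iter_filter g w
  have hL := filter_self hf
  set L := strip^[g] w with hLd
  have h1 : w.count t = 2 := by
    apply hw
    rw [ew]
    simp
  rw [ew] at h1
  simp only [List.count_append, List.count_cons_self] at h1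
  have hX : t ∉ X := by rw [← List.count_eq_zero]; omega
  have hA' : t ∉ A := by rw [← List.count_eq_zero]; omega
  have e1 : L = X.filter (fun x => decide (x ∈ L)) ++
      (t :: ([] ++ (t :: Y.filter (fun x => decide (x ∈ L))))) := by
    conv_lhs => rw [hL, ew]
    rw [List.filter_append, List.filter_cons_of_pos (by simpa using ht), List.filter_append,
      List.filter_cons_of_pos (by simpa using ht)]
    have : A.filter (fun x => decide (x ∈ L)) = [] := by
      rw [List.filter_eq_nil_iff]
      intro x hx
      simpa using hA x hx
    rw [this]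
  rw [Function.iterate_succ_apply', ← hLd]
  unfold strip
  rw [List.mem_filter]
  refine ⟨ht, ?_⟩
  have hg : gap t L = 0 := by
    rw [e1, gap_split]
    · rfl
    · intro hh
      exact hX (List.mem_of_mem_filter hh)
    · simp
  simp [isOdd, hg]

/-- linked or not -/
def rr (c e : ℕ) (w : List ℕ) : Bool := evn (w.filter (sp c e)) c

structure Loop (c e : ℕ) (w : List ℕ) (k s : Bool) : Prop where
  s_eq : sf c e (rr c e w) (hm (mk c e k w)) k s w = s
  j_eq : jf c e (rr c e w) (hm (mk c e k w)) k s w = false

def Bad0 (g : ℕ) (w : List ℕ) : Prop := ∃ c e k s, Pair g c e w k ∧ Loop c e w k s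

lemma hm_perm {L L' : List ℕ} (h : L.Perm L') : hm L = hm L' := by
  funext x
  unfold hm
  rw [h.count_eq]

lemma Pair.kf {g c e : ℕ} {w : List ℕ} {k : Bool} (hw : Gauss w) (hp : Pair g c e w k) :
    kf c e k w = k := by
  rw [kf_count hp.ne, hw c (iter_sub g w hp.hc), hw e (iter_sub g w hp.he)]
  cases k <;> rfl

lemma bad_rot {g : ℕ} {u v : List ℕ} (hw : Gauss (u ++ v)) (hb : Bad0 g (u ++ v)) :
    Bad0 g (v ++ u) := by
  obtain ⟨c, e, k, s, hp, hl⟩ := hb
  have hk := hp.kf hw
  rw [kf_append] at hk
  have e1 : mk c e (kf c e k u) (v ++ u) = mk c e (kf c e k u) v ++ mk c e k u := by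
    rw [mk_append, hk]
  have hper : (mk c e (kf c e k u) (v ++ u)).Perm (mk c e k (u ++ v)) := by
    rw [e1, mk_append]
    exact List.perm_append_comm
  have hr : rr c e (v ++ u) = rr c e (u ++ v) := by
    unfold rr
    rw [List.filter_append, List.filter_append]
    apply evn_rot
    rw [← List.filter_append]
    exact (hw.perm List.perm_append_comm).filter _
  obtain ⟨u', v', e2, e3⟩ := iter_rot g hw
  have hmem : ∀ x, x ∈ strip^[g] (v ++ u) ↔ x ∈ strip^[g] (u ++ v) := by
    intro x
    rw [e2, e3]
    simp only [List.mem_append]
    tauto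
  refine ⟨c, e, kf c e k u, sf c e (rr c e (u ++ v)) (hm (mk c e k (u ++ v))) k s u,
    ⟨hp.ne, (hmem c).2 hp.hc, (hmem e).2 hp.he, ?_⟩, ?_, ?_⟩
  · intro x hx hx2
    exact hp.low x (hper.mem_iff.1 hx) ((hmem x).1 hx2)
  · rw [hr, hm_perm hper]
    have h1 := hl.s_eq
    rw [sf_append] at h1
    rw [sf_append, hk, h1]
  · rw [hr, hm_perm hper]
    have h1 := hl.s_eq
    have h2 := hl.j_eq
    rw [sf_append] at h1
    rw [jf_append] at h2
    rw [jf_append, hk, h1, Bool.xor_comm]
    exact h2

end Pool.Agent.Run7.h906
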