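import Mathlib
import Pool.Agent.Run7.h906.BlockB

set_option linter.unusedSimpArgs false

namespace Pool.Agent.Run7.h906

lemma sp_map (σ : Equiv.Perm ℕ) (c e x : ℕ) : sp (σ c) (σ e) (σ x) = sp c e x := by
  simp [sp, Bool.beq_eq_decide_eq]

lemma mk_map (σ : Equiv.Perm ℕ) (c e : ℕ) (k : Bool) (w : List ℕ) :
    mk (σ c) (σ e) k (w.map σ) = (mk c e k w).map σ := by
  induction w generalizing k with
  | nil => rfl
  | cons x w ih =>
    simp only [List.map_cons, mk, sp_map]
    split_ifs <;> simp [ih]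

lemma sf_map (σ : Equiv.Perm ℕ) (c e : ℕ) (r : Bool) (h : ℕ → Bool) (k s : Bool) (w : List ℕ) :
    sf (σ c) (σ e) r h k s (w.map σ) = sf c e r (fun x => h (σ x)) k s w := by
  induction w generalizing k s with
  | nil => rfl
  | cons x w ih =>
    simp only [List.map_cons, sf, sp_map]
    split_ifs <;> simp [ih]

lemma jf_map (σ : Equiv.Perm ℕ) (c e : ℕ) (r : Bool) (h : ℕ → Bool) (k s : Bool) (w : List ℕ) :
    jf (σ c) (σ e) r h k s (w.map σ) = jf c e r (fun x => h (σ x)) k s w := by
  induction w generalizing k s with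
  | nil => rfl
  | cons x w ih =>
    simp only [List.map_cons, jf, sp_map]
    split_ifs <;> simp [ih]

lemma hm_map (σ : Equiv.Perm ℕ) (L : List ℕ) : (fun x => hm (L.map σ) (σ x)) = hm L := by
  funext x
  unfold hm
  rw [count_map_perm]

lemma rr_map (σ : Equiv.Perm ℕ) (c e : ℕ) (w : List ℕ) :
    rr (σ c) (σ e) (w.map σ) = rr c e w := by
  unfold rr
  have : (w.map σ).filter (sp (σ c) (σ e)) = (w.filter (sp c e)).map σ := by
    rw [List.filter_map]
    congr 1
    apply List.filter_congr
    intro x _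
    simp only [Function.comp, sp_map]
  rw [this]
  unfold evn
  rw [ps_map]

lemma bad_ren {g : ℕ} {w : List ℕ} (hw : Gauss w) (σ : Equiv.Perm ℕ) (hb : Bad0 g w) :
    Bad0 g (w.map σ) := by
  obtain ⟨c, e, k, s, hp, hl⟩ := hb
  have h1 := iter_ren g σ hw
  refine ⟨σ c, σ e, k, s, ⟨fun hh => hp.ne (σ.injective hh), ?_, ?_, ?_⟩, ?_, ?_⟩
  · rw [h1]
    exact List.mem_map_of_mem hp.hc
  · rw [h1]
    exact List.mem_map_of_mem hp.he
  · intro x hx
    rw [mk_map, List.mem_map] at hx
    obtain ⟨y, hy, rfl⟩ := hx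
    rw [h1, List.mem_map]
    rintro ⟨z, hz, e1⟩
    have := σ.injective e1
    subst this
    exact hp.low _ hy hz
  · rw [rr_map, mk_map, sf_map, hm_map]
    exact hl.s_eq
  · rw [rr_map, mk_map, jf_map, hm_map]
    exact hl.j_eq

/-! ### pairs of letters -/

lemma count_pair {a b x : ℕ} {s : List ℕ} (hs : s = [a, b] ∨ s = [b, a]) (hxa : x ≠ a)
    (hxb : x ≠ b) : s.count x = 0 := by
  rw [List.count_eq_zero]
  rcases hs with rfl | rfl <;> simp [hxa, hxb]

lemma seg_pair {c e a b : ℕ} {s : List ℕ} (hs : s = [a, b] ∨ s = [b, a])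
    (ha : sp c e a = false) (hb : sp c e b = false) : ∀ x ∈ s, sp c e x = false := by
  intro x hx
  rcases hs with rfl | rfl <;> simp only [List.mem_cons, List.not_mem_nil, or_false] at hx <;>
    rcases hx with rfl | rfl <;> assumption

lemma count_mk_zero {c e : ℕ} {k : Bool} {u : List ℕ} {x : ℕ} (hx : x ∉ u) :
    (mk c e k u).count x = 0 := by
  rw [List.count_eq_zero]
  exact fun hh => hx (mk_sub hh).1

/-- parity of the count of a letter in a marked pair -/
lemma count_mk_pair {c e a b : ℕ} {s : List ℕ} (hab : a ≠ b) (hs : s = [a, b] ∨ s = [b, a])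
    (ha : sp c e a = false) (hb : sp c e b = false) (k : Bool) :
    ((mk c e k s).count a).bodd = k ∧ ((mk c e k s).count b).bodd = k := by
  rw [mk_seg (seg_pair hs ha hb)]
  rcases hs with rfl | rfl <;> cases k <;> simp [List.count_cons, hab, hab.symm]

lemma loop_two {c e a b : ℕ} {s U V : List ℕ} {k t : Bool} (hab : a ≠ b)
    (hs : s = [a, b] ∨ s = [b, a]) (hg : Gauss ([a, b] ++ U ++ s ++ V))
    (ha : sp c e a = false) (hb : sp c e b = false) :
    Loop c e ([a, b] ++ U ++ s ++ V) k t ↔ Loop c e (U ++ V) k t := by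
  obtain ⟨aU, bU, aV, bV, hg'⟩ := hg.two hab hs
  have h0 : ([a, b] : List ℕ) = [a, b] ∨ ([a, b] : List ℕ) = [b, a] := Or.inl rfl
  have sg0 := seg_pair h0 ha hb
  have sgs := seg_pair hs ha hb
  set k1 := kf c e k U with hk1
  have emk : mk c e k ([a, b] ++ U ++ s ++ V) =
      mk c e k [a, b] ++ mk c e k U ++ mk c e k1 s ++ mk c e k1 V := by
    simp only [mk_append, kf_append, kf_seg sg0, kf_seg sgs, ← hk1]
  have emk' : mk c e k (U ++ V) = mk c e k U ++ mk c e k1 V := by
    simp only [mk_append, ← hk1]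
  set h := hm (mk c e k ([a, b] ++ U ++ s ++ V)) with hh
  set h' := hm (mk c e k (U ++ V)) with hh'
  have hsame : ∀ x, x ≠ a → x ≠ b → h x = h' x := by
    intro x hxa hxb
    rw [hh, hh', emk, emk']
    unfold hm
    simp only [List.count_append]
    rw [count_mk_zero (u := [a, b]) (by simp [hxa, hxb]), count_mk_zero (u := s) (by
      rcases hs with rfl | rfl <;> simp [hxa, hxb])]
    congr 1
    omega
  obtain ⟨p1, p2⟩ := count_mk_pair hab h0 ha hb k
  obtain ⟨p3, p4⟩ := count_mk_pair hab hs ha hb k1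
  have va : h a = xor k k1 := by
    rw [hh, emk]
    unfold hm
    simp only [List.count_append, Nat.bodd_add, p1, p3, count_mk_zero aU, count_mk_zero aV,
      Nat.bodd_zero, Bool.xor_false]
  have vb : h b = xor k k1 := by
    rw [hh, emk]
    unfold hm
    simp only [List.count_append, Nat.bodd_add, p2, p4, count_mk_zero bU, count_mk_zero bV,
      Nat.bodd_zero, Bool.xor_false]
  have hr : rr c e ([a, b] ++ U ++ s ++ V) = rr c e (U ++ V) := by
    unfold rr
    congr 1
    have f1 : ([a, b] : List ℕ).filter (sp c e) = [] := by simp [ha, hb]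
    have f2 : s.filter (sp c e) = [] := by
      rw [List.filter_eq_nil_iff]
      intro x hx
      simp [sgs x hx]
    simp only [List.filter_append, f1, f2, List.nil_append, List.append_nil]
  have hU : ∀ x ∈ U, sp c e x = false → h x = h' x := fun x hx _ =>
    hsame x (by rintro rfl; exact aU hx) (by rintro rfl; exact bU hx)
  have hV : ∀ x ∈ V, sp c e x = false → h x = h' x := fun x hx _ =>
    hsame x (by rintro rfl; exact aV hx) (by rintro rfl; exact bV hx)
  set r := rr c e (U ++ V) with hrd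
  have m0 : mm h [a, b] = false := by simp [mm, va, vb]
  have ms : mm h s = false := by rcases hs with rfl | rfl <;> simp [mm, va, vb]
  have g0 : gg h [a, b] = false := by simp [gg, va, vb]
  have gs : gg h s = false := by rcases hs with rfl | rfl <;> simp [gg, va, vb]
  have n0 : nn h [a, b] = false := by
    simp only [nn, gg, va, vb]
    cases k <;> cases k1 <;> rfl
  have ns : nn h s = false := by
    rcases hs with rfl | rfl <;> simp only [nn, gg, va, vb] <;>
    cases k <;> cases k1 <;> rfl
  have es : sf c e r h k t ([a, b] ++ U ++ s ++ V) = sf c e r h' k t (U ++ V) := by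
    simp only [sf_append, kf_append, kf_seg sg0, kf_seg sgs, sf_seg sg0, sf_seg sgs, m0, ms,
      Bool.xor_false, ite_self]
    rw [sf_congr _ _ hU, sf_congr _ _ hV]
  have ej : jf c e r h k t ([a, b] ++ U ++ s ++ V) = jf c e r h' k t (U ++ V) := by
    simp only [sf_append, kf_append, jf_append, kf_seg sg0, kf_seg sgs, sf_seg sg0, sf_seg sgs,
      jf_seg sg0, jf_seg sgs, m0, ms, g0, gs, n0, ns, Bool.and_false,
      Bool.xor_false, Bool.false_xor, ite_self]
    rw [sf_congr _ _ hU, jf_congr _ _ hU, jf_congr _ _ hV]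
  constructor
  · rintro ⟨h1, h2⟩
    refine ⟨?_, ?_⟩
    · rw [hr, ← hh, es] at h1
      exact h1
    · rw [hr, ← hh, ej] at h2
      exact h2
  · rintro ⟨h1, h2⟩
    refine ⟨?_, ?_⟩
    · rw [hr, ← hh, es]
      exact h1
    · rw [hr, ← hh, ej]
      exact h2

lemma run_three {c e x y z : ℕ} {p q r U V W : List ℕ} {k t ρ : Bool} {h : ℕ → Bool}
    (htr : Tri x y z p q r)
    (hx : sp c e x = false) (hy : sp c e y = false) (hz : sp c e z = false)
    (vx : h x = xor k (kf c e k U)) (vy : h y = xor k (kf c e (kf c e k U) V))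
    (vz : h z = xor (kf c e k U) (kf c e (kf c e k U) V)) :
    sf c e ρ h k t (tw p.reverse q.reverse r.reverse U V W) = sf c e ρ h k t (tw p q r U V W) ∧
    jf c e ρ h k t (tw p.reverse q.reverse r.reverse U V W) =
      jf c e ρ h k t (tw p q r U V W) := by
  have sp1 := seg_pair htr.hp hx hy
  have sq1 := seg_pair htr.hq hx hz
  have sr1 := seg_pair htr.hr hy hz
  have sp2 : ∀ a ∈ p.reverse, sp c e a = false := fun a ha => sp1 a (by simpa using ha)
  have sq2 : ∀ a ∈ q.reverse, sp c e a = false := fun a ha => sq1 a (by simpa using ha)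
  have sr2 : ∀ a ∈ r.reverse, sp c e a = false := fun a ha => sr1 a (by simpa using ha)
  have mp : mm h p = xor (h x) (h y) := by
    rcases htr.hp with rfl | rfl <;> simp [mm, Bool.xor_comm]
  have gp : gg h p = xor (h x) (h y) := by
    rcases htr.hp with rfl | rfl <;> simp [gg, Bool.xor_comm]
  have mq : mm h q = xor (h x) (h z) := by
    rcases htr.hq with rfl | rfl <;> simp [mm, Bool.xor_comm]
  have gq : gg h q = xor (h x) (h z) := by
    rcases htr.hq with rfl | rfl <;> simp [gg, Bool.xor_comm]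
  have mr : mm h r = xor (h y) (h z) := by
    rcases htr.hr with rfl | rfl <;> simp [mm, Bool.xor_comm]
  have gr : gg h r = xor (h y) (h z) := by
    rcases htr.hr with rfl | rfl <;> simp [gg, Bool.xor_comm]
  constructor
  · simp only [tw, sf_append, kf_append, kf_seg sp1, kf_seg sq1, kf_seg sr1,
      sf_seg sp1, sf_seg sq1, sf_seg sr1, kf_seg sp2, kf_seg sq2, kf_seg sr2,
      sf_seg sp2, sf_seg sq2, sf_seg sr2, mm_reverse]
  · simp only [tw, sf_append, kf_append, jf_append, kf_seg sp1, kf_seg sq1, kf_seg sr1,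
      sf_seg sp1, sf_seg sq1, sf_seg sr1, kf_seg sp2, kf_seg sq2, kf_seg sr2,
      sf_seg sp2, sf_seg sq2, sf_seg sr2, jf_seg sp1, jf_seg sq1, jf_seg sr1,
      jf_seg sp2, jf_seg sq2, jf_seg sr2, mm_reverse, gg_reverse, nn_reverse]
    simp only [mp, gp, mq, gq, mr, gr, vx, vy, vz]
    clear vx vy vz mp gp mq gq mr gr
    generalize kf c e (kf c e k U) V = k2
    generalize kf c e k U = k1
    generalize jf c e ρ h _ _ U = j1
    generalize jf c e ρ h _ _ V = j2
    generalize jf c e ρ h _ _ W = j3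
    generalize sf c e ρ h _ _ V = s2
    generalize sf c e ρ h _ _ U = s1
    generalize nn h p = n1
    generalize nn h q = n2
    generalize nn h r = n3
    cases k <;> cases k1 <;> cases k2 <;> simp

lemma loop_three {c e x y z : ℕ} {p q r U V W : List ℕ} {k t : Bool}
    (htr : Tri x y z p q r) (hg : Gauss (tw p q r U V W))
    (hx : sp c e x = false) (hy : sp c e y = false) (hz : sp c e z = false)
    (hl : Loop c e (tw p q r U V W) k t) :
    Loop c e (tw p.reverse q.reverse r.reverse U V W) k t := by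
  obtain ⟨xU, xV, xW⟩ := htr.fresh hg x (by simp)
  obtain ⟨yU, yV, yW⟩ := htr.fresh hg y (by simp)
  obtain ⟨zU, zV, zW⟩ := htr.fresh hg z (by simp)
  have sp1 := seg_pair htr.hp hx hy
  have sq1 := seg_pair htr.hq hx hz
  have sr1 := seg_pair htr.hr hy hz
  have sp2 : ∀ a ∈ p.reverse, sp c e a = false := fun a ha => sp1 a (by simpa using ha)
  have sq2 : ∀ a ∈ q.reverse, sp c e a = false := fun a ha => sq1 a (by simpa using ha)
  have sr2 : ∀ a ∈ r.reverse, sp c e a = false := fun a ha => sr1 a (by simpa using ha)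
  have emk : mk c e k (tw p q r U V W) =
      mk c e k p ++ mk c e k U ++ mk c e (kf c e k U) q ++ mk c e (kf c e k U) V ++
        mk c e (kf c e (kf c e k U) V) r ++ mk c e (kf c e (kf c e k U) V) W := by
    simp only [tw, mk_append, kf_append, kf_seg sp1, kf_seg sq1, kf_seg sr1]
  have emk' : mk c e k (tw p.reverse q.reverse r.reverse U V W) =
      mk c e k p.reverse ++ mk c e k U ++ mk c e (kf c e k U) q.reverse ++
        mk c e (kf c e k U) V ++ mk c e (kf c e (kf c e k U) V) r.reverse ++
        mk c e (kf c e (kf c e k U) V) W := by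
    simp only [tw, mk_append, kf_append, kf_seg sp2, kf_seg sq2, kf_seg sr2]
  have hrev : ∀ (k : Bool) (u : List ℕ), (∀ a ∈ u, sp c e a = false) →
      (mk c e k u.reverse).Perm (mk c e k u) := by
    intro k u hu
    rw [mk_seg hu, mk_seg (fun a ha => hu a (by simpa using ha))]
    cases k
    · simp
    · simp only [if_true]
      exact List.reverse_perm u
  have hper : (mk c e k (tw p.reverse q.reverse r.reverse U V W)).Perm
      (mk c e k (tw p q r U V W)) := by
    rw [emk, emk']
    exact (((((hrev _ p sp1).append_right _).append (hrev _ q sq1)).append_right _).append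
      (hrev _ r sr1)).append_right _
  have hrr : rr c e (tw p.reverse q.reverse r.reverse U V W) = rr c e (tw p q r U V W) := by
    unfold rr
    congr 1
    have f : ∀ u : List ℕ, (∀ a ∈ u, sp c e a = false) → u.filter (sp c e) = [] := by
      intro u hu
      rw [List.filter_eq_nil_iff]
      intro a ha
      simp [hu a ha]
    simp only [tw, List.filter_append, f _ sp1, f _ sp2, f _ sq1, f _ sq2, f _ sr1, f _ sr2]
  obtain ⟨h1, h2⟩ := hl
  rw [← hrr, ← hm_perm hper] at h1 h2
  have vals : hm (mk c e k (tw p.reverse q.reverse r.reverse U V W)) x = xor k (kf c e k U) ∧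
      hm (mk c e k (tw p.reverse q.reverse r.reverse U V W)) y =
        xor k (kf c e (kf c e k U) V) ∧
      hm (mk c e k (tw p.reverse q.reverse r.reverse U V W)) z =
        xor (kf c e k U) (kf c e (kf c e k U) V) := by
    rw [hm_perm hper, emk]
    obtain ⟨p1, p2⟩ := count_mk_pair htr.hab htr.hp hx hy k
    obtain ⟨q1, q2⟩ := count_mk_pair htr.hac htr.hq hx hz (kf c e k U)
    obtain ⟨r1, r2⟩ := count_mk_pair htr.hbc htr.hr hy hz (kf c e (kf c e k U) V)
    have c0 : ∀ (κ : Bool) (u : List ℕ) (a : ℕ), a ∉ u → (mk c e κ u).count a = 0 :=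
      fun κ u a ha => count_mk_zero ha
    have nx : x ∉ r := by
      rcases htr.hr with rfl | rfl <;> simp [htr.hab, htr.hac]
    have ny : y ∉ q := by
      rcases htr.hq with rfl | rfl <;> simp [htr.hab.symm, htr.hbc]
    have nz : z ∉ p := by
      rcases htr.hp with rfl | rfl <;> simp [htr.hac.symm, htr.hbc.symm]
    unfold hm
    simp only [List.count_append, Nat.bodd_add, p1, q1, p2, r1, q2, r2, c0 _ _ _ xU, c0 _ _ _ xV,
      c0 _ _ _ xW, c0 _ _ _ nx, c0 _ _ _ yU, c0 _ _ _ yV, c0 _ _ _ yW, c0 _ _ _ ny,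
      c0 _ _ _ zU, c0 _ _ _ zV, c0 _ _ _ zW, c0 _ _ _ nz, Nat.bodd_zero, Bool.xor_false,
      Bool.false_xor, and_self]
  obtain ⟨vx, vy, vz⟩ := vals
  obtain ⟨h3, h4⟩ := run_three (ρ := rr c e (tw p.reverse q.reverse r.reverse U V W)) (t := t)
    (W := W) htr hx hy hz vx vy vz
  exact ⟨h3.trans h1, h4.trans h2⟩

end Pool.Agent.Run7.h906
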