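import Mathlib
import Pool.Agent.Run7.h906.BlockC

set_option linter.unusedSimpArgs false

namespace Pool.Agent.Run7.h906

/-- parity of the number of pairs of a half letter and a later full letter -/
def II (L : List ℕ) : Bool := nn (hm L) L

lemma even_split {A B : List ℕ} (he : (A ++ B).length.bodd = false) :
    mm (hm (A ++ B)) A = mm (hm (A ++ B)) B ∧ gg (hm (A ++ B)) A = gg (hm (A ++ B)) B := by
  have h1 := mm_even _ he
  have h2 := gg_even (A ++ B)
  rw [mm_append] at h1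
  rw [gg_append] at h2
  constructor
  · revert h1
    cases mm (hm (A ++ B)) A <;> cases mm (hm (A ++ B)) B <;> simp
  · revert h2
    cases gg (hm (A ++ B)) A <;> cases gg (hm (A ++ B)) B <;> simp

lemma II_rot {A B : List ℕ} (he : (A ++ B).length.bodd = false) :
    II (A ++ B) = II (B ++ A) := by
  obtain ⟨h1, h2⟩ := even_split he
  unfold II
  rw [hm_perm (L := B ++ A) (L' := A ++ B) List.perm_append_comm, nn_append, nn_append, h1, h2,
    Bool.xor_comm (nn _ A)]

lemma II_rev {L : List ℕ} (he : L.length.bodd = false) : II L.reverse = II L := by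
  unfold II
  rw [hm_perm (List.reverse_perm L), nn_reverse, mm_even L he]
  simp

lemma nn_map (σ : Equiv.Perm ℕ) (h : ℕ → Bool) (L : List ℕ) :
    nn h (L.map σ) = nn (fun x => h (σ x)) L ∧ gg h (L.map σ) = gg (fun x => h (σ x)) L := by
  induction L with
  | nil => exact ⟨rfl, rfl⟩
  | cons x L ih => simp [nn, gg, ih.1, ih.2]

lemma II_map (σ : Equiv.Perm ℕ) (L : List ℕ) : II (L.map σ) = II L := by
  unfold II
  rw [(nn_map σ _ L).1, hm_map]

/-- one of two one-letter or empty words -/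
def Alt1 (x : ℕ) (α α' : List ℕ) : Prop := (α = [x] ∧ α' = []) ∨ (α = [] ∧ α' = [x])

lemma map_swap_of_not_mem {x y : ℕ} {K : List ℕ} (hx : x ∉ K) (hy : y ∉ K) :
    K.map (Equiv.swap x y) = K := by
  conv_rhs => rw [← List.map_id K]
  apply List.map_congr_left
  intro a ha
  exact Equiv.swap_apply_of_ne_of_ne (by rintro rfl; exact hx ha) (by rintro rfl; exact hy ha)

lemma II_B1 {x y : ℕ} {K : List ℕ} (hxy : x ≠ y) (hx : x ∉ K) (hy : y ∉ K) :
    II (x :: y :: K) = II K := by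
  have c1 := List.count_eq_zero.2 hx
  have c2 := List.count_eq_zero.2 hy
  have v1 : hm (x :: y :: K) x = true := by
    simp [hm, List.count_cons, c1, hxy, hxy.symm]
  have v2 : hm (x :: y :: K) y = true := by
    simp [hm, List.count_cons, c2, hxy, hxy.symm]
  have hc : ∀ a ∈ K, hm (x :: y :: K) a = hm K a := by
    intro a ha
    have h1 : x ≠ a := by rintro rfl; exact hx ha
    have h2 : y ≠ a := by rintro rfl; exact hy ha
    simp [hm, List.count_cons, h1, h2]
  unfold II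
  simp only [nn, gg, v1, v2, gg_congr hc, nn_congr hc]
  cases gg (hm K) K <;> cases nn (hm K) K <;> rfl

lemma II_B2 {x y : ℕ} {p K L : List ℕ} (hxy : x ≠ y) (hp : p = [x, y] ∨ p = [y, x])
    (hx : x ∉ K ∧ x ∉ L) (hy : y ∉ K ∧ y ∉ L) :
    II (x :: y :: (K ++ (p ++ L))) = II (K ++ (p.reverse ++ L)) := by
  have c1 := List.count_eq_zero.2 hx.1
  have c2 := List.count_eq_zero.2 hy.1
  have c3 := List.count_eq_zero.2 hx.2
  have c4 := List.count_eq_zero.2 hy.2
  have v1 : hm (x :: y :: (K ++ (p ++ L))) x = false := by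
    rcases hp with rfl | rfl <;> simp [hm, List.count_cons, c1, c3, hxy, hxy.symm]
  have v2 : hm (x :: y :: (K ++ (p ++ L))) y = false := by
    rcases hp with rfl | rfl <;> simp [hm, List.count_cons, c2, c4, hxy, hxy.symm]
  have v3 : hm (K ++ (p.reverse ++ L)) x = true := by
    rcases hp with rfl | rfl <;> simp [hm, List.count_cons, c1, c3, hxy, hxy.symm]
  have v4 : hm (K ++ (p.reverse ++ L)) y = true := by
    rcases hp with rfl | rfl <;> simp [hm, List.count_cons, c2, c4, hxy, hxy.symm]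
  have hc : ∀ a, a ≠ x → a ≠ y →
      hm (x :: y :: (K ++ (p ++ L))) a = hm (K ++ (p.reverse ++ L)) a := by
    intro a h1 h2
    rcases hp with rfl | rfl <;> simp [hm, List.count_cons, h1.symm, h2.symm]
  have hK : ∀ a ∈ K, hm (x :: y :: (K ++ (p ++ L))) a = hm (K ++ (p.reverse ++ L)) a :=
    fun a ha => hc a (by rintro rfl; exact hx.1 ha) (by rintro rfl; exact hy.1 ha)
  have hL : ∀ a ∈ L, hm (x :: y :: (K ++ (p ++ L))) a = hm (K ++ (p.reverse ++ L)) a :=
    fun a ha => hc a (by rintro rfl; exact hx.2 ha) (by rintro rfl; exact hy.2 ha)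
  unfold II
  set h := hm (x :: y :: (K ++ (p ++ L))) with hh
  set h' := hm (K ++ (p.reverse ++ L)) with hh'
  clear_value h h'
  simp only [nn, gg, v1, v2, nn_append, mm_append, gg_append, gg_congr hK, nn_congr hK,
    gg_congr hL, nn_congr hL, mm_congr hK, mm_congr hL]
  rcases hp with rfl | rfl <;>
    simp [nn, mm, gg, v1, v2, v3, v4]

lemma II_F0 {x y : ℕ} {α α' β β' K : List ℕ} (hxy : x ≠ y) (hα : Alt1 x α α')
    (hβ : Alt1 y β β') (hx : x ∉ K) (hy : y ∉ K) :
    II (α ++ (β ++ K)) = II (α' ++ (β' ++ K)) := by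
  rcases hα with ⟨rfl, rfl⟩ | ⟨rfl, rfl⟩ <;> rcases hβ with ⟨rfl, rfl⟩ | ⟨rfl, rfl⟩
  · exact II_B1 hxy hx hy
  · have := II_map (Equiv.swap x y) (x :: K)
    rw [List.map_cons, map_swap_of_not_mem hx hy, Equiv.swap_apply_left] at this
    simpa using this.symm
  · have := II_map (Equiv.swap x y) (x :: K)
    rw [List.map_cons, map_swap_of_not_mem hx hy, Equiv.swap_apply_left] at this
    simpa using this
  · exact (II_B1 hxy hx hy).symm

lemma II_F1 {x y : ℕ} {α α' β β' p K L : List ℕ} (hxy : x ≠ y) (hα : Alt1 x α α')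
    (hβ : Alt1 y β β') (hp : p = [x, y] ∨ p = [y, x]) (hx : x ∉ K ∧ x ∉ L)
    (hy : y ∉ K ∧ y ∉ L) :
    II (α ++ (β ++ (K ++ (p ++ L)))) = II (α' ++ (β' ++ (K ++ (p.reverse ++ L)))) := by
  have hp' : p.reverse = [x, y] ∨ p.reverse = [y, x] := by
    rcases hp with rfl | rfl <;> simp
  have hmp : p.map (Equiv.swap x y) = p.reverse := by
    rcases hp with rfl | rfl <;> simp
  rcases hα with ⟨rfl, rfl⟩ | ⟨rfl, rfl⟩ <;> rcases hβ with ⟨rfl, rfl⟩ | ⟨rfl, rfl⟩
  · exact II_B2 hxy hp hx hy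
  · have := II_map (Equiv.swap x y) (x :: (K ++ (p ++ L)))
    simp only [List.map_cons, List.map_append, map_swap_of_not_mem hx.1 hy.1,
      map_swap_of_not_mem hx.2 hy.2, Equiv.swap_apply_left, hmp] at this
    simpa using this.symm
  · have := II_map (Equiv.swap x y) (y :: (K ++ (p ++ L)))
    simp only [List.map_cons, List.map_append, map_swap_of_not_mem hx.1 hy.1,
      map_swap_of_not_mem hx.2 hy.2, Equiv.swap_apply_right, hmp] at this
    simpa using this.symm
  · have := II_B2 (K := K) (L := L) hxy hp' hx hy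
    rw [List.reverse_reverse] at this
    exact this.symm

/-- the loop word -/
def lam (ρ : Bool) (A C : List ℕ) : List ℕ := (if ρ = true then A else A.reverse) ++ C

lemma lam_perm (ρ : Bool) (A C : List ℕ) : (lam ρ A C).Perm (A ++ C) := by
  unfold lam
  cases ρ
  · simp only [Bool.false_eq_true, if_false]
    exact (List.reverse_perm A).append_right _
  · simp

lemma II_lam {ρ : Bool} {A C : List ℕ} (he : (A ++ C).length.bodd = false) :
    II (lam ρ A C) = xor (xor (nn (hm (A ++ C)) A) (nn (hm (A ++ C)) C))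
      (ρ && (mm (hm (A ++ C)) A && gg (hm (A ++ C)) C)) := by
  obtain ⟨h1, h2⟩ := even_split he
  unfold II
  rw [hm_perm (lam_perm ρ A C)]
  unfold lam
  cases ρ
  · simp only [Bool.false_eq_true, if_false, nn_append, nn_reverse, mm_reverse, h2]
    cases nn (hm (A ++ C)) A <;> cases nn (hm (A ++ C)) C <;> cases mm (hm (A ++ C)) A <;>
      cases gg (hm (A ++ C)) C <;> rfl
  · simp only [if_true, nn_append, Bool.true_and]

/-- a word with four chosen letters -/
def W4 (t1 t2 t3 t4 : ℕ) (S0 S1 S2 S3 S4 : List ℕ) : List ℕ :=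
  S0 ++ (t1 :: (S1 ++ (t2 :: (S2 ++ (t3 :: (S3 ++ (t4 :: S4)))))))

structure Fr (c e : ℕ) (t1 t2 t3 t4 : ℕ) (S0 S1 S2 S3 S4 : List ℕ) : Prop where
  h0 : ∀ x ∈ S0, sp c e x = false
  h1 : ∀ x ∈ S1, sp c e x = false
  h2 : ∀ x ∈ S2, sp c e x = false
  h3 : ∀ x ∈ S3, sp c e x = false
  h4 : ∀ x ∈ S4, sp c e x = false
  g1 : sp c e t1 = true
  g2 : sp c e t2 = true
  g3 : sp c e t3 = true
  g4 : sp c e t4 = true

lemma w4_mk {c e t1 t2 t3 t4 : ℕ} {S0 S1 S2 S3 S4 : List ℕ}
    (hf : Fr c e t1 t2 t3 t4 S0 S1 S2 S3 S4) :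
    mk c e false (W4 t1 t2 t3 t4 S0 S1 S2 S3 S4) = S1 ++ S3 ∧
    mk c e true (W4 t1 t2 t3 t4 S0 S1 S2 S3 S4) = S0 ++ (S2 ++ S4) := by
  obtain ⟨h0, h1, h2, h3, h4, g1, g2, g3, g4⟩ := hf
  constructor
  · simp [W4, mk_append, mk, kf_seg h0, kf_seg h1, kf_seg h2, kf_seg h3, kf_seg h4, mk_seg h0,
      mk_seg h1, mk_seg h2, mk_seg h3, mk_seg h4, g1, g2, g3, g4]
  · simp [W4, mk_append, mk, kf_seg h0, kf_seg h1, kf_seg h2, kf_seg h3, kf_seg h4, mk_seg h0,
      mk_seg h1, mk_seg h2, mk_seg h3, mk_seg h4, g1, g2, g3, g4]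

lemma loop4_false {c e t1 t2 t3 t4 : ℕ} {S0 S1 S2 S3 S4 : List ℕ}
    (hf : Fr c e t1 t2 t3 t4 S0 S1 S2 S3 S4) (he : (S1 ++ S3).length.bodd = false) :
    (∃ s, Loop c e (W4 t1 t2 t3 t4 S0 S1 S2 S3 S4) false s) ↔
      II (lam (rr c e (W4 t1 t2 t3 t4 S0 S1 S2 S3 S4)) S1 S3) = false := by
  have hmk := (w4_mk hf).1
  obtain ⟨h0, h1, h2, h3, h4, g1, g2, g3, g4⟩ := hf
  obtain ⟨e1, e2⟩ := even_split he
  rw [II_lam he]
  constructor
  · rintro ⟨s, l1, l2⟩
    rw [hmk] at l1 l2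
    generalize rr c e (W4 t1 t2 t3 t4 S0 S1 S2 S3 S4) = ρ at *
    simp only [W4, sf_append, jf_append, kf_append, sf, jf, kf, kf_seg h0, kf_seg h1, kf_seg h2,
      kf_seg h3, kf_seg h4, sf_seg h0, sf_seg h1, sf_seg h2, sf_seg h3, sf_seg h4,
      jf_seg h0, jf_seg h1, jf_seg h2, jf_seg h3, jf_seg h4, g1, g2, g3, g4] at l1 l2
    rw [e1, e2] at *
    generalize mm (hm (S1 ++ S3)) S3 = m at *
    generalize gg (hm (S1 ++ S3)) S3 = g at *
    generalize nn (hm (S1 ++ S3)) S3 = n at *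
    generalize nn (hm (S1 ++ S3)) S1 = n' at *
    revert l1 l2
    cases ρ <;> cases s <;> cases m <;> cases g <;> cases n <;> cases n' <;> simp
  · intro hI
    refine ⟨false, ?_, ?_⟩
    · rw [hmk]
      generalize rr c e (W4 t1 t2 t3 t4 S0 S1 S2 S3 S4) = ρ at *
      simp only [W4, sf_append, jf_append, kf_append, sf, jf, kf, kf_seg h0, kf_seg h1, kf_seg h2,
        kf_seg h3, kf_seg h4, sf_seg h0, sf_seg h1, sf_seg h2, sf_seg h3, sf_seg h4,
        jf_seg h0, jf_seg h1, jf_seg h2, jf_seg h3, jf_seg h4, g1, g2, g3, g4]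
      rw [e1]
      generalize mm (hm (S1 ++ S3)) S3 = m at *
      cases ρ <;> cases m <;> rfl
    · rw [hmk]
      generalize rr c e (W4 t1 t2 t3 t4 S0 S1 S2 S3 S4) = ρ at *
      simp only [W4, sf_append, jf_append, kf_append, sf, jf, kf, kf_seg h0, kf_seg h1, kf_seg h2,
        kf_seg h3, kf_seg h4, sf_seg h0, sf_seg h1, sf_seg h2, sf_seg h3, sf_seg h4,
        jf_seg h0, jf_seg h1, jf_seg h2, jf_seg h3, jf_seg h4, g1, g2, g3, g4]
      rw [e1, e2] at *
      generalize mm (hm (S1 ++ S3)) S3 = m at *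
      generalize gg (hm (S1 ++ S3)) S3 = g at *
      generalize nn (hm (S1 ++ S3)) S3 = n at *
      generalize nn (hm (S1 ++ S3)) S1 = n' at *
      revert hI
      cases ρ <;> cases m <;> cases g <;> cases n <;> cases n' <;> simp

end Pool.Agent.Run7.h906
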