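import Mathlib
import Pool.Agent.Run7.h906.BlockD

set_option linter.unusedSimpArgs false

namespace Pool.Agent.Run7.h906

lemma loop4_true {c e t1 t2 t3 t4 : ℕ} {S0 S1 S2 S3 S4 : List ℕ}
    (hf : Fr c e t1 t2 t3 t4 S0 S1 S2 S3 S4) (he : ((S4 ++ S0) ++ S2).length.bodd = false) :
    (∃ s, Loop c e (W4 t1 t2 t3 t4 S0 S1 S2 S3 S4) true s) ↔
      II (lam (rr c e (W4 t1 t2 t3 t4 S0 S1 S2 S3 S4)) (S4 ++ S0) S2) = false := by
  have hmk := (w4_mk hf).2
  have hper : (S0 ++ (S2 ++ S4)).Perm ((S4 ++ S0) ++ S2) := by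
    have h1 : (S0 ++ (S2 ++ S4)).Perm ((S2 ++ S4) ++ S0) := List.perm_append_comm
    refine h1.trans ?_
    rw [List.append_assoc]
    exact List.perm_append_comm
  obtain ⟨h0, h1, h2, h3, h4, g1, g2, g3, g4⟩ := hf
  obtain ⟨e1, e2⟩ := even_split he
  rw [II_lam he]
  rw [mm_append] at e1
  rw [gg_append] at e2
  rw [nn_append, mm_append]
  constructor
  · rintro ⟨s, l1, l2⟩
    rw [hmk, hm_perm hper] at l1 l2
    generalize rr c e (W4 t1 t2 t3 t4 S0 S1 S2 S3 S4) = ρ at *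
    simp only [W4, sf_append, jf_append, kf_append, sf, jf, kf, kf_seg h0, kf_seg h1, kf_seg h2,
      kf_seg h3, kf_seg h4, sf_seg h0, sf_seg h1, sf_seg h2, sf_seg h3, sf_seg h4,
      jf_seg h0, jf_seg h1, jf_seg h2, jf_seg h3, jf_seg h4, g1, g2, g3, g4] at l1 l2
    rw [← e1, ← e2] at *
    generalize mm (hm ((S4 ++ S0) ++ S2)) S0 = m0 at *
    generalize mm (hm ((S4 ++ S0) ++ S2)) S4 = m4 at *
    generalize gg (hm ((S4 ++ S0) ++ S2)) S0 = a0 at *
    generalize gg (hm ((S4 ++ S0) ++ S2)) S4 = a4 at *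
    generalize nn (hm ((S4 ++ S0) ++ S2)) S0 = n0 at *
    generalize nn (hm ((S4 ++ S0) ++ S2)) S2 = n2 at *
    generalize nn (hm ((S4 ++ S0) ++ S2)) S4 = n4 at *
    revert l1 l2
    cases ρ <;> cases s <;> cases m0 <;> cases m4 <;> cases a0 <;> cases a4 <;> simp
    all_goals (cases n0 <;> cases n2 <;> cases n4 <;> simp)
  · intro hI
    refine ⟨!(rr c e (W4 t1 t2 t3 t4 S0 S1 S2 S3 S4)) && mm (hm ((S4 ++ S0) ++ S2)) S4, ?_, ?_⟩
    · rw [hmk, hm_perm hper]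
      generalize rr c e (W4 t1 t2 t3 t4 S0 S1 S2 S3 S4) = ρ at *
      simp only [W4, sf_append, jf_append, kf_append, sf, jf, kf, kf_seg h0, kf_seg h1, kf_seg h2,
        kf_seg h3, kf_seg h4, sf_seg h0, sf_seg h1, sf_seg h2, sf_seg h3, sf_seg h4,
        jf_seg h0, jf_seg h1, jf_seg h2, jf_seg h3, jf_seg h4, g1, g2, g3, g4]
      rw [← e1]
      generalize mm (hm ((S4 ++ S0) ++ S2)) S0 = m0 at *
      generalize mm (hm ((S4 ++ S0) ++ S2)) S4 = m4 at *
      cases ρ <;> cases m0 <;> cases m4 <;> rfl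
    · rw [hmk, hm_perm hper]
      generalize rr c e (W4 t1 t2 t3 t4 S0 S1 S2 S3 S4) = ρ at *
      simp only [W4, sf_append, jf_append, kf_append, sf, jf, kf, kf_seg h0, kf_seg h1, kf_seg h2,
        kf_seg h3, kf_seg h4, sf_seg h0, sf_seg h1, sf_seg h2, sf_seg h3, sf_seg h4,
        jf_seg h0, jf_seg h1, jf_seg h2, jf_seg h3, jf_seg h4, g1, g2, g3, g4]
      rw [← e1, ← e2] at *
      generalize mm (hm ((S4 ++ S0) ++ S2)) S0 = m0 at *
      generalize mm (hm ((S4 ++ S0) ++ S2)) S4 = m4 at *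
      generalize gg (hm ((S4 ++ S0) ++ S2)) S0 = a0 at *
      generalize gg (hm ((S4 ++ S0) ++ S2)) S4 = a4 at *
      generalize nn (hm ((S4 ++ S0) ++ S2)) S0 = n0 at *
      generalize nn (hm ((S4 ++ S0) ++ S2)) S2 = n2 at *
      generalize nn (hm ((S4 ++ S0) ++ S2)) S4 = n4 at *
      revert hI
      cases ρ <;> cases m0 <;> cases m4 <;> cases a0 <;> cases a4 <;> simp
      all_goals (cases n0 <;> cases n2 <;> cases n4 <;> simp)

end Pool.Agent.Run7.h906
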