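import Mathlib
import Pool.Agent.Run7.h906.BlockE

set_option linter.unusedSimpArgs false

namespace Pool.Agent.Run7.h906

lemma Alt1.symm {x : ℕ} {α α' : List ℕ} (h : Alt1 x α α') : Alt1 x α' α := by
  rcases h with ⟨h1, h2⟩ | ⟨h1, h2⟩
  · exact Or.inr ⟨h2, h1⟩
  · exact Or.inl ⟨h2, h1⟩

lemma Alt1.rev {x : ℕ} {α α' : List ℕ} (h : Alt1 x α α') : α.reverse = α := by
  rcases h with ⟨rfl, h2⟩ | ⟨rfl, h2⟩ <;> rfl

lemma II_rot_eq {L X Y L1 : List ℕ} (h1 : L = X ++ Y) (h2 : L1 = Y ++ X)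
    (he : L.length.bodd = false) : II L = II L1 := by
  rw [h2, h1]
  apply II_rot
  rw [← h1]
  exact he

lemma lam_even {ρ : Bool} {A C : List ℕ} (he : (A ++ C).length.bodd = false) :
    (lam ρ A C).length.bodd = false := by
  rw [(lam_perm ρ A C).length_eq]
  exact he

section
variable {x y : ℕ} {a a' b b' p M N R : List ℕ}

lemma E1 (hxy : x ≠ y) (ha : Alt1 x a a') (hb : Alt1 y b b') (hx : x ∉ M ∧ x ∉ N)
    (hy : y ∉ M ∧ y ∉ N)
    (he : ((M ++ a) ++ (N ++ b)).length.bodd = false)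
    (he' : ((M ++ a') ++ (N ++ b')).length.bodd = false) :
    II (lam false (M ++ a) (N ++ b)) = II (lam false (M ++ a') (N ++ b')) := by
  rw [II_rot_eq (X := a ++ (M.reverse ++ N)) (Y := b) (L1 := b ++ (a ++ (M.reverse ++ N)))
      (by simp [lam, ha.rev]) rfl (lam_even he),
    II_rot_eq (X := a' ++ (M.reverse ++ N)) (Y := b') (L1 := b' ++ (a' ++ (M.reverse ++ N)))
      (by simp [lam, ha.symm.rev]) rfl (lam_even he')]
  exact II_F0 hxy.symm hb ha (by simp [hy]) (by simp [hx])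

lemma E2 (hxy : x ≠ y) (hp : p = [x, y] ∨ p = [y, x]) (ha : Alt1 x a a') (hb : Alt1 y b b')
    (hx : x ∉ M ∧ x ∉ N ∧ x ∉ R) (hy : y ∉ M ∧ y ∉ N ∧ y ∉ R)
    (he : (((b ++ M) ++ (p ++ N)) ++ (a ++ R)).length.bodd = false)
    (he' : (((b' ++ M) ++ (p.reverse ++ N)) ++ (a' ++ R)).length.bodd = false) :
    II (lam false ((b ++ M) ++ (p ++ N)) (a ++ R)) =
      II (lam false ((b' ++ M) ++ (p.reverse ++ N)) (a' ++ R)) := by
  rw [II_rot_eq (X := N.reverse ++ (p.reverse ++ M.reverse)) (Y := b ++ (a ++ R))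
      (L1 := b ++ (a ++ ((R ++ N.reverse) ++ (p.reverse ++ M.reverse))))
      (by simp [lam, hb.rev]) (by simp) (lam_even he),
    II_rot_eq (X := N.reverse ++ (p.reverse.reverse ++ M.reverse)) (Y := b' ++ (a' ++ R))
      (L1 := b' ++ (a' ++ ((R ++ N.reverse) ++ (p.reverse.reverse ++ M.reverse))))
      (by simp [lam, hb.symm.rev]) (by simp) (lam_even he')]
  have hp' : p.reverse = [x, y] ∨ p.reverse = [y, x] := by
    rcases hp with rfl | rfl <;> simp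
  exact II_F1 hxy.symm hb ha hp'.symm (by simp [hy]) (by simp [hx])

lemma E3 (hxy : x ≠ y) (ha : Alt1 x a a') (hb : Alt1 y b b') (hx : x ∉ M ∧ x ∉ N)
    (hy : y ∉ M ∧ y ∉ N)
    (he : ((a ++ M) ++ (b ++ N)).length.bodd = false)
    (he' : ((a' ++ M) ++ (b' ++ N)).length.bodd = false) :
    II (lam false (a ++ M) (b ++ N)) = II (lam false (a' ++ M) (b' ++ N)) := by
  rw [II_rot_eq (X := M.reverse) (Y := a ++ (b ++ N)) (L1 := a ++ (b ++ (N ++ M.reverse)))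
      (by simp [lam, ha.rev]) (by simp) (lam_even he),
    II_rot_eq (X := M.reverse) (Y := a' ++ (b' ++ N)) (L1 := a' ++ (b' ++ (N ++ M.reverse)))
      (by simp [lam, ha.symm.rev]) (by simp) (lam_even he')]
  exact II_F0 hxy ha hb (by simp [hx]) (by simp [hy])

lemma E4 (hxy : x ≠ y) (hp : p = [x, y] ∨ p = [y, x]) (ha : Alt1 x a a') (hb : Alt1 y b b')
    (hx : x ∉ M ∧ x ∉ N ∧ x ∉ R) (hy : y ∉ M ∧ y ∉ N ∧ y ∉ R)
    (he : ((M ++ (p ++ (N ++ a))) ++ (R ++ b)).length.bodd = false)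
    (he' : ((M ++ (p.reverse ++ (N ++ a'))) ++ (R ++ b')).length.bodd = false) :
    II (lam false (M ++ (p ++ (N ++ a))) (R ++ b)) =
      II (lam false (M ++ (p.reverse ++ (N ++ a'))) (R ++ b')) := by
  rw [II_rot_eq (X := a ++ (N.reverse ++ (p.reverse ++ (M.reverse ++ R)))) (Y := b)
      (L1 := b ++ (a ++ (N.reverse ++ (p.reverse ++ (M.reverse ++ R)))))
      (by simp [lam, ha.rev]) (by simp) (lam_even he),
    II_rot_eq (X := a' ++ (N.reverse ++ (p.reverse.reverse ++ (M.reverse ++ R)))) (Y := b')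
      (L1 := b' ++ (a' ++ (N.reverse ++ (p.reverse.reverse ++ (M.reverse ++ R)))))
      (by simp [lam, ha.symm.rev]) (by simp) (lam_even he')]
  have hp' : p.reverse = [x, y] ∨ p.reverse = [y, x] := by
    rcases hp with rfl | rfl <;> simp
  exact II_F1 hxy.symm hb ha hp'.symm (by simp [hy]) (by simp [hx])

lemma E5 (hxy : x ≠ y) (ha : Alt1 x a a') (hb : Alt1 y b b') (hx : x ∉ M ∧ x ∉ N)
    (hy : y ∉ M ∧ y ∉ N)
    (he : ((a ++ M) ++ (N ++ b)).length.bodd = false)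
    (he' : ((a' ++ M) ++ (N ++ b')).length.bodd = false) :
    II (lam true (a ++ M) (N ++ b)) = II (lam true (a' ++ M) (N ++ b')) := by
  rw [II_rot_eq (X := a ++ (M ++ N)) (Y := b) (L1 := b ++ (a ++ (M ++ N)))
      (by simp [lam]) (by simp) (lam_even he),
    II_rot_eq (X := a' ++ (M ++ N)) (Y := b') (L1 := b' ++ (a' ++ (M ++ N)))
      (by simp [lam]) (by simp) (lam_even he')]
  exact II_F0 hxy.symm hb ha (by simp [hy]) (by simp [hx])

lemma E6 (hxy : x ≠ y) (hp : p = [x, y] ∨ p = [y, x]) (ha : Alt1 x a a') (hb : Alt1 y b b')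
    (hx : x ∉ M ∧ x ∉ N ∧ x ∉ R) (hy : y ∉ M ∧ y ∉ N ∧ y ∉ R)
    (he : (((b ++ M) ++ (p ++ N)) ++ (R ++ a)).length.bodd = false)
    (he' : (((b' ++ M) ++ (p.reverse ++ N)) ++ (R ++ a')).length.bodd = false) :
    II (lam true ((b ++ M) ++ (p ++ N)) (R ++ a)) =
      II (lam true ((b' ++ M) ++ (p.reverse ++ N)) (R ++ a')) := by
  rw [II_rot_eq (X := b ++ (M ++ (p ++ (N ++ R)))) (Y := a)
      (L1 := a ++ (b ++ (M ++ (p ++ (N ++ R)))))
      (by simp [lam]) (by simp) (lam_even he),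
    II_rot_eq (X := b' ++ (M ++ (p.reverse ++ (N ++ R)))) (Y := a')
      (L1 := a' ++ (b' ++ (M ++ (p.reverse ++ (N ++ R)))))
      (by simp [lam]) (by simp) (lam_even he')]
  exact II_F1 hxy ha hb hp (by simp [hx]) (by simp [hy])

lemma E7 (hxy : x ≠ y) (hp : p = [x, y] ∨ p = [y, x]) (ha : Alt1 x a a') (hb : Alt1 y b b')
    (hx : x ∉ M ∧ x ∉ N ∧ x ∉ R) (hy : y ∉ M ∧ y ∉ N ∧ y ∉ R)
    (he : ((M ++ (p ++ (N ++ a))) ++ (b ++ R)).length.bodd = false)
    (he' : ((M ++ (p.reverse ++ (N ++ a'))) ++ (b' ++ R)).length.bodd = false) :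
    II (lam true (M ++ (p ++ (N ++ a))) (b ++ R)) =
      II (lam true (M ++ (p.reverse ++ (N ++ a'))) (b' ++ R)) := by
  rw [II_rot_eq (X := M ++ (p ++ N)) (Y := a ++ (b ++ R))
      (L1 := a ++ (b ++ ((R ++ M) ++ (p ++ N))))
      (by simp [lam]) (by simp) (lam_even he),
    II_rot_eq (X := M ++ (p.reverse ++ N)) (Y := a' ++ (b' ++ R))
      (L1 := a' ++ (b' ++ ((R ++ M) ++ (p.reverse ++ N))))
      (by simp [lam]) (by simp) (lam_even he')]
  exact II_F1 hxy ha hb hp (by simp [hx]) (by simp [hy])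

lemma E8 (hxy : x ≠ y) (ha : Alt1 x a a') (hb : Alt1 y b b') (hx : x ∉ M ∧ x ∉ N)
    (hy : y ∉ M ∧ y ∉ N)
    (he : ((M ++ a) ++ (b ++ N)).length.bodd = false)
    (he' : ((M ++ a') ++ (b' ++ N)).length.bodd = false) :
    II (lam true (M ++ a) (b ++ N)) = II (lam true (M ++ a') (b' ++ N)) := by
  rw [II_rot_eq (X := M) (Y := a ++ (b ++ N)) (L1 := a ++ (b ++ (N ++ M)))
      (by simp [lam]) (by simp) (lam_even he),
    II_rot_eq (X := M) (Y := a' ++ (b' ++ N)) (L1 := a' ++ (b' ++ (N ++ M)))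
      (by simp [lam]) (by simp) (lam_even he')]
  exact II_F0 hxy ha hb (by simp [hx]) (by simp [hy])

end

lemma w4_rr {c e t1 t2 t3 t4 : ℕ} {S0 S1 S2 S3 S4 : List ℕ}
    (hf : Fr c e t1 t2 t3 t4 S0 S1 S2 S3 S4) :
    rr c e (W4 t1 t2 t3 t4 S0 S1 S2 S3 S4) = evn [t1, t2, t3, t4] c := by
  obtain ⟨h0, h1, h2, h3, h4, g1, g2, g3, g4⟩ := hf
  have f : ∀ u : List ℕ, (∀ a ∈ u, sp c e a = false) → u.filter (sp c e) = [] := by
    intro u hu
    rw [List.filter_eq_nil_iff]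
    intro a ha
    simp [hu a ha]
  unfold rr W4
  simp [List.filter_append, f _ h0, f _ h1, f _ h2, f _ h3, f _ h4, g1, g2, g3, g4]

lemma concl_false {c e t1 t2 t3 t4 : ℕ} {S0 S1 S2 S3 S4 S0' S1' S2' S3' S4' w w' : List ℕ}
    {ρ : Bool} (ew : w = W4 t1 t2 t3 t4 S0 S1 S2 S3 S4)
    (ew' : w' = W4 t1 t2 t3 t4 S0' S1' S2' S3' S4')
    (hf : Fr c e t1 t2 t3 t4 S0 S1 S2 S3 S4) (hf' : Fr c e t1 t2 t3 t4 S0' S1' S2' S3' S4')
    (he : (mk c e false w).length.bodd = false) (he' : (mk c e false w').length.bodd = false)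
    (hρ : evn [t1, t2, t3, t4] c = ρ)
    (hI : (S1 ++ S3).length.bodd = false → (S1' ++ S3').length.bodd = false →
      II (lam ρ S1 S3) = II (lam ρ S1' S3'))
    (hL : ∃ s, Loop c e w false s) : ∃ s, Loop c e w' false s := by
  subst ew ew'
  rw [(w4_mk hf).1] at he
  rw [(w4_mk hf').1] at he'
  rw [loop4_false hf he, w4_rr hf, hρ] at hL
  rw [loop4_false hf' he', w4_rr hf', hρ, ← hI he he']
  exact hL

lemma concl_true {c e t1 t2 t3 t4 : ℕ} {S0 S1 S2 S3 S4 S0' S1' S2' S3' S4' w w' : List ℕ}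
    {ρ : Bool} (ew : w = W4 t1 t2 t3 t4 S0 S1 S2 S3 S4)
    (ew' : w' = W4 t1 t2 t3 t4 S0' S1' S2' S3' S4')
    (hf : Fr c e t1 t2 t3 t4 S0 S1 S2 S3 S4) (hf' : Fr c e t1 t2 t3 t4 S0' S1' S2' S3' S4')
    (he : (mk c e true w).length.bodd = false) (he' : (mk c e true w').length.bodd = false)
    (hρ : evn [t1, t2, t3, t4] c = ρ)
    (hI : ((S4 ++ S0) ++ S2).length.bodd = false → ((S4' ++ S0') ++ S2').length.bodd = false →
      II (lam ρ (S4 ++ S0) S2) = II (lam ρ (S4' ++ S0') S2'))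
    (hL : ∃ s, Loop c e w true s) : ∃ s, Loop c e w' true s := by
  subst ew ew'
  rw [(w4_mk hf).2] at he
  rw [(w4_mk hf').2] at he'
  have hlen : ∀ A B C : List ℕ, ((C ++ A) ++ B).length = (A ++ (B ++ C)).length := by
    intro A B C
    simp only [List.length_append]
    omega
  rw [← hlen] at he he'
  rw [loop4_true hf he, w4_rr hf, hρ] at hL
  rw [loop4_true hf' he', w4_rr hf', hρ, ← hI he he']
  exact hL

/-- a marked arc between the two occurrences of a chosen letter is impossible -/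
lemma wrong1 {g c e t t3 t4 : ℕ} {S0 S1 S2 S3 S4 w : List ℕ} (hg : Gauss w)
    (hh : strip^[g + 1] w = []) (hp : Pair g c e w false) (ht : t ∈ strip^[g] w)
    (ew : w = W4 t t t3 t4 S0 S1 S2 S3 S4) (hf : Fr c e t t t3 t4 S0 S1 S2 S3 S4) : False := by
  have h1 := noadj (X := S0) (A := S1) (Y := S2 ++ (t3 :: (S3 ++ (t4 :: S4)))) hg ht ew (by
    intro x hx
    apply hp.low
    rw [ew, (w4_mk hf).1]
    simp [hx])
  rw [hh] at h1
  simp at h1

lemma wrong2 {g c e t t1 t4 : ℕ} {S0 S1 S2 S3 S4 w : List ℕ} (hg : Gauss w)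
    (hh : strip^[g + 1] w = []) (hp : Pair g c e w true) (ht : t ∈ strip^[g] w)
    (ew : w = W4 t1 t t t4 S0 S1 S2 S3 S4) (hf : Fr c e t1 t t t4 S0 S1 S2 S3 S4) : False := by
  have h1 := noadj (X := S0 ++ (t1 :: S1)) (A := S2) (Y := S3 ++ (t4 :: S4)) hg ht
    (ew.trans (by simp [W4])) (by
    intro x hx
    apply hp.low
    rw [ew, (w4_mk hf).2]
    simp [hx])
  rw [hh] at h1
  simp at h1

lemma split_one {w : List ℕ} {a : ℕ} (h : w.count a = 1) :
    ∃ A B, w = A ++ (a :: B) ∧ a ∉ A ∧ a ∉ B := by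
  have ha : a ∈ w := by
    by_contra hn
    rw [List.count_eq_zero.2 hn] at h
    omega
  obtain ⟨A, R, rfl, hA⟩ := List.eq_append_cons_of_mem ha
  rw [List.count_append, List.count_eq_zero.2 hA, List.count_cons_self] at h
  refine ⟨A, R, rfl, hA, ?_⟩
  rw [← List.count_eq_zero]
  omega

end Pool.Agent.Run7.h906
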