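import Mathlib
import Pool.Agent.Run7.h906.BlockF

set_option linter.unusedSimpArgs false

namespace Pool.Agent.Run7.h906

lemma fr {c e : ℕ} {S : List ℕ} (h : c ∉ S ∧ e ∉ S) : ∀ a ∈ S, sp c e a = false := by
  intro a ha
  have h1 : a ≠ c := by rintro rfl; exact h.1 ha
  have h2 : a ≠ e := by rintro rfl; exact h.2 ha
  simp [sp, h1, h2]

lemma Alt1.nmem {x z : ℕ} {α α' : List ℕ} (h : Alt1 x α α') (hz : z ≠ x) : z ∉ α ∧ z ∉ α' := by
  rcases h with ⟨rfl, rfl⟩ | ⟨rfl, rfl⟩ <;> simp [hz]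

lemma sp_three {g c e x y : ℕ} {k : Bool} {p q r U V W : List ℕ} (htr : Tri x y c p q r)
    (hg : Gauss (tw p q r U V W)) (hh : strip^[g + 1] (tw p q r U V W) = [])
    (hp : Pair g c e (tw p q r U V W) k)
    (hp' : Pair g c e (tw p.reverse q.reverse r.reverse U V W) k)
    (hxe : x ≠ e) (hye : y ≠ e)
    (hL : ∃ s, Loop c e (tw p q r U V W) k s) :
    ∃ s, Loop c e (tw p.reverse q.reverse r.reverse U V W) k s := by
  have hg' : Gauss (tw p.reverse q.reverse r.reverse U V W) := hg.perm (htr.perm U V W)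
  have he1 := mk_even hg hp
  have he2 := mk_even hg' hp'
  have hce := hp.ne
  obtain ⟨xU, xV, xW⟩ := htr.fresh hg x (by simp)
  obtain ⟨yU, yV, yW⟩ := htr.fresh hg y (by simp)
  obtain ⟨cU, cV, cW⟩ := htr.fresh hg c (by simp)
  have hxy := htr.hab
  have hxc := htr.hac
  have hyc := htr.hbc
  have hpp := htr.hp
  have hcp : c ∉ p := by rcases hpp with rfl | rfl <;> simp [hxc.symm, hyc.symm]
  have hep : e ∉ p := by rcases hpp with rfl | rfl <;> simp [hxe.symm, hye.symm]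
  have hcp' : c ∉ p.reverse := by simpa using hcp
  have hep' : e ∉ p.reverse := by simpa using hep
  obtain ⟨a, a', hq, hq', ha⟩ : ∃ a a', q = a ++ (c :: a') ∧ q.reverse = a' ++ (c :: a) ∧
      Alt1 x a a' := by
    rcases htr.hq with rfl | rfl
    · exact ⟨[x], [], rfl, rfl, Or.inl ⟨rfl, rfl⟩⟩
    · exact ⟨[], [x], rfl, rfl, Or.inr ⟨rfl, rfl⟩⟩
  obtain ⟨b, b', hr, hr', hb⟩ : ∃ b b', r = b ++ (c :: b') ∧ r.reverse = b' ++ (c :: b) ∧
      Alt1 y b b' := by
    rcases htr.hr with rfl | rfl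
    · exact ⟨[y], [], rfl, rfl, Or.inl ⟨rfl, rfl⟩⟩
    · exact ⟨[], [y], rfl, rfl, Or.inr ⟨rfl, rfl⟩⟩
  obtain ⟨ca, ca'⟩ := ha.nmem hxc.symm
  obtain ⟨ea, ea'⟩ := ha.nmem hxe.symm
  obtain ⟨cb, cb'⟩ := hb.nmem hyc.symm
  obtain ⟨eb, eb'⟩ := hb.nmem hye.symm
  have hcnt : U.count e + V.count e + W.count e = 2 := by
    have h1 := hg e (iter_sub g _ hp.he)
    unfold tw at h1
    rw [hq, hr] at h1
    simp only [List.count_append, List.count_cons_of_ne hce, List.count_eq_zero.2 hep,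
      List.count_eq_zero.2 ea, List.count_eq_zero.2 ea', List.count_eq_zero.2 eb,
      List.count_eq_zero.2 eb'] at h1
    omega
  have gc : sp c e c = true := by simp [sp]
  have ge : sp c e e = true := by simp [sp]
  rw [hq', hr'] at hp' he2 ⊢
  clear hq' hr' hg'
  subst hq hr
  have hcases : (U.count e = 1 ∧ V.count e = 1 ∧ W.count e = 0) ∨
      (U.count e = 0 ∧ V.count e = 1 ∧ W.count e = 1) ∨
      (U.count e = 0 ∧ V.count e = 2 ∧ W.count e = 0) ∨
      (U.count e = 2 ∧ V.count e = 0 ∧ W.count e = 0) ∨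
      (U.count e = 0 ∧ V.count e = 0 ∧ W.count e = 2) ∨
      (U.count e = 1 ∧ V.count e = 0 ∧ W.count e = 1) := by omega
  rcases hcases with ⟨n1, n2, n3⟩ | ⟨n1, n2, n3⟩ | ⟨n1, n2, n3⟩ | ⟨n1, n2, n3⟩ |
    ⟨n1, n2, n3⟩ | ⟨n1, n2, n3⟩
  · -- first linked case
    obtain ⟨U1, U2, rfl, eU1, eU2⟩ := split_one n1
    obtain ⟨V1, V2, rfl, eV1, eV2⟩ := split_one n2
    have eW := List.count_eq_zero.1 n3
    simp only [List.mem_append, List.mem_cons, not_or] at xU xV yU yV cU cV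
    have ew : tw p (a ++ (c :: a')) (b ++ (c :: b')) (U1 ++ (e :: U2)) (V1 ++ (e :: V2)) W =
        W4 e c e c (p ++ U1) (U2 ++ a) (a' ++ V1) (V2 ++ b) (b' ++ W) := by
      simp [tw, W4]
    have ew' : tw p.reverse (a' ++ (c :: a)) (b' ++ (c :: b)) (U1 ++ (e :: U2))
        (V1 ++ (e :: V2)) W =
        W4 e c e c (p.reverse ++ U1) (U2 ++ a') (a ++ V1) (V2 ++ b') (b ++ W) := by
      simp [tw, W4]
    have hf : Fr c e e c e c (p ++ U1) (U2 ++ a) (a' ++ V1) (V2 ++ b) (b' ++ W) :=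
      ⟨fr (by simp [hcp, hep, cU, eU1]), fr (by simp [cU, eU2, ca, ea]),
        fr (by simp [cV, eV1, ca', ea']), fr (by simp [cV, eV2, cb, eb]),
        fr (by simp [cW, eW, cb', eb']), ge, gc, ge, gc⟩
    have hf' : Fr c e e c e c (p.reverse ++ U1) (U2 ++ a') (a ++ V1) (V2 ++ b') (b ++ W) :=
      ⟨fr (by simp [hcp, hep, cU, eU1]), fr (by simp [cU, eU2, ca', ea']),
        fr (by simp [cV, eV1, ca, ea]), fr (by simp [cV, eV2, cb', eb']),
        fr (by simp [cW, eW, cb, eb]), ge, gc, ge, gc⟩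
    have hρ : evn [e, c, e, c] c = false := by
      simp [evn, ps, List.count_cons, hce, hce.symm]
    cases k
    · exact concl_false ew ew' hf hf' he1 he2 hρ (fun h1 h2 =>
        E1 hxy ha hb ⟨xU.2.2, xV.2.2⟩ ⟨yU.2.2, yV.2.2⟩ h1 h2) hL
    · exact concl_true ew ew' hf hf' he1 he2 hρ (fun h1 h2 =>
        E2 hxy hpp ha.symm hb.symm ⟨xW, xU.1, xV.1⟩ ⟨yW, yU.1, yV.1⟩ h1 h2) hL
  · -- second linked case
    obtain ⟨V1, V2, rfl, eV1, eV2⟩ := split_one n2
    obtain ⟨W1, W2, rfl, eW1, eW2⟩ := split_one n3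
    have eU := List.count_eq_zero.1 n1
    simp only [List.mem_append, List.mem_cons, not_or] at xW xV yW yV cW cV
    have ew : tw p (a ++ (c :: a')) (b ++ (c :: b')) U (V1 ++ (e :: V2)) (W1 ++ (e :: W2)) =
        W4 c e c e (p ++ (U ++ a)) (a' ++ V1) (V2 ++ b) (b' ++ W1) W2 := by
      simp [tw, W4]
    have ew' : tw p.reverse (a' ++ (c :: a)) (b' ++ (c :: b)) U
        (V1 ++ (e :: V2)) (W1 ++ (e :: W2)) =
        W4 c e c e (p.reverse ++ (U ++ a')) (a ++ V1) (V2 ++ b') (b ++ W1) W2 := by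
      simp [tw, W4]
    have hf : Fr c e c e c e (p ++ (U ++ a)) (a' ++ V1) (V2 ++ b) (b' ++ W1) W2 :=
      ⟨fr (by simp [hcp, hep, cU, eU, ca, ea]), fr (by simp [cV, eV1, ca', ea']),
        fr (by simp [cV, eV2, cb, eb]), fr (by simp [cW, eW1, cb', eb']),
        fr (by simp [cW, eW2]), gc, ge, gc, ge⟩
    have hf' : Fr c e c e c e (p.reverse ++ (U ++ a')) (a ++ V1) (V2 ++ b') (b ++ W1) W2 :=
      ⟨fr (by simp [hcp, hep, cU, eU, ca', ea']), fr (by simp [cV, eV1, ca, ea]),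
        fr (by simp [cV, eV2, cb', eb']), fr (by simp [cW, eW1, cb, eb]),
        fr (by simp [cW, eW2]), gc, ge, gc, ge⟩
    have hρ : evn [c, e, c, e] c = false := by
      simp [evn, ps, List.count_cons, hce, hce.symm]
    cases k
    · exact concl_false ew ew' hf hf' he1 he2 hρ (fun h1 h2 =>
        E3 hxy ha.symm hb.symm ⟨xV.1, xW.1⟩ ⟨yV.1, yW.1⟩ h1 h2) hL
    · exact concl_true ew ew' hf hf' he1 he2 hρ (fun h1 h2 =>
        E4 hxy hpp ha hb ⟨xW.2.2, xU, xV.2.2⟩ ⟨yW.2.2, yU, yV.2.2⟩ h1 h2) hL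
  · -- both in the middle
    obtain ⟨V1, V2, V3, rfl, eV1, eV2, eV3⟩ := split_two n2
    have eU := List.count_eq_zero.1 n1
    have eW := List.count_eq_zero.1 n3
    simp only [List.mem_append, List.mem_cons, not_or] at xV yV cV
    have ew : tw p (a ++ (c :: a')) (b ++ (c :: b')) U (V1 ++ (e :: (V2 ++ (e :: V3)))) W =
        W4 c e e c (p ++ (U ++ a)) (a' ++ V1) V2 (V3 ++ b) (b' ++ W) := by
      simp [tw, W4]
    have ew' : tw p.reverse (a' ++ (c :: a)) (b' ++ (c :: b)) U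
        (V1 ++ (e :: (V2 ++ (e :: V3)))) W =
        W4 c e e c (p.reverse ++ (U ++ a')) (a ++ V1) V2 (V3 ++ b') (b ++ W) := by
      simp [tw, W4]
    have hf : Fr c e c e e c (p ++ (U ++ a)) (a' ++ V1) V2 (V3 ++ b) (b' ++ W) :=
      ⟨fr (by simp [hcp, hep, cU, eU, ca, ea]), fr (by simp [cV, eV1, ca', ea']),
        fr (by simp [cV, eV2]), fr (by simp [cV, eV3, cb, eb]),
        fr (by simp [cW, eW, cb', eb']), gc, ge, ge, gc⟩
    have hf' : Fr c e c e e c (p.reverse ++ (U ++ a')) (a ++ V1) V2 (V3 ++ b') (b ++ W) :=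
      ⟨fr (by simp [hcp, hep, cU, eU, ca', ea']), fr (by simp [cV, eV1, ca, ea]),
        fr (by simp [cV, eV2]), fr (by simp [cV, eV3, cb', eb']),
        fr (by simp [cW, eW, cb, eb]), gc, ge, ge, gc⟩
    have hρ : evn [c, e, e, c] c = true := by
      simp [evn, ps, List.count_cons, hce, hce.symm]
    cases k
    · exact concl_false ew ew' hf hf' he1 he2 hρ (fun h1 h2 =>
        E5 hxy ha.symm hb ⟨xV.1, xV.2.2.2.2⟩ ⟨yV.1, yV.2.2.2.2⟩ h1 h2) hL
    · exact (wrong2 hg hh hp hp.he ew hf).elim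
  · -- both in the first context
    obtain ⟨U1, U2, U3, rfl, eU1, eU2, eU3⟩ := split_two n1
    have eV := List.count_eq_zero.1 n2
    have eW := List.count_eq_zero.1 n3
    simp only [List.mem_append, List.mem_cons, not_or] at xU yU cU
    have ew : tw p (a ++ (c :: a')) (b ++ (c :: b')) (U1 ++ (e :: (U2 ++ (e :: U3)))) V W =
        W4 e e c c (p ++ U1) U2 (U3 ++ a) (a' ++ (V ++ b)) (b' ++ W) := by
      simp [tw, W4]
    have ew' : tw p.reverse (a' ++ (c :: a)) (b' ++ (c :: b))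
        (U1 ++ (e :: (U2 ++ (e :: U3)))) V W =
        W4 e e c c (p.reverse ++ U1) U2 (U3 ++ a') (a ++ (V ++ b')) (b ++ W) := by
      simp [tw, W4]
    have hf : Fr c e e e c c (p ++ U1) U2 (U3 ++ a) (a' ++ (V ++ b)) (b' ++ W) :=
      ⟨fr (by simp [hcp, hep, cU, eU1]), fr (by simp [cU, eU2]),
        fr (by simp [cU, eU3, ca, ea]), fr (by simp [cV, eV, ca', ea', cb, eb]),
        fr (by simp [cW, eW, cb', eb']), ge, ge, gc, gc⟩
    have hf' : Fr c e e e c c (p.reverse ++ U1) U2 (U3 ++ a') (a ++ (V ++ b')) (b ++ W) :=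
      ⟨fr (by simp [hcp, hep, cU, eU1]), fr (by simp [cU, eU2]),
        fr (by simp [cU, eU3, ca', ea']), fr (by simp [cV, eV, ca, ea, cb', eb']),
        fr (by simp [cW, eW, cb, eb]), ge, ge, gc, gc⟩
    have hρ : evn [e, e, c, c] c = true := by
      simp [evn, ps, List.count_cons, hce, hce.symm]
    cases k
    · exact (wrong1 hg hh hp hp.he ew hf).elim
    · exact concl_true ew ew' hf hf' he1 he2 hρ (fun h1 h2 =>
        E6 hxy hpp ha hb.symm ⟨xW, xU.1, xU.2.2.2.2⟩ ⟨yW, yU.1, yU.2.2.2.2⟩ h1 h2) hL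
  · -- both in the last context
    obtain ⟨W1, W2, W3, rfl, eW1, eW2, eW3⟩ := split_two n3
    have eU := List.count_eq_zero.1 n1
    have eV := List.count_eq_zero.1 n2
    simp only [List.mem_append, List.mem_cons, not_or] at xW yW cW
    have ew : tw p (a ++ (c :: a')) (b ++ (c :: b')) U V (W1 ++ (e :: (W2 ++ (e :: W3)))) =
        W4 c c e e (p ++ (U ++ a)) (a' ++ (V ++ b)) (b' ++ W1) W2 W3 := by
      simp [tw, W4]
    have ew' : tw p.reverse (a' ++ (c :: a)) (b' ++ (c :: b)) U V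
        (W1 ++ (e :: (W2 ++ (e :: W3)))) =
        W4 c c e e (p.reverse ++ (U ++ a')) (a ++ (V ++ b')) (b ++ W1) W2 W3 := by
      simp [tw, W4]
    have hf : Fr c e c c e e (p ++ (U ++ a)) (a' ++ (V ++ b)) (b' ++ W1) W2 W3 :=
      ⟨fr (by simp [hcp, hep, cU, eU, ca, ea]), fr (by simp [cV, eV, ca', ea', cb, eb]),
        fr (by simp [cW, eW1, cb', eb']), fr (by simp [cW, eW2]),
        fr (by simp [cW, eW3]), gc, gc, ge, ge⟩
    have hf' : Fr c e c c e e (p.reverse ++ (U ++ a')) (a ++ (V ++ b')) (b ++ W1) W2 W3 :=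
      ⟨fr (by simp [hcp, hep, cU, eU, ca', ea']), fr (by simp [cV, eV, ca, ea, cb', eb']),
        fr (by simp [cW, eW1, cb, eb]), fr (by simp [cW, eW2]),
        fr (by simp [cW, eW3]), gc, gc, ge, ge⟩
    have hρ : evn [c, c, e, e] c = true := by
      simp [evn, ps, List.count_cons, hce, hce.symm]
    cases k
    · exact (wrong1 hg hh hp hp.hc ew hf).elim
    · exact concl_true ew ew' hf hf' he1 he2 hρ (fun h1 h2 =>
        E7 hxy hpp ha hb.symm ⟨xW.2.2.2.2, xU, xW.1⟩ ⟨yW.2.2.2.2, yU, yW.1⟩ h1 h2) hL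
  · -- first and last context
    obtain ⟨U1, U2, rfl, eU1, eU2⟩ := split_one n1
    obtain ⟨W1, W2, rfl, eW1, eW2⟩ := split_one n3
    have eV := List.count_eq_zero.1 n2
    simp only [List.mem_append, List.mem_cons, not_or] at xU xW yU yW cU cW
    have ew : tw p (a ++ (c :: a')) (b ++ (c :: b')) (U1 ++ (e :: U2)) V (W1 ++ (e :: W2)) =
        W4 e c c e (p ++ U1) (U2 ++ a) (a' ++ (V ++ b)) (b' ++ W1) W2 := by
      simp [tw, W4]
    have ew' : tw p.reverse (a' ++ (c :: a)) (b' ++ (c :: b)) (U1 ++ (e :: U2)) V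
        (W1 ++ (e :: W2)) =
        W4 e c c e (p.reverse ++ U1) (U2 ++ a') (a ++ (V ++ b')) (b ++ W1) W2 := by
      simp [tw, W4]
    have hf : Fr c e e c c e (p ++ U1) (U2 ++ a) (a' ++ (V ++ b)) (b' ++ W1) W2 :=
      ⟨fr (by simp [hcp, hep, cU, eU1]), fr (by simp [cU, eU2, ca, ea]),
        fr (by simp [cV, eV, ca', ea', cb, eb]), fr (by simp [cW, eW1, cb', eb']),
        fr (by simp [cW, eW2]), ge, gc, gc, ge⟩
    have hf' : Fr c e e c c e (p.reverse ++ U1) (U2 ++ a') (a ++ (V ++ b')) (b ++ W1) W2 :=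
      ⟨fr (by simp [hcp, hep, cU, eU1]), fr (by simp [cU, eU2, ca', ea']),
        fr (by simp [cV, eV, ca, ea, cb', eb']), fr (by simp [cW, eW1, cb, eb]),
        fr (by simp [cW, eW2]), ge, gc, gc, ge⟩
    have hρ : evn [e, c, c, e] c = true := by
      simp [evn, ps, List.count_cons, hce, hce.symm]
    cases k
    · exact concl_false ew ew' hf hf' he1 he2 hρ (fun h1 h2 =>
        E8 hxy ha hb.symm ⟨xU.2.2, xW.1⟩ ⟨yU.2.2, yW.1⟩ h1 h2) hL
    · exact (wrong2 hg hh hp hp.hc ew hf).elim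

end Pool.Agent.Run7.h906
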