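import Mathlib
import Pool.Agent.Run7.h906.BlockG

set_option linter.unusedSimpArgs false

namespace Pool.Agent.Run7.h906

/-- the invariant property for a pair of top letters -/
def PL (g c e : ℕ) (w : List ℕ) : Prop := ∃ k, Pair g c e w k ∧ ∃ s, Loop c e w k s

lemma sp_comm (c e x : ℕ) : sp c e x = sp e c x := by
  unfold sp
  exact Bool.or_comm _ _

lemma mk_comm (c e : ℕ) (k : Bool) (w : List ℕ) : mk c e k w = mk e c k w := by
  induction w generalizing k with
  | nil => rfl
  | cons x w ih => simp only [mk, sp_comm c e, ih]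

lemma sf_comm (c e : ℕ) (r : Bool) (h : ℕ → Bool) (k s : Bool) (w : List ℕ) :
    sf c e r h k s w = sf e c r h k s w := by
  induction w generalizing k s with
  | nil => rfl
  | cons x w ih => simp only [sf, sp_comm c e, ih]

lemma jf_comm (c e : ℕ) (r : Bool) (h : ℕ → Bool) (k s : Bool) (w : List ℕ) :
    jf c e r h k s w = jf e c r h k s w := by
  induction w generalizing k s with
  | nil => rfl
  | cons x w ih => simp only [jf, sp_comm c e, ih]

lemma ps_two {c e : ℕ} (hce : c ≠ e) (F : List ℕ) (hF : ∀ x ∈ F, x = c ∨ x = e) :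
    ps c F + ps e F = F.length.choose 2 ∧ F.count c + F.count e = F.length := by
  induction F with
  | nil => simp [ps]
  | cons x F ih =>
    obtain ⟨h1, h2⟩ := ih (fun y hy => hF y (by simp [hy]))
    refine ⟨?_, ?_⟩
    · simp only [ps, List.length_cons]
      rw [Nat.choose_succ_succ, Nat.choose_one_right]
      simp only [Nat.succ_eq_add_one, Nat.reduceAdd]
      rw [← h1]
      omega
    · rcases hF x (by simp) with rfl | rfl
      · rw [List.count_cons_self, List.count_cons_of_ne hce, List.length_cons]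
        omega
      · rw [List.count_cons_self, List.count_cons_of_ne hce.symm, List.length_cons]
        omega

lemma rr_comm {c e : ℕ} {w : List ℕ} (hw : Gauss w) (hce : c ≠ e) (hc : c ∈ w) (he : e ∈ w) :
    rr c e w = rr e c w := by
  unfold rr
  have e1 : w.filter (sp e c) = w.filter (sp c e) := by
    apply List.filter_congr
    intro x _
    exact sp_comm e c x
  rw [e1]
  have hF : ∀ x ∈ w.filter (sp c e), x = c ∨ x = e := by
    intro x hx
    rw [List.mem_filter] at hx
    simpa [sp] using hx.2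
  obtain ⟨h1, h2⟩ := ps_two hce _ hF
  rw [List.count_filter (by simp [sp]), List.count_filter (by simp [sp]), hw c hc,
    hw e he] at h2
  rw [← h2] at h1
  have h3 : Nat.choose (2 + 2) 2 = 6 := by decide
  rw [h3] at h1
  unfold evn
  have : ps c (w.filter (sp c e)) % 2 = ps e (w.filter (sp c e)) % 2 := by omega
  rw [this]

lemma PL_comm {g c e : ℕ} {w : List ℕ} (hw : Gauss w) (h : PL g c e w) : PL g e c w := by
  obtain ⟨k, hp, s, hl⟩ := h
  refine ⟨k, ⟨hp.ne.symm, hp.he, hp.hc, ?_⟩, s, ?_, ?_⟩
  · intro x hx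
    rw [mk_comm] at hx
    exact hp.low x hx
  · rw [sf_comm, mk_comm, ← rr_comm hw hp.ne (iter_sub g w hp.hc) (iter_sub g w hp.he)]
    exact hl.s_eq
  · rw [jf_comm, mk_comm, ← rr_comm hw hp.ne (iter_sub g w hp.hc) (iter_sub g w hp.he)]
    exact hl.j_eq

lemma PL_rot {g c e : ℕ} {u v : List ℕ} (hw : Gauss (u ++ v)) (hb : PL g c e (u ++ v)) :
    PL g c e (v ++ u) := by
  obtain ⟨k, hp, s, hl⟩ := hb
  have hk := hp.kf hw
  rw [kf_append] at hk
  have e1 : mk c e (kf c e k u) (v ++ u) = mk c e (kf c e k u) v ++ mk c e k u := by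
    rw [mk_append, hk]
  have hper : (mk c e (kf c e k u) (v ++ u)).Perm (mk c e k (u ++ v)) := by
    rw [e1, mk_append]
    exact List.perm_append_comm
  have hr : rr c e (v ++ u) = rr c e (u ++ v) := by
    unfold rr
    rw [List.filter_append, List.filter_append]
    apply evn_rot
    rw [← List.filter_append]
    exact (hw.perm List.perm_append_comm).filter _
  obtain ⟨u', v', e2, e3⟩ := iter_rot g hw
  have hmem : ∀ x, x ∈ strip^[g] (v ++ u) ↔ x ∈ strip^[g] (u ++ v) := by
    intro x
    rw [e2, e3]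
    simp only [List.mem_append]
    tauto
  refine ⟨kf c e k u, ⟨hp.ne, (hmem c).2 hp.hc, (hmem e).2 hp.he, ?_⟩,
    sf c e (rr c e (u ++ v)) (hm (mk c e k (u ++ v))) k s u, ?_, ?_⟩
  · intro x hx hx2
    exact hp.low x (hper.mem_iff.1 hx) ((hmem x).1 hx2)
  · rw [hr, hm_perm hper]
    have h1 := hl.s_eq
    rw [sf_append] at h1
    rw [sf_append, hk, h1]
  · rw [hr, hm_perm hper]
    have h1 := hl.s_eq
    have h2 := hl.j_eq
    rw [sf_append] at h1
    rw [jf_append] at h2
    rw [jf_append, hk, h1, Bool.xor_comm]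
    exact h2

lemma PL_ren {g c e : ℕ} {w : List ℕ} (hw : Gauss w) (σ : Equiv.Perm ℕ) (hb : PL g c e w) :
    PL g (σ c) (σ e) (w.map σ) := by
  obtain ⟨k, hp, s, hl⟩ := hb
  have h1 := iter_ren g σ hw
  refine ⟨k, ⟨fun hh => hp.ne (σ.injective hh), ?_, ?_, ?_⟩, s, ?_, ?_⟩
  · rw [h1]
    exact List.mem_map_of_mem hp.hc
  · rw [h1]
    exact List.mem_map_of_mem hp.he
  · intro x hx
    rw [mk_map, List.mem_map] at hx
    obtain ⟨y, hy, rfl⟩ := hx
    rw [h1, List.mem_map]
    rintro ⟨z, hz, e1⟩
    have := σ.injective e1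
    subst this
    exact hp.low _ hy hz
  · rw [rr_map, mk_map, sf_map, hm_map]
    exact hl.s_eq
  · rw [rr_map, mk_map, jf_map, hm_map]
    exact hl.j_eq

lemma PL_two {g c e a b : ℕ} {s U V : List ℕ} (hab : a ≠ b) (hs : s = [a, b] ∨ s = [b, a])
    (hg : Gauss ([a, b] ++ U ++ s ++ V))
    (hst : strip^[g] ([a, b] ++ U ++ s ++ V) = strip^[g] (U ++ V)) :
    PL g c e ([a, b] ++ U ++ s ++ V) ↔ PL g c e (U ++ V) := by
  obtain ⟨aU, bU, aV, bV, hg'⟩ := hg.two hab hs
  have na : a ∉ strip^[g] (U ++ V) := by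
    intro hh
    have := iter_sub g _ hh
    simp [aU, aV] at this
  have nb : b ∉ strip^[g] (U ++ V) := by
    intro hh
    have := iter_sub g _ hh
    simp [bU, bV] at this
  have key : ∀ k, c ∈ strip^[g] (U ++ V) → e ∈ strip^[g] (U ++ V) →
      sp c e a = false ∧ sp c e b = false ∧
      mk c e k ([a, b] ++ U ++ s ++ V) =
        mk c e k [a, b] ++ mk c e k U ++ mk c e (kf c e k U) s ++ mk c e (kf c e k U) V ∧
      mk c e k (U ++ V) = mk c e k U ++ mk c e (kf c e k U) V := by
    intro k hc he
    have h1 : sp c e a = false := by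
      have h2 : a ≠ c := by rintro rfl; exact na hc
      have h3 : a ≠ e := by rintro rfl; exact na he
      simp [sp, h2, h3]
    have h1' : sp c e b = false := by
      have h2 : b ≠ c := by rintro rfl; exact nb hc
      have h3 : b ≠ e := by rintro rfl; exact nb he
      simp [sp, h2, h3]
    have h0 : ([a, b] : List ℕ) = [a, b] ∨ ([a, b] : List ℕ) = [b, a] := Or.inl rfl
    refine ⟨h1, h1', ?_, ?_⟩
    · simp only [mk_append, kf_append, kf_seg (seg_pair h0 h1 h1'), kf_seg (seg_pair hs h1 h1')]
    · simp only [mk_append]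
  constructor
  · rintro ⟨k, hp, t, hl⟩
    have hc := hp.hc
    have he := hp.he
    rw [hst] at hc he
    obtain ⟨h1, h2, h3, h4⟩ := key k hc he
    refine ⟨k, ⟨hp.ne, hc, he, ?_⟩, t, (loop_two hab hs hg h1 h2).1 hl⟩
    intro x hx hx2
    apply hp.low x
    · rw [h3]
      rw [h4] at hx
      simp only [List.mem_append] at hx ⊢
      tauto
    · rw [hst]
      exact hx2
  · rintro ⟨k, hp, t, hl⟩
    have hc := hp.hc
    have he := hp.he
    obtain ⟨h1, h2, h3, h4⟩ := key k hc he
    refine ⟨k, ⟨hp.ne, hst ▸ hc, hst ▸ he, ?_⟩, t, (loop_two hab hs hg h1 h2).2 hl⟩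
    intro x hx hx2
    rw [hst] at hx2
    by_cases hxa : x = a
    · subst hxa; exact na hx2
    by_cases hxb : x = b
    · subst hxb; exact nb hx2
    apply hp.low x _ hx2
    rw [h4]
    rw [h3] at hx
    have hx3 : x ∉ mk c e k [a, b] := by
      intro hh
      have := (mk_sub hh).1
      simp [hxa, hxb] at this
    have hx4 : x ∉ mk c e (kf c e k U) s := by
      intro hh
      have := (mk_sub hh).1
      rcases hs with rfl | rfl <;> simp [hxa, hxb] at this
    simp only [List.mem_append] at hx ⊢
    tauto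

/-! ### third move -/

lemma kf_rev {c e : ℕ} (hce : c ≠ e) (k : Bool) (q : List ℕ) :
    kf c e k q.reverse = kf c e k q := by
  rw [kf_count hce, kf_count hce, List.count_reverse, List.count_reverse]

lemma atMost_of {g x y z : ℕ} {p q r U V W : List ℕ} (htr : Tri x y z p q r)
    (hg : Gauss (tw p q r U V W)) (hh : strip^[g + 1] (tw p q r U V W) = []) :
    strip^[g] (tw p q r U V W) = strip^[g] (tw p.reverse q.reverse r.reverse U V W) ∧
      AtMost x y z (strip^[g] (tw p q r U V W)) := by
  rcases iter_three g htr hg with ⟨U', V', W', h1, h2⟩ | h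
  · exfalso
    have hg' : Gauss (tw p q r U' V' W') := by
      rw [← h1]
      exact hg.iter g
    have h3 := htr.par hg'
    have h4 : strip (tw p q r U' V' W') = [] := by
      rw [← h1, ← Function.iterate_succ_apply' strip g]
      exact hh
    rw [strip_eq hg', List.filter_eq_nil_iff] at h4
    have hp := htr.hp
    have hq := htr.hq
    have m1 : x ∈ tw p q r U' V' W' := by
      unfold tw
      rcases hp with rfl | rfl <;> simp
    have m2 : y ∈ tw p q r U' V' W' := by
      unfold tw
      rcases hp with rfl | rfl <;> simp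
    have m3 : z ∈ tw p q r U' V' W' := by
      unfold tw
      rcases hq with rfl | rfl <;> simp
    have n1 := h4 x m1
    have n2 := h4 y m2
    have n3 := h4 z m3
    unfold evn at n1 n2 n3
    simp only [beq_iff_eq] at n1 n2 n3
    omega
  · exact h

/-- the third move with the letter `z` chosen -/
lemma PL_three_z {g c x y : ℕ} {e : ℕ} {p q r U V W : List ℕ} (htr : Tri x y c p q r)
    (hg : Gauss (tw p q r U V W)) (hh : strip^[g + 1] (tw p q r U V W) = [])
    (hb : PL g c e (tw p q r U V W)) :
    PL g c e (tw p.reverse q.reverse r.reverse U V W) := by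
  obtain ⟨k, hp, hl⟩ := hb
  obtain ⟨hst, am⟩ := atMost_of htr hg hh
  have nx : x ∉ strip^[g] (tw p q r U V W) := fun h => am.2.1 ⟨h, hp.hc⟩
  have ny : y ∉ strip^[g] (tw p q r U V W) := fun h => am.2.2 ⟨h, hp.hc⟩
  have hxe : x ≠ e := by rintro rfl; exact nx hp.he
  have hye : y ≠ e := by rintro rfl; exact ny hp.he
  have hp' : Pair g c e (tw p.reverse q.reverse r.reverse U V W) k := by
    refine ⟨hp.ne, hst ▸ hp.hc, hst ▸ hp.he, ?_⟩
    intro a ha ha2
    rw [← hst] at ha2
    by_cases hax : a = x
    · subst hax; exact nx ha2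
    by_cases hay : a = y
    · subst hay; exact ny ha2
    have hac : a ≠ c := by
      rintro rfl
      have := (mk_sub ha).2
      simp [sp] at this
    apply hp.low a _ ha2
    have f : ∀ (u : List ℕ) (κ : Bool), (u = p.reverse ∨ u = q.reverse ∨ u = r.reverse) →
        a ∉ mk c e κ u := by
      intro u κ hu hm
      have h1 := (mk_sub hm).1
      rcases hu with rfl | rfl | rfl
      · rcases htr.hp with rfl | rfl <;> simp [hax, hay, hac] at h1
      · rcases htr.hq with rfl | rfl <;> simp [hax, hay, hac] at h1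
      · rcases htr.hr with rfl | rfl <;> simp [hax, hay, hac] at h1
    unfold tw at ha ⊢
    simp only [mk_append, kf_append, kf_rev hp.ne, List.mem_append] at ha ⊢
    have f1 := f p.reverse
    have f2 := f q.reverse
    have f3 := f r.reverse
    simp only [true_or, or_true, forall_true_left] at f1 f2 f3
    have g1 := f1 k
    rcases ha with ((((ha | ha) | ha) | ha) | ha) | ha
    · exact absurd ha (f1 _)
    · exact Or.inl (Or.inl (Or.inl (Or.inl (Or.inr ha))))
    · exact absurd ha (f2 _)
    · exact Or.inl (Or.inl (Or.inr ha))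
    · exact absurd ha (f3 _)
    · exact Or.inr ha
  exact ⟨k, hp', sp_three htr hg hh hp hp' hxe hye hl⟩

end Pool.Agent.Run7.h906
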