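import Mathlib
import Pool.Agent.Run7.h906.BlockH

set_option linter.unusedSimpArgs false

namespace Pool.Agent.Run7.h906

/-- third move with one chosen letter, at any place -/
lemma PL_three_c {g c e x y z : ℕ} {p q r U V W : List ℕ} (htr : Tri x y z p q r)
    (hg : Gauss (tw p q r U V W)) (hh : strip^[g + 1] (tw p q r U V W) = [])
    (hc : c = x ∨ c = y ∨ c = z)
    (hb : PL g c e (tw p q r U V W)) :
    PL g c e (tw p.reverse q.reverse r.reverse U V W) := by
  rcases hc with rfl | rfl | rfl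
  · -- rotate the triple
    have htr' : Tri y z c r p q :=
      ⟨htr.hbc, htr.hab.symm, htr.hac.symm, htr.hr, htr.hp.symm, htr.hq.symm⟩
    have e1 : tw p q r U V W = (p ++ U ++ q ++ V) ++ (r ++ W) := by simp [tw]
    have e2 : tw r p q W U V = (r ++ W) ++ (p ++ U ++ q ++ V) := by simp [tw]
    have e3 : tw r.reverse p.reverse q.reverse W U V =
        (r.reverse ++ W) ++ (p.reverse ++ U ++ q.reverse ++ V) := by simp [tw]
    have e4 : tw p.reverse q.reverse r.reverse U V W =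
        (p.reverse ++ U ++ q.reverse ++ V) ++ (r.reverse ++ W) := by simp [tw]
    have hgr : GoodW (g + 1) (tw p q r U V W) := ⟨hg, hh⟩
    rw [e1] at hb hgr
    have hgr' := hgr.rot
    have h1 := PL_rot hgr.1 hb
    rw [← e2] at h1 hgr'
    have h2 := PL_three_z htr' hgr'.1 hgr'.2 h1
    have hg2 : Gauss (tw r.reverse p.reverse q.reverse W U V) :=
      hgr'.1.perm (htr'.perm W U V)
    rw [e3] at h2 hg2
    rw [e4]
    exact PL_rot hg2 h2
  · have htr' : Tri z x c q r p :=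
      ⟨htr.hac.symm, htr.hbc.symm, htr.hab, htr.hq.symm, htr.hr.symm, htr.hp⟩
    have e1 : tw p q r U V W = (p ++ U) ++ (q ++ V ++ r ++ W) := by simp [tw]
    have e2 : tw q r p V W U = (q ++ V ++ r ++ W) ++ (p ++ U) := by simp [tw]
    have e3 : tw q.reverse r.reverse p.reverse V W U =
        (q.reverse ++ V ++ r.reverse ++ W) ++ (p.reverse ++ U) := by simp [tw]
    have e4 : tw p.reverse q.reverse r.reverse U V W =
        (p.reverse ++ U) ++ (q.reverse ++ V ++ r.reverse ++ W) := by simp [tw]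
    have hgr : GoodW (g + 1) (tw p q r U V W) := ⟨hg, hh⟩
    rw [e1] at hb hgr
    have hgr' := hgr.rot
    have h1 := PL_rot hgr.1 hb
    rw [← e2] at h1 hgr'
    have h2 := PL_three_z htr' hgr'.1 hgr'.2 h1
    have hg2 : Gauss (tw q.reverse r.reverse p.reverse V W U) :=
      hgr'.1.perm (htr'.perm V W U)
    rw [e3] at h2 hg2
    rw [e4]
    exact PL_rot hg2 h2
  · exact PL_three_z htr hg hh hb

lemma mk_three_perm {c e x y z : ℕ} {p q r : List ℕ} (U V W : List ℕ) (k : Bool)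
    (htr : Tri x y z p q r)
    (hx : sp c e x = false) (hy : sp c e y = false) (hz : sp c e z = false) :
    (mk c e k (tw p.reverse q.reverse r.reverse U V W)).Perm (mk c e k (tw p q r U V W)) := by
  have sp1 := seg_pair htr.hp hx hy
  have sq1 := seg_pair htr.hq hx hz
  have sr1 := seg_pair htr.hr hy hz
  have sp2 : ∀ a ∈ p.reverse, sp c e a = false := fun a ha => sp1 a (by simpa using ha)
  have sq2 : ∀ a ∈ q.reverse, sp c e a = false := fun a ha => sq1 a (by simpa using ha)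
  have sr2 : ∀ a ∈ r.reverse, sp c e a = false := fun a ha => sr1 a (by simpa using ha)
  have emk : mk c e k (tw p q r U V W) =
      mk c e k p ++ mk c e k U ++ mk c e (kf c e k U) q ++ mk c e (kf c e k U) V ++
        mk c e (kf c e (kf c e k U) V) r ++ mk c e (kf c e (kf c e k U) V) W := by
    simp only [tw, mk_append, kf_append, kf_seg sp1, kf_seg sq1, kf_seg sr1]
  have emk' : mk c e k (tw p.reverse q.reverse r.reverse U V W) =
      mk c e k p.reverse ++ mk c e k U ++ mk c e (kf c e k U) q.reverse ++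
        mk c e (kf c e k U) V ++ mk c e (kf c e (kf c e k U) V) r.reverse ++
        mk c e (kf c e (kf c e k U) V) W := by
    simp only [tw, mk_append, kf_append, kf_seg sp2, kf_seg sq2, kf_seg sr2]
  have hrev : ∀ (k : Bool) (u : List ℕ), (∀ a ∈ u, sp c e a = false) →
      (mk c e k u.reverse).Perm (mk c e k u) := by
    intro k u hu
    rw [mk_seg hu, mk_seg (fun a ha => hu a (by simpa using ha))]
    cases k
    · simp
    · simp only [if_true]
      exact List.reverse_perm u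
  rw [emk, emk']
  exact (((((hrev _ p sp1).append_right _).append (hrev _ q sq1)).append_right _).append
    (hrev _ r sr1)).append_right _

lemma PL_three {g c e x y z : ℕ} {p q r U V W : List ℕ} (htr : Tri x y z p q r)
    (hg : Gauss (tw p q r U V W)) (hh : strip^[g + 1] (tw p q r U V W) = [])
    (hb : PL g c e (tw p q r U V W)) :
    PL g c e (tw p.reverse q.reverse r.reverse U V W) := by
  by_cases hc : c = x ∨ c = y ∨ c = z
  · exact PL_three_c htr hg hh hc hb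
  by_cases he : e = x ∨ e = y ∨ e = z
  · exact PL_comm (hg.perm (htr.perm U V W))
      (PL_three_c htr hg hh he (PL_comm hg hb))
  push Not at hc he
  obtain ⟨hst, _⟩ := atMost_of htr hg hh
  have hx : sp c e x = false := by simp [sp, hc.1.symm, he.1.symm]
  have hy : sp c e y = false := by simp [sp, hc.2.1.symm, he.2.1.symm]
  have hz : sp c e z = false := by simp [sp, hc.2.2.symm, he.2.2.symm]
  obtain ⟨k, hp, s, hl⟩ := hb
  refine ⟨k, ⟨hp.ne, hst ▸ hp.hc, hst ▸ hp.he, ?_⟩, s, loop_three htr hg hx hy hz hl⟩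
  intro a ha
  rw [← hst]
  exact hp.low a ((mk_three_perm U V W k htr hx hy hz).mem_iff.1 ha)

/-! ### normal form -/

lemma w4_exists {c e : ℕ} {w : List ℕ} (hw : Gauss w) (hce : c ≠ e) (hc : c ∈ w) (he : e ∈ w) :
    ∃ t1 t2 t3 t4 S0 S1 S2 S3 S4, w = W4 t1 t2 t3 t4 S0 S1 S2 S3 S4 ∧
      Fr c e t1 t2 t3 t4 S0 S1 S2 S3 S4 ∧
      ((t1 = e ∧ t2 = c ∧ t3 = e ∧ t4 = c) ∨ (t1 = c ∧ t2 = e ∧ t3 = c ∧ t4 = e) ∨
       (t1 = c ∧ t2 = e ∧ t3 = e ∧ t4 = c) ∨ (t1 = e ∧ t2 = e ∧ t3 = c ∧ t4 = c) ∨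
       (t1 = c ∧ t2 = c ∧ t3 = e ∧ t4 = e) ∨ (t1 = e ∧ t2 = c ∧ t3 = c ∧ t4 = e)) := by
  have gc : sp c e c = true := by simp [sp]
  have ge : sp c e e = true := by simp [sp]
  obtain ⟨A, B, C, rfl, cA, cB, cC⟩ := split_two (hw c hc)
  have h1 := hw e he
  simp only [List.count_append, List.count_cons_of_ne hce] at h1
  have hcases : (A.count e = 1 ∧ B.count e = 1 ∧ C.count e = 0) ∨
      (A.count e = 0 ∧ B.count e = 1 ∧ C.count e = 1) ∨
      (A.count e = 0 ∧ B.count e = 2 ∧ C.count e = 0) ∨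
      (A.count e = 2 ∧ B.count e = 0 ∧ C.count e = 0) ∨
      (A.count e = 0 ∧ B.count e = 0 ∧ C.count e = 2) ∨
      (A.count e = 1 ∧ B.count e = 0 ∧ C.count e = 1) := by omega
  rcases hcases with ⟨n1, n2, n3⟩ | ⟨n1, n2, n3⟩ | ⟨n1, n2, n3⟩ | ⟨n1, n2, n3⟩ |
    ⟨n1, n2, n3⟩ | ⟨n1, n2, n3⟩
  · obtain ⟨A1, A2, rfl, eA1, eA2⟩ := split_one n1
    obtain ⟨B1, B2, rfl, eB1, eB2⟩ := split_one n2
    have eC := List.count_eq_zero.1 n3
    simp only [List.mem_append, List.mem_cons, not_or] at cA cB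
    exact ⟨e, c, e, c, A1, A2, B1, B2, C, by simp [W4],
      ⟨fr ⟨cA.1, eA1⟩, fr ⟨cA.2.2, eA2⟩, fr ⟨cB.1, eB1⟩, fr ⟨cB.2.2, eB2⟩, fr ⟨cC, eC⟩,
        ge, gc, ge, gc⟩, by simp⟩
  · obtain ⟨B1, B2, rfl, eB1, eB2⟩ := split_one n2
    obtain ⟨C1, C2, rfl, eC1, eC2⟩ := split_one n3
    have eA := List.count_eq_zero.1 n1
    simp only [List.mem_append, List.mem_cons, not_or] at cC cB
    exact ⟨c, e, c, e, A, B1, B2, C1, C2, by simp [W4],
      ⟨fr ⟨cA, eA⟩, fr ⟨cB.1, eB1⟩, fr ⟨cB.2.2, eB2⟩, fr ⟨cC.1, eC1⟩, fr ⟨cC.2.2, eC2⟩,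
        gc, ge, gc, ge⟩, by simp⟩
  · obtain ⟨B1, B2, B3, rfl, eB1, eB2, eB3⟩ := split_two n2
    have eA := List.count_eq_zero.1 n1
    have eC := List.count_eq_zero.1 n3
    simp only [List.mem_append, List.mem_cons, not_or] at cB
    exact ⟨c, e, e, c, A, B1, B2, B3, C, by simp [W4],
      ⟨fr ⟨cA, eA⟩, fr ⟨cB.1, eB1⟩, fr ⟨cB.2.2.1, eB2⟩, fr ⟨cB.2.2.2.2, eB3⟩, fr ⟨cC, eC⟩,
        gc, ge, ge, gc⟩, by simp⟩
  · obtain ⟨A1, A2, A3, rfl, eA1, eA2, eA3⟩ := split_two n1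
    have eB := List.count_eq_zero.1 n2
    have eC := List.count_eq_zero.1 n3
    simp only [List.mem_append, List.mem_cons, not_or] at cA
    exact ⟨e, e, c, c, A1, A2, A3, B, C, by simp [W4],
      ⟨fr ⟨cA.1, eA1⟩, fr ⟨cA.2.2.1, eA2⟩, fr ⟨cA.2.2.2.2, eA3⟩, fr ⟨cB, eB⟩, fr ⟨cC, eC⟩,
        ge, ge, gc, gc⟩, by simp⟩
  · obtain ⟨C1, C2, C3, rfl, eC1, eC2, eC3⟩ := split_two n3
    have eA := List.count_eq_zero.1 n1
    have eB := List.count_eq_zero.1 n2
    simp only [List.mem_append, List.mem_cons, not_or] at cC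
    exact ⟨c, c, e, e, A, B, C1, C2, C3, by simp [W4],
      ⟨fr ⟨cA, eA⟩, fr ⟨cB, eB⟩, fr ⟨cC.1, eC1⟩, fr ⟨cC.2.2.1, eC2⟩, fr ⟨cC.2.2.2.2, eC3⟩,
        gc, gc, ge, ge⟩, by simp⟩
  · obtain ⟨A1, A2, rfl, eA1, eA2⟩ := split_one n1
    obtain ⟨C1, C2, rfl, eC1, eC2⟩ := split_one n3
    have eB := List.count_eq_zero.1 n2
    simp only [List.mem_append, List.mem_cons, not_or] at cA cC
    exact ⟨e, c, c, e, A1, A2, B, C1, C2, by simp [W4],
      ⟨fr ⟨cA.1, eA1⟩, fr ⟨cA.2.2, eA2⟩, fr ⟨cB, eB⟩, fr ⟨cC.1, eC1⟩, fr ⟨cC.2.2, eC2⟩,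
        ge, gc, gc, ge⟩, by simp⟩

/-- the word read from the first end of a possible bigon -/
def FormT (ρ : Bool) (c e : ℕ) (A B C D : List ℕ) : List ℕ :=
  if ρ = true then W4 c e e c [] A B C D else W4 c e c e [] A B C D

structure FD (g c e : ℕ) (w : List ℕ) (ρ : Bool) (u v A B C D : List ℕ) : Prop where
  ew : w = u ++ v
  ef : v ++ u = FormT ρ c e A B C D
  ne : c ≠ e
  hc : c ∈ strip^[g] w
  he : e ∈ strip^[g] w
  low : ∀ x ∈ A ++ C, x ∉ strip^[g] w
  even : (A ++ C).length.bodd = false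
  val : II (lam ρ A C) = false

def Frm (g c e : ℕ) (w : List ℕ) : Prop := ∃ ρ u v A B C D, FD g c e w ρ u v A B C D

lemma II_lam_comm {ρ : Bool} {A C : List ℕ} (he : (A ++ C).length.bodd = false) :
    II (lam ρ A C) = II (lam ρ C A) := by
  cases ρ
  · have h1 : lam false C A = (lam false A C).reverse := by simp [lam]
    rw [h1, II_rev (lam_even he)]
  · have h1 : lam true A C = A ++ C := by simp [lam]
    have h2 : lam true C A = C ++ A := by simp [lam]
    rw [h1, h2, II_rot he]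

lemma PL_Frm {g c e : ℕ} {w : List ℕ} (hw : Gauss w) (hh : strip^[g + 1] w = [])
    (h : PL g c e w) : Frm g c e w ∨ Frm g e c w := by
  obtain ⟨k, hp, hl⟩ := h
  have hev := mk_even hw hp
  have hce := hp.ne
  obtain ⟨t1, t2, t3, t4, S0, S1, S2, S3, S4, ew, hf, hpat⟩ :=
    w4_exists hw hce (iter_sub g w hp.hc) (iter_sub g w hp.he)
  obtain ⟨m1, m2⟩ := w4_mk hf
  have hrr := w4_rr hf
  cases k
  · -- the first chosen letter opens a marked arc
    have hlow : ∀ x ∈ S1 ++ S3, x ∉ strip^[g] w := by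
      intro x hx
      apply hp.low
      rw [ew, m1]
      exact hx
    have hev1 : (S1 ++ S3).length.bodd = false := by
      rw [← m1, ← ew]
      exact hev
    rw [ew, loop4_false hf hev1, hrr] at hl
    have ee : (t1 :: (S1 ++ (t2 :: (S2 ++ (t3 :: (S3 ++ (t4 :: S4))))))) ++ S0 =
        W4 t1 t2 t3 t4 [] S1 S2 S3 (S4 ++ S0) := by simp [W4]
    rcases hpat with ⟨rfl, rfl, rfl, rfl⟩ | ⟨rfl, rfl, rfl, rfl⟩ | ⟨rfl, rfl, rfl, rfl⟩ |
      ⟨rfl, rfl, rfl, rfl⟩ | ⟨rfl, rfl, rfl, rfl⟩ | ⟨rfl, rfl, rfl, rfl⟩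
    · right
      have hρ : evn [t3, t4, t3, t4] t4 = false := by
        simp [evn, ps, List.count_cons, hce, hce.symm]
      rw [hρ] at hl
      exact ⟨false, S0, _, S1, S2, S3, S4 ++ S0, ew, ee, hce.symm, hp.he, hp.hc, hlow, hev1, hl⟩
    · left
      have hρ : evn [t3, t4, t3, t4] t3 = false := by
        simp [evn, ps, List.count_cons, hce, hce.symm]
      rw [hρ] at hl
      exact ⟨false, S0, _, S1, S2, S3, S4 ++ S0, ew, ee, hce, hp.hc, hp.he, hlow, hev1, hl⟩
    · left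
      have hρ : evn [t4, t3, t3, t4] t4 = true := by
        simp [evn, ps, List.count_cons, hce, hce.symm]
      rw [hρ] at hl
      exact ⟨true, S0, _, S1, S2, S3, S4 ++ S0, ew, ee, hce, hp.hc, hp.he, hlow, hev1, hl⟩
    · exact (wrong1 hw hh hp hp.he ew hf).elim
    · exact (wrong1 hw hh hp hp.hc ew hf).elim
    · right
      have hρ : evn [t4, t3, t3, t4] t3 = true := by
        simp [evn, ps, List.count_cons, hce, hce.symm]
      rw [hρ] at hl
      exact ⟨true, S0, _, S1, S2, S3, S4 ++ S0, ew, ee, hce.symm, hp.he, hp.hc, hlow, hev1, hl⟩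
  · -- the second chosen letter opens a marked arc
    have hlow : ∀ x ∈ S2 ++ (S4 ++ S0), x ∉ strip^[g] w := by
      intro x hx
      apply hp.low
      rw [ew, m2]
      simp only [List.mem_append] at hx ⊢
      tauto
    have hlen : ((S4 ++ S0) ++ S2).length.bodd = false := by
      have h1 : ((S4 ++ S0) ++ S2).length = (S0 ++ (S2 ++ S4)).length := by
        simp only [List.length_append]
        omega
      rw [h1, ← m2, ← ew]
      exact hev
    have hev1 : (S2 ++ (S4 ++ S0)).length.bodd = false := by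
      rw [List.length_append, Nat.add_comm, ← List.length_append]
      exact hlen
    rw [ew, loop4_true hf hlen, hrr, II_lam_comm hlen] at hl
    have e0 : w = (S0 ++ (t1 :: S1)) ++ (t2 :: (S2 ++ (t3 :: (S3 ++ (t4 :: S4))))) := by
      rw [ew]
      simp [W4]
    have ee : (t2 :: (S2 ++ (t3 :: (S3 ++ (t4 :: S4))))) ++ (S0 ++ (t1 :: S1)) =
        W4 t2 t3 t4 t1 [] S2 S3 (S4 ++ S0) S1 := by simp [W4]
    rcases hpat with ⟨rfl, rfl, rfl, rfl⟩ | ⟨rfl, rfl, rfl, rfl⟩ | ⟨rfl, rfl, rfl, rfl⟩ |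
      ⟨rfl, rfl, rfl, rfl⟩ | ⟨rfl, rfl, rfl, rfl⟩ | ⟨rfl, rfl, rfl, rfl⟩
    · left
      have hρ : evn [t3, t4, t3, t4] t4 = false := by
        simp [evn, ps, List.count_cons, hce, hce.symm]
      rw [hρ] at hl
      exact ⟨false, _, _, S2, S3, S4 ++ S0, S1, e0, ee, hce, hp.hc, hp.he, hlow, hev1, hl⟩
    · right
      have hρ : evn [t3, t4, t3, t4] t3 = false := by
        simp [evn, ps, List.count_cons, hce, hce.symm]
      rw [hρ] at hl
      exact ⟨false, _, _, S2, S3, S4 ++ S0, S1, e0, ee, hce.symm, hp.he, hp.hc, hlow, hev1, hl⟩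
    · exact (wrong2 hw hh hp hp.he ew hf).elim
    · right
      have hρ : evn [t2, t2, t4, t4] t4 = true := by
        simp [evn, ps, List.count_cons, hce, hce.symm]
      rw [hρ] at hl
      exact ⟨true, _, _, S2, S3, S4 ++ S0, S1, e0, ee, hce.symm, hp.he, hp.hc, hlow, hev1, hl⟩
    · left
      have hρ : evn [t2, t2, t4, t4] t2 = true := by
        simp [evn, ps, List.count_cons, hce, hce.symm]
      rw [hρ] at hl
      exact ⟨true, _, _, S2, S3, S4 ++ S0, S1, e0, ee, hce, hp.hc, hp.he, hlow, hev1, hl⟩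
    · exact (wrong2 hw hh hp hp.hc ew hf).elim

end Pool.Agent.Run7.h906
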