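import Mathlib
import Pool.Agent.Run7.h906.BlockI
import Pool.Agent.Run7.h906.BlockDefs

set_option linter.unusedSimpArgs false

namespace Pool.Agent.Run7.h906

lemma mem_rot {g : ℕ} {u v : List ℕ} (hw : Gauss (u ++ v)) (x : ℕ) :
    x ∈ strip^[g] (v ++ u) ↔ x ∈ strip^[g] (u ++ v) := by
  obtain ⟨u', v', e2, e3⟩ := iter_rot g hw
  rw [e2, e3]
  simp only [List.mem_append]
  tauto

lemma w4_fr {c e : ℕ} {A B C D : List ℕ} (hce : c ≠ e) (ρ : Bool)
    (hg : Gauss (FormT ρ c e A B C D)) :
    Fr c e c e (if ρ = true then e else c) (if ρ = true then c else e) [] A B C D := by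
  have gc : sp c e c = true := by simp [sp]
  have ge : sp c e e = true := by simp [sp]
  have h1 : A.count c + B.count c + C.count c + D.count c = 0 ∧
      A.count e + B.count e + C.count e + D.count e = 0 := by
    cases ρ
    · simp only [FormT, Bool.false_eq_true, if_false] at hg
      have h2 := hg c (by simp [W4])
      have h3 := hg e (by simp [W4])
      simp only [W4, List.count_append, List.count_cons_self, List.count_cons_of_ne hce,
        List.count_cons_of_ne hce.symm, List.count_nil] at h2 h3
      omega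
    · simp only [FormT, if_true] at hg
      have h2 := hg c (by simp [W4])
      have h3 := hg e (by simp [W4])
      simp only [W4, List.count_append, List.count_cons_self, List.count_cons_of_ne hce,
        List.count_cons_of_ne hce.symm, List.count_nil] at h2 h3
      omega
  obtain ⟨h2, h3⟩ := h1
  refine ⟨by simp, fr ⟨List.count_eq_zero.1 (by omega), List.count_eq_zero.1 (by omega)⟩,
    fr ⟨List.count_eq_zero.1 (by omega), List.count_eq_zero.1 (by omega)⟩,
    fr ⟨List.count_eq_zero.1 (by omega), List.count_eq_zero.1 (by omega)⟩,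
    fr ⟨List.count_eq_zero.1 (by omega), List.count_eq_zero.1 (by omega)⟩, gc, ge, ?_, ?_⟩ <;>
    cases ρ <;> simp [gc, ge]

lemma Frm_PL {g c e : ℕ} {w : List ℕ} (hw : Gauss w) (h : Frm g c e w) : PL g c e w := by
  obtain ⟨ρ, u, v, A, B, C, D, hd⟩ := h
  obtain ⟨ew, ef, ne, hc, he, low, even, val⟩ := hd
  subst ew
  have hg' : Gauss (v ++ u) := hw.perm List.perm_append_comm
  apply PL_rot hg'
  have hf := w4_fr ne ρ (ef ▸ hg')
  have hform : v ++ u = W4 c e (if ρ = true then e else c) (if ρ = true then c else e)
      [] A B C D := by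
    rw [ef]
    cases ρ <;> simp [FormT]
  have hρ : rr c e (v ++ u) = ρ := by
    rw [hform, w4_rr hf]
    cases ρ <;> simp [evn, ps, List.count_cons, ne, ne.symm]
  refine ⟨false, ⟨ne, (mem_rot hw c).2 hc, (mem_rot hw e).2 he, ?_⟩, ?_⟩
  · intro x hx hx2
    rw [hform, (w4_mk hf).1] at hx
    exact low x hx ((mem_rot hw x).1 hx2)
  · have h1 := loop4_false hf even
    rw [← hform, hρ] at h1
    exact h1.2 val

lemma isRot_split {w w' : List ℕ} (h : w ~r w') : ∃ u v, w = u ++ v ∧ v ++ u = w' := by
  obtain ⟨n, hn, rfl⟩ := List.isRotated_iff_mod.1 h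
  refine ⟨w.take n, w.drop n, (List.take_append_drop n w).symm, ?_⟩
  rw [List.rotate_eq_drop_append_take hn]

lemma Frm_rev {g c e : ℕ} {w : List ℕ} (hw : Gauss w) (h : Frm g c e w) :
    Frm g c e w.reverse ∨ Frm g e c w.reverse := by
  obtain ⟨ρ, u, v, A, B, C, D, hd⟩ := h
  obtain ⟨ew, ef, ne, hc, he, low, even, val⟩ := hd
  have hmem : ∀ x, x ∈ strip^[g] w.reverse ↔ x ∈ strip^[g] w := by
    intro x
    rw [iter_rev g hw, List.mem_reverse]
  have hev : (C.reverse ++ A.reverse).length.bodd = false := by
    rw [← List.reverse_append, List.length_reverse]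
    exact even
  have hlow : ∀ x ∈ C.reverse ++ A.reverse, x ∉ strip^[g] w.reverse := by
    intro x hx
    rw [hmem]
    apply low
    simp only [List.mem_append, List.mem_reverse] at hx ⊢
    tauto
  have hrot : w ~r (v ++ u) := by
    rw [ew]
    exact List.isRotated_append
  have hrot2 : w.reverse ~r (v ++ u).reverse := hrot.reverse
  cases ρ
  · right
    have hr : (v ++ u).reverse = D.reverse ++
        (e :: (C.reverse ++ (c :: (B.reverse ++ (e :: (A.reverse ++ [c])))))) := by
      rw [ef]
      simp [FormT, W4]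
    rw [hr] at hrot2
    obtain ⟨u', v', e1, e2⟩ := isRot_split (hrot2.trans List.isRotated_append)
    refine ⟨false, u', v', C.reverse, B.reverse, A.reverse, D.reverse, e1, ?_, ne.symm,
      (hmem e).2 he, (hmem c).2 hc, hlow, hev, ?_⟩
    · rw [e2]
      simp [FormT, W4]
    · have h1 : lam false C.reverse A.reverse = C ++ A.reverse := by simp [lam]
      have h2 : lam false A C = A.reverse ++ C := by simp [lam]
      rw [h1, II_rot (by
        rw [List.length_append, List.length_reverse, Nat.add_comm, ← List.length_append]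
        exact even), ← h2]
      exact val
  · left
    have hr : (v ++ u).reverse = D.reverse ++
        (c :: (C.reverse ++ (e :: (B.reverse ++ (e :: (A.reverse ++ [c])))))) := by
      rw [ef]
      simp [FormT, W4]
    rw [hr] at hrot2
    obtain ⟨u', v', e1, e2⟩ := isRot_split (hrot2.trans List.isRotated_append)
    refine ⟨true, u', v', C.reverse, B.reverse, A.reverse, D.reverse, e1, ?_, ne,
      (hmem c).2 hc, (hmem e).2 he, hlow, hev, ?_⟩
    · rw [e2]
      simp [FormT, W4]
    · have h1 : lam true C.reverse A.reverse = (A ++ C).reverse := by simp [lam]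
      have h2 : lam true A C = A ++ C := by simp [lam]
      rw [h1, II_rev even, ← h2]
      exact val

lemma PL_rev {g c e : ℕ} {w : List ℕ} (hw : Gauss w) (hh : strip^[g + 1] w = [])
    (h : PL g c e w) : PL g c e w.reverse := by
  have hw' : Gauss w.reverse := hw.perm (List.reverse_perm w).symm
  have key : ∀ c e, Frm g c e w → PL g c e w.reverse := by
    intro c e hF
    rcases Frm_rev hw hF with h1 | h1
    · exact Frm_PL hw' h1
    · exact PL_comm hw' (Frm_PL hw' h1)
  rcases PL_Frm hw hh h with h1 | h1
  · exact key c e h1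
  · exact PL_comm hw' (key e c h1)

/-- some pair of top letters has the property -/
def Open (g : ℕ) (w : List ℕ) : Prop := ∃ c e, PL g c e w

lemma open_step {g : ℕ} {w w' : List ℕ} (hs : TStep g w w') : Open g w ↔ Open g w' := by
  obtain ⟨⟨hg, hg', h1, h2, hm⟩, hlen⟩ := hs
  have htwo : ∀ (a b : ℕ) (s U V : List ℕ), a ≠ b → (s = [a, b] ∨ s = [b, a]) →
      Gauss ([a, b] ++ U ++ s ++ V) →
      (strip^[g] ([a, b] ++ U ++ s ++ V)).length = (strip^[g] (U ++ V)).length →
      (Open g ([a, b] ++ U ++ s ++ V) ↔ Open g (U ++ V)) := by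
    intro a b s U V hab hs hg hlen
    have hst : strip^[g] ([a, b] ++ U ++ s ++ V) = strip^[g] (U ++ V) := by
      obtain ⟨U', V', e1, e2⟩ := iter_two g hab hs hg
      rcases e2 with e2 | e2
      · exfalso
        rw [e1, e2] at hlen
        simp only [List.length_append, List.length_cons, List.length_nil] at hlen
        omega
      · rw [e1, e2]
    constructor
    · rintro ⟨c, e, h⟩
      exact ⟨c, e, (PL_two hab hs hg hst).1 h⟩
    · rintro ⟨c, e, h⟩
      exact ⟨c, e, (PL_two hab hs hg hst).2 h⟩
  cases hm with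
  | rot U V =>
    constructor
    · rintro ⟨c, e, h⟩; exact ⟨c, e, PL_rot hg h⟩
    · rintro ⟨c, e, h⟩; exact ⟨c, e, PL_rot hg' h⟩
  | rev =>
    constructor
    · rintro ⟨c, e, h⟩; exact ⟨c, e, PL_rev hg h1 h⟩
    · rintro ⟨c, e, h⟩
      have := PL_rev hg' h2 h
      rw [List.reverse_reverse] at this
      exact ⟨c, e, this⟩
  | ren σ =>
    constructor
    · rintro ⟨c, e, h⟩; exact ⟨_, _, PL_ren hg σ h⟩
    · rintro ⟨c, e, h⟩
      have := PL_ren hg' σ.symm h
      have e1 : (w.map σ).map σ.symm = w := by
        rw [List.map_map]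
        conv_rhs => rw [← List.map_id w]
        apply List.map_congr_left
        intro a _
        simp
      rw [e1] at this
      exact ⟨_, _, this⟩
  | anti a b U V hab => exact htwo a b [b, a] U V hab (Or.inr rfl) hg hlen
  | par a b U V hab => exact htwo a b [a, b] U V hab (Or.inl rfl) hg hlen
  | three a b c p q r U V W hab hac hbc hp hq hr =>
    have htr : Tri a b c p q r := ⟨hab, hac, hbc, hp, hq, hr⟩
    constructor
    · rintro ⟨c', e, h⟩
      exact ⟨c', e, PL_three (U := U) (V := V) (W := W) htr hg h1 h⟩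
    · rintro ⟨c', e, h⟩
      have h3 := PL_three (U := U) (V := V) (W := W) htr.reverse hg' h2 h
      rw [List.reverse_reverse, List.reverse_reverse, List.reverse_reverse] at h3
      exact ⟨c', e, h3⟩

lemma open_TEq {g : ℕ} {w w' : List ℕ} (h : TEq g w w') : Open g w ↔ Open g w' := by
  induction h with
  | rel x y hxy => exact open_step hxy
  | refl x => exact Iff.rfl
  | symm x y _ ih => exact ih.symm
  | trans x y z _ _ ih1 ih2 => exact ih1.trans ih2

lemma open_of_bigon {g : ℕ} {w : List ℕ} (hw : Gauss w) (h : TopBigon g w) : Open g w := by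
  obtain ⟨a, b, s, U, V, hab, hs, rfl, ha⟩ := h
  obtain ⟨aU, bU, aV, bV, _⟩ := hw.two hab hs
  have hb : b ∈ strip^[g] ([a, b] ++ U ++ s ++ V) := by
    obtain ⟨U', V', e1, e2⟩ := iter_two g hab hs hw
    rcases e2 with e2 | e2
    · rw [e2]; simp
    · exfalso
      rw [e2, ← e1] at ha
      have := iter_sub g _ ha
      simp [aU, aV] at this
  refine ⟨a, b, Frm_PL hw ?_⟩
  rcases hs with rfl | rfl
  · exact ⟨false, [], _, [], U, [], V, rfl, by simp [FormT, W4], hab, ha, hb, by simp, rfl, rfl⟩
  · exact ⟨true, [], _, [], U, [], V, rfl, by simp [FormT, W4], hab, ha, hb, by simp, rfl, rfl⟩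

lemma cross_II {L : List ℕ} (hL : ∀ x ∈ L, L.count x ≤ 2) : II L = (cross L).bodd := by
  unfold II cross
  have key : ∀ u : List ℕ, (∀ x ∈ u, x ∈ L) → nn (hm L) u = (crossAux L u).bodd := by
    intro u
    induction u with
    | nil => intro _; simp [nn, crossAux]
    | cons x u ih =>
      intro hu
      have hmx : ∀ y ∈ L, hm L y = decide (L.count y = 1) := by
        intro y hy
        have h1 := hL y hy
        have h2 : 0 < L.count y := List.count_pos_iff.2 hy
        unfold hm
        have h3 : L.count y = 1 ∨ L.count y = 2 := by omega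
        rcases h3 with h3 | h3 <;> simp [h3]
      have e1 : u.filter (fun y => decide (L.count y ≠ 1)) = u.filter (fun y => !hm L y) := by
        apply List.filter_congr
        intro y hy
        rw [hmx y (hu y (by simp [hy]))]
        by_cases h : L.count y = 1 <;> simp [h]
      simp only [nn, crossAux, Nat.bodd_add]
      rw [ih (fun y hy => hu y (by simp [hy])), hmx x (hu x (by simp)), gg_filter, e1]
      congr 1
      by_cases h : L.count x = 1 <;> simp [h]
  exact key L (fun x hx => hx)

lemma not_blocked {g : ℕ} {w : List ℕ} (hw : Gauss w) (hh : strip^[g + 1] w = [])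
    (h : Open g w) : ¬ Blocked g w := by
  intro hB
  obtain ⟨c, e, h⟩ := h
  have key : ∀ c e, ¬ Frm g c e w := by
    rintro c e ⟨ρ, u, v, A, B, C, D, ew, ef, ne, hc, he, low, _, val⟩
    have hg' : Gauss (v ++ u) := by
      rw [ew] at hw
      exact hw.perm List.perm_append_comm
    have hcnt : ∀ x, (A ++ C).count x ≤ 2 := by
      intro x
      have h1 := hg'.count_le x
      have h2 : (A ++ C).count x ≤ (v ++ u).count x := by
        rw [ef]
        cases ρ <;> simp only [FormT, W4, if_true, Bool.false_eq_true, if_false,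
          List.count_append, List.count_cons, List.count_nil] <;> omega
      omega
    obtain ⟨h1, h2⟩ := hB u v A B C D c e ew ne hc he low
    have odd_bodd : ∀ n : ℕ, Odd n → n.bodd = true := by
      intro n hn
      exact bodd_of_mod (Nat.odd_iff.1 hn)
    cases ρ
    · have h3 := h1 (by rw [ef]; simp [FormT, W4])
      have h4 := cross_II (L := A.reverse ++ C) (by
        intro x _
        have := hcnt x
        simpa using this)
      have h5 : lam false A C = A.reverse ++ C := by simp [lam]
      rw [h5, h4, odd_bodd _ h3] at val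
      exact absurd val (by decide)
    · have h3 := h2 (by rw [ef]; simp [FormT, W4])
      have h4 := cross_II (L := A ++ C) (fun x _ => hcnt x)
      have h5 : lam true A C = A ++ C := by simp [lam]
      rw [h5, h4, odd_bodd _ h3] at val
      exact absurd val (by decide)
  rcases PL_Frm hw hh h with h1 | h1
  · exact key _ _ h1
  · exact key _ _ h1

/-- a blocked word never acquires a bigon of top chords -/
theorem blocked_no_bigon {g : ℕ} {w : List ℕ} (hw : Gauss w) (hh : strip^[g + 1] w = [])
    (hB : Blocked g w) {v : List ℕ} (hv : TEq g w v) : ¬ TopBigon g v := by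
  intro hT
  have hgv : GoodW (g + 1) v := (HEq_good (TEq_HEq hv)).1 ⟨hw, hh⟩
  exact not_blocked hw hh ((open_TEq hv).2 (open_of_bigon hgv.1 hT)) hB

end Pool.Agent.Run7.h906
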