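import Mathlib
import Pool.Agent.Run7.h906.BlockJ

set_option linter.unusedSimpArgs false

namespace Pool.Agent.Run7.h906

lemma TEq_free {g : ℕ} {a b : List ℕ} (h : TEq g a b) : FreeEq a b := HEq_free (TEq_HEq h)

/-- all conclusions for a blocked word -/
theorem blocked_general {g : ℕ} {w : List ℕ} (hw : Gauss w) (hh : strip^[g + 1] w = [])
    (hB : Blocked g w) :
    (∀ v, TEq g w v → ¬ TopBigon g v) ∧
    (∀ w', FreeEq w w' →
      (strip^[g] w).length + (strip^[g + 1] w').length ≤ (strip^[g] w').length ∧
      ((strip^[g] w).length + (strip^[g + 1] w').length = (strip^[g] w').length →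
        ∃ v, TEq g w v ∧ v.Perm (w'.filter (fun a => decide (a ∉ strip^[g + 1] w')))) ∧
      (strip^[g + 1] w' = [] → (strip^[g] w).length = (strip^[g] w').length → TEq g w w')) ∧
    (∀ w', Gauss w' → strip^[g + 1] w' = [] → Blocked g w' → (FreeEq w w' ↔ TEq g w w')) := by
  have h1 : ∀ v, TEq g w v → ¬ TopBigon g v := fun v hv => blocked_no_bigon hw hh hB hv
  refine ⟨h1, fun w' heq => top_general hw hh h1 heq, ?_⟩
  intro w' hw' hh' hB'
  constructor
  · intro heq
    have h2 : ∀ v, TEq g w' v → ¬ TopBigon g v := fun v hv => blocked_no_bigon hw' hh' hB' hv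
    have h3 := top_general hw hh h1 heq
    have h4 := top_general hw' hh' h2 (Relation.EqvGen.symm _ _ heq)
    apply h3.2.2 hh'
    have e1 := h3.1
    have e2 := h4.1
    rw [hh'] at e1
    rw [hh] at e2
    simp only [List.length_nil] at e1 e2
    omega
  · exact TEq_free

end Pool.Agent.Run7.h906
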