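import Mathlib
import Pool.Agent.Run7.h906.BlockK

set_option linter.unusedSimpArgs false

namespace Pool.Agent.Run7.h906

/-- the test for one rotation and one pair of letters -/
def chk1 (S : List ℕ) (c e : ℕ) (R : List ℕ) : Bool :=
  let A := R.takeWhile (fun x => decide (x ≠ e))
  let R1 := (R.dropWhile (fun x => decide (x ≠ e))).tail
  let R2 := R1.dropWhile (fun x => decide (x ≠ c ∧ x ≠ e))
  match R2 with
  | [] => true
  | t :: R3 =>
    let C := R3.takeWhile (fun x => decide (x ≠ (if t = c then e else c)))
    (A ++ C).any (fun x => decide (x ∈ S)) ||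
      decide (cross ((if t = c then A.reverse else A) ++ C) % 2 = 1)

def chkB (g : ℕ) (w : List ℕ) : Bool :=
  let S := strip^[g] w
  (List.range (w.length + 1)).all fun i =>
    match w.drop i ++ w.take i with
    | [] => true
    | c :: R => decide (c ∉ S) || S.all fun e => decide (e = c) || chk1 S c e R

lemma takeWhile_split {p : ℕ → Bool} {A R : List ℕ} {t : ℕ} (hA : ∀ x ∈ A, p x = true)
    (ht : p t = false) :
    (A ++ (t :: R)).takeWhile p = A ∧ (A ++ (t :: R)).dropWhile p = t :: R := by
  constructor
  · rw [List.takeWhile_append_of_pos hA, List.takeWhile_cons_of_neg (by simp [ht])]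
    simp
  · rw [List.dropWhile_append_of_pos hA, List.dropWhile_cons_of_neg (by simp [ht])]

lemma blocked_of_chk {g : ℕ} {w : List ℕ} (hw : Gauss w) (h : chkB g w = true) :
    Blocked g w := by
  intro u v A B C D c e ew hce hc he hlow
  have hg' : Gauss (v ++ u) := by
    rw [ew] at hw
    exact hw.perm List.perm_append_comm
  unfold chkB at h
  rw [List.all_eq_true] at h
  have hi := h u.length (by
    rw [List.mem_range, ew, List.length_append]
    omega)
  have e1 : w.drop u.length ++ w.take u.length = v ++ u := by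
    rw [ew, List.drop_left, List.take_left]
  rw [e1] at hi
  clear h
  have key : ∀ (R : List ℕ), v ++ u = c :: R → chk1 (strip^[g] w) c e R = true := by
    intro R hR
    rw [hR] at hi
    simp only [Bool.or_eq_true, decide_eq_true_eq, List.all_eq_true] at hi
    rcases hi with hi | hi
    · exact absurd hc hi
    · rcases hi e he with hi | hi
      · exact absurd hi.symm hce
      · exact hi
  constructor
  · intro hf
    have hR : v ++ u = c :: (A ++ (e :: (B ++ (c :: (C ++ (e :: D)))))) := by
      rw [hf]; simp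
    have h1 := key _ hR
    have hfr := w4_fr (A := A) (B := B) (C := C) (D := D) hce false (by
      have : FormT false c e A B C D = v ++ u := by rw [hR]; simp [FormT, W4]
      rw [this]
      exact hg')
    have fA : ∀ x ∈ A, x ≠ c ∧ x ≠ e := by
      intro x hx
      have := hfr.h1 x hx
      simpa [sp] using this
    have fB : ∀ x ∈ B, x ≠ c ∧ x ≠ e := by
      intro x hx
      have := hfr.h2 x hx
      simpa [sp] using this
    have fC : ∀ x ∈ C, x ≠ c ∧ x ≠ e := by
      intro x hx
      have := hfr.h3 x hx
      simpa [sp] using this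
    obtain ⟨t1, t2⟩ := takeWhile_split (p := fun x => decide (x ≠ e)) (A := A) (t := e)
      (R := B ++ (c :: (C ++ (e :: D)))) (fun x hx => by simpa using (fA x hx).2) (by simp)
    obtain ⟨_, t4⟩ := takeWhile_split (p := fun x => decide (x ≠ c ∧ x ≠ e)) (A := B) (t := c)
      (R := C ++ (e :: D)) (fun x hx => by simpa using fB x hx) (by simp)
    obtain ⟨t5, _⟩ := takeWhile_split (p := fun x => decide (x ≠ e)) (A := C) (t := e)
      (R := D) (fun x hx => by simpa using (fC x hx).2) (by simp)
    unfold chk1 at h1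
    simp only [t1, t2, List.tail_cons, t4, if_true, t5, Bool.or_eq_true, List.any_eq_true,
      decide_eq_true_eq] at h1
    rcases h1 with ⟨x, hx, hx2⟩ | h1
    · exact absurd hx2 (hlow x hx)
    · exact Nat.odd_iff.2 h1
  · intro hf
    have hR : v ++ u = c :: (A ++ (e :: (B ++ (e :: (C ++ (c :: D)))))) := by
      rw [hf]; simp
    have h1 := key _ hR
    have hfr := w4_fr (A := A) (B := B) (C := C) (D := D) hce true (by
      have : FormT true c e A B C D = v ++ u := by rw [hR]; simp [FormT, W4]
      rw [this]
      exact hg')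
    have fA : ∀ x ∈ A, x ≠ c ∧ x ≠ e := by
      intro x hx
      have := hfr.h1 x hx
      simpa [sp] using this
    have fB : ∀ x ∈ B, x ≠ c ∧ x ≠ e := by
      intro x hx
      have := hfr.h2 x hx
      simpa [sp] using this
    have fC : ∀ x ∈ C, x ≠ c ∧ x ≠ e := by
      intro x hx
      have := hfr.h3 x hx
      simpa [sp] using this
    obtain ⟨t1, t2⟩ := takeWhile_split (p := fun x => decide (x ≠ e)) (A := A) (t := e)
      (R := B ++ (e :: (C ++ (c :: D)))) (fun x hx => by simpa using (fA x hx).2) (by simp)
    obtain ⟨_, t4⟩ := takeWhile_split (p := fun x => decide (x ≠ c ∧ x ≠ e)) (A := B) (t := e)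
      (R := C ++ (c :: D)) (fun x hx => by simpa using fB x hx) (by simp)
    obtain ⟨t5, _⟩ := takeWhile_split (p := fun x => decide (x ≠ c)) (A := C) (t := c)
      (R := D) (fun x hx => by simpa using (fC x hx).1) (by simp)
    unfold chk1 at h1
    simp only [t1, t2, List.tail_cons, t4, hce.symm, if_false, t5, Bool.or_eq_true,
      List.any_eq_true, decide_eq_true_eq] at h1
    rcases h1 with ⟨x, hx, hx2⟩ | h1
    · exact absurd hx2 (hlow x hx)
    · exact Nat.odd_iff.2 h1

/-- an example with six chords -/
theorem example_blocked : Gauss [0, 1, 0, 2, 3, 4, 2, 1, 3, 5, 4, 5] ∧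
    strip^[2] [0, 1, 0, 2, 3, 4, 2, 1, 3, 5, 4, 5] = [] ∧
    strip^[1] [0, 1, 0, 2, 3, 4, 2, 1, 3, 5, 4, 5] = [2, 4, 2, 4] ∧
    Blocked 1 [0, 1, 0, 2, 3, 4, 2, 1, 3, 5, 4, 5] := by
  have hg : Gauss [0, 1, 0, 2, 3, 4, 2, 1, 3, 5, 4, 5] := by
    unfold Gauss
    decide
  exact ⟨hg, by decide +kernel, by decide +kernel, blocked_of_chk hg (by decide +kernel)⟩

end Pool.Agent.Run7.h906
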