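import Mathlib
import Pool.Agent.Run7.h906.TopDefs
import Pool.Agent.Run7.h906.BlockDefs
import Pool.Agent.Run7.h906.SmooDefs

/-!
Finite certificates for lower bounds on the number of letters.
-/

namespace Pool.Agent.Run7.h906

/-- A finite certificate that every word of the free knot of `w` has at least `m` letters:
either `m = 0`, or `w` has height at most `g + 1` and passes the test `Blocked g`, some of its
top letters are smoothed by the operations `os`, and the result has a certificate for `n`, where
`m = n + |w| - |acts os w|`. -/
inductive Cert : List ℕ → ℕ → Prop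
  | zero (w : List ℕ) : Cert w 0
  | step (g : ℕ) (w : List ℕ) (os : List (ℕ × ℕ)) (n m : ℕ) (hw : Gauss w)
      (hh : strip^[g + 1] w = []) (hB : Blocked g w)
      (hos : ∀ o ∈ os, o.1 ∈ strip^[g] w ∧ o.2 ∈ strip^[g] w)
      (hn : Cert (acts os w) n) (hm : m + (acts os w).length = n + w.length) : Cert w m

end Pool.Agent.Run7.h906
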