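import Mathlib
import Pool.Agent.Run7.h906.BlockJ
import Pool.Agent.Run7.h906.LinkDefs

set_option linter.unusedSimpArgs false

namespace Pool.Agent.Run7.h906

/-- the final mark -/
def fm (c : ℕ) : Bool → List ℕ → Bool
  | k, [] => k
  | k, y :: w => fm c (xor k (Nat.beq y c)) w

lemma fm_append (c : ℕ) (k : Bool) (u v : List ℕ) : fm c k (u ++ v) = fm c (fm c k u) v := by
  induction u generalizing k with
  | nil => rfl
  | cons y u ih => simp only [List.cons_append, fm, ih]

lemma MM_append (c x : ℕ) (k : Bool) (u v : List ℕ) :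
    MM c x k (u ++ v) = xor (MM c x k u) (MM c x (fm c k u) v) := by
  induction u generalizing k with
  | nil => simp [MM, fm]
  | cons y u ih => simp only [List.cons_append, MM, fm, ih, Bool.xor_assoc]

lemma DD_append (c e x : ℕ) (k l : Bool) (u v : List ℕ) :
    DD c e x k l (u ++ v) = xor (DD c e x k l u) (DD c e x (fm c k u) (fm e l u) v) := by
  induction u generalizing k l with
  | nil => simp [DD, fm]
  | cons y u ih => simp only [List.cons_append, DD, fm, ih, Bool.xor_assoc]

lemma beq_ne {a b : ℕ} (h : a ≠ b) : Nat.beq a b = false := by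
  rcases hb : Nat.beq a b with _ | _
  · rfl
  · exact absurd (Nat.eq_of_beq_eq_true hb) h

lemma beq_self (a : ℕ) : Nat.beq a a = true := Nat.beq_refl a

lemma MM_zero {c x : ℕ} {u : List ℕ} (h : x ∉ u) (k : Bool) : MM c x k u = false := by
  induction u generalizing k with
  | nil => rfl
  | cons y u ih =>
    simp only [List.mem_cons, not_or] at h
    simp only [MM, beq_ne (Ne.symm h.1), ih h.2, Bool.false_and, Bool.xor_false]

lemma DD_zero {c e x : ℕ} {u : List ℕ} (h : x ∉ u) (k l : Bool) : DD c e x k l u = false := by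
  induction u generalizing k l with
  | nil => rfl
  | cons y u ih =>
    simp only [List.mem_cons, not_or] at h
    simp only [DD, beq_ne (Ne.symm h.1), ih h.2, Bool.false_and, Bool.xor_false]

lemma fm_count (c : ℕ) (k : Bool) (u : List ℕ) : fm c k u = xor k (u.count c).bodd := by
  induction u generalizing k with
  | nil => simp [fm]
  | cons y u ih =>
    simp only [fm, ih]
    by_cases h : y = c
    · subst h
      rw [beq_self, List.count_cons_self, Nat.bodd_succ]
      cases k <;> cases (u.count y).bodd <;> rfl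
    · rw [beq_ne h, List.count_cons_of_ne h]
      simp

lemma fm_even {c : ℕ} {u : List ℕ} (h : (u.count c).bodd = false) (k : Bool) :
    fm c k u = k := by
  rw [fm_count, h, Bool.xor_false]

lemma fm_zero {c : ℕ} {u : List ℕ} (h : c ∉ u) (k : Bool) : fm c k u = k := by
  apply fm_even
  rw [List.count_eq_zero.2 h]
  rfl

lemma Gauss.bodd {w : List ℕ} (h : Gauss w) (c : ℕ) : (w.count c).bodd = false := by
  rcases h.count_le c with e | e <;> rw [e] <;> rfl

/-! ### rotation -/

lemma ff_rot {c e x : ℕ} {u v : List ℕ} (hw : Gauss (u ++ v)) (k l : Bool) :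
    ff c e x (fm c k u) (fm e l u) (v ++ u) = ff c e x k l (u ++ v) := by
  have h1 : fm c (fm c k u) v = k := by
    rw [← fm_append]
    exact fm_even (hw.bodd c) k
  have h2 : fm e (fm e l u) v = l := by
    rw [← fm_append]
    exact fm_even (hw.bodd e) l
  unfold ff
  simp only [MM_append, DD_append, h1, h2]
  generalize MM c x k u = a1
  generalize MM c x (fm c k u) v = a2
  generalize MM e x l u = a3
  generalize MM e x (fm e l u) v = a4
  generalize DD c e x k l u = a5
  generalize DD c e x (fm c k u) (fm e l u) v = a6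
  revert a1 a2 a3 a4 a5 a6
  decide

/-! ### reversal -/

lemma fm_rev (c : ℕ) (k : Bool) (u : List ℕ) : fm c k u.reverse = fm c k u := by
  rw [fm_count, fm_count, List.count_reverse]

lemma MM_rev {c x : ℕ} (hx : x ≠ c) (k : Bool) (u : List ℕ) :
    MM c x (fm c k u) u.reverse = MM c x k u := by
  induction u generalizing k with
  | nil => rfl
  | cons y u ih =>
    rw [List.reverse_cons, MM_append]
    have e1 : fm c k (y :: u) = fm c (xor k (Nat.beq y c)) u := rfl
    rw [e1, ih, fm_rev, ← fm_append]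
    have e2 : fm c (xor k (Nat.beq y c)) (u ++ u) = xor k (Nat.beq y c) := by
      apply fm_even
      rw [List.count_append, Nat.bodd_add, Bool.xor_self]
    rw [e2]
    simp only [MM, Bool.xor_false]
    by_cases h : y = x
    · subst h
      rw [beq_self, beq_ne hx]
      simp only [Bool.true_and, Bool.xor_false]
      rw [Bool.xor_comm]
    · rw [beq_ne h]
      simp

lemma DD_rev {c e x : ℕ} (hx : x ≠ c) (hx' : x ≠ e) (k l : Bool) (u : List ℕ) :
    DD c e x (fm c k u) (fm e l u) u.reverse = DD c e x k l u := by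
  induction u generalizing k l with
  | nil => rfl
  | cons y u ih =>
    rw [List.reverse_cons, DD_append]
    have e1 : fm c k (y :: u) = fm c (xor k (Nat.beq y c)) u := rfl
    have e1' : fm e l (y :: u) = fm e (xor l (Nat.beq y e)) u := rfl
    rw [e1, e1', ih, fm_rev, fm_rev, ← fm_append, ← fm_append]
    have e2 : fm c (xor k (Nat.beq y c)) (u ++ u) = xor k (Nat.beq y c) := by
      apply fm_even
      rw [List.count_append, Nat.bodd_add, Bool.xor_self]
    have e2' : fm e (xor l (Nat.beq y e)) (u ++ u) = xor l (Nat.beq y e) := by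
      apply fm_even
      rw [List.count_append, Nat.bodd_add, Bool.xor_self]
    rw [e2, e2']
    simp only [DD, Bool.xor_false]
    by_cases h : y = x
    · subst h
      rw [beq_self, beq_ne hx, beq_ne hx']
      simp only [Bool.true_and, Bool.xor_false]
      rw [Bool.xor_comm]
    · rw [beq_ne h]
      simp

lemma ff_rev {c e x : ℕ} (hx : x ≠ c) (hx' : x ≠ e) {w : List ℕ} (hw : Gauss w)
    (k l : Bool) : ff c e x k l w.reverse = ff c e x k l w := by
  have h1 := MM_rev hx k w
  have h2 := MM_rev hx' l w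
  have h3 := DD_rev hx hx' k l w
  rw [fm_even (hw.bodd c)] at h1 h3
  rw [fm_even (hw.bodd e)] at h2 h3
  unfold ff
  rw [h1, h2, h3]

/-! ### renaming -/

lemma beq_map (σ : Equiv.Perm ℕ) (x y : ℕ) : Nat.beq (σ x) (σ y) = Nat.beq x y := by
  by_cases h : x = y
  · subst h; rw [beq_self, beq_self]
  · rw [beq_ne h, beq_ne (fun hh => h (σ.injective hh))]

lemma ff_map (σ : Equiv.Perm ℕ) (c e x : ℕ) (k l : Bool) (w : List ℕ) :
    ff (σ c) (σ e) (σ x) k l (w.map σ) = ff c e x k l w := by
  have h1 : ∀ (c : ℕ) (k : Bool) (w : List ℕ), MM (σ c) (σ x) k (w.map σ) = MM c x k w := by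
    intro c k w
    induction w generalizing k with
    | nil => rfl
    | cons y w ih => simp only [List.map_cons, MM, beq_map, ih]
  have h2 : ∀ (k l : Bool) (w : List ℕ), DD (σ c) (σ e) (σ x) k l (w.map σ) =
      DD c e x k l w := by
    intro k l w
    induction w generalizing k l with
    | nil => rfl
    | cons y w ih => simp only [List.map_cons, DD, beq_map, ih]
  unfold ff
  rw [h1, h1, h2]

/-! ### second move -/

lemma pair_M {c a b : ℕ} {s : List ℕ} (hab : a ≠ b) (hs : s = [a, b] ∨ s = [b, a])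
    (ha : a ≠ c) (hb : b ≠ c) (k : Bool) :
    MM c a k s = k ∧ MM c b k s = k ∧ fm c k s = k := by
  rcases hs with rfl | rfl <;>
    simp [MM, fm, beq_self, beq_ne ha, beq_ne hb, beq_ne hab, beq_ne hab.symm]

lemma pair_D {c e a b : ℕ} {s : List ℕ} (hab : a ≠ b) (hs : s = [a, b] ∨ s = [b, a])
    (ha : a ≠ c) (hb : b ≠ c) (ha' : a ≠ e) (hb' : b ≠ e) (k l : Bool) :
    DD c e a k l s = (k && l) ∧ DD c e b k l s = (k && l) := by
  rcases hs with rfl | rfl <;>
    simp [DD, beq_self, beq_ne ha, beq_ne hb, beq_ne ha', beq_ne hb', beq_ne hab,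
      beq_ne hab.symm]

lemma nmem_pair {a b x : ℕ} {s : List ℕ} (hs : s = [a, b] ∨ s = [b, a]) (hxa : x ≠ a)
    (hxb : x ≠ b) : x ∉ s := by
  rcases hs with rfl | rfl <;> simp [hxa, hxb]

lemma ff_two {c e a b : ℕ} {s U V : List ℕ} (hab : a ≠ b) (hs : s = [a, b] ∨ s = [b, a])
    (hg : Gauss ([a, b] ++ U ++ s ++ V)) (ha : a ≠ c) (hb : b ≠ c) (ha' : a ≠ e)
    (hb' : b ≠ e) (k l : Bool) :
    ff c e a k l ([a, b] ++ U ++ s ++ V) = ff c e b k l ([a, b] ++ U ++ s ++ V) ∧
    ∀ x, x ≠ a → x ≠ b →
      ff c e x k l ([a, b] ++ U ++ s ++ V) = ff c e x k l (U ++ V) := by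
  obtain ⟨aU, bU, aV, bV, _⟩ := hg.two hab hs
  have h0 : ([a, b] : List ℕ) = [a, b] ∨ ([a, b] : List ℕ) = [b, a] := Or.inl rfl
  constructor
  · unfold ff
    simp only [MM_append, DD_append, fm_append, (pair_M hab h0 ha hb _).1,
      (pair_M hab h0 ha hb _).2.1, (pair_M hab h0 ha hb _).2.2, (pair_M hab h0 ha' hb' _).1,
      (pair_M hab h0 ha' hb' _).2.1, (pair_M hab h0 ha' hb' _).2.2,
      (pair_M hab hs ha hb _).1,
      (pair_M hab hs ha hb _).2.1, (pair_M hab hs ha hb _).2.2, (pair_M hab hs ha' hb' _).1,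
      (pair_M hab hs ha' hb' _).2.1, (pair_M hab hs ha' hb' _).2.2,
      (pair_D hab h0 ha hb ha' hb' _ _).1, (pair_D hab h0 ha hb ha' hb' _ _).2,
      (pair_D hab hs ha hb ha' hb' _ _).1, (pair_D hab hs ha hb ha' hb' _ _).2,
      MM_zero aU, MM_zero bU, MM_zero aV, MM_zero bV, DD_zero aU, DD_zero bU, DD_zero aV,
      DD_zero bV]
  · intro x hxa hxb
    unfold ff
    simp only [MM_append, DD_append, fm_append, (pair_M hab h0 ha hb _).2.2,
      (pair_M hab h0 ha' hb' _).2.2, (pair_M hab hs ha hb _).2.2,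
      (pair_M hab hs ha' hb' _).2.2, MM_zero (nmem_pair h0 hxa hxb),
      MM_zero (nmem_pair hs hxa hxb), DD_zero (nmem_pair h0 hxa hxb),
      DD_zero (nmem_pair hs hxa hxb), Bool.false_xor, Bool.xor_false]

/-! ### third move -/

/-- no letter of the triangle is chosen -/
lemma ff_three_plain {c e x y z : ℕ} {p q r U V W : List ℕ} (htr : Tri x y z p q r)
    (hc : c ≠ x ∧ c ≠ y ∧ c ≠ z) (he : e ≠ x ∧ e ≠ y ∧ e ≠ z) (v : ℕ) (k l : Bool) :
    ff c e v k l (tw p.reverse q.reverse r.reverse U V W) = ff c e v k l (tw p q r U V W) := by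
  have kM : ∀ (d : ℕ) (s : List ℕ) (a b : ℕ), (s = [a, b] ∨ s = [b, a]) →
      a ≠ d → b ≠ d → ∀ k, MM d v k s.reverse = MM d v k s := by
    intro d s a b hs h1 h2 k
    rcases hs with rfl | rfl <;>
      simp only [List.reverse_cons, List.reverse_nil, List.nil_append, List.cons_append, MM,
        beq_ne h1, beq_ne h2, Bool.xor_false] <;>
      rw [Bool.xor_comm]
  have kD : ∀ (s : List ℕ) (a b : ℕ), (s = [a, b] ∨ s = [b, a]) →
      a ≠ c → b ≠ c → a ≠ e → b ≠ e → ∀ k l, DD c e v k l s.reverse = DD c e v k l s := by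
    intro s a b hs h1 h2 h3 h4 k l
    rcases hs with rfl | rfl <;>
      simp only [List.reverse_cons, List.reverse_nil, List.nil_append, List.cons_append, DD,
        beq_ne h1, beq_ne h2, beq_ne h3, beq_ne h4, Bool.xor_false] <;>
      rw [Bool.xor_comm]
  have m1 := kM c p x y htr.hp hc.1.symm hc.2.1.symm
  have m2 := kM e p x y htr.hp he.1.symm he.2.1.symm
  have m3 := kM c q x z htr.hq hc.1.symm hc.2.2.symm
  have m4 := kM e q x z htr.hq he.1.symm he.2.2.symm
  have m5 := kM c r y z htr.hr hc.2.1.symm hc.2.2.symm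
  have m6 := kM e r y z htr.hr he.2.1.symm he.2.2.symm
  have d1 := kD p x y htr.hp hc.1.symm hc.2.1.symm he.1.symm he.2.1.symm
  have d2 := kD q x z htr.hq hc.1.symm hc.2.2.symm he.1.symm he.2.2.symm
  have d3 := kD r y z htr.hr hc.2.1.symm hc.2.2.symm he.2.1.symm he.2.2.symm
  unfold ff tw
  simp only [MM_append, DD_append, fm_append, fm_rev, m1, m2, m3, m4, m5, m6, d1, d2, d3]

/-- the letter `z` of the triangle may be chosen -/
lemma ff_three_z {c e x y z : ℕ} {p q r U V W : List ℕ} (htr : Tri x y z p q r)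
    (hg : Gauss (tw p q r U V W))
    (hc : c ≠ x ∧ c ≠ y) (he : e ≠ x ∧ e ≠ y) (k l : Bool) :
    xor (ff c e x k l (tw p.reverse q.reverse r.reverse U V W)) (ff c e x k l (tw p q r U V W)) =
      xor (ff c e y k l (tw p.reverse q.reverse r.reverse U V W))
        (ff c e y k l (tw p q r U V W)) ∧
    ∀ v, v ≠ x → v ≠ y → v ≠ z →
      ff c e v k l (tw p.reverse q.reverse r.reverse U V W) = ff c e v k l (tw p q r U V W) := by
  obtain ⟨xU, xV, xW⟩ := htr.fresh hg x (by simp)
  obtain ⟨yU, yV, yW⟩ := htr.fresh hg y (by simp)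
  constructor
  · have nx : x ∉ r := by
      rcases htr.hr with rfl | rfl <;> simp [htr.hab, htr.hac]
    have ny : y ∉ q := by
      rcases htr.hq with rfl | rfl <;> simp [htr.hab.symm, htr.hbc]
    have nx' : x ∉ r.reverse := by simpa using nx
    have ny' : y ∉ q.reverse := by simpa using ny
    -- marks on the three pairs
    have fp : ∀ (d : ℕ), d ≠ x → d ≠ y → ∀ k, fm d k p = k := by
      intro d h1 h2 k
      exact (pair_M htr.hab htr.hp h1.symm h2.symm k).2.2
    have Mp : ∀ (d : ℕ), d ≠ x → d ≠ y → ∀ k, MM d x k p = k ∧ MM d y k p = k := by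
      intro d h1 h2 k
      exact ⟨(pair_M htr.hab htr.hp h1.symm h2.symm k).1,
        (pair_M htr.hab htr.hp h1.symm h2.symm k).2.1⟩
    have hp' : p.reverse = [x, y] ∨ p.reverse = [y, x] := by
      rcases htr.hp with rfl | rfl <;> simp
    have Mp' : ∀ (d : ℕ), d ≠ x → d ≠ y → ∀ k, MM d x k p.reverse = k ∧
        MM d y k p.reverse = k := by
      intro d h1 h2 k
      exact ⟨(pair_M htr.hab hp' h1.symm h2.symm k).1,
        (pair_M htr.hab hp' h1.symm h2.symm k).2.1⟩
    have Dp := fun k l => pair_D htr.hab htr.hp hc.1.symm hc.2.symm he.1.symm he.2.symm k l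
    have Dp' := fun k l => pair_D htr.hab hp' hc.1.symm hc.2.symm he.1.symm he.2.symm k l
    have fq : ∀ (d : ℕ), d ≠ x → ∀ k, fm d k q = xor k (Nat.beq z d) := by
      intro d h1 k
      rcases htr.hq with rfl | rfl <;> simp [fm, beq_ne h1.symm]
    have fr' : ∀ (d : ℕ), d ≠ y → ∀ k, fm d k r = xor k (Nat.beq z d) := by
      intro d h1 k
      rcases htr.hr with rfl | rfl <;> simp [fm, beq_ne h1.symm]
    -- values at `q` and `r`
    have Mq : ∃ i : Bool, ∀ (d : ℕ), d ≠ x → ∀ k,
        MM d x k q = xor k (i && Nat.beq z d) ∧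
        MM d x k q.reverse = xor k (!i && Nat.beq z d) := by
      rcases htr.hq with rfl | rfl
      · refine ⟨false, ?_⟩
        intro d h1 k
        simp [MM, beq_self, beq_ne htr.hac.symm, beq_ne h1.symm]
      · refine ⟨true, ?_⟩
        intro d h1 k
        simp [MM, beq_self, beq_ne htr.hac.symm, beq_ne h1.symm]
    have Mr : ∃ i : Bool, ∀ (d : ℕ), d ≠ y → ∀ k,
        MM d y k r = xor k (i && Nat.beq z d) ∧
        MM d y k r.reverse = xor k (!i && Nat.beq z d) := by
      rcases htr.hr with rfl | rfl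
      · refine ⟨false, ?_⟩
        intro d h1 k
        simp [MM, beq_self, beq_ne htr.hbc.symm, beq_ne h1.symm]
      · refine ⟨true, ?_⟩
        intro d h1 k
        simp [MM, beq_self, beq_ne htr.hbc.symm, beq_ne h1.symm]
    have Dq : ∀ k l, DD c e x k l q = (MM c x k q && MM e x l q) ∧
        DD c e x k l q.reverse = (MM c x k q.reverse && MM e x l q.reverse) := by
      intro k l
      rcases htr.hq with rfl | rfl <;>
        simp [MM, DD, beq_self, beq_ne htr.hac.symm, beq_ne hc.1.symm, beq_ne he.1.symm]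
    have Dr : ∀ k l, DD c e y k l r = (MM c y k r && MM e y l r) ∧
        DD c e y k l r.reverse = (MM c y k r.reverse && MM e y l r.reverse) := by
      intro k l
      rcases htr.hr with rfl | rfl <;>
        simp [MM, DD, beq_self, beq_ne htr.hbc.symm, beq_ne hc.2.symm, beq_ne he.2.symm]
    obtain ⟨i, Mq⟩ := Mq
    obtain ⟨j, Mr⟩ := Mr
    have fpc := fp c hc.1 hc.2
    have fpe := fp e he.1 he.2
    have fqc := fq c hc.1
    have fqe := fq e he.1
    have a1 := fun k => (Mp c hc.1 hc.2 k).1
    have a2 := fun k => (Mp c hc.1 hc.2 k).2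
    have a3 := fun k => (Mp e he.1 he.2 k).1
    have a4 := fun k => (Mp e he.1 he.2 k).2
    have a1' := fun k => (Mp' c hc.1 hc.2 k).1
    have a2' := fun k => (Mp' c hc.1 hc.2 k).2
    have a3' := fun k => (Mp' e he.1 he.2 k).1
    have a4' := fun k => (Mp' e he.1 he.2 k).2
    have d1 := fun k l => (Dp k l).1
    have d2 := fun k l => (Dp k l).2
    have d1' := fun k l => (Dp' k l).1
    have d2' := fun k l => (Dp' k l).2
    have b1 := fun k => (Mq c hc.1 k).1
    have b2 := fun k => (Mq e he.1 k).1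
    have b1' := fun k => (Mq c hc.1 k).2
    have b2' := fun k => (Mq e he.1 k).2
    have g1 := fun k => (Mr c hc.2 k).1
    have g2 := fun k => (Mr e he.2 k).1
    have g1' := fun k => (Mr c hc.2 k).2
    have g2' := fun k => (Mr e he.2 k).2
    have dq := fun k l => (Dq k l).1
    have dq' := fun k l => (Dq k l).2
    have dr := fun k l => (Dr k l).1
    have dr' := fun k l => (Dr k l).2
    unfold ff tw
    simp only [MM_append, DD_append, fm_append, fm_rev, fpc, fpe, fqc, fqe, MM_zero xU,
      MM_zero xV, MM_zero xW, MM_zero yU, MM_zero yV, MM_zero yW, DD_zero xU, DD_zero xV,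
      DD_zero xW, DD_zero yU, DD_zero yV, DD_zero yW, MM_zero nx, MM_zero ny, MM_zero nx',
      MM_zero ny', DD_zero nx, DD_zero ny, DD_zero nx', DD_zero ny', a1, a2, a3, a4, a1', a2',
      a3', a4', d1, d2, d1', d2', dq, dq', dr, dr', b1, b2, b1', b2', g1, g2, g1', g2',
      Bool.xor_false, Bool.false_xor]
    generalize Nat.beq z c = α
    generalize Nat.beq z e = β
    generalize fm c k U = k1
    generalize fm e l U = l1
    generalize fm c (xor k1 α) V = k2
    generalize fm e (xor l1 β) V = l2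
    clear fpc fpe fqc fqe a1 a2 a3 a4 a1' a2' a3' a4' d1 d2 d1' d2' dq dq' dr dr' b1 b2 b1' b2'
      g1 g2 g1' g2' Mq Mr Dq Dr Dp Dp' Mp Mp' fp fq fr'
    cases i <;> cases j <;> cases α <;> cases β <;> cases k <;> cases l <;> cases k1 <;>
      cases l1 <;> cases k2 <;> cases l2 <;> rfl
  · intro v hvx hvy hvz
    have np := nmem_pair htr.hp hvx hvy
    have nq := nmem_pair htr.hq hvx hvz
    have nr := nmem_pair htr.hr hvy hvz
    have np' : v ∉ p.reverse := by simpa using np
    have nq' : v ∉ q.reverse := by simpa using nq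
    have nr' : v ∉ r.reverse := by simpa using nr
    unfold ff tw
    simp only [MM_append, DD_append, fm_append, fm_rev, MM_zero np, MM_zero nq, MM_zero nr,
      MM_zero np', MM_zero nq', MM_zero nr', DD_zero np, DD_zero nq, DD_zero nr, DD_zero np',
      DD_zero nq', DD_zero nr', Bool.xor_false, Bool.false_xor]

end Pool.Agent.Run7.h906
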