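import Mathlib
import Pool.Agent.Run7.h906.LinkA

set_option linter.unusedSimpArgs false

namespace Pool.Agent.Run7.h906

lemma bz_xor (a b : Bool) : bz (xor a b) = bz a + bz b := by
  cases a <;> cases b <;> decide

lemma bz_add_self (a : ZMod 2) : a + a = 0 := CharTwo.add_self_eq_zero a

lemma low_ne {g x c : ℕ} {w : List ℕ} (hx : x ∈ w.toFinset \ (strip^[g] w).toFinset)
    (hc : c ∈ strip^[g] w) : x ≠ c := by
  rintro rfl
  rw [Finset.mem_sdiff, List.mem_toFinset, List.mem_toFinset] at hx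
  exact hx.2 hc

lemma BF_rot {g c e : ℕ} {u v : List ℕ} (hw : Gauss (u ++ v)) (k l : Bool) :
    BF g c e (fm c k u) (fm e l u) (v ++ u) = BF g c e k l (u ++ v) := by
  unfold BF
  have hs : (v ++ u).toFinset \ (strip^[g] (v ++ u)).toFinset =
      (u ++ v).toFinset \ (strip^[g] (u ++ v)).toFinset := by
    ext x
    simp only [Finset.mem_sdiff, List.mem_toFinset, List.mem_append, mem_rot hw]
    tauto
  rw [hs]
  apply Finset.sum_congr rfl
  intro x _
  rw [ff_rot hw]

lemma BF_rev {g c e : ℕ} {w : List ℕ} (hw : Gauss w) (hc : c ∈ strip^[g] w)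
    (he : e ∈ strip^[g] w) (k l : Bool) : BF g c e k l w.reverse = BF g c e k l w := by
  unfold BF
  have hs : w.reverse.toFinset \ (strip^[g] w.reverse).toFinset =
      w.toFinset \ (strip^[g] w).toFinset := by
    rw [iter_rev g hw]
    ext x
    simp
  rw [hs]
  apply Finset.sum_congr rfl
  intro x hx
  rw [ff_rev (low_ne hx hc) (low_ne hx he) hw]

lemma BF_ren {g c e : ℕ} {w : List ℕ} (hw : Gauss w) (σ : Equiv.Perm ℕ) (k l : Bool) :
    BF g (σ c) (σ e) k l (w.map σ) = BF g c e k l w := by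
  unfold BF
  have hs : (w.map σ).toFinset \ (strip^[g] (w.map σ)).toFinset =
      (w.toFinset \ (strip^[g] w).toFinset).image σ := by
    rw [iter_ren g σ hw]
    ext x
    simp only [Finset.mem_sdiff, List.mem_toFinset, List.mem_map, Finset.mem_image]
    constructor
    · rintro ⟨⟨y, hy, rfl⟩, h2⟩
      exact ⟨y, ⟨hy, fun hh => h2 ⟨y, hh, rfl⟩⟩, rfl⟩
    · rintro ⟨y, ⟨hy, h2⟩, rfl⟩
      refine ⟨⟨y, hy, rfl⟩, ?_⟩
      rintro ⟨z, hz, hz2⟩
      rw [σ.injective hz2] at hz
      exact h2 hz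
  rw [hs, Finset.sum_image (fun a _ b _ h => σ.injective h)]
  apply Finset.sum_congr rfl
  intro x _
  rw [ff_map]

lemma BF_two {g c e a b : ℕ} {s U V : List ℕ} (hab : a ≠ b) (hs : s = [a, b] ∨ s = [b, a])
    (hg : Gauss ([a, b] ++ U ++ s ++ V))
    (hst : strip^[g] ([a, b] ++ U ++ s ++ V) = strip^[g] (U ++ V))
    (hc : c ∈ strip^[g] (U ++ V)) (he : e ∈ strip^[g] (U ++ V)) (k l : Bool) :
    BF g c e k l ([a, b] ++ U ++ s ++ V) = BF g c e k l (U ++ V) := by
  obtain ⟨aU, bU, aV, bV, hg'⟩ := hg.two hab hs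
  have na : a ∉ strip^[g] (U ++ V) := by
    intro hh
    have := iter_sub g _ hh
    simp [aU, aV] at this
  have nb : b ∉ strip^[g] (U ++ V) := by
    intro hh
    have := iter_sub g _ hh
    simp [bU, bV] at this
  have hac : a ≠ c := by rintro rfl; exact na hc
  have hae : a ≠ e := by rintro rfl; exact na he
  have hbc : b ≠ c := by rintro rfl; exact nb hc
  have hbe : b ≠ e := by rintro rfl; exact nb he
  obtain ⟨h1, h2⟩ := ff_two hab hs hg hac hbc hae hbe k l
  unfold BF
  rw [hst]
  have hset : ([a, b] ++ U ++ s ++ V).toFinset \ (strip^[g] (U ++ V)).toFinset =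
      insert a (insert b ((U ++ V).toFinset \ (strip^[g] (U ++ V)).toFinset)) := by
    ext x
    simp only [Finset.mem_sdiff, List.mem_toFinset, List.mem_append, Finset.mem_insert,
      List.mem_cons, List.not_mem_nil, or_false]
    have hxs : x ∈ s ↔ x = a ∨ x = b := by
      rcases hs with rfl | rfl <;> simp [or_comm]
    rw [hxs]
    constructor
    · rintro ⟨h3, h4⟩
      tauto
    · rintro (rfl | rfl | ⟨h3, h4⟩)
      · exact ⟨by tauto, na⟩
      · exact ⟨by tauto, nb⟩
      · exact ⟨by tauto, h4⟩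
  rw [hset, Finset.sum_insert, Finset.sum_insert, h1, ← add_assoc, bz_add_self, zero_add]
  · apply Finset.sum_congr rfl
    intro x hx
    rw [Finset.mem_sdiff, List.mem_toFinset, List.mem_append] at hx
    rw [h2 x]
    · rintro rfl
      rcases hx.1 with h | h
      · exact aU h
      · exact aV h
    · rintro rfl
      rcases hx.1 with h | h
      · exact bU h
      · exact bV h
  · simp [bU, bV]
  · simp [aU, aV, hab]

lemma BF_three_z {g c e x y z : ℕ} {p q r U V W : List ℕ} (htr : Tri x y z p q r)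
    (hg : Gauss (tw p q r U V W)) (hh : strip^[g + 1] (tw p q r U V W) = [])
    (hc : c ∈ strip^[g] (tw p q r U V W)) (he : e ∈ strip^[g] (tw p q r U V W))
    (hx : x ∉ strip^[g] (tw p q r U V W)) (hy : y ∉ strip^[g] (tw p q r U V W))
    (hz : z ∈ strip^[g] (tw p q r U V W)) (k l : Bool) :
    BF g c e k l (tw p.reverse q.reverse r.reverse U V W) = BF g c e k l (tw p q r U V W) := by
  obtain ⟨hst, _⟩ := atMost_of htr hg hh
  have hcx : c ≠ x := by rintro rfl; exact hx hc
  have hcy : c ≠ y := by rintro rfl; exact hy hc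
  have hex : e ≠ x := by rintro rfl; exact hx he
  have hey : e ≠ y := by rintro rfl; exact hy he
  obtain ⟨h1, h2⟩ := ff_three_z htr hg ⟨hcx, hcy⟩ ⟨hex, hey⟩ k l
  unfold BF
  have hset : (tw p.reverse q.reverse r.reverse U V W).toFinset \
      (strip^[g] (tw p.reverse q.reverse r.reverse U V W)).toFinset =
      (tw p q r U V W).toFinset \ (strip^[g] (tw p q r U V W)).toFinset := by
    rw [← hst]
    congr 1
    ext v
    simp only [List.mem_toFinset]
    exact (htr.perm U V W).mem_iff.symm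
  rw [hset]
  have hm : ∀ v, v = x ∨ v = y → v ∈ tw p q r U V W := by
    intro v hv
    unfold tw
    rcases htr.hp with rfl | rfl <;> rcases hv with rfl | rfl <;> simp
  have key : ∑ v ∈ (tw p q r U V W).toFinset \ (strip^[g] (tw p q r U V W)).toFinset,
      (bz (ff c e v k l (tw p.reverse q.reverse r.reverse U V W)) +
        bz (ff c e v k l (tw p q r U V W))) = 0 := by
    have hsub : ({x, y} : Finset ℕ) ⊆
        (tw p q r U V W).toFinset \ (strip^[g] (tw p q r U V W)).toFinset := by
      intro v hv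
      rw [Finset.mem_insert, Finset.mem_singleton] at hv
      rw [Finset.mem_sdiff, List.mem_toFinset, List.mem_toFinset]
      refine ⟨hm v hv, ?_⟩
      rcases hv with rfl | rfl <;> assumption
    rw [← Finset.sum_subset hsub]
    · rw [Finset.sum_pair htr.hab, ← bz_xor, ← bz_xor, h1, bz_add_self]
    · intro v hv hv2
      rw [Finset.mem_insert, Finset.mem_singleton, not_or] at hv2
      have hvz : v ≠ z := low_ne hv hz
      rw [h2 v hv2.1 hv2.2 hvz, bz_add_self]
  rw [Finset.sum_add_distrib] at key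
  rw [← sub_eq_zero, sub_eq_add_neg, CharTwo.neg_eq]
  exact key

lemma BF_three {g c e x y z : ℕ} {p q r U V W : List ℕ} (htr : Tri x y z p q r)
    (hg : Gauss (tw p q r U V W)) (hh : strip^[g + 1] (tw p q r U V W) = [])
    (hc : c ∈ strip^[g] (tw p q r U V W)) (he : e ∈ strip^[g] (tw p q r U V W))
    (k l : Bool) :
    BF g c e k l (tw p.reverse q.reverse r.reverse U V W) = BF g c e k l (tw p q r U V W) := by
  obtain ⟨hst, am⟩ := atMost_of htr hg hh
  have hgr : GoodW (g + 1) (tw p q r U V W) := ⟨hg, hh⟩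
  by_cases hz : z ∈ strip^[g] (tw p q r U V W)
  · exact BF_three_z htr hg hh hc he (fun h => am.2.1 ⟨h, hz⟩) (fun h => am.2.2 ⟨h, hz⟩) hz k l
  by_cases hx : x ∈ strip^[g] (tw p q r U V W)
  · have htr' : Tri y z x r p q :=
      ⟨htr.hbc, htr.hab.symm, htr.hac.symm, htr.hr, htr.hp.symm, htr.hq.symm⟩
    have e1 : tw p q r U V W = (p ++ U ++ q ++ V) ++ (r ++ W) := by simp [tw]
    have e2 : tw r p q W U V = (r ++ W) ++ (p ++ U ++ q ++ V) := by simp [tw]
    have e3 : tw r.reverse p.reverse q.reverse W U V =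
        (r.reverse ++ W) ++ (p.reverse ++ U ++ q.reverse ++ V) := by simp [tw]
    have e4 : tw p.reverse q.reverse r.reverse U V W =
        (p.reverse ++ U ++ q.reverse ++ V) ++ (r.reverse ++ W) := by simp [tw]
    have hgr1 : GoodW (g + 1) ((p ++ U ++ q ++ V) ++ (r ++ W)) := by rw [← e1]; exact hgr
    have hgr' := hgr1.rot
    have hm : ∀ v, v ∈ strip^[g] (tw r p q W U V) ↔ v ∈ strip^[g] (tw p q r U V W) := by
      intro v
      rw [e1, e2]
      exact mem_rot hgr1.1 v
    have hg2 : Gauss (tw p.reverse q.reverse r.reverse U V W) := hg.perm (htr.perm U V W)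
    rw [← e2] at hgr'
    have b1 := BF_rot (g := g) (c := c) (e := e) hgr1.1 k l
    rw [e4] at hg2
    have b2 := BF_rot (g := g) (c := c) (e := e) hg2 k l
    rw [← e1, ← e2] at b1
    rw [← e3, ← e4] at b2
    have f1 : ∀ d k, fm d k (p.reverse ++ U ++ q.reverse ++ V) = fm d k (p ++ U ++ q ++ V) := by
      intro d k
      simp only [fm_append, fm_rev]
    rw [f1, f1] at b2
    rw [← b1, ← b2]
    exact BF_three_z htr' hgr'.1 hgr'.2 ((hm c).2 hc) ((hm e).2 he)
      (fun h => am.1 ⟨hx, (hm y).1 h⟩) (fun h => hz ((hm z).1 h)) ((hm x).2 hx) _ _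
  by_cases hy : y ∈ strip^[g] (tw p q r U V W)
  · have htr' : Tri z x y q r p :=
      ⟨htr.hac.symm, htr.hbc.symm, htr.hab, htr.hq.symm, htr.hr.symm, htr.hp⟩
    have e1 : tw p q r U V W = (p ++ U) ++ (q ++ V ++ r ++ W) := by simp [tw]
    have e2 : tw q r p V W U = (q ++ V ++ r ++ W) ++ (p ++ U) := by simp [tw]
    have e3 : tw q.reverse r.reverse p.reverse V W U =
        (q.reverse ++ V ++ r.reverse ++ W) ++ (p.reverse ++ U) := by simp [tw]
    have e4 : tw p.reverse q.reverse r.reverse U V W =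
        (p.reverse ++ U) ++ (q.reverse ++ V ++ r.reverse ++ W) := by simp [tw]
    have hgr1 : GoodW (g + 1) ((p ++ U) ++ (q ++ V ++ r ++ W)) := by rw [← e1]; exact hgr
    have hgr' := hgr1.rot
    have hm : ∀ v, v ∈ strip^[g] (tw q r p V W U) ↔ v ∈ strip^[g] (tw p q r U V W) := by
      intro v
      rw [e1, e2]
      exact mem_rot hgr1.1 v
    have hg2 : Gauss (tw p.reverse q.reverse r.reverse U V W) := hg.perm (htr.perm U V W)
    rw [← e2] at hgr'
    have b1 := BF_rot (g := g) (c := c) (e := e) hgr1.1 k l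
    rw [e4] at hg2
    have b2 := BF_rot (g := g) (c := c) (e := e) hg2 k l
    rw [← e1, ← e2] at b1
    rw [← e3, ← e4] at b2
    have f1 : ∀ d k, fm d k (p.reverse ++ U) = fm d k (p ++ U) := by
      intro d k
      simp only [fm_append, fm_rev]
    rw [f1, f1] at b2
    rw [← b1, ← b2]
    exact BF_three_z htr' hgr'.1 hgr'.2 ((hm c).2 hc) ((hm e).2 he)
      (fun h => hz ((hm z).1 h)) (fun h => hx ((hm x).1 h)) ((hm y).2 hy) _ _
  · have hc' : c ≠ x ∧ c ≠ y ∧ c ≠ z :=
      ⟨by rintro rfl; exact hx hc, by rintro rfl; exact hy hc, by rintro rfl; exact hz hc⟩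
    have he' : e ≠ x ∧ e ≠ y ∧ e ≠ z :=
      ⟨by rintro rfl; exact hx he, by rintro rfl; exact hy he, by rintro rfl; exact hz he⟩
    unfold BF
    have hset : (tw p.reverse q.reverse r.reverse U V W).toFinset \
        (strip^[g] (tw p.reverse q.reverse r.reverse U V W)).toFinset =
        (tw p q r U V W).toFinset \ (strip^[g] (tw p q r U V W)).toFinset := by
      rw [← hst]
      congr 1
      ext v
      simp only [List.mem_toFinset]
      exact (htr.perm U V W).mem_iff.symm
    rw [hset]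
    apply Finset.sum_congr rfl
    intro v _
    rw [ff_three_plain htr hc' he']

end Pool.Agent.Run7.h906
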