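import Mathlib
import Pool.Agent.Run7.h906.LinkB

set_option linter.unusedSimpArgs false

namespace Pool.Agent.Run7.h906

lemma Iso.refl (w : List ℕ) : Iso w w := ⟨0, Equiv.refl _, Or.inl (by simp)⟩

lemma Iso.rot {w u v : List ℕ} (h : Iso w (u ++ v)) : Iso w (v ++ u) := by
  obtain ⟨n, σ, h⟩ := h
  have e1 : v ++ u = (u ++ v).rotate u.length := by
    rw [List.rotate_append_length_eq]
  refine ⟨n + u.length, σ, ?_⟩
  rcases h with h | h
  · left
    rw [e1, h, ← List.map_rotate, List.rotate_rotate]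
  · right
    rw [e1, h, ← List.map_rotate, List.rotate_rotate]

lemma Iso.rev {w z : List ℕ} (h : Iso w z) : Iso w z.reverse := by
  obtain ⟨n, σ, h⟩ := h
  rcases h with h | h
  · refine ⟨w.length - n % w.length, σ, Or.inr ?_⟩
    rw [h, ← List.map_reverse, List.reverse_rotate]
  · refine ⟨w.length - n % w.length, σ, Or.inl ?_⟩
    rw [h, ← List.map_reverse, List.reverse_rotate, List.reverse_reverse, List.length_reverse]

lemma Iso.ren {w z : List ℕ} (h : Iso w z) (τ : Equiv.Perm ℕ) : Iso w (z.map τ) := by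
  obtain ⟨n, σ, h⟩ := h
  refine ⟨n, σ.trans τ, ?_⟩
  rcases h with h | h
  · left
    rw [h, List.map_map]
    rfl
  · right
    rw [h, List.map_map]
    rfl

/-- the core of a rotated word, through filters -/
lemma core_rot {g : ℕ} {u v : List ℕ} (hw : Gauss (u ++ v)) :
    strip^[g] (u ++ v) = u.filter (fun x => decide (x ∈ strip^[g] (u ++ v))) ++
      v.filter (fun x => decide (x ∈ strip^[g] (u ++ v))) ∧
    strip^[g] (v ++ u) = v.filter (fun x => decide (x ∈ strip^[g] (u ++ v))) ++
      u.filter (fun x => decide (x ∈ strip^[g] (u ++ v))) := by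
  constructor
  · obtain ⟨f, hf⟩ := iter_filter g (u ++ v)
    conv_lhs => rw [filter_self hf, List.filter_append]
  · obtain ⟨f, hf⟩ := iter_filter g (v ++ u)
    conv_lhs => rw [filter_self hf, List.filter_append]
    have : (fun x => decide (x ∈ strip^[g] (v ++ u))) =
        fun x => decide (x ∈ strip^[g] (u ++ v)) := by
      funext x
      rw [decide_eq_decide]
      exact mem_rot hw x
    rw [this]

/-- same core and same linking form up to a cyclic shift, a reversal and a renaming -/
def SameF (g : ℕ) (w w' : List ℕ) : Prop :=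
  ∃ z, Iso w z ∧ GoodW (g + 1) z ∧ strip^[g] z = strip^[g] w' ∧
    ∀ c e, c ∈ strip^[g] w' → e ∈ strip^[g] w' → ∀ k l, BF g c e k l z = BF g c e k l w'

lemma fm_surj (c : ℕ) (k : Bool) (u : List ℕ) : ∃ k', fm c k' u = k := by
  refine ⟨xor k (u.count c).bodd, ?_⟩
  rw [fm_count]
  cases k <;> cases (u.count c).bodd <;> rfl

lemma SameF.rot {g : ℕ} {w u v : List ℕ} (hw : Gauss (u ++ v)) (h : SameF g w (u ++ v)) :
    SameF g w (v ++ u) := by
  obtain ⟨z, h1, h2, h3, h4⟩ := h
  obtain ⟨c1, c2⟩ := core_rot (g := g) hw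
  obtain ⟨f, hf⟩ := iter_filter g z
  have hz := filter_self hf
  rw [h3] at hz
  rw [c1] at hz
  have hz' : z.filter (fun x => decide (x ∈ strip^[g] (u ++ v))) =
      u.filter (fun x => decide (x ∈ strip^[g] (u ++ v))) ++
      v.filter (fun x => decide (x ∈ strip^[g] (u ++ v))) := by
    rw [← c1] at hz
    rw [← c1]
    exact hz.symm
  obtain ⟨z1, z2, rfl, e1, e2⟩ := List.filter_eq_append_iff.1 hz'
  have hgz := h2.rot
  obtain ⟨d1, d2⟩ := core_rot (g := g) h2.1
  rw [h3] at d2
  refine ⟨z2 ++ z1, h1.rot, hgz, ?_, ?_⟩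
  · rw [d2, c2, e1, e2]
  · intro c e hc he k l
    rw [mem_rot hw] at hc he
    obtain ⟨k', hk⟩ := fm_surj c k u
    obtain ⟨l', hl⟩ := fm_surj e l u
    have hcnt : ∀ d, d ∈ strip^[g] (u ++ v) → z1.count d = u.count d := by
      intro d hd
      have h5 : (z1.filter (fun x => decide (x ∈ strip^[g] (u ++ v)))).count d =
          (u.filter (fun x => decide (x ∈ strip^[g] (u ++ v)))).count d := by rw [e1]
      rw [List.count_filter (by simpa using hd), List.count_filter (by simpa using hd)] at h5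
      exact h5
    have hfc : fm c k' z1 = k := by rw [← hk, fm_count, fm_count, hcnt c hc]
    have hfe : fm e l' z1 = l := by rw [← hl, fm_count, fm_count, hcnt e he]
    have b1 := BF_rot (g := g) (c := c) (e := e) h2.1 k' l'
    have b2 := BF_rot (g := g) (c := c) (e := e) hw k' l'
    rw [hfc, hfe] at b1
    rw [hk, hl] at b2
    rw [b1, b2]
    exact h4 c e hc he k' l'

lemma SameF.rev {g : ℕ} {w w' : List ℕ} (hw : Gauss w') (h : SameF g w w') :
    SameF g w w'.reverse := by
  obtain ⟨z, h1, h2, h3, h4⟩ := h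
  refine ⟨z.reverse, h1.rev, h2.rev, ?_, ?_⟩
  · rw [iter_rev g h2.1, iter_rev g hw, h3]
  · intro c e hc he k l
    rw [iter_rev g hw, List.mem_reverse] at hc he
    rw [BF_rev h2.1 (h3 ▸ hc) (h3 ▸ he), BF_rev hw hc he]
    exact h4 c e hc he k l

lemma SameF.ren {g : ℕ} {w w' : List ℕ} (hw : Gauss w') (σ : Equiv.Perm ℕ)
    (h : SameF g w w') : SameF g w (w'.map σ) := by
  obtain ⟨z, h1, h2, h3, h4⟩ := h
  refine ⟨z.map σ, h1.ren σ, h2.ren σ, ?_, ?_⟩
  · rw [iter_ren g σ h2.1, iter_ren g σ hw, h3]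
  · intro c e hc he k l
    rw [iter_ren g σ hw, List.mem_map] at hc he
    obtain ⟨c, hc, rfl⟩ := hc
    obtain ⟨e, he, rfl⟩ := he
    rw [BF_ren h2.1, BF_ren hw]
    exact h4 c e hc he k l

lemma SameF.congr {g : ℕ} {w x y : List ℕ} (hs : strip^[g] x = strip^[g] y)
    (hB : ∀ c e, c ∈ strip^[g] x → e ∈ strip^[g] x → ∀ k l, BF g c e k l x = BF g c e k l y) :
    SameF g w x ↔ SameF g w y := by
  constructor
  · rintro ⟨z, h1, h2, h3, h4⟩
    refine ⟨z, h1, h2, h3.trans hs, ?_⟩
    intro c e hc he k l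
    rw [← hs] at hc he
    rw [h4 c e hc he k l, hB c e hc he k l]
  · rintro ⟨z, h1, h2, h3, h4⟩
    refine ⟨z, h1, h2, h3.trans hs.symm, ?_⟩
    intro c e hc he k l
    rw [hB c e hc he k l]
    exact h4 c e (hs ▸ hc) (hs ▸ he) k l

lemma sameF_step {g : ℕ} {w x y : List ℕ} (hs : TStep g x y) : SameF g w x ↔ SameF g w y := by
  obtain ⟨⟨hg, hg', h1, h2, hm⟩, hlen⟩ := hs
  have htwo : ∀ (a b : ℕ) (s U V : List ℕ), a ≠ b → (s = [a, b] ∨ s = [b, a]) →
      Gauss ([a, b] ++ U ++ s ++ V) →
      (strip^[g] ([a, b] ++ U ++ s ++ V)).length = (strip^[g] (U ++ V)).length →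
      (SameF g w ([a, b] ++ U ++ s ++ V) ↔ SameF g w (U ++ V)) := by
    intro a b s U V hab hs hg hlen
    have hst : strip^[g] ([a, b] ++ U ++ s ++ V) = strip^[g] (U ++ V) := by
      obtain ⟨U', V', e1, e2⟩ := iter_two g hab hs hg
      rcases e2 with e2 | e2
      · exfalso
        rw [e1, e2] at hlen
        simp only [List.length_append, List.length_cons, List.length_nil] at hlen
        omega
      · rw [e1, e2]
    apply SameF.congr hst
    intro c e hc he k l
    rw [hst] at hc he
    exact BF_two hab hs hg hst hc he k l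
  cases hm with
  | rot U V => exact ⟨fun h => h.rot hg, fun h => h.rot hg'⟩
  | rev =>
    refine ⟨fun h => h.rev hg, fun h => ?_⟩
    have := h.rev hg'
    rwa [List.reverse_reverse] at this
  | ren σ =>
    refine ⟨fun h => h.ren hg σ, fun h => ?_⟩
    have h3 := h.ren hg' σ.symm
    have e1 : (x.map σ).map σ.symm = x := by
      rw [List.map_map]
      conv_rhs => rw [← List.map_id x]
      apply List.map_congr_left
      intro a _
      simp
    rwa [e1] at h3
  | anti a b U V hab => exact htwo a b [b, a] U V hab (Or.inr rfl) hg hlen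
  | par a b U V hab => exact htwo a b [a, b] U V hab (Or.inl rfl) hg hlen
  | three a b c p q r U V W hab hac hbc hp hq hr =>
    have htr : Tri a b c p q r := ⟨hab, hac, hbc, hp, hq, hr⟩
    obtain ⟨hst, _⟩ := atMost_of (U := U) (V := V) (W := W) htr hg h1
    apply SameF.congr
    · exact hst
    · intro c' e hc' he k l
      exact (BF_three (U := U) (V := V) (W := W) htr hg h1 hc' he k l).symm

theorem TEq_same {g : ℕ} {w w' : List ℕ} (hw : GoodW (g + 1) w) (h : TEq g w w') :
    SameF g w w' := by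
  have key : ∀ x y, TEq g x y → (SameF g w x ↔ SameF g w y) := by
    intro x y hxy
    induction hxy with
    | rel x y hxy => exact sameF_step hxy
    | refl x => exact Iff.rfl
    | symm x y _ ih => exact ih.symm
    | trans x y z _ _ ih1 ih2 => exact ih1.trans ih2
  apply (key w w' h).1
  exact ⟨w, Iso.refl w, hw, rfl, fun _ _ _ _ _ _ => rfl⟩

/-- the core and the linking form are invariants of the free knot -/
theorem link_general {g : ℕ} {w w' : List ℕ} (hw : Gauss w) (hh : strip^[g + 1] w = [])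
    (hirr : ∀ v, TEq g w v → ¬ TopBigon g v) (heq : FreeEq w w')
    (hh' : strip^[g + 1] w' = []) (hlen : (strip^[g] w').length = (strip^[g] w).length) :
    ∃ z, Iso w z ∧ strip^[g] z = strip^[g] w' ∧
      ∀ c e, c ∈ strip^[g] w' → e ∈ strip^[g] w' → ∀ k l,
        BF g c e k l z = BF g c e k l w' := by
  have h1 := (top_general hw hh hirr heq).2.2 hh' hlen.symm
  obtain ⟨z, h2, _, h3, h4⟩ := TEq_same ⟨hw, hh⟩ h1
  exact ⟨z, h2, h3, h4⟩

end Pool.Agent.Run7.h906
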