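import Mathlib
import Pool.Agent.Run7.h906.LinkC
import Pool.Agent.Run7.h906.SmooDefs

set_option linter.unusedSimpArgs false

namespace Pool.Agent.Run7.h906

lemma tw_split {c : ℕ} {A R : List ℕ} (hA : c ∉ A) :
    (A ++ c :: R).takeWhile (fun x => x != c) = A ∧
      (A ++ c :: R).dropWhile (fun x => x != c) = c :: R := by
  induction A with
  | nil => simp
  | cons y A ih =>
    simp only [List.mem_cons, not_or] at hA
    obtain ⟨i1, i2⟩ := ih hA.2
    have hy : (y != c) = true := by
      simp only [bne_iff_ne, ne_eq]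
      exact fun h => hA.1 h.symm
    constructor
    · rw [List.cons_append, List.takeWhile_cons, hy, i1]
      rfl
    · rw [List.cons_append, List.dropWhile_cons, hy, i2]
      rfl

lemma tw_none {c : ℕ} {A : List ℕ} (hA : c ∉ A) :
    A.takeWhile (fun x => x != c) = A ∧ A.dropWhile (fun x => x != c) = [] := by
  induction A with
  | nil => simp
  | cons y A ih =>
    simp only [List.mem_cons, not_or] at hA
    obtain ⟨i1, i2⟩ := ih hA.2
    have hy : (y != c) = true := by
      simp only [bne_iff_ne, ne_eq]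
      exact fun h => hA.1 h.symm
    constructor
    · rw [List.takeWhile_cons, hy, i1]
      rfl
    · rw [List.dropWhile_cons, hy, i2]
      rfl

lemma sml_split {c : ℕ} {A B C : List ℕ} (hA : c ∉ A) (hB : c ∉ B) :
    sml c (A ++ c :: (B ++ c :: C)) = A ++ B.reverse ++ C := by
  unfold sml
  obtain ⟨i1, i2⟩ := tw_split (R := B ++ c :: C) hA
  obtain ⟨j1, j2⟩ := tw_split (R := C) hB
  rw [i1, i2, List.tail_cons, j1, j2, List.tail_cons]

lemma sml_none {c : ℕ} {A : List ℕ} (hA : c ∉ A) : sml c A = A := by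
  unfold sml
  obtain ⟨i1, i2⟩ := tw_none hA
  rw [i1, i2]
  simp

/-- protected letters -/
def KS (K : ℕ → Prop) (x y : List ℕ) : Prop :=
  Gauss x ∧ Gauss y ∧
  ((∃ U V, x = U ++ V ∧ y = V ++ U) ∨ y = x.reverse ∨
   (∃ a b, ¬ K a ∧ ¬ K b ∧ y = x.map (Equiv.swap a b)) ∨
   (∃ a b s U V, a ≠ b ∧ (s = [a, b] ∨ s = [b, a]) ∧ ¬ K a ∧ ¬ K b ∧
      x = [a, b] ++ U ++ s ++ V ∧ y = U ++ V) ∨
   (∃ a b c p q r U V W, Tri a b c p q r ∧
      (¬ K b ∧ ¬ K c ∨ ¬ K a ∧ ¬ K c ∨ ¬ K a ∧ ¬ K b) ∧
      x = tw p q r U V W ∧ y = tw p.reverse q.reverse r.reverse U V W))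

def KQ (K : ℕ → Prop) : List ℕ → List ℕ → Prop := Relation.EqvGen (KS K)

lemma KQ.refl {K : ℕ → Prop} (x : List ℕ) : KQ K x x := Relation.EqvGen.refl x

lemma KQ.symm {K : ℕ → Prop} {x y : List ℕ} (h : KQ K x y) : KQ K y x := Relation.EqvGen.symm _ _ h

lemma KQ.trans {K : ℕ → Prop} {x y z : List ℕ} (h : KQ K x y) (h' : KQ K y z) : KQ K x z :=
  Relation.EqvGen.trans _ _ _ h h'

lemma gauss_rot {u v : List ℕ} (h : Gauss (u ++ v)) : Gauss (v ++ u) :=
  h.perm List.perm_append_comm

lemma gauss_rev {u : List ℕ} (h : Gauss u) : Gauss u.reverse :=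
  h.perm (List.reverse_perm u).symm

lemma KQ.rot {K : ℕ → Prop} {u v : List ℕ} (h : Gauss (u ++ v)) : KQ K (u ++ v) (v ++ u) :=
  Relation.EqvGen.rel _ _ ⟨h, gauss_rot h, Or.inl ⟨u, v, rfl, rfl⟩⟩

lemma KQ.rev {K : ℕ → Prop} {u : List ℕ} (h : Gauss u) : KQ K u u.reverse :=
  Relation.EqvGen.rel _ _ ⟨h, gauss_rev h, Or.inr (Or.inl rfl)⟩

lemma KQ.swap {K : ℕ → Prop} {u : List ℕ} {a b : ℕ} (h : Gauss u) (ha : ¬ K a) (hb : ¬ K b) :
    KQ K u (u.map (Equiv.swap a b)) :=
  Relation.EqvGen.rel _ _ ⟨h, h.map _, Or.inr (Or.inr (Or.inl ⟨a, b, ha, hb, rfl⟩))⟩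

lemma KQ.two {K : ℕ → Prop} {a b : ℕ} {s U V : List ℕ} (hab : a ≠ b)
    (hs : s = [a, b] ∨ s = [b, a]) (ha : ¬ K a) (hb : ¬ K b)
    (h : Gauss ([a, b] ++ U ++ s ++ V)) : KQ K ([a, b] ++ U ++ s ++ V) (U ++ V) := by
  have hg := h.two hab hs
  exact Relation.EqvGen.rel _ _ ⟨h, hg.2.2.2.2, Or.inr (Or.inr (Or.inr (Or.inl
    ⟨a, b, s, U, V, hab, hs, ha, hb, rfl, rfl⟩)))⟩

lemma KQ.three {K : ℕ → Prop} {a b c : ℕ} {p q r U V W : List ℕ} (htr : Tri a b c p q r)
    (hK : ¬ K b ∧ ¬ K c ∨ ¬ K a ∧ ¬ K c ∨ ¬ K a ∧ ¬ K b) (h : Gauss (tw p q r U V W)) :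
    KQ K (tw p q r U V W) (tw p.reverse q.reverse r.reverse U V W) :=
  Relation.EqvGen.rel _ _ ⟨h, h.perm (htr.perm U V W), Or.inr (Or.inr (Or.inr (Or.inr
    ⟨a, b, c, p, q, r, U, V, W, htr, hK, rfl, rfl⟩)))⟩

lemma sml_perm {w : List ℕ} {c : ℕ} (h : Gauss w) :
    (sml c w).Perm (w.filter (fun x => decide (x ≠ c))) := by
  by_cases hc : c ∈ w
  · obtain ⟨A, B, C, rfl, hA, hB, hC⟩ := split_two (h c hc)
    rw [sml_split hA hB]
    have hf : ∀ u : List ℕ, c ∉ u → u.filter (fun x => decide (x ≠ c)) = u := by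
      intro u hu
      rw [List.filter_eq_self]
      intro a ha
      simp only [decide_eq_true_eq]
      rintro rfl
      exact hu ha
    rw [List.filter_append, List.filter_cons_of_neg (by simp), List.filter_append,
      List.filter_cons_of_neg (by simp), hf A hA, hf B hB, hf C hC, List.append_assoc]
    exact List.Perm.append_left _ ((List.reverse_perm B).append_right _)
  · rw [sml_none hc]
    have : w.filter (fun x => decide (x ≠ c)) = w := by
      rw [List.filter_eq_self]
      intro a ha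
      simp only [decide_eq_true_eq]
      rintro rfl
      exact hc ha
    rw [this]

lemma sml_gauss {w : List ℕ} (c : ℕ) (h : Gauss w) : Gauss (sml c w) :=
  (h.filter _).perm (sml_perm h).symm

lemma smls_gauss (cs : List ℕ) {w : List ℕ} (h : Gauss w) : Gauss (smls cs w) := by
  induction cs generalizing w with
  | nil => exact h
  | cons c cs ih => exact ih (sml_gauss c h)

lemma sml_rot {K : ℕ → Prop} {c : ℕ} {u v : List ℕ} (h : Gauss (u ++ v)) :
    KQ K (sml c (u ++ v)) (sml c (v ++ u)) := by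
  by_cases hc : c ∈ u ++ v
  · have h2 := h c hc
    rw [List.count_append] at h2
    have g1 := sml_gauss c h
    -- the three positions of the cut
    rcases Nat.lt_or_ge (u.count c) 1 with h0 | h0
    · have hu : c ∉ u := List.count_eq_zero.1 (by omega)
      obtain ⟨A, B, C, rfl, hA, hB, hC⟩ := split_two (w := v) (a := c) (by omega)
      have e1 : u ++ (A ++ c :: (B ++ c :: C)) = (u ++ A) ++ c :: (B ++ c :: C) := by simp
      have e2 : (A ++ c :: (B ++ c :: C)) ++ u = A ++ c :: (B ++ c :: (C ++ u)) := by simp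
      have hA' : c ∉ u ++ A := by simp [hu, hA]
      rw [e1, sml_split hA' hB] at g1
      rw [e1, e2, sml_split hA' hB, sml_split hA hB]
      have e3 : u ++ A ++ B.reverse ++ C = u ++ (A ++ B.reverse ++ C) := by simp
      have e4 : A ++ B.reverse ++ (C ++ u) = (A ++ B.reverse ++ C) ++ u := by simp
      rw [e3] at g1
      rw [e3, e4]
      exact KQ.rot g1
    · rcases Nat.lt_or_ge (u.count c) 2 with h1 | h1
      · have h3 : u.count c = 1 := by omega
        have h4 : v.count c = 1 := by omega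
        have m1 : c ∈ u := List.count_pos_iff.1 (by omega)
        have m2 : c ∈ v := List.count_pos_iff.1 (by omega)
        obtain ⟨A, B, rfl, hA⟩ := List.eq_append_cons_of_mem m1
        obtain ⟨C, D, rfl, hC⟩ := List.eq_append_cons_of_mem m2
        have hB : c ∉ B := by
          rw [List.count_append, List.count_cons_self] at h3
          exact List.count_eq_zero.1 (by omega)
        have hD : c ∉ D := by
          rw [List.count_append, List.count_cons_self] at h4
          exact List.count_eq_zero.1 (by omega)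
        have e1 : (A ++ c :: B) ++ (C ++ c :: D) = A ++ c :: ((B ++ C) ++ c :: D) := by simp
        have e2 : (C ++ c :: D) ++ (A ++ c :: B) = C ++ c :: ((D ++ A) ++ c :: B) := by simp
        have hBC : c ∉ B ++ C := by simp [hB, hC]
        have hDA : c ∉ D ++ A := by simp [hD, hA]
        rw [e1, sml_split hA hBC] at g1
        rw [e1, e2, sml_split hA hBC, sml_split hC hDA]
        -- A C' B' D  and  C A' D' B
        have r1 := KQ.rev (K := K) g1
        have g3 := gauss_rev g1
        have e4 : (A ++ (B ++ C).reverse ++ D).reverse =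
            (D.reverse ++ B) ++ (C ++ A.reverse) := by simp
        rw [e4] at r1 g3
        have r2 := KQ.rot (K := K) g3
        have e6 : C ++ (D ++ A).reverse ++ B = (C ++ A.reverse) ++ (D.reverse ++ B) := by simp
        rw [e6]
        exact r1.trans r2
      · have hv : c ∉ v := List.count_eq_zero.1 (by omega)
        obtain ⟨A, B, C, rfl, hA, hB, hC⟩ := split_two (w := u) (a := c) (by omega)
        have e1 : (A ++ c :: (B ++ c :: C)) ++ v = A ++ c :: (B ++ c :: (C ++ v)) := by simp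
        have e2 : v ++ (A ++ c :: (B ++ c :: C)) = (v ++ A) ++ c :: (B ++ c :: C) := by simp
        have hA' : c ∉ v ++ A := by simp [hv, hA]
        rw [e1, sml_split hA hB] at g1
        rw [e1, e2, sml_split hA hB, sml_split hA' hB]
        have e3 : v ++ A ++ B.reverse ++ C = v ++ (A ++ B.reverse ++ C) := by simp
        have e4 : A ++ B.reverse ++ (C ++ v) = (A ++ B.reverse ++ C) ++ v := by simp
        rw [e4] at g1
        rw [e3, e4]
        exact KQ.rot g1
  · have hc' : c ∉ v ++ u := by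
      intro hh
      apply hc
      rw [List.mem_append] at hh ⊢
      exact hh.symm
    rw [sml_none hc, sml_none hc']
    exact KQ.rot h

end Pool.Agent.Run7.h906
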