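import Mathlib
import Pool.Agent.Run7.h906.SmooA

set_option linter.unusedSimpArgs false

namespace Pool.Agent.Run7.h906

lemma rev_pair {a b : ℕ} {s : List ℕ} (hs : s = [a, b] ∨ s = [b, a]) :
    s.reverse = [a, b] ∨ s.reverse = [b, a] := by
  rcases hs with rfl | rfl <;> simp

lemma nmem_s {a b c : ℕ} {s : List ℕ} (hs : s = [a, b] ∨ s = [b, a]) (ha : c ≠ a) (hb : c ≠ b) :
    c ∉ s := by
  rcases hs with rfl | rfl <;> simp [ha, hb]

/-- two places of a letter in a concatenation of two words -/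
lemma two_places {c : ℕ} {U V : List ℕ} (h : (U ++ V).count c = 2) :
    (c ∉ U ∧ ∃ A B C, V = A ++ c :: (B ++ c :: C) ∧ c ∉ A ∧ c ∉ B ∧ c ∉ C) ∨
    (∃ A B C D, U = A ++ c :: B ∧ V = C ++ c :: D ∧ c ∉ A ∧ c ∉ B ∧ c ∉ C ∧ c ∉ D) ∨
    (c ∉ V ∧ ∃ A B C, U = A ++ c :: (B ++ c :: C) ∧ c ∉ A ∧ c ∉ B ∧ c ∉ C) := by
  rw [List.count_append] at h
  rcases Nat.lt_or_ge (U.count c) 1 with h0 | h0
  · left
    exact ⟨List.count_eq_zero.1 (by omega), split_two (by omega)⟩
  · rcases Nat.lt_or_ge (U.count c) 2 with h1 | h1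
    · right; left
      have h3 : U.count c = 1 := by omega
      have h4 : V.count c = 1 := by omega
      have m1 : c ∈ U := List.count_pos_iff.1 (by omega)
      have m2 : c ∈ V := List.count_pos_iff.1 (by omega)
      obtain ⟨A, B, rfl, hA⟩ := List.eq_append_cons_of_mem m1
      obtain ⟨C, D, rfl, hC⟩ := List.eq_append_cons_of_mem m2
      have hB : c ∉ B := by
        rw [List.count_append, List.count_cons_self] at h3
        exact List.count_eq_zero.1 (by omega)
      have hD : c ∉ D := by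
        rw [List.count_append, List.count_cons_self] at h4
        exact List.count_eq_zero.1 (by omega)
      exact ⟨A, B, C, D, rfl, rfl, hA, hB, hC, hD⟩
    · right; right
      exact ⟨List.count_eq_zero.1 (by omega), split_two (by omega)⟩

lemma sml_two {K : ℕ → Prop} {a b c : ℕ} {s U V : List ℕ} (hab : a ≠ b)
    (hs : s = [a, b] ∨ s = [b, a]) (ha : ¬ K a) (hb : ¬ K b) (hc : K c)
    (h : Gauss ([a, b] ++ U ++ s ++ V)) :
    KQ K (sml c ([a, b] ++ U ++ s ++ V)) (sml c (U ++ V)) := by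
  have hca : c ≠ a := by rintro rfl; exact ha hc
  have hcb : c ≠ b := by rintro rfl; exact hb hc
  have hcs := nmem_s hs hca hcb
  have g0 := (h.two hab hs).2.2.2.2
  have g1 := sml_gauss c h
  by_cases hm : c ∈ U ++ V
  · rcases two_places (g0 c hm) with ⟨hU, A, B, C, rfl, hA, hB, hC⟩ |
      ⟨A, B, C, D, rfl, rfl, hA, hB, hC, hD⟩ | ⟨hV, A, B, C, rfl, hA, hB, hC⟩
    · have e1 : [a, b] ++ U ++ s ++ (A ++ c :: (B ++ c :: C)) =
          ([a, b] ++ U ++ s ++ A) ++ c :: (B ++ c :: C) := by simp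
      have e2 : U ++ (A ++ c :: (B ++ c :: C)) = (U ++ A) ++ c :: (B ++ c :: C) := by simp
      have n1 : c ∉ [a, b] ++ U ++ s ++ A := by simp [hca, hcb, hU, hcs, hA]
      have n2 : c ∉ U ++ A := by simp [hU, hA]
      rw [e1, sml_split n1 hB] at g1
      rw [e1, e2, sml_split n1 hB, sml_split n2 hB]
      have e3 : [a, b] ++ U ++ s ++ A ++ B.reverse ++ C =
          [a, b] ++ U ++ s ++ (A ++ B.reverse ++ C) := by simp
      have e4 : U ++ A ++ B.reverse ++ C = U ++ (A ++ B.reverse ++ C) := by simp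
      rw [e3] at g1
      rw [e3, e4]
      exact KQ.two hab hs ha hb g1
    · have e1 : [a, b] ++ (A ++ c :: B) ++ s ++ (C ++ c :: D) =
          ([a, b] ++ A) ++ c :: ((B ++ s ++ C) ++ c :: D) := by simp
      have e2 : (A ++ c :: B) ++ (C ++ c :: D) = A ++ c :: ((B ++ C) ++ c :: D) := by simp
      have n1 : c ∉ [a, b] ++ A := by simp [hca, hcb, hA]
      have n2 : c ∉ B ++ s ++ C := by simp [hB, hcs, hC]
      have n3 : c ∉ B ++ C := by simp [hB, hC]
      rw [e1, sml_split n1 n2] at g1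
      rw [e1, e2, sml_split n1 n2, sml_split hA n3]
      have e3 : [a, b] ++ A ++ (B ++ s ++ C).reverse ++ D =
          [a, b] ++ (A ++ C.reverse) ++ s.reverse ++ (B.reverse ++ D) := by simp
      have e4 : A ++ (B ++ C).reverse ++ D = (A ++ C.reverse) ++ (B.reverse ++ D) := by simp
      rw [e3] at g1
      rw [e3, e4]
      exact KQ.two hab (rev_pair hs) ha hb g1
    · have e1 : [a, b] ++ (A ++ c :: (B ++ c :: C)) ++ s ++ V =
          ([a, b] ++ A) ++ c :: (B ++ c :: (C ++ s ++ V)) := by simp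
      have e2 : (A ++ c :: (B ++ c :: C)) ++ V = A ++ c :: (B ++ c :: (C ++ V)) := by simp
      have n1 : c ∉ [a, b] ++ A := by simp [hca, hcb, hA]
      rw [e1, sml_split n1 hB] at g1
      rw [e1, e2, sml_split n1 hB, sml_split hA hB]
      have e3 : [a, b] ++ A ++ B.reverse ++ (C ++ s ++ V) =
          [a, b] ++ (A ++ B.reverse ++ C) ++ s ++ V := by simp
      have e4 : A ++ B.reverse ++ (C ++ V) = (A ++ B.reverse ++ C) ++ V := by simp
      rw [e3] at g1
      rw [e3, e4]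
      exact KQ.two hab hs ha hb g1
  · have n1 : c ∉ [a, b] ++ U ++ s ++ V := by
      rw [List.mem_append, not_or] at hm
      simp [hca, hcb, hm.1, hm.2, hcs]
    rw [sml_none n1, sml_none hm]
    exact KQ.two hab hs ha hb h

/-- statement for a third move -/
def P3 (K : ℕ → Prop) (c : ℕ) (p q r U V W : List ℕ) : Prop :=
  KQ K (sml c (tw p q r U V W)) (sml c (tw p.reverse q.reverse r.reverse U V W))

lemma tw_rot (p q r U V W : List ℕ) :
    tw p q r U V W = (p ++ U) ++ (q ++ V ++ r ++ W) ∧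
      tw q r p V W U = (q ++ V ++ r ++ W) ++ (p ++ U) := by
  unfold tw
  constructor <;> simp

lemma P3.rot {K : ℕ → Prop} {c : ℕ} {p q r U V W : List ℕ} (h : P3 K c q r p V W U)
    (hg : Gauss (tw p q r U V W)) (hg' : Gauss (tw p.reverse q.reverse r.reverse U V W)) :
    P3 K c p q r U V W := by
  unfold P3 at h ⊢
  obtain ⟨e1, e2⟩ := tw_rot p q r U V W
  obtain ⟨e3, e4⟩ := tw_rot p.reverse q.reverse r.reverse U V W
  rw [e2, e4] at h
  rw [e1] at hg
  rw [e3] at hg'
  rw [e1, e3]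
  exact (sml_rot hg).trans (h.trans (sml_rot hg').symm)

lemma Tri.rot {a b c : ℕ} {p q r : List ℕ} (h : Tri a b c p q r) : Tri c a b q r p := by
  refine ⟨h.hac.symm, h.hbc.symm, h.hab, ?_, ?_, ?_⟩
  · rcases h.hq with e | e
    · exact Or.inr e
    · exact Or.inl e
  · rcases h.hr with e | e
    · exact Or.inr e
    · exact Or.inl e
  · exact h.hp

lemma gauss_tw_rot {p q r U V W : List ℕ} (hg : Gauss (tw p q r U V W)) :
    Gauss (tw q r p V W U) := by
  obtain ⟨e1, e2⟩ := tw_rot p q r U V W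
  rw [e1] at hg
  rw [e2]
  exact gauss_rot hg

/-- both places in `U` -/
lemma P3_UU {K : ℕ → Prop} {x y z c : ℕ} {p q r A B C V W : List ℕ} (htr : Tri x y z p q r)
    (hK : ¬ K y ∧ ¬ K z ∨ ¬ K x ∧ ¬ K z ∨ ¬ K x ∧ ¬ K y) (hp : c ∉ p)
    (hA : c ∉ A) (hB : c ∉ B)
    (hg : Gauss (tw p q r (A ++ c :: (B ++ c :: C)) V W)) :
    P3 K c p q r (A ++ c :: (B ++ c :: C)) V W := by
  have e : ∀ p' q' r' : List ℕ, tw p' q' r' (A ++ c :: (B ++ c :: C)) V W =
      (p' ++ A) ++ c :: (B ++ c :: (C ++ q' ++ V ++ r' ++ W)) := by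
    intro p' q' r'
    simp [tw]
  have e2 : ∀ p' q' r' : List ℕ, (p' ++ A) ++ B.reverse ++ (C ++ q' ++ V ++ r' ++ W) =
      tw p' q' r' (A ++ B.reverse ++ C) V W := by
    intro p' q' r'
    simp [tw]
  have n1 : c ∉ p ++ A := by simp [hp, hA]
  have n2 : c ∉ p.reverse ++ A := by simp [hp, hA]
  have g1 := sml_gauss c hg
  unfold P3
  rw [e, sml_split n1 hB, e2] at g1
  rw [e, e, sml_split n1 hB, sml_split n2 hB, e2, e2]
  exact KQ.three htr hK g1

/-- one place in `U`, the other in `V` -/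
lemma P3_UV {K : ℕ → Prop} {x y z c : ℕ} {p q r A B C D W : List ℕ} (htr : Tri x y z p q r)
    (hK : ¬ K y ∧ ¬ K z ∨ ¬ K x ∧ ¬ K z ∨ ¬ K x ∧ ¬ K y) (hp : c ∉ p) (hq : c ∉ q)
    (hA : c ∉ A) (hB : c ∉ B) (hC : c ∉ C)
    (hg : Gauss (tw p q r (A ++ c :: B) (C ++ c :: D) W)) :
    P3 K c p q r (A ++ c :: B) (C ++ c :: D) W := by
  have e : ∀ p' q' r' : List ℕ, tw p' q' r' (A ++ c :: B) (C ++ c :: D) W =
      (p' ++ A) ++ c :: ((B ++ q' ++ C) ++ c :: (D ++ r' ++ W)) := by
    intro p' q' r'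
    simp [tw]
  have e2 : ∀ p' q' r' : List ℕ, (p' ++ A) ++ (B ++ q' ++ C).reverse ++ (D ++ r' ++ W) =
      tw p' q'.reverse r' (A ++ C.reverse) (B.reverse ++ D) W := by
    intro p' q' r'
    simp [tw]
  have n1 : c ∉ p ++ A := by simp [hp, hA]
  have n2 : c ∉ p.reverse ++ A := by simp [hp, hA]
  have m1 : c ∉ B ++ q ++ C := by simp [hB, hq, hC]
  have m2 : c ∉ B ++ q.reverse ++ C := by simp [hB, hq, hC]
  have g1 := sml_gauss c hg
  unfold P3
  rw [e, sml_split n1 m1, e2] at g1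
  rw [e, e, sml_split n1 m1, sml_split n2 m2, e2, e2]
  have htr' : Tri x y z p q.reverse r := by
    refine ⟨htr.hab, htr.hac, htr.hbc, htr.hp, ?_, htr.hr⟩
    rcases htr.hq with rfl | rfl <;> simp
  exact KQ.three htr' hK g1

lemma P3_plain {K : ℕ → Prop} {x y z c : ℕ} {p q r U V W : List ℕ} (htr : Tri x y z p q r)
    (hK : ¬ K y ∧ ¬ K z ∨ ¬ K x ∧ ¬ K z ∨ ¬ K x ∧ ¬ K y)
    (hx : c ≠ x) (hy : c ≠ y) (hz : c ≠ z) (hg : Gauss (tw p q r U V W)) :
    P3 K c p q r U V W := by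
  have hp := nmem_s htr.hp hx hy
  have hq := nmem_s htr.hq hx hz
  have hr := nmem_s htr.hr hy hz
  have hg' : Gauss (tw p.reverse q.reverse r.reverse U V W) := hg.perm (htr.perm U V W)
  have hK' : ¬ K x ∧ ¬ K y ∨ ¬ K z ∧ ¬ K y ∨ ¬ K z ∧ ¬ K x := by
    rcases hK with h | h | h
    · exact Or.inr (Or.inl ⟨h.2, h.1⟩)
    · exact Or.inr (Or.inr ⟨h.2, h.1⟩)
    · exact Or.inl h
  have hK'' : ¬ K z ∧ ¬ K x ∨ ¬ K y ∧ ¬ K x ∨ ¬ K y ∧ ¬ K z := by
    rcases hK with h | h | h
    · exact Or.inr (Or.inr h)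
    · exact Or.inl ⟨h.2, h.1⟩
    · exact Or.inr (Or.inl ⟨h.2, h.1⟩)
  by_cases hm : c ∈ tw p q r U V W
  · have h2 := hg c hm
    have h3 : (U ++ (V ++ W)).count c = 2 := by
      unfold tw at h2
      simp only [List.count_append, List.count_eq_zero.2 hp, List.count_eq_zero.2 hq,
        List.count_eq_zero.2 hr] at h2 ⊢
      omega
    have rot1 : P3 K c q r p V W U → P3 K c p q r U V W := fun h => h.rot hg hg'
    have rot2 : P3 K c r p q W U V → P3 K c p q r U V W := fun h =>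
      rot1 (h.rot (gauss_tw_rot hg) (gauss_tw_rot hg'))
    have gr := gauss_tw_rot hg
    have grr := gauss_tw_rot gr
    rcases two_places h3 with ⟨hU, A, B, C, e1, hA, hB, hC⟩ |
      ⟨A, B, C, D, rfl, e2, hA, hB, hC, hD⟩ | ⟨hVW, A, B, C, rfl, hA, hB, hC⟩
    · have h4 : (V ++ W).count c = 2 := by
        rw [List.count_append] at h3
        rw [List.count_eq_zero.2 hU] at h3
        omega
      rcases two_places h4 with ⟨hV, A, B, C, rfl, hA, hB, hC⟩ |
        ⟨A, B, C, D, rfl, rfl, hA, hB, hC, hD⟩ | ⟨hW, A, B, C, rfl, hA, hB, hC⟩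
      · exact rot2 (P3_UU htr.rot.rot hK'' hr hA hB grr)
      · exact rot1 (P3_UV htr.rot hK' hq hr hA hB hC gr)
      · exact rot1 (P3_UU htr.rot hK' hq hA hB gr)
    · -- one place in U, one in V or W
      have h5 : c ∈ V ++ W := by
        rw [e2]
        simp
      have h6 : (V ++ W).count c = 1 := by
        rw [e2, List.count_append, List.count_cons_self, List.count_eq_zero.2 hC,
          List.count_eq_zero.2 hD]
      rw [List.count_append] at h6
      by_cases hV : c ∈ V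
      · have hV1 : V.count c = 1 := by
          have := List.count_pos_iff.2 hV
          omega
        obtain ⟨C', D', rfl, hC'⟩ := List.eq_append_cons_of_mem hV
        exact P3_UV htr hK hp hq hA hB hC' hg
      · have hW : c ∈ W := by
          rw [List.mem_append] at h5
          exact h5.resolve_left hV
        obtain ⟨C', D', rfl, hC'⟩ := List.eq_append_cons_of_mem hW
        have hD' : c ∉ D' := by
          rw [List.count_eq_zero.2 hV, List.count_append, List.count_cons_self] at h6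
          exact List.count_eq_zero.1 (by omega)
        exact rot2 (P3_UV htr.rot.rot hK'' hr hp hC' hD' hA grr)
    · exact P3_UU htr hK hp hA hB hg
  · have hm' : c ∉ tw p.reverse q.reverse r.reverse U V W := by
      intro hh
      exact hm ((htr.perm U V W).mem_iff.2 hh)
    unfold P3
    rw [sml_none hm, sml_none hm']
    exact KQ.three htr hK hg

end Pool.Agent.Run7.h906
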