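import Mathlib
import Pool.Agent.Run7.h906.SmooB

set_option linter.unusedSimpArgs false

namespace Pool.Agent.Run7.h906

lemma map_swap_self {x y : ℕ} {u : List ℕ} (hx : x ∉ u) (hy : y ∉ u) :
    u.map (Equiv.swap x y) = u := by
  conv_rhs => rw [← List.map_id u]
  apply List.map_congr_left
  intro a ha
  exact Equiv.swap_apply_of_ne_of_ne (by rintro rfl; exact hx ha) (by rintro rfl; exact hy ha)

lemma map_swap_r {x y : ℕ} {r : List ℕ} (hr : r = [x, y] ∨ r = [y, x]) :
    r.map (Equiv.swap x y) = r.reverse := by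
  rcases hr with rfl | rfl <;> simp

/-- third move at a protected letter, first form -/
lemma P3_sp1 {K : ℕ → Prop} {t x y : ℕ} {r U V W : List ℕ} (htx : t ≠ x) (hty : t ≠ y)
    (hxy : x ≠ y) (hr : r = [x, y] ∨ r = [y, x]) (hx : ¬ K x) (hy : ¬ K y)
    (hg : Gauss (tw [t, x] [t, y] r U V W)) : P3 K t [t, x] [t, y] r U V W := by
  have htr : Tri t x y [t, x] [t, y] r := ⟨htx, hty, hxy, Or.inl rfl, Or.inl rfl, hr⟩
  have hg' : Gauss (tw [t, x].reverse [t, y].reverse r.reverse U V W) := hg.perm (htr.perm U V W)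
  obtain ⟨tU, tV, tW⟩ := htr.fresh hg t (Or.inl rfl)
  have e1 : tw [t, x] [t, y] r U V W =
      [] ++ t :: (([x] ++ U) ++ t :: ([y] ++ V ++ r ++ W)) := by simp [tw]
  have e2 : tw [t, x].reverse [t, y].reverse r.reverse U V W =
      [x] ++ t :: ((U ++ [y]) ++ t :: (V ++ r.reverse ++ W)) := by simp [tw]
  have n0 : t ∉ ([] : List ℕ) := by simp
  have n1 : t ∉ [x] ++ U := by simp [htx, tU]
  have n2 : t ∉ [x] := by simp [htx]
  have n3 : t ∉ U ++ [y] := by simp [hty, tU]
  have g1 := sml_gauss t hg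
  have g2 := sml_gauss t hg'
  unfold P3
  rw [e1, sml_split n0 n1] at g1
  rw [e2, sml_split n2 n3] at g2
  rw [e1, e2, sml_split n0 n1, sml_split n2 n3]
  have e3 : [] ++ ([x] ++ U).reverse ++ ([y] ++ V ++ r ++ W) =
      U.reverse ++ ([x, y] ++ V ++ r ++ W) := by simp
  have e4 : ([x, y] ++ V ++ r ++ W) ++ U.reverse = [x, y] ++ V ++ r ++ (W ++ U.reverse) := by simp
  have e5 : [x] ++ (U ++ [y]).reverse ++ (V ++ r.reverse ++ W) =
      [x, y] ++ (U.reverse ++ V) ++ r.reverse ++ W := by simp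
  rw [e3] at g1 ⊢
  rw [e5] at g2 ⊢
  have g3 := gauss_rot g1
  have k1 := KQ.rot (K := K) g1
  rw [e4] at k1 g3
  have k2 := KQ.two hxy hr hx hy g3
  have k3 := KQ.two hxy (rev_pair hr) hx hy g2
  have g4 := (g3.two hxy hr).2.2.2.2
  have e6 : V ++ (W ++ U.reverse) = (V ++ W) ++ U.reverse := by simp
  have e7 : U.reverse ++ V ++ W = U.reverse ++ (V ++ W) := by simp
  rw [e6] at k2 g4
  rw [e7] at k3
  exact (k1.trans k2).trans ((KQ.rot g4).trans k3.symm)

/-- third move at a protected letter, second form -/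
lemma P3_sp2 {K : ℕ → Prop} {t x y : ℕ} {r U V W : List ℕ} (htx : t ≠ x) (hty : t ≠ y)
    (hxy : x ≠ y) (hr : r = [x, y] ∨ r = [y, x]) (hx : ¬ K x) (hy : ¬ K y)
    (hg : Gauss (tw [t, x] [y, t] r U V W)) : P3 K t [t, x] [y, t] r U V W := by
  have htr : Tri t x y [t, x] [y, t] r := ⟨htx, hty, hxy, Or.inl rfl, Or.inr rfl, hr⟩
  obtain ⟨tU, tV, tW⟩ := htr.fresh hg t (Or.inl rfl)
  obtain ⟨xU, xV, xW⟩ := htr.fresh hg x (Or.inr (Or.inl rfl))
  obtain ⟨yU, yV, yW⟩ := htr.fresh hg y (Or.inr (Or.inr rfl))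
  have e1 : tw [t, x] [y, t] r U V W =
      [] ++ t :: (([x] ++ U ++ [y]) ++ t :: (V ++ r ++ W)) := by simp [tw]
  have e2 : tw [t, x].reverse [y, t].reverse r.reverse U V W =
      [x] ++ t :: (U ++ t :: ([y] ++ V ++ r.reverse ++ W)) := by simp [tw]
  have n0 : t ∉ ([] : List ℕ) := by simp
  have n1 : t ∉ [x] ++ U ++ [y] := by simp [htx, tU, hty]
  have n2 : t ∉ [x] := by simp [htx]
  have g1 := sml_gauss t hg
  unfold P3
  rw [e1, sml_split n0 n1] at g1
  rw [e1, e2, sml_split n0 n1, sml_split n2 tU]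
  have k1 := KQ.swap g1 hx hy
  have e3 : ([] ++ ([x] ++ U ++ [y]).reverse ++ (V ++ r ++ W)).map (Equiv.swap x y) =
      [x] ++ U.reverse ++ ([y] ++ V ++ r.reverse ++ W) := by
    have xU' : x ∉ U.reverse := by simpa using xU
    have yU' : y ∉ U.reverse := by simpa using yU
    have m1 := map_swap_self xU' yU'
    have m2 := map_swap_self xV yV
    have m3 := map_swap_self xW yW
    have m4 := map_swap_r hr
    rw [List.reverse_append, List.reverse_append]
    simp only [List.map_append, m1, m2, m3, m4]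
    simp
  rw [e3] at k1
  exact k1

/-- third move at the protected letter common to the first two pairs -/
lemma P3_sp {K : ℕ → Prop} {t x y : ℕ} {p q r U V W : List ℕ} (htr : Tri t x y p q r)
    (hx : ¬ K x) (hy : ¬ K y) (hg : Gauss (tw p q r U V W)) : P3 K t p q r U V W := by
  have hg' : Gauss (tw p.reverse q.reverse r.reverse U V W) := hg.perm (htr.perm U V W)
  have flip : P3 K t p.reverse q.reverse r.reverse U V W → P3 K t p q r U V W := by
    intro h
    unfold P3 at h ⊢
    simp only [List.reverse_reverse] at h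
    exact h.symm
  obtain ⟨htx, hty, hxy, hp, hq, hr⟩ := htr
  rcases hp with rfl | rfl <;> rcases hq with rfl | rfl
  · exact P3_sp1 htx hty hxy hr hx hy hg
  · exact P3_sp2 htx hty hxy hr hx hy hg
  · apply flip
    exact P3_sp2 htx hty hxy (rev_pair hr) hx hy hg'
  · apply flip
    exact P3_sp1 htx hty hxy (rev_pair hr) hx hy hg'

lemma P3_all {K : ℕ → Prop} {x y z c : ℕ} {p q r U V W : List ℕ} (htr : Tri x y z p q r)
    (hK : ¬ K y ∧ ¬ K z ∨ ¬ K x ∧ ¬ K z ∨ ¬ K x ∧ ¬ K y) (hc : K c)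
    (hg : Gauss (tw p q r U V W)) : P3 K c p q r U V W := by
  have hg' : Gauss (tw p.reverse q.reverse r.reverse U V W) := hg.perm (htr.perm U V W)
  by_cases hx : c = x
  · subst hx
    have h : ¬ K y ∧ ¬ K z := by
      rcases hK with h | h | h
      · exact h
      · exact absurd hc h.1
      · exact absurd hc h.1
    exact P3_sp htr h.1 h.2 hg
  by_cases hy : c = y
  · subst hy
    have h : ¬ K z ∧ ¬ K x := by
      rcases hK with h | h | h
      · exact absurd hc h.1
      · exact ⟨h.2, h.1⟩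
      · exact absurd hc h.2
    -- two rotations bring the letter to the front
    have h1 := P3_sp htr.rot.rot h.1 h.2 (gauss_tw_rot (gauss_tw_rot hg))
    exact (h1.rot (gauss_tw_rot hg) (gauss_tw_rot hg')).rot hg hg'
  by_cases hz : c = z
  · subst hz
    have h : ¬ K x ∧ ¬ K y := by
      rcases hK with h | h | h
      · exact absurd hc h.2
      · exact absurd hc h.2
      · exact h
    exact (P3_sp htr.rot h.1 h.2 (gauss_tw_rot hg)).rot hg hg'
  exact P3_plain htr hK hx hy hz hg

lemma sml_map (σ : Equiv.Perm ℕ) (c : ℕ) {w : List ℕ} (hg : Gauss w) :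
    sml (σ c) (w.map σ) = (sml c w).map σ := by
  have hm : ∀ u : List ℕ, c ∉ u → σ c ∉ u.map σ := by
    intro u hu hh
    obtain ⟨a, ha, he⟩ := List.mem_map.1 hh
    rw [σ.injective he] at ha
    exact hu ha
  by_cases hc : c ∈ w
  · obtain ⟨A, B, C, rfl, hA, hB, hC⟩ := split_two (hg c hc)
    rw [sml_split hA hB]
    have e : (A ++ c :: (B ++ c :: C)).map σ =
        A.map σ ++ σ c :: (B.map σ ++ σ c :: C.map σ) := by simp
    rw [e, sml_split (hm A hA) (hm B hB)]
    simp
  · rw [sml_none hc, sml_none (hm w hc)]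

lemma sml_reverse {c : ℕ} {w : List ℕ} (hg : Gauss w) : sml c w.reverse = (sml c w).reverse := by
  by_cases hc : c ∈ w
  · obtain ⟨A, B, C, rfl, hA, hB, hC⟩ := split_two (hg c hc)
    rw [sml_split hA hB]
    have e : (A ++ c :: (B ++ c :: C)).reverse =
        C.reverse ++ c :: (B.reverse ++ c :: A.reverse) := by simp
    have n1 : c ∉ C.reverse := by simpa using hC
    have n2 : c ∉ B.reverse := by simpa using hB
    rw [e, sml_split n1 n2]
    simp
  · have hc' : c ∉ w.reverse := by simpa using hc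
    rw [sml_none hc, sml_none hc']

/-- a smoothing at a protected letter respects the steps -/
lemma KQ_sml {K : ℕ → Prop} {c : ℕ} (hc : K c) {x y : List ℕ} (h : KQ K x y) :
    KQ K (sml c x) (sml c y) := by
  induction h with
  | rel x y h =>
    obtain ⟨hx, hy, h⟩ := h
    rcases h with ⟨U, V, rfl, rfl⟩ | rfl | ⟨a, b, ha, hb, rfl⟩ |
      ⟨a, b, s, U, V, hab, hs, ha, hb, rfl, rfl⟩ |
      ⟨a, b, c', p, q, r, U, V, W, htr, hK, rfl, rfl⟩
    · exact sml_rot hx
    · rw [sml_reverse hx]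
      exact KQ.rev (sml_gauss c hx)
    · have hca : c ≠ a := by rintro rfl; exact ha hc
      have hcb : c ≠ b := by rintro rfl; exact hb hc
      have e := sml_map (Equiv.swap a b) c hx
      rw [Equiv.swap_apply_of_ne_of_ne hca hcb] at e
      rw [e]
      exact KQ.swap (sml_gauss c hx) ha hb
    · exact sml_two hab hs ha hb hc hx
    · exact P3_all htr hK hc hx
  | refl x => exact KQ.refl _
  | symm x y _ ih => exact ih.symm
  | trans x y z _ _ ih1 ih2 => exact ih1.trans ih2

lemma KQ_smls {K : ℕ → Prop} {cs : List ℕ} (hc : ∀ c ∈ cs, K c) {x y : List ℕ} (h : KQ K x y) :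
    KQ K (smls cs x) (smls cs y) := by
  induction cs generalizing x y with
  | nil => exact h
  | cons c cs ih =>
    exact ih (fun d hd => hc d (List.mem_cons_of_mem _ hd)) (KQ_sml (hc c List.mem_cons_self) h)

lemma KQ_free {K : ℕ → Prop} {x y : List ℕ} (h : KQ K x y) : FreeEq x y := by
  induction h with
  | rel x y h =>
    obtain ⟨hx, hy, h⟩ := h
    apply Relation.EqvGen.rel
    refine ⟨hx, hy, Or.inl ?_⟩
    rcases h with ⟨U, V, rfl, rfl⟩ | rfl | ⟨a, b, ha, hb, rfl⟩ |
      ⟨a, b, s, U, V, hab, hs, ha, hb, rfl, rfl⟩ |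
      ⟨a, b, c', p, q, r, U, V, W, htr, hK, rfl, rfl⟩
    · exact Move.rot U V
    · exact Move.rev _
    · exact Move.ren _ _
    · rcases hs with rfl | rfl
      · exact Move.par a b U V hab
      · exact Move.anti a b U V hab
    · exact Move.three a b c' p q r U V W htr.hab htr.hac htr.hbc htr.hp htr.hq htr.hr
  | refl x => exact Relation.EqvGen.refl _
  | symm x y _ ih => exact Relation.EqvGen.symm _ _ ih
  | trans x y z _ _ ih1 ih2 => exact Relation.EqvGen.trans _ _ _ ih1 ih2

lemma smls_map (σ : Equiv.Perm ℕ) (cs : List ℕ) {w : List ℕ} (hg : Gauss w) :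
    smls (cs.map σ) (w.map σ) = (smls cs w).map σ := by
  induction cs generalizing w with
  | nil => rfl
  | cons c cs ih =>
    rw [List.map_cons]
    unfold smls
    rw [sml_map σ c hg]
    exact ih (sml_gauss c hg)

end Pool.Agent.Run7.h906
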