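import Mathlib
import Pool.Agent.Run7.h906.SmooC

set_option linter.unusedSimpArgs false

namespace Pool.Agent.Run7.h906

lemma even_of_strip {c : ℕ} {A B C : List ℕ} (hA : c ∉ A) (hB : c ∉ B)
    (h : c ∈ strip (A ++ c :: (B ++ c :: C))) : B.length % 2 = 0 := by
  unfold strip at h
  rw [List.mem_filter] at h
  have h2 := h.2
  unfold isOdd at h2
  rw [gap_split hA hB] at h2
  have h3 : ¬ (B.length % 2 = 1) := by simpa using h2
  omega

lemma evn_sml {a c : ℕ} {A B C : List ℕ} (hac : a ≠ c) (hB : B.length % 2 = 0) :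
    evn (A ++ B.reverse ++ C) a = evn (A ++ c :: (B ++ c :: C)) a := by
  have e1 : ps a (A ++ B.reverse ++ C) = ps a A + ps a B.reverse + A.length * B.count a +
      ps a C + (A.length + B.length) * C.count a := by
    rw [ps_append, ps_append]
    simp
  have hn : (c :: (B ++ c :: C)).count a = B.count a + C.count a := by
    rw [List.count_cons_of_ne hac.symm, List.count_append, List.count_cons_of_ne hac.symm]
  have e2 : ps a (A ++ c :: (B ++ c :: C)) = ps a A + (ps a B + (ps a C + C.count a) +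
      B.length * C.count a + (B.count a + C.count a)) +
      A.length * (B.count a + C.count a) := by
    rw [ps_append, hn]
    have e3 : ps a (c :: (B ++ c :: C)) = ps a (B ++ c :: C) + (B ++ c :: C).count a := rfl
    have e4 : (B ++ c :: C).count a = B.count a + C.count a := by
      rw [List.count_append, List.count_cons_of_ne hac.symm]
    have e5 : ps a (c :: C) = ps a C + C.count a := rfl
    rw [e3, e4, ps_append, e5, List.count_cons_of_ne hac.symm]
  have e6 := ps_reverse a B
  have e7 : (B.length * B.count a) % 2 = 0 := by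
    rw [Nat.mul_mod, hB]
    simp
  have e8 : ps a (A ++ c :: (B ++ c :: C)) + ps a B.reverse + ps a B.reverse =
      ps a (A ++ B.reverse ++ C) + (ps a B.reverse + ps a B + B.count a) + 2 * C.count a := by
    rw [e1, e2]
    ring
  rw [e6] at e8
  have e9 : ps a (A ++ B.reverse ++ C) % 2 = ps a (A ++ c :: (B ++ c :: C)) % 2 := by omega
  unfold evn
  rw [e9]

lemma strip_sml {c : ℕ} {w : List ℕ} (hg : Gauss w) (hc : c ∈ strip w) :
    strip (sml c w) = sml c (strip w) := by
  have hcw : c ∈ w := strip_sub w hc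
  have g1 := sml_gauss c hg
  obtain ⟨A, B, C, rfl, hA, hB, hC⟩ := split_two (hg c hcw)
  have hBe := even_of_strip hA hB hc
  rw [strip_eq hg] at hc
  have hce := (List.mem_filter.1 hc).2
  rw [strip_eq g1, strip_eq hg]
  rw [sml_split hA hB]
  set f := evn (A ++ c :: (B ++ c :: C)) with hf
  have e1 : (A ++ B.reverse ++ C).filter (evn (A ++ B.reverse ++ C)) =
      (A ++ B.reverse ++ C).filter f := by
    apply List.filter_congr
    intro a ha
    apply evn_sml _ hBe
    rintro rfl
    simp [hA, hB, hC] at ha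
  have e2 : (A ++ c :: (B ++ c :: C)).filter f =
      A.filter f ++ c :: (B.filter f ++ c :: C.filter f) := by
    rw [List.filter_append, List.filter_cons_of_pos hce, List.filter_append,
      List.filter_cons_of_pos hce]
  have nA : c ∉ A.filter f := fun h => hA (List.mem_filter.1 h).1
  have nB : c ∉ B.filter f := fun h => hB (List.mem_filter.1 h).1
  rw [e1, e2, sml_split nA nB]
  rw [List.filter_append, List.filter_append, List.filter_reverse]

lemma iter_sml (g : ℕ) {c : ℕ} {w : List ℕ} (hg : Gauss w) (hc : c ∈ strip^[g] w) :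
    strip^[g] (sml c w) = sml c (strip^[g] w) := by
  induction g generalizing w with
  | zero => rfl
  | succ g ih =>
    rw [Function.iterate_succ_apply] at hc ⊢
    rw [Function.iterate_succ_apply]
    have h1 : c ∈ strip w := iter_sub g _ hc
    rw [strip_sml hg h1]
    exact ih hg.strip hc

lemma mem_sml {c d : ℕ} {w : List ℕ} (hg : Gauss w) : d ∈ sml c w ↔ d ∈ w ∧ d ≠ c := by
  rw [(sml_perm hg).mem_iff, List.mem_filter]
  simp

lemma iter_smls (g : ℕ) {cs : List ℕ} {w : List ℕ} (hg : Gauss w)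
    (hc : ∀ c ∈ cs, c ∈ strip^[g] w ∨ c ∉ w) :
    strip^[g] (smls cs w) = smls cs (strip^[g] w) := by
  induction cs generalizing w with
  | nil => rfl
  | cons c cs ih =>
    unfold smls
    rcases hc c List.mem_cons_self with h | h
    · rw [ih (sml_gauss c hg), iter_sml g hg h]
      intro d hd
      rw [iter_sml g hg h]
      by_cases hdc : d = c
      · right
        rw [mem_sml hg]
        exact fun hh => hh.2 hdc
      · rcases hc d (List.mem_cons_of_mem _ hd) with h' | h'
        · left
          exact (mem_sml (hg.iter g)).2 ⟨h', hdc⟩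
        · right
          rw [mem_sml hg]
          exact fun hh => h' hh.1
    · have h' : c ∉ strip^[g] w := fun hh => h (iter_sub g w hh)
      rw [sml_none h, sml_none h']
      exact ih hg (fun d hd => hc d (List.mem_cons_of_mem _ hd))

lemma smls_nil {cs : List ℕ} {w : List ℕ} (hg : Gauss w) (h : ∀ c ∈ w, c ∈ cs) :
    smls cs w = [] := by
  induction cs generalizing w with
  | nil =>
    cases w with
    | nil => rfl
    | cons a w => exact absurd (h a List.mem_cons_self) (by simp)
  | cons c cs ih =>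
    apply ih (sml_gauss c hg)
    intro d hd
    rw [mem_sml hg] at hd
    have := h d hd.1
    rw [List.mem_cons] at this
    exact this.resolve_left hd.2

lemma FreeEq_ren {x y : List ℕ} (σ : Equiv.Perm ℕ) (hx : Gauss x) (hy : Gauss y)
    (h : FreeEq x y) : FreeEq (x.map σ) (y.map σ) := by
  have h1 : FreeEq x (x.map σ) := Relation.EqvGen.rel _ _ ⟨hx, hx.map σ, Or.inl (Move.ren σ x)⟩
  have h2 : FreeEq y (y.map σ) := Relation.EqvGen.rel _ _ ⟨hy, hy.map σ, Or.inl (Move.ren σ y)⟩
  exact Relation.EqvGen.trans _ _ _ (Relation.EqvGen.symm _ _ h1)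
    (Relation.EqvGen.trans _ _ _ h h2)

/-- same core, same linking form, same smoothings up to a cyclic shift, a reversal and a
renaming -/
def SameS (g : ℕ) (w w' : List ℕ) : Prop :=
  ∃ z, Iso w z ∧ GoodW (g + 1) z ∧ strip^[g] z = strip^[g] w' ∧
    (∀ c e, c ∈ strip^[g] w' → e ∈ strip^[g] w' → ∀ k l, BF g c e k l z = BF g c e k l w') ∧
    ∀ cs : List ℕ, (∀ c ∈ cs, c ∈ strip^[g] w') → FreeEq (smls cs z) (smls cs w')

lemma FreeEq.tr {x y z : List ℕ} (h : FreeEq x y) (h' : FreeEq y z) : FreeEq x z :=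
  Relation.EqvGen.trans _ _ _ h h'

lemma FreeEq.sy {x y : List ℕ} (h : FreeEq x y) : FreeEq y x := Relation.EqvGen.symm _ _ h

lemma smls_free_rot {cs : List ℕ} {u v : List ℕ} (h : Gauss (u ++ v)) :
    FreeEq (smls cs (u ++ v)) (smls cs (v ++ u)) :=
  KQ_free (K := fun _ => True) (KQ_smls (fun _ _ => trivial) (KQ.rot h))

lemma smls_free_rev {cs : List ℕ} {u : List ℕ} (h : Gauss u) :
    FreeEq (smls cs u) (smls cs u.reverse) :=
  KQ_free (K := fun _ => True) (KQ_smls (fun _ _ => trivial) (KQ.rev h))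

lemma SameS.rot {g : ℕ} {w u v : List ℕ} (hw : Gauss (u ++ v)) (h : SameS g w (u ++ v)) :
    SameS g w (v ++ u) := by
  obtain ⟨z, h1, h2, h3, h4, h5⟩ := h
  obtain ⟨c1, c2⟩ := core_rot (g := g) hw
  obtain ⟨f, hf⟩ := iter_filter g z
  have hz := filter_self hf
  rw [h3] at hz
  rw [c1] at hz
  have hz' : z.filter (fun x => decide (x ∈ strip^[g] (u ++ v))) =
      u.filter (fun x => decide (x ∈ strip^[g] (u ++ v))) ++
      v.filter (fun x => decide (x ∈ strip^[g] (u ++ v))) := by
    rw [← c1] at hz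
    rw [← c1]
    exact hz.symm
  obtain ⟨z1, z2, rfl, e1, e2⟩ := List.filter_eq_append_iff.1 hz'
  have hgz := h2.rot
  obtain ⟨d1, d2⟩ := core_rot (g := g) h2.1
  rw [h3] at d2
  refine ⟨z2 ++ z1, h1.rot, hgz, ?_, ?_, ?_⟩
  · rw [d2, c2, e1, e2]
  · intro c e hc he k l
    rw [mem_rot hw] at hc he
    obtain ⟨k', hk⟩ := fm_surj c k u
    obtain ⟨l', hl⟩ := fm_surj e l u
    have hcnt : ∀ d, d ∈ strip^[g] (u ++ v) → z1.count d = u.count d := by
      intro d hd
      have h5 : (z1.filter (fun x => decide (x ∈ strip^[g] (u ++ v)))).count d =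
          (u.filter (fun x => decide (x ∈ strip^[g] (u ++ v)))).count d := by rw [e1]
      rw [List.count_filter (by simpa using hd), List.count_filter (by simpa using hd)] at h5
      exact h5
    have hfc : fm c k' z1 = k := by rw [← hk, fm_count, fm_count, hcnt c hc]
    have hfe : fm e l' z1 = l := by rw [← hl, fm_count, fm_count, hcnt e he]
    have b1 := BF_rot (g := g) (c := c) (e := e) h2.1 k' l'
    have b2 := BF_rot (g := g) (c := c) (e := e) hw k' l'
    rw [hfc, hfe] at b1
    rw [hk, hl] at b2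
    rw [b1, b2]
    exact h4 c e hc he k' l'
  · intro cs hcs
    have hcs' : ∀ c ∈ cs, c ∈ strip^[g] (u ++ v) := fun c hc => (mem_rot hw c).1 (hcs c hc)
    exact (smls_free_rot h2.1).sy.tr ((h5 cs hcs').tr (smls_free_rot hw))

lemma SameS.rev {g : ℕ} {w w' : List ℕ} (hw : Gauss w') (h : SameS g w w') :
    SameS g w w'.reverse := by
  obtain ⟨z, h1, h2, h3, h4, h5⟩ := h
  refine ⟨z.reverse, h1.rev, h2.rev, ?_, ?_, ?_⟩
  · rw [iter_rev g h2.1, iter_rev g hw, h3]
  · intro c e hc he k l
    rw [iter_rev g hw, List.mem_reverse] at hc he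
    rw [BF_rev h2.1 (h3 ▸ hc) (h3 ▸ he), BF_rev hw hc he]
    exact h4 c e hc he k l
  · intro cs hcs
    have hcs' : ∀ c ∈ cs, c ∈ strip^[g] w' := by
      intro c hc
      have := hcs c hc
      rwa [iter_rev g hw, List.mem_reverse] at this
    exact (smls_free_rev h2.1).sy.tr ((h5 cs hcs').tr (smls_free_rev hw))

lemma SameS.ren {g : ℕ} {w w' : List ℕ} (hw : Gauss w') (σ : Equiv.Perm ℕ)
    (h : SameS g w w') : SameS g w (w'.map σ) := by
  obtain ⟨z, h1, h2, h3, h4, h5⟩ := h
  refine ⟨z.map σ, h1.ren σ, h2.ren σ, ?_, ?_, ?_⟩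
  · rw [iter_ren g σ h2.1, iter_ren g σ hw, h3]
  · intro c e hc he k l
    rw [iter_ren g σ hw, List.mem_map] at hc he
    obtain ⟨c, hc, rfl⟩ := hc
    obtain ⟨e, he, rfl⟩ := he
    rw [BF_ren h2.1, BF_ren hw]
    exact h4 c e hc he k l
  · intro cs hcs
    have hcs' : ∀ c ∈ cs.map σ.symm, c ∈ strip^[g] w' := by
      intro c hc
      obtain ⟨d, hd, rfl⟩ := List.mem_map.1 hc
      have := hcs d hd
      rw [iter_ren g σ hw, List.mem_map] at this
      obtain ⟨e, he, rfl⟩ := this
      simpa using he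
    have e1 : cs = (cs.map σ.symm).map σ := by
      rw [List.map_map]
      conv_lhs => rw [← List.map_id cs]
      apply List.map_congr_left
      intro a _
      simp
    rw [e1, smls_map σ _ h2.1, smls_map σ _ hw]
    exact FreeEq_ren σ (smls_gauss _ h2.1) (smls_gauss _ hw) (h5 _ hcs')

lemma SameS.congr {g : ℕ} {w x y : List ℕ} (hs : strip^[g] x = strip^[g] y)
    (hB : ∀ c e, c ∈ strip^[g] x → e ∈ strip^[g] x → ∀ k l, BF g c e k l x = BF g c e k l y)
    (hS : ∀ cs : List ℕ, (∀ c ∈ cs, c ∈ strip^[g] x) → FreeEq (smls cs x) (smls cs y)) :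
    SameS g w x ↔ SameS g w y := by
  constructor
  · rintro ⟨z, h1, h2, h3, h4, h5⟩
    refine ⟨z, h1, h2, h3.trans hs, ?_, ?_⟩
    · intro c e hc he k l
      rw [← hs] at hc he
      rw [h4 c e hc he k l, hB c e hc he k l]
    · intro cs hcs
      rw [← hs] at hcs
      exact (h5 cs hcs).tr (hS cs hcs)
  · rintro ⟨z, h1, h2, h3, h4, h5⟩
    refine ⟨z, h1, h2, h3.trans hs.symm, ?_, ?_⟩
    · intro c e hc he k l
      rw [hB c e hc he k l]
      exact h4 c e (hs ▸ hc) (hs ▸ he) k l
    · intro cs hcs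
      exact (h5 cs (fun c hc => hs ▸ hcs c hc)).tr (hS cs hcs).sy

lemma sameS_step {g : ℕ} {w x y : List ℕ} (hs : TStep g x y) : SameS g w x ↔ SameS g w y := by
  obtain ⟨⟨hg, hg', h1, h2, hm⟩, hlen⟩ := hs
  have htwo : ∀ (a b : ℕ) (s U V : List ℕ), a ≠ b → (s = [a, b] ∨ s = [b, a]) →
      Gauss ([a, b] ++ U ++ s ++ V) →
      (strip^[g] ([a, b] ++ U ++ s ++ V)).length = (strip^[g] (U ++ V)).length →
      (SameS g w ([a, b] ++ U ++ s ++ V) ↔ SameS g w (U ++ V)) := by
    intro a b s U V hab hs hg hlen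
    have hst : strip^[g] ([a, b] ++ U ++ s ++ V) = strip^[g] (U ++ V) := by
      obtain ⟨U', V', e1, e2⟩ := iter_two g hab hs hg
      rcases e2 with e2 | e2
      · exfalso
        rw [e1, e2] at hlen
        simp only [List.length_append, List.length_cons, List.length_nil] at hlen
        omega
      · rw [e1, e2]
    obtain ⟨aU, bU, aV, bV, _⟩ := hg.two hab hs
    have na : a ∉ strip^[g] (U ++ V) := fun hh => by
      have := iter_sub g _ hh
      rw [List.mem_append] at this
      exact this.elim aU aV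
    have nb : b ∉ strip^[g] (U ++ V) := fun hh => by
      have := iter_sub g _ hh
      rw [List.mem_append] at this
      exact this.elim bU bV
    apply SameS.congr hst
    · intro c e hc he k l
      rw [hst] at hc he
      exact BF_two hab hs hg hst hc he k l
    · intro cs hcs
      rw [hst] at hcs
      exact KQ_free (K := fun c => c ∈ strip^[g] (U ++ V))
        (KQ_smls hcs (KQ.two hab hs na nb hg))
  cases hm with
  | rot U V => exact ⟨fun h => h.rot hg, fun h => h.rot hg'⟩
  | rev =>
    refine ⟨fun h => h.rev hg, fun h => ?_⟩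
    have := h.rev hg'
    rwa [List.reverse_reverse] at this
  | ren σ =>
    refine ⟨fun h => h.ren hg σ, fun h => ?_⟩
    have h3 := h.ren hg' σ.symm
    have e1 : (x.map σ).map σ.symm = x := by
      rw [List.map_map]
      conv_rhs => rw [← List.map_id x]
      apply List.map_congr_left
      intro a _
      simp
    rwa [e1] at h3
  | anti a b U V hab => exact htwo a b [b, a] U V hab (Or.inr rfl) hg hlen
  | par a b U V hab => exact htwo a b [a, b] U V hab (Or.inl rfl) hg hlen
  | three a b c p q r U V W hab hac hbc hp hq hr =>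
    have htr : Tri a b c p q r := ⟨hab, hac, hbc, hp, hq, hr⟩
    obtain ⟨hst, am⟩ := atMost_of (U := U) (V := V) (W := W) htr hg h1
    apply SameS.congr
    · exact hst
    · intro c' e hc' he k l
      exact (BF_three (U := U) (V := V) (W := W) htr hg h1 hc' he k l).symm
    · intro cs hcs
      have hK : ¬ b ∈ strip^[g] (tw p q r U V W) ∧ ¬ c ∈ strip^[g] (tw p q r U V W) ∨
          ¬ a ∈ strip^[g] (tw p q r U V W) ∧ ¬ c ∈ strip^[g] (tw p q r U V W) ∨
          ¬ a ∈ strip^[g] (tw p q r U V W) ∧ ¬ b ∈ strip^[g] (tw p q r U V W) := by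
        unfold AtMost at am
        tauto
      exact KQ_free (K := fun c => c ∈ strip^[g] (tw p q r U V W))
        (KQ_smls hcs (KQ.three htr hK hg))

theorem TEq_sameS {g : ℕ} {w w' : List ℕ} (hw : GoodW (g + 1) w) (h : TEq g w w') :
    SameS g w w' := by
  have key : ∀ x y, TEq g x y → (SameS g w x ↔ SameS g w y) := by
    intro x y hxy
    induction hxy with
    | rel x y hxy => exact sameS_step hxy
    | refl x => exact Iff.rfl
    | symm x y _ ih => exact ih.symm
    | trans x y z _ _ ih1 ih2 => exact ih1.trans ih2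
  apply (key w w' h).1
  exact ⟨w, Iso.refl w, hw, rfl, fun _ _ _ _ _ _ => rfl, fun _ _ => Relation.EqvGen.refl _⟩

/-- the core, the linking form and the smoothings are invariants of the free knot -/
theorem smoo_general {g : ℕ} {w w' : List ℕ} (hw : Gauss w) (hh : strip^[g + 1] w = [])
    (hirr : ∀ v, TEq g w v → ¬ TopBigon g v) (heq : FreeEq w w')
    (hh' : strip^[g + 1] w' = []) (hlen : (strip^[g] w').length = (strip^[g] w).length) :
    ∃ z, Iso w z ∧ strip^[g] z = strip^[g] w' ∧
      (∀ c e, c ∈ strip^[g] w' → e ∈ strip^[g] w' → ∀ k l,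
        BF g c e k l z = BF g c e k l w') ∧
      ∀ cs : List ℕ, (∀ c ∈ cs, c ∈ strip^[g] w') →
        FreeEq (smls cs z) (smls cs w') ∧
        ((∀ c ∈ strip^[g] w', c ∈ cs) → HEq g (smls cs z) (smls cs w')) := by
  have h1 := (top_general hw hh hirr heq).2.2 hh' hlen.symm
  obtain ⟨z, h2, h3, h4, h5, h6⟩ := TEq_sameS ⟨hw, hh⟩ h1
  have hw' : Gauss w' := (FreeEq_gauss heq).1 hw
  refine ⟨z, h2, h4, h5, fun cs hcs => ⟨h6 cs hcs, fun hall => ?_⟩⟩
  have k1 : strip^[g] (smls cs z) = [] := by
    rw [iter_smls g h3.1 (fun c hc => Or.inl (h4 ▸ hcs c hc)), h4]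
    exact smls_nil (hw'.iter g) hall
  have k2 : strip^[g] (smls cs w') = [] := by
    rw [iter_smls g hw' (fun c hc => Or.inl (hcs c hc))]
    exact smls_nil (hw'.iter g) hall
  obtain ⟨_, _, _, k3⟩ := height_general g (smls cs z) (smls cs w') (smls_gauss cs h3.1) k1
    (h6 cs hcs)
  exact k3 k2

end Pool.Agent.Run7.h906
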