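import Mathlib
import Pool.Agent.Run7.h906.SmooD

set_option linter.unusedSimpArgs false

namespace Pool.Agent.Run7.h906

lemma top_ex_class {g : ℕ} {w w' : List ℕ} (hw : GoodW (g + 1) w)
    (hirr : ∀ v, TEq g w v → ¬ TopBigon g v) (heq : HEq (g + 1) w w') :
    ∃ v, TEq g w v ∧ v.length ≤ w'.length ∧
      (v.length = w'.length → (strip^[g] w').length = (strip^[g] w).length) := by
  have hC := class_TCls hw hirr
  have hw' : GoodW (g + 1) w' := (HEq_good heq).1 hw
  obtain ⟨t, ht, et⟩ := exists_lab w hw.1
  obtain ⟨t', ht', et'⟩ := exists_lab w' hw'.1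
  have h1 : G g (TEq g w) t = 1 := by
    rw [G_only hC ht (by rw [et]), et]
    exact ind_true (.refl _)
  have h2 := G_inv hC heq ht ht' et et'
  rw [h1] at h2
  have h4 : ∃ K ∈ (KK g (t'.map half)).powerset, ∃ T ∈ K.powerset,
      CC (CT (TEq g w)) (Sys K T t') := by
    by_contra hcon
    push Not at hcon
    unfold G at h2
    rw [Finset.sum_eq_zero (fun K hK => by
      unfold HS
      exact Finset.sum_eq_zero (fun T hT => ind_false (hcon K hK T hT)))] at h2
    exact absurd h2 (by decide)
  obtain ⟨K, hK, T, _, l, p, h5, h6, h7⟩ := h4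
  rw [Finset.mem_powerset] at hK
  obtain ⟨_, hp, hwp⟩ := tour_core ht' hK h5 h6
  have hl' : t'.length = w'.length := by rw [← et', List.length_map]
  have hlen := hwp.length_eq
  have hfl := List.length_filter_le (fun x => decide (half x ∉ K)) t'
  refine ⟨(word l).map half, h7, ?_, ?_⟩
  · rw [List.length_map]
    omega
  · intro he
    rw [List.length_map] at he
    have hall : (t'.filter (fun x => decide (half x ∉ K))).length = t'.length := by omega
    rw [List.length_filter_eq_length_iff] at hall
    have hKe : K = ∅ := by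
      rw [Finset.eq_empty_iff_forall_notMem]
      intro c hc
      have h8 := KK_sub g _ (hK hc)
      obtain ⟨x, hx, hxc⟩ := List.mem_map.1 h8
      have := hall x hx
      simp only [decide_eq_true_eq] at this
      rw [hxc] at this
      exact this hc
    subst hKe
    have e1 := TEq_len h7
    have e2 := hp.length_eq
    have e3 : (strip^[g] (t'.map half)).filter (fun a => decide (a ∉ (∅ : Finset ℕ))) =
        strip^[g] (t'.map half) := by
      rw [List.filter_eq_self]
      intro a _
      simp
    rw [e3, et'] at e2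
    omega

theorem top_exists {g : ℕ} {w w' : List ℕ} (hw : Gauss w) (hh : strip^[g + 1] w = [])
    (hirr : ∀ v, TEq g w v → ¬ TopBigon g v) (heq : FreeEq w w') :
    ∃ v, TEq g w v ∧ v.length ≤ w'.length ∧
      (v.length = w'.length → strip^[g + 1] w' = [] ∧
        (strip^[g] w').length = (strip^[g] w).length) := by
  obtain ⟨v1, hv1, hp1, hn1⟩ := height_general (g + 1) w w' hw hh heq
  by_cases hn : strip^[g + 1] w' = []
  · obtain ⟨v, h1, h2, h3⟩ := top_ex_class ⟨hw, hh⟩ hirr (hn1 hn)
    exact ⟨v, h1, h2, fun h => ⟨hn, h3 h⟩⟩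
  · obtain ⟨v, h1, h2, h3⟩ := top_ex_class ⟨hw, hh⟩ hirr hv1
    have hlt : v1.length < w'.length := by
      rw [hp1.length_eq]
      apply List.length_filter_lt_length_iff_exists.2
      obtain ⟨a, ha⟩ := List.exists_mem_of_ne_nil _ hn
      refine ⟨a, iter_sub _ _ ha, ?_⟩
      simpa using ha
    exact ⟨v, h1, by omega, fun h => by omega⟩

lemma smls_perm {cs : List ℕ} {w : List ℕ} (hg : Gauss w) :
    (smls cs w).Perm (w.filter (fun a => decide (a ∉ cs))) := by
  induction cs generalizing w with
  | nil =>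
    have : w.filter (fun a => decide (a ∉ ([] : List ℕ))) = w := by
      rw [List.filter_eq_self]
      intro a _
      simp
    rw [this]
    exact List.Perm.refl _
  | cons c cs ih =>
    unfold smls
    refine (ih (sml_gauss c hg)).trans ?_
    refine ((sml_perm hg).filter _).trans (List.Perm.of_eq ?_)
    rw [List.filter_filter]
    apply List.filter_congr
    intro a _
    by_cases h1 : a = c <;> by_cases h2 : a ∈ cs <;> simp [h1, h2]

lemma core_filter {g : ℕ} {x : List ℕ} {cs : List ℕ} (hcs : ∀ c ∈ cs, c ∈ strip^[g] x) :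
    x.filter (fun a => decide (a ∈ cs)) = (strip^[g] x).filter (fun a => decide (a ∈ cs)) := by
  obtain ⟨f, hf⟩ := iter_filter g x
  have h1 := filter_self hf
  conv_rhs => rw [h1, List.filter_filter]
  apply List.filter_congr
  intro a _
  by_cases h2 : a ∈ cs
  · simp [h2, hcs a h2]
  · simp [h2]

lemma len_smls {cs : List ℕ} {w : List ℕ} (hg : Gauss w) :
    (smls cs w).length + (w.filter (fun a => decide (a ∈ cs))).length = w.length := by
  rw [(smls_perm hg).length_eq]
  have h1 := List.length_eq_length_filter_add (l := w) (fun a => decide (a ∈ cs))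
  have h2 : w.filter (fun a => !decide (a ∈ cs)) = w.filter (fun a => decide (a ∉ cs)) := by
    apply List.filter_congr
    intro a _
    by_cases h : a ∈ cs <;> simp [h]
  rw [h2] at h1
  omega

lemma rotate_split (w : List ℕ) (n : ℕ) : ∃ u v, w = u ++ v ∧ w.rotate n = v ++ u := by
  refine ⟨w.take (n % w.length), w.drop (n % w.length), (List.take_append_drop _ _).symm, ?_⟩
  exact List.rotate_eq_drop_append_take_mod

/-- transport of a list of smoothings along a shift, a reversal and a renaming -/
lemma iso_smls {g : ℕ} {w z : List ℕ} {cs : List ℕ} (hw : Gauss w) (h : Iso w z)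
    (hcs : ∀ c ∈ cs, c ∈ strip^[g] w) :
    ∃ cs' : List ℕ, (∀ c ∈ cs', c ∈ strip^[g] z) ∧ FreeEq (smls cs w) (smls cs' z) ∧
      (smls cs' z).length = (smls cs w).length ∧ z.length = w.length := by
  have key : ∀ (y : List ℕ) (σ : Equiv.Perm ℕ), Gauss y → (∀ c ∈ cs, c ∈ strip^[g] y) →
      FreeEq (smls cs w) (smls cs y) → y.Perm w →
      ∃ cs' : List ℕ, (∀ c ∈ cs', c ∈ strip^[g] (y.map σ)) ∧
        FreeEq (smls cs w) (smls cs' (y.map σ)) ∧
        (smls cs' (y.map σ)).length = (smls cs w).length ∧ (y.map σ).length = w.length := by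
    intro y σ hy hcy hf hp
    refine ⟨cs.map σ, ?_, ?_, ?_, ?_⟩
    · intro c hc
      obtain ⟨d, hd, rfl⟩ := List.mem_map.1 hc
      rw [iter_ren g σ hy]
      exact List.mem_map_of_mem (hcy d hd)
    · rw [smls_map σ cs hy]
      refine hf.tr ?_
      have gy := smls_gauss cs hy
      exact Relation.EqvGen.rel _ _ ⟨gy, gy.map σ, Or.inl (Move.ren σ _)⟩
    · rw [smls_map σ cs hy, List.length_map, (smls_perm hy).length_eq, (smls_perm hw).length_eq]
      exact (hp.filter _).length_eq
    · rw [List.length_map]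
      exact hp.length_eq
  obtain ⟨n, σ, h⟩ := h
  rcases h with rfl | rfl
  · obtain ⟨u, v, e1, e2⟩ := rotate_split w n
    rw [e2]
    subst e1
    apply key _ σ (gauss_rot hw)
    · intro c hc
      rw [mem_rot hw]
      exact hcs c hc
    · exact smls_free_rot hw
    · exact List.perm_append_comm
  · obtain ⟨u, v, e1, e2⟩ := rotate_split w.reverse n
    rw [e2]
    have hr := gauss_rev hw
    rw [e1] at hr
    apply key _ σ (gauss_rot hr)
    · intro c hc
      rw [mem_rot hr, ← e1, iter_rev g hw, List.mem_reverse]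
      exact hcs c hc
    · have h1 := smls_free_rev (cs := cs) hw
      rw [e1] at h1
      exact h1.tr (smls_free_rot hr)
    · have : (u ++ v).Perm w := by
        rw [← e1]
        exact List.reverse_perm w
      exact List.perm_append_comm.trans this

/-- minimality lifts from a smoothing -/
theorem min_lift {g : ℕ} {w : List ℕ} {cs : List ℕ} (hw : Gauss w) (hh : strip^[g + 1] w = [])
    (hirr : ∀ v, TEq g w v → ¬ TopBigon g v) (hcs : ∀ c ∈ cs, c ∈ strip^[g] w)
    (hmin : ∀ u, FreeEq (smls cs w) u → (smls cs w).length ≤ u.length)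
    {w' : List ℕ} (heq : FreeEq w w') :
    w.length ≤ w'.length ∧ (w.length = w'.length → TEq g w w') := by
  obtain ⟨v, hv, hle, hex⟩ := top_exists hw hh hirr heq
  obtain ⟨z, h2, h3, h4, h5, h6⟩ := TEq_sameS ⟨hw, hh⟩ hv
  obtain ⟨cs', k1, k2, k3, k4⟩ := iso_smls hw h2 hcs
  have hvg : Gauss v := by
    have := (HEq_good (TEq_HEq hv)).1 ⟨hw, hh⟩
    exact this.1
  have k5 : ∀ c ∈ cs', c ∈ strip^[g] v := fun c hc => h4 ▸ k1 c hc
  have k6 := hmin _ (k2.tr (h6 cs' k5))
  have k7 := len_smls (cs := cs') h3.1
  have k8 := len_smls (cs := cs') hvg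
  rw [core_filter k1, h4, ← core_filter k5] at k7
  have hle2 : w.length ≤ v.length := by omega
  refine ⟨by omega, fun he => ?_⟩
  obtain ⟨m1, m2⟩ := hex (by omega)
  exact (top_general hw hh hirr heq).2.2 m1 m2.symm

end Pool.Agent.Run7.h906
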