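import Mathlib
import Pool.Agent.Run7.h906.SmooE

set_option linter.unusedSimpArgs false

namespace Pool.Agent.Run7.h906

lemma flp_split {c : ℕ} {A B C : List ℕ} (hA : c ∉ A) (hB : c ∉ B) :
    flp c (A ++ c :: (B ++ c :: C)) = A ++ c :: (B.reverse ++ c :: C) := by
  unfold flp
  obtain ⟨i1, i2⟩ := tw_split (R := B ++ c :: C) hA
  obtain ⟨j1, j2⟩ := tw_split (R := C) hB
  have hm : c ∈ A ++ c :: (B ++ c :: C) := by simp
  rw [if_pos hm, i1, i2, List.tail_cons, j1, j2]

lemma flp_none {c : ℕ} {A : List ℕ} (hA : c ∉ A) : flp c A = A := by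
  unfold flp
  rw [if_neg hA]

lemma flp_perm {w : List ℕ} {c : ℕ} (h : Gauss w) : (flp c w).Perm w := by
  by_cases hc : c ∈ w
  · obtain ⟨A, B, C, rfl, hA, hB, hC⟩ := split_two (h c hc)
    rw [flp_split hA hB]
    exact List.Perm.append_left _ (List.Perm.cons _ ((List.reverse_perm B).append_right _))
  · rw [flp_none hc]

lemma flp_gauss {w : List ℕ} (c : ℕ) (h : Gauss w) : Gauss (flp c w) := h.perm (flp_perm h).symm

lemma flp_rot {K : ℕ → Prop} {c : ℕ} {u v : List ℕ} (h : Gauss (u ++ v)) :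
    KQ K (flp c (u ++ v)) (flp c (v ++ u)) := by
  by_cases hc : c ∈ u ++ v
  · have g1 := flp_gauss c h
    rcases two_places (h c hc) with ⟨hu, A, B, C, rfl, hA, hB, hC⟩ |
      ⟨A, B, C, D, rfl, rfl, hA, hB, hC, hD⟩ | ⟨hv, A, B, C, rfl, hA, hB, hC⟩
    · have e1 : u ++ (A ++ c :: (B ++ c :: C)) = (u ++ A) ++ c :: (B ++ c :: C) := by simp
      have e2 : (A ++ c :: (B ++ c :: C)) ++ u = A ++ c :: (B ++ c :: (C ++ u)) := by simp
      have hA' : c ∉ u ++ A := by simp [hu, hA]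
      rw [e1, flp_split hA' hB] at g1
      rw [e1, e2, flp_split hA' hB, flp_split hA hB]
      have e3 : u ++ A ++ c :: (B.reverse ++ c :: C) = u ++ (A ++ c :: (B.reverse ++ c :: C)) := by
        simp
      have e4 : A ++ c :: (B.reverse ++ c :: (C ++ u)) = (A ++ c :: (B.reverse ++ c :: C)) ++ u := by
        simp
      rw [e3] at g1
      rw [e3, e4]
      exact KQ.rot g1
    · have e1 : (A ++ c :: B) ++ (C ++ c :: D) = A ++ c :: ((B ++ C) ++ c :: D) := by simp
      have e2 : (C ++ c :: D) ++ (A ++ c :: B) = C ++ c :: ((D ++ A) ++ c :: B) := by simp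
      have hBC : c ∉ B ++ C := by simp [hB, hC]
      have hDA : c ∉ D ++ A := by simp [hD, hA]
      rw [e1, flp_split hA hBC] at g1
      rw [e1, e2, flp_split hA hBC, flp_split hC hDA]
      have r1 := KQ.rev (K := K) g1
      have g3 := gauss_rev g1
      have e4 : (A ++ c :: ((B ++ C).reverse ++ c :: D)).reverse =
          (D.reverse ++ c :: B) ++ (C ++ c :: A.reverse) := by simp
      rw [e4] at r1 g3
      have r2 := KQ.rot (K := K) g3
      have e6 : C ++ c :: ((D ++ A).reverse ++ c :: B) =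
          (C ++ c :: A.reverse) ++ (D.reverse ++ c :: B) := by simp
      rw [e6]
      exact r1.trans r2
    · have e1 : (A ++ c :: (B ++ c :: C)) ++ v = A ++ c :: (B ++ c :: (C ++ v)) := by simp
      have e2 : v ++ (A ++ c :: (B ++ c :: C)) = (v ++ A) ++ c :: (B ++ c :: C) := by simp
      have hA' : c ∉ v ++ A := by simp [hv, hA]
      rw [e1, flp_split hA hB] at g1
      rw [e1, e2, flp_split hA hB, flp_split hA' hB]
      have e3 : v ++ A ++ c :: (B.reverse ++ c :: C) = v ++ (A ++ c :: (B.reverse ++ c :: C)) := by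
        simp
      have e4 : A ++ c :: (B.reverse ++ c :: (C ++ v)) = (A ++ c :: (B.reverse ++ c :: C)) ++ v := by
        simp
      rw [e4] at g1
      rw [e3, e4]
      exact KQ.rot g1
  · have hc' : c ∉ v ++ u := by
      intro hh
      apply hc
      rw [List.mem_append] at hh ⊢
      exact hh.symm
    rw [flp_none hc, flp_none hc']
    exact KQ.rot h

lemma flp_reverse {c : ℕ} {w : List ℕ} (hg : Gauss w) : flp c w.reverse = (flp c w).reverse := by
  by_cases hc : c ∈ w
  · obtain ⟨A, B, C, rfl, hA, hB, hC⟩ := split_two (hg c hc)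
    rw [flp_split hA hB]
    have e : (A ++ c :: (B ++ c :: C)).reverse =
        C.reverse ++ c :: (B.reverse ++ c :: A.reverse) := by simp
    have n1 : c ∉ C.reverse := by simpa using hC
    have n2 : c ∉ B.reverse := by simpa using hB
    rw [e, flp_split n1 n2]
    simp
  · have hc' : c ∉ w.reverse := by simpa using hc
    rw [flp_none hc, flp_none hc']

lemma flp_map (σ : Equiv.Perm ℕ) (c : ℕ) {w : List ℕ} (hg : Gauss w) :
    flp (σ c) (w.map σ) = (flp c w).map σ := by
  have hm : ∀ u : List ℕ, c ∉ u → σ c ∉ u.map σ := by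
    intro u hu hh
    obtain ⟨a, ha, he⟩ := List.mem_map.1 hh
    rw [σ.injective he] at ha
    exact hu ha
  by_cases hc : c ∈ w
  · obtain ⟨A, B, C, rfl, hA, hB, hC⟩ := split_two (hg c hc)
    rw [flp_split hA hB]
    have e : (A ++ c :: (B ++ c :: C)).map σ =
        A.map σ ++ σ c :: (B.map σ ++ σ c :: C.map σ) := by simp
    rw [e, flp_split (hm A hA) (hm B hB)]
    simp
  · rw [flp_none hc, flp_none (hm w hc)]

lemma flp_two {K : ℕ → Prop} {a b c : ℕ} {s U V : List ℕ} (hab : a ≠ b)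
    (hs : s = [a, b] ∨ s = [b, a]) (ha : ¬ K a) (hb : ¬ K b) (hc : K c)
    (h : Gauss ([a, b] ++ U ++ s ++ V)) :
    KQ K (flp c ([a, b] ++ U ++ s ++ V)) (flp c (U ++ V)) := by
  have hca : c ≠ a := by rintro rfl; exact ha hc
  have hcb : c ≠ b := by rintro rfl; exact hb hc
  have hcs := nmem_s hs hca hcb
  have g0 := (h.two hab hs).2.2.2.2
  have g1 := flp_gauss c h
  by_cases hm : c ∈ U ++ V
  · rcases two_places (g0 c hm) with ⟨hU, A, B, C, rfl, hA, hB, hC⟩ |
      ⟨A, B, C, D, rfl, rfl, hA, hB, hC, hD⟩ | ⟨hV, A, B, C, rfl, hA, hB, hC⟩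
    · have e1 : [a, b] ++ U ++ s ++ (A ++ c :: (B ++ c :: C)) =
          ([a, b] ++ U ++ s ++ A) ++ c :: (B ++ c :: C) := by simp
      have e2 : U ++ (A ++ c :: (B ++ c :: C)) = (U ++ A) ++ c :: (B ++ c :: C) := by simp
      have n1 : c ∉ [a, b] ++ U ++ s ++ A := by simp [hca, hcb, hU, hcs, hA]
      have n2 : c ∉ U ++ A := by simp [hU, hA]
      rw [e1, flp_split n1 hB] at g1
      rw [e1, e2, flp_split n1 hB, flp_split n2 hB]
      have e3 : [a, b] ++ U ++ s ++ A ++ c :: (B.reverse ++ c :: C) =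
          [a, b] ++ U ++ s ++ (A ++ c :: (B.reverse ++ c :: C)) := by simp
      have e4 : U ++ A ++ c :: (B.reverse ++ c :: C) = U ++ (A ++ c :: (B.reverse ++ c :: C)) := by
        simp
      rw [e3] at g1
      rw [e3, e4]
      exact KQ.two hab hs ha hb g1
    · have e1 : [a, b] ++ (A ++ c :: B) ++ s ++ (C ++ c :: D) =
          ([a, b] ++ A) ++ c :: ((B ++ s ++ C) ++ c :: D) := by simp
      have e2 : (A ++ c :: B) ++ (C ++ c :: D) = A ++ c :: ((B ++ C) ++ c :: D) := by simp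
      have n1 : c ∉ [a, b] ++ A := by simp [hca, hcb, hA]
      have n2 : c ∉ B ++ s ++ C := by simp [hB, hcs, hC]
      have n3 : c ∉ B ++ C := by simp [hB, hC]
      rw [e1, flp_split n1 n2] at g1
      rw [e1, e2, flp_split n1 n2, flp_split hA n3]
      have e3 : [a, b] ++ A ++ c :: ((B ++ s ++ C).reverse ++ c :: D) =
          [a, b] ++ (A ++ c :: C.reverse) ++ s.reverse ++ (B.reverse ++ c :: D) := by simp
      have e4 : A ++ c :: ((B ++ C).reverse ++ c :: D) =
          (A ++ c :: C.reverse) ++ (B.reverse ++ c :: D) := by simp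
      rw [e3] at g1
      rw [e3, e4]
      exact KQ.two hab (rev_pair hs) ha hb g1
    · have e1 : [a, b] ++ (A ++ c :: (B ++ c :: C)) ++ s ++ V =
          ([a, b] ++ A) ++ c :: (B ++ c :: (C ++ s ++ V)) := by simp
      have e2 : (A ++ c :: (B ++ c :: C)) ++ V = A ++ c :: (B ++ c :: (C ++ V)) := by simp
      have n1 : c ∉ [a, b] ++ A := by simp [hca, hcb, hA]
      rw [e1, flp_split n1 hB] at g1
      rw [e1, e2, flp_split n1 hB, flp_split hA hB]
      have e3 : [a, b] ++ A ++ c :: (B.reverse ++ c :: (C ++ s ++ V)) =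
          [a, b] ++ (A ++ c :: (B.reverse ++ c :: C)) ++ s ++ V := by simp
      have e4 : A ++ c :: (B.reverse ++ c :: (C ++ V)) =
          (A ++ c :: (B.reverse ++ c :: C)) ++ V := by simp
      rw [e3] at g1
      rw [e3, e4]
      exact KQ.two hab hs ha hb g1
  · have n1 : c ∉ [a, b] ++ U ++ s ++ V := by
      rw [List.mem_append, not_or] at hm
      simp [hca, hcb, hm.1, hm.2, hcs]
    rw [flp_none n1, flp_none hm]
    exact KQ.two hab hs ha hb h

/-- statement for a third move -/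
def F3 (K : ℕ → Prop) (c : ℕ) (p q r U V W : List ℕ) : Prop :=
  KQ K (flp c (tw p q r U V W)) (flp c (tw p.reverse q.reverse r.reverse U V W))

lemma F3.rot {K : ℕ → Prop} {c : ℕ} {p q r U V W : List ℕ} (h : F3 K c q r p V W U)
    (hg : Gauss (tw p q r U V W)) (hg' : Gauss (tw p.reverse q.reverse r.reverse U V W)) :
    F3 K c p q r U V W := by
  unfold F3 at h ⊢
  obtain ⟨e1, e2⟩ := tw_rot p q r U V W
  obtain ⟨e3, e4⟩ := tw_rot p.reverse q.reverse r.reverse U V W
  rw [e2, e4] at h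
  rw [e1] at hg
  rw [e3] at hg'
  rw [e1, e3]
  exact (flp_rot hg).trans (h.trans (flp_rot hg').symm)

lemma F3_UU {K : ℕ → Prop} {x y z c : ℕ} {p q r A B C V W : List ℕ} (htr : Tri x y z p q r)
    (hK : ¬ K y ∧ ¬ K z ∨ ¬ K x ∧ ¬ K z ∨ ¬ K x ∧ ¬ K y) (hp : c ∉ p)
    (hA : c ∉ A) (hB : c ∉ B)
    (hg : Gauss (tw p q r (A ++ c :: (B ++ c :: C)) V W)) :
    F3 K c p q r (A ++ c :: (B ++ c :: C)) V W := by
  have e : ∀ p' q' r' : List ℕ, tw p' q' r' (A ++ c :: (B ++ c :: C)) V W =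
      (p' ++ A) ++ c :: (B ++ c :: (C ++ q' ++ V ++ r' ++ W)) := by
    intro p' q' r'
    simp [tw]
  have e2 : ∀ p' q' r' : List ℕ,
      (p' ++ A) ++ c :: (B.reverse ++ c :: (C ++ q' ++ V ++ r' ++ W)) =
      tw p' q' r' (A ++ c :: (B.reverse ++ c :: C)) V W := by
    intro p' q' r'
    simp [tw]
  have n1 : c ∉ p ++ A := by simp [hp, hA]
  have n2 : c ∉ p.reverse ++ A := by simp [hp, hA]
  have g1 := flp_gauss c hg
  unfold F3
  rw [e, flp_split n1 hB, e2] at g1
  rw [e, e, flp_split n1 hB, flp_split n2 hB, e2, e2]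
  exact KQ.three htr hK g1

lemma F3_UV {K : ℕ → Prop} {x y z c : ℕ} {p q r A B C D W : List ℕ} (htr : Tri x y z p q r)
    (hK : ¬ K y ∧ ¬ K z ∨ ¬ K x ∧ ¬ K z ∨ ¬ K x ∧ ¬ K y) (hp : c ∉ p) (hq : c ∉ q)
    (hA : c ∉ A) (hB : c ∉ B) (hC : c ∉ C)
    (hg : Gauss (tw p q r (A ++ c :: B) (C ++ c :: D) W)) :
    F3 K c p q r (A ++ c :: B) (C ++ c :: D) W := by
  have e : ∀ p' q' r' : List ℕ, tw p' q' r' (A ++ c :: B) (C ++ c :: D) W =
      (p' ++ A) ++ c :: ((B ++ q' ++ C) ++ c :: (D ++ r' ++ W)) := by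
    intro p' q' r'
    simp [tw]
  have e2 : ∀ p' q' r' : List ℕ,
      (p' ++ A) ++ c :: ((B ++ q' ++ C).reverse ++ c :: (D ++ r' ++ W)) =
      tw p' q'.reverse r' (A ++ c :: C.reverse) (B.reverse ++ c :: D) W := by
    intro p' q' r'
    simp [tw]
  have n1 : c ∉ p ++ A := by simp [hp, hA]
  have n2 : c ∉ p.reverse ++ A := by simp [hp, hA]
  have m1 : c ∉ B ++ q ++ C := by simp [hB, hq, hC]
  have m2 : c ∉ B ++ q.reverse ++ C := by simp [hB, hq, hC]
  have g1 := flp_gauss c hg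
  unfold F3
  rw [e, flp_split n1 m1, e2] at g1
  rw [e, e, flp_split n1 m1, flp_split n2 m2, e2, e2]
  have htr' : Tri x y z p q.reverse r := by
    refine ⟨htr.hab, htr.hac, htr.hbc, htr.hp, ?_, htr.hr⟩
    rcases htr.hq with rfl | rfl <;> simp
  exact KQ.three htr' hK g1

lemma F3_plain {K : ℕ → Prop} {x y z c : ℕ} {p q r U V W : List ℕ} (htr : Tri x y z p q r)
    (hK : ¬ K y ∧ ¬ K z ∨ ¬ K x ∧ ¬ K z ∨ ¬ K x ∧ ¬ K y)
    (hx : c ≠ x) (hy : c ≠ y) (hz : c ≠ z) (hg : Gauss (tw p q r U V W)) :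
    F3 K c p q r U V W := by
  have hp := nmem_s htr.hp hx hy
  have hq := nmem_s htr.hq hx hz
  have hr := nmem_s htr.hr hy hz
  have hg' : Gauss (tw p.reverse q.reverse r.reverse U V W) := hg.perm (htr.perm U V W)
  have hK' : ¬ K x ∧ ¬ K y ∨ ¬ K z ∧ ¬ K y ∨ ¬ K z ∧ ¬ K x := by
    rcases hK with h | h | h
    · exact Or.inr (Or.inl ⟨h.2, h.1⟩)
    · exact Or.inr (Or.inr ⟨h.2, h.1⟩)
    · exact Or.inl h
  have hK'' : ¬ K z ∧ ¬ K x ∨ ¬ K y ∧ ¬ K x ∨ ¬ K y ∧ ¬ K z := by
    rcases hK with h | h | h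
    · exact Or.inr (Or.inr h)
    · exact Or.inl ⟨h.2, h.1⟩
    · exact Or.inr (Or.inl ⟨h.2, h.1⟩)
  by_cases hm : c ∈ tw p q r U V W
  · have h2 := hg c hm
    have h3 : (U ++ (V ++ W)).count c = 2 := by
      unfold tw at h2
      simp only [List.count_append, List.count_eq_zero.2 hp, List.count_eq_zero.2 hq,
        List.count_eq_zero.2 hr] at h2 ⊢
      omega
    have rot1 : F3 K c q r p V W U → F3 K c p q r U V W := fun h => h.rot hg hg'
    have rot2 : F3 K c r p q W U V → F3 K c p q r U V W := fun h =>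
      rot1 (h.rot (gauss_tw_rot hg) (gauss_tw_rot hg'))
    have gr := gauss_tw_rot hg
    have grr := gauss_tw_rot gr
    rcases two_places h3 with ⟨hU, A, B, C, e1, hA, hB, hC⟩ |
      ⟨A, B, C, D, rfl, e2, hA, hB, hC, hD⟩ | ⟨hVW, A, B, C, rfl, hA, hB, hC⟩
    · have h4 : (V ++ W).count c = 2 := by
        rw [List.count_append] at h3
        rw [List.count_eq_zero.2 hU] at h3
        omega
      rcases two_places h4 with ⟨hV, A, B, C, rfl, hA, hB, hC⟩ |
        ⟨A, B, C, D, rfl, rfl, hA, hB, hC, hD⟩ | ⟨hW, A, B, C, rfl, hA, hB, hC⟩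
      · exact rot2 (F3_UU htr.rot.rot hK'' hr hA hB grr)
      · exact rot1 (F3_UV htr.rot hK' hq hr hA hB hC gr)
      · exact rot1 (F3_UU htr.rot hK' hq hA hB gr)
    · have h5 : c ∈ V ++ W := by
        rw [e2]
        simp
      have h6 : (V ++ W).count c = 1 := by
        rw [e2, List.count_append, List.count_cons_self, List.count_eq_zero.2 hC,
          List.count_eq_zero.2 hD]
      rw [List.count_append] at h6
      by_cases hV : c ∈ V
      · have hV1 : V.count c = 1 := by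
          have := List.count_pos_iff.2 hV
          omega
        obtain ⟨C', D', rfl, hC'⟩ := List.eq_append_cons_of_mem hV
        exact F3_UV htr hK hp hq hA hB hC' hg
      · have hW : c ∈ W := by
          rw [List.mem_append] at h5
          exact h5.resolve_left hV
        obtain ⟨C', D', rfl, hC'⟩ := List.eq_append_cons_of_mem hW
        have hD' : c ∉ D' := by
          rw [List.count_eq_zero.2 hV, List.count_append, List.count_cons_self] at h6
          exact List.count_eq_zero.1 (by omega)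
        exact rot2 (F3_UV htr.rot.rot hK'' hr hp hC' hD' hA grr)
    · exact F3_UU htr hK hp hA hB hg
  · have hm' : c ∉ tw p.reverse q.reverse r.reverse U V W := by
      intro hh
      exact hm ((htr.perm U V W).mem_iff.2 hh)
    unfold F3
    rw [flp_none hm, flp_none hm']
    exact KQ.three htr hK hg

end Pool.Agent.Run7.h906
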