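import Mathlib
import Pool.Agent.Run7.h906.SmooF

set_option linter.unusedSimpArgs false

namespace Pool.Agent.Run7.h906

lemma lnk_iff {c d : ℕ} {w : List ℕ} : lnk c d w = true ↔
    (w.filter (fun x => x == c || x == d) = [c, d, c, d] ∨
      w.filter (fun x => x == c || x == d) = [d, c, d, c]) := by
  unfold lnk
  rw [decide_eq_true_eq]

lemma filt4 {w : List ℕ} {c d a1 a2 : ℕ}
    (h : w.filter (fun x => x == c || x == d) = [a1, a2, a1, a2]) :
    ∃ A B C D E, w = A ++ a1 :: (B ++ a2 :: (C ++ a1 :: (D ++ a2 :: E))) ∧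
      (∀ X ∈ [A, B, C, D, E], c ∉ X ∧ d ∉ X) := by
  rw [List.filter_eq_cons_iff] at h
  obtain ⟨A, R, rfl, hA, _, h⟩ := h
  rw [List.filter_eq_cons_iff] at h
  obtain ⟨B, R, rfl, hB, _, h⟩ := h
  rw [List.filter_eq_cons_iff] at h
  obtain ⟨C, R, rfl, hC, _, h⟩ := h
  rw [List.filter_eq_cons_iff] at h
  obtain ⟨D, E, rfl, hD, _, h⟩ := h
  rw [List.filter_eq_nil_iff] at h
  have key : ∀ X : List ℕ, (∀ x ∈ X, ¬ (x == c || x == d) = true) → c ∉ X ∧ d ∉ X := by
    intro X hX
    constructor
    · intro hc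
      exact hX c hc (by simp)
    · intro hd
      exact hX d hd (by simp)
  refine ⟨A, B, C, D, E, rfl, ?_⟩
  intro X hX
  simp only [List.mem_cons, List.not_mem_nil, or_false] at hX
  rcases hX with rfl | rfl | rfl | rfl | rfl
  · exact key _ hA
  · exact key _ hB
  · exact key _ hC
  · exact key _ hD
  · exact key _ h

lemma prs_val1 {c d : ℕ} {A B C D E : List ℕ} (hcd : c ≠ d)
    (h : ∀ X ∈ [A, B, C, D, E], c ∉ X ∧ d ∉ X) :
    sml c (sml d (flp c (A ++ c :: (B ++ d :: (C ++ c :: (D ++ d :: E)))))) =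
      A ++ D ++ C ++ B ++ E := by
  obtain ⟨cA, dA⟩ := h A (by simp)
  obtain ⟨cB, dB⟩ := h B (by simp)
  obtain ⟨cC, dC⟩ := h C (by simp)
  obtain ⟨cD, dD⟩ := h D (by simp)
  obtain ⟨cE, dE⟩ := h E (by simp)
  have e1 : A ++ c :: (B ++ d :: (C ++ c :: (D ++ d :: E))) =
      A ++ c :: ((B ++ d :: C) ++ c :: (D ++ d :: E)) := by simp
  have n1 : c ∉ B ++ d :: C := by simp [cB, cC, hcd]
  rw [e1, flp_split cA n1]
  have e2 : A ++ c :: ((B ++ d :: C).reverse ++ c :: (D ++ d :: E)) =
      (A ++ c :: C.reverse) ++ d :: ((B.reverse ++ c :: D) ++ d :: E) := by simp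
  have n2 : d ∉ A ++ c :: C.reverse := by simp [dA, dC, hcd.symm]
  have n3 : d ∉ B.reverse ++ c :: D := by simp [dB, dD, hcd.symm]
  rw [e2, sml_split n2 n3]
  have e3 : A ++ c :: C.reverse ++ (B.reverse ++ c :: D).reverse ++ E =
      A ++ c :: ((C.reverse ++ D.reverse) ++ c :: (B ++ E)) := by simp
  have n4 : c ∉ C.reverse ++ D.reverse := by simp [cC, cD]
  rw [e3, sml_split cA n4]
  simp

lemma prs_val2 {c d : ℕ} {A B C D E : List ℕ} (hcd : c ≠ d)
    (h : ∀ X ∈ [A, B, C, D, E], c ∉ X ∧ d ∉ X) :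
    sml c (sml d (flp c (A ++ d :: (B ++ c :: (C ++ d :: (D ++ c :: E)))))) =
      A ++ D ++ C ++ B ++ E := by
  obtain ⟨cA, dA⟩ := h A (by simp)
  obtain ⟨cB, dB⟩ := h B (by simp)
  obtain ⟨cC, dC⟩ := h C (by simp)
  obtain ⟨cD, dD⟩ := h D (by simp)
  obtain ⟨cE, dE⟩ := h E (by simp)
  have e1 : A ++ d :: (B ++ c :: (C ++ d :: (D ++ c :: E))) =
      (A ++ d :: B) ++ c :: ((C ++ d :: D) ++ c :: E) := by simp
  have n0 : c ∉ A ++ d :: B := by simp [cA, cB, hcd]
  have n1 : c ∉ C ++ d :: D := by simp [cC, cD, hcd]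
  rw [e1, flp_split n0 n1]
  have e2 : A ++ d :: B ++ c :: ((C ++ d :: D).reverse ++ c :: E) =
      A ++ d :: ((B ++ c :: D.reverse) ++ d :: (C.reverse ++ c :: E)) := by simp
  have n3 : d ∉ B ++ c :: D.reverse := by simp [dB, dD, hcd.symm]
  rw [e2, sml_split dA n3]
  have e3 : A ++ (B ++ c :: D.reverse).reverse ++ (C.reverse ++ c :: E) =
      (A ++ D) ++ c :: ((B.reverse ++ C.reverse) ++ c :: E) := by simp
  have n4 : c ∉ A ++ D := by simp [cA, cD]
  have n5 : c ∉ B.reverse ++ C.reverse := by simp [cB, cC]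
  rw [e3, sml_split n4 n5]
  simp

/-- linked letters in a word -/
lemma lnk_split {c d : ℕ} {w : List ℕ} (h : lnk c d w = true) :
    ∃ A B C D E, (w = A ++ c :: (B ++ d :: (C ++ c :: (D ++ d :: E))) ∨
      w = A ++ d :: (B ++ c :: (C ++ d :: (D ++ c :: E)))) ∧
      (∀ X ∈ [A, B, C, D, E], c ∉ X ∧ d ∉ X) := by
  rw [lnk_iff] at h
  rcases h with h | h
  · obtain ⟨A, B, C, D, E, h1, h2⟩ := filt4 h
    exact ⟨A, B, C, D, E, Or.inl h1, h2⟩
  · obtain ⟨A, B, C, D, E, h1, h2⟩ := filt4 h
    exact ⟨A, B, C, D, E, Or.inr h1, h2⟩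

lemma prs_comm {c d : ℕ} {w : List ℕ} (hcd : c ≠ d) (h : lnk c d w = true) :
    sml c (sml d (flp c w)) = sml d (sml c (flp d w)) := by
  obtain ⟨A, B, C, D, E, h1, h2⟩ := lnk_split h
  have h2' : ∀ X ∈ [A, B, C, D, E], d ∉ X ∧ c ∉ X := fun X hX => ⟨(h2 X hX).2, (h2 X hX).1⟩
  rcases h1 with rfl | rfl
  · rw [prs_val1 hcd h2, prs_val2 hcd.symm h2']
  · rw [prs_val2 hcd h2, prs_val1 hcd.symm h2']

lemma rot4 {a b : ℕ} {u v : List ℕ} (h : u ++ v = [a, b, a, b]) :
    v ++ u = [a, b, a, b] ∨ v ++ u = [b, a, b, a] := by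
  rcases u with _ | ⟨x1, _ | ⟨x2, _ | ⟨x3, _ | ⟨x4, t⟩⟩⟩⟩
  · left; simpa using h
  · right
    simp only [List.cons_append, List.nil_append, List.cons.injEq] at h
    obtain ⟨rfl, rfl⟩ := h
    simp
  · left
    simp only [List.cons_append, List.nil_append, List.cons.injEq] at h
    obtain ⟨rfl, rfl, rfl⟩ := h
    simp
  · right
    simp only [List.cons_append, List.nil_append, List.cons.injEq] at h
    obtain ⟨rfl, rfl, rfl, rfl⟩ := h
    simp
  · left
    simp only [List.cons_append, List.nil_append, List.cons.injEq] at h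
    obtain ⟨rfl, rfl, rfl, rfl, ht⟩ := h
    rw [List.append_eq_nil_iff] at ht
    obtain ⟨rfl, rfl⟩ := ht
    simp

lemma lnk_rot {c d : ℕ} {u v : List ℕ} (h : lnk c d (u ++ v) = true) :
    lnk c d (v ++ u) = true := by
  rw [lnk_iff] at h ⊢
  rw [List.filter_append] at h ⊢
  rcases h with h | h
  · exact rot4 h
  · exact (rot4 h).symm

lemma lnk_rev {c d : ℕ} {w : List ℕ} (h : lnk c d w = true) : lnk c d w.reverse = true := by
  rw [lnk_iff] at h ⊢
  rw [List.filter_reverse]
  rcases h with h | h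
  · right; rw [h]; simp
  · left; rw [h]; simp

lemma lnk_congr {c d : ℕ} {x y : List ℕ}
    (h : x.filter (fun x => x == c || x == d) = y.filter (fun x => x == c || x == d)) :
    lnk c d x = lnk c d y := by
  unfold lnk
  rw [h]

lemma lnk_map (σ : Equiv.Perm ℕ) (c d : ℕ) (w : List ℕ) :
    lnk (σ c) (σ d) (w.map σ) = lnk c d w := by
  have h1 : (w.map σ).filter (fun x => x == σ c || x == σ d) =
      (w.filter (fun x => x == c || x == d)).map σ := by
    rw [List.filter_map]
    congr 1
    apply List.filter_congr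
    intro x _
    simp only [Function.comp_apply]
    have e1 : (σ x == σ c) = (x == c) := by
      rw [Bool.eq_iff_iff]
      simp
    have e2 : (σ x == σ d) = (x == d) := by
      rw [Bool.eq_iff_iff]
      simp
    rw [e1, e2]
  have hi : Function.Injective (List.map σ) := List.map_injective_iff.2 σ.injective
  have h2 : ∀ L : List ℕ, (L.map σ = [σ c, σ d, σ c, σ d]) ↔ L = [c, d, c, d] := by
    intro L
    have : [σ c, σ d, σ c, σ d] = [c, d, c, d].map σ := by simp
    rw [this]
    exact hi.eq_iff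
  have h3 : ∀ L : List ℕ, (L.map σ = [σ d, σ c, σ d, σ c]) ↔ L = [d, c, d, c] := by
    intro L
    have : [σ d, σ c, σ d, σ c] = [d, c, d, c].map σ := by simp
    rw [this]
    exact hi.eq_iff
  unfold lnk
  rw [h1]
  apply decide_eq_decide.2
  rw [h2, h3]

lemma rev_short {f : ℕ → Bool} {p : List ℕ} (h : (p.filter f).length ≤ 1) :
    p.reverse.filter f = p.filter f := by
  rw [List.filter_reverse]
  rcases hp : p.filter f with _ | ⟨x, _ | ⟨y, t⟩⟩
  · rfl
  · rfl
  · rw [hp] at h
    simp only [List.length_cons] at h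
    omega

lemma filt_pair {a b c d : ℕ} {p : List ℕ} (hp : p = [a, b] ∨ p = [b, a])
    (h : (a ≠ c ∧ a ≠ d) ∨ (b ≠ c ∧ b ≠ d)) :
    (p.filter (fun x => x == c || x == d)).length ≤ 1 := by
  have key : ∀ u v : ℕ, (u ≠ c ∧ u ≠ d) ∨ (v ≠ c ∧ v ≠ d) →
      ([u, v].filter (fun x => x == c || x == d)).length ≤ 1 := by
    intro u v huv
    rcases huv with ⟨h1, h2⟩ | ⟨h1, h2⟩
    · have hu : (u == c || u == d) = false := by simp [h1, h2]
      rw [List.filter_cons_of_neg (by simp [hu])]
      exact (List.length_filter_le _ _).trans (by simp)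
    · have hv : [v].filter (fun x => x == c || x == d) = [] := by
        simp [List.filter_cons, h1, h2]
      have e : [u, v] = [u] ++ [v] := rfl
      rw [e, List.filter_append, hv, List.append_nil]
      exact (List.length_filter_le _ _).trans (by simp)
  rcases hp with rfl | rfl
  · exact key _ _ h
  · exact key _ _ h.symm

lemma lnk_KS {K : ℕ → Prop} {c d : ℕ} {x y : List ℕ} (hc : K c) (hd : K d)
    (h : KS K x y) : lnk c d x = lnk c d y := by
  obtain ⟨hx, hy, h⟩ := h
  rcases h with ⟨U, V, rfl, rfl⟩ | rfl | ⟨a, b, ha, hb, rfl⟩ |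
    ⟨a, b, s, U, V, hab, hs, ha, hb, rfl, rfl⟩ |
    ⟨a, b, c', p, q, r, U, V, W, htr, hK, rfl, rfl⟩
  · rw [Bool.eq_iff_iff]
    exact ⟨lnk_rot, lnk_rot⟩
  · rw [Bool.eq_iff_iff]
    refine ⟨lnk_rev, fun h => ?_⟩
    have := lnk_rev h
    rwa [List.reverse_reverse] at this
  · have hca : c ≠ a := by rintro rfl; exact ha hc
    have hcb : c ≠ b := by rintro rfl; exact hb hc
    have hda : d ≠ a := by rintro rfl; exact ha hd
    have hdb : d ≠ b := by rintro rfl; exact hb hd
    have e := lnk_map (Equiv.swap a b) c d x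
    rw [Equiv.swap_apply_of_ne_of_ne hca hcb, Equiv.swap_apply_of_ne_of_ne hda hdb] at e
    exact e.symm
  · have hca : a ≠ c := by rintro rfl; exact ha hc
    have hcb : b ≠ c := by rintro rfl; exact hb hc
    have hda : a ≠ d := by rintro rfl; exact ha hd
    have hdb : b ≠ d := by rintro rfl; exact hb hd
    apply lnk_congr
    have e1 : [a, b].filter (fun x => x == c || x == d) = [] := by
      simp [List.filter_cons, hca, hcb, hda, hdb]
    have e2 : s.filter (fun x => x == c || x == d) = [] := by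
      rcases hs with rfl | rfl <;> simp [List.filter_cons, hca, hcb, hda, hdb]
    simp only [List.filter_append, e1, e2, List.nil_append, List.append_nil]
  · have ne : ∀ z, ¬ K z → z ≠ c ∧ z ≠ d := by
      intro z hz
      exact ⟨by rintro rfl; exact hz hc, by rintro rfl; exact hz hd⟩
    have h1 : (a ≠ c ∧ a ≠ d) ∨ (b ≠ c ∧ b ≠ d) := by
      rcases hK with h | h | h
      · exact Or.inr (ne _ h.1)
      · exact Or.inl (ne _ h.1)
      · exact Or.inl (ne _ h.1)
    have h2 : (a ≠ c ∧ a ≠ d) ∨ (c' ≠ c ∧ c' ≠ d) := by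
      rcases hK with h | h | h
      · exact Or.inr (ne _ h.2)
      · exact Or.inl (ne _ h.1)
      · exact Or.inl (ne _ h.1)
    have h3 : (b ≠ c ∧ b ≠ d) ∨ (c' ≠ c ∧ c' ≠ d) := by
      rcases hK with h | h | h
      · exact Or.inl (ne _ h.1)
      · exact Or.inr (ne _ h.2)
      · exact Or.inl (ne _ h.2)
    apply lnk_congr
    rw [filter_tw, filter_tw, rev_short (filt_pair htr.hp h1), rev_short (filt_pair htr.hq h2),
      rev_short (filt_pair htr.hr h3)]

lemma KQ_prs {K : ℕ → Prop} {c d : ℕ} (hcd : c ≠ d) (hc : K c) (hd : K d) {x y : List ℕ}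
    (h : KQ K x y) : KQ K (prs c d x) (prs c d y) := by
  induction h with
  | rel x y h =>
    have hl := lnk_KS hc hd h
    unfold prs
    rw [← hl]
    by_cases hlk : lnk c d x = true
    · rw [if_pos hlk, if_pos hlk]
      obtain ⟨hx, hy, h'⟩ := h
      rcases h' with ⟨U, V, rfl, rfl⟩ | rfl | ⟨a, b, ha, hb, rfl⟩ |
        ⟨a, b, s, U, V, hab, hs, ha, hb, rfl, rfl⟩ |
        ⟨a, b, c', p, q, r, U, V, W, htr, hK, rfl, rfl⟩
      · exact KQ_sml hc (KQ_sml hd (flp_rot hx))
      · apply KQ_sml hc
        apply KQ_sml hd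
        rw [flp_reverse hx]
        exact KQ.rev (flp_gauss c hx)
      · have hca : c ≠ a := by rintro rfl; exact ha hc
        have hcb : c ≠ b := by rintro rfl; exact hb hc
        apply KQ_sml hc
        apply KQ_sml hd
        have e := flp_map (Equiv.swap a b) c hx
        rw [Equiv.swap_apply_of_ne_of_ne hca hcb] at e
        rw [e]
        exact KQ.swap (flp_gauss c hx) ha hb
      · exact KQ_sml hc (KQ_sml hd (flp_two hab hs ha hb hc hx))
      · by_cases hin : c = a ∨ c = b ∨ c = c'
        · -- then d is not one of the three letters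
          have hda : d ≠ a := by
            rintro rfl
            rcases hin with h1 | h1 | h1
            · exact hcd h1
            · subst h1
              rcases hK with h | h | h
              · exact h.1 hc
              · exact h.1 hd
              · exact h.1 hd
            · subst h1
              rcases hK with h | h | h
              · exact h.2 hc
              · exact h.1 hd
              · exact h.1 hd
          have hdb : d ≠ b := by
            rintro rfl
            rcases hin with h1 | h1 | h1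
            · subst h1
              rcases hK with h | h | h
              · exact h.1 hd
              · exact h.1 hc
              · exact h.1 hc
            · exact hcd h1
            · subst h1
              rcases hK with h | h | h
              · exact h.2 hc
              · exact h.2 hc
              · exact h.2 hd
          have hdc : d ≠ c' := by
            rintro rfl
            rcases hin with h1 | h1 | h1
            · subst h1
              rcases hK with h | h | h
              · exact h.2 hd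
              · exact h.1 hc
              · exact h.1 hc
            · subst h1
              rcases hK with h | h | h
              · exact h.1 hc
              · exact h.2 hd
              · exact h.2 hc
            · exact hcd h1
          rw [prs_comm hcd hlk, prs_comm hcd (hl ▸ hlk)]
          exact KQ_sml hd (KQ_sml hc (F3_plain htr hK hda hdb hdc hx))
        · push Not at hin
          exact KQ_sml hc (KQ_sml hd (F3_plain htr hK hin.1 hin.2.1 hin.2.2 hx))
    · rw [if_neg hlk, if_neg hlk]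
      exact Relation.EqvGen.rel _ _ h
  | refl x => exact KQ.refl _
  | symm x y _ ih => exact ih.symm
  | trans x y z _ _ ih1 ih2 => exact ih1.trans ih2

lemma KQ_act {K : ℕ → Prop} {o : ℕ × ℕ} (hc : K o.1) (hd : K o.2) {x y : List ℕ}
    (h : KQ K x y) : KQ K (act o x) (act o y) := by
  unfold act
  by_cases e : o.1 = o.2
  · rw [if_pos e, if_pos e]
    exact KQ_sml hc h
  · rw [if_neg e, if_neg e]
    exact KQ_prs e hc hd h

lemma KQ_acts {K : ℕ → Prop} {os : List (ℕ × ℕ)} (hc : ∀ o ∈ os, K o.1 ∧ K o.2)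
    {x y : List ℕ} (h : KQ K x y) : KQ K (acts os x) (acts os y) := by
  induction os generalizing x y with
  | nil => exact h
  | cons o os ih =>
    have h1 := hc o List.mem_cons_self
    exact ih (fun d hd => hc d (List.mem_cons_of_mem _ hd)) (KQ_act h1.1 h1.2 h)

end Pool.Agent.Run7.h906
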