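import Mathlib
import Pool.Agent.Run7.h906.SmooG

set_option linter.unusedSimpArgs false

namespace Pool.Agent.Run7.h906

lemma prs_gauss {w : List ℕ} (c d : ℕ) (h : Gauss w) : Gauss (prs c d w) := by
  unfold prs
  split_ifs
  · exact sml_gauss c (sml_gauss d (flp_gauss c h))
  · exact h

lemma act_gauss {w : List ℕ} (o : ℕ × ℕ) (h : Gauss w) : Gauss (act o w) := by
  unfold act
  split_ifs
  · exact sml_gauss _ h
  · exact prs_gauss _ _ h

lemma acts_gauss (os : List (ℕ × ℕ)) {w : List ℕ} (h : Gauss w) : Gauss (acts os w) := by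
  induction os generalizing w with
  | nil => exact h
  | cons o os ih => exact ih (act_gauss o h)

lemma evn_prs {a c d : ℕ} {A B C D E : List ℕ} (hac : a ≠ c) (had : a ≠ d)
    (h1 : (B.length + C.length) % 2 = 1) (h2 : (C.length + D.length) % 2 = 1) :
    evn (A ++ D ++ C ++ B ++ E) a =
      evn (A ++ c :: (B ++ d :: (C ++ c :: (D ++ d :: E)))) a := by
  have ncons : ∀ X : List ℕ, (c :: X).count a = X.count a := fun X =>
    List.count_cons_of_ne hac.symm
  have ncons' : ∀ X : List ℕ, (d :: X).count a = X.count a := fun X =>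
    List.count_cons_of_ne had.symm
  have pcons : ∀ (b : ℕ) (X : List ℕ), ps a (b :: X) = ps a X + X.count a := fun _ _ => rfl
  have e1 : ps a (A ++ D ++ C ++ B ++ E) = ps a A + ps a D + A.length * D.count a +
      ps a C + (A.length + D.length) * C.count a +
      ps a B + (A.length + D.length + C.length) * B.count a +
      ps a E + (A.length + D.length + C.length + B.length) * E.count a := by
    simp only [ps_append, List.length_append]
  have e2 : ps a (A ++ c :: (B ++ d :: (C ++ c :: (D ++ d :: E)))) =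
      ps a A + (ps a B + (A.length + 1) * B.count a) +
      (ps a C + (A.length + B.length + 2) * C.count a) +
      (ps a D + (A.length + B.length + C.length + 3) * D.count a) +
      (ps a E + (A.length + B.length + C.length + D.length + 4) * E.count a) := by
    simp only [ps_append, pcons, ncons, ncons', List.count_append]
    ring
  have k1 : ((B.length : ℕ) : ZMod 2) = C.length + 1 := by
    have : B.length % 2 = (C.length + 1) % 2 := by omega
    have h := (ZMod.natCast_eq_natCast_iff' B.length (C.length + 1) 2).2 this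
    push_cast at h
    exact h
  have k2 : ((D.length : ℕ) : ZMod 2) = C.length + 1 := by
    have : D.length % 2 = (C.length + 1) % 2 := by omega
    have h := (ZMod.natCast_eq_natCast_iff' D.length (C.length + 1) 2).2 this
    push_cast at h
    exact h
  have htwo : (2 : ZMod 2) = 0 := by decide
  have key : ((ps a (A ++ D ++ C ++ B ++ E) : ℕ) : ZMod 2) =
      ((ps a (A ++ c :: (B ++ d :: (C ++ c :: (D ++ d :: E)))) : ℕ) : ZMod 2) := by
    rw [e1, e2]
    push_cast
    rw [k1, k2]
    linear_combination (((C.length : ℕ) : ZMod 2) * (B.count a : ZMod 2) - (C.count a : ZMod 2) -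
      ((C.length : ℕ) + 2) * (D.count a : ZMod 2) - 2 * (E.count a : ZMod 2)) * htwo
  have key2 := (ZMod.natCast_eq_natCast_iff' _ _ 2).1 key
  unfold evn
  rw [key2]

lemma strip_prs_aux {c d : ℕ} {A B C D E : List ℕ} (hcd : c ≠ d)
    (hg : Gauss (A ++ c :: (B ++ d :: (C ++ c :: (D ++ d :: E)))))
    (hf : ∀ X ∈ [A, B, C, D, E], c ∉ X ∧ d ∉ X)
    (hc : c ∈ strip (A ++ c :: (B ++ d :: (C ++ c :: (D ++ d :: E)))))
    (hd : d ∈ strip (A ++ c :: (B ++ d :: (C ++ c :: (D ++ d :: E))))) :
    strip (A ++ D ++ C ++ B ++ E) =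
      sml c (sml d (flp c (strip (A ++ c :: (B ++ d :: (C ++ c :: (D ++ d :: E))))))) := by
  obtain ⟨cA, dA⟩ := hf A (by simp)
  obtain ⟨cB, dB⟩ := hf B (by simp)
  obtain ⟨cC, dC⟩ := hf C (by simp)
  obtain ⟨cD, dD⟩ := hf D (by simp)
  obtain ⟨cE, dE⟩ := hf E (by simp)
  have hval := prs_val1 hcd hf
  have hg' : Gauss (A ++ D ++ C ++ B ++ E) := by
    rw [← hval]
    exact sml_gauss c (sml_gauss d (flp_gauss c hg))
  have l1 : (B.length + C.length) % 2 = 1 := by
    have e1 : A ++ c :: (B ++ d :: (C ++ c :: (D ++ d :: E))) =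
        A ++ c :: ((B ++ d :: C) ++ c :: (D ++ d :: E)) := by simp
    have n1 : c ∉ B ++ d :: C := by simp [cB, cC, hcd]
    rw [e1] at hc
    have := even_of_strip cA n1 hc
    simp only [List.length_append, List.length_cons] at this
    omega
  have l2 : (C.length + D.length) % 2 = 1 := by
    have e1 : A ++ c :: (B ++ d :: (C ++ c :: (D ++ d :: E))) =
        (A ++ c :: B) ++ d :: ((C ++ c :: D) ++ d :: E) := by simp
    have n0 : d ∉ A ++ c :: B := by simp [dA, dB, hcd.symm]
    have n1 : d ∉ C ++ c :: D := by simp [dC, dD, hcd.symm]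
    rw [e1] at hd
    have := even_of_strip n0 n1 hd
    simp only [List.length_append, List.length_cons] at this
    omega
  rw [strip_eq hg] at hc hd
  have hce := (List.mem_filter.1 hc).2
  have hde := (List.mem_filter.1 hd).2
  rw [strip_eq hg', strip_eq hg]
  set f := evn (A ++ c :: (B ++ d :: (C ++ c :: (D ++ d :: E)))) with hfd
  have e1 : (A ++ D ++ C ++ B ++ E).filter (evn (A ++ D ++ C ++ B ++ E)) =
      (A ++ D ++ C ++ B ++ E).filter f := by
    apply List.filter_congr
    intro a ha
    apply evn_prs _ _ l1 l2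
    · rintro rfl
      simp [cA, cB, cC, cD, cE] at ha
    · rintro rfl
      simp [dA, dB, dC, dD, dE] at ha
  have e2 : (A ++ c :: (B ++ d :: (C ++ c :: (D ++ d :: E)))).filter f =
      A.filter f ++ c :: (B.filter f ++ d :: (C.filter f ++ c :: (D.filter f ++
        d :: E.filter f))) := by
    rw [List.filter_append, List.filter_cons_of_pos hce, List.filter_append,
      List.filter_cons_of_pos hde, List.filter_append, List.filter_cons_of_pos hce,
      List.filter_append, List.filter_cons_of_pos hde]
  have hf' : ∀ X ∈ [A.filter f, B.filter f, C.filter f, D.filter f, E.filter f],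
      c ∉ X ∧ d ∉ X := by
    intro X hX
    simp only [List.mem_cons, List.not_mem_nil, or_false] at hX
    rcases hX with rfl | rfl | rfl | rfl | rfl
    · exact ⟨fun h => cA (List.mem_filter.1 h).1, fun h => dA (List.mem_filter.1 h).1⟩
    · exact ⟨fun h => cB (List.mem_filter.1 h).1, fun h => dB (List.mem_filter.1 h).1⟩
    · exact ⟨fun h => cC (List.mem_filter.1 h).1, fun h => dC (List.mem_filter.1 h).1⟩
    · exact ⟨fun h => cD (List.mem_filter.1 h).1, fun h => dD (List.mem_filter.1 h).1⟩
    · exact ⟨fun h => cE (List.mem_filter.1 h).1, fun h => dE (List.mem_filter.1 h).1⟩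
  rw [e1, e2, prs_val1 hcd hf']
  simp only [List.filter_append]

lemma lnk_strip {c d : ℕ} {w : List ℕ} (hg : Gauss w) (hc : c ∈ strip w) (hd : d ∈ strip w) :
    lnk c d (strip w) = lnk c d w := by
  apply lnk_congr
  rw [strip_eq hg] at hc hd ⊢
  have hce := (List.mem_filter.1 hc).2
  have hde := (List.mem_filter.1 hd).2
  rw [List.filter_filter]
  apply List.filter_congr
  intro x _
  by_cases h1 : x = c
  · subst h1; simp [hce]
  by_cases h2 : x = d
  · subst h2; simp [hde]
  have : (x == c || x == d) = false := by simp [h1, h2]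
  rw [this]
  rfl

lemma strip_prs {c d : ℕ} {w : List ℕ} (hcd : c ≠ d) (hg : Gauss w) (hc : c ∈ strip w)
    (hd : d ∈ strip w) : strip (prs c d w) = prs c d (strip w) := by
  unfold prs
  rw [lnk_strip hg hc hd]
  by_cases hl : lnk c d w = true
  · rw [if_pos hl, if_pos hl]
    have hl' : lnk c d (strip w) = true := by rw [lnk_strip hg hc hd]; exact hl
    obtain ⟨A, B, C, D, E, h1, h2⟩ := lnk_split hl
    have h2' : ∀ X ∈ [A, B, C, D, E], d ∉ X ∧ c ∉ X := fun X hX => ⟨(h2 X hX).2, (h2 X hX).1⟩
    rcases h1 with rfl | rfl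
    · rw [prs_val1 hcd h2]
      exact strip_prs_aux hcd hg h2 hc hd
    · rw [prs_val2 hcd h2, prs_comm hcd hl']
      exact strip_prs_aux hcd.symm hg h2' hd hc
  · rw [if_neg hl, if_neg hl]

lemma strip_act {o : ℕ × ℕ} {w : List ℕ} (hg : Gauss w) (hc : o.1 ∈ strip w)
    (hd : o.2 ∈ strip w) : strip (act o w) = act o (strip w) := by
  unfold act
  by_cases e : o.1 = o.2
  · rw [if_pos e, if_pos e]
    exact strip_sml hg hc
  · rw [if_neg e, if_neg e]
    exact strip_prs e hg hc hd

lemma iter_act (g : ℕ) {o : ℕ × ℕ} {w : List ℕ} (hg : Gauss w) (hc : o.1 ∈ strip^[g] w)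
    (hd : o.2 ∈ strip^[g] w) : strip^[g] (act o w) = act o (strip^[g] w) := by
  induction g generalizing w with
  | zero => rfl
  | succ g ih =>
    rw [Function.iterate_succ_apply] at hc hd ⊢
    rw [Function.iterate_succ_apply]
    rw [strip_act hg (iter_sub g _ hc) (iter_sub g _ hd)]
    exact ih hg.strip hc hd

lemma lnk_mem {c d : ℕ} {w : List ℕ} (h : lnk c d w = true) : c ∈ w ∧ d ∈ w := by
  obtain ⟨A, B, C, D, E, h1, _⟩ := lnk_split h
  rcases h1 with rfl | rfl <;> simp

lemma act_none {o : ℕ × ℕ} {w : List ℕ} (h : o.1 ∉ w ∨ o.2 ∉ w) : act o w = w := by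
  unfold act
  by_cases e : o.1 = o.2
  · rw [if_pos e]
    apply sml_none
    rcases h with h | h
    · exact h
    · rw [e]; exact h
  · rw [if_neg e]
    unfold prs
    rw [if_neg]
    intro hl
    have := lnk_mem hl
    rcases h with h | h
    · exact h this.1
    · exact h this.2

/-- a letter of the core or of no importance -/
def InC (g : ℕ) (w : List ℕ) (c : ℕ) : Prop := c ∈ strip^[g] w ∨ c ∉ w

lemma act_mem {o : ℕ × ℕ} {w : List ℕ} (hg : Gauss w) {a : ℕ} :
    a ∈ act o w → a ∈ w := by
  intro h
  unfold act at h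
  split_ifs at h with e
  · exact ((mem_sml hg).1 h).1
  · unfold prs at h
    split_ifs at h with hl
    · rw [mem_sml (sml_gauss _ (flp_gauss _ hg)), mem_sml (flp_gauss _ hg),
        (flp_perm hg).mem_iff] at h
      exact h.1.1
    · exact h

lemma lnk_iter {g c d : ℕ} {w : List ℕ} (k1 : c ∈ strip^[g] w) (k2 : d ∈ strip^[g] w) :
    lnk c d (strip^[g] w) = lnk c d w := by
  apply lnk_congr
  obtain ⟨f, hf⟩ := iter_filter g w
  rw [hf] at k1 k2 ⊢
  have hce := (List.mem_filter.1 k1).2
  have hde := (List.mem_filter.1 k2).2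
  rw [List.filter_filter]
  apply List.filter_congr
  intro x _
  by_cases h1 : x = c
  · subst h1; simp [hce]
  by_cases h2 : x = d
  · subst h2; simp [hde]
  have : (x == c || x == d) = false := by simp [h1, h2]
  rw [this]
  rfl

/-- a core letter stays in the core or disappears from the word -/
lemma act_inC {g : ℕ} {o : ℕ × ℕ} {w : List ℕ} (hg : Gauss w) (h1 : InC g w o.1)
    (h2 : InC g w o.2) {a : ℕ} (ha : InC g w a) : InC g (act o w) a := by
  unfold InC at *
  by_cases hn : o.1 ∉ w ∨ o.2 ∉ w
  · rw [act_none hn]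
    exact ha
  push Not at hn
  have k1 : o.1 ∈ strip^[g] w := h1.resolve_right (fun h => h hn.1)
  have k2 : o.2 ∈ strip^[g] w := h2.resolve_right (fun h => h hn.2)
  rcases ha with ha | ha
  · rw [iter_act g hg k1 k2]
    by_cases hin : a ∈ act o w
    · left
      unfold act at hin ⊢
      split_ifs at hin ⊢ with e
      · exact (mem_sml (hg.iter g)).2 ⟨ha, ((mem_sml hg).1 hin).2⟩
      · unfold prs at hin ⊢
        rw [lnk_iter k1 k2]
        split_ifs at hin ⊢ with hl
        · rw [mem_sml (sml_gauss _ (flp_gauss _ hg)), mem_sml (flp_gauss _ hg),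
            (flp_perm hg).mem_iff] at hin
          rw [mem_sml (sml_gauss _ (flp_gauss _ (hg.iter g))),
            mem_sml (flp_gauss _ (hg.iter g)), (flp_perm (hg.iter g)).mem_iff]
          exact ⟨⟨ha, hin.1.2⟩, hin.2⟩
        · exact ha
    · right
      exact hin
  · right
    exact fun h => ha (act_mem hg h)

lemma iter_acts (g : ℕ) {os : List (ℕ × ℕ)} {w : List ℕ} (hg : Gauss w)
    (hc : ∀ o ∈ os, InC g w o.1 ∧ InC g w o.2) :
    strip^[g] (acts os w) = acts os (strip^[g] w) := by
  induction os generalizing w with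
  | nil => rfl
  | cons o os ih =>
    unfold acts
    obtain ⟨h1, h2⟩ := hc o List.mem_cons_self
    have h3 : strip^[g] (act o w) = act o (strip^[g] w) := by
      by_cases hn : o.1 ∉ w ∨ o.2 ∉ w
      · rw [act_none hn, act_none]
        rcases hn with hn | hn
        · exact Or.inl (fun h => hn (iter_sub g w h))
        · exact Or.inr (fun h => hn (iter_sub g w h))
      · push Not at hn
        exact iter_act g hg (h1.resolve_right (fun h => h hn.1))
          (h2.resolve_right (fun h => h hn.2))
    rw [← h3]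
    apply ih (act_gauss o hg)
    intro o' ho'
    obtain ⟨h4, h5⟩ := hc o' (List.mem_cons_of_mem _ ho')
    exact ⟨act_inC hg h1 h2 h4, act_inC hg h1 h2 h5⟩

end Pool.Agent.Run7.h906
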