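import Mathlib
import Pool.Agent.Run7.h906.SmooH
import Pool.Agent.Run7.h906.CertDefs
import Pool.Agent.Run7.h906.BlockL

set_option linter.unusedSimpArgs false

namespace Pool.Agent.Run7.h906

lemma prs_map (σ : Equiv.Perm ℕ) (c d : ℕ) {w : List ℕ} (hg : Gauss w) :
    prs (σ c) (σ d) (w.map σ) = (prs c d w).map σ := by
  unfold prs
  rw [lnk_map]
  split_ifs
  · rw [flp_map σ c hg, sml_map σ d (flp_gauss c hg), sml_map σ c (sml_gauss d (flp_gauss c hg))]
  · rfl

lemma act_map (σ : Equiv.Perm ℕ) (o : ℕ × ℕ) {w : List ℕ} (hg : Gauss w) :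
    act (σ o.1, σ o.2) (w.map σ) = (act o w).map σ := by
  unfold act
  by_cases e : o.1 = o.2
  · have e' : σ o.1 = σ o.2 := by rw [e]
    rw [if_pos e, if_pos e']
    exact sml_map σ o.1 hg
  · have e' : ¬ σ o.1 = σ o.2 := fun h => e (σ.injective h)
    rw [if_neg e, if_neg e']
    exact prs_map σ o.1 o.2 hg

lemma acts_map (σ : Equiv.Perm ℕ) (os : List (ℕ × ℕ)) {w : List ℕ} (hg : Gauss w) :
    acts (os.map (fun o => (σ o.1, σ o.2))) (w.map σ) = (acts os w).map σ := by
  induction os generalizing w with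
  | nil => rfl
  | cons o os ih =>
    rw [List.map_cons]
    unfold acts
    rw [act_map σ o hg]
    exact ih (act_gauss o hg)

lemma acts_free_rot {os : List (ℕ × ℕ)} {u v : List ℕ} (h : Gauss (u ++ v)) :
    FreeEq (acts os (u ++ v)) (acts os (v ++ u)) :=
  KQ_free (K := fun _ => True) (KQ_acts (fun _ _ => ⟨trivial, trivial⟩) (KQ.rot h))

lemma acts_free_rev {os : List (ℕ × ℕ)} {u : List ℕ} (h : Gauss u) :
    FreeEq (acts os u) (acts os u.reverse) :=
  KQ_free (K := fun _ => True) (KQ_acts (fun _ _ => ⟨trivial, trivial⟩) (KQ.rev h))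

/-- all letters of the operations are letters of `L` -/
def Ops (os : List (ℕ × ℕ)) (L : List ℕ) : Prop := ∀ o ∈ os, o.1 ∈ L ∧ o.2 ∈ L

/-- same core, same smoothings up to a cyclic shift, a reversal and a renaming -/
def SameT (g : ℕ) (w w' : List ℕ) : Prop :=
  ∃ z, Iso w z ∧ GoodW (g + 1) z ∧ strip^[g] z = strip^[g] w' ∧
    ∀ os : List (ℕ × ℕ), Ops os (strip^[g] w') → FreeEq (acts os z) (acts os w')

lemma SameT.rot {g : ℕ} {w u v : List ℕ} (hw : Gauss (u ++ v)) (h : SameT g w (u ++ v)) :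
    SameT g w (v ++ u) := by
  obtain ⟨z, h1, h2, h3, h5⟩ := h
  obtain ⟨c1, c2⟩ := core_rot (g := g) hw
  obtain ⟨f, hf⟩ := iter_filter g z
  have hz := filter_self hf
  rw [h3] at hz
  rw [c1] at hz
  have hz' : z.filter (fun x => decide (x ∈ strip^[g] (u ++ v))) =
      u.filter (fun x => decide (x ∈ strip^[g] (u ++ v))) ++
      v.filter (fun x => decide (x ∈ strip^[g] (u ++ v))) := by
    rw [← c1] at hz
    rw [← c1]
    exact hz.symm
  obtain ⟨z1, z2, rfl, e1, e2⟩ := List.filter_eq_append_iff.1 hz'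
  have hgz := h2.rot
  obtain ⟨d1, d2⟩ := core_rot (g := g) h2.1
  rw [h3] at d2
  refine ⟨z2 ++ z1, h1.rot, hgz, ?_, ?_⟩
  · rw [d2, c2, e1, e2]
  · intro os hos
    have hos' : Ops os (strip^[g] (u ++ v)) := fun o ho =>
      ⟨(mem_rot hw _).1 (hos o ho).1, (mem_rot hw _).1 (hos o ho).2⟩
    exact (acts_free_rot h2.1).sy.tr ((h5 os hos').tr (acts_free_rot hw))

lemma SameT.rev {g : ℕ} {w w' : List ℕ} (hw : Gauss w') (h : SameT g w w') :
    SameT g w w'.reverse := by
  obtain ⟨z, h1, h2, h3, h5⟩ := h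
  refine ⟨z.reverse, h1.rev, h2.rev, ?_, ?_⟩
  · rw [iter_rev g h2.1, iter_rev g hw, h3]
  · intro os hos
    have hos' : Ops os (strip^[g] w') := by
      intro o ho
      have := hos o ho
      rwa [iter_rev g hw, List.mem_reverse, List.mem_reverse] at this
    exact (acts_free_rev h2.1).sy.tr ((h5 os hos').tr (acts_free_rev hw))

lemma SameT.ren {g : ℕ} {w w' : List ℕ} (hw : Gauss w') (σ : Equiv.Perm ℕ)
    (h : SameT g w w') : SameT g w (w'.map σ) := by
  obtain ⟨z, h1, h2, h3, h5⟩ := h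
  refine ⟨z.map σ, h1.ren σ, h2.ren σ, ?_, ?_⟩
  · rw [iter_ren g σ h2.1, iter_ren g σ hw, h3]
  · intro os hos
    have hos' : Ops (os.map (fun o => (σ.symm o.1, σ.symm o.2))) (strip^[g] w') := by
      intro o ho
      obtain ⟨d, hd, rfl⟩ := List.mem_map.1 ho
      obtain ⟨k1, k2⟩ := hos d hd
      rw [iter_ren g σ hw, List.mem_map] at k1 k2
      obtain ⟨e, he, he'⟩ := k1
      obtain ⟨f, hf, hf'⟩ := k2
      constructor
      · show σ.symm d.1 ∈ _
        rw [← he']
        simpa using he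
      · show σ.symm d.2 ∈ _
        rw [← hf']
        simpa using hf
    have e1 : os = (os.map (fun o => (σ.symm o.1, σ.symm o.2))).map (fun o => (σ o.1, σ o.2)) := by
      rw [List.map_map]
      conv_lhs => rw [← List.map_id os]
      apply List.map_congr_left
      intro a _
      simp
    rw [e1, acts_map σ _ h2.1, acts_map σ _ hw]
    exact FreeEq_ren σ (acts_gauss _ h2.1) (acts_gauss _ hw) (h5 _ hos')

lemma SameT.congr {g : ℕ} {w x y : List ℕ} (hs : strip^[g] x = strip^[g] y)
    (hS : ∀ os : List (ℕ × ℕ), Ops os (strip^[g] x) → FreeEq (acts os x) (acts os y)) :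
    SameT g w x ↔ SameT g w y := by
  constructor
  · rintro ⟨z, h1, h2, h3, h5⟩
    refine ⟨z, h1, h2, h3.trans hs, ?_⟩
    intro os hos
    rw [← hs] at hos
    exact (h5 os hos).tr (hS os hos)
  · rintro ⟨z, h1, h2, h3, h5⟩
    refine ⟨z, h1, h2, h3.trans hs.symm, ?_⟩
    intro os hos
    exact (h5 os (hs ▸ hos)).tr (hS os hos).sy

lemma sameT_step {g : ℕ} {w x y : List ℕ} (hs : TStep g x y) : SameT g w x ↔ SameT g w y := by
  obtain ⟨⟨hg, hg', h1, h2, hm⟩, hlen⟩ := hs
  have htwo : ∀ (a b : ℕ) (s U V : List ℕ), a ≠ b → (s = [a, b] ∨ s = [b, a]) →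
      Gauss ([a, b] ++ U ++ s ++ V) →
      (strip^[g] ([a, b] ++ U ++ s ++ V)).length = (strip^[g] (U ++ V)).length →
      (SameT g w ([a, b] ++ U ++ s ++ V) ↔ SameT g w (U ++ V)) := by
    intro a b s U V hab hs hg hlen
    have hst : strip^[g] ([a, b] ++ U ++ s ++ V) = strip^[g] (U ++ V) := by
      obtain ⟨U', V', e1, e2⟩ := iter_two g hab hs hg
      rcases e2 with e2 | e2
      · exfalso
        rw [e1, e2] at hlen
        simp only [List.length_append, List.length_cons, List.length_nil] at hlen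
        omega
      · rw [e1, e2]
    obtain ⟨aU, bU, aV, bV, _⟩ := hg.two hab hs
    have na : a ∉ strip^[g] (U ++ V) := fun hh => by
      have := iter_sub g _ hh
      rw [List.mem_append] at this
      exact this.elim aU aV
    have nb : b ∉ strip^[g] (U ++ V) := fun hh => by
      have := iter_sub g _ hh
      rw [List.mem_append] at this
      exact this.elim bU bV
    apply SameT.congr hst
    intro os hos
    rw [hst] at hos
    exact KQ_free (K := fun c => c ∈ strip^[g] (U ++ V)) (KQ_acts hos (KQ.two hab hs na nb hg))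
  cases hm with
  | rot U V => exact ⟨fun h => h.rot hg, fun h => h.rot hg'⟩
  | rev =>
    refine ⟨fun h => h.rev hg, fun h => ?_⟩
    have := h.rev hg'
    rwa [List.reverse_reverse] at this
  | ren σ =>
    refine ⟨fun h => h.ren hg σ, fun h => ?_⟩
    have h3 := h.ren hg' σ.symm
    have e1 : (x.map σ).map σ.symm = x := by
      rw [List.map_map]
      conv_rhs => rw [← List.map_id x]
      apply List.map_congr_left
      intro a _
      simp
    rwa [e1] at h3
  | anti a b U V hab => exact htwo a b [b, a] U V hab (Or.inr rfl) hg hlen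
  | par a b U V hab => exact htwo a b [a, b] U V hab (Or.inl rfl) hg hlen
  | three a b c p q r U V W hab hac hbc hp hq hr =>
    have htr : Tri a b c p q r := ⟨hab, hac, hbc, hp, hq, hr⟩
    obtain ⟨hst, am⟩ := atMost_of (U := U) (V := V) (W := W) htr hg h1
    apply SameT.congr
    · exact hst
    · intro os hos
      have hK : ¬ b ∈ strip^[g] (tw p q r U V W) ∧ ¬ c ∈ strip^[g] (tw p q r U V W) ∨
          ¬ a ∈ strip^[g] (tw p q r U V W) ∧ ¬ c ∈ strip^[g] (tw p q r U V W) ∨
          ¬ a ∈ strip^[g] (tw p q r U V W) ∧ ¬ b ∈ strip^[g] (tw p q r U V W) := by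
        unfold AtMost at am
        tauto
      exact KQ_free (K := fun c => c ∈ strip^[g] (tw p q r U V W))
        (KQ_acts hos (KQ.three htr hK hg))

theorem TEq_sameT {g : ℕ} {w w' : List ℕ} (hw : GoodW (g + 1) w) (h : TEq g w w') :
    SameT g w w' := by
  have key : ∀ x y, TEq g x y → (SameT g w x ↔ SameT g w y) := by
    intro x y hxy
    induction hxy with
    | rel x y hxy => exact sameT_step hxy
    | refl x => exact Iff.rfl
    | symm x y _ ih => exact ih.symm
    | trans x y z _ _ ih1 ih2 => exact ih1.trans ih2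
  apply (key w w' h).1
  exact ⟨w, Iso.refl w, hw, rfl, fun _ _ => Relation.EqvGen.refl _⟩

lemma Ops.inC {g : ℕ} {os : List (ℕ × ℕ)} {x : List ℕ} (h : Ops os (strip^[g] x)) :
    ∀ o ∈ os, InC g x o.1 ∧ InC g x o.2 := fun o ho => ⟨Or.inl (h o ho).1, Or.inl (h o ho).2⟩

/-- the core and the smoothings are invariants of the free knot -/
theorem acts_general {g : ℕ} {w w' : List ℕ} (hw : Gauss w) (hh : strip^[g + 1] w = [])
    (hirr : ∀ v, TEq g w v → ¬ TopBigon g v) (heq : FreeEq w w')
    (hh' : strip^[g + 1] w' = []) (hlen : (strip^[g] w').length = (strip^[g] w).length) :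
    ∃ z, Iso w z ∧ strip^[g] z = strip^[g] w' ∧
      ∀ os : List (ℕ × ℕ), (∀ o ∈ os, o.1 ∈ strip^[g] w' ∧ o.2 ∈ strip^[g] w') →
        FreeEq (acts os z) (acts os w') ∧
        (acts os (strip^[g] w') = [] → HEq g (acts os z) (acts os w')) := by
  have h1 := (top_general hw hh hirr heq).2.2 hh' hlen.symm
  obtain ⟨z, h2, h3, h4, h6⟩ := TEq_sameT ⟨hw, hh⟩ h1
  have hw' : Gauss w' := (FreeEq_gauss heq).1 hw
  refine ⟨z, h2, h4, fun os hos => ⟨h6 os hos, fun hall => ?_⟩⟩
  have hos' : Ops os (strip^[g] w') := hos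
  have k1 : strip^[g] (acts os z) = [] := by
    rw [iter_acts g h3.1 (Ops.inC (h4 ▸ hos')), h4]
    exact hall
  have k2 : strip^[g] (acts os w') = [] := by
    rw [iter_acts g hw' (Ops.inC hos')]
    exact hall
  obtain ⟨_, _, _, k3⟩ := height_general g (acts os z) (acts os w') (acts_gauss os h3.1) k1
    (h6 os hos)
  exact k3 k2

lemma sml_len {c : ℕ} {w : List ℕ} (hg : Gauss w) (hc : c ∈ w) :
    (sml c w).length + 2 = w.length := by
  obtain ⟨A, B, C, rfl, hA, hB, hC⟩ := split_two (hg c hc)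
  rw [sml_split hA hB]
  simp only [List.length_append, List.length_cons, List.length_reverse]
  omega

lemma prs_len {c d : ℕ} {w : List ℕ} (hcd : c ≠ d) (hl : lnk c d w = true) :
    (prs c d w).length + 4 = w.length := by
  unfold prs
  rw [if_pos hl]
  obtain ⟨A, B, C, D, E, h1, h2⟩ := lnk_split hl
  rcases h1 with rfl | rfl
  · rw [prs_val1 hcd h2]
    simp only [List.length_append, List.length_cons]
    omega
  · rw [prs_val2 hcd h2]
    simp only [List.length_append, List.length_cons]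
    omega

lemma act_len {g : ℕ} {o : ℕ × ℕ} {w : List ℕ} (hg : Gauss w) (k1 : o.1 ∈ strip^[g] w)
    (k2 : o.2 ∈ strip^[g] w) :
    (act o w).length + (strip^[g] w).length = w.length + (act o (strip^[g] w)).length := by
  unfold act
  by_cases e : o.1 = o.2
  · rw [if_pos e, if_pos e]
    have h1 := sml_len hg (iter_sub g w k1)
    have h2 := sml_len (hg.iter g) k1
    omega
  · rw [if_neg e, if_neg e]
    by_cases hl : lnk o.1 o.2 w = true
    · have h1 := prs_len e hl
      have h2 := prs_len e ((lnk_iter k1 k2).trans hl)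
      omega
    · have hl' : ¬ lnk o.1 o.2 (strip^[g] w) = true := by rw [lnk_iter k1 k2]; exact hl
      unfold prs
      rw [if_neg hl, if_neg hl']

lemma acts_len {g : ℕ} {os : List (ℕ × ℕ)} {w : List ℕ} (hg : Gauss w)
    (hc : ∀ o ∈ os, InC g w o.1 ∧ InC g w o.2) :
    (acts os w).length + (strip^[g] w).length = w.length + (acts os (strip^[g] w)).length := by
  induction os generalizing w with
  | nil => rfl
  | cons o os ih =>
    unfold acts
    obtain ⟨h1, h2⟩ := hc o List.mem_cons_self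
    have h5 := ih (act_gauss o hg) (fun o' ho' => by
      obtain ⟨h4, h5⟩ := hc o' (List.mem_cons_of_mem _ ho')
      exact ⟨act_inC hg h1 h2 h4, act_inC hg h1 h2 h5⟩)
    by_cases hn : o.1 ∉ w ∨ o.2 ∉ w
    · have hn' : o.1 ∉ strip^[g] w ∨ o.2 ∉ strip^[g] w := by
        rcases hn with hn | hn
        · exact Or.inl (fun h => hn (iter_sub g w h))
        · exact Or.inr (fun h => hn (iter_sub g w h))
      rw [act_none hn] at h5 ⊢
      rw [act_none hn']
      exact h5
    · push Not at hn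
      have k1 : o.1 ∈ strip^[g] w := h1.resolve_right (fun h => h hn.1)
      have k2 : o.2 ∈ strip^[g] w := h2.resolve_right (fun h => h hn.2)
      have h6 := act_len hg k1 k2
      rw [iter_act g hg k1 k2] at h5
      omega

lemma KQ_true_len {x y : List ℕ} (h : KQ (fun _ => True) x y) : x.length = y.length := by
  induction h with
  | rel x y h =>
    obtain ⟨hx, hy, h⟩ := h
    rcases h with ⟨U, V, rfl, rfl⟩ | rfl | ⟨a, b, ha, hb, rfl⟩ |
      ⟨a, b, s, U, V, hab, hs, ha, hb, rfl, rfl⟩ |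
      ⟨a, b, c', p, q, r, U, V, W, htr, hK, rfl, rfl⟩
    · simp only [List.length_append]
      omega
    · rw [List.length_reverse]
    · exact absurd trivial ha
    · exact absurd trivial ha
    · rcases hK with h | h | h <;> exact absurd trivial h.1
  | refl x => rfl
  | symm x y _ ih => exact ih.symm
  | trans x y z _ _ ih1 ih2 => exact ih1.trans ih2

/-- transport of operations along a shift, a reversal and a renaming -/
lemma iso_acts {g : ℕ} {w z : List ℕ} {os : List (ℕ × ℕ)} (hw : Gauss w) (h : Iso w z)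
    (hos : Ops os (strip^[g] w)) :
    ∃ os' : List (ℕ × ℕ), Ops os' (strip^[g] z) ∧ FreeEq (acts os w) (acts os' z) ∧
      (acts os' z).length = (acts os w).length ∧ z.length = w.length := by
  have key : ∀ (y : List ℕ) (σ : Equiv.Perm ℕ), Gauss y → Ops os (strip^[g] y) →
      KQ (fun _ => True) w y →
      ∃ os' : List (ℕ × ℕ), Ops os' (strip^[g] (y.map σ)) ∧
        FreeEq (acts os w) (acts os' (y.map σ)) ∧
        (acts os' (y.map σ)).length = (acts os w).length ∧ (y.map σ).length = w.length := by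
    intro y σ hy hoy hk
    have hk2 := KQ_acts (os := os) (fun _ _ => ⟨trivial, trivial⟩) hk
    refine ⟨os.map (fun o => (σ o.1, σ o.2)), ?_, ?_, ?_, ?_⟩
    · intro o ho
      obtain ⟨d, hd, rfl⟩ := List.mem_map.1 ho
      rw [iter_ren g σ hy]
      exact ⟨List.mem_map_of_mem (hoy d hd).1, List.mem_map_of_mem (hoy d hd).2⟩
    · rw [acts_map σ os hy]
      refine (KQ_free hk2).tr ?_
      have gy := acts_gauss os hy
      exact Relation.EqvGen.rel _ _ ⟨gy, gy.map σ, Or.inl (Move.ren σ _)⟩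
    · rw [acts_map σ os hy, List.length_map, KQ_true_len hk2]
    · rw [List.length_map, KQ_true_len hk]
  obtain ⟨n, σ, h⟩ := h
  rcases h with rfl | rfl
  · obtain ⟨u, v, e1, e2⟩ := rotate_split w n
    rw [e2]
    subst e1
    apply key _ σ (gauss_rot hw)
    · intro o ho
      exact ⟨(mem_rot hw _).2 (hos o ho).1, (mem_rot hw _).2 (hos o ho).2⟩
    · exact KQ.rot hw
  · obtain ⟨u, v, e1, e2⟩ := rotate_split w.reverse n
    rw [e2]
    have hr := gauss_rev hw
    rw [e1] at hr
    apply key _ σ (gauss_rot hr)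
    · intro o ho
      obtain ⟨k1, k2⟩ := hos o ho
      rw [mem_rot hr, mem_rot hr, ← e1, iter_rev g hw, List.mem_reverse, List.mem_reverse]
      exact ⟨k1, k2⟩
    · have h1 := KQ.rev (K := fun _ => True) hw
      rw [e1] at h1
      exact h1.trans (KQ.rot hr)

/-- lower bounds lift from a smoothing -/
theorem bound_lift {g n : ℕ} {w : List ℕ} {os : List (ℕ × ℕ)} (hw : Gauss w)
    (hh : strip^[g + 1] w = []) (hirr : ∀ v, TEq g w v → ¬ TopBigon g v)
    (hos : Ops os (strip^[g] w)) (hn : ∀ u, FreeEq (acts os w) u → n ≤ u.length)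
    {w' : List ℕ} (heq : FreeEq w w') :
    n + w.length ≤ w'.length + (acts os w).length ∧
      (n = (acts os w).length → w'.length = w.length → TEq g w w') := by
  obtain ⟨v, hv, hle, hex⟩ := top_exists hw hh hirr heq
  obtain ⟨z, h2, h3, h4, h6⟩ := TEq_sameT ⟨hw, hh⟩ hv
  obtain ⟨os', k1, k2, k3, k4⟩ := iso_acts hw h2 hos
  have hvg : Gauss v := by
    have := (HEq_good (TEq_HEq hv)).1 ⟨hw, hh⟩
    exact this.1
  have k5 : Ops os' (strip^[g] v) := h4 ▸ k1
  have k6 := hn _ (k2.tr (h6 os' k5))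
  have k7 := acts_len h3.1 (Ops.inC k1)
  have k8 := acts_len hvg (Ops.inC k5)
  rw [h4] at k7
  refine ⟨by omega, fun he hl => ?_⟩
  obtain ⟨m1, m2⟩ := hex (by omega)
  exact (top_general hw hh hirr heq).2.2 m1 m2.symm

/-- what a certificate certifies -/
theorem cert_bound {w : List ℕ} {m : ℕ} (h : Cert w m) : ∀ w', FreeEq w w' →
    m ≤ w'.length ∧ (m = w.length → w'.length = w.length → ∃ g, TEq g w w') := by
  induction h with
  | zero w =>
    intro w' _
    refine ⟨Nat.zero_le _, fun h1 h2 => ⟨0, ?_⟩⟩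
    have e1 : w = [] := List.length_eq_zero_iff.1 h1.symm
    have e2 : w' = [] := List.length_eq_zero_iff.1 (by omega)
    rw [e1, e2]
    exact Relation.EqvGen.refl _
  | step g w os n m hw hh hB hos _ hm ih =>
    intro w' heq
    have hirr : ∀ v, TEq g w v → ¬ TopBigon g v := fun v hv => blocked_no_bigon hw hh hB hv
    obtain ⟨h1, h2⟩ := bound_lift hw hh hirr hos (fun u hu => (ih u hu).1) heq
    refine ⟨by omega, fun e1 e2 => ⟨g, h2 (by omega) e2⟩⟩

/-- an example with eight chords, two of them even -/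
theorem cert_example : Cert [0, 1, 0, 2, 1, 3, 4, 3, 5, 6, 2, 6, 4, 7, 5, 7] 16 := by
  have g1 : Gauss [0, 1, 0, 2, 1, 3, 4, 3, 5, 6, 2, 6, 4, 7, 5, 7] := by
    unfold Gauss
    decide
  have g2 : Gauss [0, 3, 4, 3, 5, 6, 0, 6, 4, 7, 5, 7] := by
    unfold Gauss
    decide
  have e1 : acts [(2, 2), (1, 1)] [0, 1, 0, 2, 1, 3, 4, 3, 5, 6, 2, 6, 4, 7, 5, 7] =
      [0, 3, 4, 3, 5, 6, 0, 6, 4, 7, 5, 7] := by decide +kernel
  have c2 : Cert [0, 3, 4, 3, 5, 6, 0, 6, 4, 7, 5, 7] 12 :=
    Cert.step 0 _ [(0, 0), (3, 3), (4, 4), (5, 5), (6, 6), (7, 7)] 0 12 g2 (by decide +kernel)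
      (blocked_of_chk g2 (by decide +kernel)) (by decide +kernel) (Cert.zero _)
      (by decide +kernel)
  have c1 : Cert (acts [(2, 2), (1, 1)] [0, 1, 0, 2, 1, 3, 4, 3, 5, 6, 2, 6, 4, 7, 5, 7]) 12 := by
    rw [e1]
    exact c2
  exact Cert.step 1 _ [(2, 2), (1, 1)] 12 16 g1 (by decide +kernel)
    (blocked_of_chk g1 (by decide +kernel)) (by decide +kernel) c1 (by decide +kernel)

end Pool.Agent.Run7.h906
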