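import Mathlib
import Pool.Agent.Run7.h906.SmooI
import Pool.Agent.Run7.h906.SepDefs

set_option linter.unusedSimpArgs false

namespace Pool.Agent.Run7.h906

lemma lnk_bigon {a b : ℕ} {s U V : List ℕ} (hab : a ≠ b) (hs : s = [a, b] ∨ s = [b, a])
    (hg : Gauss ([a, b] ++ U ++ s ++ V)) :
    (lnk a b ([a, b] ++ U ++ s ++ V) = true ↔ s = [a, b]) := by
  obtain ⟨aU, bU, aV, bV, _⟩ := hg.two hab hs
  have hn : ∀ X : List ℕ, a ∉ X → b ∉ X → X.filter (fun x => x == a || x == b) = [] := by
    intro X ha hb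
    rw [List.filter_eq_nil_iff]
    intro x hx
    have h1 : x ≠ a := by rintro rfl; exact ha hx
    have h2 : x ≠ b := by rintro rfl; exact hb hx
    simp [h1, h2]
  have e0 : [a, b].filter (fun x => x == a || x == b) = [a, b] := by
    simp [List.filter_cons]
  have e1 : s.filter (fun x => x == a || x == b) = s := by
    rcases hs with rfl | rfl <;> simp [List.filter_cons]
  have e2 : ([a, b] ++ U ++ s ++ V).filter (fun x => x == a || x == b) = [a, b] ++ s := by
    simp only [List.filter_append, hn U aU bU, hn V aV bV, e0, e1, List.append_nil]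
  rw [lnk_iff, e2]
  rcases hs with rfl | rfl
  · simp
  · simp [hab, hab.symm]

lemma par_acts {a b : ℕ} {U V : List ℕ} (hab : a ≠ b)
    (hg : Gauss ([a, b] ++ U ++ [a, b] ++ V)) :
    sml b (sml a ([a, b] ++ U ++ [a, b] ++ V)) = sml a (sml b ([a, b] ++ U ++ [a, b] ++ V)) := by
  obtain ⟨aU, bU, aV, bV, _⟩ := hg.two hab (Or.inl rfl)
  have e1 : [a, b] ++ U ++ [a, b] ++ V = [] ++ a :: ((b :: U) ++ a :: (b :: V)) := by simp
  have e2 : [a, b] ++ U ++ [a, b] ++ V = [a] ++ b :: ((U ++ [a]) ++ b :: V) := by simp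
  have n1 : a ∉ ([] : List ℕ) := by simp
  have n2 : a ∉ b :: U := by simp [hab, aU]
  have n3 : b ∉ [a] := by simp [hab.symm]
  have n4 : b ∉ U ++ [a] := by simp [hab.symm, bU]
  have r1 : sml a ([a, b] ++ U ++ [a, b] ++ V) = U.reverse ++ b :: ([] ++ b :: V) := by
    rw [e1, sml_split n1 n2]; simp
  have r2 : sml b ([a, b] ++ U ++ [a, b] ++ V) = [] ++ a :: ([] ++ a :: (U.reverse ++ V)) := by
    rw [e2, sml_split n3 n4]; simp
  have n5 : b ∉ U.reverse := by simpa using bU
  have n6 : b ∉ ([] : List ℕ) := by simp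
  rw [r1, r2, sml_split n5 n6, sml_split n1 n1]
  simp

lemma anti_acts {a b : ℕ} {U V : List ℕ} (hab : a ≠ b)
    (hg : Gauss ([a, b] ++ U ++ [b, a] ++ V)) :
    (sml a ([a, b] ++ U ++ [b, a] ++ V)).map (Equiv.swap a b) =
      sml b ([a, b] ++ U ++ [b, a] ++ V) := by
  obtain ⟨aU, bU, aV, bV, _⟩ := hg.two hab (Or.inr rfl)
  have e1 : [a, b] ++ U ++ [b, a] ++ V = [] ++ a :: ((b :: (U ++ [b])) ++ a :: V) := by simp
  have e2 : [a, b] ++ U ++ [b, a] ++ V = [a] ++ b :: (U ++ b :: (a :: V)) := by simp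
  have n1 : a ∉ ([] : List ℕ) := by simp
  have n2 : a ∉ b :: (U ++ [b]) := by simp [hab, aU]
  have n3 : b ∉ [a] := by simp [hab.symm]
  have r1 : sml a ([a, b] ++ U ++ [b, a] ++ V) = [b] ++ U.reverse ++ [b] ++ V := by
    rw [e1, sml_split n1 n2]; simp
  have r2 : sml b ([a, b] ++ U ++ [b, a] ++ V) = [a] ++ U.reverse ++ [a] ++ V := by
    rw [e2, sml_split n3 bU]; simp
  have aU' : a ∉ U.reverse := by simpa using aU
  have bU' : b ∉ U.reverse := by simpa using bU
  rw [r1, r2]
  simp only [List.map_append, map_swap_self aU' bU', map_swap_self aV bV]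
  simp

lemma iso_perm {w z : List ℕ} (hw : Gauss w) (h : Iso w z) :
    ∃ (y : List ℕ) (σ : Equiv.Perm ℕ), Gauss y ∧ z = y.map σ ∧ KQ (fun _ => True) w y ∧
      (∀ g a, a ∈ strip^[g] y ↔ a ∈ strip^[g] w) ∧ (∀ c d, lnk c d y = lnk c d w) ∧
      (∀ g, ∃ u v, (strip^[g] w = u ++ v ∨ (strip^[g] w).reverse = u ++ v) ∧
        strip^[g] y = v ++ u) := by
  have hl : ∀ u v : List ℕ, ∀ c d, lnk c d (v ++ u) = lnk c d (u ++ v) := by
    intro u v c d
    rw [Bool.eq_iff_iff]
    exact ⟨lnk_rot, lnk_rot⟩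
  obtain ⟨n, σ, h⟩ := h
  rcases h with rfl | rfl
  · obtain ⟨u, v, e1, e2⟩ := rotate_split w n
    rw [e2]
    subst e1
    refine ⟨v ++ u, σ, gauss_rot hw, rfl, KQ.rot hw, fun g a => mem_rot hw a, hl u v,
      fun g => ?_⟩
    obtain ⟨c1, c2⟩ := core_rot (g := g) hw
    exact ⟨_, _, Or.inl c1, c2⟩
  · obtain ⟨u, v, e1, e2⟩ := rotate_split w.reverse n
    rw [e2]
    have hr := gauss_rev hw
    rw [e1] at hr
    have h1 := KQ.rev (K := fun _ => True) hw
    rw [e1] at h1
    refine ⟨v ++ u, σ, gauss_rot hr, rfl, h1.trans (KQ.rot hr), fun g a => ?_, fun c d => ?_,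
      fun g => ?_⟩
    · rw [mem_rot hr, ← e1, iter_rev g hw, List.mem_reverse]
    · rw [hl u v c d, ← e1, Bool.eq_iff_iff]
      refine ⟨fun h => ?_, lnk_rev⟩
      have := lnk_rev h
      rwa [List.reverse_reverse] at this
    · obtain ⟨c1, c2⟩ := core_rot (g := g) hr
      refine ⟨_, _, Or.inr ?_, c2⟩
      rw [← iter_rev g hw, e1]
      exact c1

lemma lnk_symm (c e : ℕ) (w : List ℕ) : lnk c e w = lnk e c w := by
  rw [Bool.eq_iff_iff, lnk_iff, lnk_iff]
  have h : (fun x => x == c || x == e) = (fun x : ℕ => x == e || x == c) := by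
    funext x
    exact Bool.or_comm _ _
  rw [h]
  exact or_comm

/-- the test `Sep` implies that no bigon of top letters appears -/
theorem sep_no_bigon {g : ℕ} {w : List ℕ} (hw : Gauss w) (hh : strip^[g + 1] w = [])
    (hsep : Sep g w) {v : List ℕ} (hv : TEq g w v) : ¬ TopBigon g v := by
  rintro ⟨a, b, s, U, V, hab, hs, rfl, ha⟩
  obtain ⟨z, h2, h3, h4, h6⟩ := TEq_sameT ⟨hw, hh⟩ hv
  have hvg : Gauss ([a, b] ++ U ++ s ++ V) := ((HEq_good (TEq_HEq hv)).1 ⟨hw, hh⟩).1
  obtain ⟨U', V', hcv⟩ : ∃ U' V', strip^[g] ([a, b] ++ U ++ s ++ V) =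
      [a, b] ++ U' ++ s ++ V' := by
    obtain ⟨aU, bU, aV, bV, _⟩ := hvg.two hab hs
    obtain ⟨U', V', e1, e2⟩ := iter_two g hab hs hvg
    rcases e2 with e2 | e2
    · exact ⟨U', V', e2⟩
    · exfalso
      rw [e2, ← e1] at ha
      have := iter_sub g _ ha
      rw [List.mem_append] at this
      exact this.elim aU aV
  have hb : b ∈ strip^[g] ([a, b] ++ U ++ s ++ V) := by
    rw [hcv]; simp
  obtain ⟨y, σ, hy, rfl, hk, hcore, hlk, hrt⟩ := iso_perm hw h2
  have hz : ∀ c, c ∈ strip^[g] w ↔ σ c ∈ strip^[g] ([a, b] ++ U ++ s ++ V) := by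
    intro c
    rw [← hcore g c, ← h4, iter_ren g σ hy, List.mem_map]
    constructor
    · intro h
      exact ⟨c, h, rfl⟩
    · rintro ⟨d, hd, hdc⟩
      rw [σ.injective hdc] at hd
      exact hd
  obtain ⟨c, rfl⟩ := σ.surjective a
  obtain ⟨e, rfl⟩ := σ.surjective b
  have hce : c ≠ e := by rintro rfl; exact hab rfl
  have hc := (hz c).2 ha
  have he := (hz e).2 hb
  have hcb : CB g w c e ∨ CB g w e c := by
    obtain ⟨u, v, e1, e2⟩ := hrt g
    have e3 : strip^[g] y = [c, e] ++ U'.map σ.symm ++ s.map σ.symm ++ V'.map σ.symm := by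
      have e4 := iter_ren g σ hy
      rw [h4, hcv] at e4
      have e5 := congrArg (List.map σ.symm) e4
      rw [List.map_map] at e5
      have e6 : (strip^[g] y).map (σ.symm ∘ σ) = strip^[g] y := by
        conv_rhs => rw [← List.map_id (strip^[g] y)]
        apply List.map_congr_left
        intro x _
        simp
      rw [e6] at e5
      rw [← e5]
      simp
    have hs1 : s.map σ.symm = [c, e] ∨ s.map σ.symm = [e, c] := by
      rcases hs with rfl | rfl <;> simp
    rw [e2] at e3
    rcases e1 with e1 | e1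
    · exact Or.inl ⟨u, v, _, _, _, e1, hs1, e3⟩
    · right
      have e7 : strip^[g] w = v.reverse ++ u.reverse := by
        have := congrArg List.reverse e1
        rw [List.reverse_reverse, List.reverse_append] at this
        exact this
      have e8 : u.reverse ++ v.reverse = (V'.map σ.symm).reverse ++ (s.map σ.symm).reverse ++
          (U'.map σ.symm).reverse ++ [e, c] := by
        have := congrArg List.reverse e3
        rw [List.reverse_append] at this
        rw [this]
        simp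
      -- cut the core at the place of the bigon
      have e9 : ∃ p q : List ℕ, strip^[g] w = p ++ q ∧ q ++ p =
          [e, c] ++ (V'.map σ.symm).reverse ++ (s.map σ.symm).reverse ++
            (U'.map σ.symm).reverse := by
        have e10 : ∃ n, strip^[g] w = (u.reverse ++ v.reverse).rotate n := by
          refine ⟨u.reverse.length, ?_⟩
          rw [List.rotate_append_length_eq, e7]
        obtain ⟨n, e10⟩ := e10
        have e11 : ∃ m, [e, c] ++ (V'.map σ.symm).reverse ++ (s.map σ.symm).reverse ++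
            (U'.map σ.symm).reverse = (strip^[g] w).rotate m := by
          have e12 : [e, c] ++ (V'.map σ.symm).reverse ++ (s.map σ.symm).reverse ++
              (U'.map σ.symm).reverse ~r strip^[g] w := by
            have r1 : (u.reverse ++ v.reverse) ~r strip^[g] w := ⟨n, e10.symm⟩
            have r2 : (V'.map σ.symm).reverse ++ (s.map σ.symm).reverse ++
                (U'.map σ.symm).reverse ++ [e, c] ~r [e, c] ++ ((V'.map σ.symm).reverse ++
                  (s.map σ.symm).reverse ++ (U'.map σ.symm).reverse) :=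
              List.isRotated_append
            rw [← e8] at r2
            have r3 := r2.symm.trans r1
            simpa using r3
          obtain ⟨m, hm⟩ := e12.symm
          exact ⟨m, hm.symm⟩
        obtain ⟨m, e11⟩ := e11
        obtain ⟨p, q, e13, e14⟩ := rotate_split (strip^[g] w) m
        exact ⟨p, q, e13, by rw [e11, e14]⟩
      obtain ⟨p, q, e13, e14⟩ := e9
      refine ⟨p, q, _, _, (s.map σ.symm).reverse, e13, ?_, e14⟩
      rcases hs1 with h | h <;> rw [h] <;> simp
  obtain ⟨os, hos, hsp⟩ : ∃ os : List (ℕ × ℕ),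
      (∀ o ∈ os, (o.1 ∈ strip^[g] w ∧ o.1 ≠ c ∧ o.1 ≠ e) ∧
        (o.2 ∈ strip^[g] w ∧ o.2 ≠ c ∧ o.2 ≠ e)) ∧
      ((lnk c e w = true ∧
          ¬ FreeEq (acts ((c, c) :: (e, e) :: os) w) (acts ((e, e) :: (c, c) :: os) w)) ∨
        (lnk c e w = false ∧ ¬ FreeEq (acts ((c, c) :: os) w) (acts ((e, e) :: os) w))) := by
    rcases hcb with h | h
    · exact hsep c e hce h
    · obtain ⟨os, hos, hsp⟩ := hsep e c hce.symm h
      refine ⟨os, fun o ho => ?_, ?_⟩
      · obtain ⟨⟨k1, k2, k3⟩, ⟨k4, k5, k6⟩⟩ := hos o ho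
        exact ⟨⟨k1, k3, k2⟩, ⟨k4, k6, k5⟩⟩
      · rw [lnk_symm c e w]
        rcases hsp with ⟨k1, k2⟩ | ⟨k1, k2⟩
        · exact Or.inl ⟨k1, fun h => k2 h.sy⟩
        · exact Or.inr ⟨k1, fun h => k2 h.sy⟩
  have hl : lnk (σ c) (σ e) ([σ c, σ e] ++ U ++ s ++ V) = lnk c e w := by
    rw [← lnk_iter ha hb, ← h4, lnk_iter (h4.symm ▸ ha) (h4.symm ▸ hb), lnk_map, hlk]
  have hwz : ∀ L : List (ℕ × ℕ),
      FreeEq (acts L w) (acts (L.map (fun o => (σ o.1, σ o.2))) (y.map σ)) := by
    intro L
    rw [acts_map σ L hy]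
    have hk2 := KQ_acts (os := L) (fun _ _ => ⟨trivial, trivial⟩) hk
    have gy := acts_gauss L hy
    exact (KQ_free hk2).tr (Relation.EqvGen.rel _ _ ⟨gy, gy.map σ, Or.inl (Move.ren σ _)⟩)
  have hops : Ops (os.map (fun o => (σ o.1, σ o.2)))
      (strip^[g] ([σ c, σ e] ++ U ++ s ++ V)) := by
    intro o ho
    obtain ⟨d, hd, rfl⟩ := List.mem_map.1 ho
    exact ⟨(hz _).1 (hos d hd).1.1, (hz _).1 (hos d hd).2.1⟩
  -- it is enough to compare the operations on the word with the bigon
  have key : ∀ L L' : List (ℕ × ℕ),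
      Ops (L.map (fun o => (σ o.1, σ o.2))) (strip^[g] ([σ c, σ e] ++ U ++ s ++ V)) →
      Ops (L'.map (fun o => (σ o.1, σ o.2))) (strip^[g] ([σ c, σ e] ++ U ++ s ++ V)) →
      FreeEq (acts (L.map (fun o => (σ o.1, σ o.2))) ([σ c, σ e] ++ U ++ s ++ V))
        (acts (L'.map (fun o => (σ o.1, σ o.2))) ([σ c, σ e] ++ U ++ s ++ V)) →
      FreeEq (acts L w) (acts L' w) := by
    intro L L' hL hL' hLL
    exact (hwz L).tr ((h6 _ hL).tr (hLL.tr ((h6 _ hL').sy.tr (hwz L').sy)))
  rcases hsp with ⟨hlt, hne⟩ | ⟨hlf, hne⟩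
  · apply hne
    have hs' : s = [σ c, σ e] := (lnk_bigon hab hs hvg).1 (hl.trans hlt)
    subst hs'
    apply key
    · intro o ho
      simp only [List.map_cons, List.mem_cons] at ho
      rcases ho with rfl | rfl | ho
      · exact ⟨ha, ha⟩
      · exact ⟨hb, hb⟩
      · exact hops o ho
    · intro o ho
      simp only [List.map_cons, List.mem_cons] at ho
      rcases ho with rfl | rfl | ho
      · exact ⟨hb, hb⟩
      · exact ⟨ha, ha⟩
      · exact hops o ho
    · simp only [List.map_cons, acts, act, if_true]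
      rw [par_acts hab hvg]
      exact Relation.EqvGen.refl _
  · apply hne
    have hs' : s = [σ e, σ c] := by
      rcases hs with h | h
      · exfalso
        have := (lnk_bigon hab (Or.inl h) hvg).2 h
        rw [hl, hlf] at this
        exact absurd this (by decide)
      · exact h
    subst hs'
    apply key
    · intro o ho
      simp only [List.map_cons, List.mem_cons] at ho
      rcases ho with rfl | ho
      · exact ⟨ha, ha⟩
      · exact hops o ho
    · intro o ho
      simp only [List.map_cons, List.mem_cons] at ho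
      rcases ho with rfl | ho
      · exact ⟨hb, hb⟩
      · exact hops o ho
    · simp only [List.map_cons, acts, act, if_true]
      rw [← anti_acts hab hvg]
      have gs := sml_gauss (σ c) hvg
      have e1 : os.map (fun o => (σ o.1, σ o.2)) =
          (os.map (fun o => (σ o.1, σ o.2))).map
            (fun o => (Equiv.swap (σ c) (σ e) o.1, Equiv.swap (σ c) (σ e) o.2)) := by
        rw [List.map_map]
        apply List.map_congr_left
        intro o ho
        obtain ⟨⟨_, h1, h2⟩, ⟨_, h3, h4⟩⟩ := hos o ho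
        have k1 : σ o.1 ≠ σ c := fun h => h1 (σ.injective h)
        have k2 : σ o.1 ≠ σ e := fun h => h2 (σ.injective h)
        have k3 : σ o.2 ≠ σ c := fun h => h3 (σ.injective h)
        have k4 : σ o.2 ≠ σ e := fun h => h4 (σ.injective h)
        simp only [Function.comp_apply]
        rw [Equiv.swap_apply_of_ne_of_ne k1 k2, Equiv.swap_apply_of_ne_of_ne k3 k4]
      conv_rhs => rw [e1, acts_map (Equiv.swap (σ c) (σ e)) _ gs]
      have ga := acts_gauss (os.map (fun o => (σ o.1, σ o.2))) gs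
      exact Relation.EqvGen.rel _ _ ⟨ga, ga.map _, Or.inl (Move.ren _ _)⟩

/-- what a certificate certifies -/
theorem crt_bound {w : List ℕ} {m : ℕ} (h : Crt w m) : ∀ w', FreeEq w w' →
    m ≤ w'.length ∧ (m = w.length → w'.length = w.length → ∃ g, TEq g w w') := by
  induction h with
  | zero w =>
    intro w' _
    refine ⟨Nat.zero_le _, fun h1 h2 => ⟨0, ?_⟩⟩
    have e1 : w = [] := List.length_eq_zero_iff.1 h1.symm
    have e2 : w' = [] := List.length_eq_zero_iff.1 (by omega)
    rw [e1, e2]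
    exact Relation.EqvGen.refl _
  | step g w os n m hw hh hB hos _ hm ih =>
    intro w' heq
    have hirr : ∀ v, TEq g w v → ¬ TopBigon g v := fun v hv => by
      rcases hB with hB | hB
      · exact blocked_no_bigon hw hh hB hv
      · exact sep_no_bigon hw hh hB hv
    obtain ⟨h1, h2⟩ := bound_lift hw hh hirr hos (fun u hu => (ih u hu).1) heq
    refine ⟨by omega, fun e1 e2 => ⟨g, h2 (by omega) e2⟩⟩

end Pool.Agent.Run7.h906
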