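import Mathlib
import Pool.Agent.Run7.h906.SepA

set_option linter.unusedSimpArgs false

namespace Pool.Agent.Run7.h906

/-- an example with eight chords, two of them even, that passes `Sep 1` but not `Blocked 1` -/
theorem crt_example : Crt [0, 1, 0, 2, 1, 3, 4, 3, 5, 6, 5, 7, 2, 7, 4, 6] 16 := by
  have g1 : Gauss [0, 1, 0, 2, 1, 3, 4, 3, 5, 6, 5, 7, 2, 7, 4, 6] := by
    unfold Gauss
    decide
  have g2 : Gauss [0, 3, 4, 3, 5, 6, 5, 7, 0, 7, 4, 6] := by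
    unfold Gauss
    decide
  have g3 : Gauss [0, 7, 5, 6, 5, 3, 4, 3, 0, 7, 4, 6] := by
    unfold Gauss
    decide
  have g4 : Gauss [5, 6, 5, 3, 4, 3, 4, 6] := by
    unfold Gauss
    decide
  have e1 : acts [(2, 2), (1, 1)] [0, 1, 0, 2, 1, 3, 4, 3, 5, 6, 5, 7, 2, 7, 4, 6] =
      [0, 3, 4, 3, 5, 6, 5, 7, 0, 7, 4, 6] := by decide +kernel
  have e2 : acts [(1, 1), (2, 2)] [0, 1, 0, 2, 1, 3, 4, 3, 5, 6, 5, 7, 2, 7, 4, 6] =
      [0, 7, 5, 6, 5, 3, 4, 3, 0, 7, 4, 6] := by decide +kernel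
  have c2 : Crt [0, 3, 4, 3, 5, 6, 5, 7, 0, 7, 4, 6] 12 :=
    Crt.step 0 _ [(0, 0), (3, 3), (4, 4), (5, 5), (6, 6), (7, 7)] 0 12 g2 (by decide +kernel)
      (Or.inl (blocked_of_chk g2 (by decide +kernel))) (by decide +kernel) (Crt.zero _)
      (by decide +kernel)
  have c1 : Crt (acts [(2, 2), (1, 1)] [0, 1, 0, 2, 1, 3, 4, 3, 5, 6, 5, 7, 2, 7, 4, 6]) 12 := by
    rw [e1]
    exact c2
  have h3 : FreeEq [0, 7, 5, 6, 5, 3, 4, 3, 0, 7, 4, 6] [5, 6, 5, 3, 4, 3, 4, 6] :=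
    Relation.EqvGen.rel _ _ ⟨g3, g4, Or.inl (Move.par 0 7 [5, 6, 5, 3, 4, 3] [4, 6] (by decide))⟩
  have ne : ¬ FreeEq [0, 3, 4, 3, 5, 6, 5, 7, 0, 7, 4, 6] [0, 7, 5, 6, 5, 3, 4, 3, 0, 7, 4, 6] := by
    intro h
    have := (crt_bound c2 _ (h.tr h3)).1
    simp at this
  have core : strip^[1] [0, 1, 0, 2, 1, 3, 4, 3, 5, 6, 5, 7, 2, 7, 4, 6] = [1, 2, 1, 2] := by
    decide +kernel
  have hsep : Sep 1 [0, 1, 0, 2, 1, 3, 4, 3, 5, 6, 5, 7, 2, 7, 4, 6] := by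
    intro c e hce hcb
    obtain ⟨u, v, U, V, s, k1, k2, k3⟩ := hcb
    have hmem : ∀ x, x ∈ [c, e] → x = 1 ∨ x = 2 := by
      intro x hx
      have h1 : x ∈ v ++ u := by
        rw [k3]
        simp only [List.mem_append]
        exact Or.inl (Or.inl (Or.inl hx))
      have h2 : x ∈ u ++ v := by
        rw [List.mem_append] at h1 ⊢
        exact h1.symm
      rw [← k1, core] at h2
      simp only [List.mem_cons, List.not_mem_nil, or_false] at h2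
      omega
    have hc := hmem c (by simp)
    have he := hmem e (by simp)
    refine ⟨[], by simp, Or.inl ?_⟩
    have h12 : (c = 1 ∧ e = 2) ∨ (c = 2 ∧ e = 1) := by omega
    rcases h12 with ⟨rfl, rfl⟩ | ⟨rfl, rfl⟩
    · refine ⟨by decide +kernel, ?_⟩
      rw [e1, e2]
      exact fun h => ne h.sy
    · refine ⟨by decide +kernel, ?_⟩
      rw [e1, e2]
      exact ne
  exact Crt.step 1 _ [(2, 2), (1, 1)] 12 16 g1 (by decide +kernel) (Or.inr hsep)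
    (by decide +kernel) c1 (by decide +kernel)

end Pool.Agent.Run7.h906
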