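import Mathlib
import Pool.Agent.Run7.h906.SmooE

set_option linter.unusedSimpArgs false

namespace Pool.Agent.Run7.h906

lemma top_ex_class2 {g : ℕ} {w w' : List ℕ} (hw : GoodW (g + 1) w)
    (hirr : ∀ v, TEq g w v → ¬ TopBigon g v) (heq : HEq (g + 1) w w') :
    ∃ (v : List ℕ) (K : Finset ℕ), TEq g w v ∧ K ⊆ KK g w' ∧
      v.Perm (w'.filter (fun a => decide (a ∉ K))) := by
  have hC := class_TCls hw hirr
  have hw' : GoodW (g + 1) w' := (HEq_good heq).1 hw
  obtain ⟨t, ht, et⟩ := exists_lab w hw.1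
  obtain ⟨t', ht', et'⟩ := exists_lab w' hw'.1
  have h1 : G g (TEq g w) t = 1 := by
    rw [G_only hC ht (by rw [et]), et]
    exact ind_true (.refl _)
  have h2 := G_inv hC heq ht ht' et et'
  rw [h1] at h2
  have h4 : ∃ K ∈ (KK g (t'.map half)).powerset, ∃ T ∈ K.powerset,
      CC (CT (TEq g w)) (Sys K T t') := by
    by_contra hcon
    push Not at hcon
    unfold G at h2
    rw [Finset.sum_eq_zero (fun K hK => by
      unfold HS
      exact Finset.sum_eq_zero (fun T hT => ind_false (hcon K hK T hT)))] at h2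
    exact absurd h2 (by decide)
  obtain ⟨K, hK, T, _, l, p, h5, h6, h7⟩ := h4
  rw [Finset.mem_powerset] at hK
  obtain ⟨_, hp, hwp⟩ := tour_core ht' hK h5 h6
  refine ⟨(word l).map half, K, h7, et' ▸ hK, ?_⟩
  have h8 := hwp.map half
  refine h8.trans (List.Perm.of_eq ?_)
  rw [← et', List.filter_map]
  rfl

/-- every word of the free knot contains a word of the class -/
theorem top_contains {g : ℕ} {w w' : List ℕ} (hw : Gauss w) (hh : strip^[g + 1] w = [])
    (hirr : ∀ v, TEq g w v → ¬ TopBigon g v) (heq : FreeEq w w') :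
    ∃ (v : List ℕ) (S : Finset ℕ), TEq g w v ∧ (∀ a ∈ S, a ∈ strip^[g] w') ∧
      v.Perm (w'.filter (fun a => decide (a ∉ S))) := by
  have hgw : GoodW (g + 1) w := ⟨hw, hh⟩
  have hC := class_Cls (h := g + 1) (w0 := w) hgw
  have hw' : Gauss w' := (FreeEq_gauss heq).1 hw
  obtain ⟨t, ht, et⟩ := exists_lab w hw
  obtain ⟨t', ht', et'⟩ := exists_lab w' hw'
  have h1 : F (g + 1) (HEq (g + 1) w) t = 1 := by
    rw [F_good hC ht (by rw [et]; exact hh), et]
    exact ind_true (.refl _)
  have h2 := F_inv hC heq ht ht' et et'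
  rw [h1] at h2
  have h4 : ∃ T ∈ (KK (g + 1) (t'.map half)).powerset,
      CC (CT (HEq (g + 1) w)) (Sys (KK (g + 1) (t'.map half)) T t') := by
    by_contra hcon
    push Not at hcon
    unfold F at h2
    rw [Finset.sum_eq_zero (fun T hT => ind_false (hcon T hT))] at h2
    exact absurd h2 (by decide)
  obtain ⟨T, _, l, p, h5, h6, h7⟩ := h4
  have hKs : KK (g + 1) (t'.map half) ⊆ KK g (t'.map half) := by
    intro c hc
    unfold KK at hc ⊢
    rw [List.mem_toFinset] at hc ⊢
    rw [Function.iterate_succ_apply'] at hc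
    exact strip_sub _ hc
  obtain ⟨_, hp, hwp⟩ := tour_core ht' hKs h5 h6
  have h8 : ((word l).map half).Perm
      (w'.filter (fun a => decide (a ∉ KK (g + 1) w'))) := by
    have h8 := hwp.map half
    refine h8.trans (List.Perm.of_eq ?_)
    rw [← et', List.filter_map]
    rfl
  obtain ⟨v1, hv1⟩ : ∃ v, v = (word l).map half := ⟨_, rfl⟩
  unfold CT at h7
  rw [← hv1] at h7 h8 hp
  rw [et'] at hp
  obtain ⟨v, K, k1, k2, k3⟩ := top_ex_class2 hgw hirr h7
  refine ⟨v, KK (g + 1) w' ∪ K, k1, ?_, ?_⟩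
  · intro a ha
    rw [Finset.mem_union] at ha
    rcases ha with ha | ha
    · have := hKs (et'.symm ▸ ha)
      rw [et'] at this
      unfold KK at this
      exact List.mem_toFinset.1 this
    · have h9 := k2 ha
      unfold KK at h9
      rw [List.mem_toFinset, hp.mem_iff, List.mem_filter] at h9
      exact h9.1
  · refine k3.trans ((h8.filter _).trans (List.Perm.of_eq ?_))
    rw [List.filter_filter]
    apply List.filter_congr
    intro a _
    by_cases h1 : a ∈ KK (g + 1) w' <;> by_cases h2 : a ∈ K <;> simp [h1, h2]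

end Pool.Agent.Run7.h906
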