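import Mathlib
import Pool.Agent.Run7.h906.BlockL

namespace Pool.Agent.Run7.h906.BigonObstructionOld

open Pool.Agent.Run7.h906

/-- Let `w` be a Gauss word of height at most `g + 1` that passes the finite test `Blocked g`.
Then no word obtained from `w` inside this class, by moves that keep the number of top chords
(chords of level `g + 1`), contains a bigon of top chords. Hence every word `w'` of the same
free knot has at least as many chords of level exactly `g + 1` as `w`, with the description of
the case of equality; and two words that pass the test represent the same free knot if and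
only if they are connected by such moves. The word `010234213545` passes the test for
`g = 1`. -/
theorem result :
    (∀ (g : ℕ) (w : List ℕ), Gauss w → strip^[g + 1] w = [] → Blocked g w →
      (∀ v, TEq g w v → ¬ TopBigon g v) ∧
      (∀ w', FreeEq w w' →
        (strip^[g] w).length + (strip^[g + 1] w').length ≤ (strip^[g] w').length ∧
        ((strip^[g] w).length + (strip^[g + 1] w').length = (strip^[g] w').length →
          ∃ v, TEq g w v ∧
            v.Perm (w'.filter (fun a => decide (a ∉ strip^[g + 1] w')))) ∧
        (strip^[g + 1] w' = [] → (strip^[g] w).length = (strip^[g] w').length →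
          TEq g w w')) ∧
      (∀ w', Gauss w' → strip^[g + 1] w' = [] → Blocked g w' →
        (FreeEq w w' ↔ TEq g w w'))) ∧
    (Gauss [0, 1, 0, 2, 3, 4, 2, 1, 3, 5, 4, 5] ∧
      strip^[2] [0, 1, 0, 2, 3, 4, 2, 1, 3, 5, 4, 5] = [] ∧
      strip^[1] [0, 1, 0, 2, 3, 4, 2, 1, 3, 5, 4, 5] = [2, 4, 2, 4] ∧
      Blocked 1 [0, 1, 0, 2, 3, 4, 2, 1, 3, 5, 4, 5]) :=
  ⟨fun _ _ hw hh hB => blocked_general hw hh hB, example_blocked⟩

end Pool.Agent.Run7.h906.BigonObstructionOld
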