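import Mathlib
import Pool.Agent.Run7.h906.LinkC

namespace Pool.Agent.Run7.h906.LinkingFormOld

open Pool.Agent.Run7.h906

/-- Let `w` be a Gauss word of height at most `g + 1` such that no word obtained from `w` inside
this class, by moves that keep the number of top chords, contains a bigon of top chords. Then
the core (the word of the top chords) and the linking form modulo 2 of the other chords on the
cycles of the core are invariants of the free knot: for every word `w'` of the same free knot
with height at most `g + 1` and as many top chords, some word `z` obtained from `w` by a cyclic
shift and a renaming, possibly after reversal, has the same core and the same linking form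
as `w'`. -/
theorem result (g : ℕ) (w w' : List ℕ) (hw : Gauss w) (hh : strip^[g + 1] w = [])
    (hirr : ∀ v, TEq g w v → ¬ TopBigon g v) (heq : FreeEq w w')
    (hh' : strip^[g + 1] w' = []) (hlen : (strip^[g] w').length = (strip^[g] w).length) :
    ∃ z, Iso w z ∧ strip^[g] z = strip^[g] w' ∧
      ∀ c e, c ∈ strip^[g] w' → e ∈ strip^[g] w' → ∀ k l,
        BF g c e k l z = BF g c e k l w' :=
  link_general hw hh hirr heq hh' hlen

end Pool.Agent.Run7.h906.LinkingFormOld
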